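import Mathlib

/-!
Determinant bounds for an arbitrary absolute value.
-/

set_option autoImplicit false

namespace Pool.Agent.Lib.MP_07b2d0_nt

open Finset

variable {F : Type} [Field F]

theorem card_mul_le_two_mul_sum (s : Finset ℕ) :
    (s.card : ℝ) * (s.card - 1) ≤ 2 * ∑ x ∈ s, (x : ℝ) := by
  induction s using Finset.induction_on_max with
  | empty => simp
  | insert a s ha ih =>
    have hna : a ∉ s := fun h => lt_irrefl _ (ha a h)
    have hsub : s ⊆ range a := fun x hx => mem_range.mpr (ha x hx)
    have hc : (s.card : ℝ) ≤ a := by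
      have := card_le_card hsub
      rw [card_range] at this
      exact_mod_cast this
    rw [card_insert_of_notMem hna, sum_insert hna]
    push_cast
    nlinarith

/-- Row-wise bound for a determinant. -/
theorem ab_det_le_prod (v : AbsoluteValue F ℝ) {ι : Type} [Fintype ι] [DecidableEq ι]
    (M : Matrix ι ι F) (β : ι → ℝ) (h : ∀ i j, v (M i j) ≤ β i) :
    v M.det ≤ (Fintype.card ι).factorial * ∏ i, β i := by
  rw [Matrix.det_apply']
  refine (v.sum_le _ _).trans ?_
  have : ∀ σ : Equiv.Perm ι,
      v (((Equiv.Perm.sign σ : ℤ) : F) * ∏ i, M (σ i) i) ≤ ∏ i, β i := by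
    intro σ
    rw [map_mul, map_prod]
    have h1 : v ((Equiv.Perm.sign σ : ℤ) : F) = 1 := by
      rcases Int.units_eq_one_or (Equiv.Perm.sign σ) with h | h <;> simp [h]
    rw [h1, one_mul, ← Equiv.prod_comp σ β]
    exact prod_le_prod (fun i _ => v.nonneg _) (fun i _ => h _ _)
  refine (sum_le_sum fun σ _ => this σ).trans ?_
  rw [sum_const, card_univ, Fintype.card_perm, nsmul_eq_mul]

/-- The analytic estimate for an interpolation determinant. -/
theorem ab_det_le (v : AbsoluteValue F ℝ) {ι : Type} [Fintype ι] [DecidableEq ι] (T : ℕ)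
    (φ : Fin T → ι → F) (w : ι → Fin T → F) (e : ι → ι → F) (M0 : ℝ) (hM0 : 0 ≤ M0)
    (hw : ∀ i u j, v (w i u * φ u j) ≤ M0 * Real.exp (-(u : ℕ)))
    (he : ∀ i j, v (e i j) ≤ M0 * Real.exp (-(Fintype.card ι : ℝ))) :
    v (Matrix.of fun i j => ∑ u, w i u * φ u j + e i j).det ≤
      (T + 1 : ℝ) ^ Fintype.card ι * ((Fintype.card ι).factorial * (M0 ^ Fintype.card ι *
        Real.exp (-(Fintype.card ι * (Fintype.card ι - 1) / 2)))) := by
  obtain ⟨N, hN⟩ : ∃ N, N = Fintype.card ι := ⟨_, rfl⟩
  rw [← hN] at he ⊢
  let g : ι → Option (Fin T) → ι → F := fun i o =>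
    o.elim (e i) (fun u => w i u • φ u)
  have hM : (Matrix.of fun i j => ∑ u, w i u * φ u j + e i j) =
      Matrix.of (fun i => ∑ o, g i o) := by
    ext i j
    simp [g, Fintype.sum_option, add_comm]
  have hdet : (Matrix.of (fun i => ∑ o, g i o)).det =
      ∑ r : ι → Option (Fin T), (Matrix.of fun i => g i (r i)).det :=
    (Matrix.detRowAlternating (n := ι) (R := F)).toMultilinearMap.map_sum g
  rw [hM, hdet]
  refine (v.sum_le _ _).trans ?_
  have key : ∀ r : ι → Option (Fin T), v (Matrix.of fun i => g i (r i)).det ≤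
      N.factorial * (M0 ^ N * Real.exp (-(N * (N - 1) / 2))) := by
    intro r
    by_cases hinj : ∃ i i' u, i ≠ i' ∧ r i = some u ∧ r i' = some u
    · obtain ⟨i, i', u, hne, hu, hu'⟩ := hinj
      let c : ι → F := fun i => (r i).elim 1 (fun u => w i u)
      let m : ι → ι → F := fun i => (r i).elim (e i) (fun u => φ u)
      have h1 : (fun i => g i (r i)) = fun i => c i • m i := by
        funext i
        rcases h : r i with _ | u <;> simp [g, c, m, h]
      have h2 : (Matrix.of fun i => c i • m i).det = (∏ i, c i) • (Matrix.of m).det :=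
        (Matrix.detRowAlternating (n := ι) (R := F)).toMultilinearMap.map_smul_univ c m
      have h3 : (Matrix.of m).det = 0 := by
        refine Matrix.det_zero_of_row_eq hne ?_
        funext j
        simp [m, hu, hu']
      rw [h1, h2, h3, smul_zero, map_zero]
      positivity
    · let W : ι → ℕ := fun i => (r i).elim N (fun u => u)
      have h1 : ∀ i j, v ((Matrix.of fun i => g i (r i)) i j) ≤ M0 * Real.exp (-(W i : ℝ)) := by
        intro i j
        rcases h : r i with _ | u
        · simpa [g, W, h] using he i j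
        · simpa [g, W, h] using hw i u j
      refine (ab_det_le_prod v _ _ h1).trans ?_
      rw [← hN]
      refine mul_le_mul_of_nonneg_left ?_ (by positivity)
      rw [prod_mul_distrib, prod_const, card_univ, ← Real.exp_sum, ← hN]
      refine mul_le_mul_of_nonneg_left (Real.exp_le_exp.mpr ?_) (by positivity)
      rw [sum_neg_distrib]
      have hsum : (N : ℝ) * (N - 1) / 2 ≤ ∑ i, (W i : ℝ) := by
        let I : Finset ι := univ.filter fun i => (r i).isSome
        have hI : Set.InjOn W I := by
          intro i hi i' hi' hW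
          by_contra hne
          obtain ⟨u, hu⟩ := Option.isSome_iff_exists.mp (mem_filter.mp hi).2
          obtain ⟨u', hu'⟩ := Option.isSome_iff_exists.mp (mem_filter.mp hi').2
          have h4 : u = u' := Fin.ext (by simpa [W, hu, hu'] using hW)
          exact hinj ⟨i, i', u, hne, hu, h4 ▸ hu'⟩
        have h2 := card_mul_le_two_mul_sum (I.image W)
        rw [card_image_of_injOn hI, sum_image hI] at h2
        have h3 : ∑ i ∈ Iᶜ, (W i : ℝ) = (N - I.card) * N := by
          rw [sum_congr rfl (g := fun _ => (N : ℝ)), sum_const, card_compl, nsmul_eq_mul,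
            Nat.cast_sub (card_le_univ I), ← hN]
          intro i hi
          have : r i = none := by simpa [I] using hi
          simp [W, this]
        have h4 : (I.card : ℝ) ≤ N := by rw [hN]; exact_mod_cast card_le_univ I
        rw [← sum_add_sum_compl I, h3]
        nlinarith
      linarith
  refine (sum_le_sum fun r _ => key r).trans ?_
  rw [sum_const, card_univ, Fintype.card_fun, Fintype.card_option, Fintype.card_fin, nsmul_eq_mul,
    ← hN]
  push_cast
  exact le_rfl

end Pool.Agent.Lib.MP_07b2d0_nt
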