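import Mathlib

/-!
A zero lemma on `G_a × G_m` for the points `(r + s N, α^r a^s)` over a field of characteristic zero.
-/

set_option autoImplicit false

namespace Pool.Agent.Lib.MP_07b2d0_nt

open Finset Polynomial

variable {F : Type} [Field F]

theorem coeff_prod_sum {ι : Type} [DecidableEq ι] (s : Finset ι) (f : ι → F[X]) (δ : ι → ℕ)
    (h : ∀ i ∈ s, (f i).natDegree ≤ δ i) :
    (∏ i ∈ s, f i).coeff (∑ i ∈ s, δ i) = ∏ i ∈ s, (f i).coeff (δ i) := by
  induction s using Finset.induction_on with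
  | empty => simp
  | insert a s ha ih =>
    rw [prod_insert ha, sum_insert ha, prod_insert ha,
      coeff_mul_add_eq_of_natDegree_le (h a (mem_insert_self _ _)),
      ih fun i hi => h i (mem_insert_of_mem hi)]
    exact (natDegree_prod_le _ _).trans
      (sum_le_sum fun i hi => h i (mem_insert_of_mem hi))

/-- The determinant of the translates of nonzero polynomials is a nonzero polynomial. -/
theorem det_translates {ν : ℕ} (q : Fin ν → F[X]) (hq : ∀ l, q l ≠ 0) (t : Fin ν → F)
    (ht : Function.Injective t) :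
    (Matrix.of fun (j l : Fin ν) => taylor ((j : ℕ) : F) (q l) * C (t l ^ (j : ℕ))).det ≠ 0 ∧
    (Matrix.of fun (j l : Fin ν) =>
      taylor ((j : ℕ) : F) (q l) * C (t l ^ (j : ℕ))).det.natDegree ≤ ∑ l, (q l).natDegree := by
  have hdeg : ∀ (j l : Fin ν),
      (taylor ((j : ℕ) : F) (q l) * C (t l ^ (j : ℕ))).natDegree ≤ (q l).natDegree := by
    intro j l
    refine (natDegree_mul_C_le _ _).trans ?_
    rw [natDegree_taylor]
  constructor
  · intro h0
    have h1 := congrArg (fun p => coeff p (∑ l, (q l).natDegree)) h0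
    simp only [Matrix.det_apply', finsetSum_coeff, coeff_zero, Matrix.of_apply] at h1
    have h2 : ∀ σ : Equiv.Perm (Fin ν),
        ((((Equiv.Perm.sign σ : ℤ) : F[X])) * ∏ l, taylor ((σ l : ℕ) : F) (q l) *
          C (t l ^ (σ l : ℕ))).coeff (∑ l, (q l).natDegree) =
        (∏ l, (q l).leadingCoeff) * (((Equiv.Perm.sign σ : ℤ) : F) * ∏ l, t l ^ (σ l : ℕ)) := by
      intro σ
      rw [← C_eq_intCast, coeff_C_mul, coeff_prod_sum _ _ _ fun l _ => hdeg _ l]
      simp only [coeff_mul_C, coeff_taylor_natDegree, prod_mul_distrib]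
      ring
    rw [sum_congr rfl fun σ _ => h2 σ, ← mul_sum] at h1
    have h3 : ∑ σ : Equiv.Perm (Fin ν), ((Equiv.Perm.sign σ : ℤ) : F) * ∏ l, t l ^ (σ l : ℕ) =
        (Matrix.vandermonde t).det := by
      rw [← Matrix.det_transpose, Matrix.det_apply']
      simp [Matrix.vandermonde]
    rw [h3] at h1
    rcases mul_eq_zero.mp h1 with h | h
    · obtain ⟨l, -, hl⟩ := prod_eq_zero_iff.mp h
      exact hq l (leadingCoeff_eq_zero.mp hl)
    · exact (Matrix.det_vandermonde_ne_zero_iff.mpr ht) h
  · rw [Matrix.det_apply']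
    refine natDegree_sum_le_of_forall_le _ _ fun σ _ => ?_
    rw [← C_eq_intCast]
    refine (natDegree_C_mul_le _ _).trans ((natDegree_prod_le _ _).trans ?_)
    exact sum_le_sum fun l _ => hdeg _ l

theorem binom_indep {K : ℕ} (p : Fin K → F)
    (h : ∀ z : ℕ, ∑ k, p k * (z.choose (k : ℕ) : F) = 0) (k : Fin K) : p k = 0 := by
  obtain ⟨k, hk⟩ := k
  induction k using Nat.strong_induction_on with
  | _ k ih =>
    have h1 := h k
    rw [sum_eq_single ⟨k, hk⟩] at h1
    · simpa using h1
    · rintro ⟨j, hj⟩ _ hne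
      rcases lt_trichotomy j k with h2 | h2 | h2
      · rw [ih j h2 hj, zero_mul]
      · exact absurd (Fin.ext h2) hne
      · simp [Nat.choose_eq_zero_of_lt h2]
    · simp

variable [CharZero F]

/-- The binomial polynomial. -/
noncomputable def binP (F : Type) [Field F] (k : ℕ) : F[X] :=
  C ((k.factorial : F)⁻¹) * descPochhammer F k

theorem binP_eval (k z : ℕ) : (binP F k).eval (z : F) = (z.choose k : F) := by
  have hk : (k.factorial : F) ≠ 0 := Nat.cast_ne_zero.mpr k.factorial_ne_zero
  rw [binP, eval_mul, eval_C, descPochhammer_eval_eq_descFactorial,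
    Nat.descFactorial_eq_factorial_mul_choose]
  push_cast
  field_simp

omit [CharZero F] in
theorem binP_natDegree (k : ℕ) : (binP F k).natDegree ≤ k := by
  refine (natDegree_C_mul_le _ _).trans ?_
  rw [descPochhammer_natDegree]

/-- Zero lemma. -/
theorem zero_lemma (α a : F) (hα0 : α ≠ 0) (ha : a ≠ 0)
    (hα : Function.Injective fun l : ℕ => α ^ l) (N K L R S : ℕ)
    (hR : R ≤ N) (hK : K * L ≤ R * S) (p : Fin K × Fin L → F)
    (hp : ∀ r < R + L, ∀ s < S,
      ∑ i, p i * ((((r + s * N).choose (i.1 : ℕ) : ℕ) : F) * (α ^ r * a ^ s) ^ (i.2 : ℕ)) = 0) :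
    p = 0 := by
  classical
  let Q : Fin L → F[X] := fun l => ∑ k : Fin K, C (p (k, l)) * binP F k
  have hQe : ∀ l (z : ℕ), (Q l).eval (z : F) = ∑ k : Fin K, p (k, l) * (z.choose (k : ℕ) : F) := by
    intro l z
    simp only [Q, eval_finsetSum, eval_mul, eval_C, binP_eval]
  have hQeval : ∀ (z : ℕ) (y : F),
      ∑ i : Fin K × Fin L, p i * ((z.choose (i.1 : ℕ) : F) * y ^ (i.2 : ℕ)) =
      ∑ l, (Q l).eval (z : F) * y ^ (l : ℕ) := by
    intro x y
    rw [Fintype.sum_prod_type_right]
    refine sum_congr rfl fun l _ => ?_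
    rw [hQe, sum_mul]
    exact sum_congr rfl fun k _ => by ring
  by_contra hne
  obtain ⟨⟨k0, l0⟩, h0⟩ := Function.ne_iff.mp hne
  have hK0 : 0 < K := k0.pos
  have hQdeg : ∀ l, (Q l).natDegree ≤ K - 1 := by
    intro l
    refine natDegree_sum_le_of_forall_le _ _ fun k _ => (natDegree_C_mul_le _ _).trans
      ((binP_natDegree _).trans ?_)
    have := k.2
    omega
  let I : Finset (Fin L) := univ.filter fun l => Q l ≠ 0
  have hl0 : l0 ∈ I := by
    simp only [I, mem_filter, mem_univ, true_and]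
    intro h
    apply h0
    refine binom_indep (fun k => p (k, l0)) (fun z => ?_) k0
    rw [← hQe, h, eval_zero]
  let ν := I.card
  have hνL : ν ≤ L := by simpa using card_le_univ I
  have hν0 : 0 < ν := card_pos.mpr ⟨l0, hl0⟩
  let e : Fin ν ≃ I := I.equivFin.symm
  have ht : Function.Injective fun l : Fin ν => α ^ ((e l : Fin L) : ℕ) := by
    intro l l' h
    exact e.injective (Subtype.ext (Fin.ext (hα h)))
  obtain ⟨hD0, hDdeg⟩ := det_translates (fun l => Q (e l)) (fun l => (mem_filter.mp (e l).2).2)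
    _ ht
  apply hD0
  refine eq_zero_of_natDegree_lt_card_of_eval_eq_zero _
    (f := fun rs : Fin R × Fin S => (((rs.1 : ℕ) + (rs.2 : ℕ) * N : ℕ) : F)) ?_ ?_ ?_
  · rintro ⟨r, s⟩ ⟨r', s'⟩ h
    have h1 : (r : ℕ) + s * N = r' + s' * N := Nat.cast_injective (R := F) h
    have hr := r.2
    have hr' := r'.2
    have h3 : (r : ℕ) ≡ r' [MOD N] := by
      have h3 : (r : ℕ) + s * N ≡ r' + s' * N [MOD N] := by rw [h1]
      simpa [Nat.ModEq, Nat.add_mul_mod_self_right] using h3
    have h4 : (r : ℕ) = r' := Nat.ModEq.eq_of_lt_of_lt h3 (by omega) (by omega)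
    rw [h4] at h1
    have h5 : (s : ℕ) = s' := Nat.eq_of_mul_eq_mul_right (show 0 < N by omega) (by omega)
    exact Prod.ext (Fin.ext h4) (Fin.ext h5)
  · rintro ⟨r, s⟩
    rw [← coe_evalRingHom, RingHom.map_det, ← Matrix.exists_mulVec_eq_zero_iff]
    refine ⟨fun l => (α ^ (r : ℕ) * a ^ (s : ℕ)) ^ ((e l : Fin L) : ℕ), ?_, ?_⟩
    · intro h
      have := congrFun h ⟨0, hν0⟩
      exact absurd this (pow_ne_zero _ (mul_ne_zero (pow_ne_zero _ hα0) (pow_ne_zero _ ha)))
    · funext j
      have h1 := hp (r + j) (by have := r.2; have := j.2; omega) s s.2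
      rw [hQeval, ← sum_subset (subset_univ I) (fun l _ hl => by
        have : Q l = 0 := by simpa [I] using hl
        simp [this]), ← sum_coe_sort, ← Equiv.sum_comp e] at h1
      rw [Pi.zero_apply, ← h1]
      simp only [Matrix.mulVec, dotProduct, RingHom.mapMatrix_apply, Matrix.map_apply,
        Matrix.of_apply, coe_evalRingHom, eval_mul, eval_C, taylor_eval]
      refine sum_congr rfl fun l _ => ?_
      push_cast
      rw [show ((r : ℕ) : F) + (s : ℕ) * N + (j : ℕ) = (r : ℕ) + (j : ℕ) + ((s : ℕ)) * N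
        by ring]
      simp only [mul_pow, pow_add, ← pow_mul]
      ring
  · refine hDdeg.trans_lt ?_
    rw [Fintype.card_prod, Fintype.card_fin, Fintype.card_fin]
    calc ∑ l : Fin ν, (Q (e l)).natDegree ≤ ∑ l : Fin ν, (K - 1) := sum_le_sum fun l _ => hQdeg _
      _ = ν * (K - 1) := by simp
      _ ≤ L * (K - 1) := Nat.mul_le_mul_right _ hνL
      _ < L * K := Nat.mul_lt_mul_of_pos_left (by omega) l0.pos
      _ ≤ R * S := by rw [mul_comm]; exact hK

/-- If no nonzero vector is orthogonal to all the columns, some square submatrix made of columns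
is nonsingular. -/
theorem exists_cols_det_ne_zero {F ι κ : Type} [Field F] [Fintype ι] [DecidableEq ι]
    (v : κ → ι → F) (h : ∀ p : ι → F, (∀ k, ∑ i, p i * v k i = 0) → p = 0) :
    ∃ c : ι → κ, (Matrix.of fun i j => v (c j) i).det ≠ 0 := by
  have hspan : Submodule.span F (Set.range v) = ⊤ := by
    by_contra hne
    obtain ⟨f, hf0, hf⟩ := Submodule.exists_le_ker_of_lt_top _ (lt_top_iff_ne_top.mpr hne)
    apply hf0
    have hp := h (fun i => f (Pi.single i 1)) (by
      intro k
      have h1 : f (v k) = 0 := hf (Submodule.subset_span ⟨k, rfl⟩)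
      rw [← h1, LinearMap.pi_apply_eq_sum_univ]
      refine sum_congr rfl fun i _ => ?_
      rw [smul_eq_mul, mul_comm]
      have : (fun j => if i = j then (1 : F) else 0) = Pi.single i 1 := by
        funext j; simp [Pi.single_apply, eq_comm]
      rw [this])
    ext i
    simpa using congrFun hp i
  obtain ⟨κ', a, -, hsp, hli⟩ := exists_linearIndependent' F v
  rw [hspan] at hsp
  let b := Module.Basis.mk hli (by rw [hsp])
  let eq := b.indexEquiv (Pi.basisFun F ι)
  refine ⟨fun j => a (eq.symm j), ?_⟩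
  have hli' : LinearIndependent F (fun j => v (a (eq.symm j))) := hli.comp eq.symm eq.symm.injective
  rw [← Matrix.det_transpose]
  have := Matrix.linearIndependent_rows_iff_isUnit.mp
    (show LinearIndependent F (Matrix.of fun j i => v (a (eq.symm j)) i).row from hli')
  exact (Matrix.isUnit_iff_isUnit_det _).mp this |>.ne_zero

end Pool.Agent.Lib.MP_07b2d0_nt
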