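import Mathlib
import Pool.Agent.Lib.MP_07b2d0_nt.Zero
import Pool.Agent.Lib.MP_07b2d0_nt.Det

/-!
Laurent's interpolation determinant in two logarithms for a finite family of absolute values.
-/

set_option autoImplicit false

namespace Pool.Agent.Lib.MP_07b2d0_nt

open Finset Real

variable {F : Type} [Field F]

theorem ab_le_one_add (v : AbsoluteValue F ℝ) (x : F) : v x ≤ 1 + v (x - 1) := by
  have := v.add_le 1 (x - 1)
  rwa [add_sub_cancel, map_one] at this

theorem ab_pow_sub_one (v : AbsoluteValue F ℝ) {x : F} {δ : ℝ} (h : v (x - 1) ≤ δ) (l : ℕ) :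
    v (x ^ l - 1) ≤ exp (l * δ) - 1 := by
  have hδ : 0 ≤ δ := (v.nonneg _).trans h
  induction l with
  | zero => simp
  | succ l ih =>
    have h1 : x ^ (l + 1) - 1 = x ^ l * (x - 1) + (x ^ l - 1) := by ring
    have h2 : v (x ^ l) ≤ exp (l * δ) := by linarith [ab_le_one_add v (x ^ l)]
    have h3 : v (x ^ l) * v (x - 1) ≤ exp (l * δ) * δ :=
      mul_le_mul h2 h (v.nonneg _) (exp_pos _).le
    have h4 : exp (l * δ) * (δ + 1) ≤ exp (l * δ) * exp δ :=
      mul_le_mul_of_nonneg_left (add_one_le_exp δ) (exp_pos _).le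
    rw [h1]
    refine (v.add_le _ _).trans ?_
    rw [map_mul]
    push_cast
    rw [add_mul, one_mul, exp_add]
    linarith

theorem ab_pow_sub_one' (v : AbsoluteValue F ℝ) {x : F} {δ : ℝ} (h : v (x - 1) ≤ δ) (l : ℕ)
    (hl : l * δ ≤ 1) : v (x ^ l - 1) ≤ 2 * (l * δ) := by
  have hδ : 0 ≤ δ := (v.nonneg _).trans h
  have h0 : 0 ≤ l * δ := by positivity
  have h1 := Real.abs_exp_sub_one_le (x := l * δ) (by rwa [abs_of_nonneg h0])
  rw [abs_of_nonneg h0] at h1
  exact (ab_pow_sub_one v h l).trans ((le_abs_self _).trans h1)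

theorem ab_pow_le_exp (v : AbsoluteValue F ℝ) {x : F} {δ : ℝ} (h : v (x - 1) ≤ δ) (l : ℕ) :
    v (x ^ l) ≤ exp (l * δ) := by
  linarith [ab_le_one_add v (x ^ l), ab_pow_sub_one v h l]

theorem choose_le_exp {z k K c : ℕ} (hz : z ≤ c * K) (hk : k ≤ K) (hc : 1 ≤ c) :
    (z.choose k : ℝ) ≤ exp (K * (1 + log c)) := by
  have hc' : (1 : ℝ) ≤ c := by exact_mod_cast hc
  have h1 : (z.choose k : ℝ) ≤ (z : ℝ) ^ k / k.factorial := Nat.choose_le_pow_div k z
  have h2 : (z : ℝ) ≤ c * K := by exact_mod_cast hz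
  have h3 := Real.pow_div_factorial_le_exp (K : ℝ) (by positivity) k
  have h4 : (c : ℝ) ^ k ≤ exp (K * log c) := by
    rw [exp_nat_mul, exp_log (by linarith)]
    exact pow_le_pow_right₀ hc' hk
  calc (z.choose k : ℝ) ≤ ((c : ℝ) * K) ^ k / k.factorial := h1.trans (by gcongr)
    _ = (K : ℝ) ^ k / k.factorial * (c : ℝ) ^ k := by rw [mul_pow]; ring
    _ ≤ exp K * exp (K * log c) := mul_le_mul h3 h4 (by positivity) (exp_pos _).le
    _ = _ := by rw [← exp_add]; congr 1; ring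

theorem choose_mul_pow_expand (β : F) (z k T : ℕ) (hz : z < T) :
    (z.choose k : F) * β ^ z =
      ∑ j : Fin T, β ^ k * ((j : ℕ).choose k : F) * (β - 1) ^ ((j : ℕ) - k) *
        (z.choose j : F) := by
  rw [Fin.sum_univ_eq_sum_range
    (fun j => β ^ k * (j.choose k : F) * (β - 1) ^ (j - k) * (z.choose j : F))]
  rcases lt_or_ge z k with hk | hk
  · rw [Nat.choose_eq_zero_of_lt hk, Nat.cast_zero, zero_mul]
    refine (sum_eq_zero fun j _ => ?_).symm
    rcases lt_or_ge j k with h | h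
    · simp [Nat.choose_eq_zero_of_lt h]
    · simp [Nat.choose_eq_zero_of_lt (hk.trans_le h)]
  · obtain ⟨m, rfl⟩ := Nat.exists_eq_add_of_le hk
    have h1 : β ^ m = ∑ i ∈ range (m + 1), (β - 1) ^ i * (m.choose i : F) := by
      have := add_pow (β - 1) 1 m
      simpa using this
    have h2 : range T = range k ∪ (Ico k (k + (m + 1)) ∪ Ico (k + (m + 1)) T) := by
      ext j; simp only [mem_range, mem_union, mem_Ico]; omega
    rw [h2, sum_union, sum_union, sum_eq_zero, sum_eq_zero (s := Ico (k + (m + 1)) T), zero_add,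
      add_zero, sum_Ico_eq_sum_range, pow_add, h1, mul_sum, mul_sum,
      show k + (m + 1) - k = m + 1 by omega]
    · refine sum_congr rfl fun i _ => ?_
      have h3 := Nat.choose_mul (n := k + m) (k := k + i) (s := k) (by omega)
      rw [Nat.add_sub_cancel_left, Nat.add_sub_cancel_left] at h3
      have h4 : (((k + m).choose (k + i) : ℕ) : F) * ((k + i).choose k : ℕ) =
          ((k + m).choose k : ℕ) * (m.choose i : ℕ) := by exact_mod_cast congrArg Nat.cast h3
      rw [Nat.add_sub_cancel_left]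
      linear_combination (-(β ^ k * (β - 1) ^ i)) * h4
    · intro j hj
      simp [Nat.choose_eq_zero_of_lt (show k + m < j by have := (mem_Ico.mp hj).1; omega)]
    · intro j hj
      simp [Nat.choose_eq_zero_of_lt (mem_range.mp hj)]
    · rw [disjoint_left]; intro j; simp only [mem_Ico]; omega
    · rw [disjoint_left]; intro j; simp only [mem_range, mem_union, mem_Ico]; omega

theorem ab_term_le (v : AbsoluteValue F ℝ) {β : F} {ε B Z : ℝ} (hβ : v (β - 1) ≤ ε) (hε : ε ≤ 1)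
    {z k K : ℕ} (j : ℕ) (hz : (z : ℝ) ≤ Z) (hk : k ≤ K) (hB : (z.choose k : ℝ) ≤ B) :
    v (β ^ k * (j.choose k : F) * (β - 1) ^ (j - k) * (z.choose j : F)) ≤
      exp (2 * K) * B * exp (3 * ε * Z) * exp (-(j : ℝ)) := by
  have hε0 : 0 ≤ ε := (v.nonneg _).trans hβ
  have hB0 : 0 ≤ B := le_trans (by positivity) hB
  rcases lt_or_ge j k with h | h
  · simp only [Nat.choose_eq_zero_of_lt h, Nat.cast_zero, mul_zero, zero_mul, map_zero]
    positivity
  · obtain ⟨i, rfl⟩ := Nat.exists_eq_add_of_le h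
    have h3 := Nat.choose_mul (n := z) (k := k + i) (s := k) (by omega)
    rw [Nat.add_sub_cancel_left] at h3 ⊢
    have h4 : β ^ k * ((k + i).choose k : F) * (β - 1) ^ i * (z.choose (k + i) : F) =
        β ^ k * (β - 1) ^ i * ((z.choose k * (z - k).choose i : ℕ) : F) := by
      rw [← h3]; push_cast; ring
    rw [h4, map_mul, map_mul, map_pow v (β - 1)]
    have h5 : v (β ^ k) ≤ exp k := by
      refine (ab_pow_le_exp v hβ k).trans (exp_le_exp.mpr ?_)
      exact mul_le_of_le_one_right (by positivity) hε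
    have h6 := v.apply_nat_le_self (z.choose k * (z - k).choose i)
    have h7 : (((z - k).choose i : ℕ) : ℝ) ≤ Z ^ i / i.factorial := by
      refine (Nat.choose_le_pow_div i (z - k)).trans ?_
      have : ((z - k : ℕ) : ℝ) ≤ Z := le_trans (by exact_mod_cast Nat.sub_le z k) hz
      gcongr
    have hZ : 0 ≤ Z := le_trans (by positivity) hz
    have h8 := Real.pow_div_factorial_le_exp (exp 1 * ε * Z) (by positivity) i
    have h9 : exp (exp 1 * ε * Z) ≤ exp (3 * ε * Z) := by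
      have := Real.exp_one_lt_d9
      gcongr
      linarith
    have h10 : ε ^ i * (Z ^ i / i.factorial) ≤ exp (3 * ε * Z) * exp (-(i : ℝ)) := by
      have h11 : ε ^ i * (Z ^ i / i.factorial) =
          (exp 1 * ε * Z) ^ i / i.factorial * exp (-(i : ℝ)) := by
        rw [mul_pow, mul_pow, ← exp_nat_mul, mul_one, exp_neg]
        field_simp
      rw [h11]
      exact mul_le_mul_of_nonneg_right (h8.trans h9) (exp_pos _).le
    have h11 : exp (k : ℝ) ≤ exp (2 * K) * exp (-(k : ℝ)) := by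
      rw [← exp_add]
      have : (k : ℝ) ≤ K := by exact_mod_cast hk
      exact exp_le_exp.mpr (by linarith)
    push_cast at h6 ⊢
    calc v (β ^ k) * v (β - 1) ^ i * v ((z.choose k : F) * ((z - k).choose i : F))
        ≤ exp k * ε ^ i * (B * (Z ^ i / i.factorial)) := by
          refine mul_le_mul (mul_le_mul h5 (pow_le_pow_left₀ (v.nonneg _) hβ i) (by positivity)
            (exp_pos _).le) (h6.trans ?_) (v.nonneg _) (by positivity)
          exact mul_le_mul hB h7 (by positivity) hB0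
      _ = exp k * B * (ε ^ i * (Z ^ i / i.factorial)) := by ring
      _ ≤ exp (2 * K) * exp (-(k : ℝ)) * B * (exp (3 * ε * Z) * exp (-(i : ℝ))) := by
          gcongr
      _ = _ := by rw [neg_add, exp_add]; ring

variable [CharZero F]

theorem core0 {ι : Type} [Fintype ι] (ab : ι → AbsoluteValue F ℝ) (wt : ι → ℝ)
    (hwt : ∀ i, 1 ≤ wt i) (Rg : Subring F)
    (hLi : ∀ x ∈ Rg, x ≠ 0 → 0 ≤ ∑ i, wt i * log (ab i x)) (p : ℝ) (hp : ∑ i, wt i ≤ p)
    (N K L R S c : ℕ) (hRN : R ≤ N) (hKL : K * L ≤ R * S) (hLR : L ≤ R) (hc : 1 ≤ c)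
    (hZ : R + L + S * N ≤ c * K) (hSL : S * L ≤ K * L) (hn : 1 ≤ K * L)
    (α u : F) (hα : α ∈ Rg) (ha : α ^ N * u ∈ Rg) (hα0 : α ≠ 0) (hu0 : u ≠ 0)
    (hinj : Function.Injective fun l : ℕ => α ^ l) (τ σ δ X : ℝ) (hτ : 0 ≤ τ) (hσ : 0 ≤ σ)
    (h1 : ∀ i, ab i α ≤ exp τ) (h2 : ∀ i, ab i (α ^ N * u) ≤ exp σ) (i0 : ι)
    (h3 : ab i0 (α - 1) ≤ δ) (hδ : L * δ ≤ 1 / 2)
    (h4 : ab i0 (u - 1) ≤ exp (-2 * ((K * L : ℕ) : ℝ)))
    (hX : K * (3 + log c) + 2 * R * L * τ + S * L * σ + 6 * δ * c * (K * L) ≤ X) :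
    ((K * L : ℕ) : ℝ) * (((K * L : ℕ) : ℝ) - 1) / 2 ≤
      p * (((K * L : ℕ) : ℝ) * (log ((K * L : ℕ) : ℝ) + X + log (c * K + 1))) := by
  classical
  obtain ⟨a, hadef⟩ : ∃ a, a = α ^ N * u := ⟨_, rfl⟩
  rw [← hadef] at ha h2
  have ha0 : a ≠ 0 := hadef ▸ mul_ne_zero (pow_ne_zero _ hα0) hu0
  have hδ0 : 0 ≤ δ := (AbsoluteValue.nonneg _ _).trans h3
  have hc' : (1 : ℝ) ≤ c := by exact_mod_cast hc
  have hlc : 0 ≤ log (c : ℝ) := log_nonneg hc'
  let κ := Fin K × Fin L
  have hcard : Fintype.card κ = K * L := by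
    simp only [κ, Fintype.card_prod, Fintype.card_fin]
  obtain ⟨n, hndef⟩ : ∃ n, n = K * L := ⟨_, rfl⟩
  have hnr : (K : ℝ) * L = n := by rw [hndef]; push_cast; ring
  rw [← hndef] at h4 hn hcard hSL ⊢
  have hn' : (1 : ℝ) ≤ n := by exact_mod_cast hn
  let v : Fin (R + L) × Fin S → κ → F := fun k i =>
    ((((k.1 : ℕ) + (k.2 : ℕ) * N).choose (i.1 : ℕ) : ℕ) : F) *
      (α ^ (k.1 : ℕ) * a ^ (k.2 : ℕ)) ^ (i.2 : ℕ)
  obtain ⟨col, hdet⟩ := exists_cols_det_ne_zero v (by
    intro q hq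
    refine zero_lemma α a hα0 ha0 hinj N K L R S hRN hKL q ?_
    intro r hr s hs
    exact hq (⟨r, hr⟩, ⟨s, hs⟩))
  obtain ⟨D, hD⟩ : ∃ D, D = (Matrix.of fun i j => v (col j) i).det := ⟨_, rfl⟩
  have hDR : D ∈ Rg := by
    rw [hD, Matrix.det_apply']
    refine sum_mem fun s' _ => mul_mem (intCast_mem _ _) (prod_mem fun i _ => ?_)
    exact mul_mem (natCast_mem _ _) (pow_mem (mul_mem (pow_mem hα _) (pow_mem ha _)) _)
  have hL0 := hLi D hDR (hD ▸ hdet)
  have hDpos : ∀ i, 0 < ab i D := fun i => (ab i).pos (hD ▸ hdet)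
  let z : κ → ℕ := fun j => ((col j).1 : ℕ) + ((col j).2 : ℕ) * N
  have hz : ∀ j, z j < c * K := fun j => by
    have e1 := (col j).1.2
    have e2 : ((col j).2 : ℕ) * N ≤ S * N := Nat.mul_le_mul_right _ (col j).2.2.le
    simp only [z]
    omega
  have hB : ∀ (i j : κ), ((z j).choose (i.1 : ℕ) : ℝ) ≤ exp (K * (1 + log c)) := fun i j =>
    choose_le_exp (hz j).le i.1.2.le hc
  have hKc : 0 ≤ (K : ℝ) * (1 + log c) := by positivity
  have hP1 : 0 ≤ 2 * (R : ℝ) * L * τ := by positivity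
  have hP2 : 0 ≤ (S : ℝ) * L * σ := by positivity
  have hP3 : 0 ≤ δ * c * ((K : ℝ) * L) := by positivity
  have hK0 : (0 : ℝ) ≤ K := by positivity
  have hX0 : 0 ≤ X := by nlinarith
  have hfac : log (n.factorial : ℝ) ≤ n * log n := by
    rw [← log_pow]
    exact log_le_log (by positivity) (by exact_mod_cast Nat.factorial_le_pow n)
  -- all places
  have hall : ∀ i, log (ab i D) ≤ n * log n + n * X := by
    intro i
    have e1 := ab_det_le_prod (ab i) (Matrix.of fun i j => v (col j) i) (fun _ => exp X) (by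
      intro k j
      simp only [Matrix.of_apply, v, map_mul, map_pow]
      have e2 : ab i α ^ ((col j).1 : ℕ) ≤ exp (2 * R * τ) := by
        refine (pow_le_pow_left₀ ((ab i).nonneg _) (h1 i) _).trans ?_
        rw [← exp_nat_mul]
        have : (((col j).1 : ℕ) : ℝ) ≤ 2 * R := by
          have := (col j).1.2
          exact_mod_cast (show ((col j).1 : ℕ) ≤ 2 * R by omega)
        gcongr
      have e3 : ab i a ^ ((col j).2 : ℕ) ≤ exp (S * σ) := by
        refine (pow_le_pow_left₀ ((ab i).nonneg _) (h2 i) _).trans ?_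
        rw [← exp_nat_mul]
        have : (((col j).2 : ℕ) : ℝ) ≤ S := by exact_mod_cast (col j).2.2.le
        gcongr
      have e4 : (ab i α ^ ((col j).1 : ℕ) * ab i a ^ ((col j).2 : ℕ)) ^ (k.2 : ℕ) ≤
          exp (2 * R * L * τ + S * L * σ) := by
        refine (pow_le_pow_left₀ (by positivity)
          (mul_le_mul e2 e3 (by positivity) (exp_pos _).le) _).trans ?_
        rw [← exp_add, ← exp_nat_mul]
        have e5 : ((k.2 : ℕ) : ℝ) ≤ L := by exact_mod_cast k.2.2.le
        refine exp_le_exp.mpr ?_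
        calc ((k.2 : ℕ) : ℝ) * (2 * R * τ + S * σ) ≤ L * (2 * R * τ + S * σ) := by gcongr
          _ = _ := by ring
      refine (mul_le_mul (((ab i).apply_nat_le_self _).trans (hB k j)) e4 (by positivity)
        (exp_pos _).le).trans ?_
      rw [← exp_add]
      exact exp_le_exp.mpr (by nlinarith))
    rw [← hD, prod_const, card_univ, hcard] at e1
    refine (log_le_log (hDpos i) e1).trans ?_
    rw [log_mul (by positivity) (by positivity), log_pow, log_exp]
    linarith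
  -- the special place
  have hspec : log (ab i0 D) ≤
      n * log n + n * X + n * log (c * K + 1) - n * (n - 1) / 2 := by
    let w : κ → Fin (c * K) → F := fun i j =>
      (α ^ (i.2 : ℕ)) ^ (i.1 : ℕ) * ((j : ℕ).choose i.1 : F) * (α ^ (i.2 : ℕ) - 1) ^ ((j : ℕ) - i.1)
    let φ : Fin (c * K) → κ → F := fun j k => ((z k).choose j : F)
    let e : κ → κ → F := fun i j =>
      ((z j).choose i.1 : F) * (α ^ (i.2 : ℕ)) ^ z j * (u ^ (((col j).2 : ℕ) * (i.2 : ℕ)) - 1)
    have e0 : (Matrix.of fun i j => ∑ q, w i q * φ q j + e i j) =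
        Matrix.of fun i j => v (col j) i := by
      ext i j
      simp only [Matrix.of_apply, w, φ, e, v]
      rw [← choose_mul_pow_expand _ _ _ _ (hz j), hadef]
      simp only [z]
      ring
    have hl : ∀ i : κ, ((i.2 : ℕ) : ℝ) * δ ≤ L * δ := fun i => by
      have : ((i.2 : ℕ) : ℝ) ≤ L := by exact_mod_cast i.2.2.le
      gcongr
    have e1 := ab_det_le (ab i0) (c * K) φ w e (exp X) (exp_pos _).le (by
      intro i q j
      have e2 : ab i0 (α ^ (i.2 : ℕ) - 1) ≤ 2 * (L * δ) :=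
        (ab_pow_sub_one' _ h3 _ (by linarith [hl i])).trans (by linarith [hl i])
      refine (ab_term_le (ab i0) e2 (by linarith) (Z := c * K) q
        (by exact_mod_cast (hz j).le) i.1.2.le (hB i j)).trans ?_
      refine mul_le_mul_of_nonneg_right ?_ (exp_pos _).le
      rw [← exp_add, ← exp_add]
      exact exp_le_exp.mpr (by nlinarith)) (by
      intro i j
      rw [hcard]
      simp only [e, map_mul]
      have e2 : ab i0 ((α ^ (i.2 : ℕ)) ^ z j) ≤ exp (δ * c * (K * L)) := by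
        rw [← pow_mul]
        refine (ab_pow_le_exp _ h3 _).trans (exp_le_exp.mpr ?_)
        have e3 : (i.2 : ℕ) * z j ≤ L * (c * K) := Nat.mul_le_mul i.2.2.le (hz j).le
        have e4 : (((i.2 : ℕ) * z j : ℕ) : ℝ) ≤ L * (c * K) := by exact_mod_cast e3
        calc _ ≤ L * (c * K) * δ := by gcongr
          _ = _ := by ring
      have e3 : ((((col j).2 : ℕ) * (i.2 : ℕ) : ℕ) : ℝ) ≤ n := by
        exact_mod_cast (Nat.mul_le_mul (col j).2.2.le i.2.2.le).trans hSL
      have e4 : 2 * (n * exp (-2 * (n : ℝ))) ≤ exp (-(n : ℝ)) := by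
        have e5 : 2 * (n : ℝ) ≤ exp n := Real.two_mul_le_exp
        calc 2 * (n * exp (-2 * (n : ℝ))) = 2 * n * exp (-2 * (n : ℝ)) := by ring
          _ ≤ exp n * exp (-2 * (n : ℝ)) := by gcongr
          _ = _ := by rw [← exp_add]; congr 1; ring
      have e5 : exp (-(n : ℝ)) ≤ 1 := exp_le_one_iff.mpr (by linarith)
      have e6 : ((((col j).2 : ℕ) * (i.2 : ℕ) : ℕ) : ℝ) * exp (-2 * (n : ℝ)) ≤
          n * exp (-2 * (n : ℝ)) := by gcongr
      have e7 : 0 ≤ n * exp (-2 * (n : ℝ)) := by positivity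
      have e8 := ab_pow_sub_one' _ h4 (((col j).2 : ℕ) * (i.2 : ℕ)) (by linarith)
      refine mul_le_mul ?_ (by linarith) ((ab i0).nonneg _) (exp_pos _).le
      refine (mul_le_mul (((ab i0).apply_nat_le_self _).trans (hB i j)) e2 ((ab i0).nonneg _)
        (exp_pos _).le).trans ?_
      rw [← exp_add]
      exact exp_le_exp.mpr (by nlinarith))
    rw [e0, ← hD, hcard] at e1
    refine (log_le_log (hDpos i0) e1).trans ?_
    rw [log_mul (by positivity) (by positivity), log_mul (by positivity) (by positivity),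
      log_mul (by positivity) (by positivity), log_pow, log_pow, log_exp, log_exp]
    push_cast
    linarith
  obtain ⟨A, hA⟩ : ∃ A, A = n * (log n + X + log (c * K + 1 : ℝ)) := ⟨_, rfl⟩
  have hl1 : 0 ≤ log (n : ℝ) := log_nonneg hn'
  have hl2 : 0 ≤ log (c * K + 1 : ℝ) := log_nonneg (by nlinarith)
  have hA0 : 0 ≤ A := by rw [hA]; positivity
  have hY : 0 ≤ (n : ℝ) * (n - 1) / 2 := by nlinarith
  have e1 : ∑ i, wt i * log (ab i D) ≤
      ∑ i, (wt i * A - if i = i0 then (n : ℝ) * (n - 1) / 2 else 0) := by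
    refine sum_le_sum fun i _ => ?_
    have hw := hwt i
    split_ifs with h
    · subst h
      have : log (ab i D) ≤ A - n * (n - 1) / 2 := by rw [hA]; linarith
      nlinarith
    · have : log (ab i D) ≤ A := by
        have := hall i
        rw [hA]; nlinarith
      nlinarith
  rw [sum_sub_distrib, ← sum_mul, sum_ite_eq' univ i0, if_pos (mem_univ _)] at e1
  rw [← hA]
  nlinarith

/-- The constant of the two logarithm estimate. -/
def coreC (p : ℕ) : ℕ := 96 * p * (384 * p ^ 2 * ((144 * p) ^ 2) ^ 2)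

theorem log_le_two_sqrt {x : ℝ} (hx : 0 < x) : log x ≤ 2 * √x := by
  have h1 := Real.log_le_sub_one_of_pos (Real.sqrt_pos.mpr hx)
  rw [Real.log_sqrt hx.le] at h1
  linarith

theorem core_num (p n c K L : ℝ) (hp : 1 ≤ p) (hL : 96 * p ≤ L) (hn : L ^ 2 ≤ n)
    (hcK : c * K + 1 ≤ n ^ 2) (hcK0 : 0 ≤ c * K) :
    p * (n * (log n + 5 / 24 * n / p + log (c * K + 1))) < n * (n - 1) / 2 := by
  have hn1 : 9216 ≤ n := by nlinarith
  have h1 : log (c * K + 1) ≤ 2 * log n := by
    have := log_le_log (by linarith) hcK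
    rwa [log_pow] at this
  have h2 := log_le_two_sqrt (show 0 < n by linarith)
  have h3 : L ≤ √n := Real.le_sqrt_of_sq_le hn
  have h4 : √n * √n = n := Real.mul_self_sqrt (by linarith)
  have h5 : p * (log n + log (c * K + 1)) ≤ n / 16 := by
    calc p * (log n + log (c * K + 1)) ≤ p * (6 * √n) := by gcongr; linarith
      _ = 96 * p * √n / 16 := by ring
      _ ≤ √n * √n / 16 := by gcongr; linarith
      _ = n / 16 := by rw [h4]
  have h6 : p * (n * (log n + 5 / 24 * n / p + log (c * K + 1))) =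
      n * (p * (log n + log (c * K + 1)) + 5 / 24 * n) := by field_simp; ring
  rw [h6]
  nlinarith

theorem core {ι : Type} [Fintype ι] (ab : ι → AbsoluteValue F ℝ) (wt : ι → ℝ)
    (hwt : ∀ i, 1 ≤ wt i) (Rg : Subring F)
    (hLi : ∀ x ∈ Rg, x ≠ 0 → 0 ≤ ∑ i, wt i * log (ab i x)) (p : ℕ) (hp : ∑ i, wt i ≤ p)
    (hp1 : 1 ≤ p) (t N : ℕ) (ht : 1 ≤ t) (hN : coreC p ≤ N)
    (α u : F) (hα : α ∈ Rg) (ha : α ^ N * u ∈ Rg) (hα0 : α ≠ 0) (hu0 : u ≠ 0)
    (hinj : Function.Injective fun l : ℕ => α ^ l)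
    (h1 : ∀ i, ab i α ≤ exp (2 * t)) (h2 : ∀ i, ab i (α ^ N * u) ≤ exp (2 * N / coreC p)) (i0 : ι)
    (h3 : ab i0 (α - 1) ≤ 1 / coreC p) (h4 : ab i0 (u - 1) ≤ exp (-(N * t / p))) : False := by
  obtain ⟨q, hq⟩ : ∃ q, q = 144 * p := ⟨_, rfl⟩
  obtain ⟨L, hL⟩ : ∃ L, L = q ^ 2 := ⟨_, rfl⟩
  obtain ⟨c, hc⟩ : ∃ c, c = 384 * p ^ 2 * L ^ 2 := ⟨_, rfl⟩
  have hC : coreC p = 96 * p * c := by rw [coreC, hc, hL, hq]
  rw [hC] at hN h2 h3
  obtain ⟨R, hR⟩ : ∃ R, R = N / (128 * p ^ 2 * L) := ⟨_, rfl⟩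
  obtain ⟨K, hK⟩ : ∃ K, K = 64 * p * t * R := ⟨_, rfl⟩
  obtain ⟨S, hS⟩ : ∃ S, S = 64 * p * t * L := ⟨_, rfl⟩
  have hq1 : 144 ≤ q := by omega
  have hLq : q ≤ L := by rw [hL]; nlinarith
  have hd : 0 < 128 * p ^ 2 * L := by have : 0 < L := by omega
                                      positivity
  have hc1 : 1 ≤ c := by
    rw [hc]; exact Nat.one_le_iff_ne_zero.mpr (by have : 0 < L := by omega
                                                  positivity)
  have hLR : L ≤ R := by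
    rw [hR, Nat.le_div_iff_mul_le hd]
    calc L * (128 * p ^ 2 * L) ≤ 384 * p ^ 2 * L ^ 2 := by nlinarith [Nat.zero_le (p ^ 2 * L ^ 2)]
      _ = c := hc.symm
      _ ≤ 96 * p * c := Nat.le_mul_of_pos_left _ (by omega)
      _ ≤ N := hN
  have hN1 : R * (128 * p ^ 2 * L) ≤ N := hR ▸ Nat.div_mul_le_self _ _
  have hN2 : N ≤ 2 * R * (128 * p ^ 2 * L) := by
    have h5 : N < (R + 1) * (128 * p ^ 2 * L) := by
      rw [hR, mul_comm]; exact Nat.lt_mul_div_succ _ hd
    exact h5.le.trans (Nat.mul_le_mul_right _ (by omega))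
  have hRK : R ≤ K := by rw [hK]; exact Nat.le_mul_of_pos_left _ (by positivity)
  have hSN : S * N ≤ 256 * p ^ 2 * L ^ 2 * K := by
    calc S * N ≤ S * (2 * R * (128 * p ^ 2 * L)) := Nat.mul_le_mul_left _ hN2
      _ = _ := by rw [hS, hK]; ring
  have hpL : 1 ≤ p ^ 2 * L ^ 2 := Nat.one_le_iff_ne_zero.mpr (by have : 0 < L := by omega
                                                                 positivity)
  have hp' : (1 : ℝ) ≤ p := by exact_mod_cast hp1
  have hc' : (1 : ℝ) ≤ c := by exact_mod_cast hc1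
  have hLc : L ≤ c := by rw [hc]; nlinarith [Nat.zero_le (p ^ 2), Nat.one_le_pow 2 p hp1]
  have key := core0 ab wt hwt Rg hLi p hp N K L R S c (hR ▸ Nat.div_le_self _ _)
    (le_of_eq (by rw [hK, hS]; ring)) hLR hc1 (by
      have : 2 * K ≤ 128 * (p ^ 2 * L ^ 2) * K := Nat.mul_le_mul_right _ (by omega)
      rw [hc]; nlinarith)
    (Nat.mul_le_mul_right _ (by rw [hS, hK]; exact Nat.mul_le_mul_left _ hLR))
    (Nat.one_le_iff_ne_zero.mpr (Nat.mul_ne_zero (by omega) (by omega)))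
    α u hα ha hα0 hu0 hinj (2 * t) (2 * N / ((96 * p * c : ℕ) : ℝ)) (1 / ((96 * p * c : ℕ) : ℝ))
    (5 / 24 * ((K * L : ℕ) : ℝ) / p) (by positivity) (by positivity) h1 h2 i0 h3 (by
      have : (L : ℝ) ≤ c := by exact_mod_cast hLc
      push_cast
      rw [mul_one_div, div_le_iff₀ (by positivity)]
      nlinarith) (h4.trans (exp_le_exp.mpr (by
      have h5 : 2 * (K * L) * p ≤ N * t := by
        calc 2 * (K * L) * p = R * (128 * p ^ 2 * L) * t := by rw [hK]; ring
          _ ≤ N * t := Nat.mul_le_mul_right _ hN1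
      have h6 : 2 * ((K * L : ℕ) : ℝ) * p ≤ N * t := by exact_mod_cast h5
      rw [neg_mul, neg_le_neg_iff, le_div_iff₀ (by linarith)]
      exact h6))) (by
      have e1 : log (c : ℝ) ≤ 6 * q := by
        have e2 : c ≤ q ^ 6 := by
          calc c = 384 * p ^ 2 * q ^ 4 := by rw [hc, hL]; ring
            _ ≤ q ^ 2 * q ^ 4 := Nat.mul_le_mul_right _ (by rw [hq]; nlinarith)
            _ = q ^ 6 := by ring
        have e3 : (c : ℝ) ≤ (q : ℝ) ^ 6 := by exact_mod_cast e2
        have e4 := log_le_log (by linarith) e3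
        rw [log_pow] at e4
        have e5 : log (q : ℝ) ≤ q := log_le_self (by positivity)
        push_cast at e4
        linarith
      have hq' : (144 : ℝ) ≤ q := by exact_mod_cast hq1
      have hqr : (q : ℝ) = 144 * p := by rw [hq]; push_cast; ring
      have hLr : (L : ℝ) = q ^ 2 := by rw [hL]; push_cast; ring
      have hKr : (K : ℝ) = 64 * p * t * R := by rw [hK]; push_cast; ring
      have hcr : (c : ℝ) = 384 * p ^ 2 * L ^ 2 := by rw [hc]; push_cast; ring
      have hSN' : (S : ℝ) * N ≤ 256 * p ^ 2 * L ^ 2 * K := by exact_mod_cast hSN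
      have hK0 : (0 : ℝ) ≤ K := by positivity
      have hL0 : (0 : ℝ) < L := by rw [hLr]; positivity
      have e2 : K * (3 + log (c : ℝ)) ≤ 1 / 16 * (K * L) / p := by
        rw [le_div_iff₀ (by linarith)]
        have : (3 + log (c : ℝ)) * p ≤ 1 / 16 * L := by
          calc (3 + log (c : ℝ)) * p ≤ 9 * q * p := by gcongr; linarith
            _ = 1 / 16 * L := by rw [hLr, sq, hqr]; ring
        nlinarith
      have e3 : 2 * (R : ℝ) * L * (2 * t) = 1 / 16 * (K * L) / p := by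
        rw [hKr]; field_simp; ring
      have e4 : (S : ℝ) * L * (2 * N / ((96 * p * c : ℕ) : ℝ)) ≤ 1 / 72 * (K * L) / p := by
        push_cast
        calc (S : ℝ) * L * (2 * N / (96 * p * c)) = S * N * (2 * L / (96 * p * c)) := by ring
          _ ≤ 256 * p ^ 2 * L ^ 2 * K * (2 * L / (96 * p * c)) := by gcongr
          _ = _ := by rw [hcr]; field_simp; ring
      have e5 : 6 * (1 / ((96 * p * c : ℕ) : ℝ)) * c * (K * L) = 1 / 16 * (K * L) / p := by
        push_cast; field_simp; ring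
      have e6 : 0 ≤ (K : ℝ) * L / p := by positivity
      rw [e3, e5, Nat.cast_mul K L]
      simp only [mul_div_assoc] at e2 e4 e6 ⊢
      linarith)
  refine absurd key (not_le.mpr (core_num p _ c K L hp' ?_ ?_ ?_ (by positivity)))
  · exact_mod_cast (show 96 * p ≤ L by omega)
  · exact_mod_cast (show L ^ 2 ≤ K * L by rw [sq]; exact Nat.mul_le_mul_right _ (by omega))
  · have e1 : 768 * p ^ 2 ≤ K := by
      rw [hK]
      calc 768 * p ^ 2 = 64 * p * 1 * (12 * p) := by ring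
        _ ≤ 64 * p * t * R := Nat.mul_le_mul (Nat.mul_le_mul_left _ ht) (by omega)
    have e2 : 1 ≤ c * K := Nat.one_le_iff_ne_zero.mpr (Nat.mul_ne_zero (by omega) (by omega))
    have e3 : 2 * (c * K) ≤ (K * L) ^ 2 := by
      calc 2 * (c * K) = 768 * p ^ 2 * (K * L ^ 2) := by rw [hc]; ring
        _ ≤ K * (K * L ^ 2) := Nat.mul_le_mul_right _ e1
        _ = _ := by ring
    exact_mod_cast (show c * K + 1 ≤ (K * L) ^ 2 by omega)

end Pool.Agent.Lib.MP_07b2d0_nt
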