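import Mathlib
import Pool.Agent.Lib.MP_07b2d0_nt.Core

/-!
The reduction of Bilu and Bugeaud to two logarithms, for an abstract system of absolute values.
-/

set_option autoImplicit false

namespace Pool.Agent.Lib.MP_07b2d0_nt

open Finset Real

/-- An abstract system of weighted absolute values with a ring of integers. -/
structure Sys (F : Type) [Field F] (ι : Type) [Fintype ι] (p A Q : ℕ) where
  ab : ι → AbsoluteValue F ℝ
  wt : ι → ℝ
  wt1 : ∀ i, 1 ≤ wt i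
  wtp : ∑ i, wt i ≤ p
  R : Subring F
  liou : ∀ x ∈ R, x ≠ 0 → 0 ≤ ∑ i, wt i * log (ab i x)
  mink : ∀ θ : ι → ℝ, ∑ i, wt i * θ i = 0 → ∃ x ∈ R, x ≠ 0 ∧ ∀ i, log (ab i x) ≤ θ i + p
  cls : ∃ (γ : Type) (T : Finset γ) (cl : F → γ), T.card ≤ A ∧
    (∀ x ∈ R, x ≠ 0 → ∑ i, wt i * log (ab i x) ≤ p ^ 2 → cl x ∈ T) ∧
    ∀ x ∈ R, x ≠ 0 → ∑ i, wt i * log (ab i x) ≤ p ^ 2 →
      ∀ y ∈ R, y ≠ 0 → ∑ i, wt i * log (ab i y) ≤ p ^ 2 → cl x = cl y → x / y ∈ R
  cov : ∀ (i : ι) (f : ℕ → F), (∀ j ≤ Q, ab i (f j) < 2) →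
    ∃ j j', j < j' ∧ j' ≤ Q ∧ ab i (f j - f j') ≤ 1 / (2 * coreC p)

variable {F : Type} [Field F] {ι : Type} [Fintype ι] {p A Q : ℕ}

theorem le_of_wsum (wt : ι → ℝ) (h1 : ∀ i, 1 ≤ wt i) {P c : ℝ} (hP : ∑ i, wt i ≤ P) (hc : 0 ≤ c)
    (d : ι → ℝ) (hd : ∀ i, d i ≤ c) (h0 : 0 ≤ ∑ i, wt i * d i) (i : ι) : -(P * c) ≤ d i := by
  classical
  have e1 : ∑ j, wt j * d j ≤ ∑ j, (wt j * c - if j = i then wt i * (c - d i) else 0) := by
    refine sum_le_sum fun j _ => ?_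
    split_ifs with h
    · subst h; linarith
    · have := hd j
      have := h1 j
      nlinarith
  rw [sum_sub_distrib, ← sum_mul, sum_ite_eq' univ i, if_pos (mem_univ _)] at e1
  have := hd i
  have := h1 i
  nlinarith

theorem card_le_of_wt (wt : ι → ℝ) (h1 : ∀ i, 1 ≤ wt i) (hP : ∑ i, wt i ≤ p) :
    Fintype.card ι ≤ p := by
  have : (Fintype.card ι : ℝ) ≤ ∑ i, wt i := by
    have := card_nsmul_le_sum univ wt 1 fun i _ => h1 i
    simpa using this
  exact_mod_cast this.trans hP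

theorem Sys.nu_unit (S : Sys F ι p A Q) {u : F} (hu : u ∈ S.R) (hu' : u⁻¹ ∈ S.R) (hu0 : u ≠ 0) :
    ∑ i, S.wt i * log (S.ab i u) = 0 := by
  have h1 := S.liou u hu hu0
  have h2 := S.liou _ hu' (inv_ne_zero hu0)
  simp only [map_inv₀, log_inv, mul_neg, sum_neg_distrib] at h2
  linarith

/-- The number of boxes. -/
def boxP (p A G : ℕ) : ℕ := A * ((p ^ 2 + p) * G + 1) ^ p

/-- A unit close to a multiple of a given direction. -/
theorem Sys.exists_dir (S : Sys F ι p A Q) (θ : ι → ℝ) (hθ : ∑ i, S.wt i * θ i = 0) (G : ℕ)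
    (hG : 1 ≤ G) : ∃ α ∈ S.R, α ≠ 0 ∧ ∃ t : ℕ, 1 ≤ t ∧ t ≤ boxP p A G ∧
      ∀ i, |log (S.ab i α) + t * θ i| ≤ 1 / G := by
  classical
  obtain ⟨γ, T, cl, hT, hcl1, hcl2⟩ := S.cls
  have h1 : ∀ s : ℕ, ∃ x ∈ S.R, x ≠ 0 ∧ ∀ i, log (S.ab i x) ≤ -(s * θ i) + p := fun s =>
    S.mink (fun i => -(s * θ i)) (by
      have : ∀ i, S.wt i * -(s * θ i) = -s * (S.wt i * θ i) := fun i => by ring
      simp only [this, ← mul_sum, hθ, mul_zero])
  choose x hxR hx0 hx using h1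
  let d : ℕ → ι → ℝ := fun s i => log (S.ab i (x s)) + s * θ i
  have hd1 : ∀ s i, d s i ≤ p := fun s i => by have := hx s i; simp only [d]; linarith
  have hd2 : ∀ s, ∑ i, S.wt i * d s i = ∑ i, S.wt i * log (S.ab i (x s)) := fun s => by
    have : ∀ i, S.wt i * d s i = S.wt i * log (S.ab i (x s)) + s * (S.wt i * θ i) := fun i => by
      simp only [d]; ring
    simp only [this, sum_add_distrib, ← mul_sum, hθ, mul_zero, add_zero]
  have hd3 : ∀ s i, -((p : ℝ) * p) ≤ d s i := fun s =>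
    le_of_wsum S.wt S.wt1 S.wtp (by positivity) _ (hd1 s) (hd2 s ▸ S.liou _ (hxR s) (hx0 s))
  have hnu : ∀ s, ∑ i, S.wt i * log (S.ab i (x s)) ≤ p ^ 2 := fun s => by
    rw [← hd2]
    calc ∑ i, S.wt i * d s i ≤ ∑ i, S.wt i * p :=
          sum_le_sum fun i _ => mul_le_mul_of_nonneg_left (hd1 s i) (by linarith [S.wt1 i])
      _ ≤ p * p := by rw [← sum_mul]; exact mul_le_mul_of_nonneg_right S.wtp (by positivity)
      _ = p ^ 2 := by ring
  have hG' : (1 : ℝ) ≤ G := by exact_mod_cast hG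
  let f : ℕ → γ × (ι → ℕ) := fun s => (cl (x s), fun i => ⌊(d s i + p * p) * G⌋₊)
  let U : Finset (γ × (ι → ℕ)) :=
    T ×ˢ Fintype.piFinset fun _ => range ((p ^ 2 + p) * G + 1)
  have hU : U.card < (range (boxP p A G + 1)).card := by
    rw [card_range, card_product, Fintype.card_piFinset, prod_const, card_range, card_univ,
      Nat.lt_succ_iff]
    exact Nat.mul_le_mul hT (Nat.pow_le_pow_right (by omega) (card_le_of_wt S.wt S.wt1 S.wtp))
  obtain ⟨s, hs, s', hs', hne, hf⟩ := exists_ne_map_eq_of_card_lt_of_maps_to hU (f := f) (by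
    intro s _
    refine mem_coe.mpr (mem_product.mpr ⟨hcl1 _ (hxR s) (hx0 s) (hnu s), ?_⟩)
    rw [Fintype.mem_piFinset]
    intro i
    rw [mem_range, Nat.lt_succ_iff]
    refine Nat.floor_le_of_le ?_
    push_cast
    have := hd1 s i
    nlinarith)
  wlog hlt : s < s' generalizing s s'
  · exact this s' hs' s hs hne.symm hf.symm (by omega)
  have hcl : cl (x s') = cl (x s) := (congrArg Prod.fst hf).symm
  refine ⟨x s' / x s, hcl2 _ (hxR s') (hx0 s') (hnu s') _ (hxR s) (hx0 s) (hnu s) hcl,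
    div_ne_zero (hx0 s') (hx0 s), s' - s, by omega, by have := mem_range.mp hs'; omega, fun i => ?_⟩
  have e1 : ⌊(d s i + p * p) * G⌋₊ = ⌊(d s' i + p * p) * G⌋₊ := congrFun (congrArg Prod.snd hf) i
  have e2 : ∀ s, 0 ≤ (d s i + p * p) * G := fun s =>
    mul_nonneg (by linarith [hd3 s i]) (by linarith)
  have e3 := Nat.floor_le (e2 s)
  have e4 := Nat.floor_le (e2 s')
  have e5 := Nat.lt_floor_add_one ((d s i + p * p) * G)
  have e6 := Nat.lt_floor_add_one ((d s' i + p * p) * G)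
  rw [e1] at e3 e5
  have e7 : log (S.ab i (x s' / x s)) + ((s' - s : ℕ) : ℝ) * θ i = d s' i - d s i := by
    rw [map_div₀, log_div ((S.ab i).pos (hx0 s')).ne' ((S.ab i).pos (hx0 s)).ne',
      Nat.cast_sub hlt.le]
    simp only [d]; ring
  rw [e7, le_div_iff₀ (by linarith), ← abs_of_pos (show (0 : ℝ) < G by linarith), ← abs_mul,
    abs_le]
  constructor <;> nlinarith

/-- The threshold for the local estimate. -/
def locB (p A Q : ℕ) : ℕ := 4 * (Q * boxP p A ((Q + 1) * coreC p) + 1) ^ 2 * coreC p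

theorem le_coreC (hp : 1 ≤ p) : 96 * p ≤ coreC p :=
  Nat.le_mul_of_pos_right _ (by positivity)

theorem Sys.local [CharZero F] (S : Sys F ι p A Q) (hp : 1 ≤ p) {u : F} (hu : u ∈ S.R)
    (hu' : u⁻¹ ∈ S.R) (hu0 : u ≠ 0) {B : ℝ} (hB : ∀ i, |log (S.ab i u)| ≤ B) (i1 : ι)
    (hi1 : |log (S.ab i1 u)| = B) (hB0 : locB p A Q ≤ B) (i0 : ι) :
    exp (-(B / p)) < S.ab i0 (u - 1) := by
  by_contra hcon
  rw [not_lt] at hcon
  obtain ⟨C, hC⟩ : ∃ C, C = coreC p := ⟨_, rfl⟩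
  obtain ⟨P, hP⟩ : ∃ P, P = boxP p A ((Q + 1) * C) := ⟨_, rfl⟩
  have hC96 : 96 * p ≤ C := hC ▸ le_coreC hp
  have hp' : (1 : ℝ) ≤ p := by exact_mod_cast hp
  have hC' : 96 * (p : ℝ) ≤ C := by exact_mod_cast hC96
  have hQP : (0 : ℝ) ≤ Q * P := by positivity
  have hB1 : 4 * ((Q : ℝ) * P + 1) ^ 2 * C ≤ B := by
    rw [locB, ← hC, ← hP] at hB0
    exact_mod_cast hB0
  have hB2 : 4 * ((Q : ℝ) * P + 1) ^ 2 * 96 ≤ B := le_trans (by gcongr; linarith) hB1
  have hBp : (p : ℝ) ≤ B := by nlinarith [sq_nonneg ((Q : ℝ) * P)]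
  have hBpos : 0 < B := by linarith
  obtain ⟨α0, hα0R, hα00, t0, ht01, ht0P, hα0⟩ := S.exists_dir (fun i => log (S.ab i u) / B) (by
    simp only [← mul_div_assoc, ← sum_div, S.nu_unit hu hu' hu0, zero_div]) ((Q + 1) * C)
    (Nat.one_le_iff_ne_zero.mpr (Nat.mul_ne_zero (by omega) (by omega)))
  rw [← hP] at ht0P
  have hpow : ∀ (j : ℕ) (i : ι), j ≤ Q →
      |log (S.ab i (α0 ^ j)) + (j * t0 : ℕ) * (log (S.ab i u) / B)| ≤ 1 / C := by
    intro j i hj
    have hj' : (j : ℝ) ≤ Q + 1 := by exact_mod_cast hj.trans (Nat.le_succ Q)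
    rw [map_pow, log_pow, Nat.cast_mul, mul_assoc, ← mul_add, abs_mul, Nat.abs_cast]
    calc (j : ℝ) * _ ≤ (Q + 1) * (1 / (((Q + 1) * C : ℕ) : ℝ)) :=
          mul_le_mul hj' (hα0 i) (abs_nonneg _) (by positivity)
      _ = 1 / C := by push_cast; field_simp
  have hC1 : 1 / (C : ℝ) ≤ 1 / 96 := one_div_le_one_div_of_le (by norm_num) (by linarith)
  have hu1 : S.ab i0 (u - 1) ≤ 1 / 2 := by
    refine hcon.trans ?_
    have e1 : exp (-(B / p)) ≤ exp (-1) := by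
      refine exp_le_exp.mpr (neg_le_neg ?_)
      rwa [le_div_iff₀ (by linarith), one_mul]
    have e2 : (2 : ℝ) ≤ exp 1 := by linarith [add_one_le_exp (1 : ℝ)]
    rw [exp_neg 1] at e1
    exact e1.trans (by rw [one_div]; exact inv_anti₀ (by norm_num) e2)
  have hu2 : |log (S.ab i0 u)| ≤ 1 := by
    have e1 := ab_le_one_add (S.ab i0) u
    have e2 : 1 ≤ S.ab i0 u + S.ab i0 (u - 1) := by
      have := (S.ab i0).add_le u (-(u - 1))
      rwa [AbsoluteValue.map_neg, show u + -(u - 1) = 1 by ring, map_one] at this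
    have e3 := log_le_sub_one_of_pos ((S.ab i0).pos hu0)
    have e4 := one_sub_inv_le_log_of_pos ((S.ab i0).pos hu0)
    have e5 : (S.ab i0 u)⁻¹ ≤ 2 := by
      rw [inv_le_comm₀ ((S.ab i0).pos hu0) (by norm_num)]; linarith
    rw [abs_le]; constructor <;> linarith
  have hjt : ∀ j : ℕ, j ≤ Q → ((j * t0 : ℕ) : ℝ) ≤ Q * P := fun j hj => by
    exact_mod_cast Nat.mul_le_mul hj ht0P
  have hi0 : ∀ j ≤ Q, |log (S.ab i0 (α0 ^ j))| ≤ 1 / 2 := by
    intro j hj
    have e1 := hpow j i0 hj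
    have e2 : |((j * t0 : ℕ) : ℝ) * (log (S.ab i0 u) / B)| ≤ 1 / 4 := by
      rw [abs_mul, abs_div, Nat.abs_cast, abs_of_pos hBpos, ← mul_div_assoc,
        div_le_iff₀ hBpos]
      have := mul_le_mul (hjt j hj) hu2 (abs_nonneg _) hQP
      nlinarith
    rw [abs_le] at e1 e2 ⊢
    constructor <;> linarith
  have hexp : exp (1 / 2 : ℝ) < 2 := by
    have e1 : exp (1 / 2 : ℝ) * exp (1 / 2) = exp 1 := by rw [← exp_add]; norm_num
    have := Real.exp_one_lt_d9
    nlinarith [exp_pos (1 / 2 : ℝ)]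
  have hpos : ∀ (j : ℕ) i, 0 < S.ab i (α0 ^ j) := fun j i => (S.ab i).pos (pow_ne_zero _ hα00)
  obtain ⟨j, j', hjj, hj'Q, hclose⟩ := S.cov i0 (fun j => α0 ^ j) (fun j hj => by
    rw [← exp_log (hpos j i0)]
    exact (exp_le_exp.mpr (abs_le.mp (hi0 j hj)).2).trans_lt hexp)
  obtain ⟨m, rfl⟩ := Nat.exists_eq_add_of_lt hjj
  obtain ⟨t, ht⟩ : ∃ t, t = (m + 1) * t0 := ⟨_, rfl⟩
  obtain ⟨α, hα⟩ : ∃ α, α = α0 ^ (m + 1) := ⟨_, rfl⟩
  have hαt : ∀ i, |log (S.ab i α) + t * (log (S.ab i u) / B)| ≤ 1 / C := fun i => by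
    rw [hα, ht]; exact hpow (m + 1) i (by omega)
  have ht1 : 1 ≤ t := by rw [ht]; nlinarith
  have ht' : (1 : ℝ) ≤ t := by exact_mod_cast ht1
  have htP : (t : ℝ) ≤ Q * P := ht ▸ hjt (m + 1) (by omega)
  have hαne : α ≠ 0 := hα ▸ pow_ne_zero _ hα00
  have hαR : α ∈ S.R := hα ▸ pow_mem hα0R _
  obtain ⟨N, hN⟩ : ∃ N, N = ⌊B / t⌋₊ := ⟨_, rfl⟩
  have hN1 : (N : ℝ) * t ≤ B := by
    rw [← le_div_iff₀ (by linarith), hN]; exact Nat.floor_le (by positivity)
  have hN2 : B ≤ (N + 1) * t := by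
    rw [← div_le_iff₀ (by linarith), hN]; exact (Nat.lt_floor_add_one _).le
  have hN3 : t * C ≤ N := by
    rw [hN]
    refine Nat.le_floor ?_
    rw [le_div_iff₀ (by linarith)]
    push_cast
    refine le_trans ?_ hB1
    have e1 : (t : ℝ) ^ 2 ≤ (Q * P + 1) ^ 2 := by gcongr; linarith
    nlinarith [sq_nonneg ((Q : ℝ) * P + 1)]
  have hθ : ∀ i, |log (S.ab i u) / B| ≤ 1 := fun i => by
    rw [abs_div, abs_of_pos hBpos, div_le_one hBpos]; exact hB i
  refine core S.ab S.wt S.wt1 S.R S.liou p S.wtp hp t N ht1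
    (hC ▸ (Nat.le_mul_of_pos_left C ht1).trans hN3) α u hαR (mul_mem (pow_mem hαR _) hu) hαne hu0
    ?_ ?_ ?_ i0 ?_ (hcon.trans (exp_le_exp.mpr (neg_le_neg (by gcongr))))
  · intro l l' h
    have e1 : S.ab i1 α ^ l = S.ab i1 α ^ l' := by
      rw [← map_pow, ← map_pow]; exact congrArg _ h
    refine pow_right_injective₀ ((S.ab i1).pos hαne) (fun h1 => ?_) e1
    have e2 := hαt i1
    rw [h1, log_one, zero_add, abs_mul, abs_div, hi1, abs_of_pos hBpos, div_self hBpos.ne',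
      Nat.abs_cast] at e2
    linarith
  · intro i
    rw [← exp_log ((S.ab i).pos hαne)]
    have e1 := abs_le.mp (hαt i)
    have e2 := abs_le.mp (hθ i)
    exact exp_le_exp.mpr (by nlinarith)
  · intro i
    rw [← exp_log ((S.ab i).pos (mul_ne_zero (pow_ne_zero _ hαne) hu0)), ← hC, map_mul, map_pow,
      log_mul (pow_pos ((S.ab i).pos hαne) _).ne' ((S.ab i).pos hu0).ne', log_pow]
    refine exp_le_exp.mpr ?_
    have e1 := (abs_le.mp (hαt i)).2
    have e2 := (abs_le.mp (hθ i)).2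
    have e3 : N * log (S.ab i α) + log (S.ab i u) =
        N * (log (S.ab i α) + t * (log (S.ab i u) / B)) + (B - N * t) * (log (S.ab i u) / B) := by
      field_simp; ring
    have e4 : (t : ℝ) ≤ N * (1 / C) := by
      rw [mul_one_div, le_div_iff₀ (by linarith)]; exact_mod_cast hN3
    have e5 : (B - N * t) * (log (S.ab i u) / B) ≤ t := by nlinarith
    have e6 : N * (log (S.ab i α) + t * (log (S.ab i u) / B)) ≤ N * (1 / C) := by gcongr
    rw [e3, show 2 * (N : ℝ) / C = N * (1 / C) + N * (1 / C) by ring]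
    linarith
  · have e1 : α0 ^ j - α0 ^ (j + m + 1) = -(α0 ^ j * (α - 1)) := by rw [hα]; ring
    rw [e1, AbsoluteValue.map_neg, map_mul, ← hC] at hclose
    have e2 : 1 / 2 ≤ S.ab i0 (α0 ^ j) := by
      rw [← exp_log (hpos j i0)]
      refine le_trans ?_ (exp_le_exp.mpr (abs_le.mp (hi0 j (by omega))).1)
      linarith [add_one_le_exp (-(1 / 2) : ℝ)]
    have e3 := (S.ab i0).nonneg (α - 1)
    rw [← hC, show 1 / (C : ℝ) = 2 * (1 / (2 * C)) by field_simp]
    nlinarith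

/-- The constant of the global estimate. -/
def bkC (p A Q : ℕ) : ℕ := p * (p * (locB p A Q + 1) + 1)

theorem Sys.bk [CharZero F] (S : Sys F ι p A Q) (hp : 1 ≤ p) {u : F} (hu : u ∈ S.R)
    (hu' : u⁻¹ ∈ S.R) (hu0 : u ≠ 0) (hu1 : u ≠ 1) :
    ∑ i, S.wt i * log⁺ (S.ab i u) - (∑ i, S.wt i) * ((∑ i, S.wt i * log⁺ (S.ab i u)) / p) -
      bkC p A Q ≤ ∑ i, S.wt i * log (S.ab i (u - 1)) := by
  classical
  rcases isEmpty_or_nonempty ι with hι | hι
  · simp
  obtain ⟨i1, hi1⟩ := Finite.exists_max fun i => |log (S.ab i u)|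
  obtain ⟨B, hB⟩ : ∃ B, B = |log (S.ab i1 u)| := ⟨_, rfl⟩
  obtain ⟨H, hH⟩ : ∃ H, H = ∑ i, S.wt i * log⁺ (S.ab i u) := ⟨_, rfl⟩
  have hw : ∀ i, 0 ≤ S.wt i := fun i => by linarith [S.wt1 i]
  have hp' : (1 : ℝ) ≤ p := by exact_mod_cast hp
  have hBH : B ≤ H := by
    have e1 : ∀ y : F, log (S.ab i1 y) ≤ ∑ i, S.wt i * log⁺ (S.ab i y) := fun y => by
      refine le_trans ?_ (single_le_sum (f := fun i => S.wt i * log⁺ (S.ab i y))
        (fun i _ => mul_nonneg (hw i) posLog_nonneg) (mem_univ i1))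
      exact (le_max_right _ _).trans (le_mul_of_one_le_left posLog_nonneg (S.wt1 i1))
    have e2 : ∑ i, S.wt i * log⁺ (S.ab i u⁻¹) = H := by
      have e3 : ∀ i, S.wt i * log⁺ (S.ab i u⁻¹) =
          S.wt i * log⁺ (S.ab i u) - S.wt i * log (S.ab i u) := fun i => by
        rw [map_inv₀, ← posLog_sub_posLog_inv]; ring
      simp only [e3, sum_sub_distrib, S.nu_unit hu hu' hu0, sub_zero, hH]
    have e4 := e1 u
    have e5 := e1 u⁻¹
    rw [e2, map_inv₀, log_inv] at e5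
    rw [hB, abs_le, hH]
    constructor <;> linarith
  have hB0 : 0 ≤ B := hB ▸ abs_nonneg _
  have hne : u - 1 ≠ 0 := sub_ne_zero.mpr hu1
  have hl2 : log 2 ≤ 1 := by linarith [Real.log_two_lt_d9]
  obtain ⟨L, hL⟩ : ∃ L : ℝ, L = locB p A Q := ⟨_, rfl⟩
  have hL0 : 0 ≤ L := by rw [hL]; positivity
  have key : ∀ i, log⁺ (S.ab i u) - H / p - (p * (L + 1) + 1) ≤ log (S.ab i (u - 1)) := by
    intro i
    have hHp : B / p ≤ H / p := by gcongr
    have hBp : 0 ≤ B / p := by positivity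
    have hpL : 0 ≤ p * (L + 1) := by positivity
    rcases le_or_gt 2 (S.ab i u) with h | h
    · have e1 := ab_le_one_add (S.ab i) u
      have e2 : log (S.ab i u / 2) ≤ log (S.ab i (u - 1)) := log_le_log (by linarith) (by linarith)
      rw [log_div (by linarith) (by norm_num)] at e2
      rw [posLog_eq_log (by rw [abs_of_pos (by linarith)]; linarith)]
      linarith
    · have e1 : log⁺ (S.ab i u) ≤ 1 :=
        max_le zero_le_one ((log_le_log ((S.ab i).pos hu0) h.le).trans hl2)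
      rcases le_or_gt L B with h' | h'
      · have e2 := S.local hp hu hu' hu0 (B := B) (fun i => hB ▸ hi1 i) i1 hB.symm (hL ▸ h') i
        have e3 := log_le_log (exp_pos _) e2.le
        rw [log_exp] at e3
        linarith
      · have e2 := le_of_wsum S.wt S.wt1 S.wtp (c := L + 1) (by linarith)
          (fun i => log (S.ab i (u - 1))) (fun j => by
            have e3 : S.ab j u ≤ exp L := by
              rw [← exp_log ((S.ab j).pos hu0)]
              exact exp_le_exp.mpr ((le_abs_self _).trans ((hi1 j).trans (by linarith)))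
            have e4 : S.ab j (u - 1) ≤ S.ab j u + 1 := by
              have := (S.ab j).add_le u (-1)
              rwa [AbsoluteValue.map_neg, map_one, ← sub_eq_add_neg] at this
            have e5 : 1 ≤ exp L := one_le_exp hL0
            have e6 : (2 : ℝ) ≤ exp 1 := by linarith [add_one_le_exp (1 : ℝ)]
            rw [log_le_iff_le_exp ((S.ab j).pos hne), exp_add]
            nlinarith)
          (S.liou _ (sub_mem hu (one_mem _)) hne) i
        linarith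
  have e1 := sum_le_sum fun i (_ : i ∈ univ) => mul_le_mul_of_nonneg_left (key i) (hw i)
  simp only [mul_sub, sum_sub_distrib, ← sum_mul] at e1
  rw [← hH] at e1 ⊢
  have e2 : (∑ i, S.wt i) * (p * (L + 1) + 1) ≤ bkC p A Q := by
    rw [bkC]; push_cast; rw [← hL]
    exact mul_le_mul_of_nonneg_right S.wtp (by positivity)
  linarith

end Pool.Agent.Lib.MP_07b2d0_nt
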