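import Mathlib

/-!
Places of a number field, `N`-integers, the logarithmic `S`-norm.
-/

set_option autoImplicit false

namespace Pool.Agent.Lib.MP_07b2d0_nt

open Finset Real NumberField IsDedekindDomain Height Module

variable {K : Type} [Field K] [NumberField K]

/-- The norm of the prime of a finite place. -/
noncomputable def qv (v : FinitePlace K) : ℕ := Ideal.absNorm v.maximalIdeal.asIdeal

/-- The additive valuation at a finite place. -/
noncomputable def ord (v : FinitePlace K) (x : K) : ℤ :=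
  -WithZero.log (v.maximalIdeal.valuation K x)

theorem two_le_qv (v : FinitePlace K) : 2 ≤ qv v :=
  NumberField.HeightOneSpectrum.one_lt_absNorm v.maximalIdeal

theorem two_le_qv' (v : FinitePlace K) : (2 : ℝ) ≤ qv v := by exact_mod_cast two_le_qv v

theorem fp_eq_toNNReal (v : FinitePlace K) (x : K) :
    v x = WithZeroMulInt.toNNReal (NumberField.HeightOneSpectrum.absNorm_ne_zero v.maximalIdeal)
      (v.maximalIdeal.valuation K x) := by
  rw [← FinitePlace.norm_embedding_eq, FinitePlace.norm_embedding,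
    NumberField.HeightOneSpectrum.adicAbv_def]

theorem val_ne_zero (v : FinitePlace K) {x : K} (hx : x ≠ 0) :
    v.maximalIdeal.valuation K x ≠ 0 := (Valuation.ne_zero_iff _).mpr hx

theorem fp_eq (v : FinitePlace K) {x : K} (hx : x ≠ 0) : v x = (qv v : ℝ) ^ (-ord v x) := by
  rw [fp_eq_toNNReal, WithZeroMulInt.toNNReal_neg_apply _ (val_ne_zero v hx),
    WithZero.toAdd_unzero_eq_log, ord, neg_neg]
  simp [qv]

theorem log_fp (v : FinitePlace K) (x : K) : log (v x) = -(ord v x * log (qv v)) := by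
  rcases eq_or_ne x 0 with rfl | hx
  · simp [ord]
  · rw [fp_eq v hx, log_zpow]; push_cast; ring

theorem log_qv_pos (v : FinitePlace K) : 0 < log (qv v : ℝ) :=
  log_pos (by linarith [two_le_qv' v])

theorem log_two_le_qv (v : FinitePlace K) : log 2 ≤ log (qv v : ℝ) :=
  log_le_log (by norm_num) (two_le_qv' v)

theorem ord_mul (v : FinitePlace K) {x y : K} (hx : x ≠ 0) (hy : y ≠ 0) :
    ord v (x * y) = ord v x + ord v y := by
  rw [ord, map_mul, WithZero.log_mul (val_ne_zero v hx) (val_ne_zero v hy), ord, ord]; ring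

theorem ord_inv (v : FinitePlace K) (x : K) : ord v x⁻¹ = -ord v x := by
  rw [ord, map_inv₀, WithZero.log_inv, ord]

theorem ord_div (v : FinitePlace K) {x y : K} (hx : x ≠ 0) (hy : y ≠ 0) :
    ord v (x / y) = ord v x - ord v y := by
  rw [div_eq_mul_inv, ord_mul v hx (inv_ne_zero hy), ord_inv]; ring

theorem ord_pow (v : FinitePlace K) (x : K) (n : ℕ) : ord v (x ^ n) = n * ord v x := by
  rw [ord, map_pow, WithZero.log_pow, ord]; simp

theorem ord_neg (v : FinitePlace K) (x : K) : ord v (-x) = ord v x := by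
  rw [ord, Valuation.map_neg, ord]

theorem fp_le_iff_val (v : FinitePlace K) (x y : K) :
    v x ≤ v y ↔ v.maximalIdeal.valuation K x ≤ v.maximalIdeal.valuation K y := by
  rw [fp_eq_toNNReal, fp_eq_toNNReal, NNReal.coe_le_coe]
  exact (WithZeroMulInt.toNNReal_strictMono
    (NumberField.HeightOneSpectrum.one_lt_absNorm_nnreal v.maximalIdeal)).le_iff_le

theorem fp_le_one_iff_val (v : FinitePlace K) (x : K) :
    v x ≤ 1 ↔ v.maximalIdeal.valuation K x ≤ 1 := by
  have := fp_le_iff_val v x 1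
  rwa [map_one, map_one] at this

theorem fp_le_one_iff (v : FinitePlace K) (x : K) : v x ≤ 1 ↔ 0 ≤ ord v x := by
  rcases eq_or_ne x 0 with rfl | hx
  · simp [ord]
  · rw [fp_eq v hx, zpow_le_one_iff_right₀ (by linarith [two_le_qv' v])]; omega

theorem fp_lt_one_iff (v : FinitePlace K) {x : K} (hx : x ≠ 0) : v x < 1 ↔ 0 < ord v x := by
  rw [fp_eq v hx, zpow_lt_one_iff_right₀ (by linarith [two_le_qv' v])]; omega

theorem fp_eq_one_iff (v : FinitePlace K) {x : K} (hx : x ≠ 0) : v x = 1 ↔ ord v x = 0 := by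
  have h1 := fp_le_one_iff v x
  have h2 := fp_lt_one_iff v hx
  constructor
  · intro h
    rw [h] at h1 h2
    have := h1.mp le_rfl
    have := mt h2.mpr (lt_irrefl _)
    omega
  · intro h
    rw [fp_eq v hx, h]; simp

theorem fp_le_of_val (v : FinitePlace K) {x : K} {k : ℕ}
    (h : v.maximalIdeal.valuation K x ≤ WithZero.exp (-(k : ℤ))) : v x ≤ ((qv v : ℝ) ^ k)⁻¹ := by
  rcases eq_or_ne x 0 with rfl | hx
  · simp
  · rw [fp_eq v hx, ← zpow_natCast, ← zpow_neg]
    refine zpow_le_zpow_right₀ (by linarith [two_le_qv' v]) ?_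
    rw [ord, neg_neg]
    exact (WithZero.log_le_iff_le_exp (val_ne_zero v hx)).mpr h

theorem fp_int_le_one (v : FinitePlace K) (x : 𝓞 K) : v (x : K) ≤ 1 :=
  (fp_le_one_iff_val v _).mpr (v.maximalIdeal.valuation_le_one x)

theorem fp_nat_le_one (v : FinitePlace K) (k : ℕ) : v (k : K) ≤ 1 := by
  simpa using fp_int_le_one v (k : 𝓞 K)

theorem fp_lt_one_iff_mem (v : FinitePlace K) (x : 𝓞 K) :
    v (x : K) < 1 ↔ x ∈ v.maximalIdeal.asIdeal := by
  rw [← v.maximalIdeal.valuation_lt_one_iff_mem (K := K), ← not_le, ← not_le, not_iff_not]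
  have := fp_le_iff_val v 1 x
  rwa [map_one, map_one] at this

theorem fp_nat_lt_one_iff (v : FinitePlace K) (k : ℕ) :
    v (k : K) < 1 ↔ (k : 𝓞 K) ∈ v.maximalIdeal.asIdeal := by
  simpa using fp_lt_one_iff_mem v (k : 𝓞 K)

theorem fp_qv_lt_one (v : FinitePlace K) : v (qv v : K) < 1 :=
  (fp_nat_lt_one_iff v _).mpr (Ideal.absNorm_mem _)

theorem fp_lt_one_of_dvd (v : FinitePlace K) {a b : ℕ} (hab : a ∣ b) (h : v (a : K) < 1) :
    v (b : K) < 1 := by
  obtain ⟨c, rfl⟩ := hab
  rw [Nat.cast_mul, map_mul]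
  exact mul_lt_one_of_nonneg_of_lt_one_left (apply_nonneg _ _) h (fp_nat_le_one v c)

theorem isIntegral_of_fp {x : K} (h : ∀ v : FinitePlace K, v x ≤ 1) : IsIntegral ℤ x := by
  obtain ⟨y, rfl⟩ := HeightOneSpectrum.mem_integers_of_valuation_le_one (R := 𝓞 K) K x (fun v => by
    have := (fp_le_one_iff_val _ x).mp (h (FinitePlace.mk v))
    rwa [FinitePlace.maximalIdeal_mk] at this)
  exact y.isIntegral_coe

theorem fp_le_one_of_isIntegral (v : FinitePlace K) {x : K} (h : IsIntegral ℤ x) : v x ≤ 1 :=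
  fp_int_le_one v ⟨x, h⟩

/-- The finite places where `x` is not a unit. -/
noncomputable def supp (x : K) : Finset (FinitePlace K) :=
  open Classical in
  if hx : x = 0 then ∅ else (FinitePlace.hasFiniteMulSupport hx).toFinset

theorem mem_supp {x : K} (hx : x ≠ 0) (v : FinitePlace K) : v ∈ supp x ↔ v x ≠ 1 := by
  simp [supp, hx]

theorem mem_supp_nat {N : ℕ} (hN : N ≠ 0) (v : FinitePlace K) :
    v ∈ supp (N : K) ↔ v (N : K) < 1 := by
  rw [mem_supp (Nat.cast_ne_zero.mpr hN)]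
  exact ⟨fun h => lt_of_le_of_ne (fp_nat_le_one v N) h, fun h => h.ne⟩

/-- The archimedean part. -/
noncomputable def nuInf (x : K) : ℝ := ∑ w : InfinitePlace K, w.mult * log (w x)

theorem log_pf {x : K} (hx : x ≠ 0) (T : Finset (FinitePlace K)) (hT : supp x ⊆ T) :
    nuInf x + ∑ v ∈ T, log (v x) = 0 := by
  have h1 := prod_abs_eq_one hx
  rw [finprod_eq_prod_of_mulSupport_subset (s := T) _ (fun v hv => hT ((mem_supp hx v).mpr hv))]
    at h1
  have h2 := congrArg log h1
  have hw : ∀ w : InfinitePlace K, w x ≠ 0 := fun w => (InfinitePlace.pos_iff.mpr hx).ne'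
  have hv : ∀ v : FinitePlace K, v x ≠ 0 := fun v => (FinitePlace.pos_iff.mpr hx).ne'
  rw [log_mul (prod_ne_zero_iff.mpr fun w _ => pow_ne_zero _ (hw w))
    (prod_ne_zero_iff.mpr fun v _ => hv v), log_prod fun w _ => pow_ne_zero _ (hw w),
    log_prod fun v _ => hv v, log_one] at h2
  simpa only [log_pow, nuInf] using h2

theorem nuInf_nat (k : ℕ) : nuInf (k : K) = finrank ℚ K * log k := by
  simp only [nuInf, InfinitePlace.map_natCast, ← sum_mul]
  rw [← InfinitePlace.sum_mult_eq]; push_cast; rfl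

variable (K) in
/-- The ring of `N`-integers. -/
def RN (N : ℕ) : Subring K where
  carrier := {x | ∀ v : FinitePlace K, v (N : K) = 1 → v x ≤ 1}
  mul_mem' := fun {a b} ha hb v hv => by
    rw [map_mul]; exact mul_le_one₀ (ha v hv) (apply_nonneg _ _) (hb v hv)
  one_mem' := fun v _ => by simp
  add_mem' := fun {a b} ha hb v hv => (v.add_le a b).trans (max_le (ha v hv) (hb v hv))
  zero_mem' := fun v _ => by simp
  neg_mem' := fun {a} ha v hv => by rw [map_neg_eq_map]; exact ha v hv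

theorem mem_RN {N : ℕ} {x : K} :
    x ∈ RN K N ↔ ∀ v : FinitePlace K, v (N : K) = 1 → v x ≤ 1 := Iff.rfl

/-- The logarithm of the `S`-norm, `S` being the places dividing `N ∞`. -/
noncomputable def nu (N : ℕ) (x : K) : ℝ := nuInf x + ∑ v ∈ supp (N : K), log (v x)

theorem nu_mul (N : ℕ) {x y : K} (hx : x ≠ 0) (hy : y ≠ 0) : nu N (x * y) = nu N x + nu N y := by
  have hw : ∀ (w : InfinitePlace K) {z : K}, z ≠ 0 → w z ≠ 0 := fun w _ h =>
    (InfinitePlace.pos_iff.mpr h).ne'
  have hv : ∀ (v : FinitePlace K) {z : K}, z ≠ 0 → v z ≠ 0 := fun v _ h =>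
    (FinitePlace.pos_iff.mpr h).ne'
  simp only [nu, nuInf, map_mul, log_mul (hw _ hx) (hw _ hy), log_mul (hv _ hx) (hv _ hy), mul_add,
    sum_add_distrib]
  ring

theorem nu_inv (N : ℕ) (x : K) : nu N x⁻¹ = -nu N x := by
  simp only [nu, nuInf, map_inv₀, log_inv, mul_neg, sum_neg_distrib]; ring

theorem nu_div (N : ℕ) {x y : K} (hx : x ≠ 0) (hy : y ≠ 0) : nu N (x / y) = nu N x - nu N y := by
  rw [div_eq_mul_inv, nu_mul N hx (inv_ne_zero hy), nu_inv]; ring

theorem nu_neg (N : ℕ) (x : K) : nu N (-x) = nu N x := by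
  have : ∀ w : InfinitePlace K, w (-x) = w x := fun w => w.1.map_neg x
  simp only [nu, nuInf, map_neg_eq_map, this]

theorem nu_pow (N : ℕ) (x : K) (n : ℕ) : nu N (x ^ n) = n * nu N x := by
  simp only [nu, nuInf, map_pow, log_pow, mul_add, mul_sum]
  congr 1
  exact sum_congr rfl fun _ _ => by ring

theorem nu_eq (N : ℕ) {x : K} (hx : x ≠ 0) [DecidableEq (FinitePlace K)] :
    nu N x = ∑ v ∈ supp x \ supp (N : K), -log (v x) := by
  have h1 := log_pf hx (supp x ∪ supp (N : K)) subset_union_left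
  rw [← sdiff_union_self_eq_union, sum_union sdiff_disjoint] at h1
  rw [sum_neg_distrib, nu]
  linarith

theorem neg_log_nonneg {N : ℕ} (hN : N ≠ 0) {x : K} (hx : x ∈ RN K N) {v : FinitePlace K}
    (hv : v ∉ supp (N : K)) : 0 ≤ -log (v x) := by
  rw [mem_supp (Nat.cast_ne_zero.mpr hN), not_not] at hv
  exact neg_nonneg.mpr (log_nonpos (apply_nonneg _ _) (hx v hv))

theorem nu_nonneg {N : ℕ} (hN : N ≠ 0) {x : K} (hx : x ∈ RN K N) : 0 ≤ nu N x := by
  classical
  rcases eq_or_ne x 0 with rfl | h0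
  · simp [nu, nuInf]
  rw [nu_eq N h0]
  exact sum_nonneg fun v hv => neg_log_nonneg hN hx (mem_sdiff.mp hv).2

theorem neg_log_le_nu {N : ℕ} (hN : N ≠ 0) {x : K} (hx : x ∈ RN K N) (h0 : x ≠ 0)
    {v : FinitePlace K} (hv : v ∉ supp (N : K)) : -log (v x) ≤ nu N x := by
  classical
  by_cases h : v ∈ supp x
  · rw [nu_eq N h0]
    exact single_le_sum (f := fun v : FinitePlace K => -log (v x))
      (fun v hv => neg_log_nonneg hN hx (mem_sdiff.mp hv).2) (mem_sdiff.mpr ⟨h, hv⟩)
  · rw [mem_supp h0, not_not] at h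
    rw [h, log_one, neg_zero]
    exact nu_nonneg hN hx

theorem nu_unit {N : ℕ} (hN : N ≠ 0) {x : K} (hx : x ∈ RN K N) (hx' : x⁻¹ ∈ RN K N) :
    nu N x = 0 := by
  have h1 := nu_nonneg hN hx
  have h2 := nu_nonneg hN hx'
  rw [nu_inv] at h2
  linarith

theorem logHeight_eq_of_mem {N : ℕ} (hN : N ≠ 0) {x : K} (hx : x ∈ RN K N) :
    logHeight₁ x = ∑ w : InfinitePlace K, w.mult * log⁺ (w x) +
      ∑ v ∈ supp (N : K), log⁺ (v x) := by
  rw [NumberField.logHeight₁_eq, finsum_eq_sum_of_support_subset]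
  intro v hv
  by_contra h
  rw [mem_coe, mem_supp (Nat.cast_ne_zero.mpr hN), not_not] at h
  exact hv ((posLog_eq_zero_iff _).mpr (by rw [abs_of_nonneg (apply_nonneg _ _)]; exact hx v h))

theorem nu_le_logHeight {N : ℕ} (hN : N ≠ 0) {x : K} (hx : x ∈ RN K N) :
    nu N x ≤ logHeight₁ x := by
  rw [logHeight_eq_of_mem hN hx]
  refine add_le_add (sum_le_sum fun w _ => ?_) (sum_le_sum fun v _ => le_max_right _ _)
  exact mul_le_mul_of_nonneg_left (le_max_right _ _) (by positivity)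

theorem sum_supp_nat {k : ℕ} (hk : k ≠ 0) :
    ∑ v ∈ supp (k : K), -log (v (k : K)) = finrank ℚ K * log k := by
  have h1 := log_pf (K := K) (Nat.cast_ne_zero.mpr hk) _ Subset.rfl
  rw [nuInf_nat] at h1
  rw [sum_neg_distrib]
  linarith

theorem log_qv_le {x : K} (hx : x ≠ 0) {v : FinitePlace K} (h : v x < 1) :
    log (qv v) ≤ -log (v x) := by
  have h1 : (1 : ℝ) ≤ ord v x := by exact_mod_cast (fp_lt_one_iff v hx).mp h
  rw [log_fp, neg_neg]
  exact le_mul_of_one_le_left (log_qv_pos v).le h1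

theorem sum_log_qv_le {k : ℕ} (hk : k ≠ 0) :
    ∑ v ∈ supp (k : K), log (qv v) ≤ finrank ℚ K * log k := by
  rw [← sum_supp_nat hk]
  exact sum_le_sum fun v hv =>
    log_qv_le (Nat.cast_ne_zero.mpr hk) ((mem_supp_nat hk v).mp hv)

theorem card_supp_le {k : ℕ} (hk : k ≠ 0) : (supp (k : K)).card ≤ finrank ℚ K * k := by
  have h1 := sum_log_qv_le (K := K) hk
  have h2 := card_nsmul_le_sum (supp (k : K)) (fun v => log (qv v)) (log 2)
    fun v _ => log_two_le_qv v
  have h3 : log k ≤ k * log 2 := by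
    rw [← log_pow]
    exact log_le_log (by positivity) (by exact_mod_cast Nat.lt_two_pow_self.le)
  have h4 : 0 < log 2 := log_pos (by norm_num)
  rw [nsmul_eq_mul] at h2
  have h5 : ((supp (k : K)).card : ℝ) * log 2 ≤ (finrank ℚ K * k) * log 2 := by
    calc _ ≤ finrank ℚ K * log k := h2.trans h1
      _ ≤ finrank ℚ K * (k * log 2) := by gcongr
      _ = _ := by ring
  exact_mod_cast le_of_mul_le_mul_right h5 h4

theorem qv_le {k : ℕ} (hk : k ≠ 0) {v : FinitePlace K} (hv : v ∈ supp (k : K)) :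
    qv v ≤ k ^ finrank ℚ K := by
  have h1 := (single_le_sum (f := fun v : FinitePlace K => log (qv v))
    (fun v _ => (log_qv_pos v).le) hv).trans (sum_log_qv_le hk)
  rw [← log_pow, log_le_log_iff (by linarith [two_le_qv' v]) (by positivity)] at h1
  exact_mod_cast h1

theorem mem_RN_iff {N : ℕ} (hN : N ≠ 0) {x : K} :
    x ∈ RN K N ↔ ∃ k : ℕ, IsIntegral ℤ ((N : K) ^ k * x) := by
  constructor
  · intro hx
    rcases eq_or_ne x 0 with rfl | h0
    · exact ⟨0, by simpa using isIntegral_zero⟩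
    refine ⟨∑ v ∈ supp (N : K), (ord v x).natAbs, isIntegral_of_fp fun v => ?_⟩
    by_cases hv : v ∈ supp (N : K)
    · have h1 : (ord v x).natAbs ≤ ∑ v ∈ supp (N : K), (ord v x).natAbs :=
        single_le_sum (f := fun v => (ord v x).natAbs) (fun _ _ => Nat.zero_le _) hv
      have hN' : (N : K) ≠ 0 := Nat.cast_ne_zero.mpr hN
      have h2 := (fp_lt_one_iff v hN').mp ((mem_supp_nat hN v).mp hv)
      rw [fp_le_one_iff, ord_mul v (pow_ne_zero _ hN') h0, ord_pow]
      generalize ∑ v ∈ supp (N : K), (ord v x).natAbs = k at h1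
      have : (k : ℤ) * 1 ≤ k * ord v (N : K) := mul_le_mul_of_nonneg_left h2 (by positivity)
      omega
    · rw [mem_supp (Nat.cast_ne_zero.mpr hN), not_not] at hv
      rw [map_mul, map_pow, hv, one_pow, one_mul]
      exact hx v hv
  · rintro ⟨k, hk⟩ v hv
    have := fp_le_one_of_isIntegral v hk
    rwa [map_mul, map_pow, hv, one_pow, one_mul] at this

theorem map_mem_RN {L : Type} [Field L] [NumberField L] (φ : K →+* L) {N : ℕ} (hN : N ≠ 0) {x : K}
    (hx : x ∈ RN K N) : φ x ∈ RN L N := by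
  obtain ⟨k, hk⟩ := (mem_RN_iff hN).mp hx
  refine (mem_RN_iff hN).mpr ⟨k, ?_⟩
  simpa using hk.map φ.toIntAlgHom

theorem mem_RN_of_sq {N : ℕ} {x : K} (hx : x ^ 2 ∈ RN K N) : x ∈ RN K N := fun v hv => by
  have := hx v hv
  rw [map_pow] at this
  exact (pow_le_one_iff_of_nonneg (apply_nonneg _ _) two_ne_zero).mp this

theorem RN_mono {N M : ℕ} (h : N ∣ M) {x : K} (hx : x ∈ RN K N) : x ∈ RN K M := fun v hv =>
  hx v (le_antisymm (fp_nat_le_one v N) (not_lt.mp fun h' => (fp_lt_one_of_dvd v h h').ne hv))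

end Pool.Agent.Lib.MP_07b2d0_nt
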