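import Mathlib
import Pool.Agent.Lib.MP_07b2d0_nt.NF1
import Pool.Agent.Lib.MP_07b2d0_nt.Abs

/-!
The system of absolute values attached to a number field and an integer `N`.
-/

set_option autoImplicit false

namespace Pool.Agent.Lib.MP_07b2d0_nt

open Finset Real NumberField IsDedekindDomain Height Module
open scoped nonZeroDivisors NNReal ENNReal

variable {K : Type} [Field K] [NumberField K]

theorem le_ord_of_mem (v : FinitePlace K) {x : 𝓞 K} (hx : x ≠ 0) {k : ℕ}
    (h : x ∈ v.maximalIdeal.asIdeal ^ k) : (k : ℤ) ≤ ord v (x : K) := by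
  rw [← HeightOneSpectrum.intValuation_le_pow_iff_mem,
    ← HeightOneSpectrum.valuation_of_algebraMap (K := K),
    ← WithZero.log_le_iff_le_exp (val_ne_zero v (by simpa using hx))] at h
  rw [ord]
  exact le_neg.mp h

theorem mink_int {n : ℕ} (hd : |discr K| ≤ n) (T : Finset (FinitePlace K)) (k : FinitePlace K → ℕ)
    (θ : InfinitePlace K → ℝ) (h : ∑ v ∈ T, k v * log (qv v) ≤ ∑ w, w.mult * θ w) :
    ∃ x : K, x ≠ 0 ∧ IsIntegral ℤ x ∧ (∀ v ∈ T, (k v : ℤ) ≤ ord v x) ∧
      ∀ w : InfinitePlace K, log (w x) ≤ θ w + log (2 * (n + 1)) := by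
  classical
  obtain ⟨J, hJ⟩ : ∃ J : Ideal (𝓞 K), J = ∏ v ∈ T, v.maximalIdeal.asIdeal ^ k v := ⟨_, rfl⟩
  have hJ0 : J ≠ 0 := hJ ▸ prod_ne_zero_iff.mpr fun v _ => pow_ne_zero _ v.maximalIdeal.ne_bot
  have hJn : (Ideal.absNorm J : ℝ) = exp (∑ v ∈ T, k v * log (qv v)) := by
    rw [hJ, map_prod, exp_sum]
    push_cast
    refine prod_congr rfl fun v _ => ?_
    rw [map_pow, exp_nat_mul, exp_log (by linarith [two_le_qv' v]), qv, Nat.cast_pow]
  let I : (FractionalIdeal (𝓞 K)⁰ K)ˣ :=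
    Units.mk0 (J : FractionalIdeal (𝓞 K)⁰ K) (FractionalIdeal.coeIdeal_ne_zero.mpr hJ0)
  let f : InfinitePlace K → ℝ≥0 := fun w => ⟨exp (θ w) * (2 * (n + 1)), by positivity⟩
  have hD : 0 < finrank ℚ K := finrank_pos
  obtain ⟨a, ha, ha0, haw⟩ := mixedEmbedding.exists_ne_zero_mem_ideal_lt K I (f := f) (by
    have e1 : mixedEmbedding.minkowskiBound K I ≤
        ENNReal.ofReal (Ideal.absNorm J * √|discr K| * 2 ^ finrank ℚ K) := by
      rw [mixedEmbedding.minkowskiBound,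
        mixedEmbedding.volume_fundamentalDomain_fractionalIdealLatticeBasis,
        mixedEmbedding.volume_fundamentalDomain_latticeBasis, mixedEmbedding.finrank,
        ENNReal.ofReal_mul (by positivity), ENNReal.ofReal_mul (by positivity),
        ENNReal.ofReal_pow (by norm_num), ENNReal.ofReal_ofNat]
      have e2 : ((FractionalIdeal.absNorm (I : FractionalIdeal (𝓞 K)⁰ K) : ℚ) : ℝ) =
          Ideal.absNorm J := by
        simp [I, FractionalIdeal.coeIdeal_absNorm]
      have e3 : ((NNReal.sqrt ‖discr K‖₊ : ℝ≥0) : ℝ≥0∞) = ENNReal.ofReal √|discr K| := by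
        rw [← ENNReal.ofReal_coe_nnreal, Real.coe_sqrt, coe_nnnorm, Int.norm_eq_abs]
      rw [e2, e3]
      gcongr
      exact mul_le_of_le_one_left' (pow_le_one₀ zero_le (by simp))
    have e2 : ENNReal.ofReal (∏ w : InfinitePlace K, (exp (θ w) * (2 * (n + 1))) ^ w.mult) ≤
        MeasureTheory.volume (mixedEmbedding.convexBodyLT K f) := by
      rw [mixedEmbedding.convexBodyLT_volume]
      refine le_trans (le_of_eq ?_) (le_mul_of_one_le_left'
        (by exact_mod_cast mixedEmbedding.one_le_convexBodyLTFactor K))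
      rw [← ENNReal.ofReal_coe_nnreal]
      simp [f]
      rfl
    refine (e1.trans_lt ?_).trans_le e2
    rw [ENNReal.ofReal_lt_ofReal_iff (by positivity)]
    simp only [mul_pow, prod_mul_distrib, prod_pow_eq_pow_sum, InfinitePlace.sum_mult_eq,
      ← exp_nat_mul, ← exp_sum]
    have e3 : √|(discr K : ℝ)| < (n + 1 : ℝ) ^ finrank ℚ K := by
      have e4 : |(discr K : ℝ)| ≤ n := by exact_mod_cast hd
      refine lt_of_lt_of_le ?_ (le_self_pow₀ (by linarith [abs_nonneg (discr K : ℝ)]) hD.ne')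
      rw [sqrt_lt' (by positivity)]
      nlinarith [abs_nonneg (discr K : ℝ)]
    rw [hJn, mul_assoc, mul_comm (√_)]
    exact mul_lt_mul' (exp_le_exp.mpr h) (mul_lt_mul_of_pos_left e3 (by positivity))
      (by positivity) (exp_pos _))
  obtain ⟨x, hxJ, rfl⟩ := (FractionalIdeal.mem_coeIdeal _).mp ha
  refine ⟨_, ha0, x.isIntegral_coe, fun v hv => le_ord_of_mem v (by simpa using ha0) ?_,
    fun w => ?_⟩
  · exact Ideal.le_of_dvd (hJ ▸ dvd_prod_of_mem _ hv) hxJ
  · rw [log_le_iff_le_exp (InfinitePlace.pos_iff.mpr ha0), exp_add, exp_log (by positivity)]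
    exact (haw w).le

theorem ord_nat_pos {N : ℕ} (hN : N ≠ 0) {v : FinitePlace K} (hv : v ∈ supp (N : K)) :
    0 < ord v (N : K) :=
  (fp_lt_one_iff v (Nat.cast_ne_zero.mpr hN)).mp ((mem_supp_nat hN v).mp hv)

theorem mink_RN {n N : ℕ} (hd : |discr K| ≤ n) (hN : N ≠ 0) (θ : InfinitePlace K → ℝ)
    (η : FinitePlace K → ℝ) (h : ∑ w, w.mult * θ w + ∑ v ∈ supp (N : K), η v = 0) :
    ∃ x ∈ RN K N, x ≠ 0 ∧ (∀ w : InfinitePlace K, log (w x) ≤ θ w + log (2 * (n + 1))) ∧
      ∀ v ∈ supp (N : K), log (v x) ≤ η v + log (qv v) := by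
  obtain ⟨m, hm⟩ := exists_nat_ge (∑ v ∈ supp (N : K), |η v| / log 2)
  have hN' : (N : K) ≠ 0 := Nat.cast_ne_zero.mpr hN
  have hl2 : 0 < log 2 := log_pos (by norm_num)
  have h1 : ∀ v ∈ supp (N : K), 0 ≤ -(η v + m * log (v (N : K))) := by
    intro v hv
    have e1 := (single_le_sum (f := fun v => |η v| / log 2) (fun _ _ => by positivity) hv).trans hm
    rw [div_le_iff₀ hl2] at e1
    have e2 := (log_two_le_qv v).trans (log_qv_le hN' ((mem_supp_nat hN v).mp hv))
    have e3 : m * log 2 ≤ m * -log (v (N : K)) := by gcongr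
    linarith [le_abs_self (η v)]
  obtain ⟨x, hx0, hxi, hxv, hxw⟩ := mink_int hd (supp (N : K))
    (fun v => ⌊-(η v + m * log (v (N : K))) / log (qv v)⌋₊) (fun w => θ w + m * log N) (by
      calc _ ≤ ∑ v ∈ supp (N : K), -(η v + m * log (v (N : K))) := by
            refine sum_le_sum fun v hv => ?_
            rw [← le_div_iff₀ (log_qv_pos v)]
            exact Nat.floor_le (div_nonneg (h1 v hv) (log_qv_pos v).le)
        _ = -∑ v ∈ supp (N : K), η v + m * ∑ v ∈ supp (N : K), -log (v (N : K)) := by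
            rw [mul_sum, ← sum_neg_distrib, ← sum_add_distrib]
            exact sum_congr rfl fun v _ => by ring
        _ = _ := by
            rw [sum_supp_nat hN, ← InfinitePlace.sum_mult_eq]
            simp only [mul_add, sum_add_distrib, ← sum_mul]
            push_cast
            linarith
        _ ≤ _ := le_rfl)
  have hNm : (N : K) ^ m ≠ 0 := pow_ne_zero _ hN'
  refine ⟨x / (N : K) ^ m, (mem_RN_iff hN).mpr ⟨m, by rwa [mul_div_cancel₀ _ hNm]⟩,
    div_ne_zero hx0 hNm, fun w => ?_, fun v hv => ?_⟩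
  · have e1 := hxw w
    rw [map_div₀, log_div (InfinitePlace.pos_iff.mpr hx0).ne' (InfinitePlace.pos_iff.mpr hNm).ne',
      map_pow, log_pow, InfinitePlace.map_natCast]
    linarith
  · rw [map_div₀, log_div (FinitePlace.pos_iff.mpr hx0).ne' (FinitePlace.pos_iff.mpr hNm).ne',
      map_pow, log_pow, log_fp v x]
    have e1 := Nat.lt_floor_add_one (-(η v + m * log (v (N : K))) / log (qv v))
    have e2 : ((⌊-(η v + m * log (v (N : K))) / log (qv v)⌋₊ : ℕ) : ℝ) ≤ ord v x := by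
      exact_mod_cast hxv v hv
    rw [div_lt_iff₀ (log_qv_pos v)] at e1
    nlinarith [log_qv_pos v]

theorem inv_fp_eq (v : FinitePlace K) {x : K} (hx : x ≠ 0) (h : v x ≤ 1) :
    (v x)⁻¹ = ((qv v ^ (ord v x).toNat : ℕ) : ℝ) := by
  rw [fp_eq v hx, zpow_neg, inv_inv, Nat.cast_pow, ← zpow_natCast,
    Int.toNat_of_nonneg ((fp_le_one_iff v x).mp h)]

theorem cls_RN {N : ℕ} (hN : N ≠ 0) (Y : ℕ) :
    ∃ (γ : Type) (T : Finset γ) (cl : K → γ), T.card ≤ (Y + 1) ^ (finrank ℚ K * Y.factorial) ∧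
      (∀ x ∈ RN K N, x ≠ 0 → exp (nu N x) ≤ Y → cl x ∈ T) ∧
      ∀ x ∈ RN K N, x ≠ 0 → ∀ y ∈ RN K N, y ≠ 0 → exp (nu N y) ≤ Y → cl x = cl y →
        x / y ∈ RN K N := by
  classical
  have key : ∀ x ∈ RN K N, x ≠ 0 → exp (nu N x) ≤ Y → ∀ v ∉ supp (N : K), (v x)⁻¹ ≤ Y := by
    intro x hx h0 hY v hv
    refine le_trans ?_ hY
    rw [← exp_log (inv_pos.mpr (FinitePlace.pos_iff.mpr h0)), log_inv]
    exact exp_le_exp.mpr (neg_log_le_nu hN hx h0 hv)
  refine ⟨supp (Y.factorial : K) → ℕ, Fintype.piFinset fun _ => range (Y + 1),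
    fun x v => if v.1 ∈ supp (N : K) then 0 else ⌊(v.1 x)⁻¹⌋₊, ?_, ?_, ?_⟩
  · rw [Fintype.card_piFinset, prod_const, card_range, card_univ, Fintype.card_coe]
    exact Nat.pow_le_pow_right (by omega) (card_supp_le Y.factorial_ne_zero)
  · intro x hx h0 hY
    rw [Fintype.mem_piFinset]
    intro v
    rw [mem_range, Nat.lt_succ_iff]
    dsimp only
    split_ifs with h
    · exact Nat.zero_le _
    · exact Nat.floor_le_of_le (key x hx h0 hY _ h)
  · intro x hx hx0 y hy hy0 hY hcl v hv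
    have hv' : v ∉ supp (N : K) := by rwa [mem_supp (Nat.cast_ne_zero.mpr hN), not_not]
    have hypos : 0 < v y := FinitePlace.pos_iff.mpr hy0
    rw [map_div₀, div_le_one hypos]
    rcases (hy v hv).eq_or_lt with h | h
    · rw [h]; exact hx v hv
    · have e1 : qv v ≤ Y := by
        have e2 := log_qv_le hy0 h
        rw [← log_inv, log_le_log_iff (by linarith [two_le_qv' v]) (inv_pos.mpr hypos)] at e2
        exact_mod_cast e2.trans (key y hy hy0 hY v hv')
      have e2 : v ∈ supp (Y.factorial : K) := (mem_supp_nat Y.factorial_ne_zero v).mpr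
        (fp_lt_one_of_dvd v (Nat.dvd_factorial (by have := two_le_qv v; omega) e1) (fp_qv_lt_one v))
      have e3 := congrFun hcl ⟨v, e2⟩
      simp only [if_neg hv'] at e3
      rw [inv_fp_eq v hx0 (hx v hv), inv_fp_eq v hy0 h.le, Nat.floor_natCast,
        Nat.floor_natCast] at e3
      have e4 : (v x)⁻¹ = (v y)⁻¹ := by rw [inv_fp_eq v hx0 (hx v hv), inv_fp_eq v hy0 h.le, e3]
      exact (inv_injective e4).le

theorem cov_inf (w : InfinitePlace K) (G : ℕ) (hG : 1 ≤ G) {Q : ℕ} (hQ : (4 * G + 1) ^ 2 ≤ Q)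
    (f : ℕ → K) (hf : ∀ j ≤ Q, w (f j) < 2) :
    ∃ j j', j < j' ∧ j' ≤ Q ∧ w (f j - f j') ≤ 2 / G := by
  have hG' : (1 : ℝ) ≤ G := by exact_mod_cast hG
  have hb : ∀ x : ℝ, |x| < 2 → ⌊(x + 2) * G⌋₊ ∈ range (4 * G + 1) := fun x hx => by
    rw [mem_range, Nat.lt_succ_iff]
    refine Nat.floor_le_of_le ?_
    push_cast
    nlinarith [(abs_lt.mp hx).2]
  have hc : ∀ x y : ℝ, |x| < 2 → |y| < 2 → ⌊(x + 2) * G⌋₊ = ⌊(y + 2) * G⌋₊ →
      |x - y| ≤ 1 / G := fun x y hx hy h => by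
    have e3 := Nat.floor_le (show 0 ≤ (x + 2) * G by nlinarith [(abs_lt.mp hx).1])
    have e4 := Nat.floor_le (show 0 ≤ (y + 2) * G by nlinarith [(abs_lt.mp hy).1])
    have e5 := Nat.lt_floor_add_one ((x + 2) * G)
    have e6 := Nat.lt_floor_add_one ((y + 2) * G)
    rw [h] at e3 e5
    rw [le_div_iff₀ (by linarith), ← abs_of_pos (show (0 : ℝ) < G by linarith), ← abs_mul, abs_le]
    constructor <;> nlinarith
  have hre : ∀ j ≤ Q, |(w.embedding (f j)).re| < 2 := fun j hj =>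
    (Complex.abs_re_le_norm _).trans_lt (by rw [InfinitePlace.norm_embedding_eq]; exact hf j hj)
  have him : ∀ j ≤ Q, |(w.embedding (f j)).im| < 2 := fun j hj =>
    (Complex.abs_im_le_norm _).trans_lt (by rw [InfinitePlace.norm_embedding_eq]; exact hf j hj)
  obtain ⟨s, hs, s', hs', hne, h⟩ := exists_ne_map_eq_of_card_lt_of_maps_to
    (s := range (Q + 1)) (t := range (4 * G + 1) ×ˢ range (4 * G + 1))
    (by rw [card_product, card_range, card_range, ← sq]; omega)
    (f := fun j => (⌊((w.embedding (f j)).re + 2) * G⌋₊, ⌊((w.embedding (f j)).im + 2) * G⌋₊))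
    (fun j hj => by
      have hj' : j ≤ Q := Nat.lt_succ_iff.mp (mem_range.mp hj)
      exact mem_coe.mpr (mem_product.mpr ⟨hb _ (hre j hj'), hb _ (him j hj')⟩))
  wlog hlt : s < s' generalizing s s'
  · exact this s' hs' s hs hne.symm h.symm (by omega)
  have h1 : s ≤ Q := Nat.lt_succ_iff.mp (mem_range.mp hs)
  have h2 : s' ≤ Q := Nat.lt_succ_iff.mp (mem_range.mp hs')
  refine ⟨s, s', hlt, h2, ?_⟩
  have e1 := hc _ _ (hre s h1) (hre s' h2) (congrArg Prod.fst h)
  have e2 := hc _ _ (him s h1) (him s' h2) (congrArg Prod.snd h)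
  rw [← InfinitePlace.norm_embedding_eq, map_sub]
  refine (Complex.norm_le_abs_re_add_abs_im _).trans ?_
  rw [Complex.sub_re, Complex.sub_im, show 2 / (G : ℝ) = 1 / G + 1 / G by ring]
  linarith

theorem cov_fin (v : FinitePlace K) (k : ℕ) {Q : ℕ} (hQ : qv v ^ k ≤ Q)
    (f : ℕ → K) (hf : ∀ j ≤ Q, v (f j) < 2) :
    ∃ j j', j < j' ∧ j' ≤ Q ∧ v (f j - f j') ≤ ((qv v : ℝ) ^ k)⁻¹ := by
  classical
  have h1 : ∀ j, ∃ a : 𝓞 K, j ≤ Q → v.maximalIdeal.valuation K (algebraMap _ K a - f j) <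
      WithZero.exp (-(k : ℤ)) := by
    intro j
    by_cases hj : j ≤ Q
    · have e1 : v (f j) ≤ 1 := by
        rcases eq_or_ne (f j) 0 with h | h
        · simp [h]
        · by_contra hcon
          rw [fp_le_one_iff, not_le] at hcon
          have e2 := hf j hj
          rw [fp_eq v h] at e2
          have e3 : (qv v : ℝ) ^ (1 : ℤ) ≤ (qv v : ℝ) ^ (-ord v (f j)) :=
            zpow_le_zpow_right₀ (by linarith [two_le_qv' v]) (by omega)
          rw [zpow_one] at e3
          linarith [two_le_qv' v]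
      obtain ⟨a, ha⟩ := v.maximalIdeal.exists_valuation_sub_lt_of_integer
        ((fp_le_one_iff_val v _).mp e1) (Units.mk0 (WithZero.exp (-(k : ℤ))) WithZero.exp_ne_zero)
      exact ⟨a, fun _ => ha⟩
    · exact ⟨0, fun h => absurd h hj⟩
  choose a ha using h1
  have hfin : Finite (𝓞 K ⧸ v.maximalIdeal.asIdeal ^ k) :=
    Ideal.finiteQuotientOfFreeOfNeBot _ (pow_ne_zero _ v.maximalIdeal.ne_bot)
  have := Fintype.ofFinite (𝓞 K ⧸ v.maximalIdeal.asIdeal ^ k)
  obtain ⟨s, hs, s', hs', hne, h⟩ := exists_ne_map_eq_of_card_lt_of_maps_to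
    (s := range (Q + 1)) (t := (univ : Finset (𝓞 K ⧸ v.maximalIdeal.asIdeal ^ k)))
    (by
      rw [card_univ, card_range, ← Nat.card_eq_fintype_card, ← Submodule.cardQuot_apply,
        ← Ideal.absNorm_apply, map_pow]
      exact Nat.lt_succ_of_le hQ)
    (f := fun j => Ideal.Quotient.mk _ (a j)) (fun j _ => mem_coe.mpr (mem_univ _))
  wlog hlt : s < s' generalizing s s'
  · exact this s' hs' s hs hne.symm h.symm (by omega)
  have h1 : s ≤ Q := Nat.lt_succ_iff.mp (mem_range.mp hs)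
  have h2 : s' ≤ Q := Nat.lt_succ_iff.mp (mem_range.mp hs')
  refine ⟨s, s', hlt, h2, fp_le_of_val v ?_⟩
  have e1 := Ideal.Quotient.eq.mp h
  rw [← HeightOneSpectrum.intValuation_le_pow_iff_mem,
    ← HeightOneSpectrum.valuation_of_algebraMap (K := K)] at e1
  have e2 : f s - f s' = ((a s - a s' : 𝓞 K) : K) - (algebraMap _ K (a s) - f s) +
      (algebraMap _ K (a s') - f s') := by
    simp
  rw [e2]
  exact Valuation.map_add_le _ (Valuation.map_sub_le _ e1 (ha s h1).le) (ha s' h2).le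

/-- The size parameter of the system. -/
def sysP (n : ℕ) : ℕ := (n + 2) ^ 3

/-- The number of classes. -/
def sysA (n : ℕ) : ℕ := (3 ^ (sysP n ^ 2) + 1) ^ (n * (3 ^ (sysP n ^ 2)).factorial)

/-- The covering number. -/
def sysQ (n : ℕ) : ℕ := (4 * (4 * coreC (sysP n)) + 1) ^ 2 + (n ^ n) ^ (2 * coreC (sysP n))

/-- The absolute values of the system. -/
noncomputable def sysAb (N : ℕ) : InfinitePlace K ⊕ supp (N : K) → AbsoluteValue K ℝ :=
  Sum.elim (fun w => w.1) (fun v => v.1.1)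

/-- The weights of the system. -/
noncomputable def sysWt (N : ℕ) : InfinitePlace K ⊕ supp (N : K) → ℝ :=
  Sum.elim (fun w => w.mult) (fun _ => 1)

theorem sys_sum (N : ℕ) (g : ℝ → ℝ) (x : K) :
    ∑ i, sysWt N i * g (sysAb N i x) =
      ∑ w : InfinitePlace K, w.mult * g (w x) + ∑ v ∈ supp (N : K), g (v x) := by
  rw [Fintype.sum_sum_type, ← sum_coe_sort (supp (N : K))]
  simp only [sysWt, sysAb, Sum.elim_inl, Sum.elim_inr, one_mul]
  rfl

theorem sys_wt_le {n N : ℕ} (hD : finrank ℚ K ≤ n) (hN : N ≠ 0) (hNn : N ≤ n) :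
    ∑ i, sysWt (K := K) N i ≤ n + n ^ 2 := by
  have e1 := sys_sum N (fun _ => 1) (0 : K)
  simp only [mul_one, sum_const, nsmul_eq_mul] at e1
  have e2 : ∑ w : InfinitePlace K, (w.mult : ℝ) ≤ n := by
    rw [← Nat.cast_sum, InfinitePlace.sum_mult_eq]; exact_mod_cast hD
  have e3 : (supp (N : K)).card ≤ n ^ 2 :=
    (card_supp_le hN).trans (by rw [sq]; exact Nat.mul_le_mul hD hNn)
  have e4 : ((supp (N : K)).card : ℝ) ≤ n ^ 2 := by exact_mod_cast e3
  linarith

/-- The system attached to `K` and `N`. -/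
noncomputable def nfSys {n N : ℕ} (hD : finrank ℚ K ≤ n) (hd : |discr K| ≤ n) (hN : N ≠ 0)
    (hNn : N ≤ n) : Sys K (InfinitePlace K ⊕ supp (N : K)) (sysP n) (sysA n) (sysQ n) where
  ab := sysAb N
  wt := sysWt N
  wt1 := by
    rintro (w | v)
    · exact (show (1 : ℝ) ≤ w.mult by exact_mod_cast w.mult_pos)
    · exact le_rfl
  wtp := (sys_wt_le hD hN hNn).trans (by
    rw [sysP]; push_cast
    have : (0 : ℝ) ≤ n := by positivity
    nlinarith [pow_nonneg this 3])
  R := RN K N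
  liou := fun x hx _ => by rw [sys_sum]; exact nu_nonneg hN hx
  mink := fun θ hθ => by
    classical
    have hn : (0 : ℝ) ≤ n := by positivity
    obtain ⟨x, hx, hx0, h1, h2⟩ := mink_RN hd hN (fun w => θ (.inl w))
      (fun v => if h : v ∈ supp (N : K) then θ (.inr ⟨v, h⟩) else 0) (by
        rw [Fintype.sum_sum_type] at hθ
        rw [← hθ, ← sum_coe_sort (supp (N : K))]
        simp [sysWt])
    refine ⟨x, hx, hx0, ?_⟩
    rintro (w | v)
    · refine (h1 w).trans (add_le_add_right ((log_le_self (by positivity)).trans ?_) _)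
      rw [sysP]; push_cast
      nlinarith [pow_nonneg hn 3]
    · have e1 := h2 v v.2
      rw [dif_pos v.2] at e1
      refine e1.trans (add_le_add_right ?_ _)
      have e2 : (qv v.1 : ℝ) ≤ (N : ℝ) ^ finrank ℚ K := by exact_mod_cast qv_le hN v.2
      have e3 := log_le_log (by linarith [two_le_qv' v.1]) e2
      have e4 : log (N : ℝ) ≤ n := (log_le_self (by positivity)).trans (by exact_mod_cast hNn)
      have e5 : (finrank ℚ K : ℝ) ≤ n := by exact_mod_cast hD
      have e6 : finrank ℚ K * log (N : ℝ) ≤ n * n :=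
        mul_le_mul e5 e4 (log_natCast_nonneg N) hn
      rw [log_pow] at e3
      rw [sysP]; push_cast
      nlinarith [pow_nonneg hn 3]
  cls := by
    obtain ⟨γ, T, cl, h1, h2, h3⟩ := cls_RN (K := K) hN (3 ^ (sysP n ^ 2))
    have e1 : ∀ x : K, ∑ i, sysWt N i * log (sysAb N i x) ≤ (sysP n : ℝ) ^ 2 →
        exp (nu N x) ≤ (3 ^ (sysP n ^ 2) : ℕ) := fun x hx => by
      rw [sys_sum] at hx
      refine (exp_le_exp.mpr hx).trans ?_
      rw [← Nat.cast_pow, ← mul_one ((sysP n ^ 2 : ℕ) : ℝ), exp_nat_mul]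
      push_cast
      exact pow_le_pow_left₀ (exp_pos _).le (Real.exp_one_lt_d9.le.trans (by norm_num)) _
    exact ⟨γ, T, cl, h1.trans (Nat.pow_le_pow_right (Nat.succ_pos _) (Nat.mul_le_mul_right _ hD)),
      fun x hx h0 h => h2 x hx h0 (e1 x h),
      fun x hx h0 _ y hy hy0 h => h3 x hx h0 y hy hy0 (e1 y h)⟩
  cov := by
    have hC : 1 ≤ coreC (sysP n) := by
      have h1 : 1 ≤ sysP n := Nat.one_le_pow _ _ (by omega)
      have := le_coreC h1
      omega
    have hC' : (1 : ℝ) ≤ coreC (sysP n) := by exact_mod_cast hC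
    rintro (w | v) f hf
    · obtain ⟨j, j', h1, h2, h3⟩ := cov_inf w (4 * coreC (sysP n)) (by omega)
        (Nat.le_add_right _ _) f hf
      refine ⟨j, j', h1, h2, h3.trans (le_of_eq ?_)⟩
      push_cast
      field_simp
      norm_num
    · obtain ⟨j, j', h1, h2, h3⟩ := cov_fin v.1 (2 * coreC (sysP n)) (Q := sysQ n)
        (le_trans (Nat.pow_le_pow_left ((qv_le hN v.2).trans ((Nat.pow_le_pow_left hNn _).trans
          (Nat.pow_le_pow_right (by omega) hD))) _) (Nat.le_add_left _ _)) f hf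
      refine ⟨j, j', h1, h2, h3.trans ?_⟩
      rw [one_div]
      refine inv_anti₀ (by positivity) ?_
      exact_mod_cast (Nat.lt_pow_self (two_le_qv v.1)).le

/-- The constant of the basic estimate. -/
def nfC (n : ℕ) : ℕ := bkC (sysP n) (sysA n) (sysQ n)

/-- The basic estimate for units. -/
theorem nf_bk {n N : ℕ} (hD : finrank ℚ K ≤ n) (hd : |discr K| ≤ n) (hN : N ≠ 0)
    (hNn : N ≤ n) {u : K} (hu : u ∈ RN K N) (hu' : u⁻¹ ∈ RN K N) (hu0 : u ≠ 0) (hu1 : u ≠ 1) :
    logHeight₁ u - logHeight₁ u / n - nfC n ≤ nu N (u - 1) := by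
  have h := (nfSys hD hd hN hNn).bk (Nat.one_le_pow _ _ (by omega)) hu hu' hu0 hu1
  change ∑ i, sysWt N i * log⁺ (sysAb N i u) - (∑ i, sysWt (K := K) N i) *
    ((∑ i, sysWt N i * log⁺ (sysAb N i u)) / sysP n) - nfC n ≤
    ∑ i, sysWt N i * log (sysAb N i (u - 1)) at h
  rw [sys_sum, sys_sum, ← logHeight_eq_of_mem hN hu] at h
  refine le_trans ?_ h
  have hn : (1 : ℝ) ≤ n := by exact_mod_cast (show 1 ≤ n by omega)
  have h0 := zero_le_logHeight₁ u
  have e1 : (∑ i, sysWt (K := K) N i) * (logHeight₁ u / sysP n) ≤ logHeight₁ u / n := by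
    refine (mul_le_mul_of_nonneg_right (sys_wt_le hD hN hNn) (by positivity)).trans ?_
    rw [sysP, ← mul_div_assoc, div_le_div_iff₀ (by positivity) (by positivity)]
    push_cast
    have : ((n : ℝ) + n ^ 2) * n ≤ (n + 2) ^ 3 := by nlinarith
    nlinarith
  linarith

end Pool.Agent.Lib.MP_07b2d0_nt
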