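import Mathlib
import Pool.Agent.Lib.MP_07b2d0_nt.NF2

/-!
Heights in extensions, and extensions by square roots with controlled discriminant.
-/

set_option autoImplicit false
set_option linter.unusedSectionVars false

namespace Pool.Agent.Lib.MP_07b2d0_nt

open Module NumberField Polynomial Height

section Heights

variable {K L : Type} [Field K] [NumberField K] [Field L] [NumberField L]

theorem prod_emb (f : InfinitePlace L → ℝ) :
    ∏ τ : L →+* ℂ, f (InfinitePlace.mk τ) = ∏ w : InfinitePlace L, f w ^ w.mult := by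
  classical
  rw [← Finset.prod_fiberwise Finset.univ InfinitePlace.mk]
  refine Finset.prod_congr rfl fun w _ => ?_
  rw [Finset.prod_congr rfl (g := fun _ => f w)
    (fun τ hτ => by rw [(Finset.mem_filter.1 hτ).2]), Finset.prod_const,
    InfinitePlace.card_filter_mk_eq]

theorem abs_norm_eq (δ : K) :
    ((|Algebra.norm ℚ δ| : ℚ) : ℝ) = ∏ σ : K →+* ℂ, ‖σ δ‖ := by
  rw [← InfinitePlace.prod_eq_abs_norm, ← prod_emb fun w => w δ]
  rfl

theorem height_eq (x y : 𝓞 L) (hy : y ≠ 0) :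
    mulHeight₁ ((x : L) / y) * Ideal.absNorm (Ideal.span {x, y}) =
      ∏ τ : L →+* ℂ, max ‖τ x‖ ‖τ y‖ := by
  have hv (i : Fin 2) : (![x, y] i : L) = ![(x : L), y] i := by fin_cases i <;> rfl
  have h1 := absNorm_mul_finprod_finitePlace_eq_one (show ![x, y] ≠ 0 by simp [hy])
  have h2 : Set.range ![x, y] = {x, y} := by
    ext z
    simp [eq_comm, or_comm]
  have hy' : (y : L) ≠ 0 := by exact_mod_cast hy
  simp only [hv, h2] at h1
  rw [mulHeight₁_div_eq_mulHeight, NumberField.mulHeight_eq (by simp [hy']), mul_assoc,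
    mul_comm (∏ᶠ v : FinitePlace L, _), h1, mul_one,
    ← prod_emb fun w => ⨆ i, w (![(x : L), y] i)]
  refine Finset.prod_congr rfl fun τ _ => ?_
  refine le_antisymm (ciSup_le fun i => ?_) (max_le ?_ ?_)
  · fin_cases i
    · exact le_max_left _ _
    · exact le_max_right _ _
  · exact Finite.le_ciSup_of_le 0 le_rfl
  · exact Finite.le_ciSup_of_le 1 le_rfl

variable [Algebra K L]

theorem prod_emb_comp (g : (K →+* ℂ) → ℝ) :
    ∏ τ : L →+* ℂ, g (τ.comp (algebraMap K L)) = (∏ σ : K →+* ℂ, g σ) ^ finrank K L := by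
  classical
  rw [← Finset.prod_fiberwise Finset.univ fun τ : L →+* ℂ => τ.comp (algebraMap K L),
    ← Finset.prod_pow]
  refine Finset.prod_congr rfl fun σ _ => ?_
  rw [Finset.prod_congr rfl (g := fun _ => g σ)
    (fun τ hτ => by rw [(Finset.mem_filter.1 hτ).2]), Finset.prod_const]
  congr 1
  let := σ.toAlgebra
  rw [← AlgHom.card K L ℂ, ← Fintype.card_subtype]
  refine Fintype.card_congr ⟨fun τ => ⟨τ.1, fun x => RingHom.congr_fun τ.2 x⟩,
    fun τ => ⟨τ.toRingHom, RingHom.ext fun x => τ.commutes x⟩, fun _ => rfl, fun _ => rfl⟩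

theorem exists_frac (x : K) : ∃ u v : 𝓞 K, v ≠ 0 ∧ x = u / v := by
  obtain ⟨u, v, hv, h⟩ := IsFractionRing.div_surjective (A := 𝓞 K) x
  exact ⟨u, v, nonZeroDivisors.ne_zero hv, h.symm⟩

theorem mulHeight₁_algebraMap (x : K) :
    mulHeight₁ (algebraMap K L x) = mulHeight₁ x ^ finrank K L := by
  obtain ⟨u, v, hv, rfl⟩ := exists_frac x
  have hv' : algebraMap (𝓞 K) (𝓞 L) v ≠ 0 := by simpa using hv
  have h1 := height_eq u v hv
  have h2 := height_eq (algebraMap (𝓞 K) (𝓞 L) u) (algebraMap (𝓞 K) (𝓞 L) v) hv'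
  have h3 : Ideal.span {algebraMap (𝓞 K) (𝓞 L) u, algebraMap (𝓞 K) (𝓞 L) v} =
      (Ideal.span {u, v}).map (algebraMap (𝓞 K) (𝓞 L)) := by
    rw [Ideal.map_span, Set.image_pair]
  have h4 := prod_emb_comp (L := L) fun σ : K →+* ℂ => max ‖σ u‖ ‖σ v‖
  have h5 : (Ideal.absNorm (Ideal.span {u, v}) : ℝ) ≠ 0 := by
    rw [Nat.cast_ne_zero, Ne, Ideal.absNorm_eq_zero_iff, Ideal.span_eq_bot]
    exact fun h => hv (h v (by simp))
  rw [h3, Ideal.absNorm_algebraMap, ← IsFractionRing.finrank_eq (𝓞 K) K (𝓞 L) L] at h2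
  rw [← h1, mul_pow] at h4
  refine mul_right_cancel₀ (pow_ne_zero (finrank K L) h5) ?_
  rw [← h4, map_div₀]
  push_cast at h2
  exact h2

end Heights

open Finset Real

variable {K : Type} [Field K] [NumberField K]

theorem logHeight_le_map {L : Type} [Field L] [NumberField L] (φ : K →+* L) (x : K) :
    logHeight₁ x ≤ logHeight₁ (φ x) := by
  let := φ.toAlgebra
  have h := mulHeight₁_algebraMap (L := L) x
  have h1 : finrank ℚ K * finrank K L = finrank ℚ L := finrank_mul_finrank ℚ K L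
  have h2 : finrank K L ≠ 0 := fun h0 => by
    rw [h0, mul_zero] at h1
    exact (finrank_pos (R := ℚ) (M := L)).ne h1
  rw [logHeight₁_eq_log_mulHeight₁, logHeight₁_eq_log_mulHeight₁]
  refine log_le_log (mulHeight₁_pos _) ?_
  change _ ≤ mulHeight₁ (algebraMap K L x)
  rw [h]
  exact le_self_pow₀ (one_le_mulHeight₁ x) h2

theorem nuInf_mul {x y : K} (hx : x ≠ 0) (hy : y ≠ 0) : nuInf (x * y) = nuInf x + nuInf y := by
  have hw : ∀ (w : InfinitePlace K) {z : K}, z ≠ 0 → w z ≠ 0 := fun w _ h =>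
    (InfinitePlace.pos_iff.mpr h).ne'
  simp only [nuInf, map_mul, log_mul (hw _ hx) (hw _ hy), mul_add, sum_add_distrib]

theorem exp_nuInf {x : 𝓞 K} (hx : x ≠ 0) :
    exp (nuInf (x : K)) = Ideal.absNorm (Ideal.span {x}) := by
  have hx' : (x : K) ≠ 0 := by simpa using hx
  rw [nuInf, exp_sum, Ideal.absNorm_span_singleton, Nat.cast_natAbs, Int.cast_abs]
  have h1 := InfinitePlace.prod_eq_abs_norm (x : K)
  rw [← Algebra.coe_norm_int] at h1
  push_cast at h1
  rw [← h1]
  exact prod_congr rfl fun w _ => by rw [exp_nat_mul, exp_log (InfinitePlace.pos_iff.mpr hx')]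

/-- The bound for the norm of a representative modulo squares. -/
def extM (n : ℕ) : ℕ := (n * (2 * (n + 1)) ^ 2) ^ n

theorem exists_small_rep {n N : ℕ} (hD : finrank ℚ K ≤ n) (hd : |discr K| ≤ n) (hN : N ≠ 0)
    (hNn : N ≤ n) {x : K} (hx : x ≠ 0)
    (he : ∀ v : FinitePlace K, v (N : K) = 1 → Even (ord v x)) :
    ∃ γ : K, γ ≠ 0 ∧ ∃ m : ℕ, m ≠ 0 ∧ m ≤ extM n ∧ IsIntegral ℤ (x * γ ^ 2) ∧
      IsIntegral ℤ ((m : K) / (x * γ ^ 2)) := by
  classical
  obtain ⟨a, b, hb, hab⟩ := exists_frac x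
  have hb' : (b : K) ≠ 0 := by simpa using hb
  obtain ⟨x1, hx1⟩ : ∃ x1, x1 = x * (b : K) ^ 2 := ⟨_, rfl⟩
  have hx10 : x1 ≠ 0 := hx1 ▸ mul_ne_zero hx (pow_ne_zero _ hb')
  have hx1i : ∀ v : FinitePlace K, 0 ≤ ord v x1 := fun v => by
    have : x1 = ((a * b : 𝓞 K) : K) := by rw [hx1, hab]; push_cast; field_simp
    rw [← fp_le_one_iff, this]
    exact fp_int_le_one v _
  have he1 : ∀ v : FinitePlace K, v (N : K) = 1 → Even (ord v x1) := fun v hv => by
    rw [hx1, ord_mul v hx (pow_ne_zero _ hb'), ord_pow]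
    exact (he v hv).add (even_two.natCast.mul_right _)
  have hD0 : (0 : ℝ) < finrank ℚ K := by exact_mod_cast finrank_pos
  have hsum : ∑ w : InfinitePlace K, (w.mult : ℝ) = finrank ℚ K := by
    rw [← Nat.cast_sum, InfinitePlace.sum_mult_eq]
  obtain ⟨k, hk⟩ : ∃ k : FinitePlace K → ℕ, ∀ v, (k v : ℤ) = (ord v x1 + 1) / 2 :=
    ⟨fun v => ((ord v x1 + 1) / 2).toNat, fun v => Int.toNat_of_nonneg (by have := hx1i v; omega)⟩
  obtain ⟨A, hA⟩ : ∃ A, A = ∑ v ∈ supp x1, k v * log (qv v) := ⟨_, rfl⟩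
  obtain ⟨y, hy0, hyi, hyv, hyw⟩ := mink_int hd (supp x1) k (fun _ => A / finrank ℚ K) (by
    rw [← sum_mul, hsum, mul_div_cancel₀ _ hD0.ne', hA])
  have e0 : x * (y / (x * b)) ^ 2 = y ^ 2 / x1 := by rw [hx1]; field_simp
  have hz0 : y ^ 2 / x1 ≠ 0 := div_ne_zero (pow_ne_zero _ hy0) hx10
  have hzi : IsIntegral ℤ (y ^ 2 / x1) := isIntegral_of_fp fun v => by
    rw [fp_le_one_iff, ord_div v (pow_ne_zero _ hy0) hx10, ord_pow]
    by_cases hv : v ∈ supp x1
    · have := hyv v hv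
      have := hk v
      push_cast
      omega
    · rw [mem_supp hx10, not_not, fp_eq_one_iff v hx10] at hv
      have := (fp_le_one_iff v y).mp (fp_le_one_of_isIntegral v hyi)
      push_cast
      omega
  obtain ⟨z, hz⟩ : ∃ z : 𝓞 K, (z : K) = y ^ 2 / x1 := ⟨⟨_, hzi⟩, rfl⟩
  have hz0' : z ≠ 0 := fun h => hz0 (by rw [← hz, h]; simp)
  refine ⟨y / (x * b), div_ne_zero hy0 (mul_ne_zero hx hb'), Ideal.absNorm (Ideal.span {z}), ?_,
    ?_, e0 ▸ hzi, ?_⟩
  · rw [Ne, Ideal.absNorm_eq_zero_iff, Ideal.span_singleton_eq_bot]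
    exact hz0'
  · have e1 : nuInf (z : K) + nuInf x1 = nuInf y + nuInf y := by
      rw [← nuInf_mul (hz ▸ hz0) hx10, ← nuInf_mul hy0 hy0, hz, div_mul_cancel₀ _ hx10, sq]
    have e2 : nuInf y ≤ A + finrank ℚ K * log (2 * (n + 1)) := by
      calc nuInf y ≤ ∑ w : InfinitePlace K, w.mult * (A / finrank ℚ K + log (2 * (n + 1))) :=
            sum_le_sum fun w _ => mul_le_mul_of_nonneg_left (hyw w) (by positivity)
        _ = _ := by rw [← sum_mul, hsum, mul_add, mul_div_cancel₀ _ hD0.ne']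
    have e3 := log_pf hx10 _ Subset.rfl
    have e4 : 2 * A + ∑ v ∈ supp x1, log (v x1) ≤ finrank ℚ K * log N := by
      rw [hA, mul_sum, ← sum_add_distrib]
      calc _ ≤ ∑ v ∈ supp x1, if v ∈ supp (N : K) then log (qv v) else 0 := by
            refine sum_le_sum fun v _ => ?_
            have e5 : 2 * (k v * log (qv v)) + log (v x1) =
                ((2 * k v - ord v x1 : ℤ) : ℝ) * log (qv v) := by
              rw [log_fp]; push_cast; ring
            rw [e5]
            split_ifs with h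
            · refine mul_le_of_le_one_left (log_qv_pos v).le ?_
              exact_mod_cast (show 2 * (k v : ℤ) - ord v x1 ≤ 1 by have := hk v; omega)
            · rw [mem_supp (Nat.cast_ne_zero.mpr hN), not_not] at h
              obtain ⟨r, hr⟩ := he1 v h
              rw [show 2 * (k v : ℤ) - ord v x1 = 0 by have := hk v; omega]
              simp
        _ ≤ ∑ v ∈ supp (N : K), log (qv v) := by
            rw [← sum_filter]
            exact sum_le_sum_of_subset_of_nonneg (fun v hv => (mem_filter.mp hv).2)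
              fun v _ _ => (log_qv_pos v).le
        _ ≤ _ := sum_log_qv_le hN
    have e5 : nuInf (z : K) ≤ finrank ℚ K * log (N * (2 * (n + 1)) ^ 2) := by
      rw [log_mul (by positivity) (by positivity), log_pow]
      push_cast
      linarith
    have e6 := exp_le_exp.mpr e5
    rw [exp_nuInf hz0', exp_nat_mul, exp_log (by positivity)] at e6
    have e7 : Ideal.absNorm (Ideal.span {z}) ≤ (N * (2 * (n + 1)) ^ 2) ^ finrank ℚ K := by
      exact_mod_cast e6
    refine e7.trans ((Nat.pow_le_pow_left (Nat.mul_le_mul_right _ hNn) _).trans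
      (Nat.pow_le_pow_right ?_ hD))
    have : 0 < n := by omega
    positivity
  · obtain ⟨r, hr⟩ := Ideal.mem_span_singleton'.mp (Ideal.absNorm_mem (Ideal.span {z}))
    have e1 : ((Ideal.absNorm (Ideal.span {z}) : ℕ) : K) = (r : K) * z := by
      have := congrArg (fun t : 𝓞 K => (t : K)) hr
      simpa using this.symm
    rw [e0, ← hz, e1, mul_div_cancel_right₀ _ (hz ▸ hz0)]
    exact r.isIntegral_coe

theorem ext_one {x : K} {m : ℕ} (hm : m ≠ 0) (hx0 : x ≠ 0) (hx : IsIntegral ℤ x)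
    (hm' : IsIntegral ℤ ((m : K) / x)) :
    ∃ (L : Type) (_ : Field L) (_ : NumberField L) (φ : K →+* L),
      finrank ℚ L ≤ 2 * finrank ℚ K ∧
      (discr L).natAbs ≤ (2 * m) ^ (2 * finrank ℚ K) * (discr K).natAbs ^ 2 ∧ IsSquare (φ x) := by
  have hd : 1 ≤ (discr K).natAbs := Int.natAbs_pos.mpr (discr_ne_zero K)
  by_cases hs : IsSquare x
  · refine ⟨K, inferInstance, inferInstance, RingHom.id K, by omega, ?_, hs⟩
    exact le_trans (Nat.le_self_pow two_ne_zero _) (Nat.le_mul_of_pos_left _ (by positivity))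
  have hirr : Irreducible (X ^ 2 - C x) :=
    X_pow_sub_C_irreducible_of_prime Nat.prime_two fun b hb => hs ⟨b, by rw [← hb, sq]⟩
  have := Fact.mk hirr
  let L := AdjoinRoot (X ^ 2 - C x)
  have hmon : (X ^ 2 - C x).Monic := monic_X_pow_sub_C x two_ne_zero
  have hfin : Module.Finite K L := hmon.finite_adjoinRoot
  have hNF : NumberField L := NumberField.of_module_finite K L
  have hrk : finrank K L = 2 := by
    rw [(AdjoinRoot.powerBasis hmon.ne_zero).finrank, AdjoinRoot.powerBasis_dim,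
      natDegree_X_pow_sub_C]
  have hrkL : finrank ℚ L = 2 * finrank ℚ K := by
    rw [← finrank_mul_finrank ℚ K L, hrk, mul_comm]
  obtain ⟨s, hs⟩ : ∃ s : L, s = AdjoinRoot.root (X ^ 2 - C x) := ⟨_, rfl⟩
  have hs2 : s ^ 2 = algebraMap K L x := by
    have := AdjoinRoot.eval₂_root (X ^ 2 - C x)
    rw [eval₂_sub, eval₂_X_pow, eval₂_C, sub_eq_zero] at this
    rw [hs]; exact this
  have hsi : IsIntegral ℤ s := by
    refine IsIntegral.of_pow two_pos ?_
    rw [hs2]
    exact hx.map (algebraMap K L).toIntAlgHom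
  refine ⟨L, inferInstance, hNF, algebraMap K L, hrkL.le, ?_, ⟨s, by rw [← hs2, sq]⟩⟩
  rw [natAbs_discr_eq_absNorm_differentIdeal_mul_natAbs_discr_pow K (𝓞 K) L (𝓞 L), hrk]
  refine Nat.mul_le_mul_right _ (Nat.le_of_dvd (by positivity) ?_)
  let sO : 𝓞 L := ⟨s, hsi⟩
  let xO : 𝓞 K := ⟨x, hx⟩
  have h1 := aeval_derivative_mem_differentIdeal (𝓞 K) K L sO
    (by change Algebra.adjoin K {s} = ⊤; rw [hs]; exact AdjoinRoot.adjoinRoot_eq_top)
  have h2 : minpoly (𝓞 K) sO = X ^ 2 - C xO := by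
    apply Polynomial.map_injective (algebraMap (𝓞 K) K) (IsFractionRing.injective _ _)
    rw [← minpoly.isIntegrallyClosed_eq_field_fractions K L (Algebra.IsIntegral.isIntegral sO)]
    change minpoly K s = _
    rw [← minpoly.eq_of_irreducible_of_monic hirr (by simp [hs2]) hmon]
    simp [xO]
  rw [h2] at h1
  let r : 𝓞 L := ⟨algebraMap K L (m / x), hm'.map (algebraMap K L).toIntAlgHom⟩
  have h3 : ((2 * m : ℕ) : 𝓞 L) = aeval sO (derivative (X ^ 2 - C xO)) * (sO * r) := by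
    apply RingOfIntegers.ext
    have e1 : algebraMap K L x ≠ 0 := by simpa using hx0
    have e2 : ((aeval sO (derivative (X ^ 2 - C xO)) : 𝓞 L) : L) = 2 * s := by
      simp [sO, one_add_one_eq_two, map_ofNat]
    change algebraMap (𝓞 L) L _ =
      ((aeval sO (derivative (X ^ 2 - C xO)) : 𝓞 L) : L) * (s * algebraMap K L (m / x))
    rw [e2, map_div₀, ← hs2, map_natCast, map_natCast]
    have e3 : s ≠ 0 := fun h => e1 (by rw [← hs2, h]; simp)
    rw [← mul_assoc, mul_assoc 2, ← sq, mul_assoc, mul_div_cancel₀ _ (pow_ne_zero _ e3)]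
    push_cast
    rfl
  rw [← hrkL, ← RingOfIntegers.rank, ← Ideal.absNorm_span_natCast]
  refine Ideal.absNorm_dvd_absNorm_of_le ?_
  rw [Ideal.span_singleton_le_iff_mem, h3]
  exact Ideal.mul_mem_right _ _ h1

/-- One step of the growth of the parameter. -/
def extS (n : ℕ) : ℕ := 2 * n + (2 * n) ^ (2 * n) * n ^ 2

theorem ext_list (l : ℕ) : ∀ {n : ℕ} {K : Type} [Field K] [NumberField K] (f : Fin l → K),
    finrank ℚ K ≤ n → (discr K).natAbs ≤ n →
    (∀ i, f i ≠ 0 ∧ IsIntegral ℤ (f i) ∧ ∃ m : ℕ, m ≠ 0 ∧ m ≤ n ∧ IsIntegral ℤ ((m : K) / f i)) →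
    ∃ (L : Type) (_ : Field L) (_ : NumberField L) (φ : K →+* L),
      finrank ℚ L ≤ extS^[l] n ∧ (discr L).natAbs ≤ extS^[l] n ∧ ∀ i, IsSquare (φ (f i)) := by
  induction l with
  | zero =>
    intro n K _ _ f h1 h2 _
    exact ⟨K, inferInstance, inferInstance, RingHom.id K, h1, h2, fun i => i.elim0⟩
  | succ l ih =>
    intro n K _ _ f h1 h2 h3
    obtain ⟨h0, hi, m, hm, hmn, hm'⟩ := h3 0
    obtain ⟨L, _, _, φ, e1, e2, e3⟩ := ext_one hm h0 hi hm'
    have hn : 0 < n := by omega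
    obtain ⟨M, _, _, ψ, e4, e5, e6⟩ := ih (n := extS n) (fun i => φ (f i.succ))
      (by rw [extS]; omega) (by
        refine e2.trans (le_trans ?_ (Nat.le_add_left _ _))
        refine Nat.mul_le_mul ((Nat.pow_le_pow_left (by omega) _).trans
          (Nat.pow_le_pow_right (by omega) (by omega))) (Nat.pow_le_pow_left h2 _)) (fun i => by
        obtain ⟨h0, hi, m, hm, hmn, hm'⟩ := h3 i.succ
        refine ⟨by simpa using h0, hi.map φ.toIntAlgHom, m, hm, by rw [extS]; omega, ?_⟩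
        simpa using hm'.map φ.toIntAlgHom)
    refine ⟨M, inferInstance, inferInstance, ψ.comp φ, e4, e5, fun i => ?_⟩
    refine Fin.cases ?_ (fun i => e6 i) i
    exact e3.map ψ

theorem le_extS_iter (l n : ℕ) : n ≤ extS^[l] n := by
  induction l generalizing n with
  | zero => exact le_rfl
  | succ l ih => exact le_trans (by rw [extS]; omega) (ih (extS n))

/-- The parameter after adjoining `l` square roots. -/
def extN (l n : ℕ) : ℕ := extS^[l] (n + extM n)

theorem le_extN (l n : ℕ) : n ≤ extN l n := (Nat.le_add_right _ _).trans (le_extS_iter _ _)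

/-- Adjoining square roots of elements with even valuations outside `N`. -/
theorem exists_ext {n N : ℕ} (hD : finrank ℚ K ≤ n) (hd : |discr K| ≤ n) (hN : N ≠ 0)
    (hNn : N ≤ n) {l : ℕ} (f : Fin l → K) (hf : ∀ i, f i ≠ 0)
    (he : ∀ i (v : FinitePlace K), v (N : K) = 1 → Even (ord v (f i))) :
    ∃ (L : Type) (_ : Field L) (_ : NumberField L) (φ : K →+* L),
      finrank ℚ L ≤ extN l n ∧ |discr L| ≤ extN l n ∧ ∀ i, IsSquare (φ (f i)) := by
  choose γ hγ m hm hmn h1 h2 using fun i => exists_small_rep hD hd hN hNn (hf i) (he i)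
  obtain ⟨L, _, _, φ, e1, e2, e3⟩ := ext_list l (n := n + extM n) (fun i => f i * γ i ^ 2)
    (by omega) (by rw [Int.abs_eq_natAbs] at hd; omega) fun i => ⟨mul_ne_zero (hf i) (pow_ne_zero _ (hγ i)), h1 i, m i, hm i,
      (hmn i).trans (Nat.le_add_left _ _), h2 i⟩
  refine ⟨L, inferInstance, inferInstance, φ, e1, by rw [extN, Int.abs_eq_natAbs]; omega, fun i => ?_⟩
  obtain ⟨r, hr⟩ := e3 i
  have h0 : φ (γ i) ≠ 0 := by simpa using hγ i
  refine ⟨r / φ (γ i), ?_⟩
  rw [map_mul, map_pow] at hr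
  field_simp
  rw [hr, sq]

end Pool.Agent.Lib.MP_07b2d0_nt
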