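import Mathlib
import Pool.Agent.Lib.MP_07b2d0_nt.Ext

/-!
Norm estimates for pairs of squares differing by one.
-/

set_option autoImplicit false

namespace Pool.Agent.Lib.MP_07b2d0_nt

open Finset Real NumberField Height Module

variable {K : Type} [Field K] [NumberField K]

/-- The standing size assumptions. -/
structure Small (K : Type) [Field K] [NumberField K] (n N : ℕ) : Prop where
  hD : finrank ℚ K ≤ n
  hd : |discr K| ≤ n
  hN : N ≠ 0
  hNn : N ≤ n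
  h2 : 2 ∣ N

variable {n N : ℕ}

theorem h_add_le (hD : finrank ℚ K ≤ n) (x y : K) :
    logHeight₁ (x + y) ≤ n + logHeight₁ x + logHeight₁ y := by
  have h1 := logHeight₁_add_le x y
  rw [totalWeight_eq_finrank] at h1
  have h2 : (finrank ℚ K : ℝ) * log 2 ≤ n * 1 :=
    mul_le_mul (by exact_mod_cast hD) (by linarith [Real.log_two_lt_d9])
      (log_nonneg (by norm_num)) (by positivity)
  linarith

theorem h_sub_le (hD : finrank ℚ K ≤ n) (x y : K) :
    logHeight₁ (x - y) ≤ n + logHeight₁ x + logHeight₁ y := by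
  rw [sub_eq_add_neg, ← logHeight₁_neg y]
  exact h_add_le hD x (-y)

theorem h_div_le (x y : K) : logHeight₁ (x / y) ≤ logHeight₁ x + logHeight₁ y := by
  rw [div_eq_mul_inv, ← logHeight₁_inv y]
  exact logHeight₁_mul_le _ _

theorem h_two_le (hD : finrank ℚ K ≤ n) : logHeight₁ (2 : K) ≤ n := by
  have := h_add_le hD (1 : K) 1
  rwa [one_add_one_eq_two, logHeight₁_one, add_zero, add_zero] at this

/-- `N`-units. -/
def IsU (N : ℕ) (x : K) : Prop := x ≠ 0 ∧ x ∈ RN K N ∧ x⁻¹ ∈ RN K N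

theorem IsU.mul {x y : K} (hx : IsU N x) (hy : IsU N y) : IsU N (x * y) :=
  ⟨mul_ne_zero hx.1 hy.1, mul_mem hx.2.1 hy.2.1, by rw [mul_inv]; exact mul_mem hx.2.2 hy.2.2⟩

theorem IsU.inv {x : K} (hx : IsU N x) : IsU N x⁻¹ :=
  ⟨inv_ne_zero hx.1, hx.2.2, by rw [inv_inv]; exact hx.2.1⟩

theorem IsU.div {x y : K} (hx : IsU N x) (hy : IsU N y) : IsU N (x / y) := by
  rw [div_eq_mul_inv]; exact hx.mul hy.inv

theorem IsU.neg {x : K} (hx : IsU N x) : IsU N (-x) :=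
  ⟨neg_ne_zero.mpr hx.1, neg_mem hx.2.1, by rw [inv_neg]; exact neg_mem hx.2.2⟩

theorem IsU.nu (hN : N ≠ 0) {x : K} (hx : IsU N x) : nu N x = 0 := nu_unit hN hx.2.1 hx.2.2

theorem IsU.of_mul {x y z : K} (hz : IsU N z) (hx : x ∈ RN K N) (hy : y ∈ RN K N)
    (h : x * y = z) : IsU N x := by
  have hx0 : x ≠ 0 := fun h0 => hz.1 (by rw [← h, h0, zero_mul])
  have hy0 : y ≠ 0 := fun h0 => hz.1 (by rw [← h, h0, mul_zero])
  refine ⟨hx0, hx, ?_⟩
  have : x⁻¹ = y * z⁻¹ := by rw [← h]; field_simp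
  rw [this]
  exact mul_mem hy hz.2.2

theorem isU_one : IsU N (1 : K) := ⟨one_ne_zero, one_mem _, by rw [inv_one]; exact one_mem _⟩

theorem isU_two (h2 : 2 ∣ N) : IsU N (2 : K) := by
  refine ⟨two_ne_zero, ofNat_mem _ 2, fun v hv => ?_⟩
  have h1 : v ((2 : ℕ) : K) = 1 := le_antisymm (fp_nat_le_one v 2)
    (not_lt.mp fun h => (fp_lt_one_of_dvd v h2 h).ne hv)
  rw [Nat.cast_ofNat] at h1
  rw [map_inv₀, h1, inv_one]

theorem Small.bk (s : Small K n N) {u : K} (hu : IsU N u) (h1 : u - 1 ≠ 0) :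
    logHeight₁ u - logHeight₁ u / n - nfC n ≤ nu N (u - 1) :=
  nf_bk s.hD s.hd s.hN s.hNn hu.2.1 hu.2.2 hu.1 (sub_ne_zero.mp h1)

theorem Small.bk' (s : Small K n N) {u : K} (hu : IsU N u) (h1 : u + 1 ≠ 0) :
    logHeight₁ u - logHeight₁ u / n - nfC n ≤ nu N (u + 1) := by
  have h2 : -u - 1 = -(u + 1) := by ring
  have := s.bk hu.neg (by rw [h2]; exact neg_ne_zero.mpr h1)
  rwa [logHeight₁_neg, h2, nu_neg] at this

/-- The unit equation. -/
theorem Small.unit_eq (s : Small K n N) {u : K} (hu : IsU N u) (h1 : IsU N (u - 1)) :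
    logHeight₁ u ≤ 2 * nfC n := by
  have h2 := s.bk hu h1.1
  rw [h1.nu s.hN] at h2
  have h3 : (2 : ℝ) ≤ n := by
    exact_mod_cast (Nat.le_of_dvd (Nat.pos_of_ne_zero s.hN) s.h2).trans s.hNn
  have h4 : logHeight₁ u / n ≤ logHeight₁ u / 2 :=
    div_le_div_of_nonneg_left (zero_le_logHeight₁ u) (by norm_num) h3
  linarith

/-- The constant in the norm estimates. -/
def pellC (n : ℕ) : ℕ := 2 * nfC n + 5 * n

/-- The data attached to `χ` when `χ` and `χ - 1` are squares. -/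
structure Pell (n N : ℕ) (χ α : K) : Prop where
  unit : IsU N α
  eq : χ = ((α ^ 2 + 1) / (2 * α)) ^ 2
  lo1 : 4 * logHeight₁ α - 4 * logHeight₁ α / n - pellC n ≤ nu N χ
  hi1 : nu N χ ≤ 4 * logHeight₁ α + pellC n
  lo2 : 4 * logHeight₁ α - 4 * logHeight₁ α / n - pellC n ≤ nu N (χ - 1)
  hi2 : nu N (χ - 1) ≤ 4 * logHeight₁ α + pellC n
  ht1 : logHeight₁ χ ≤ 4 * logHeight₁ α + pellC n
  ht2 : logHeight₁ (χ - 1) ≤ 4 * logHeight₁ α + pellC n

theorem Small.pell (s : Small K n N) {χ : K} (hχ : χ ∈ RN K N) (h0 : χ ≠ 0) (h1 : χ - 1 ≠ 0)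
    (hs : IsSquare χ) (hs' : IsSquare (χ - 1)) : ∃ α, Pell n N χ α := by
  obtain ⟨A, hA⟩ := hs
  obtain ⟨B, hB⟩ := hs'
  have hAR : A ∈ RN K N := mem_RN_of_sq (by rw [sq, ← hA]; exact hχ)
  have hBR : B ∈ RN K N := mem_RN_of_sq (by rw [sq, ← hB]; exact sub_mem hχ (one_mem _))
  have hAB : (A + B) * (A - B) = 1 := by linear_combination hB - hA
  have hU : IsU N (A + B) := isU_one.of_mul (add_mem hAR hBR) (sub_mem hAR hBR) hAB
  obtain ⟨α, hα⟩ : ∃ α, α = A + B := ⟨_, rfl⟩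
  rw [← hα] at hU
  have hα0 := hU.1
  have e1 : χ = ((α ^ 2 + 1) / (2 * α)) ^ 2 := by
    have : (α ^ 2 + 1) / (2 * α) = A := by
      rw [div_eq_iff (mul_ne_zero two_ne_zero hα0), hα]; linear_combination -hAB
    rw [this, hA, sq]
  have e2 : χ - 1 = ((α ^ 2 - 1) / (2 * α)) ^ 2 := by rw [e1]; field_simp; ring
  have hU2 : IsU N (α ^ 2) := by rw [sq]; exact hU.mul hU
  have h2α : IsU N (2 * α) := (isU_two s.h2).mul hU
  have n1 : α ^ 2 + 1 ≠ 0 := fun h => h0 (by rw [e1, h]; simp)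
  have n2 : α ^ 2 - 1 ≠ 0 := fun h => h1 (by rw [e2, h]; simp)
  have v1 : nu N χ = 2 * nu N (α ^ 2 + 1) := by
    rw [e1, nu_pow, nu_div N n1 h2α.1, h2α.nu s.hN]; simp
  have v2 : nu N (χ - 1) = 2 * nu N (α ^ 2 - 1) := by
    rw [e2, nu_pow, nu_div N n2 h2α.1, h2α.nu s.hN]; simp
  have b1 := s.bk' hU2 n1
  have b2 := s.bk hU2 n2
  rw [logHeight₁_pow] at b1 b2
  have hh : logHeight₁ χ ≤ 4 * logHeight₁ α + 4 * n := by
    have e3 : (α ^ 2 + 1) / (2 * α) = (α + α⁻¹) / 2 := by field_simp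
    have e4 := h_div_le (α + α⁻¹) 2
    have e5 := h_add_le s.hD α α⁻¹
    have e6 := h_two_le s.hD
    rw [logHeight₁_inv] at e5
    rw [e1, logHeight₁_pow, e3]
    push_cast
    linarith
  have hh' := h_sub_le s.hD χ 1
  rw [logHeight₁_one] at hh'
  have hC : (pellC n : ℝ) = 2 * nfC n + 5 * n := by rw [pellC]; push_cast; ring
  have hC0 : (0 : ℝ) ≤ nfC n := by positivity
  have hn0 : (0 : ℝ) ≤ n := by positivity
  have u1 := nu_le_logHeight s.hN hχ
  have u2 := nu_le_logHeight s.hN (sub_mem hχ (one_mem _))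
  have e7 : 4 * logHeight₁ α / n = 2 * (((2 : ℕ) : ℝ) * logHeight₁ α / n) := by push_cast; ring
  push_cast at b1 b2 e7
  exact ⟨α, hU, e1, by linarith, by linarith, by linarith, by linarith, by linarith, by linarith⟩

theorem Small.eta (s : Small K n N) {χ ψ α γ : K} (h1 : Pell n N χ α) (h2 : Pell n N ψ γ)
    (hne : ψ - χ ≠ 0) :
    4 * logHeight₁ α - 4 * (logHeight₁ α + logHeight₁ γ) / n - 2 * pellC n ≤ nu N (ψ - χ) := by
  have hα := h1.unit
  have hγ := h2.unit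
  have hα0 := hα.1
  have hγ0 := hγ.1
  have e1 : ψ - χ = -((α / γ + 1) * (α / γ - 1) * ((α * γ + 1) * (α * γ - 1))) / (2 * α) ^ 2 := by
    rw [h1.eq, h2.eq]; field_simp; ring
  have n1 : α / γ + 1 ≠ 0 := fun h => hne (by rw [e1, h]; simp)
  have n2 : α / γ - 1 ≠ 0 := fun h => hne (by rw [e1, h]; simp)
  have n3 : α * γ + 1 ≠ 0 := fun h => hne (by rw [e1, h]; simp)
  have n4 : α * γ - 1 ≠ 0 := fun h => hne (by rw [e1, h]; simp)
  have h2α : IsU N (2 * α) := (isU_two s.h2).mul hα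
  have b1 := s.bk' (hα.div hγ) n1
  have b2 := s.bk (hα.div hγ) n2
  have b3 := s.bk' (hα.mul hγ) n3
  have b4 := s.bk (hα.mul hγ) n4
  have v1 : nu N (ψ - χ) = nu N (α / γ + 1) + nu N (α / γ - 1) +
      (nu N (α * γ + 1) + nu N (α * γ - 1)) := by
    rw [e1, nu_div N (neg_ne_zero.mpr (mul_ne_zero (mul_ne_zero n1 n2) (mul_ne_zero n3 n4)))
      (pow_ne_zero _ h2α.1), nu_pow, h2α.nu s.hN, nu_neg,
      nu_mul N (mul_ne_zero n1 n2) (mul_ne_zero n3 n4), nu_mul N n1 n2, nu_mul N n3 n4]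
    simp
  have e2 : 2 * logHeight₁ α ≤ logHeight₁ (α / γ) + logHeight₁ (α * γ) := by
    have := logHeight₁_mul_le (α / γ) (α * γ)
    rw [show α / γ * (α * γ) = α ^ 2 by field_simp, logHeight₁_pow] at this
    exact_mod_cast this
  have hn0 : (0 : ℝ) ≤ n := by positivity
  have e3 : logHeight₁ (α / γ) / n ≤ (logHeight₁ α + logHeight₁ γ) / n :=
    div_le_div_of_nonneg_right (h_div_le α γ) hn0
  have e4 : logHeight₁ (α * γ) / n ≤ (logHeight₁ α + logHeight₁ γ) / n :=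
    div_le_div_of_nonneg_right (logHeight₁_mul_le α γ) hn0
  have hC : (pellC n : ℝ) = 2 * nfC n + 5 * n := by rw [pellC]; push_cast; ring
  rw [mul_div_assoc]
  linarith

/-- If moreover `χ` is a unit, the height is bounded. -/
theorem Pell.of_nu_le {χ α : K} (h : Pell n N χ α) (hn : 2 ≤ n) (h0 : nu N χ ≤ 0) :
    logHeight₁ χ ≤ 3 * pellC n ∧ logHeight₁ (χ - 1) ≤ 3 * pellC n := by
  have h3 : (2 : ℝ) ≤ n := by exact_mod_cast hn
  have h4 : 4 * logHeight₁ α / n ≤ 4 * logHeight₁ α / 2 :=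
    div_le_div_of_nonneg_left (by linarith [zero_le_logHeight₁ α]) (by norm_num) h3
  have := h.lo1
  have := h.ht1
  have := h.ht2
  constructor <;> linarith

end Pool.Agent.Lib.MP_07b2d0_nt
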