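import Mathlib
import Pool.Agent.Lib.MP_07b2d0_nt.Runge

/-!
Cross ratios of finitely many points.
-/

set_option autoImplicit false

namespace Pool.Agent.Lib.MP_07b2d0_nt

open Finset Real NumberField Height Module

/-- The cross ratio of four of the points. -/
def cr {ι F : Type} [Field F] (a : ι → F) (i j k l : ι) : F :=
  (a i - a j) * (a k - a l) / ((a i - a k) * (a j - a l))

section Field

variable {ι F : Type} [Field F] {a : ι → F}

theorem nodup4 {i j k l : ι} : [i, j, k, l].Nodup ↔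
    i ≠ j ∧ i ≠ k ∧ i ≠ l ∧ j ≠ k ∧ j ≠ l ∧ k ≠ l := by
  simp [and_assoc]

theorem sub_ne (ha : Function.Injective a) {i j : ι} (h : i ≠ j) : a i - a j ≠ 0 :=
  sub_ne_zero.mpr (ha.ne h)

theorem cr_ne_zero (ha : Function.Injective a) {i j k l : ι} (h : [i, j, k, l].Nodup) :
    cr a i j k l ≠ 0 := by
  obtain ⟨h1, h2, -, -, h5, h6⟩ := nodup4.mp h
  exact div_ne_zero (mul_ne_zero (sub_ne ha h1) (sub_ne ha h6))
    (mul_ne_zero (sub_ne ha h2) (sub_ne ha h5))

theorem cr_sub_one (ha : Function.Injective a) {i j k l : ι} (h : [i, j, k, l].Nodup) :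
    cr a i j k l - 1 = -cr a i l k j := by
  obtain ⟨-, h2, -, -, h5, -⟩ := nodup4.mp h
  have e1 := sub_ne ha h2
  have e2 := sub_ne ha h5
  have e3 := sub_ne ha h5.symm
  simp only [cr]
  field_simp
  ring

theorem cr_inv (a : ι → F) (i j k l : ι) : (cr a i j k l)⁻¹ = cr a i k j l := by
  simp only [cr, inv_div]

theorem nodup_swap {i j k l : ι} (h : [i, j, k, l].Nodup) : [i, l, k, j].Nodup := by
  obtain ⟨h1, h2, h3, h4, h5, h6⟩ := nodup4.mp h
  exact nodup4.mpr ⟨h3, h2, h1, h6.symm, h5.symm, h4.symm⟩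

theorem nodup_swap' {i j k l : ι} (h : [i, j, k, l].Nodup) : [i, k, j, l].Nodup := by
  obtain ⟨h1, h2, h3, h4, h5, h6⟩ := nodup4.mp h
  exact nodup4.mpr ⟨h2, h1, h3, h4.symm, h6, h5⟩

theorem map_cr {L : Type} [Field L] (φ : F →+* L) (a : ι → F) (i j k l : ι) :
    φ (cr a i j k l) = cr (φ ∘ a) i j k l := by
  simp [cr]

end Field

variable {K : Type} [Field K] [NumberField K] {n N : ℕ}

theorem mem_RN_iff_ord {x : K} :
    x ∈ RN K N ↔ ∀ v : FinitePlace K, v (N : K) = 1 → 0 ≤ ord v x := by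
  simp only [mem_RN, fp_le_one_iff]

theorem isU_of_ord {x : K} (hx : x ≠ 0) (h : ∀ v : FinitePlace K, v (N : K) = 1 → ord v x = 0) :
    IsU N x :=
  ⟨hx, mem_RN_iff_ord.mpr fun v hv => (h v hv).ge,
    mem_RN_iff_ord.mpr fun v hv => by rw [ord_inv, h v hv]; simp⟩

theorem IsU.map {L : Type} [Field L] [NumberField L] (φ : K →+* L) (hN : N ≠ 0) {x : K}
    (hx : IsU N x) : IsU N (φ x) :=
  ⟨by simpa using hx.1, map_mem_RN φ hN hx.2.1, by rw [← map_inv₀]; exact map_mem_RN φ hN hx.2.2⟩

theorem log_qv_le_height (v : FinitePlace K) {x : K} (h : ord v x ≠ 0) :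
    log (qv v) ≤ logHeight₁ x := by
  have key : ∀ y : K, ord v y < 0 → log (qv v) ≤ logHeight₁ y := by
    intro y hy
    have hy0 : y ≠ 0 := by rintro rfl; simp [ord] at hy
    have e1 : log (qv v) ≤ log (v y) := by
      have := log_qv_le (inv_ne_zero hy0) (v := v)
        ((fp_lt_one_iff v (inv_ne_zero hy0)).mpr (by rw [ord_inv]; omega))
      rwa [map_inv₀, log_inv, neg_neg] at this
    refine e1.trans ((le_max_right 0 _).trans ?_)
    rw [NumberField.logHeight₁_eq]
    refine le_add_of_nonneg_of_le (sum_nonneg fun w _ => mul_nonneg (by positivity) posLog_nonneg)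
      (single_le_finsum (f := fun v : FinitePlace K => log⁺ (v y)) v ((FinitePlace.hasFiniteMulSupport hy0).subset fun w hw h1 => hw ?_)
        fun _ => posLog_nonneg)
    simp [h1]
  rcases lt_or_gt_of_ne h with h | h
  · exact key x h
  · rw [← logHeight₁_inv]
    exact key _ (by rw [ord_inv]; omega)

/-- An element of bounded height is a unit outside a factorial. -/
theorem ord_eq_zero_of_height {x : K} {H : ℕ} (hx : logHeight₁ x ≤ H) {v : FinitePlace K} {M : ℕ}
    (hM : (3 ^ H).factorial ∣ M) (hv : v (M : K) = 1) : ord v x = 0 := by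
  by_contra h
  have h1 := (log_qv_le_height v h).trans hx
  rw [log_le_iff_le_exp (by linarith [two_le_qv' v]), ← mul_one (H : ℝ), exp_nat_mul] at h1
  have h2 : (qv v : ℝ) ≤ 3 ^ H := h1.trans
    (pow_le_pow_left₀ (exp_pos _).le (Real.exp_one_lt_d9.le.trans (by norm_num)) _)
  have h3 : qv v ≤ 3 ^ H := by exact_mod_cast h2
  exact (fp_lt_one_of_dvd v ((Nat.dvd_factorial (by have := two_le_qv v; omega) h3).trans hM)
    (fp_qv_lt_one v)).ne hv

theorem fp_eq_one_of_dvd {v : FinitePlace K} {a b : ℕ} (h : a ∣ b) (hv : v (b : K) = 1) :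
    v (a : K) = 1 :=
  le_antisymm (fp_nat_le_one v a) (not_lt.mp fun h' => (fp_lt_one_of_dvd v h h').ne hv)

/-- The parameter after enlarging the set of primes. -/
def enl (n H : ℕ) : ℕ := n * (3 ^ H).factorial

theorem Small.enlarge (s : Small K n N) (H : ℕ) :
    Small K (enl n H) (N * (3 ^ H).factorial) := by
  have h1 : n ≤ enl n H := Nat.le_mul_of_pos_right _ (Nat.factorial_pos _)
  exact ⟨s.hD.trans h1, s.hd.trans (by exact_mod_cast h1),
    Nat.mul_ne_zero s.hN (Nat.factorial_ne_zero _), Nat.mul_le_mul_right _ s.hNn,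
    s.h2.mul_right _⟩

theorem Small.mono (s : Small K n N) {m : ℕ} (h : n ≤ m) : Small K m N :=
  ⟨s.hD.trans h, s.hd.trans (by exact_mod_cast h), s.hN, s.hNn.trans h, s.h2⟩

/-- If all cross ratios are units, they have bounded height. -/
theorem Small.cr_le_of_units (s : Small K n N) {ι : Type} {a : ι → K} (ha : Function.Injective a)
    {i j k l : ι} (h : [i, j, k, l].Nodup)
    (h1 : ∀ v : FinitePlace K, v (N : K) = 1 → ord v (cr a i j k l) = 0)
    (h2 : ∀ v : FinitePlace K, v (N : K) = 1 → ord v (cr a i l k j) = 0) :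
    logHeight₁ (cr a i j k l) ≤ 2 * nfC n := by
  refine s.unit_eq (isU_of_ord (cr_ne_zero ha h) h1) ?_
  rw [cr_sub_one ha h]
  exact (isU_of_ord (cr_ne_zero ha (nodup_swap h)) h2).neg

/-- An extension in which all cross ratios are squares. -/
theorem Small.exists_sq (s : Small K n N) {r : ℕ} {a : Fin r → K} (ha : Function.Injective a)
    (he : ∀ i j k l, [i, j, k, l].Nodup → ∀ v : FinitePlace K, v (N : K) = 1 →
      Even (ord v (cr a i j k l))) :
    ∃ (L : Type) (_ : Field L) (_ : NumberField L) (φ : K →+* L), Small L (extN (r ^ 4) n) N ∧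
      ∀ i j k l, [i, j, k, l].Nodup →
        IsSquare (cr (φ ∘ a) i j k l) ∧ IsSquare (cr (φ ∘ a) i j k l - 1) := by
  classical
  let g : (Fin 4 → Fin r) → K := fun q =>
    if [q 0, q 1, q 2, q 3].Nodup then cr a (q 0) (q 1) (q 2) (q 3) else -1
  obtain ⟨L, _, _, φ, h1, h2, h3⟩ := exists_ext s.hD s.hd s.hN s.hNn
    (fun t : Fin (r ^ 4) => g (finFunctionFinEquiv.symm t)) (fun t => by
      simp only [g]
      split_ifs with h
      · exact cr_ne_zero ha h
      · simp) (fun t v hv => by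
      simp only [g]
      split_ifs with h
      · exact he _ _ _ _ h v hv
      · rw [ord_neg, (fp_eq_one_iff v one_ne_zero).mp (map_one v)]; simp)
  have h4 : ∀ q, IsSquare (φ (g q)) := fun q => by simpa using h3 (finFunctionFinEquiv q)
  have h5 : ∀ i j k l, [i, j, k, l].Nodup → IsSquare (cr (φ ∘ a) i j k l) := fun i j k l h => by
    have := h4 ![i, j, k, l]
    simp only [g, Matrix.cons_val_zero, Matrix.cons_val_one, Matrix.cons_val] at this
    rwa [if_pos h, map_cr] at this
  refine ⟨L, inferInstance, inferInstance, φ,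
    ⟨h1, h2, s.hN, s.hNn.trans (le_extN _ _), s.h2⟩, fun i j k l h => ⟨h5 i j k l h, ?_⟩⟩
  have h6 := h4 fun _ => i
  simp only [g] at h6
  rw [if_neg (by simp), map_neg, map_one] at h6
  rw [cr_sub_one (φ.injective.comp ha) h, neg_eq_neg_one_mul]
  exact h6.mul (h5 _ _ _ _ (nodup_swap h))

end Pool.Agent.Lib.MP_07b2d0_nt
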