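import Mathlib
import Pool.Agent.Lib.MP_07b2d0_nt.CR

/-!
Six points whose reductions split into two triples.
-/

set_option autoImplicit false

namespace Pool.Agent.Lib.MP_07b2d0_nt

open Finset Real NumberField Height Module

/-- `1` if `i` and `j` are on the same side of the splitting given by `A`, else `0`. -/
def same {ι : Type} [DecidableEq ι] (A : Finset ι) (i j : ι) : ℤ :=
  if (i ∈ A ↔ j ∈ A) then 1 else 0

/-- The exponent of a cross ratio for a splitting. -/
def ex {ι : Type} [DecidableEq ι] (A : Finset ι) (i j k l : ι) : ℤ :=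
  same A i j + same A k l - same A i k - same A j l

theorem even_ex {ι : Type} [DecidableEq ι] (A : Finset ι) (i j k l : ι) : Even (ex A i j k l) := by
  unfold ex same
  by_cases hi : i ∈ A <;> by_cases hj : j ∈ A <;> by_cases hk : k ∈ A <;> by_cases hl : l ∈ A <;>
    simp [hi, hj, hk, hl]

/-- Quadruples of indices. -/
abbrev Q4 := Fin 6 × Fin 6 × Fin 6 × Fin 6

/-- The cross ratio of a quadruple. -/
def crq {F : Type} [Field F] (a : Fin 6 → F) (q : Q4) : F := cr a q.1 q.2.1 q.2.2.1 q.2.2.2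

/-- The exponent of a quadruple. -/
def exq (A : Finset (Fin 6)) (q : Q4) : ℤ := ex A q.1 q.2.1 q.2.2.1 q.2.2.2

variable {K : Type} [Field K] [NumberField K] {n N : ℕ}

/-- All primes outside `N` have a type in `T`. -/
def Hyp (N : ℕ) (a : Fin 6 → K) (T : List (Finset (Fin 6))) : Prop :=
  ∀ v : FinitePlace K, v (N : K) = 1 → ∃ A ∈ T, ∃ m : ℕ, ∀ i j k l, [i, j, k, l].Nodup →
    ord v (cr a i j k l) = m * ex A i j k l

theorem ord_zpow (v : FinitePlace K) (x : K) (c : ℤ) : ord v (x ^ c) = c * ord v x := by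
  rw [ord, map_zpow₀, WithZero.log_zpow, ord]; simp

theorem nu_zpow (N : ℕ) (x : K) (c : ℤ) : nu N (x ^ c) = c * nu N x := by
  cases c with
  | ofNat c => simp [nu_pow]
  | negSucc c => rw [zpow_negSucc, nu_inv, nu_pow, Int.cast_negSucc]; ring

theorem list_hom {a : Fin 6 → K} (ha : Function.Injective a) {G : Type} [CommRing G] (f : K → G)
    (h1 : f 1 = 0) (hm : ∀ x y, x ≠ 0 → y ≠ 0 → f (x * y) = f x + f y)
    (hz : ∀ x (c : ℤ), f (x ^ c) = c * f x) (l : List (ℤ × Q4))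
    (hl : ∀ p ∈ l, [p.2.1, p.2.2.1, p.2.2.2.1, p.2.2.2.2].Nodup) :
    (l.map fun p => crq a p.2 ^ p.1).prod ≠ 0 ∧
      f (l.map fun p => crq a p.2 ^ p.1).prod = (l.map fun p => p.1 * f (crq a p.2)).sum := by
  induction l with
  | nil => simp [h1]
  | cons p l ih =>
    obtain ⟨e1, e2⟩ := ih fun q hq => hl q (List.mem_cons_of_mem _ hq)
    have e3 : crq a p.2 ^ p.1 ≠ 0 := zpow_ne_zero _ (cr_ne_zero ha (hl p List.mem_cons_self))
    simp only [List.map_cons, List.prod_cons, List.sum_cons]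
    exact ⟨mul_ne_zero e3 e1, by rw [hm _ _ e3 e1, hz, e2]⟩

variable {a : Fin 6 → K} {T : List (Finset (Fin 6))}

theorem Hyp.pos (h : Hyp N a T) (hN : N ≠ 0) (ha : Function.Injective a) {L : Type} [Field L]
    [NumberField L] (φ : K →+* L) (l : List (ℤ × Q4))
    (hl : ∀ p ∈ l, [p.2.1, p.2.2.1, p.2.2.2.1, p.2.2.2.2].Nodup)
    (hc : ∀ A ∈ T, 0 ≤ (l.map fun p => p.1 * exq A p.2).sum) :
    0 ≤ (l.map fun p => p.1 * nu N (crq (φ ∘ a) p.2)).sum := by
  have h1 : (l.map fun p => crq a p.2 ^ p.1).prod ∈ RN K N := by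
    refine mem_RN_iff_ord.mpr fun v hv => ?_
    obtain ⟨A, hA, m, hm⟩ := h v hv
    rw [(list_hom ha (ord v) ((fp_eq_one_iff v one_ne_zero).mp (map_one v))
      (fun x y => ord_mul v) (ord_zpow v) l hl).2]
    have e1 : (l.map fun p => (p.1 : ℤ) * ord v (crq a p.2)) =
        l.map fun p => m * (p.1 * exq A p.2) := by
      refine List.map_congr_left fun p hp => ?_
      rw [crq, hm _ _ _ _ (hl p hp), exq]; ring
    simp only [Int.cast_id]
    rw [e1, List.sum_map_mul_left]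
    exact mul_nonneg (by positivity) (hc A hA)
  have h2 := nu_nonneg hN (map_mem_RN φ hN h1)
  rw [← (list_hom (φ.injective.comp ha) (nu N) (by simp [nu, nuInf])
    (fun x y => nu_mul N) (nu_zpow N) l hl).2]
  rw [map_list_prod, List.map_map] at h2
  refine h2.trans_eq (congrArg _ (congrArg _ (List.map_congr_left fun p _ => ?_)))
  simp [crq, map_cr]

theorem Hyp.even (h : Hyp N a T) (i j k l : Fin 6) (hq : [i, j, k, l].Nodup) (v : FinitePlace K)
    (hv : v (N : K) = 1) : Even (ord v (cr a i j k l)) := by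
  obtain ⟨A, -, m, hm⟩ := h v hv
  rw [hm _ _ _ _ hq]
  exact (even_ex A i j k l).mul_left _

theorem Hyp.pell (h : Hyp N a T) (ha : Function.Injective a) {L : Type} [Field L]
    [NumberField L] {φ : K →+* L} {n' : ℕ} (s : Small L n' N)
    (hs : ∀ i j k l, [i, j, k, l].Nodup →
      IsSquare (cr (φ ∘ a) i j k l) ∧ IsSquare (cr (φ ∘ a) i j k l - 1))
    (i j k l : Fin 6) (hq : [i, j, k, l].Nodup) (hc : ∀ A ∈ T, 0 ≤ ex A i j k l) :
    ∃ α, Pell n' N (cr (φ ∘ a) i j k l) α := by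
  have hb := φ.injective.comp ha
  refine s.pell ?_ (cr_ne_zero hb hq) ?_ (hs _ _ _ _ hq).1 (hs _ _ _ _ hq).2
  · rw [← map_cr]
    refine map_mem_RN φ s.hN (mem_RN_iff_ord.mpr fun v hv => ?_)
    obtain ⟨A, hA, m, hm⟩ := h v hv
    rw [hm _ _ _ _ hq]
    exact mul_nonneg (by positivity) (hc A hA)
  · rw [cr_sub_one hb hq]
    exact neg_ne_zero.mpr (cr_ne_zero hb (nodup_swap hq))

theorem Hyp.finish (h : Hyp N a T) (ha : Function.Injective a) (s : Small K n N) {H : ℕ}
    (l : List Q4) (hl : ∀ q ∈ l, [q.1, q.2.1, q.2.2.1, q.2.2.2].Nodup)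
    (hH : ∀ q ∈ l, logHeight₁ (crq a q) ≤ H) (hc : ∀ A ∈ T, ∃ q ∈ l, exq A q ≠ 0)
    (i j k t : Fin 6) (hq : [i, j, k, t].Nodup) :
    logHeight₁ (cr a i j k t) ≤ 2 * nfC (enl n H) := by
  have key : ∀ i j k t, [i, j, k, t].Nodup → ∀ v : FinitePlace K,
      v ((N * (3 ^ H).factorial : ℕ) : K) = 1 → ord v (cr a i j k t) = 0 := by
    intro i j k t hq v hv
    obtain ⟨A, hA, m, hm⟩ := h v (fp_eq_one_of_dvd (dvd_mul_right _ _) hv)
    obtain ⟨q, hq', hne⟩ := hc A hA
    have e1 := ord_eq_zero_of_height (hH q hq') (dvd_mul_left _ _) hv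
    rw [crq, hm _ _ _ _ (hl q hq')] at e1
    rw [hm _ _ _ _ hq, (mul_eq_zero.mp e1).resolve_right hne, zero_mul]
  exact (s.enlarge H).cr_le_of_units ha hq (key _ _ _ _ hq) (key _ _ _ _ (nodup_swap hq))

/-- The types allowed in the first case. -/
def T1 : List (Finset (Fin 6)) := [{0, 1, 4}, {0, 1, 5}, {0, 2, 3}, {0, 2, 5}, {0, 3, 5}, {0, 4, 5}]

/-- The types allowed in the second case. -/
def T2 : List (Finset (Fin 6)) := [{0, 1, 5}, {0, 2, 4}, {0, 2, 5}, {0, 3, 4}, {0, 3, 5}, {0, 4, 5}]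

/-- The intermediate bound. -/
def g2H (n : ℕ) : ℕ := 221 * pellC (extN (6 ^ 4) n)

/-- The final bound. -/
def g2C (n : ℕ) : ℕ := 2 * nfC (enl n (g2H n))

theorem height_of_map {L : Type} [Field L] [NumberField L] (φ : K →+* L) {B : ℝ} {q : Q4}
    (h : logHeight₁ (crq (φ ∘ a) q) ≤ B) : logHeight₁ (crq a q) ≤ B := by
  refine (logHeight_le_map φ _).trans ?_
  rwa [crq, map_cr]

theorem case1 (h : Hyp N a T1) (ha : Function.Injective a) (s : Small K n N)
    (i j k t : Fin 6) (hq : [i, j, k, t].Nodup) : logHeight₁ (cr a i j k t) ≤ g2C n := by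
  obtain ⟨L, _, _, φ, s', hs⟩ := s.exists_sq ha h.even
  have hb := φ.injective.comp ha
  have hn : 2 ≤ extN (6 ^ 4) n := (Nat.le_of_dvd (Nat.pos_of_ne_zero s.hN) s.h2).trans s'.hNn
  have key : ∀ i j k l, [i, j, k, l].Nodup → (∀ A ∈ T1, ex A i j k l = 0) →
      logHeight₁ (crq a (i, l, k, j)) ≤ g2H n := by
    intro i j k l hq hc
    obtain ⟨α, hα⟩ := h.pell ha s' hs i j k l hq fun A hA => (hc A hA).ge
    have e1 := h.pos s.hN ha φ [(-1, (i, j, k, l))] (by simpa using hq)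
      (fun A hA => by simp [exq, hc A hA])
    have e2 := (hα.of_nu_le hn (by simpa [crq] using e1)).2
    rw [cr_sub_one hb hq, logHeight₁_neg] at e2
    refine height_of_map φ (e2.trans ?_)
    rw [g2H]; push_cast
    linarith [Nat.cast_nonneg (α := ℝ) (pellC (extN (6 ^ 4) n))]
  rw [g2C]; push_cast
  refine h.finish ha s [(0, 5, 1, 4), (0, 5, 3, 2), (1, 4, 3, 2)] (by decide +kernel) ?_
    (by decide) i j k t hq
  simp only [List.forall_mem_cons, List.not_mem_nil, false_imp_iff, implies_true, and_true]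
  exact ⟨key 0 4 1 5 (by decide) (by decide), key 0 2 3 5 (by decide) (by decide),
    key 1 2 3 4 (by decide) (by decide)⟩

theorem case2 (h : Hyp N a T2) (ha : Function.Injective a) (s : Small K n N) (hn : 110 ≤ n)
    (i j k t : Fin 6) (hq : [i, j, k, t].Nodup) : logHeight₁ (cr a i j k t) ≤ g2C n := by
  obtain ⟨L, _, _, φ, s', hs⟩ := s.exists_sq ha h.even
  have hb := φ.injective.comp ha
  obtain ⟨n', hn'⟩ : ∃ n', n' = extN (6 ^ 4) n := ⟨_, rfl⟩
  have hn1 : (110 : ℝ) ≤ n' := by exact_mod_cast hn' ▸ hn.trans (le_extN _ _)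
  rw [← hn'] at s'
  obtain ⟨α1, p1⟩ := h.pell ha s' hs 0 4 1 5 (by decide) (by decide)
  obtain ⟨α2, p2⟩ := h.pell ha s' hs 0 3 1 5 (by decide) (by decide)
  obtain ⟨α3, p3⟩ := h.pell ha s' hs 0 4 2 5 (by decide) (by decide)
  obtain ⟨α4, p4⟩ := h.pell ha s' hs 0 2 1 5 (by decide) (by decide)
  obtain ⟨α5, p5⟩ := h.pell ha s' hs 0 4 3 5 (by decide) (by decide)
  have f1 := h.pos s.hN ha φ [(1, (0, 5, 1, 3)), (1, (0, 5, 1, 2)), (1, (0, 5, 2, 4)),
    (1, (0, 5, 3, 4)), (2, (0, 4, 1, 5)), (-1, (0, 3, 1, 5)), (-1, (0, 2, 1, 5)),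
    (-1, (0, 4, 2, 5)), (-1, (0, 4, 3, 5)), (-2, (0, 5, 1, 4)), (-2, (0, 4, 2, 3)),
    (-2, (4, 3, 5, 0))] (by decide) (by decide)
  have f2 := h.pos s.hN ha φ [(1, (0, 4, 2, 5)), (-1, (0, 3, 1, 5))] (by decide) (by decide)
  have f3 := h.pos s.hN ha φ [(1, (0, 4, 3, 5)), (-1, (0, 2, 1, 5))] (by decide) (by decide)
  have f4 := h.pos s.hN ha φ [(1, (0, 4, 2, 5)), (1, (0, 4, 3, 5)), (-1, (0, 4, 1, 5))]
    (by decide) (by decide)
  simp only [List.map_cons, List.map_nil, List.sum_cons, List.sum_nil, crq] at f1 f2 f3 f4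
  push_cast at f1 f2 f3 f4
  obtain ⟨b, hbd⟩ : ∃ b, b = φ ∘ a := ⟨_, rfl⟩
  rw [← hbd] at hb p1 p2 p3 p4 p5 f1 f2 f3 f4
  have c1 := cr_ne_zero hb (show [0, 4, 2, 3].Nodup by decide)
  have c2 := cr_ne_zero hb (show [4, 3, 5, 0].Nodup by decide)
  have e0 : cr b 0 4 3 5 - cr b 0 4 2 5 = -(cr b 0 4 2 3 * cr b 4 3 5 0) := by
    have := sub_ne hb (show 0 ≠ 3 by decide)
    have := sub_ne hb (show 4 ≠ 5 by decide)
    have := sub_ne hb (show 0 ≠ 2 by decide)
    have := sub_ne hb (show 4 ≠ 3 by decide)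
    have := sub_ne hb (show 3 ≠ 0 by decide)
    simp only [cr]
    field_simp
    ring
  have e0' : cr b 0 4 2 5 - cr b 0 4 3 5 = cr b 0 4 2 3 * cr b 4 3 5 0 := by
    linear_combination -e0
  have g1 := s'.eta p3 p5 (by rw [e0]; exact neg_ne_zero.mpr (mul_ne_zero c1 c2))
  have g2 := s'.eta p5 p3 (by rw [e0']; exact mul_ne_zero c1 c2)
  rw [e0, nu_neg, nu_mul N c1 c2] at g1
  rw [e0', nu_mul N c1 c2] at g2
  obtain ⟨-, -, l1, u1, l1', u1', t1, t1'⟩ := p1
  obtain ⟨-, -, l2, u2, l2', u2', t2, t2'⟩ := p2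
  obtain ⟨-, -, l3, u3, l3', u3', t3, t3'⟩ := p3
  obtain ⟨-, -, l4, u4, l4', u4', t4, t4'⟩ := p4
  obtain ⟨-, -, l5, u5, l5', u5', t5, t5'⟩ := p5
  rw [cr_sub_one hb (by decide), nu_neg] at l1' u1' l2' u2' l3' u3' l4' u4' l5' u5'
  rw [cr_sub_one hb (by decide), logHeight₁_neg] at t1' t2' t3' t4' t5'
  have z1 := zero_le_logHeight₁ α1
  have z2 := zero_le_logHeight₁ α2
  have z3 := zero_le_logHeight₁ α3
  have z4 := zero_le_logHeight₁ α4
  have z5 := zero_le_logHeight₁ α5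
  generalize logHeight₁ α1 = x1 at *
  generalize logHeight₁ α2 = x2 at *
  generalize logHeight₁ α3 = x3 at *
  generalize logHeight₁ α4 = x4 at *
  generalize logHeight₁ α5 = x5 at *
  have hd : ∀ x : ℝ, 0 ≤ x → 4 * x / n' ≤ 4 * x / 110 := fun x hx =>
    div_le_div_of_nonneg_left (by linarith) (by norm_num) hn1
  have d1 := hd x1 z1
  have d2 := hd x2 z2
  have d3 := hd x3 z3
  have d4 := hd x4 z4
  have d5 := hd x5 z5
  have d6 := hd (x3 + x5) (by linarith)
  have d7 := hd (x5 + x3) (by linarith)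
  have hC : (0 : ℝ) ≤ pellC n' := Nat.cast_nonneg _
  have hH : x1 + x2 + x3 + x4 + x5 ≤ 55 * pellC n' := by linarith
  have hg : (g2H n : ℝ) = 221 * pellC n' := by rw [g2H, ← hn', Nat.cast_mul]; norm_num
  rw [g2C]; push_cast
  refine h.finish ha s [(0, 4, 1, 5), (0, 5, 1, 4), (0, 5, 1, 3), (0, 5, 2, 4)]
    (by decide +kernel) ?_ (by decide) i j k t hq
  simp only [List.forall_mem_cons, List.not_mem_nil, false_imp_iff, implies_true, and_true]
  refine ⟨height_of_map φ ?_, height_of_map φ ?_, height_of_map φ ?_, height_of_map φ ?_⟩ <;>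
    rw [← hbd, crq, hg] <;> linarith

/-- The ten types. -/
def ty : Fin 10 → Finset (Fin 6) :=
  ![{0, 1, 2}, {0, 1, 3}, {0, 1, 4}, {0, 1, 5}, {0, 2, 3}, {0, 2, 4}, {0, 2, 5}, {0, 3, 4},
    {0, 3, 5}, {0, 4, 5}]

theorem ty_surj : ∀ A : Finset (Fin 6), A.card = 3 → 0 ∈ A → ∃ t, ty t = A := by decide +kernel

theorem ty_inj : Function.Injective ty := by decide +kernel

/-- A table of relabellings. -/
def tab : List (ℕ × ℕ) :=
  [(23, 44790), (27, 38310), (29, 27145), (30, 20665), (39, 43710), (43, 34885), (45, 30750),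
   (46, 21925), (51, 44760), (53, 43680), (54, 42450), (57, 41150), (58, 21415), (60, 20335),
   (71, 42445), (75, 36150), (77, 29670), (78, 23005), (83, 38280), (85, 33590), (86, 22705),
   (89, 36120), (90, 34890), (92, 20545), (99, 25850), (101, 30720), (102, 22915), (105, 29640),
   (106, 21835), (108, 27150), (114, 16795), (116, 16765), (120, 16555), (135, 42450),
   (139, 36145), (141, 29665), (142, 23010), (147, 44550), (149, 43710), (150, 42390),
   (153, 28975), (154, 41115), (156, 26815), (163, 44790), (165, 43260), (166, 42180),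
   (169, 35455), (170, 34375), (172, 40900), (177, 41160), (178, 41130), (180, 40920),
   (195, 28760), (197, 35240), (202, 41715), (204, 41710), (209, 36110), (210, 42375),
   (212, 33080), (216, 40635), (225, 29630), (226, 25520), (228, 42160), (232, 40630),
   (240, 15240), (263, 43705), (267, 34890), (269, 30745), (270, 21930), (275, 38070),
   (277, 30265), (278, 33555), (281, 36150), (282, 34830), (284, 27025), (291, 30050),
   (294, 33945), (297, 43010), (300, 43000), (305, 43670), (306, 34815), (308, 32865),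
   (312, 40850), (323, 38310), (325, 43225), (326, 42145), (329, 35490), (330, 34410),
   (332, 39610), (337, 33600), (338, 33570), (344, 33150), (353, 30710), (354, 25730),
   (356, 43210), (360, 39580), (368, 14160), (387, 24560), (389, 30685), (390, 22950),
   (393, 29605), (394, 21870), (396, 20670), (401, 24565), (404, 24505), (408, 24295),
   (417, 30680), (418, 24470), (420, 43240), (424, 40840), (432, 15210), (449, 29600),
   (450, 24260), (452, 42130), (456, 39370), (464, 14130), (480, 12900), (519, 44785),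
   (523, 38305), (525, 27150), (526, 20670), (533, 37820), (534, 37815), (537, 44300),
   (538, 44295), (547, 38035), (549, 30300), (550, 32265), (553, 29670), (554, 34795),
   (556, 27060), (561, 44750), (562, 38025), (564, 32235), (568, 41060), (579, 44515),
   (581, 30750), (582, 42355), (585, 29010), (586, 39825), (588, 26850), (593, 38270),
   (594, 44505), (596, 33500), (600, 39795), (609, 25860), (612, 25800), (616, 25590),
   (624, 12900), (643, 38245), (645, 32300), (646, 22740), (649, 36085), (650, 21930),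
   (652, 20580), (657, 38240), (658, 44535), (660, 32240), (664, 41055), (673, 32305),
   (674, 32275), (680, 31855), (688, 15000), (705, 36080), (706, 42345), (708, 31820),
   (712, 39375), (720, 14160), (736, 12840), (771, 44725), (773, 43645), (774, 23010),
   (777, 39860), (778, 21450), (780, 20370), (785, 44720), (786, 38055), (788, 33495),
   (792, 39800), (801, 43640), (802, 34785), (804, 31605), (808, 39590), (816, 15240),
   (833, 39865), (834, 39835), (836, 39625), (848, 13710), (864, 12630), (898, 18090),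
   (900, 18060), (904, 17850), (912, 11610), (928, 11580), (960, 11370)]

/-- The relabelling attached to a set of types. -/
def sgm (w : Fin 10 → Bool) (i : Fin 6) : Fin 6 :=
  Fin.ofNat 6 ((tab.lookup (∑ t : Fin 10, if w t then 2 ^ (t : ℕ) else 0)).getD 0 / 6 ^ (i : ℕ))

/-- The relabelling carries the allowed types into `T`. -/
def Good (w : Fin 10 → Bool) (σ : Fin 6 → Fin 6) (T : List (Finset (Fin 6))) : Prop :=
  ∀ t, w t = false → ∃ B ∈ T, (∀ i, σ i ∈ ty t ↔ i ∈ B) ∨ ∀ i, ¬(σ i ∈ ty t ↔ i ∈ B)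

instance (w : Fin 10 → Bool) (σ : Fin 6 → Fin 6) (T : List (Finset (Fin 6))) :
    Decidable (Good w σ T) := by unfold Good; infer_instance

/-- The statement about one set of types. -/
def Orb (w : Fin 10 → Bool) : Prop :=
  (univ.filter fun t => w t).card = 4 → (∃ i j, i ≠ j ∧ ∀ t, w t → (i ∈ ty t ↔ j ∈ ty t)) ∨
    Function.Injective (sgm w) ∧ (Good w (sgm w) T1 ∨ Good w (sgm w) T2)

instance (w : Fin 10 → Bool) : Decidable (Orb w) := by unfold Orb; infer_instance

theorem orb_aux : ∀ b0 b1 b2 b3 b4 b5 b6 b7 b8 b9 : Bool,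
    Orb ![b0, b1, b2, b3, b4, b5, b6, b7, b8, b9] := by decide +kernel

theorem orb (w : Fin 10 → Bool) : Orb w := by
  have := orb_aux (w 0) (w 1) (w 2) (w 3) (w 4) (w 5) (w 6) (w 7) (w 8) (w 9)
  rwa [show ![w 0, w 1, w 2, w 3, w 4, w 5, w 6, w 7, w 8, w 9] = w by
    funext i; fin_cases i <;> rfl] at this

theorem genus_two (s : Small K n N) (hn : 110 ≤ n) (ha : Function.Injective a)
    (O : Finset (Finset (Fin 6))) (hO : O.card = 4) (hO' : ∀ A ∈ O, A.card = 3 ∧ 0 ∈ A)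
    (hp : ¬∃ i j, i ≠ j ∧ ∀ A ∈ O, (i ∈ A ↔ j ∈ A))
    (h : ∀ v : FinitePlace K, v (N : K) = 1 → ∃ A : Finset (Fin 6), A.card = 3 ∧ 0 ∈ A ∧ A ∉ O ∧
      ∃ m : ℕ, ∀ i j k l, [i, j, k, l].Nodup → ord v (cr a i j k l) = m * ex A i j k l)
    (i j k t : Fin 6) (hq : [i, j, k, t].Nodup) : logHeight₁ (cr a i j k t) ≤ g2C n := by
  obtain ⟨w, hw⟩ : ∃ w : Fin 10 → Bool, ∀ t, w t = decide (ty t ∈ O) := ⟨_, fun _ => rfl⟩
  have h1 : O = (univ.filter fun t => w t).image ty := by
    ext A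
    simp only [mem_image, mem_filter, mem_univ, true_and, hw, decide_eq_true_eq]
    refine ⟨fun hA => ?_, fun ⟨t, ht, e⟩ => e ▸ ht⟩
    obtain ⟨t, rfl⟩ := ty_surj A (hO' A hA).1 (hO' A hA).2
    exact ⟨t, hA, rfl⟩
  rcases orb w (by rw [← card_image_of_injective _ ty_inj, ← h1, hO]) with h2 | ⟨hσ, h2⟩
  · obtain ⟨i, j, hij, h2⟩ := h2
    refine absurd ⟨i, j, hij, fun A hA => ?_⟩ hp
    obtain ⟨t, rfl⟩ := ty_surj A (hO' A hA).1 (hO' A hA).2
    exact h2 t (by simpa [hw] using hA)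
  obtain ⟨σ, hσd⟩ : ∃ σ, σ = sgm w := ⟨_, rfl⟩
  rw [← hσd] at hσ h2
  have key : ∀ T, Good w σ T → Hyp N (a ∘ σ) T := by
    intro T hT v hv
    obtain ⟨A, e1, e2, e3, m, hm⟩ := h v hv
    obtain ⟨t, rfl⟩ := ty_surj A e1 e2
    obtain ⟨B, hB, e4⟩ := hT t (by simpa [hw] using e3)
    refine ⟨B, hB, m, fun i j k l hq => ?_⟩
    have e5 : ∀ i j, same (ty t) (σ i) (σ j) = same B i j := fun i j => by
      unfold same
      refine if_congr ?_ rfl rfl
      rcases e4 with e4 | e4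
      · rw [e4, e4]
      · have := e4 i
        have := e4 j
        tauto
    have e6 := hm (σ i) (σ j) (σ k) (σ l) (by simpa using hq.map hσ)
    simp only [ex, e5] at e6
    exact e6
  have hs := Finite.injective_iff_surjective.mp hσ
  obtain ⟨i, rfl⟩ := hs i
  obtain ⟨j, rfl⟩ := hs j
  obtain ⟨k, rfl⟩ := hs k
  obtain ⟨t, rfl⟩ := hs t
  have hq' : [i, j, k, t].Nodup := List.Nodup.of_map σ (by simpa using hq)
  rcases h2 with h2 | h2
  · exact case1 (key _ h2) (ha.comp hσ) s i j k t hq'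
  · exact case2 (key _ h2) (ha.comp hσ) s hn i j k t hq'

end Pool.Agent.Lib.MP_07b2d0_nt
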