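import Mathlib

/-!
A bound for the discriminant in terms of the degree and of the ramified primes.
-/

set_option autoImplicit false

namespace Pool.Agent.Lib.MP_07b2d0_nt

open Finset NumberField Module

theorem norm_le_one_of_isIntegral {p : ℕ} [Fact p.Prime] {z : PadicAlgCl p}
    (hz : IsIntegral ℤ z) : ‖z‖ ≤ 1 := by
  obtain ⟨f, hf, hz⟩ := hz
  by_contra h
  rw [not_le] at h
  rw [Polynomial.eval₂_eq_sum_range, sum_range_succ, hf.coeff_natDegree, map_one, one_mul,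
    add_eq_zero_iff_neg_eq] at hz
  rcases Nat.eq_zero_or_pos f.natDegree with h0 | h0
  · simp [h0] at hz
  have h1 : ‖z‖ ^ f.natDegree ≤ ‖z‖ ^ (f.natDegree - 1) := by
    rw [← norm_pow, ← hz, norm_neg]
    refine IsUltrametricDist.norm_sum_le_of_forall_le_of_nonneg (by positivity) fun i hi => ?_
    rw [norm_mul, norm_pow]
    refine (mul_le_of_le_one_left (by positivity) ?_).trans
      (pow_le_pow_right₀ h.le (by have := mem_range.mp hi; omega))
    simpa using IsUltrametricDist.norm_intCast_le_one (PadicAlgCl p) (f.coeff i)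
  exact absurd h1 (not_le.mpr (pow_lt_pow_right₀ h (by omega)))

variable {K : Type} [Field K] [NumberField K]

theorem not_dvd_trace {p : ℕ} (hp : p.Prime) {x y : 𝓞 K}
    (hxy : x * (1 - x) = (p : 𝓞 K) ^ finrank ℚ K * y) (hn : (p : ℤ) ∣ Algebra.norm ℤ (1 - x)) :
    ¬(p : ℤ) ^ finrank ℚ K ∣ Algebra.intTrace ℤ (𝓞 K) x := by
  classical
  intro hd
  have := Fact.mk hp
  obtain ⟨D, hD⟩ : ∃ D, D = finrank ℚ K := ⟨_, rfl⟩
  rw [← hD] at hxy hd
  have hcast : ∀ k : ℤ, ‖(k : PadicAlgCl p)‖ = ‖(k : ℚ_[p])‖ := fun k => by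
    rw [← PadicAlgCl.norm_extends, map_intCast]
  have hD0 : 0 < D := hD ▸ finrank_pos
  obtain ⟨ε, hε⟩ : ∃ ε : ℝ, ε = (p : ℝ) ^ (-(D : ℤ)) := ⟨_, rfl⟩
  have hp1 : (1 : ℝ) < p := by exact_mod_cast hp.one_lt
  have hε0 : 0 ≤ ε := by rw [hε]; positivity
  have hε1 : ε < 1 := by rw [hε]; exact zpow_lt_one_of_neg₀ hp1 (by omega)
  have h1 : ∀ σ : K →ₐ[ℚ] PadicAlgCl p, ‖σ x‖ * ‖1 - σ x‖ ≤ ε := by
    intro σ
    have e1 := congrArg (fun t : 𝓞 K => σ (t : K)) hxy
    simp only [map_mul, map_sub, map_one, map_pow, map_natCast] at e1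
    have e2 : ‖σ y‖ ≤ 1 := norm_le_one_of_isIntegral (y.isIntegral_coe.map σ.toRingHom.toIntAlgHom)
    have e3 : ‖((p : ℤ) ^ D : ℤ) • (1 : PadicAlgCl p)‖ ≤ ε := by
      rw [zsmul_one, hcast, hε, Padic.norm_int_le_pow_iff_dvd]
    rw [← norm_mul]
    change ‖σ (algebraMap _ _ x) * (1 - σ (algebraMap _ _ x))‖ ≤ ε
    rw [e1, norm_mul]
    refine (mul_le_of_le_one_right (norm_nonneg _) e2).trans ?_
    simpa using e3
  have h2 : ∀ σ : K →ₐ[ℚ] PadicAlgCl p, ε < ‖σ x‖ → ‖1 - σ x‖ ≤ ε := by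
    intro σ h
    have e1 := h1 σ
    have e2 := IsUltrametricDist.norm_add_le_max (σ x) (1 - σ x)
    rw [add_sub_cancel, norm_one, le_max_iff] at e2
    rcases e2 with e2 | e2
    · nlinarith [norm_nonneg (1 - σ x)]
    · nlinarith
  let S : Finset (K →ₐ[ℚ] PadicAlgCl p) := univ.filter fun σ => ε < ‖σ x‖
  have h3 : ((Algebra.intTrace ℤ (𝓞 K) x : ℤ) : PadicAlgCl p) =
      ∑ σ : K →ₐ[ℚ] PadicAlgCl p, σ x := by
    rw [← trace_eq_sum_embeddings, ← Algebra.algebraMap_intTrace (A := ℤ)]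
    simp
  have h4 : ‖((S.card : ℤ) : PadicAlgCl p)‖ ≤ ε := by
    have e1 : ((S.card : ℤ) : PadicAlgCl p) = (Algebra.intTrace ℤ (𝓞 K) x : ℤ) +
        ∑ σ : K →ₐ[ℚ] PadicAlgCl p, ((if ε < ‖σ x‖ then 1 else 0) - σ x) := by
      rw [h3, sum_sub_distrib, sum_boole]
      simp [S]
    rw [e1]
    refine (IsUltrametricDist.norm_add_le_max _ _).trans (max_le ?_ ?_)
    · rw [hcast, hε, Padic.norm_int_le_pow_iff_dvd]
      exact hd
    · refine IsUltrametricDist.norm_sum_le_of_forall_le_of_nonneg hε0 fun σ _ => ?_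
      split_ifs with h
      · exact h2 σ h
      · simpa using h
  rw [hcast, hε, Padic.norm_int_le_pow_iff_dvd] at h4
  have h5 : S.card ≤ D := by
    rw [hD, ← AlgHom.card ℚ K (PadicAlgCl p)]
    exact card_le_univ S
  have h6 : S.card = 0 := Nat.eq_zero_of_dvd_of_lt (by exact_mod_cast h4)
    (h5.trans_lt (Nat.lt_pow_self hp.one_lt))
  have h7 : ∀ σ : K →ₐ[ℚ] PadicAlgCl p, ‖1 - σ x‖ = 1 := by
    intro σ
    have e1 : ‖σ x‖ < 1 := by
      refine lt_of_le_of_lt (not_lt.mp fun h => ?_) hε1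
      exact card_ne_zero_of_mem (mem_filter.mpr ⟨mem_univ σ, h⟩) h6
    rw [sub_eq_add_neg, IsUltrametricDist.norm_add_eq_max_of_norm_ne_norm (by simpa using e1.ne'),
      norm_one, norm_neg, max_eq_left e1.le]
  have h8 : ((Algebra.norm ℤ (1 - x) : ℤ) : PadicAlgCl p) =
      ∏ σ : K →ₐ[ℚ] PadicAlgCl p, (1 - σ x) := by
    have e1 := Algebra.norm_eq_prod_embeddings ℚ (PadicAlgCl p) ((1 - x : 𝓞 K) : K)
    rw [← Algebra.coe_norm_int] at e1
    simpa using e1
  have h9 := congrArg norm h8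
  rw [norm_prod, prod_eq_one fun σ _ => h7 σ, hcast] at h9
  exact (Padic.norm_intCast_lt_one_iff.mpr hn).ne h9

theorem discr_le {N : ℕ} (hN : N ≠ 0) (h : ∀ p : ℕ, p.Prime → (p : ℤ) ∣ discr K → p ∣ N) :
    (discr K).natAbs ≤ (N ^ finrank ℚ K) ^ finrank ℚ K := by
  classical
  have hD : 0 < finrank ℚ K := finrank_pos
  have key : differentIdeal ℤ (𝓞 K) ∣ Ideal.span {((N ^ finrank ℚ K : ℕ) : 𝓞 K)} := by
    rw [UniqueFactorizationMonoid.dvd_iff_emultiplicity_le differentIdeal_ne_bot]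
    intro P hP
    rw [emultiplicity_le_emultiplicity_iff]
    intro j hj
    rcases Nat.eq_zero_or_pos j with rfl | hj0
    · simp
    have hPp : P.IsPrime := Ideal.isPrime_of_prime hP
    have hPm : P.IsMaximal := hPp.isMaximal hP.ne_zero
    obtain ⟨p, hp, hpP⟩ : ∃ p ∈ (Ideal.absNorm P).primeFactorsList, (p : 𝓞 K) ∈ P := by
      have e1 := Ideal.absNorm_mem P
      rw [← Nat.prod_primeFactorsList (Ideal.absNorm_eq_zero_iff.not.mpr hP.ne_zero),
        Nat.cast_list_prod, ← Multiset.prod_coe, hPp.multiset_prod_mem_iff_exists_mem] at e1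
      simpa using e1
    have hpp := Nat.prime_of_mem_primeFactorsList hp
    have hpd := Nat.dvd_of_mem_primeFactorsList hp
    have hpN : p ∣ N := by
      refine h p hpp (Int.natCast_dvd.mpr (hpd.trans ?_))
      rw [← absNorm_differentIdeal K (𝓞 K)]
      exact map_dvd _ ((dvd_pow_self P hj0.ne').trans hj)
    have hI : Ideal.span {(p : 𝓞 K) ^ finrank ℚ K} ≠ ⊥ := by
      simp [hpp.ne_zero]
    obtain ⟨Q, hPQ, hI'⟩ := Ideal.eq_prime_pow_mul_coprime hI P
    generalize Multiset.count P _ = m at hI'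
    have hm : m ≠ 0 := by
      rintro rfl
      rw [pow_zero, one_mul] at hI'
      refine hPp.ne_top ?_
      rw [← hPQ, ← hI', eq_comm, sup_eq_left, Ideal.span_singleton_le_iff_mem]
      exact Ideal.pow_mem_of_mem P hpP _ hD
    obtain ⟨z, hz, x, hx, hzx⟩ := Ideal.isCoprime_iff_exists.mp
      ((Ideal.isCoprime_iff_sup_eq.mpr hPQ).pow_left (m := m))
    have hz' : 1 - x = z := by linear_combination -hzx
    obtain ⟨y, hy⟩ : (p : 𝓞 K) ^ finrank ℚ K ∣ x * (1 - x) := by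
      rw [← Ideal.mem_span_singleton, hI', hz', mul_comm x]
      exact Ideal.mul_mem_mul hz hx
    have h1 := not_dvd_differentIdeal_of_intTrace_not_mem ℤ
      (p := Ideal.span {(p : ℤ) ^ finrank ℚ K}) (P ^ m) Q
      (by rw [← hI', Ideal.map_span]; simp) x hx (by
        rw [Ideal.mem_span_singleton]
        refine not_dvd_trace hpp hy ((Int.natCast_dvd_natCast.mpr hpd).trans
          (Ideal.absNorm_dvd_norm_of_mem ?_))
        rw [hz']
        exact Ideal.pow_le_self hm hz)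
    have h2 : j ≤ m := not_lt.mp fun h => h1 ((pow_dvd_pow P h.le).trans hj)
    refine (pow_dvd_pow P h2).trans ((Dvd.intro _ hI'.symm).trans ?_)
    rw [Ideal.dvd_span_singleton, Ideal.mem_span_singleton]
    exact_mod_cast Nat.cast_dvd_cast (α := 𝓞 K) (pow_dvd_pow_of_dvd hpN _)
  rw [← absNorm_differentIdeal K (𝓞 K)]
  refine Nat.le_of_dvd (by positivity) ?_
  have := map_dvd Ideal.absNorm key
  rwa [Ideal.absNorm_span_natCast, RingOfIntegers.rank] at this

end Pool.Agent.Lib.MP_07b2d0_nt
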