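import Mathlib
import Pool.Agent.Lib.MP_07b2d0_nt.CR
import Pool.Agent.Lib.MP_07b2d0_nt.Disc

/-!
The constants are primitive recursive.
-/

set_option autoImplicit false

namespace Pool.Agent.Lib.MP_07b2d0_nt

section

variable {α : Type} [Primcodable α] {f g : α → ℕ}

theorem pr_add (hf : Primrec f) (hg : Primrec g) : Primrec fun a => f a + g a :=
  Primrec.nat_add.comp hf hg

theorem pr_mul (hf : Primrec f) (hg : Primrec g) : Primrec fun a => f a * g a :=
  Primrec.nat_mul.comp hf hg

theorem pr_pow (hf : Primrec f) (hg : Primrec g) : Primrec fun a => f a ^ g a :=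
  (Primrec₂.unpaired'.mp Nat.Primrec.pow).comp hf hg

theorem pr_fact (hf : Primrec f) : Primrec fun a => (f a).factorial := by
  refine Primrec.comp ?_ hf
  refine (Primrec.nat_rec₁ (f := fun n b => (n + 1) * b) 1
    (pr_mul (Primrec.succ.comp Primrec.fst) Primrec.snd)).of_eq fun n => ?_
  induction n with
  | zero => rfl
  | succ n ih => simp only [Nat.factorial_succ, ← ih]

theorem pr_coreC (hf : Primrec f) : Primrec fun a => coreC (f a) := by
  unfold coreC
  repeat' first | exact hf | exact Primrec.const _ | apply pr_mul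

theorem pr_boxP {h : α → ℕ} (hf : Primrec f) (hg : Primrec g) (hh : Primrec h) :
    Primrec fun a => boxP (f a) (g a) (h a) := by
  unfold boxP
  exact pr_mul hg (pr_pow (pr_add (pr_mul (pr_add (pr_pow hf (.const _)) hf) hh) (.const _)) hf)

theorem pr_bkC {h : α → ℕ} (hf : Primrec f) (hg : Primrec g) (hh : Primrec h) :
    Primrec fun a => bkC (f a) (g a) (h a) := by
  unfold bkC locB
  exact pr_mul hf (pr_add (pr_mul hf (pr_add (pr_mul (pr_mul (.const _) (pr_pow (pr_add
    (pr_mul hh (pr_boxP hf hg (pr_mul (pr_add hh (.const _)) (pr_coreC hf)))) (.const _))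
    (.const _))) (pr_coreC hf)) (.const _))) (.const _))

theorem pr_sysP (hf : Primrec f) : Primrec fun a => sysP (f a) :=
  pr_pow (pr_add hf (.const _)) (.const _)

theorem pr_nfC (hf : Primrec f) : Primrec fun a => nfC (f a) := by
  have h1 : Primrec fun a => 3 ^ (sysP (f a) ^ 2) :=
    pr_pow (.const _) (pr_pow (pr_sysP hf) (.const _))
  have h2 := pr_coreC (pr_sysP hf)
  refine pr_bkC (pr_sysP hf) ?_ ?_
  · exact pr_pow (pr_add h1 (.const _)) (pr_mul hf (pr_fact h1))
  · exact pr_add (pr_pow (pr_add (pr_mul (.const _) (pr_mul (.const _) h2)) (.const _)) (.const _))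
      (pr_pow (pr_pow hf hf) (pr_mul (.const _) h2))

theorem pr_pellC (hf : Primrec f) : Primrec fun a => pellC (f a) :=
  pr_add (pr_mul (.const _) (pr_nfC hf)) (pr_mul (.const _) hf)

theorem pr_extS (hf : Primrec f) : Primrec fun a => extS (f a) :=
  pr_add (pr_mul (.const _) hf)
    (pr_mul (pr_pow (pr_mul (.const _) hf) (pr_mul (.const _) hf)) (pr_pow hf (.const _)))

theorem pr_extN (hf : Primrec f) (hg : Primrec g) : Primrec fun a => extN (f a) (g a) :=
  Primrec.nat_iterate (h := fun _ b => extS b) hf (pr_add hg (pr_pow (pr_mul hg (pr_pow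
    (pr_mul (.const _) (pr_add hg (.const _))) (.const _))) hg)) (pr_extS Primrec.snd)

theorem pr_enl (hf : Primrec f) (hg : Primrec g) : Primrec fun a => enl (f a) (g a) :=
  pr_mul hf (pr_fact (pr_pow (.const _) hg))

end

open NumberField Module IsDedekindDomain

/-- The size parameter attached to `N` and to the degree. -/
def par (N D : ℕ) : ℕ := (N ^ D) ^ D + 2 * N + D + 110

theorem pr_par : Primrec fun x : ℕ × ℕ => par x.1 x.2 :=
  pr_add (pr_add (pr_add (pr_pow (pr_pow .fst .snd) .snd) (pr_mul (.const _) .fst)) .snd) (.const _)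

variable {K : Type} [Field K] [NumberField K]

theorem small_par {N : ℕ} (hN : N ≠ 0) (h : ∀ p : ℕ, p.Prime → (p : ℤ) ∣ discr K → p ∣ N) :
    Small K (par N (finrank ℚ K)) (2 * N) := by
  have h1 := discr_le hN h
  refine ⟨by unfold par; omega, ?_, by omega, by unfold par; omega, dvd_mul_right _ _⟩
  rw [Int.abs_eq_natAbs]
  exact_mod_cast h1.trans (by unfold par; omega)

theorem notMem_of_fp_eq_one {N : ℕ} {v : FinitePlace K} (hv : v ((2 * N : ℕ) : K) = 1) :
    (N : 𝓞 K) ∉ v.maximalIdeal.asIdeal := fun h =>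
  ((fp_nat_lt_one_iff v N).mpr h).ne (fp_eq_one_of_dvd (dvd_mul_left _ _) hv)

theorem ord_of_val {v : FinitePlace K} {x : K} {m : ℤ}
    (h : v.maximalIdeal.valuation K x = WithZero.exp (-m)) : ord v x = m := by
  rw [ord, h, WithZero.log_exp, neg_neg]

end Pool.Agent.Lib.MP_07b2d0_nt
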