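import Mathlib
import Pool.Agent.Lib.MP_07b2d0_nt.G2
import Pool.Agent.Lib.MP_07b2d0_nt.Prim

/-!
Moving the point at infinity.
-/

set_option autoImplicit false

namespace Pool.Agent.Lib.MP_07b2d0_nt

open Finset Real NumberField Height Module IsDedekindDomain

section Field

variable {F : Type} [Field F] {r : ℕ}

/-- The images of `∞, a 0, a 1, ...` under `x ↦ 1 / (x - c)`. -/
def mob (a : Fin r → F) (c : F) : Fin (r + 1) → F := Fin.cons 0 fun i => (a i - c)⁻¹

theorem exists_ne_all [CharZero F] (a : Fin r → F) : ∃ c, ∀ i, a i - c ≠ 0 := by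
  classical
  obtain ⟨c, hc⟩ := Infinite.exists_notMem_finset (univ.image a)
  exact ⟨c, fun i h => hc (by simp [← sub_eq_zero.mp h])⟩

variable {a : Fin r → F} {c : F}

theorem mob_inj (ha : Function.Injective a) (hc : ∀ i, a i - c ≠ 0) :
    Function.Injective (mob a c) := by
  rw [mob, Fin.cons_injective_iff]
  refine ⟨?_, fun i j h => ha (sub_left_injective (inv_injective h))⟩
  rintro ⟨i, hi⟩
  exact hc i (inv_eq_zero.mp hi)

theorem mob_sub (hc : ∀ i, a i - c ≠ 0) (i j : Fin r) :
    mob a c i.succ - mob a c j.succ = -(a i - a j) / ((a i - c) * (a j - c)) := by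
  have := hc i
  have := hc j
  simp only [mob, Fin.cons_succ]
  field_simp
  ring

theorem cr_mob (ha : Function.Injective a) (hc : ∀ i, a i - c ≠ 0) {i j k : Fin r} (h : i ≠ k) :
    cr (mob a c) i.succ j.succ k.succ 0 = (a i - a j) / (a i - a k) := by
  have := hc i
  have := hc j
  have := hc k
  have := sub_ne ha h
  rw [cr, mob_sub hc, mob_sub hc]
  simp only [mob, Fin.cons_succ, Fin.cons_zero, sub_zero]
  field_simp

end Field

variable {K : Type} [Field K] [NumberField K]

theorem ord_cr {ι : Type} {b : ι → K} (hb : Function.Injective b) (v : FinitePlace K)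
    {i j k l : ι} (h : [i, j, k, l].Nodup) : ord v (cr b i j k l) =
      ord v (b i - b j) + ord v (b k - b l) - ord v (b i - b k) - ord v (b j - b l) := by
  obtain ⟨h1, h2, -, -, h5, h6⟩ := nodup4.mp h
  rw [cr, ord_div v (mul_ne_zero (sub_ne hb h1) (sub_ne hb h6))
    (mul_ne_zero (sub_ne hb h2) (sub_ne hb h5)), ord_mul v (sub_ne hb h1) (sub_ne hb h6),
    ord_mul v (sub_ne hb h2) (sub_ne hb h5)]
  ring

/-- The valuations of the differences after the change of coordinate. -/
theorem ord_mob {r : ℕ} {a : Fin r → K} {c : K} (ha : Function.Injective a)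
    (hc : ∀ i, a i - c ≠ 0) (v : FinitePlace K) : ∃ u : Fin (r + 1) → ℤ,
      (∀ i j : Fin r, i ≠ j → ord v (mob a c i.succ - mob a c j.succ) =
        ord v (a i - a j) + u i.succ + u j.succ) ∧
      (∀ i : Fin r, ord v (mob a c i.succ - mob a c 0) = u i.succ) ∧
      ∀ i : Fin r, ord v (mob a c 0 - mob a c i.succ) = u i.succ := by
  refine ⟨Fin.cons 0 fun i => -ord v (a i - c), fun i j h => ?_, fun i => ?_, fun i => ?_⟩
  · rw [mob_sub hc, ord_div v (neg_ne_zero.mpr (sub_ne ha h)) (mul_ne_zero (hc i) (hc j)),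
      ord_neg, ord_mul v (hc i) (hc j)]
    simp only [Fin.cons_succ]
    ring
  · simp [mob, ord_inv]
  · simp [mob, ord_inv, ord_neg]

/-- The splitting of the six points given by three finite points. -/
def sp (A : Finset (Fin 5)) : Finset (Fin 6) := (A.image Fin.succ)ᶜ

theorem sp_inj : Function.Injective sp := by decide +kernel

theorem sp_card : ∀ A : Finset (Fin 5), A.card = 3 → (sp A).card = 3 := by decide +kernel

theorem zero_mem_sp (A : Finset (Fin 5)) : 0 ∈ sp A := by simp [sp]

theorem succ_mem_sp (A : Finset (Fin 5)) (i : Fin 5) : i.succ ∈ sp A ↔ i ∉ A := by simp [sp]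

theorem genus_two' {n N : ℕ} (s : Small K n N) (hn : 110 ≤ n) {a : Fin 5 → K}
    (ha : Function.Injective a) (O : Finset (Finset (Fin 5))) (hO : O.card = 4)
    (hO' : ∀ A ∈ O, A.card = 3) (hp : ∀ i j, i ≠ j → ∃ A ∈ O, ¬(i ∈ A ↔ j ∈ A))
    (hp' : ∀ i, ∃ A ∈ O, i ∈ A)
    (h : ∀ v : FinitePlace K, v (N : K) = 1 → ∃ A : Finset (Fin 5), A.card = 3 ∧ A ∉ O ∧
      ∃ (μ : ℤ) (m : ℕ), ∀ i j, i ≠ j →
        ord v (a i - a j) = μ + if i ∈ A ∧ j ∈ A then 2 * (m : ℤ) else 0)
    {i j k : Fin 5} (hij : i ≠ j) (hik : i ≠ k) (hjk : j ≠ k) :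
    logHeight₁ ((a i - a j) / (a i - a k)) ≤ g2C n := by
  obtain ⟨c, hc⟩ := exists_ne_all a
  have hb := mob_inj ha hc
  rw [← cr_mob ha hc hik]
  refine genus_two s hn hb (O.image sp) (by rw [card_image_of_injective _ sp_inj, hO]) ?_ ?_ ?_
    _ _ _ _ (by simp [hij, hik, hjk])
  · simp only [forall_mem_image]
    exact fun A hA => ⟨sp_card A (hO' A hA), zero_mem_sp A⟩
  · rintro ⟨i, j, hij, h1⟩
    simp only [forall_mem_image] at h1
    induction i using Fin.cases with
    | zero =>
      induction j using Fin.cases with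
      | zero => exact hij rfl
      | succ j =>
        obtain ⟨A, hA, hj⟩ := hp' j
        exact (succ_mem_sp A j).mp ((h1 hA).mp (zero_mem_sp A)) hj
    | succ i =>
      induction j using Fin.cases with
      | zero =>
        obtain ⟨A, hA, hi⟩ := hp' i
        exact (succ_mem_sp A i).mp ((h1 hA).mpr (zero_mem_sp A)) hi
      | succ j =>
        obtain ⟨A, hA, h2⟩ := hp i j fun h => hij (h ▸ rfl)
        have := h1 hA
        rw [succ_mem_sp, succ_mem_sp] at this
        exact h2 (not_iff_not.mp this)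
  · intro v hv
    obtain ⟨A, h1, h2, μ, m, hm⟩ := h v hv
    refine ⟨sp A, sp_card A h1, zero_mem_sp A, fun h3 => ?_, m, fun i j k l hq => ?_⟩
    · obtain ⟨B, hB, e⟩ := mem_image.mp h3
      exact h2 (sp_inj e ▸ hB)
    obtain ⟨u, e1, e2, e3⟩ := ord_mob ha hc v
    obtain ⟨U, hU0, hU⟩ : ∃ U : Fin 6 → ℤ, U 0 = -μ - m ∧ ∀ i : Fin 5,
        U i.succ = 2 * u i.succ + μ - m + if i ∈ A then 2 * (m : ℤ) else 0 :=
      ⟨Fin.cons (-μ - m) fun i => 2 * u i.succ + μ - m + if i ∈ A then 2 * (m : ℤ) else 0,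
        rfl, fun _ => rfl⟩
    have key : ∀ i j : Fin 6, i ≠ j →
        2 * ord v (mob a c i - mob a c j) = U i + U j + 2 * (m * same (sp A) i j) := by
      intro i j hij
      induction i using Fin.cases with
      | zero =>
        induction j using Fin.cases with
        | zero => exact absurd rfl hij
        | succ j =>
          rw [e3, hU0, hU, same]
          by_cases hj : j ∈ A <;> simp [zero_mem_sp, succ_mem_sp, hj] <;> ring
      | succ i =>
        induction j using Fin.cases with
        | zero =>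
          rw [e2, hU0, hU, same]
          by_cases hi : i ∈ A <;> simp [zero_mem_sp, succ_mem_sp, hi] <;> ring
        | succ j =>
          have h3 : i ≠ j := fun h => hij (h ▸ rfl)
          rw [e1 i j h3, hm i j h3, hU, hU, same]
          by_cases hi : i ∈ A <;> by_cases hj : j ∈ A <;> simp [succ_mem_sp, hi, hj] <;> ring
    obtain ⟨h1, h2, -, -, h5, h6⟩ := nodup4.mp hq
    have := key _ _ h1
    have := key _ _ h2
    have := key _ _ h5
    have := key _ _ h6
    rw [ord_cr hb v hq, ex]
    linarith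

theorem pr_g2C : Primrec g2C :=
  pr_mul (.const _) (pr_nfC (pr_enl .id (pr_mul (.const _) (pr_pellC (pr_extN (.const _) .id)))))

end Pool.Agent.Lib.MP_07b2d0_nt
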