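import Mathlib

set_option autoImplicit false

namespace Pool.Agent.Lib.MP_07b2d0_nt.Ks

open WithZero

/-- The divisor of `φ` on the curve with function field `F / k` is divisible by `m`. -/
def DivBy (k : Type) {F : Type} [Field k] [Field F] [Algebra k F] (m : ℕ) (φ : F) : Prop :=
  ∀ v : Valuation F ℤᵐ⁰, (∀ c : k, v (algebraMap k F c) ≤ 1) → (m : ℤ) ∣ log (v φ)

variable (K Ω : Type) {F : Type} [Field K] [Field Ω] [Field F] [Algebra K Ω] [Algebra Ω F]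

/-- `σ` lies in the inertia group of a valuation ring of `Ω` in which `N` is invertible. -/
def Inertial (N : ℕ) (σ : Ω ≃ₐ[K] Ω) : Prop :=
  ∃ A : ValuationSubring Ω, (N : Ω)⁻¹ ∈ A ∧
    σ ∈ (A.inertiaSubgroup K).map (A.decompositionSubgroup K).subtype

variable [MulSemiringAction (Ω ≃ₐ[K] Ω) F]

variable (F) in
/-- All inertia groups outside `N` act trivially on `{φ : ℓ ^ n ∣ div φ} / (Fˣ) ^ ℓ ^ n`
for all `n`. -/
def TateUnramified (ℓ N : ℕ) : Prop :=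
  ∀ σ : Ω ≃ₐ[K] Ω, Inertial K Ω N σ → ∀ (n : ℕ) (φ : F), φ ≠ 0 → DivBy Ω (ℓ ^ n) φ →
    ∃ ψ : F, σ • φ = φ * ψ ^ ℓ ^ n

/-- The Galois action on `F` is semilinear and fixes the transcendental element `x`, and `F` is
finite over `Ω(x)`. -/
def Curve (x : F) : Prop :=
  (∀ (σ : Ω ≃ₐ[K] Ω) (z : Ω), σ • algebraMap Ω F z = algebraMap Ω F (σ z)) ∧
    (∀ σ : Ω ≃ₐ[K] Ω, σ • x = x) ∧ Transcendental Ω x ∧
    FiniteDimensional (IntermediateField.adjoin Ω {x}) F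

/-- `y` is fixed by the Galois action and `y ^ ℓ = c ∏ (x - a i) ^ w i` with `c ≠ 0` in `K`. -/
def Kummer (ℓ : ℕ) (x y : F) {r : ℕ} (a : Fin r → K) (w : Fin r → ℕ) : Prop :=
  (∀ σ : Ω ≃ₐ[K] Ω, σ • y = y) ∧ ∃ c : K, c ≠ 0 ∧
    y ^ ℓ = algebraMap Ω F (algebraMap K Ω c) *
      ∏ i, (x - algebraMap Ω F (algebraMap K Ω (a i))) ^ w i

end Pool.Agent.Lib.MP_07b2d0_nt.Ks
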