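import Mathlib
import Pool.Agent.Lib.MP_07b2d0_nt.KStmt

/-!
Internal definitions for the local study of the curve `y ^ ℓ = f(x)`.
-/

set_option autoImplicit false

namespace Pool.Agent.Lib.MP_07b2d0_nt.Ks

open Polynomial WithZero Finset
open scoped Polynomial.Bivariate

section Alg

variable {k E : Type} [Field k] [Field E] [Algebra k E]

/-- The valuation is trivial on the constants. -/
def Triv (k : Type) {E : Type} [Field k] [Field E] [Algebra k E] (v : Valuation E ℤᵐ⁰) : Prop :=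
  ∀ c : k, v (algebraMap k E c) ≤ 1

/-- The valuation is normalised. -/
def Srj (v : Valuation E ℤᵐ⁰) : Prop := ∃ π : E, v π = exp (-1)

/-- The valuation is centred at the point `(τ, η)`. -/
def Cen (v : Valuation E ℤᵐ⁰) (x y : E) (τ η : k) : Prop :=
  v (x - algebraMap k E τ) < 1 ∧ v (y - algebraMap k E η) < 1

/-- The finite part of the divisor of `φ` is divisible by `m`. -/
def FinDiv (k : Type) {E : Type} [Field k] [Field E] [Algebra k E] (x : E) (m : ℕ) (φ : E) :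
    Prop :=
  ∀ v : Valuation E ℤᵐ⁰, Triv k v → v x ≤ 1 → (m : ℤ) ∣ log (v φ)

/-- All roots of `f` and infinity are branch points of `y ^ ℓ = f`. -/
structure Ram (ℓ : ℕ) (f : k[X]) : Prop where
  prime : ℓ.Prime
  root : ∀ τ, f.IsRoot τ → ¬ ℓ ∣ f.rootMultiplicity τ
  deg : ¬ ℓ ∣ f.natDegree

/-- `E` is the function field of `y ^ ℓ = f(x)`. -/
structure Cyc (ℓ : ℕ) (x y : E) (f : k[X]) : Prop where
  ram : Ram ℓ f
  trans : Transcendental k x
  gen : IntermediateField.adjoin k {x, y} = ⊤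
  eq : y ^ ℓ = aeval x f

/-- `E` is a finite extension of the function field of `y ^ ℓ = f(x)`. -/
structure Big (ℓ : ℕ) (x y : E) (f : k[X]) : Prop where
  ram : Ram ℓ f
  trans : Transcendental k x
  fin : FiniteDimensional (IntermediateField.adjoin k {x}) E
  eq : y ^ ℓ = aeval x f

/-- The deck transformation. -/
structure Aut (ℓ : ℕ) (ζ : k) (x y : E) (s : E ≃ₐ[k] E) : Prop where
  prim : IsPrimitiveRoot ζ ℓ
  sx : s x = x
  sy : s y = algebraMap k E ζ * y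

/-- The norm to `k(x)`. -/
def nm (s : E ≃ₐ[k] E) (ℓ : ℕ) (z : E) : E := ∏ i ∈ range ℓ, (s ^ i) z

/-- The equation of the curve. -/
noncomputable def kum (ℓ : ℕ) (f : k[X]) : k[X][Y] := Y ^ ℓ - C f

/-- `M` is the norm of `G`. -/
def IsNrm (ℓ : ℕ) (ζ : k) (f : k[X]) (G : k[X][Y]) (M : k[X]) : Prop :=
  kum ℓ f ∣ ∏ i ∈ range ℓ, G.comp (C (C (ζ ^ i)) * Y) - C M

/-- `G` vanishes to order exactly `n` at the point `(τ, η)` of the curve. -/
def IsMult (ℓ : ℕ) (f : k[X]) (τ η : k) (G : k[X][Y]) (n : ℕ) : Prop :=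
  ∃ G₁ G₂ : k[X][Y], G₁.evalEval τ η ≠ 0 ∧ G₂.evalEval τ η ≠ 0 ∧
    kum ℓ f ∣ G * G₁ - C ((X - C τ) ^ n) * G₂

/-- `G` has finitely many zeros on the curve. -/
def FinZ (ℓ : ℕ) (f : k[X]) (G : k[X][Y]) : Prop :=
  {ρ : k | ∃ η : k, η ^ ℓ = f.eval ρ ∧ G.evalEval ρ η = 0}.Finite

variable {Γ : Type} [Group Γ]

/-- A semilinear action fixing `x` and `y`. -/
structure Act (α : Γ →* (k ≃+* k)) (β : Γ →* (E ≃+* E)) (x y : E) : Prop where
  compat : ∀ g c, β g (algebraMap k E c) = algebraMap k E (α g c)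
  fx : ∀ g, β g x = x
  fy : ∀ g, β g y = y

/-- The group fixes the leading coefficient and the roots of `f`. -/
structure Fix (α : Γ →* (k ≃+* k)) (f : k[X]) : Prop where
  lead : ∀ g, α g f.leadingCoeff = f.leadingCoeff
  root : ∀ g τ, f.IsRoot τ → α g τ = τ

/-- The group acts trivially on the `ℓ`-power torsion, up to a bounded loss at each level. -/
def Tors (k : Type) {E : Type} [Field k] [Field E] [Algebra k E] (β : Γ →* (E ≃+* E)) (ℓ : ℕ) :
    Prop :=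
  ∀ m : ℕ, ∃ N : ℕ, ∀ φ : E, φ ≠ 0 → DivBy k (ℓ ^ N) φ → ∀ g, ∃ ψ : E, β g φ = φ * ψ ^ ℓ ^ m

/-- The output of the algebraic part at level `n` for the branch point `a`. -/
def Good (ℓ : ℕ) (ζ : k) (f : k[X]) (α : Γ →* (k ≃+* k)) (a : k) (n : ℕ) : Prop :=
  ∃ (G : k[X][Y]) (M Q₁ Q₂ : k[X]) (m : k → k → ℕ), G.natDegree < ℓ ∧ IsNrm ℓ ζ f G M ∧ M ≠ 0 ∧
    Q₂ ≠ 0 ∧ (X - C a) * M * Q₂ ^ ℓ = Q₁ ^ ℓ ∧
    (∀ τ η, f.eval τ ≠ 0 → η ^ ℓ = f.eval τ → IsMult ℓ f τ η G (m τ η)) ∧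
    ∀ τ η η', f.eval τ ≠ 0 → η ^ ℓ = f.eval τ → η' ^ ℓ = f.eval τ →
      (ℓ : ℤ) ^ n ∣ (m τ η : ℤ) - m τ η' ∧
        ∀ g, (m (α g τ) (α g η) : ℤ) - m (α g τ) (α g η') = (m τ η : ℤ) - m τ η'

/-- The curve `y ^ ℓ = c ∏ (x - a i) ^ w i`, unbranched at infinity, under a finite cover. -/
structure Gen {ι : Type} [Fintype ι] (ℓ : ℕ) (x y : E) (c : k) (a : ι → k) (w : ι → ℕ) :
    Prop where
  prime : ℓ.Prime
  trans : Transcendental k x
  fin : FiniteDimensional (IntermediateField.adjoin k {x}) E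
  eq : y ^ ℓ = algebraMap k E c * ∏ i, (x - algebraMap k E (a i)) ^ w i
  ne : c ≠ 0
  inj : Function.Injective a
  sum : ℓ ∣ ∑ i, w i

end Alg

section An

variable {k : Type} [Field k]

/-- A nontrivial ultrametric absolute value with `|ℓ| = 1`. -/
structure NA (ν : AbsoluteValue k ℝ) (ℓ : ℕ) : Prop where
  na : IsNonarchimedean ν
  one : ν (ℓ : k) = 1
  nt : ∃ z, 1 < ν z

/-- An isometric action whose fixed field is discretely valued. -/
structure Inert {Γ : Type} [Group Γ] (ν : AbsoluteValue k ℝ) (α : Γ →* (k ≃+* k)) (lam : ℝ) :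
    Prop where
  iso : ∀ g z, ν (α g z) = ν z
  pos : 0 < lam
  vi : ∀ z, z ≠ 0 → (∀ g, α g z = z) → ∃ n : ℤ, Real.log (ν z) = lam * n

/-- The logarithm of the absolute value. -/
noncomputable def lg (ν : AbsoluteValue k ℝ) (z : k) : ℝ := Real.log (ν z)

/-- The logarithm of the Gauss norm of `A` on the disc of centre `b` and radius `R`. -/
noncomputable def mu (ν : AbsoluteValue k ℝ) (b : k) (R : ℝ) (A : k[X]) : ℝ :=
  lg ν A.leadingCoeff + (A.roots.map fun τ => Real.log (max (ν (τ - b)) R)).sum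

open Classical in
/-- The number of roots in the closed disc (`up = true`) or the open disc (`up = false`). -/
noncomputable def cnt (ν : AbsoluteValue k ℝ) (b : k) (R : ℝ) (up : Bool) (A : k[X]) : ℕ :=
  (A.roots.filter fun τ => ν (τ - b) < R ∨ (up = true ∧ ν (τ - b) = R)).card

/-- The signed logarithmic distance of `ρ` to the circle of centre `b` and radius `R`. -/
noncomputable def hh (ν : AbsoluteValue k ℝ) (b : k) (R : ℝ) (ρ : k) : ℝ :=
  lg ν (ρ - b) - Real.log R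

/-- `ρ` lies in the thin annulus just outside (`up = true`) or just inside the circle. -/
def Near (ν : AbsoluteValue k ℝ) (b : k) (R : ℝ) (up : Bool) (ε : ℝ) (ρ : k) : Prop :=
  ρ ≠ b ∧ |hh ν b R ρ| < ε ∧ (up = true → 0 < hh ν b R ρ) ∧ (up = false → hh ν b R ρ < 0)

/-- Some direction at the vertex `(b, R)` is ramified. -/
def NonSplit (ν : AbsoluteValue k ℝ) (ℓ : ℕ) (f : k[X]) (b : k) (R : ℝ) : Prop :=
  ∃ (b' : k) (up : Bool), ν (b' - b) ≤ R ∧ ¬ ℓ ∣ cnt ν b' R up f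

/-- `μ` is the logarithm of the Gauss norm of `G` at the vertex `(b, R)`. -/
def IsGm (ν : AbsoluteValue k ℝ) (ℓ : ℕ) (f : k[X]) (b : k) (R : ℝ) (G : k[X][Y]) (μ : ℝ) :
    Prop :=
  IsGreatest {t | ∃ i, G.coeff i ≠ 0 ∧ t = mu ν b R (G.coeff i) + i / ℓ * mu ν b R f} μ

/-- A maximal region over which the cover splits: an open disc minus closed discs. -/
structure Reg (ν : AbsoluteValue k ℝ) (ℓ : ℕ) (f : k[X]) where
  a0 : k
  R0 : ℝ
  T : Finset k
  R : k → ℝ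
  kk : k → ℕ
  ne : T.Nonempty
  pos : ∀ b ∈ T, 0 < R b
  lt : ∀ b ∈ T, R b < R0
  ins : ∀ b ∈ T, ν (b - a0) < R0
  sep : ∀ b ∈ T, ∀ b' ∈ T, b ≠ b' → R b < ν (b - b')
  cov : ∀ τ, f.IsRoot τ → ν (τ - a0) < R0 → ∃ b ∈ T, ν (τ - b) ≤ R b
  wt : ∀ b ∈ T, cnt ν b (R b) true f = ℓ * kk b
  ns : ∀ b ∈ T, NonSplit ν ℓ f b (R b)
  ns0 : NonSplit ν ℓ f a0 R0
  root : ∀ b ∈ T, f.IsRoot b
  root0 : f.IsRoot a0
  val : ∀ b ∈ T, ∃ τ, f.IsRoot τ ∧ R b = ν (τ - b)
  val0 : ∃ τ, f.IsRoot τ ∧ R0 = ν (τ - a0)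

namespace Reg

variable {ν : AbsoluteValue k ℝ} {ℓ : ℕ} {f : k[X]} (D : Reg ν ℓ f)

/-- The approximate `ℓ`-th root of `f / kap` on the region. -/
noncomputable def g0 : k[X] := ∏ b ∈ D.T, (X - C b) ^ D.kk b

open Classical in
/-- The constant factor of `f` on the region. -/
noncomputable def kap : k :=
  f.leadingCoeff * ((f.roots.filter fun τ => D.R0 ≤ ν (τ - D.a0)).map fun τ => D.a0 - τ).prod

/-- The region. -/
def Om (ρ : k) : Prop := ν (ρ - D.a0) < D.R0 ∧ ∀ b ∈ D.T, D.R b < ν (ρ - b)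

/-- The shrunk region. -/
def Omt (t : ℝ) (ρ : k) : Prop := ν (ρ - D.a0) ≤ t * D.R0 ∧ ∀ b ∈ D.T, D.R b ≤ t * ν (ρ - b)

/-- The point `(ρ, η)` of the curve lies on the sheet `c`. -/
def Sheet (c ρ η : k) : Prop :=
  η ^ ℓ = f.eval ρ ∧ ν (η - c * D.g0.eval ρ) < ν (c * D.g0.eval ρ)

open Classical in
/-- The matrix of the Dirichlet problem on the region. -/
noncomputable def Mx (b b' : k) : ℝ :=
  Real.log D.R0 - if b = b' then Real.log (D.R b) else lg ν (b - b')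

/-- `log |G|` has the given shape on the sheet `c` outside `S`. -/
def Form (c : k) (G : k[X][Y]) (S : Finset k) (m : k → ℕ) (p : ℝ) (n : k → ℤ) : Prop :=
  ∀ ρ η, D.Om ρ → ρ ∉ S → D.Sheet c ρ η → G.evalEval ρ η ≠ 0 ∧
    lg ν (G.evalEval ρ η) = p + ∑ b ∈ D.T, n b * lg ν (ρ - b) + ∑ τ ∈ S, m τ * lg ν (ρ - τ)

end Reg

/-- An annulus separates the points of `I` from the points of `J`. -/
def Sep {ι : Type} (ν : k → ℝ) (a : ι → k) (I J : Finset ι) : Prop :=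
  ∀ i ∈ I, ∀ i' ∈ I, ∀ j ∈ J, ∀ j' ∈ J,
    ν (a i - a i') * ν (a j - a j') < ν (a i - a j) * ν (a i' - a j')

/-- No annulus splits the branch points into two parts of weight zero. -/
def Loc1 {ι : Type} (ν : k → ℝ) (ℓ : ℕ) (a : ι → k) (w : ι → ℕ) : Prop :=
  ∀ I J : Finset ι, Disjoint I J → (∀ i, ¬ ℓ ∣ w i ↔ i ∈ I ∨ i ∈ J) → I.Nonempty → J.Nonempty →
    ℓ ∣ ∑ i ∈ I, w i → ¬ Sep ν a I J

end An

end Pool.Agent.Lib.MP_07b2d0_nt.Ks
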