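import Mathlib
import Pool.Agent.Lib.MP_07b2d0_nt.KDef
import Pool.Agent.Lib.MP_07b2d0_nt.CR
import Pool.Agent.Lib.MP_07b2d0_nt.Prim

set_option autoImplicit false
set_option linter.unusedSectionVars false
set_option linter.unusedVariables false

namespace Pool.Agent.Lib.MP_07b2d0_nt.Ks

open NumberField

/-- The form of `TateUnramified` used in the proofs. -/
def TateHom (K : Type) {F : Type} [Field K] [Field F] [Algebra (AlgebraicClosure K) F]
    (act : (AlgebraicClosure K ≃ₐ[K] AlgebraicClosure K) →* (F ≃+* F)) (ℓ N : ℕ) : Prop :=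
  ∀ A : ValuationSubring (AlgebraicClosure K), (N : AlgebraicClosure K)⁻¹ ∈ A →
    ∀ σ ∈ A.inertiaSubgroup K, ∀ (n : ℕ) (φ : F), φ ≠ 0 →
      DivBy (AlgebraicClosure K) (ℓ ^ n) φ → ∃ ψ : F, act σ φ = φ * ψ ^ ℓ ^ n

/-- The two local conditions at all places outside `N`. -/
def LocK {K ι : Type} [Field K] [NumberField K] (ℓ N : ℕ) (a : ι → K) (w : ι → ℕ) : Prop :=
  ∀ v : FinitePlace K, v (N : K) = 1 → Loc1 (fun z => v z) ℓ a w ∧
    ∀ i j n l, [i, j, n, l].Nodup → ¬ ℓ ∣ w i → ¬ ℓ ∣ w j → ¬ ℓ ∣ w n → ¬ ℓ ∣ w l →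
      (ℓ : ℤ) ∣ ord v (cr a i j n l)

theorem LocK.mono {K ι : Type} [Field K] [NumberField K] {ℓ N N' : ℕ} {a : ι → K} {w : ι → ℕ}
    (h : LocK ℓ N a w) (hN : N ∣ N') : LocK ℓ N' a w :=
  fun v hv => h v (fp_eq_one_of_dvd hN hv)

/-- The colour `u'` lies on the line spanned by `u`. -/
def Par {ℓ m : ℕ} (u u' : Fin m → ZMod ℓ) : Prop := ∃ c : ZMod ℓ, u' = c • u

/-- The colours of the branch points. -/
def col {ι : Type} {m : ℕ} (ℓ : ℕ) (e : Fin m → ι → ℕ) (i : ι) : Fin m → ZMod ℓ :=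
  fun j => (e j i : ZMod ℓ)

/-- The weights for a character. -/
def wt {ι : Type} {m : ℕ} (e : Fin m → ι → ℕ) (t : Fin m → ℕ) (i : ι) : ℕ := ∑ j, t j * e j i

end Pool.Agent.Lib.MP_07b2d0_nt.Ks
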