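import Mathlib
import Pool.Agent.Lib.MP_07b2d0_nt.KH0

set_option autoImplicit false
set_option linter.unusedSectionVars false
set_option linter.unusedVariables false

namespace Pool.Agent.Lib.MP_07b2d0_nt.Ks

open Finset Real NumberField Height Module Polynomial

theorem kh1_nuInf_pow {K : Type} [Field K] [NumberField K] {x : K} (hx : x ≠ 0) (n : ℕ) :
    nuInf (x ^ n) = n * nuInf x := by
  induction n with
  | zero => simp [nuInf]
  | succ n ih => rw [pow_succ, nuInf_mul (pow_ne_zero _ hx) hx, ih]; push_cast; ring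

theorem kh1_ceil {ℓ : ℕ} (hℓ : ℓ ≠ 0) {t : ℤ} (ht : 0 ≤ t) :
    ∃ k : ℕ, t ≤ ℓ * k ∧ (ℓ : ℤ) * k - t ≤ ℓ ∧ ((ℓ : ℤ) ∣ t → (ℓ : ℤ) * k - t = 0) := by
  have hl : (0 : ℤ) < ℓ := by exact_mod_cast Nat.pos_of_ne_zero hℓ
  by_cases h : (ℓ : ℤ) ∣ t
  · obtain ⟨r, rfl⟩ := h
    have hr : 0 ≤ r := nonneg_of_mul_nonneg_right ht hl
    refine ⟨r.toNat, ?_, ?_, fun _ => ?_⟩ <;> rw [Int.toNat_of_nonneg hr]
    · simp
    · simp
  · have h1 := Int.emod_add_mul_ediv t ℓ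
    have h2 := Int.emod_nonneg t hl.ne'
    have h3 := Int.emod_lt_of_pos t hl
    have h4 : 0 ≤ t / ℓ := Int.ediv_nonneg ht hl.le
    refine ⟨(t / ℓ + 1).toNat, ?_, ?_, fun h' => absurd h' h⟩ <;>
      rw [Int.toNat_of_nonneg (by omega), mul_add, mul_one] <;> omega

theorem kh1_main {K : Type} [Field K] [NumberField K] {n N ℓ : ℕ} (hD : finrank ℚ K ≤ n)
    (hd : |discr K| ≤ n) (hN : N ≠ 0) (hNn : N ≤ n) (hℓ : ℓ ≠ 0) (hℓn : ℓ ≤ n) {x : K}
    (hx : x ≠ 0) (he : ∀ v : FinitePlace K, v (N : K) = 1 → (ℓ : ℤ) ∣ ord v x) :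
    ∃ γ : K, γ ≠ 0 ∧ ∃ m : ℕ, m ≠ 0 ∧ m ≤ ((n * (2 * (n + 1))) ^ n) ^ n ∧
      IsIntegral ℤ (x * γ ^ ℓ) ∧ IsIntegral ℤ ((m : K) / (x * γ ^ ℓ)) := by
  classical
  obtain ⟨b, a, ha, hab⟩ := exists_frac x
  have ha' : (a : K) ≠ 0 := by simpa using ha
  have hb' : (b : K) ≠ 0 := fun h => hx (by rw [hab, h, zero_div])
  obtain ⟨x1, hx1⟩ : ∃ x1, x1 = x⁻¹ * (b : K) ^ ℓ := ⟨_, rfl⟩
  have hx10 : x1 ≠ 0 := hx1 ▸ mul_ne_zero (inv_ne_zero hx) (pow_ne_zero _ hb')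
  have hx1i : ∀ v : FinitePlace K, 0 ≤ ord v x1 := fun v => by
    obtain ⟨l, rfl⟩ := Nat.exists_eq_succ_of_ne_zero hℓ
    have : x1 = ((a * b ^ l : 𝓞 K) : K) := by rw [hx1, hab, pow_succ]; push_cast; field_simp
    rw [← fp_le_one_iff, this]
    exact fp_int_le_one v _
  have he1 : ∀ v : FinitePlace K, v (N : K) = 1 → (ℓ : ℤ) ∣ ord v x1 := fun v hv => by
    rw [hx1, ord_mul v (inv_ne_zero hx) (pow_ne_zero _ hb'), ord_pow, ord_inv]
    exact (he v hv).neg_right.add (dvd_mul_right _ _)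
  have hD0 : (0 : ℝ) < finrank ℚ K := by exact_mod_cast finrank_pos
  have hl0 : (0 : ℤ) < ℓ := by exact_mod_cast Nat.pos_of_ne_zero hℓ
  have hsum : ∑ w : InfinitePlace K, (w.mult : ℝ) = finrank ℚ K := by
    rw [← Nat.cast_sum, InfinitePlace.sum_mult_eq]
  choose k hk1 hk2 hk3 using fun v : FinitePlace K => kh1_ceil hℓ (hx1i v)
  obtain ⟨A, hA⟩ : ∃ A, A = ∑ v ∈ supp x1, k v * log (qv v) := ⟨_, rfl⟩
  obtain ⟨y, hy0, hyi, hyv, hyw⟩ := mink_int hd (supp x1) k (fun _ => A / finrank ℚ K) (by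
    rw [← sum_mul, hsum, mul_div_cancel₀ _ hD0.ne', hA])
  have e0 : x * (y / b) ^ ℓ = y ^ ℓ / x1 := by rw [hx1, div_pow]; field_simp
  have hz0 : y ^ ℓ / x1 ≠ 0 := div_ne_zero (pow_ne_zero _ hy0) hx10
  have hzi : IsIntegral ℤ (y ^ ℓ / x1) := isIntegral_of_fp fun v => by
    rw [fp_le_one_iff, ord_div v (pow_ne_zero _ hy0) hx10, ord_pow]
    by_cases hv : v ∈ supp x1
    · have h1 := mul_le_mul_of_nonneg_left (hyv v hv) hl0.le
      have := hk1 v
      omega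
    · rw [mem_supp hx10, not_not, fp_eq_one_iff v hx10] at hv
      have := mul_nonneg hl0.le ((fp_le_one_iff v y).mp (fp_le_one_of_isIntegral v hyi))
      omega
  obtain ⟨z, hz⟩ : ∃ z : 𝓞 K, (z : K) = y ^ ℓ / x1 := ⟨⟨_, hzi⟩, rfl⟩
  have hz0' : z ≠ 0 := fun h => hz0 (by rw [← hz, h]; simp)
  refine ⟨y / b, div_ne_zero hy0 hb', Ideal.absNorm (Ideal.span {z}), ?_,
    ?_, e0 ▸ hzi, ?_⟩
  · rw [Ne, Ideal.absNorm_eq_zero_iff, Ideal.span_singleton_eq_bot]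
    exact hz0'
  · have e1 : nuInf (z : K) + nuInf x1 = ℓ * nuInf y := by
      rw [← nuInf_mul (hz ▸ hz0) hx10, ← kh1_nuInf_pow hy0, hz, div_mul_cancel₀ _ hx10]
    have e2 : nuInf y ≤ A + finrank ℚ K * log (2 * (n + 1)) := by
      calc nuInf y ≤ ∑ w : InfinitePlace K, w.mult * (A / finrank ℚ K + log (2 * (n + 1))) :=
            sum_le_sum fun w _ => mul_le_mul_of_nonneg_left (hyw w) (by positivity)
        _ = _ := by rw [← sum_mul, hsum, mul_add, mul_div_cancel₀ _ hD0.ne']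
    have e3 := log_pf hx10 _ Subset.rfl
    have e4 : ℓ * A + ∑ v ∈ supp x1, log (v x1) ≤ ℓ * (finrank ℚ K * log N) := by
      rw [hA, mul_sum, ← sum_add_distrib]
      calc _ ≤ ∑ v ∈ supp x1, ℓ * if v ∈ supp (N : K) then log (qv v) else 0 := by
            refine sum_le_sum fun v _ => ?_
            have e5 : ℓ * (k v * log (qv v)) + log (v x1) =
                ((ℓ * k v - ord v x1 : ℤ) : ℝ) * log (qv v) := by
              rw [log_fp]; push_cast; ring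
            rw [e5]
            split_ifs with h
            · refine mul_le_mul_of_nonneg_right ?_ (log_qv_pos v).le
              exact_mod_cast hk2 v
            · rw [mem_supp (Nat.cast_ne_zero.mpr hN), not_not] at h
              rw [hk3 v (he1 v h)]
              simp
        _ ≤ ℓ * ∑ v ∈ supp (N : K), log (qv v) := by
            rw [← mul_sum, ← sum_filter]
            refine mul_le_mul_of_nonneg_left ?_ (by positivity)
            exact sum_le_sum_of_subset_of_nonneg (fun v hv => (mem_filter.mp hv).2)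
              fun v _ _ => (log_qv_pos v).le
        _ ≤ _ := mul_le_mul_of_nonneg_left (sum_log_qv_le hN) (by positivity)
    have e5 : nuInf (z : K) ≤ finrank ℚ K * log ((N * (2 * (n + 1))) ^ ℓ) := by
      rw [log_pow, log_mul (by positivity) (by positivity)]
      have e6 := mul_le_mul_of_nonneg_left e2 (show (0 : ℝ) ≤ ℓ by positivity)
      nlinarith
    have e6 := exp_le_exp.mpr e5
    rw [exp_nuInf hz0', exp_nat_mul, exp_log (by positivity)] at e6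
    have e7 : Ideal.absNorm (Ideal.span {z}) ≤ ((N * (2 * (n + 1))) ^ ℓ) ^ finrank ℚ K := by
      exact_mod_cast e6
    have hn : 0 < n := by omega
    refine e7.trans ((Nat.pow_le_pow_left ((Nat.pow_le_pow_left (Nat.mul_le_mul_right _ hNn) _).trans
      (Nat.pow_le_pow_right ?_ hℓn)) _).trans (Nat.pow_le_pow_right ?_ hD))
    · positivity
    · positivity
  · obtain ⟨r, hr⟩ := Ideal.mem_span_singleton'.mp (Ideal.absNorm_mem (Ideal.span {z}))
    have e1 : ((Ideal.absNorm (Ideal.span {z}) : ℕ) : K) = (r : K) * z := by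
      have := congrArg (fun t : 𝓞 K => (t : K)) hr
      simpa using this.symm
    rw [e0, ← hz, e1, mul_div_cancel_right₀ _ (hz ▸ hz0)]
    exact r.isIntegral_coe

/-- A copy of `exists_small_rep` (file `Ext`) with `ℓ`-th powers instead of squares: take
`x1 = x * b ^ ℓ` integral, `k v = ⌈(ℓ - 1) * ord v x1 / ℓ⌉`... or more simply apply the old
argument to `x⁻¹`: one wants `y` with `ord v (y ^ ℓ * x) ≥ 0` everywhere and small norm.  For
instance replace `x` by `x' = x1 ^ (ℓ - 1)`, find `y` integral with `ℓ * ord v y ≥ ord v x'`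
(`mink_int` with `k v = ⌈ord v x' / ℓ⌉`), put `z = y ^ ℓ / x'`, which is `x * γ ^ ℓ` for
`γ = y * b / x1`; its norm is at most `(N ^ ℓ * (2 (n + 1)) ^ ℓ) ^ finrank`. -/
theorem exists_small_rep_pow : ∃ c : ℕ → ℕ, Primrec c ∧ ∀ (K : Type) [Field K] [NumberField K]
    (n N ℓ : ℕ) (x : K), Small K n N → ℓ ≠ 0 → ℓ ≤ n → x ≠ 0 →
    (∀ v : FinitePlace K, v (N : K) = 1 → (ℓ : ℤ) ∣ ord v x) →
    ∃ γ : K, γ ≠ 0 ∧ ∃ m : ℕ, m ≠ 0 ∧ m ≤ c n ∧ IsIntegral ℤ (x * γ ^ ℓ) ∧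
      IsIntegral ℤ ((m : K) / (x * γ ^ ℓ)) := by
  refine ⟨fun n => ((n * (2 * (n + 1))) ^ n) ^ n, ?_, fun K _ _ n N ℓ x hs hℓ hℓn hx he => ?_⟩
  · exact pr_pow (pr_pow (pr_mul Primrec.id (pr_mul (.const _) (pr_add Primrec.id (.const _))))
      Primrec.id) Primrec.id
  · exact kh1_main hs.hD hs.hd hs.hN hs.hNn hℓ hℓn hx he

end Pool.Agent.Lib.MP_07b2d0_nt.Ks
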