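import Mathlib
import Pool.Agent.Lib.MP_07b2d0_nt.KH0

set_option autoImplicit false
set_option linter.unusedSectionVars false
set_option linter.unusedVariables false

namespace Pool.Agent.Lib.MP_07b2d0_nt.Ks

open Finset Real NumberField Height Module Polynomial

/-- A copy of `ext_one` (file `Ext`) for `L = K⟮s⟯`.  The minimal polynomial `g` of `s` over `𝓞 K`
divides `X ^ ℓ - C x` (`minpoly.isIntegrallyClosed_dvd`), so `g'(s)` divides `ℓ * s ^ (ℓ - 1)`,
which divides `ℓ * m` in `𝓞 L`; `g'(s)` lies in the different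
(`aeval_derivative_mem_differentIdeal`,
`natAbs_discr_eq_absNorm_differentIdeal_mul_natAbs_discr_pow`), and `finrank K L ≤ ℓ`. -/
theorem ext_root {K : Type} [Field K] [NumberField K] {ℓ m : ℕ} (hℓ : ℓ ≠ 0) {x : K} (hm : m ≠ 0)
    (hx0 : x ≠ 0) (hx : IsIntegral ℤ x) (hm' : IsIntegral ℤ ((m : K) / x))
    (s : AlgebraicClosure K) (hs : s ^ ℓ = algebraMap K _ x) :
    ∃ (L : Type) (_ : Field L) (_ : NumberField L) (φ : K →+* L) (t : L),
      finrank ℚ L ≤ ℓ * finrank ℚ K ∧
      (discr L).natAbs ≤ (ℓ * m) ^ (ℓ * finrank ℚ K) * (discr K).natAbs ^ ℓ ∧ t ^ ℓ = φ x ∧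
      (IsPrimitiveRoot s ℓ → IsPrimitiveRoot t ℓ) := by
  have hd : 1 ≤ (discr K).natAbs := Int.natAbs_pos.mpr (discr_ne_zero K)
  have hsK : IsIntegral K s := Algebra.IsIntegral.isIntegral s
  let L := IntermediateField.adjoin K {s}
  have hfin : Module.Finite K L := IntermediateField.adjoin.finiteDimensional hsK
  have hNF : NumberField L := NumberField.of_module_finite K L
  have hrk : finrank K L ≤ ℓ := by
    rw [IntermediateField.adjoin.finrank hsK, ← natDegree_X_pow_sub_C (n := ℓ) (r := x)]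
    exact natDegree_le_of_dvd (minpoly.dvd K s (by simp [hs])) (X_pow_sub_C_ne_zero
      (Nat.pos_of_ne_zero hℓ) x)
  have hrkL : finrank ℚ L ≤ ℓ * finrank ℚ K := by
    rw [← finrank_mul_finrank ℚ K L, mul_comm]
    exact Nat.mul_le_mul_right _ hrk
  obtain ⟨t, ht⟩ : ∃ t : L, t = IntermediateField.AdjoinSimple.gen K s := ⟨_, rfl⟩
  have hts : (t : AlgebraicClosure K) = s := by rw [ht]; rfl
  have ht2 : t ^ ℓ = algebraMap K L x := Subtype.ext (by
    rw [IntermediateField.coe_pow, hts, hs]; rfl)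
  have hti : IsIntegral ℤ t := by
    refine IsIntegral.of_pow (Nat.pos_of_ne_zero hℓ) ?_
    rw [ht2]
    exact hx.map (algebraMap K L).toIntAlgHom
  refine ⟨L, inferInstance, hNF, algebraMap K L, t, hrkL, ?_, ht2, fun h =>
    IsPrimitiveRoot.of_map_of_injective (f := algebraMap L (AlgebraicClosure K))
      (by rwa [← hts] at h) (algebraMap L (AlgebraicClosure K)).injective⟩
  rw [natAbs_discr_eq_absNorm_differentIdeal_mul_natAbs_discr_pow K (𝓞 K) L (𝓞 L)]
  refine Nat.mul_le_mul (le_trans (Nat.le_of_dvd (by positivity) ?_)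
    (Nat.pow_le_pow_right (n := ℓ * m) (by positivity) hrkL)) (Nat.pow_le_pow_right hd hrk)
  let sO : 𝓞 L := ⟨t, hti⟩
  let xO : 𝓞 K := ⟨x, hx⟩
  have h1 := aeval_derivative_mem_differentIdeal (𝓞 K) K L sO (by
    change Algebra.adjoin K {t} = ⊤
    rw [ht]
    exact (IntermediateField.adjoin.powerBasis hsK).adjoin_gen_eq_top)
  have h0 : sO ^ ℓ = algebraMap (𝓞 K) (𝓞 L) xO := RingOfIntegers.ext ht2
  obtain ⟨q, hq⟩ := minpoly.isIntegrallyClosed_dvd (R := 𝓞 K) (Algebra.IsIntegral.isIntegral sO)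
    (p := X ^ ℓ - C xO) (by simp [h0])
  have h2 := congrArg (fun p => aeval sO (derivative p)) hq
  simp only [derivative_mul, map_add, map_mul, minpoly.aeval, zero_mul, add_zero, derivative_sub,
    derivative_C, sub_zero, derivative_X_pow, map_natCast, map_pow, aeval_X] at h2
  let r : 𝓞 L := ⟨algebraMap K L (m / x), hm'.map (algebraMap K L).toIntAlgHom⟩
  have h3 : ((ℓ * m : ℕ) : 𝓞 L) = (ℓ : 𝓞 L) * sO ^ (ℓ - 1) * (sO * r) := by
    rw [mul_assoc, ← mul_assoc (sO ^ (ℓ - 1)), pow_sub_one_mul hℓ, h0, Nat.cast_mul]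
    congr 1
    apply RingOfIntegers.ext
    change algebraMap (𝓞 L) L _ = algebraMap K L x * algebraMap K L (m / x)
    rw [← map_mul, mul_div_cancel₀ _ hx0, map_natCast, map_natCast]
  rw [← RingOfIntegers.rank, ← Ideal.absNorm_span_natCast]
  refine Ideal.absNorm_dvd_absNorm_of_le ?_
  rw [Ideal.span_singleton_le_iff_mem, h3, h2]
  exact Ideal.mul_mem_right _ _ (Ideal.mul_mem_right _ _ h1)

end Pool.Agent.Lib.MP_07b2d0_nt.Ks
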