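import Mathlib
import Pool.Agent.Lib.MP_07b2d0_nt.KH1
import Pool.Agent.Lib.MP_07b2d0_nt.KH2

set_option autoImplicit false
set_option linter.unusedSectionVars false
set_option linter.unusedVariables false

namespace Pool.Agent.Lib.MP_07b2d0_nt.Ks

open Finset Real NumberField Height Module Polynomial

/-- One step of the growth of the parameter. -/
def kh3S (n : ℕ) : ℕ := n * n + (n * n) ^ (n * n) * n ^ n + n

theorem kh3_le (n : ℕ) : n ≤ kh3S n := Nat.le_add_left _ _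

theorem kh3_pr {f : ℕ → ℕ} (hf : Primrec f) : Primrec fun a => kh3S (f a) :=
  pr_add (pr_add (pr_mul hf hf) (pr_mul (pr_pow (pr_mul hf hf) (pr_mul hf hf)) (pr_pow hf hf))) hf

theorem kh3_step {K : Type} [Field K] [NumberField K] {n N ℓ m : ℕ} (s : Small K n N) (hℓ : ℓ ≠ 0)
    (hℓn : ℓ ≤ n) {x : K} (hm : m ≠ 0) (hmn : m ≤ n) (hx0 : x ≠ 0) (hx : IsIntegral ℤ x)
    (hm' : IsIntegral ℤ ((m : K) / x)) (r : AlgebraicClosure K) (hr : r ^ ℓ = algebraMap K _ x) :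
    ∃ (L : Type) (_ : Field L) (_ : NumberField L) (φ : K →+* L) (t : L),
      Small L (kh3S n) N ∧ t ^ ℓ = φ x ∧ (IsPrimitiveRoot r ℓ → IsPrimitiveRoot t ℓ) := by
  obtain ⟨L, _, _, φ, t, e1, e2, e3, e4⟩ := ext_root hℓ hm hx0 hx hm' r hr
  have hn : 0 < n := by omega
  have hd : (discr K).natAbs ≤ n := by
    have := s.hd
    rw [Int.abs_eq_natAbs] at this
    omega
  have h1 : ℓ * finrank ℚ K ≤ n * n := Nat.mul_le_mul hℓn s.hD
  have h2 : (discr L).natAbs ≤ (n * n) ^ (n * n) * n ^ n :=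
    e2.trans (Nat.mul_le_mul ((Nat.pow_le_pow_left (Nat.mul_le_mul hℓn hmn) _).trans
      (Nat.pow_le_pow_right (Nat.mul_pos hn hn) h1))
      ((Nat.pow_le_pow_left hd _).trans (Nat.pow_le_pow_right hn hℓn)))
  refine ⟨L, inferInstance, inferInstance, φ, t, ⟨?_, ?_, s.hN, s.hNn.trans (kh3_le n), s.h2⟩,
    e3, e4⟩
  · rw [kh3S]
    omega
  · rw [Int.abs_eq_natAbs, Nat.cast_le, kh3S]
    omega

theorem kh3_list {N ℓ : ℕ} (hℓ : ℓ ≠ 0) (l : ℕ) : ∀ {n : ℕ} {K : Type} [Field K] [NumberField K]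
    (f : Fin l → K), Small K n N → ℓ ≤ n →
    (∀ i, f i ≠ 0 ∧ IsIntegral ℤ (f i) ∧ ∃ m : ℕ, m ≠ 0 ∧ m ≤ n ∧ IsIntegral ℤ ((m : K) / f i)) →
    ∃ (L : Type) (_ : Field L) (_ : NumberField L) (φ : K →+* L),
      Small L (kh3S^[l] n) N ∧ ∀ i, ∃ t : L, t ^ ℓ = φ (f i) := by
  induction l with
  | zero =>
    intro n K _ _ f s _ _
    exact ⟨K, inferInstance, inferInstance, RingHom.id K, s, fun i => i.elim0⟩
  | succ l ih =>
    intro n K _ _ f s hℓn h3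
    obtain ⟨h0, hi, m, hm, hmn, hm'⟩ := h3 0
    obtain ⟨r, hr⟩ := IsAlgClosed.exists_pow_nat_eq (algebraMap K (AlgebraicClosure K) (f 0))
      (Nat.pos_of_ne_zero hℓ)
    obtain ⟨L, _, _, φ, t, s', e3, -⟩ := kh3_step s hℓ hℓn hm hmn h0 hi hm' r hr
    obtain ⟨M, _, _, ψ, s'', e6⟩ := ih (n := kh3S n) (fun i => φ (f i.succ)) s'
      (hℓn.trans (kh3_le n)) (fun i => by
        obtain ⟨h0, hi, m, hm, hmn, hm'⟩ := h3 i.succ
        refine ⟨by simpa using h0, hi.map φ.toIntAlgHom, m, hm, hmn.trans (kh3_le n), ?_⟩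
        simpa using hm'.map φ.toIntAlgHom)
    refine ⟨M, inferInstance, inferInstance, ψ.comp φ, s'', fun i => ?_⟩
    refine Fin.cases ⟨ψ t, ?_⟩ (fun i => e6 i) i
    rw [← map_pow, e3, RingHom.comp_apply]

/-- Use `exists_small_rep_pow` for the three elements, then `ext_root` four times (first with
`x = 1`, `m = 1` and `s` a primitive root), as in `ext_list` and `exists_ext` (file `Ext`).  One
step replaces the parameter `n` by `n * n + (n * n) ^ (n * n) * n ^ n + n`. -/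
theorem exists_ext_pow : ∃ c : ℕ → ℕ, Primrec c ∧ ∀ (K : Type) [Field K] [NumberField K]
    (n N ℓ : ℕ) (f : Fin 3 → K), Small K n N → ℓ ≠ 0 → ℓ ≤ n → (∀ i, f i ≠ 0) →
    (∀ i (v : FinitePlace K), v (N : K) = 1 → (ℓ : ℤ) ∣ ord v (f i)) →
    ∃ (L : Type) (_ : Field L) (_ : NumberField L) (φ : K →+* L) (ζ : L),
      Small L (c n) N ∧ n ≤ c n ∧ IsPrimitiveRoot ζ ℓ ∧ ∀ i, ∃ t : L, t ^ ℓ = φ (f i) := by
  obtain ⟨c, hc, h⟩ := exists_small_rep_pow
  refine ⟨fun n => kh3S (kh3S (kh3S (kh3S (n + c n)))),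
    kh3_pr (kh3_pr (kh3_pr (kh3_pr (pr_add Primrec.id hc)))), ?_⟩
  intro K _ _ n N ℓ f s hℓ hℓn hf he
  choose γ hγ m hm hmn h1 h2 using fun i => h K n N ℓ (f i) s hℓ hℓn (hf i) (he i)
  have : NeZero ℓ := ⟨hℓ⟩
  obtain ⟨r, hr⟩ := HasEnoughRootsOfUnity.exists_primitiveRoot (AlgebraicClosure K) ℓ
  obtain ⟨L, _, _, φ, t, s', -, e4⟩ := kh3_step (s.mono (Nat.le_add_right n (c n))) hℓ
    (hℓn.trans (Nat.le_add_right _ _)) (x := 1) (m := 1) one_ne_zero (by omega) one_ne_zero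
    isIntegral_one (by simpa using isIntegral_one) r (by rw [hr.pow_eq_one, map_one])
  obtain ⟨M, _, _, ψ, s'', e6⟩ := kh3_list hℓ 3 (fun i => φ (f i * γ i ^ ℓ)) s'
    (hℓn.trans ((Nat.le_add_right _ _).trans (kh3_le _))) (fun i => by
      refine ⟨by simp [hf i, hγ i], (h1 i).map φ.toIntAlgHom, m i, hm i,
        (hmn i).trans ((Nat.le_add_left _ _).trans (kh3_le _)), ?_⟩
      simpa using (h2 i).map φ.toIntAlgHom)
  refine ⟨M, inferInstance, inferInstance, ψ.comp φ, ψ t, s'', (Nat.le_add_right _ _).trans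
    ((kh3_le _).trans ((kh3_le _).trans ((kh3_le _).trans (kh3_le _)))),
    (e4 hr).map_of_injective ψ.injective, fun i => ?_⟩
  obtain ⟨u, hu⟩ := e6 i
  have h0 : ψ (φ (γ i)) ≠ 0 := by simpa using hγ i
  refine ⟨u / ψ (φ (γ i)), ?_⟩
  rw [div_pow, hu, map_mul, map_mul, map_pow, map_pow, mul_div_cancel_right₀ _ (pow_ne_zero _ h0),
    RingHom.comp_apply]

end Pool.Agent.Lib.MP_07b2d0_nt.Ks
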