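import Mathlib
import Pool.Agent.Lib.MP_07b2d0_nt.KH0

set_option autoImplicit false
set_option linter.unusedSectionVars false
set_option linter.unusedVariables false

namespace Pool.Agent.Lib.MP_07b2d0_nt.Ks

open Finset Real NumberField Height Module Polynomial

variable {K : Type} [Field K] [NumberField K] {n N ℓ : ℕ}

theorem mem_RN_of_pow (hℓ : ℓ ≠ 0) {z : K} (h : z ^ ℓ ∈ RN K N) : z ∈ RN K N := by
  intro v hv
  have := h v hv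
  rw [map_pow] at this
  exact (pow_le_one_iff_of_nonneg (apply_nonneg _ _) hℓ).mp this

theorem h_map_le {L : Type} [Field L] [NumberField L] (φ : K →+* L) (x : K) :
    logHeight₁ (φ x) ≤ finrank ℚ L * logHeight₁ x := by
  let := φ.toAlgebra
  have h := mulHeight₁_algebraMap (L := L) x
  have h1 : finrank ℚ K * finrank K L = finrank ℚ L := finrank_mul_finrank ℚ K L
  have h2 : finrank K L ≤ finrank ℚ L := by
    rw [← h1]
    exact Nat.le_mul_of_pos_left _ finrank_pos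
  have h3 : logHeight₁ (φ x) = finrank K L * logHeight₁ x := by
    rw [logHeight₁_eq_log_mulHeight₁, logHeight₁_eq_log_mulHeight₁, ← log_pow, ← h]
    rfl
  rw [h3]
  exact mul_le_mul_of_nonneg_right (by exact_mod_cast h2) (zero_le_logHeight₁ x)

theorem h_root_one (hℓ : ℓ ≠ 0) {z : K} (h : z ^ ℓ = 1) : logHeight₁ z = 0 := by
  have h1 := logHeight₁_pow z ℓ
  rw [h, logHeight₁_one] at h1
  exact (mul_eq_zero.mp h1.symm).resolve_left (by exact_mod_cast hℓ)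

/-- `∏ (1 - ζ ^ i) = ℓ` (`IsPrimitiveRoot.prod_one_sub_pow_eq_order`), or argue place by place as
in `root_eq_of_lt`. -/
theorem isU_sub_root (hℓ : ℓ ≠ 0) (hN : ℓ ∣ N) {z z' : K} (h : z ^ ℓ = 1) (h' : z' ^ ℓ = 1)
    (hz : z ≠ z') : IsU N (z - z') := by
  have hz0 : z ≠ 0 := by
    rintro rfl
    rw [zero_pow hℓ] at h
    exact zero_ne_one h
  have hzU : IsU N z := ⟨hz0, mem_RN_of_pow hℓ (by rw [h]; exact one_mem _),
    mem_RN_of_pow hℓ (by rw [inv_pow, h, inv_one]; exact one_mem _)⟩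
  have hw : (z' / z) ^ ℓ = 1 := by rw [div_pow, h, h', div_one]
  have hw1 : 1 - z' / z ≠ 0 := fun h0 => hz (by
    rw [sub_eq_zero, eq_div_iff hz0, one_mul] at h0
    exact h0)
  have e : z - z' = z * (1 - z' / z) := by field_simp
  rw [e]
  refine hzU.mul ?_
  generalize z' / z = w at hw hw1
  have hwR : w ∈ RN K N := mem_RN_of_pow hℓ (by rw [hw]; exact one_mem _)
  have hℓU : IsU N (ℓ : K) := ⟨Nat.cast_ne_zero.mpr hℓ, natCast_mem _ ℓ, fun v hv => by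
    rw [map_inv₀, fp_eq_one_of_dvd hN hv, inv_one]⟩
  have h0 : ∑ i ∈ range ℓ, w ^ i = 0 := by
    have := mul_neg_geom_sum w ℓ
    rw [hw, sub_self] at this
    exact (mul_eq_zero.mp this).resolve_left hw1
  refine hℓU.of_mul (y := ∑ i ∈ range ℓ, ∑ j ∈ range i, w ^ j) (sub_mem (one_mem _) hwR)
    (sum_mem fun i _ => sum_mem fun j _ => pow_mem hwR j) ?_
  rw [mul_sum, sum_congr rfl fun i _ => mul_neg_geom_sum w i, sum_sub_distrib, h0]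
  simp

/-- `u ^ ℓ - z ^ ℓ = (u - ω z) * ∑ u ^ i (ω z) ^ (ℓ - 1 - i)` and `IsU.of_mul`. -/
theorem isU_sub_of_pow {u z ω : K} (hu : u ∈ RN K N) (hz : z ∈ RN K N) (hℓ : ℓ ≠ 0)
    (hω : ω ^ ℓ = 1) (h : IsU N (u ^ ℓ - z ^ ℓ)) : IsU N (u - ω * z) := by
  have hωR : ω ∈ RN K N := mem_RN_of_pow hℓ (by rw [hω]; exact one_mem _)
  have hωz := mul_mem hωR hz
  refine h.of_mul (y := ∑ i ∈ range ℓ, u ^ i * (ω * z) ^ (ℓ - 1 - i)) (sub_mem hu hωz)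
    (sum_mem fun i _ => mul_mem (pow_mem hu _) (pow_mem hωz _)) ?_
  rw [mul_comm, geom_sum₂_mul, mul_pow, hω, one_mul]

/-- Siegel's identity.  All `Y i ± Y j` are units.  `u = (Y₁ - Y₂) / (Y₁ - Y₃)` and
`u' = (Y₁ + Y₂) / (Y₁ - Y₃)` solve unit equations (`Small.unit_eq`),
`u * u' = (d₂ - d₁) / (Y₁ - Y₃) ^ 2` bounds `Y₁ - Y₃`, then `Y₁ + Y₃ = (d₃ - d₁) / (Y₁ - Y₃)`,
`2 * Y₁`, `Y₁` and `t = Y₁ ^ 2 + d₁` (`h_add_le`, `h_sub_le`, `h_div_le`, `h_two_le`). -/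
theorem siegel_two : ∃ c : ℕ → ℕ, Primrec c ∧ ∀ (L : Type) [Field L] [NumberField L] (n N : ℕ)
    (t d₁ d₂ d₃ Y₁ Y₂ Y₃ : L), Small L n N → Y₁ ∈ RN L N → Y₂ ∈ RN L N → Y₃ ∈ RN L N →
    Y₁ ^ 2 = t - d₁ → Y₂ ^ 2 = t - d₂ → Y₃ ^ 2 = t - d₃ → IsU N (d₁ - d₂) → IsU N (d₁ - d₃) →
    IsU N (d₂ - d₃) → logHeight₁ d₁ ≤ n → logHeight₁ d₂ ≤ n → logHeight₁ d₃ ≤ n →
    logHeight₁ t ≤ c n := by
  refine ⟨fun n => 8 * nfC n + 18 * n,
    pr_add (pr_mul (.const _) (pr_nfC .id)) (pr_mul (.const _) .id), ?_⟩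
  intro L _ _ n N t d₁ d₂ d₃ Y₁ Y₂ Y₃ s h1 h2 h3 e1 e2 e3 u12 u13 u23 b1 b2 b3
  have a12 : IsU N (Y₁ - Y₂) :=
    u12.neg.of_mul (sub_mem h1 h2) (add_mem h1 h2) (by linear_combination e1 - e2)
  have p12 : IsU N (Y₁ + Y₂) :=
    u12.neg.of_mul (add_mem h1 h2) (sub_mem h1 h2) (by linear_combination e1 - e2)
  have a13 : IsU N (Y₁ - Y₃) :=
    u13.neg.of_mul (sub_mem h1 h3) (add_mem h1 h3) (by linear_combination e1 - e3)
  have a32 : IsU N (Y₃ - Y₂) :=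
    u23.of_mul (sub_mem h3 h2) (add_mem h3 h2) (by linear_combination e3 - e2)
  have p32 : IsU N (Y₃ + Y₂) :=
    u23.of_mul (add_mem h3 h2) (sub_mem h3 h2) (by linear_combination e3 - e2)
  have n13 := a13.1
  have n12 := a12.1
  have m12 := p12.1
  have k1 := s.unit_eq (a12.div a13) (by
    have : (Y₁ - Y₂) / (Y₁ - Y₃) - 1 = (Y₃ - Y₂) / (Y₁ - Y₃) := by field_simp; ring
    rw [this]
    exact a32.div a13)
  have k2 := s.unit_eq (p12.div a13) (by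
    have : (Y₁ + Y₂) / (Y₁ - Y₃) - 1 = (Y₃ + Y₂) / (Y₁ - Y₃) := by field_simp; ring
    rw [this]
    exact p32.div a13)
  have q1 : (Y₁ - Y₃) ^ 2 =
      (d₂ - d₁) / ((Y₁ - Y₂) / (Y₁ - Y₃) * ((Y₁ + Y₂) / (Y₁ - Y₃))) := by
    have : d₂ - d₁ = (Y₁ - Y₂) * (Y₁ + Y₂) := by linear_combination e2 - e1
    rw [this]
    field_simp
  have k3 := h_div_le (d₂ - d₁) ((Y₁ - Y₂) / (Y₁ - Y₃) * ((Y₁ + Y₂) / (Y₁ - Y₃)))
  rw [← q1, logHeight₁_pow] at k3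
  have k4 := logHeight₁_mul_le ((Y₁ - Y₂) / (Y₁ - Y₃)) ((Y₁ + Y₂) / (Y₁ - Y₃))
  have k5 := h_sub_le s.hD d₂ d₁
  have k6 := h_sub_le s.hD d₃ d₁
  have q2 : Y₁ + Y₃ = (d₃ - d₁) / (Y₁ - Y₃) := by
    rw [eq_div_iff n13]
    linear_combination e1 - e3
  have k7 := h_div_le (d₃ - d₁) (Y₁ - Y₃)
  rw [← q2] at k7
  have q3 : Y₁ = ((Y₁ - Y₃) + (Y₁ + Y₃)) / 2 := by ring
  have k8 := h_div_le ((Y₁ - Y₃) + (Y₁ + Y₃)) 2
  rw [← q3] at k8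
  have k9 := h_add_le s.hD (Y₁ - Y₃) (Y₁ + Y₃)
  have k10 := h_two_le s.hD
  have q4 : t = Y₁ ^ 2 + d₁ := by linear_combination -e1
  have k11 := h_add_le s.hD (Y₁ ^ 2) d₁
  rw [← q4, logHeight₁_pow] at k11
  push_cast at k3 k11 ⊢
  linarith

/-- `U - ζ ^ i * V` are units and
`(ζ - ζ ^ 2) (U - V) + (ζ ^ 2 - 1) (U - ζ V) + (1 - ζ) (U - ζ ^ 2 V) = 0` gives a unit equation
bounding `s = (U - ζ V) / (U - V)`.  If `V = 0` then `t = d₂`.  Otherwise `r = U / V` satisfies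
`r * (1 - s) = ζ - s`, and `t * (r ^ ℓ - 1) = d₂ * r ^ ℓ - d₁`, `ℓ ≤ N ≤ n`. -/
theorem siegel_odd : ∃ c : ℕ → ℕ, Primrec c ∧ ∀ (L : Type) [Field L] [NumberField L] (n N ℓ : ℕ)
    (ζ t d₁ d₂ U V : L), Small L n N → 3 ≤ ℓ → ℓ ∣ N → IsPrimitiveRoot ζ ℓ → U ∈ RN L N →
    V ∈ RN L N → U ^ ℓ = t - d₁ → V ^ ℓ = t - d₂ → IsU N (d₁ - d₂) → logHeight₁ d₁ ≤ n →
    logHeight₁ d₂ ≤ n → logHeight₁ t ≤ c n := by
  refine ⟨fun n => 4 * n + 2 * (n * (4 * nfC n + 6 * n)),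
    pr_add (pr_mul (.const _) .id) (pr_mul (.const _) (pr_mul .id
      (pr_add (pr_mul (.const _) (pr_nfC .id)) (pr_mul (.const _) .id)))), ?_⟩
  intro L _ _ n N ℓ ζ t d₁ d₂ U V s hℓ hN hζ hU hV e1 e2 u12 b1 b2
  have hℓ0 : ℓ ≠ 0 := by omega
  have hn0 : (0 : ℝ) ≤ n := by positivity
  have hC0 : (0 : ℝ) ≤ nfC n := by positivity
  rcases eq_or_ne V 0 with rfl | hV0
  · rw [zero_pow hℓ0, eq_comm, sub_eq_zero] at e2
    rw [e2]
    push_cast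
    have : (0 : ℝ) ≤ n * (4 * nfC n + 6 * n) := by positivity
    linarith
  have z0 : (1 : L) ^ ℓ = 1 := one_pow _
  have z1 : ζ ^ ℓ = 1 := hζ.pow_eq_one
  have z2 : (ζ ^ 2) ^ ℓ = 1 := by rw [← pow_mul, mul_comm, pow_mul, z1, one_pow]
  have n01 : (1 : L) ≠ ζ := (hζ.ne_one (by omega)).symm
  have n02 : (1 : L) ≠ ζ ^ 2 := (hζ.pow_ne_one_of_pos_of_lt two_ne_zero (by omega)).symm
  have n12 : ζ ≠ ζ ^ 2 := fun h => n01 (mul_left_cancel₀ (hζ.ne_zero hℓ0) (by rw [mul_one, ← sq, ← h]))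
  have u01 := isU_sub_root hℓ0 hN z0 z1 n01
  have u02 := isU_sub_root hℓ0 hN z0 z2 n02
  have u12' := isU_sub_root hℓ0 hN z1 z2 n12
  have hd : IsU N (U ^ ℓ - V ^ ℓ) := by
    have : U ^ ℓ - V ^ ℓ = -(d₁ - d₂) := by linear_combination e1 - e2
    rw [this]
    exact u12.neg
  have w0 := isU_sub_of_pow hU hV hℓ0 z0 hd
  have w1 := isU_sub_of_pow hU hV hℓ0 z1 hd
  have w2 := isU_sub_of_pow hU hV hℓ0 z2 hd
  rw [one_mul] at w0
  have m0 := w0.1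
  have m1 := u12'.1
  have m2 := u02.1
  have k1 := s.unit_eq ((u02.mul w1).div (u12'.mul w0)) (by
    have : (1 - ζ ^ 2) * (U - ζ * V) / ((ζ - ζ ^ 2) * (U - V)) - 1 =
        (1 - ζ) * (U - ζ ^ 2 * V) / ((ζ - ζ ^ 2) * (U - V)) := by
      rw [div_sub_one (mul_ne_zero m1 m0)]
      congr 1
      ring
    rw [this]
    exact (u01.mul w2).div (u12'.mul w0))
  have q1 : (U - ζ * V) / (U - V) =
      (1 - ζ ^ 2) * (U - ζ * V) / ((ζ - ζ ^ 2) * (U - V)) * (ζ - ζ ^ 2) / (1 - ζ ^ 2) := by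
    generalize ζ - ζ ^ 2 = a at m1
    generalize 1 - ζ ^ 2 = b at m2
    field_simp
  have k2 := h_div_le ((1 - ζ ^ 2) * (U - ζ * V) / ((ζ - ζ ^ 2) * (U - V)) * (ζ - ζ ^ 2))
    (1 - ζ ^ 2)
  rw [← q1] at k2
  have k3 := logHeight₁_mul_le ((1 - ζ ^ 2) * (U - ζ * V) / ((ζ - ζ ^ 2) * (U - V))) (ζ - ζ ^ 2)
  have k4 := h_sub_le s.hD ζ (ζ ^ 2)
  have k5 := h_sub_le s.hD 1 (ζ ^ 2)
  have k6 := h_sub_le s.hD ζ ((U - ζ * V) / (U - V))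
  have k7 := h_sub_le s.hD 1 ((U - ζ * V) / (U - V))
  rw [h_root_one hℓ0 z1, h_root_one hℓ0 z2] at k4
  rw [logHeight₁_one, h_root_one hℓ0 z2] at k5
  rw [h_root_one hℓ0 z1] at k6
  rw [logHeight₁_one] at k7
  have q2 : U / V * (1 - (U - ζ * V) / (U - V)) = ζ - (U - ζ * V) / (U - V) := by
    field_simp
    ring
  have m3 : 1 - (U - ζ * V) / (U - V) ≠ 0 := fun h => by
    rw [h, mul_zero] at q2
    exact n01 (by linear_combination h + q2)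
  have k8 := h_div_le (ζ - (U - ζ * V) / (U - V)) (1 - (U - ζ * V) / (U - V))
  rw [← eq_div_of_mul_eq m3 q2] at k8
  have k9 : logHeight₁ (U / V) ≤ 4 * nfC n + 6 * n := by linarith
  have hℓn : (ℓ : ℝ) ≤ n := by
    exact_mod_cast (Nat.le_of_dvd (Nat.pos_of_ne_zero s.hN) hN).trans s.hNn
  have k10 : logHeight₁ ((U / V) ^ ℓ) ≤ n * (4 * nfC n + 6 * n) := by
    rw [logHeight₁_pow]
    exact mul_le_mul hℓn k9 (zero_le_logHeight₁ _) hn0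
  have q3 : (U / V) ^ ℓ * (t - d₂) = t - d₁ := by
    rw [← e1, ← e2, div_pow, div_mul_cancel₀ _ (pow_ne_zero _ hV0)]
  generalize (U / V) ^ ℓ = ρ at k10 q3
  have m4 : ρ - 1 ≠ 0 := fun h => u12.1 (by
    rw [sub_eq_zero] at h
    rw [h] at q3
    linear_combination q3)
  have q4 : t = (d₂ * ρ - d₁) / (ρ - 1) := by
    rw [eq_div_iff m4]
    linear_combination q3
  have k11 := h_div_le (d₂ * ρ - d₁) (ρ - 1)
  rw [← q4] at k11
  have k12 := h_sub_le s.hD (d₂ * ρ) d₁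
  have k13 := logHeight₁_mul_le d₂ ρ
  have k14 := h_sub_le s.hD ρ 1
  rw [logHeight₁_one] at k14
  push_cast
  linarith

/-- `Y - 1` and `Y - ζ` are units, so `u = (Y - 1) / (ζ - 1)` solves the unit equation. -/
theorem siegel_unit : ∃ c : ℕ → ℕ, Primrec c ∧ ∀ (L : Type) [Field L] [NumberField L]
    (n N ℓ : ℕ) (ζ Y : L), Small L n N → 2 ≤ ℓ → ℓ ∣ N → IsPrimitiveRoot ζ ℓ → Y ∈ RN L N →
    IsU N (Y ^ ℓ - 1) → logHeight₁ (Y ^ ℓ) ≤ c n := by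
  refine ⟨fun n => n * (2 * nfC n + 2 * n),
    pr_mul .id (pr_add (pr_mul (.const _) (pr_nfC .id)) (pr_mul (.const _) .id)), ?_⟩
  intro L _ _ n N ℓ ζ Y s hℓ hN hζ hY hu
  have hℓ0 : ℓ ≠ 0 := by omega
  have z0 : (1 : L) ^ ℓ = 1 := one_pow _
  have z1 : ζ ^ ℓ = 1 := hζ.pow_eq_one
  have u10 := isU_sub_root hℓ0 hN z1 z0 (hζ.ne_one (by omega))
  have hd : IsU N (Y ^ ℓ - 1 ^ ℓ) := by rwa [z0]
  have w0 := isU_sub_of_pow hY (one_mem _) hℓ0 z0 hd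
  have w1 := isU_sub_of_pow hY (one_mem _) hℓ0 z1 hd
  rw [mul_one] at w0 w1
  have m := u10.1
  have k1 := s.unit_eq (w0.div u10) (by
    have : (Y - 1) / (ζ - 1) - 1 = (Y - ζ) / (ζ - 1) := by
      rw [div_sub_one m]
      congr 1
      ring
    rw [this]
    exact w1.div u10)
  have q1 : Y = (Y - 1) / (ζ - 1) * (ζ - 1) + 1 := by
    rw [div_mul_cancel₀ _ m]
    ring
  have k2 := h_add_le s.hD ((Y - 1) / (ζ - 1) * (ζ - 1)) 1
  rw [← q1, logHeight₁_one] at k2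
  have k3 := logHeight₁_mul_le ((Y - 1) / (ζ - 1)) (ζ - 1)
  have k4 := h_sub_le s.hD ζ 1
  rw [h_root_one hℓ0 z1, logHeight₁_one] at k4
  have hℓn : (ℓ : ℝ) ≤ n := by
    exact_mod_cast (Nat.le_of_dvd (Nat.pos_of_ne_zero s.hN) hN).trans s.hNn
  rw [logHeight₁_pow]
  push_cast
  exact mul_le_mul hℓn (by linarith) (zero_le_logHeight₁ _) (by positivity)

end Pool.Agent.Lib.MP_07b2d0_nt.Ks
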