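import Mathlib
import Pool.Agent.Lib.MP_07b2d0_nt.KH3
import Pool.Agent.Lib.MP_07b2d0_nt.KH4

set_option autoImplicit false
set_option linter.unusedSectionVars false
set_option linter.unusedVariables false

namespace Pool.Agent.Lib.MP_07b2d0_nt.Ks

open Finset Real NumberField Height Module Polynomial

/-- Elements of small height are units after enlarging `N` (`ord_eq_zero_of_height`). -/
theorem isU_of_height {K : Type} [Field K] [NumberField K] {H M : ℕ} {x : K} (hx : x ≠ 0)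
    (h : logHeight₁ x ≤ H) (hM : (3 ^ H).factorial ∣ M) : IsU M x :=
  isU_of_ord hx fun _ hv => ord_eq_zero_of_height h hM hv

theorem mem_RN_of_height {K : Type} [Field K] [NumberField K] {H M : ℕ} {x : K}
    (h : logHeight₁ x ≤ H) (hM : (3 ^ H).factorial ∣ M) : x ∈ RN K M :=
  mem_RN_iff_ord.mpr fun _ hv => (ord_eq_zero_of_height h hM hv).ge

theorem mem_RN_of_dvd {K : Type} [Field K] [NumberField K] {N M : ℕ} {x : K} (h : x ∈ RN K N)
    (hM : N ∣ M) : x ∈ RN K M :=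
  fun v hv => h v (fp_eq_one_of_dvd hM hv)

/-- The common preparation: enlarge `N` and adjoin the roots. -/
theorem kh5_setup : ∃ p : ℕ → ℕ, Primrec p ∧ ∀ (K : Type) [Field K] [NumberField K]
    (n N ℓ : ℕ) (t : K) (f : Fin 3 → K), Small K n N → ℓ ≠ 0 → ℓ ∣ N → t ∈ RN K N →
    (∀ i, t ≠ f i) → (∀ i, logHeight₁ (f i) ≤ n) →
    (∀ i (v : FinitePlace K), v (N : K) = 1 → (ℓ : ℤ) ∣ ord v (t - f i)) →
    ∃ (L : Type) (_ : Field L) (_ : NumberField L) (φ : K →+* L) (ζ : L) (M : ℕ) (Y : Fin 3 → L),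
      Small L (p n) M ∧ ℓ ∣ M ∧ IsPrimitiveRoot ζ ℓ ∧ (∀ i, Y i ∈ RN L M) ∧
      (∀ i, Y i ^ ℓ = φ t - φ (f i)) ∧ (∀ i j, f i ≠ f j → IsU M (φ (f i) - φ (f j))) ∧
      ∀ i, logHeight₁ (φ (f i)) ≤ p n := by
  obtain ⟨c, hc, H⟩ := exists_ext_pow
  have hp : Primrec fun n => c (enl n (3 * n)) :=
    hc.comp (pr_enl Primrec.id (pr_mul (.const _) Primrec.id))
  refine ⟨fun n => c (enl n (3 * n)) * c (enl n (3 * n)), pr_mul hp hp, ?_⟩
  intro K _ _ n N ℓ t f s hℓ hN ht hne hh hv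
  have s' := s.enlarge (3 * n)
  have h1 : n ≤ enl n (3 * n) := Nat.le_mul_of_pos_right _ (Nat.factorial_pos _)
  have h2 : ℓ ≤ n := (Nat.le_of_dvd (Nat.pos_of_ne_zero s.hN) hN).trans s.hNn
  have h3 : N ∣ N * (3 ^ (3 * n)).factorial := dvd_mul_right _ _
  have h4 : (3 ^ (3 * n)).factorial ∣ N * (3 ^ (3 * n)).factorial := dvd_mul_left _ _
  obtain ⟨L, _, _, φ, ζ, sL, h5, hζ, hY⟩ := H K _ _ ℓ (fun i => t - f i) s' hℓ (h2.trans h1)
    (fun i => sub_ne_zero.mpr (hne i)) fun i v e => hv i v (fp_eq_one_of_dvd h3 e)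
  choose Y hY using hY
  have h6 : ∀ i, logHeight₁ (f i) ≤ ((3 * n : ℕ) : ℝ) := fun i =>
    (hh i).trans (by exact_mod_cast (by omega : n ≤ 3 * n))
  refine ⟨L, inferInstance, inferInstance, φ, ζ, _, Y, sL.mono (Nat.le_mul_self _), hN.trans h3, hζ,
    fun i => mem_RN_of_pow hℓ ?_, fun i => by rw [hY, map_sub], fun i j hij => ?_, fun i => ?_⟩
  · rw [hY]
    exact map_mem_RN φ s'.hN (sub_mem (mem_RN_of_dvd ht h3) (mem_RN_of_height (h6 i) h4))
  · rw [← map_sub]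
    refine IsU.map φ s'.hN (isU_of_height (sub_ne_zero.mpr hij) ?_ h4)
    have := h_sub_le s.hD (f i) (f j)
    have := hh i
    have := hh j
    push_cast
    linarith
  · refine (h_map_le φ _).trans ?_
    push_cast
    refine mul_le_mul (by exact_mod_cast sL.hD) ((hh i).trans ?_) (zero_le_logHeight₁ _)
      (Nat.cast_nonneg _)
    exact_mod_cast h1.trans h5

/-- Good values.  If `t ∈ S` there is nothing to do (make `c n ≥ n`).  Enlarge `N` with `H = 3 n`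
(`Small.enlarge`) so that the `d` are integral and their differences are units, adjoin roots with
`exists_ext_pow` (repeat an element if `ℓ ≠ 2`), and apply `siegel_two` or `siegel_odd` with the
parameter `n' * n' ` where `n' = c (enl n H)` (`Small.mono`, `h_map_le`, `IsU.map`, `map_mem_RN`,
`mem_RN_of_pow`, `logHeight_le_map`). -/
theorem good_values : ∃ c : ℕ → ℕ, Primrec c ∧ ∀ (K : Type) [Field K] [NumberField K]
    (n N ℓ : ℕ) (t : K) (S : Finset K), Small K n N → ℓ.Prime → ℓ ∣ N → t ∈ RN K N →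
    2 ≤ S.card → (ℓ = 2 → 3 ≤ S.card) → (∀ d ∈ S, logHeight₁ d ≤ n) →
    (∀ d ∈ S, ∀ v : FinitePlace K, v (N : K) = 1 → (ℓ : ℤ) ∣ ord v (t - d)) →
    logHeight₁ t ≤ c n := by
  obtain ⟨p, hp, H⟩ := kh5_setup
  obtain ⟨c₂, hc₂, H₂⟩ := siegel_two
  obtain ⟨c₃, hc₃, H₃⟩ := siegel_odd
  refine ⟨fun n => n + c₂ (p n) + c₃ (p n),
    pr_add (pr_add Primrec.id (hc₂.comp hp)) (hc₃.comp hp), ?_⟩
  intro K _ _ n N ℓ t S s hℓ hN ht h2 h3 hh hv
  have e0 : (0 : ℝ) ≤ n := Nat.cast_nonneg _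
  have e2 : (0 : ℝ) ≤ c₂ (p n) := Nat.cast_nonneg _
  have e3 : (0 : ℝ) ≤ c₃ (p n) := Nat.cast_nonneg _
  push_cast
  by_cases htS : t ∈ S
  · have := hh t htS
    linarith
  have key := fun (f : Fin 3 → K) (hf : ∀ i, f i ∈ S) => H K n N ℓ t f s hℓ.ne_zero hN ht
    (fun i e => htS (e ▸ hf i)) (fun i => hh _ (hf i)) fun i => hv _ (hf i)
  by_cases hl : ℓ = 2
  · obtain ⟨a, ha, b, hb, d, hd, hab, had, hbd⟩ := Finset.two_lt_card.mp (h3 hl)
    obtain ⟨L, _, _, φ, ζ, M, Y, sL, -, -, k1, k2, k3, k4⟩ := key ![a, b, d] (by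
      intro i
      fin_cases i
      exacts [ha, hb, hd])
    subst hl
    have := H₂ L _ M (φ t) (φ a) (φ b) (φ d) (Y 0) (Y 1) (Y 2) sL (k1 0) (k1 1) (k1 2) (k2 0)
      (k2 1) (k2 2) (k3 0 1 hab) (k3 0 2 had) (k3 1 2 hbd) (k4 0) (k4 1) (k4 2)
    have := logHeight_le_map φ t
    linarith
  · obtain ⟨a, ha, b, hb, hab⟩ := Finset.one_lt_card.mp h2
    obtain ⟨L, _, _, φ, ζ, M, Y, sL, k5, k6, k1, k2, k3, k4⟩ := key ![a, b, b] (by
      intro i
      fin_cases i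
      exacts [ha, hb, hb])
    have := H₃ L _ M ℓ ζ (φ t) (φ a) (φ b) (Y 0) (Y 1) sL (by have := hℓ.two_le; omega) k5 k6
      (k1 0) (k1 1) (k2 0) (k2 1) (k3 0 1 hab) (k4 0) (k4 1)
    have := logHeight_le_map φ t
    linarith

/-- `exists_ext_pow` with the constant family and `siegel_unit`; `t = 0` is trivial. -/
theorem kum_unit : ∃ c : ℕ → ℕ, Primrec c ∧ ∀ (K : Type) [Field K] [NumberField K]
    (n N ℓ : ℕ) (t : K), Small K n N → ℓ.Prime → ℓ ∣ N → t ∈ RN K N → IsU N (t - 1) →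
    (∀ v : FinitePlace K, v (N : K) = 1 → (ℓ : ℤ) ∣ ord v t) → logHeight₁ t ≤ c n := by
  obtain ⟨c, hc, H⟩ := exists_ext_pow
  obtain ⟨c₁, hc₁, H₁⟩ := siegel_unit
  refine ⟨fun n => c₁ (c n), hc₁.comp hc, ?_⟩
  intro K _ _ n N ℓ t s hℓ hN ht hu hv
  by_cases h0 : t = 0
  · rw [h0, logHeight₁_zero]
    exact Nat.cast_nonneg _
  obtain ⟨L, _, _, φ, ζ, sL, -, hζ, hY⟩ := H K n N ℓ (fun _ => t) s hℓ.ne_zero
    ((Nat.le_of_dvd (Nat.pos_of_ne_zero s.hN) hN).trans s.hNn) (fun _ => h0) fun _ => hv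
  obtain ⟨Y, hY⟩ := hY 0
  have h1 : IsU N (Y ^ ℓ - 1) := by
    have := hu.map φ s.hN
    rwa [map_sub, map_one, ← hY] at this
  have h2 := H₁ L _ N ℓ ζ Y sL hℓ.two_le hN hζ
    (mem_RN_of_pow hℓ.ne_zero (by rw [hY]; exact map_mem_RN φ s.hN ht)) h1
  rw [hY] at h2
  exact (logHeight_le_map φ t).trans h2

end Pool.Agent.Lib.MP_07b2d0_nt.Ks
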