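import Mathlib
import Pool.Agent.Lib.MP_07b2d0_nt.KH0

set_option autoImplicit false
set_option linter.unusedSectionVars false
set_option linter.unusedVariables false

namespace Pool.Agent.Lib.MP_07b2d0_nt.Ks

open Finset Real NumberField Height Module

variable {K ι : Type} [Field K] [NumberField K] {a : ι → K}

theorem kt1_tri (v : FinitePlace K) (x y z : K) : v (x - z) ≤ max (v (x - y)) (v (y - z)) := by
  have := FinitePlace.add_le v (x - y) (y - z)
  rwa [sub_add_sub_cancel] at this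

theorem kt1_comm (v : FinitePlace K) (x y : K) : v (x - y) = v (y - x) := v.1.map_sub x y

/-- A small cross ratio comes from an edge of the tree.  Put `b m = (a m - a l)⁻¹` for `m ≠ l`, so
`v (b m - b m') = v (a m - a m') / (v (a m - a l) * v (a m' - a l))`; the hypothesis says
`v (b i - b j) < ρ := v (b i - b n)`.  Take `I = {m | m ≠ l ∧ v (b m - b i) < ρ}`.  For
`i₁, i₂ ∈ I` and `j₁ ∉ I`, `j₁ ≠ l`: `v (b i₁ - b i₂) < ρ ≤ v (b i₁ - b j₁) = v (b i - b j₁)`; treat
the cases `j₁ = l`, `j₂ = l` separately. -/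
theorem edge [Fintype ι] [DecidableEq ι] (ha : Function.Injective a) (v : FinitePlace K)
    {i j n l : ι} (hq : [i, j, n, l].Nodup) (h : v (cr a i j n l) < 1) :
    ∃ I : Finset ι, i ∈ I ∧ j ∈ I ∧ n ∉ I ∧ l ∉ I ∧ Sep (fun z => v z) a I Iᶜ := by
  obtain ⟨h1, h2, h3, h4, h5, h6⟩ := nodup4.mp hq
  let b : ι → K := fun m => (a m - a l)⁻¹
  have he : ∀ {m}, m ≠ l → 0 < v (a m - a l) := fun hm => FinitePlace.pos_iff.2 (sub_ne ha hm)
  have hb : ∀ {m m'}, m ≠ l → m' ≠ l →
      v (a m - a m') = v (b m - b m') * (v (a m - a l) * v (a m' - a l)) := by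
    intro m m' hm hm'
    have e1 := sub_ne ha hm
    have e2 := sub_ne ha hm'
    rw [← map_mul, ← map_mul, kt1_comm]
    congr 1
    simp only [b]
    field_simp
    ring
  have hρ : v (b i - b j) < v (b i - b n) := by
    have p1 := he h3
    have p2 := he h5
    have p3 := he h6
    have p4 : 0 < v (a i - a n) := FinitePlace.pos_iff.2 (sub_ne ha h2)
    rw [cr, map_div₀, map_mul, map_mul, div_lt_one (mul_pos p4 p2), hb h3 h5, hb h3 h6] at h
    refine lt_of_mul_lt_mul_right ?_ (mul_pos (mul_pos p1 p2) p3).le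
    linarith
  have hρ0 : 0 < v (b i - b n) := (apply_nonneg v _).trans_lt hρ
  let I : Finset ι := univ.filter fun m => m ≠ l ∧ v (b i - b m) < v (b i - b n)
  have hI : ∀ {m}, m ∈ I ↔ m ≠ l ∧ v (b i - b m) < v (b i - b n) := by simp [I]
  have k1 : ∀ {x y}, x ∈ I → y ∈ I → v (b x - b y) < v (b i - b n) := fun hx hy =>
    (kt1_tri v _ (b i) _).trans_lt (max_lt (kt1_comm v _ _ ▸ (hI.1 hx).2) (hI.1 hy).2)
  have k2 : ∀ {y}, y ∈ Iᶜ → y ≠ l → v (b i - b n) ≤ v (b i - b y) := fun hy hl =>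
    not_lt.1 fun h => mem_compl.1 hy (hI.2 ⟨hl, h⟩)
  have k3 : ∀ {x y}, x ∈ I → y ∈ Iᶜ → y ≠ l → v (b x - b y) = v (b i - b y) := by
    intro x y hx hy hl
    have q1 := (hI.1 hx).2.trans_le (k2 hy hl)
    refine le_antisymm ((kt1_tri v _ (b i) _).trans (max_le (kt1_comm v _ _ ▸ q1.le) le_rfl)) ?_
    exact (le_max_iff.1 (kt1_tri v (b i) (b x) (b y))).resolve_left q1.not_ge
  refine ⟨I, hI.2 ⟨h3, by simpa using hρ0⟩, hI.2 ⟨h5, hρ⟩, fun h => (hI.1 h).2.false,
    fun h => (hI.1 h).1 rfl, fun x hx x' hx' y hy y' hy' => ?_⟩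
  have l1 := (hI.1 hx).1
  have l2 := (hI.1 hx').1
  have p1 := he l1
  have p2 := he l2
  have q := k1 hx hx'
  beta_reduce
  by_cases e1 : y = l
  · by_cases e2 : y' = l
    · rw [e1, e2, sub_self, map_zero, mul_zero]
      exact mul_pos p1 p2
    · have p3 := he e2
      rw [e1, kt1_comm v (a l), hb l1 l2, hb l2 e2, k3 hx' hy' e2]
      have := mul_lt_mul_of_pos_right (q.trans_le (k2 hy' e2)) (mul_pos (mul_pos p1 p2) p3)
      linarith
  · have p3 := he e1
    by_cases e2 : y' = l
    · rw [e2, hb l1 l2, hb l1 e1, k3 hx hy e1]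
      have := mul_lt_mul_of_pos_right (q.trans_le (k2 hy e1)) (mul_pos (mul_pos p1 p2) p3)
      linarith
    · have p4 := he e2
      rw [hb l1 l2, hb l1 e1, hb l2 e2, hb e1 e2, k3 hx hy e1, k3 hx' hy' e2]
      have s1 := k2 hy e1
      have s2 := k2 hy' e2
      have s3 : v (b y - b y') ≤ max (v (b i - b y)) (v (b i - b y')) := by
        rw [kt1_comm v (b i) (b y)]
        exact kt1_tri v _ _ _
      have s4 : v (b x - b x') * v (b y - b y') < v (b i - b y) * v (b i - b y') := by
        refine (mul_le_mul_of_nonneg_left s3 (apply_nonneg v _)).trans_lt ?_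
        rcases le_total (v (b i - b y)) (v (b i - b y')) with c | c
        · rw [max_eq_right c]
          exact mul_lt_mul_of_pos_right (q.trans_le s1) (hρ0.trans_le s2)
        · rw [max_eq_left c, mul_comm (v (b i - b y))]
          exact mul_lt_mul_of_pos_right (q.trans_le s2) (hρ0.trans_le s1)
      have := mul_lt_mul_of_pos_right s4 (mul_pos (mul_pos p1 p2) (mul_pos p3 p4))
      linarith

theorem Sep.cr_lt [Fintype ι] [DecidableEq ι] (ha : Function.Injective a) {v : FinitePlace K}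
    {I : Finset ι} (h : Sep (fun z => v z) a I Iᶜ) {i j n l : ι} (hi : i ∈ I) (hj : j ∈ I)
    (hn : n ∉ I) (hl : l ∉ I) : v (cr a i j n l) < 1 := by
  have h1 := h i hi j hj n (mem_compl.2 hn) l (mem_compl.2 hl)
  beta_reduce at h1
  rw [cr, map_div₀, map_mul, map_mul,
    div_lt_one ((mul_nonneg (apply_nonneg v _) (apply_nonneg v _)).trans_lt h1)]
  exact h1

/-- Coordinates.  With `b m = cr a p m q r` one has `b p = 0`, `b q = 1` and, for `m, m' ≠ r`,
`b m - b m' = κ * (a m - a m') / ((a m - a r) * (a m' - a r))` with a constant `κ ≠ 0`.  So a cross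
ratio not involving `r` is `cr b`, and one involving `r` is a ratio of two differences of the
`b m` (`h_sub_le`, `h_div_le`, `logHeight₁_mul_le`). -/
theorem cr_of_ref {n : ℕ} (hD : finrank ℚ K ≤ n) (ha : Function.Injective a) (P : ι → Prop)
    {p q r : ι} (hpq : p ≠ q) (hpr : p ≠ r) (hqr : q ≠ r) {H : ℝ} (hH : 0 ≤ H)
    (h : ∀ m, P m → m ≠ p → m ≠ q → m ≠ r → logHeight₁ (cr a p m q r) ≤ H) {i j m l : ι}
    (hq : [i, j, m, l].Nodup) (hi : P i) (hj : P j) (hm : P m) (hl : P l) :
    logHeight₁ (cr a i j m l) ≤ 4 * n + 8 * H := by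
  obtain ⟨h1, h2, h3, h4, h5, h6⟩ := nodup4.mp hq
  let b : ι → K := fun x => cr a p x q r
  have c1 := sub_ne ha hpq
  have c2 := sub_ne ha hqr
  have c3 := sub_ne ha hpr.symm
  have hb : ∀ x, P x → logHeight₁ (b x) ≤ H := fun x hx => by
    by_cases e1 : x = p
    · simpa [b, e1, cr] using hH
    by_cases e2 : x = q
    · have : b x = 1 := by
        simp only [b, e2, cr]
        exact div_self (mul_ne_zero c1 c2)
      rw [this, logHeight₁_one]
      exact hH
    by_cases e3 : x = r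
    · simpa [b, e3, cr] using hH
    exact h x hx e1 e2 e3
  have hs : ∀ {x y}, P x → P y → logHeight₁ (b x - b y) ≤ n + 2 * H := fun {x y} hx hy => by
    have := h_sub_le hD (b x) (b y)
    linarith [hb x hx, hb y hy]
  obtain ⟨κ, hκ, key⟩ : ∃ κ : K, κ ≠ 0 ∧ ∀ {x y}, x ≠ r → y ≠ r →
      b x - b y = κ * (a x - a y) / ((a x - a r) * (a y - a r)) := by
    refine ⟨(a q - a r) * (a r - a p) / (a p - a q), div_ne_zero (mul_ne_zero c2 c3) c1,
      fun {x y} hx hy => ?_⟩
    have e1 := sub_ne ha hx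
    have e2 := sub_ne ha hy
    simp only [b, cr]
    field_simp
    ring
  have two : ∀ {x y z t} {u : K}, P x → P y → P z → P t → u = (b x - b y) / (b z - b t) →
      logHeight₁ u ≤ 4 * n + 8 * H := fun {x y z t u} hx hy hz ht e => by
    have := h_div_le (b x - b y) (b z - b t)
    have hn : (0 : ℝ) ≤ n := Nat.cast_nonneg n
    rw [e]
    linarith [hs hx hy, hs hz ht]
  have d1 := sub_ne ha h1
  have d2 := sub_ne ha h2
  have d3 := sub_ne ha h3
  have d4 := sub_ne ha h4
  have d5 := sub_ne ha h5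
  have d6 := sub_ne ha h6
  have d1' := sub_ne ha h1.symm
  have d2' := sub_ne ha h2.symm
  have d3' := sub_ne ha h3.symm
  have d4' := sub_ne ha h4.symm
  have d5' := sub_ne ha h5.symm
  have d6' := sub_ne ha h6.symm
  by_cases e1 : i = r
  · subst e1
    refine two hm hl hj hl ?_
    rw [key h2.symm h3.symm, key h1.symm h3.symm, cr]
    field_simp
    ring
  by_cases e2 : j = r
  · subst e2
    refine two hm hl hm hi ?_
    rw [key h4.symm h5.symm, key h4.symm h1, cr]
    field_simp
    ring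
  by_cases e3 : m = r
  · subst e3
    refine two hi hj hl hj ?_
    rw [key h2 h4, key h6.symm h4, cr]
    field_simp
    ring
  by_cases e4 : l = r
  · subst e4
    refine two hi hj hi hm ?_
    rw [key h3 h5, key h3 h6, cr]
    field_simp
  have f1 := sub_ne ha e1
  have f2 := sub_ne ha e2
  have f3 := sub_ne ha e3
  have f4 := sub_ne ha e4
  have e : cr a i j m l = (b i - b j) * (b m - b l) / ((b i - b m) * (b j - b l)) := by
    rw [key e1 e2, key e3 e4, key e1 e3, key e2 e4, cr]
    field_simp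
  have t1 := h_div_le ((b i - b j) * (b m - b l)) ((b i - b m) * (b j - b l))
  have t2 := logHeight₁_mul_le (b i - b j) (b m - b l)
  have t3 := logHeight₁_mul_le (b i - b m) (b j - b l)
  rw [e]
  linarith [hs hi hj, hs hm hl, hs hi hm, hs hj hl]

end Pool.Agent.Lib.MP_07b2d0_nt.Ks
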