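import Mathlib
import Pool.Agent.Lib.MP_07b2d0_nt.KH0

set_option autoImplicit false
set_option linter.unusedSectionVars false
set_option linter.unusedVariables false

namespace Pool.Agent.Lib.MP_07b2d0_nt.Ks

open Finset

theorem kt2_cases : ∀ c : ZMod 2, c = 0 ∨ c = 1 := by decide

theorem kt2_add : ∀ c : ZMod 2, c + c = 0 := by decide

variable {ℓ m : ℕ} [Fact ℓ.Prime]

theorem Par.refl (u : Fin m → ZMod ℓ) : Par u u := by
  exact ⟨1, (one_smul _ _).symm⟩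

theorem Par.symm {u u' : Fin m → ZMod ℓ} (h : Par u u') (h0 : u' ≠ 0) : Par u' u := by
  obtain ⟨c, rfl⟩ := h
  have hc : c ≠ 0 := by
    rintro rfl
    exact h0 (zero_smul _ _)
  exact ⟨c⁻¹, by rw [smul_smul, inv_mul_cancel₀ hc, one_smul]⟩

theorem Par.trans {u u' u'' : Fin m → ZMod ℓ} (h : Par u u') (h' : Par u' u'') : Par u u'' := by
  obtain ⟨c, rfl⟩ := h
  obtain ⟨c', rfl⟩ := h'
  exact ⟨c' * c, by rw [smul_smul]⟩

theorem dvd_wt_iff {ι : Type} (e : Fin m → ι → ℕ) (t : Fin m → ZMod ℓ) (i : ι) :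
    ℓ ∣ wt e (fun j => (t j).val) i ↔ t ⬝ᵥ col ℓ e i = 0 := by
  rw [← ZMod.natCast_eq_zero_iff]
  have : ((wt e (fun j => (t j).val) i : ℕ) : ZMod ℓ) = t ⬝ᵥ col ℓ e i := by
    simp [wt, col, dotProduct]
  rw [this]

/-- A functional killing `s` but not `u` (`Submodule.exists_dual_map_eq_bot_of_notMem` or a direct
construction with two coordinates); functionals on `Fin m → ZMod ℓ` are dot products. -/
theorem exists_dot {s u : Fin m → ZMod ℓ} (h : ¬ Par s u) :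
    ∃ t : Fin m → ZMod ℓ, t ⬝ᵥ s = 0 ∧ t ⬝ᵥ u ≠ 0 := by
  by_cases hs : s = 0
  · subst hs
    have hu : u ≠ 0 := by
      rintro rfl
      exact h (Par.refl _)
    obtain ⟨j, hj⟩ := Function.ne_iff.mp hu
    exact ⟨Pi.single j 1, by simp, by simpa using hj⟩
  · obtain ⟨j0, hj0⟩ := Function.ne_iff.mp hs
    have hj0' : s j0 ≠ 0 := by simpa using hj0
    have hne : u ≠ (u j0 / s j0) • s := fun hh => h ⟨_, hh⟩
    obtain ⟨j, hj⟩ := Function.ne_iff.mp hne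
    refine ⟨Pi.single j (s j0) - Pi.single j0 (s j), ?_, ?_⟩
    · simp [sub_dotProduct, mul_comm]
    · simp only [sub_dotProduct, single_dotProduct]
      intro hh
      apply hj
      simp only [Pi.smul_apply, smul_eq_mul]
      field_simp
      linear_combination hh

/-- One of `t₁`, `t₂`, `t₁ + t₂` works. -/
theorem exists_dot_two {s u u' : Fin m → ZMod ℓ} (h : ¬ Par s u) (h' : ¬ Par s u') :
    ∃ t : Fin m → ZMod ℓ, t ⬝ᵥ s = 0 ∧ t ⬝ᵥ u ≠ 0 ∧ t ⬝ᵥ u' ≠ 0 := by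
  obtain ⟨t₁, a₁, b₁⟩ := exists_dot h
  obtain ⟨t₂, a₂, b₂⟩ := exists_dot h'
  by_cases c₁ : t₁ ⬝ᵥ u' = 0
  · by_cases c₂ : t₂ ⬝ᵥ u = 0
    · refine ⟨t₁ + t₂, ?_, ?_, ?_⟩
      · rw [add_dotProduct, a₁, a₂, add_zero]
      · rw [add_dotProduct, c₂, add_zero]; exact b₁
      · rw [add_dotProduct, c₁, zero_add]; exact b₂
    · exact ⟨t₂, a₂, c₂, b₂⟩
  · exact ⟨t₁, a₁, b₁, c₁⟩

/-- For `ℓ = 2`: apply `exists_dot_two` cleverly (if two of the vectors agree use `s = 0`; else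
take `s = u₁ + u₂`, `u = u₁`, `u' = u₃`).  For `ℓ ≠ 2`: take `t` nonzero on `u₁, u₂` and `t'`
nonzero on `u₃`; one of `t`, `t'`, `t + t'`, `t - t'` works. -/
theorem exists_dot_three {u₁ u₂ u₃ : Fin m → ZMod ℓ} (h₁ : u₁ ≠ 0) (h₂ : u₂ ≠ 0) (h₃ : u₃ ≠ 0)
    (h : ℓ = 2 → u₁ + u₂ + u₃ ≠ 0) :
    ∃ t : Fin m → ZMod ℓ, t ⬝ᵥ u₁ ≠ 0 ∧ t ⬝ᵥ u₂ ≠ 0 ∧ t ⬝ᵥ u₃ ≠ 0 := by
  have hz : ∀ u : Fin m → ZMod ℓ, u ≠ 0 → ¬ Par 0 u := by
    rintro u hu ⟨c, hc⟩
    exact hu (by rw [hc, smul_zero])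
  by_cases h2 : ℓ = 2
  · have h' := h h2
    subst h2
    have hc : ∀ c : ZMod 2, c = 0 ∨ c = 1 := kt2_cases
    have two : ∀ u : Fin m → ZMod 2, u + u = 0 := by
      intro u
      funext j
      exact kt2_add _
    have p₁ : ¬ Par (u₁ + u₂) u₁ := by
      rintro ⟨c, hc'⟩
      rcases hc c with rfl | rfl
      · exact h₁ (by rw [hc', zero_smul])
      · rw [one_smul] at hc'
        exact h₂ (by simpa using hc')
    have p₃ : ¬ Par (u₁ + u₂) u₃ := by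
      rintro ⟨c, hc'⟩
      rcases hc c with rfl | rfl
      · exact h₃ (by rw [hc', zero_smul])
      · rw [one_smul] at hc'
        exact h' (by rw [hc']; exact two _)
    obtain ⟨t, a, b, c⟩ := exists_dot_two p₁ p₃
    refine ⟨t, b, ?_, c⟩
    intro hh
    rw [dotProduct_add, hh, add_zero] at a
    exact b a
  · obtain ⟨t, -, b₁, b₂⟩ := exists_dot_two (hz _ h₁) (hz _ h₂)
    obtain ⟨t', -, b₃⟩ := exists_dot (hz _ h₃)
    have htwo : (2 : ZMod ℓ) ≠ 0 := by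
      intro hh
      have : ((2 : ℕ) : ZMod ℓ) = 0 := by exact_mod_cast hh
      rw [ZMod.natCast_eq_zero_iff] at this
      exact h2 ((Nat.prime_dvd_prime_iff_eq Fact.out Nat.prime_two).mp this)
    by_cases c₃ : t ⬝ᵥ u₃ = 0
    swap
    · exact ⟨t, b₁, b₂, c₃⟩
    by_cases d : t' ⬝ᵥ u₁ ≠ 0 ∧ t' ⬝ᵥ u₂ ≠ 0
    · exact ⟨t', d.1, d.2, b₃⟩
    by_cases d' : (t + t') ⬝ᵥ u₁ ≠ 0 ∧ (t + t') ⬝ᵥ u₂ ≠ 0
    · refine ⟨t + t', d'.1, d'.2, ?_⟩
      rw [add_dotProduct, c₃, zero_add]; exact b₃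
    simp only [add_dotProduct, not_and_or, not_not] at d d'
    refine ⟨t - t', ?_, ?_, ?_⟩
    · rw [sub_dotProduct]
      intro hh
      rcases d with d | d
      · exact b₁ (by linear_combination hh + d)
      · rcases d' with d' | d'
        · exact mul_ne_zero htwo b₁ (by linear_combination hh + d')
        · exact b₂ (by linear_combination d' - d)
    · rw [sub_dotProduct]
      intro hh
      rcases d with d | d
      · rcases d' with d' | d'
        · exact b₁ (by linear_combination d' - d)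
        · exact mul_ne_zero htwo b₂ (by linear_combination hh + d')
      · exact b₂ (by linear_combination hh + d)
    · rw [sub_dotProduct, c₃, zero_sub]; exact neg_ne_zero.mpr b₃

/-- One side of an edge is monochromatic.  Otherwise let `s = ∑ i ∈ I, col i`; of two non parallel
nonzero colours on one side, one is not on the line of `s`.  Take `t` from `exists_dot_two` and
apply `Loc1` for the weights `wt e (val ∘ t)` to the active parts of `I` and `Iᶜ`. -/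
theorem colour {ι k : Type} [Fintype ι] [DecidableEq ι] [Field k] {ν : k → ℝ} {a : ι → k}
    (e : Fin m → ι → ℕ) (h0 : ∀ i, col ℓ e i ≠ 0) (hL : ∀ t, Loc1 ν ℓ a (wt e t)) {I : Finset ι}
    (hS : Sep ν a I Iᶜ) : (∀ i ∈ I, ∀ i' ∈ I, Par (col ℓ e i) (col ℓ e i')) ∨
      ∀ j ∉ I, ∀ j' ∉ I, Par (col ℓ e j) (col ℓ e j') := by
  by_contra hcon
  rw [not_or] at hcon
  obtain ⟨hA, hB⟩ := hcon
  push Not at hA hB
  obtain ⟨i, hi, i', hi', hii⟩ := hA
  obtain ⟨j, hj, j', hj', hjj⟩ := hB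
  set s : Fin m → ZMod ℓ := ∑ i ∈ I, col ℓ e i with hs
  have key : ∀ x y : ι, ¬ Par (col ℓ e x) (col ℓ e y) →
      ¬ Par s (col ℓ e x) ∨ ¬ Par s (col ℓ e y) := by
    intro x y hxy
    by_contra hh
    rw [not_or, not_not, not_not] at hh
    exact hxy ((hh.1.symm (h0 x)).trans hh.2)
  obtain ⟨p, hp, hp'⟩ : ∃ p ∈ I, ¬ Par s (col ℓ e p) := by
    rcases key i i' hii with h | h
    · exact ⟨i, hi, h⟩
    · exact ⟨i', hi', h⟩
  obtain ⟨q, hq, hq'⟩ : ∃ q ∉ I, ¬ Par s (col ℓ e q) := by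
    rcases key j j' hjj with h | h
    · exact ⟨j, hj, h⟩
    · exact ⟨j', hj', h⟩
  obtain ⟨t, ht, htp, htq⟩ := exists_dot_two hp' hq'
  set w : ι → ℕ := wt e (fun j => (t j).val) with hw
  have hwd : ∀ x, ℓ ∣ w x ↔ t ⬝ᵥ col ℓ e x = 0 := fun x => dvd_wt_iff e t x
  refine hL (fun j => (t j).val) (I.filter fun x => ¬ ℓ ∣ w x) (Iᶜ.filter fun x => ¬ ℓ ∣ w x)
    ?_ ?_ ?_ ?_ ?_ ?_
  · exact Finset.disjoint_filter_filter disjoint_compl_right
  · intro x
    simp only [Finset.mem_filter, Finset.mem_compl]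
    constructor
    · intro hx
      by_cases hxI : x ∈ I
      · exact Or.inl ⟨hxI, hx⟩
      · exact Or.inr ⟨hxI, hx⟩
    · rintro (hx | hx) <;> exact hx.2
  · exact ⟨p, Finset.mem_filter.mpr ⟨hp, by rw [hwd]; exact htp⟩⟩
  · exact ⟨q, Finset.mem_filter.mpr ⟨Finset.mem_compl.mpr hq, by rw [hwd]; exact htq⟩⟩
  · have hall : ℓ ∣ ∑ x ∈ I, w x := by
      rw [← ZMod.natCast_eq_zero_iff, Nat.cast_sum]
      have : ∀ x, ((w x : ℕ) : ZMod ℓ) = t ⬝ᵥ col ℓ e x := by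
        intro x
        simp [hw, wt, col, dotProduct]
      simp only [this]
      rw [← dotProduct_sum]
      exact ht
    have hsplit := Finset.sum_filter_add_sum_filter_not I (fun x => ℓ ∣ w x) w
    have hrest : ℓ ∣ ∑ x ∈ I.filter (fun x => ℓ ∣ w x), w x :=
      Finset.dvd_sum fun x hx => (Finset.mem_filter.mp hx).2
    rw [← hsplit] at hall
    exact (Nat.dvd_add_right hrest).mp hall
  · intro x hx x' hx' y hy y' hy'
    exact hS x (Finset.mem_filter.mp hx).1 x' (Finset.mem_filter.mp hx').1 y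
      (Finset.mem_filter.mp hy).1 y' (Finset.mem_filter.mp hy').1

end Pool.Agent.Lib.MP_07b2d0_nt.Ks
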