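import Mathlib
import Pool.Agent.Lib.MP_07b2d0_nt.KT1
import Pool.Agent.Lib.MP_07b2d0_nt.KT2
import Pool.Agent.Lib.MP_07b2d0_nt.KH5

set_option autoImplicit false
set_option linter.unusedSectionVars false
set_option linter.unusedVariables false

namespace Pool.Agent.Lib.MP_07b2d0_nt.Ks

open Finset Real NumberField Height Module

section

variable {K ι : Type} [Field K] [NumberField K] [Fintype ι] {a : ι → K} {ℓ m N n : ℕ}
  [Fact ℓ.Prime] {e : Fin m → ι → ℕ}

theorem kt3_inv {x : K} (h : ∀ v : FinitePlace K, v (N : K) = 1 → 1 ≤ v x) : x⁻¹ ∈ RN K N :=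
  fun v hv => by
    rw [map_inv₀]
    exact inv_le_one_of_one_le₀ (h v hv)

theorem kt3_int {i j p l : ι} (h : ∀ v : FinitePlace K, v (N : K) = 1 → 1 ≤ v (cr a i p j l)) :
    cr a i j p l ∈ RN K N := by
  rw [← cr_inv]
  exact kt3_inv h

theorem kt3_one (ha : Function.Injective a) {i j p l : ι} (hq : [i, j, p, l].Nodup)
    (h1 : cr a i j p l ∈ RN K N)
    (h : ∀ v : FinitePlace K, v (N : K) = 1 → 1 ≤ v (cr a i l p j)) :
    IsU N (cr a i j p l - 1) := by
  refine ⟨?_, sub_mem h1 (one_mem _), ?_⟩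
  · rw [cr_sub_one ha hq]
    exact neg_ne_zero.mpr (cr_ne_zero ha (nodup_swap hq))
  · rw [cr_sub_one ha hq, inv_neg]
    exact neg_mem (kt3_inv h)

theorem kt3_three (s : Small K n N) (ha : Function.Injective a) {i j p l : ι}
    (hq : [i, j, p, l].Nodup)
    (h1 : ∀ v : FinitePlace K, v (N : K) = 1 → 1 ≤ v (cr a i j p l))
    (h2 : ∀ v : FinitePlace K, v (N : K) = 1 → 1 ≤ v (cr a i p j l))
    (h3 : ∀ v : FinitePlace K, v (N : K) = 1 → 1 ≤ v (cr a i l p j)) :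
    logHeight₁ (cr a i j p l) ≤ 2 * nfC n :=
  s.unit_eq ⟨cr_ne_zero ha hq, kt3_int h2, kt3_inv h1⟩ (kt3_one ha hq (kt3_int h2) h3)

/-- `edge` and `colour`. -/
theorem no_edge (ha : Function.Injective a) (h0 : ∀ i, col ℓ e i ≠ 0)
    (hL : ∀ t, LocK ℓ N a (wt e t)) {i j p l : ι} (hq : [i, j, p, l].Nodup)
    (h1 : ¬ Par (col ℓ e i) (col ℓ e j)) (h2 : ¬ Par (col ℓ e p) (col ℓ e l)) {v : FinitePlace K}
    (hv : v (N : K) = 1) : 1 ≤ v (cr a i j p l) := by
  classical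
  by_contra hlt
  obtain ⟨I, hi, hj, hp, hl, hS⟩ := edge ha v hq (not_le.mp hlt)
  rcases colour e h0 (fun t => (hL t v hv).1) hS with h | h
  · exact h1 (h i hi j hj)
  · exact h2 (h p hp l hl)

/-- Four pairwise non parallel colours: `cr`, its inverse (`cr_inv`) and `cr - 1` (`cr_sub_one`)
satisfy `no_edge`; use `Small.unit_eq` or `Small.cr_le_of_units`. -/
theorem pattern_a (s : Small K n N) (ha : Function.Injective a) (h0 : ∀ i, col ℓ e i ≠ 0)
    (hL : ∀ t, LocK ℓ N a (wt e t)) {i j p l : ι} (hq : [i, j, p, l].Nodup)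
    (h : [i, j, p, l].Pairwise fun x y => ¬ Par (col ℓ e x) (col ℓ e y)) :
    logHeight₁ (cr a i j p l) ≤ 2 * nfC n := by
  simp only [List.pairwise_cons, List.mem_cons, List.not_mem_nil, or_false, forall_eq_or_imp,
    forall_eq] at h
  obtain ⟨⟨hij, hip, hil⟩, ⟨hjp, hjl⟩, hpl, -⟩ := h
  exact kt3_three s ha hq (fun v hv => no_edge ha h0 hL hq hij hpl hv)
    (fun v hv => no_edge ha h0 hL (nodup_swap' hq) hip hjl hv)
    (fun v hv => no_edge ha h0 hL (nodup_swap hq) hil (fun h => hjp (h.symm (h0 j))) hv)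

/-- After enlarging `N` with `H` the cross ratio `cr a i i' j j'` is a unit
(`isU_of_height`).  An edge with `i, i' ∈ I`, `j, l ∉ I` has `I` monochromatic (`colour`), so
`j' ∉ I` and `Sep.cr_lt` gives a contradiction; the other two edges are excluded by `no_edge`. -/
theorem pattern_c (s : Small K n N) (ha : Function.Injective a) (h0 : ∀ i, col ℓ e i ≠ 0)
    (hL : ∀ t, LocK ℓ N a (wt e t)) {i i' j j' l : ι} (hi : i ≠ i') (hj : j ≠ j')
    (h1 : Par (col ℓ e i) (col ℓ e i')) (h2 : Par (col ℓ e j) (col ℓ e j'))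
    (h3 : ¬ Par (col ℓ e i) (col ℓ e j)) (h4 : ¬ Par (col ℓ e i) (col ℓ e l))
    (h5 : ¬ Par (col ℓ e j) (col ℓ e l)) {H : ℕ} (hH : logHeight₁ (cr a i i' j j') ≤ H) :
    logHeight₁ (cr a i i' j l) ≤ 2 * nfC (enl n H) := by
  classical
  have h3' : ¬ Par (col ℓ e i) (col ℓ e j') := fun h => h3 (h.trans (h2.symm (h0 j')))
  have hij : i ≠ j := by rintro rfl; exact h3 (Par.refl _)
  have hi'j : i' ≠ j := by rintro rfl; exact h3 h1
  have hq : [i, i', j, l].Nodup := nodup4.mpr ⟨hi, hij, by rintro rfl; exact h4 (Par.refl _), hi'j,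
    by rintro rfl; exact h4 h1, by rintro rfl; exact h5 (Par.refl _)⟩
  have hq' : [i, i', j, j'].Nodup := nodup4.mpr ⟨hi, hij, by rintro rfl; exact h3' (Par.refl _),
    hi'j, by rintro rfl; exact h3' h1, hj⟩
  have hL' : ∀ t, LocK ℓ (N * (3 ^ H).factorial) a (wt e t) := fun t =>
    (hL t).mono (dvd_mul_right _ _)
  have hU : IsU (N * (3 ^ H).factorial) (cr a i i' j j') :=
    isU_of_height (cr_ne_zero ha hq') hH (dvd_mul_left _ _)
  refine kt3_three (s.enlarge H) ha hq (fun v hv => ?_)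
    (fun v hv => no_edge ha h0 hL' (nodup_swap' hq) h3 (fun h => h4 (h1.trans h)) hv)
    (fun v hv => no_edge ha h0 hL' (nodup_swap hq) h4
      (fun h => h3 (h1.trans (h.symm (h0 i')))) hv)
  by_contra hlt
  obtain ⟨I, m1, m2, m3, m4, hS⟩ := edge ha v hq (not_le.mp hlt)
  rcases colour e h0 (fun t => (hL' t v hv).1) hS with h | h
  · have m5 : j' ∉ I := fun m => h3' (h i m1 j' m)
    have e1 := hS.cr_lt ha m1 m2 m3 m5
    have e2 := hU.2.2 v hv
    rw [map_inv₀] at e2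
    have e3 : 0 < v (cr a i i' j j') := FinitePlace.pos_iff.mpr hU.1
    exact absurd ((inv_le_one₀ e3).mp e2) (not_le.mpr e1)
  · exact h5 (h j m3 l m4)

end

/-- `no_edge` for `cr a i p j l = (cr a i j p l)⁻¹` and `cr a i l p j = 1 - cr a i j p l` shows that
`t = cr a i j p l` is integral and `t - 1` is a unit; `exists_dot_three`, `dvd_wt_iff` and the
second part of `LocK` give `ℓ ∣ ord v t`; apply `kum_unit`. -/
theorem pattern_b : ∃ c : ℕ → ℕ, Primrec c ∧ ∀ (K ι : Type) [Field K] [NumberField K]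
    [Fintype ι] (n N ℓ m : ℕ) [Fact ℓ.Prime] (a : ι → K) (e : Fin m → ι → ℕ) (i j p l : ι),
    Small K n N → ℓ ∣ N → Function.Injective a → (∀ i, col ℓ e i ≠ 0) →
    (∀ t, LocK ℓ N a (wt e t)) → [i, j, p, l].Nodup → Par (col ℓ e i) (col ℓ e j) →
    ¬ Par (col ℓ e i) (col ℓ e p) → ¬ Par (col ℓ e i) (col ℓ e l) →
    (ℓ = 2 → col ℓ e i + col ℓ e p + col ℓ e l ≠ 0) → logHeight₁ (cr a i j p l) ≤ c n := by
  obtain ⟨c, hc, h⟩ := kum_unit
  refine ⟨c, hc, ?_⟩
  intro K ι _ _ _ n N ℓ m hp a e i j p l s hN ha h0 hL hq h1 h2 h3 h4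
  have e1 : cr a i j p l ∈ RN K N :=
    kt3_int fun v hv => no_edge ha h0 hL (nodup_swap' hq) h2 (fun h => h3 (h1.trans h)) hv
  refine h K n N ℓ _ s hp.out hN e1 (kt3_one ha hq e1 fun v hv => no_edge ha h0 hL
    (nodup_swap hq) h3 (fun h => h2 (h1.trans (h.symm (h0 j)))) hv) fun v hv => ?_
  obtain ⟨t, t1, t2, t3⟩ := exists_dot_three (h0 i) (h0 p) (h0 l) h4
  have t4 : t ⬝ᵥ col ℓ e j ≠ 0 := by
    obtain ⟨d, hd⟩ := h1.symm (h0 j)
    intro h5
    apply t1
    rw [hd, dotProduct_smul, h5, smul_zero]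
  exact (hL (fun j => (t j).val) v hv).2 i j p l hq (fun h => t1 ((dvd_wt_iff e t i).mp h))
    (fun h => t4 ((dvd_wt_iff e t j).mp h)) (fun h => t2 ((dvd_wt_iff e t p).mp h))
    (fun h => t3 ((dvd_wt_iff e t l).mp h))

end Pool.Agent.Lib.MP_07b2d0_nt.Ks
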