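import Mathlib
import Pool.Agent.Lib.MP_07b2d0_nt.KT3

set_option autoImplicit false
set_option linter.unusedSectionVars false
set_option linter.unusedVariables false

namespace Pool.Agent.Lib.MP_07b2d0_nt.Ks

open Finset Real NumberField Height Module

theorem kt4_klein {K ι : Type} [Field K] (a : ι → K) (i j k l : ι) :
    cr a k l i j = cr a i j k l := by
  unfold cr
  rw [show (a k - a i) * (a l - a j) = (a i - a k) * (a j - a l) by ring, mul_comm (a k - a l)]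

theorem kt4_eq {m : ℕ} {u u' : Fin m → ZMod 2} (h : Par u u') (h0 : u' ≠ 0) : u' = u := by
  obtain ⟨c, rfl⟩ := h
  have : ∀ c : ZMod 2, c = 0 ∨ c = 1 := by decide
  rcases this c with rfl | rfl
  · simp at h0
  · simp

theorem kt4_two {m : ℕ} (u : Fin m → ZMod 2) : u + u = 0 := by
  funext x
  have : ∀ c : ZMod 2, c + c = 0 := by decide
  exact this _

theorem kt4_ne {ℓ m : ℕ} {u v v' : Fin m → ZMod ℓ} (hu : u ≠ 0) (h : Par v v') (h0 : v' ≠ 0)
    (h2 : ℓ = 2) : u + v + v' ≠ 0 := by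
  subst h2
  rw [kt4_eq h h0, add_assoc, kt4_two, add_zero]
  exact hu

/-- Two lines with at least two points each.  Let `c` be the bound of `pattern_b`.  Reference
triple `(i, i', j)`, i.e. bound `cr a i l i' j` for every other `l` and finish with `cr_of_ref`
(`P = True`).  A bound for one ordering of four points gives a bound for all orderings
(`cr_of_ref` with `P` the set of these four points and suitable reference points, or `cr_inv`,
`cr_sub_one`).  If `l ∥ j` use `pattern_b` for `(i, i', j, l)` (for `ℓ = 2` parallel nonzero colours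
are equal).  If `l` is parallel to neither use `pattern_c`.  If `l ∥ i` use `pattern_b` for
`(i, l, j, j')` and `(i, i', j, j')`, and `cr_of_ref` with `P = {i, i', j, j', l}` and the reference
triple `(i, j, j')`. -/
theorem case_two : ∃ c : ℕ → ℕ, Primrec c ∧ ∀ (K ι : Type) [Field K] [NumberField K]
    [Fintype ι] (n N ℓ m : ℕ) [Fact ℓ.Prime] (a : ι → K) (e : Fin m → ι → ℕ) (i i' j j' : ι),
    Small K n N → ℓ ∣ N → Function.Injective a → (∀ i, col ℓ e i ≠ 0) →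
    (∀ t, LocK ℓ N a (wt e t)) → i ≠ i' → j ≠ j' → Par (col ℓ e i) (col ℓ e i') →
    Par (col ℓ e j) (col ℓ e j') → ¬ Par (col ℓ e i) (col ℓ e j) →
    ∀ p q r s, [p, q, r, s].Nodup → logHeight₁ (cr a p q r s) ≤ c n := by
  obtain ⟨c, hc, hb⟩ := pattern_b
  refine ⟨fun n => 4 * n + 8 * (c n + 2 * nfC (enl n (c n)) + (4 * n + 8 * c n)),
    pr_add (pr_mul (.const _) .id) (pr_mul (.const _) (pr_add (pr_add hc (pr_mul (.const _)
      (pr_nfC (pr_enl .id hc)))) (pr_add (pr_mul (.const _) .id) (pr_mul (.const _) hc)))), ?_⟩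
  intro K ι _ _ _ n N ℓ m _ a e i i' j j' s hN ha h0 hL hi hj h1 h2 h3 p q r t hq
  have ne : ∀ {x y : ι}, ¬ Par (col ℓ e x) (col ℓ e y) → x ≠ y := fun h hxy =>
    h (hxy ▸ Par.refl _)
  have sy : ∀ {x y : ι}, Par (col ℓ e x) (col ℓ e y) → Par (col ℓ e y) (col ℓ e x) := fun h =>
    h.symm (h0 _)
  have h3' : ¬ Par (col ℓ e i) (col ℓ e j') := fun h => h3 (h.trans (sy h2))
  have key : ∀ x, x ≠ i → Par (col ℓ e i) (col ℓ e x) → logHeight₁ (cr a i x j j') ≤ c n := by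
    intro x hx hp
    refine hb K ι n N ℓ m a e i x j j' s hN ha h0 hL ?_ hp h3 h3' (kt4_ne (h0 _) h2 (h0 _))
    exact nodup4.2 ⟨hx.symm, ne h3, ne h3', ne fun h => h3 (hp.trans h),
      ne fun h => h3' (hp.trans h), hj⟩
  have c0 : (0 : ℝ) ≤ c n := Nat.cast_nonneg _
  have c1 : (0 : ℝ) ≤ nfC (enl n (c n)) := Nat.cast_nonneg _
  have c2 : (0 : ℝ) ≤ n := Nat.cast_nonneg _
  have hji : ¬ Par (col ℓ e j) (col ℓ e i) := fun h => h3 (sy h)
  have hji' : ¬ Par (col ℓ e j) (col ℓ e i') := fun h => h3 (h1.trans (sy h))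
  have := cr_of_ref s.hD ha (fun _ => True) (ne hji) (ne hji') hi
    (H := c n + 2 * nfC (enl n (c n)) + (4 * n + 8 * c n)) (by positivity) (fun l _ l1 l2 l3 => ?_)
    hq trivial trivial trivial trivial
  · push_cast
    exact this
  have nd : [j, l, i, i'].Nodup := nodup4.2 ⟨l1.symm, ne hji, ne hji', l2, l3, hi⟩
  by_cases hjl : Par (col ℓ e j) (col ℓ e l)
  · have := hb K ι n N ℓ m a e j l i i' s hN ha h0 hL nd hjl hji hji' (kt4_ne (h0 _) h1 (h0 _))
    linarith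
  by_cases hil : Par (col ℓ e i) (col ℓ e l)
  · have := cr_of_ref s.hD ha (fun x => x = i ∨ x = j ∨ Par (col ℓ e i) (col ℓ e x)) (ne h3) (ne h3')
      hj c0 (fun x hx x1 x2 _ => key x x1 ((hx.resolve_left x1).resolve_left x2)) nd
      (.inr (.inl rfl)) (.inr (.inr hil)) (.inl rfl) (.inr (.inr h1))
    linarith
  · have := pattern_c s ha h0 hL hi hj h1 h2 h3 hil hjl (key i' hi.symm h1)
    rw [kt4_klein]
    linarith

/-- If `case_two` does not apply, at most one line carries two points.  If none does, use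
`pattern_a` directly.  Otherwise let `i₀ ≠ i₁` be parallel and `U = {l | ¬ Par (col i₀) (col l)}`;
a point of `U` is parallel to no other point.  `U` is nonempty by `hrk`, not a singleton because
the colours add up to zero.  If `U` has three points use them as reference triple with
`pattern_a`.  If `U = {p, l}` use the reference triple `(i₀, p, l)` with `pattern_b` for
`(i₀, i, p, l)`; for `ℓ = 2` all colours outside `U` are equal, and `hex` applies. -/
theorem global_col : ∃ c : ℕ → ℕ, Primrec c ∧ ∀ (K ι : Type) [Field K] [NumberField K]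
    [Fintype ι] (n N ℓ m : ℕ) [Fact ℓ.Prime] (a : ι → K) (e : Fin m → ι → ℕ),
    Small K n N → ℓ ∣ N → Function.Injective a → (∀ i, col ℓ e i ≠ 0) →
    (∀ t, LocK ℓ N a (wt e t)) → ∑ i, col ℓ e i = 0 →
    (∃ i j, ¬ Par (col ℓ e i) (col ℓ e j)) →
    (ℓ = 2 → ∀ p l, p ≠ l → ∃ i, i ≠ p ∧ i ≠ l ∧ col ℓ e i ≠ col ℓ e p + col ℓ e l) →
    ∀ p q r s, [p, q, r, s].Nodup → logHeight₁ (cr a p q r s) ≤ c n := by
  classical
  obtain ⟨c, hc, hb⟩ := pattern_b
  obtain ⟨d, hd, h2⟩ := case_two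
  refine ⟨fun n => d n + (4 * n + 8 * (c n + 2 * nfC n)), pr_add hd (pr_add (pr_mul (.const _) .id)
    (pr_mul (.const _) (pr_add hc (pr_mul (.const _) (pr_nfC .id))))), ?_⟩
  intro K ι _ _ _ n N ℓ m _ a e s hN ha h0 hL hsum hrk hex p q r t hq
  have c0 : (0 : ℝ) ≤ c n := Nat.cast_nonneg _
  have c1 : (0 : ℝ) ≤ nfC n := Nat.cast_nonneg _
  have c2 : (0 : ℝ) ≤ n := Nat.cast_nonneg _
  have c3 : (0 : ℝ) ≤ d n := Nat.cast_nonneg _
  push_cast
  have ne : ∀ {x y : ι}, ¬ Par (col ℓ e x) (col ℓ e y) → x ≠ y := fun h hxy =>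
    h (hxy ▸ Par.refl _)
  have sy : ∀ {x y : ι}, Par (col ℓ e x) (col ℓ e y) → Par (col ℓ e y) (col ℓ e x) := fun h =>
    h.symm (h0 _)
  by_cases hp : ∃ i₀ i₁, i₀ ≠ i₁ ∧ Par (col ℓ e i₀) (col ℓ e i₁)
  swap
  · push Not at hp
    obtain ⟨n1, n2, n3, n4, n5, n6⟩ := nodup4.1 hq
    have := pattern_a s ha h0 hL hq (by
      simp [hp _ _ n1, hp _ _ n2, hp _ _ n3, hp _ _ n4, hp _ _ n5, hp _ _ n6])
    linarith
  obtain ⟨i₀, i₁, hi, hp⟩ := hp
  by_cases htwo : ∃ j j', j ≠ j' ∧ Par (col ℓ e j) (col ℓ e j') ∧ ¬ Par (col ℓ e i₀) (col ℓ e j)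
  · obtain ⟨j, j', hj, k1, k2⟩ := htwo
    have := h2 K ι n N ℓ m a e i₀ i₁ j j' s hN ha h0 hL hi hj hp k1 k2 p q r t hq
    linarith
  have hU : ∀ {x y : ι}, ¬ Par (col ℓ e i₀) (col ℓ e x) → x ≠ y →
      ¬ Par (col ℓ e x) (col ℓ e y) := fun hx hxy h => htwo ⟨_, _, hxy, h, hx⟩
  obtain ⟨x, hx⟩ : ∃ x, ¬ Par (col ℓ e i₀) (col ℓ e x) := by
    by_contra hcon
    push Not at hcon
    obtain ⟨i, j, hij⟩ := hrk
    exact hij ((sy (hcon i)).trans (hcon j))
  obtain ⟨y, hxy, hy⟩ : ∃ y, x ≠ y ∧ ¬ Par (col ℓ e i₀) (col ℓ e y) := by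
    by_contra hcon
    push Not at hcon
    apply hx
    choose! f hf using hcon
    refine ⟨-∑ y ∈ univ.erase x, f y, ?_⟩
    rw [← add_sum_erase _ _ (mem_univ x)] at hsum
    rw [neg_smul, sum_smul, eq_neg_iff_add_eq_zero, ← hsum]
    congr 1
    exact sum_congr rfl fun y hy => (hf y (ne_of_mem_erase hy).symm).symm
  suffices h : ∃ u v w : ι, u ≠ v ∧ u ≠ w ∧ v ≠ w ∧ ∀ z, z ≠ u → z ≠ v → z ≠ w →
      logHeight₁ (cr a u z v w) ≤ c n + 2 * nfC n by
    obtain ⟨u, v, w, k1, k2, k3, h⟩ := h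
    have := cr_of_ref s.hD ha (fun _ => True) k1 k2 k3 (by positivity) (fun z _ => h z) hq
      trivial trivial trivial trivial
    linarith
  by_cases h3 : ∃ w, x ≠ w ∧ y ≠ w ∧ ¬ Par (col ℓ e i₀) (col ℓ e w)
  · obtain ⟨w, k1, k2, hw⟩ := h3
    refine ⟨x, y, w, hxy, k1, k2, fun z z1 z2 z3 => ?_⟩
    have m1 : ¬ Par (col ℓ e z) (col ℓ e y) := fun h => hU hy z2.symm (sy h)
    have m2 : ¬ Par (col ℓ e z) (col ℓ e w) := fun h => hU hw z3.symm (sy h)
    have := pattern_a s ha h0 hL (nodup4.2 ⟨z1.symm, hxy, k1, z2, z3, k2⟩) (by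
      simp [hU hx z1.symm, hU hx hxy, hU hx k1, m1, m2, hU hy k2])
    linarith
  · push Not at h3
    refine ⟨i₀, x, y, ne hx, ne hy, hxy, fun z z1 z2 z3 => ?_⟩
    have := hb K ι n N ℓ m a e i₀ z x y s hN ha h0 hL
      (nodup4.2 ⟨z1.symm, ne hx, ne hy, z2, z3, hxy⟩) (h3 z z2.symm z3.symm) hx hy (fun h2 => ?_)
    · linarith
    obtain ⟨i, k1, k2, k3⟩ := hex h2 x y hxy
    subst h2
    intro hz
    apply k3
    rw [kt4_eq (h3 i k1.symm k2.symm) (h0 _)]
    have := kt4_two (col 2 e x + col 2 e y)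
    rw [add_assoc] at hz
    exact add_right_cancel (hz.trans this.symm)

end Pool.Agent.Lib.MP_07b2d0_nt.Ks
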