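import Mathlib
import Pool.Agent.Lib.MP_07b2d0_nt.KT1
import Pool.Agent.Lib.MP_07b2d0_nt.G2

set_option autoImplicit false
set_option linter.unusedSectionVars false
set_option linter.unusedVariables false

namespace Pool.Agent.Lib.MP_07b2d0_nt.Ks

open Finset NumberField

variable {K : Type} [Field K] [NumberField K] {a : Fin 6 → K} {v : FinitePlace K}

theorem Sep.compl {I : Finset (Fin 6)} (h : Sep (fun z => v z) a I Iᶜ) :
    Sep (fun z => v z) a Iᶜ Iᶜᶜ := by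
  intro i hi i' hi' j hj j' hj'
  rw [compl_compl] at hj hj'
  have h1 := h j hj j' hj' i hi i' hi'
  have e : ∀ x y : K, v (x - y) = v (y - x) := fun x y => by
    rw [← neg_sub, show -(y - x) = (-1) * (y - x) by ring, map_mul]
    have h2 : v (-1 : K) = 1 := by
      have h3 : v (-1 : K) * v (-1 : K) = 1 := by rw [← map_mul]; simp
      have h4 : 0 ≤ v (-1 : K) := apply_nonneg _ _
      nlinarith
    rw [h2, one_mul]
  dsimp only at h1 ⊢
  rw [e (a i) (a j), e (a i') (a j'), mul_comm]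
  exact h1

theorem ku1_four : ∀ I I' : Finset (Fin 6), I.card = 3 → I'.card = 3 → I' ≠ I → I' ≠ Iᶜ →
    (I ∩ I').Nonempty ∧ (I \ I').Nonempty ∧ (I' \ I).Nonempty ∧ ((I ∪ I')ᶜ).Nonempty := by
  decide +kernel

/-- Two edges of type `3 | 3` agree.  Otherwise the four sets `I ∩ I'`, `I \ I'`, `I' \ I`,
`(I ∪ I')ᶜ` are nonempty (`decide` over pairs of subsets of `Fin 6`, or counting); with `i, j, n, l`
in them `Sep.cr_lt` gives `v (cr a i j n l) < 1` and `v (cr a i n j l) < 1`, contradicting `cr_inv`. -/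
theorem sep_unique (ha : Function.Injective a) {I I' : Finset (Fin 6)} (hI : I.card = 3)
    (hI' : I'.card = 3) (h : Sep (fun z => v z) a I Iᶜ) (h' : Sep (fun z => v z) a I' I'ᶜ) :
    I' = I ∨ I' = Iᶜ := by
  by_contra hcon
  push Not at hcon
  obtain ⟨⟨i, hi⟩, ⟨j, hj⟩, ⟨n, hn⟩, ⟨l, hl⟩⟩ := ku1_four I I' hI hI' hcon.1 hcon.2
  simp only [mem_inter, mem_sdiff, mem_compl, mem_union, not_or] at hi hj hn hl
  have h1 := Sep.cr_lt ha h hi.1 hj.1 hn.2 hl.1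
  have h2 := Sep.cr_lt ha h' hi.2 hn.1 hj.2 hl.2
  have h3 : i ≠ j := fun e => hj.2 (e ▸ hi.2)
  have h4 : n ≠ l := fun e => hl.2 (e ▸ hn.1)
  have h5 : i ≠ n := fun e => hn.2 (e ▸ hi.1)
  have h6 : j ≠ l := fun e => hl.1 (e ▸ hj.1)
  have h7 : cr a i j n l ≠ 0 :=
    div_ne_zero (mul_ne_zero (sub_ne ha h3) (sub_ne ha h4))
      (mul_ne_zero (sub_ne ha h5) (sub_ne ha h6))
  rw [← cr_inv] at h2
  rw [fp_lt_one_iff v h7] at h1
  rw [fp_lt_one_iff v (inv_ne_zero h7), ord_inv] at h2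
  omega

theorem ku1_ord_cr (ha : Function.Injective a) {i j k l : Fin 6} (h : [i, j, k, l].Nodup) :
    ord v (cr a i j k l) =
      ord v (a i - a j) + ord v (a k - a l) - ord v (a i - a k) - ord v (a j - a l) := by
  obtain ⟨h1, h2, -, -, h5, h6⟩ := nodup4.mp h
  rw [cr, ord_div v (mul_ne_zero (sub_ne ha h1) (sub_ne ha h6))
    (mul_ne_zero (sub_ne ha h2) (sub_ne ha h5)), ord_mul v (sub_ne ha h1) (sub_ne ha h6),
    ord_mul v (sub_ne ha h2) (sub_ne ha h5)]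
  ring

theorem ku1_const (d : Fin 6 → Fin 6 → ℤ) (hd : ∀ i j, d i j = d j i) (B : Fin 6 → Prop)
    (hz : ∀ i j n l, [i, j, n, l].Nodup → B i → ¬ B j → ¬ B n →
      d i j + d n l - d i n - d j l = 0)
    {i j n l n' l' : Fin 6} (hij : i ≠ j) (hi : B i) (hj : B j) (hn : ¬ B n) (hl : ¬ B l)
    (hn' : ¬ B n') (hl' : ¬ B l') (hnl : n ≠ l) (hnl' : n' ≠ l') :
    d i j + d n l - d i n - d j l = d i j + d n' l' - d i n' - d j l' := by
  have ne : ∀ x y, B x → ¬ B y → x ≠ y := fun x y hx hy e => hy (e ▸ hx)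
  have S1 : ∀ x y z, ¬ B x → ¬ B y → ¬ B z → x ≠ z → y ≠ z →
      d x z - d i x = d y z - d i y := by
    intro x y z hx hy hz' hxz hyz
    by_cases e : x = y
    · rw [e]
    · have := hz i y x z (nodup4.mpr ⟨ne _ _ hi hy, ne _ _ hi hx, ne _ _ hi hz', Ne.symm e, hyz,
        hxz⟩) hi hy hx
      omega
  have S2 : ∀ x y, ¬ B x → ¬ B y → x ≠ y → d i x + d j y = d i y + d j x := by
    intro x y hx hy hxy
    have := hz i y x j (nodup4.mpr ⟨ne _ _ hi hy, ne _ _ hi hx, hij, hxy.symm,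
      (ne _ _ hj hy).symm, (ne _ _ hj hx).symm⟩) hi hy hx
    have h1 := hd x j
    have h2 := hd y j
    omega
  by_cases e : n' = l
  · subst e
    have h1 := S2 n n' hn hn' hnl
    have h2 := S1 n l' n' hn hl' hn' hnl hnl'.symm
    have h3 := S2 l' n' hl' hn' hnl'.symm
    have h4 := hd l' n'
    omega
  · have h1 := S1 n n' l hn hn' hl hnl e
    have h2 := S2 n' l hn' hl e
    have h3 := S1 l l' n' hl hl' hn' (Ne.symm e) hnl'.symm
    have h4 := S2 l' n' hl' hn' hnl'.symm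
    have h5 := hd l' n'
    have h6 := hd l n'
    omega

theorem ku1_ex (A : Finset (Fin 6)) (i j n l : Fin 6)
    (c1 : ¬ ((i ∈ A ∧ j ∈ A ∧ n ∉ A ∧ l ∉ A) ∨ (i ∉ A ∧ j ∉ A ∧ n ∈ A ∧ l ∈ A)))
    (c2 : ¬ ((i ∈ A ∧ n ∈ A ∧ j ∉ A ∧ l ∉ A) ∨ (i ∉ A ∧ n ∉ A ∧ j ∈ A ∧ l ∈ A))) :
    ex A i j n l = 0 := by
  by_cases hi : i ∈ A <;> by_cases hj : j ∈ A <;> by_cases hn : n ∈ A <;> by_cases hl : l ∈ A <;>
    simp [ex, same, hi, hj, hn, hl] at c1 c2 ⊢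

theorem ku1_ty : ∀ t, (ty t).card = 3 ∧ 0 ∈ ty t := by decide +kernel

/-- The cluster picture of a genus two curve whose Jacobian has good reduction.  An edge `I` from
`edge` has `2 ≤ card I ≤ 4`, and `card I` is odd by `Loc1` (with `J = Iᶜ`), so `card I = 3`.
If no cross ratio has positive order then all orders vanish (`cr_inv`, `ord_inv`): take `m = 0` and
any `A ∉ O` (there are ten sets `A` with `card A = 3`, `0 ∈ A`; `ty_inj`, `ty_surj` in file `G2`).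
Otherwise let `A` be the side of the edge containing `0` (`Sep.compl`).  By `edge` and `sep_unique`,
`0 < ord v (cr a i j n l)` forces `i, j` on one side and `n, l` on the other, so the order vanishes
whenever `ex A i j n l = 0`.  With `d i j = ord v (a i - a j)` (`ord_cr` in file `Inf`, or reprove)
these vanishing relations show that all quadruples with `ex = 2` have the same order (use
`cr a i j n l = cr a i j n' l * cr a i n' n l` and the symmetries of `cr`); it is positive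
(`Sep.cr_lt`) and even (`h2`). -/
theorem hyp_of_loc (ha : Function.Injective a) (h1 : Loc1 (fun z => v z) 2 a fun _ => 1)
    (h2 : ∀ i j n l, [i, j, n, l].Nodup → (2 : ℤ) ∣ ord v (cr a i j n l))
    (O : Finset (Finset (Fin 6))) (hO : O.card = 4) (h : ∀ A ∈ O, ¬ Sep (fun z => v z) a A Aᶜ) :
    ∃ A : Finset (Fin 6), A.card = 3 ∧ 0 ∈ A ∧ A ∉ O ∧ ∃ m : ℕ, ∀ i j n l, [i, j, n, l].Nodup →
      ord v (cr a i j n l) = m * ex A i j n l := by
  have hne : ∀ {i j n l : Fin 6}, [i, j, n, l].Nodup → cr a i j n l ≠ 0 := by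
    intro i j n l hq
    obtain ⟨e1, e2, -, -, e5, e6⟩ := nodup4.mp hq
    exact div_ne_zero (mul_ne_zero (sub_ne ha e1) (sub_ne ha e6))
      (mul_ne_zero (sub_ne ha e2) (sub_ne ha e5))
  have hinv : ∀ i j n l : Fin 6, ord v (cr a i n j l) = - ord v (cr a i j n l) := by
    intro i j n l
    rw [← cr_inv, ord_inv]
  have hedge : ∀ {i j n l : Fin 6}, [i, j, n, l].Nodup → 0 < ord v (cr a i j n l) →
      ∃ I : Finset (Fin 6), I.card = 3 ∧ i ∈ I ∧ j ∈ I ∧ n ∉ I ∧ l ∉ I ∧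
        Sep (fun z => v z) a I Iᶜ := by
    intro i j n l hq hpos
    obtain ⟨I, hi, hj, hn, hl, hS⟩ := edge ha v hq ((fp_lt_one_iff v (hne hq)).mpr hpos)
    obtain ⟨e1, -, -, -, -, e6⟩ := nodup4.mp hq
    refine ⟨I, ?_, hi, hj, hn, hl, hS⟩
    have c1 : 1 < I.card := one_lt_card.mpr ⟨i, hi, j, hj, e1⟩
    have c2 : 1 < Iᶜ.card := one_lt_card.mpr ⟨n, mem_compl.mpr hn, l, mem_compl.mpr hl, e6⟩
    have c3 : Iᶜ.card = 6 - I.card := by rw [card_compl, Fintype.card_fin]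
    have c4 : ¬ 2 ∣ I.card := by
      intro hdvd
      refine h1 I Iᶜ disjoint_compl_right (fun x => ?_) ⟨i, hi⟩ ⟨n, mem_compl.mpr hn⟩
        (by simpa using hdvd) hS
      simp only [mem_compl]
      exact ⟨fun _ => em _, fun _ => by norm_num⟩
    omega
  by_cases hex : ∃ i j n l : Fin 6, [i, j, n, l].Nodup ∧ 0 < ord v (cr a i j n l)
  swap
  · push Not at hex
    obtain ⟨t, ht⟩ : ∃ t, ty t ∉ O := by
      by_contra hcon
      push Not at hcon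
      have c1 : univ.image ty ⊆ O := fun A hA => by
        obtain ⟨t, -, rfl⟩ := mem_image.mp hA
        exact hcon t
      have c2 := card_le_card c1
      rw [card_image_of_injective _ ty_inj, hO, card_univ, Fintype.card_fin] at c2
      omega
    refine ⟨ty t, (ku1_ty t).1, (ku1_ty t).2, ht, 0, fun i j n l hq => ?_⟩
    have c1 := hex i j n l hq
    have c2 := hex i n j l (nodup_swap' hq)
    have c3 := hinv i j n l
    simp only [Nat.cast_zero, zero_mul]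
    omega
  obtain ⟨i₀, j₀, n₀, l₀, hq₀, hpos₀⟩ := hex
  obtain ⟨A, hA3, hA0, hAS⟩ : ∃ A : Finset (Fin 6), A.card = 3 ∧ 0 ∈ A ∧
      Sep (fun z => v z) a A Aᶜ := by
    obtain ⟨I, hI, -, -, -, -, hS⟩ := hedge hq₀ hpos₀
    by_cases h0 : (0 : Fin 6) ∈ I
    · exact ⟨I, hI, h0, hS⟩
    · exact ⟨Iᶜ, by rw [card_compl, Fintype.card_fin, hI], mem_compl.mpr h0, hS.compl⟩
  have hP : ∀ {i j n l : Fin 6}, [i, j, n, l].Nodup → 0 < ord v (cr a i j n l) →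
      (i ∈ A ∧ j ∈ A ∧ n ∉ A ∧ l ∉ A) ∨ (i ∉ A ∧ j ∉ A ∧ n ∈ A ∧ l ∈ A) := by
    intro i j n l hq hpos
    obtain ⟨I, hI, hi, hj, hn, hl, hS⟩ := hedge hq hpos
    rcases sep_unique ha hA3 hI hAS hS with rfl | rfl
    · exact Or.inl ⟨hi, hj, hn, hl⟩
    · simp only [mem_compl, not_not] at hi hj hn hl
      exact Or.inr ⟨hi, hj, hn, hl⟩
  have hzero : ∀ {i j n l : Fin 6}, [i, j, n, l].Nodup →
      ¬ ((i ∈ A ∧ j ∈ A ∧ n ∉ A ∧ l ∉ A) ∨ (i ∉ A ∧ j ∉ A ∧ n ∈ A ∧ l ∈ A)) →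
      ¬ ((i ∈ A ∧ n ∈ A ∧ j ∉ A ∧ l ∉ A) ∨ (i ∉ A ∧ n ∉ A ∧ j ∈ A ∧ l ∈ A)) →
      ord v (cr a i j n l) = 0 := by
    intro i j n l hq c1 c2
    have c3 := mt (hP hq) c1
    have c4 := mt (hP (nodup_swap' hq)) c2
    have c5 := hinv i j n l
    omega
  set d : Fin 6 → Fin 6 → ℤ := fun i j => ord v (a i - a j) with hddef
  have hd : ∀ i j, d i j = d j i := fun i j => by
    simp only [hddef]
    rw [← ord_neg, neg_sub]
  have hc : ∀ {i j n l : Fin 6}, [i, j, n, l].Nodup →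
      ord v (cr a i j n l) = d i j + d n l - d i n - d j l := fun hq => ku1_ord_cr ha hq
  have hz1 : ∀ i j n l, [i, j, n, l].Nodup → i ∈ A → ¬ j ∈ A → ¬ n ∈ A →
      d i j + d n l - d i n - d j l = 0 := by
    intro i j n l hq hi hj hn
    rw [← hc hq]
    exact hzero hq (by tauto) (by tauto)
  have hz2 : ∀ i j n l, [i, j, n, l].Nodup → i ∉ A → ¬ j ∉ A → ¬ n ∉ A →
      d i j + d n l - d i n - d j l = 0 := by
    intro i j n l hq hi hj hn
    rw [← hc hq]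
    exact hzero hq (by tauto) (by tauto)
  have hsame1 : ∀ {i j n l i' j' n' l' : Fin 6}, i ≠ j → n ≠ l → i' ≠ j' → n' ≠ l' →
      (i ∈ A ∧ j ∈ A ∧ n ∉ A ∧ l ∉ A) → (i' ∈ A ∧ j' ∈ A ∧ n' ∉ A ∧ l' ∉ A) →
      d i j + d n l - d i n - d j l = d i' j' + d n' l' - d i' n' - d j' l' := by
    rintro i j n l i' j' n' l' e1 e2 e3 e4 ⟨hi, hj, hn, hl⟩ ⟨hi', hj', hn', hl'⟩
    have c1 := ku1_const d hd (· ∈ A) hz1 e1 hi hj hn hl hn' hl' e2 e4
    have c2 := ku1_const d hd (· ∉ A) hz2 e4 hn' hl' (not_not.mpr hi) (not_not.mpr hj)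
      (not_not.mpr hi') (not_not.mpr hj') e1 e3
    have c3 := hd i n'
    have c4 := hd j l'
    have c5 := hd i' n'
    have c6 := hd j' l'
    omega
  have hsame : ∀ {i j n l : Fin 6}, [i, j, n, l].Nodup →
      ((i ∈ A ∧ j ∈ A ∧ n ∉ A ∧ l ∉ A) ∨ (i ∉ A ∧ j ∉ A ∧ n ∈ A ∧ l ∈ A)) →
      ord v (cr a i j n l) = ord v (cr a i₀ j₀ n₀ l₀) := by
    intro i j n l hq hp
    rw [hc hq, hc hq₀]
    obtain ⟨e1, -, -, -, -, e2⟩ := nodup4.mp hq
    obtain ⟨e3, -, -, -, -, e4⟩ := nodup4.mp hq₀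
    have c3 := hd i n
    have c4 := hd j l
    have c5 := hd i₀ n₀
    have c6 := hd j₀ l₀
    rcases hp with hp | hp <;> rcases hP hq₀ hpos₀ with hp₀ | hp₀
    · exact hsame1 e1 e2 e3 e4 hp hp₀
    · have := hsame1 e1 e2 e4 e3 hp ⟨hp₀.2.2.1, hp₀.2.2.2, hp₀.1, hp₀.2.1⟩
      omega
    · have := hsame1 e2 e1 e3 e4 ⟨hp.2.2.1, hp.2.2.2, hp.1, hp.2.1⟩ hp₀
      omega
    · have := hsame1 e2 e1 e4 e3 ⟨hp.2.2.1, hp.2.2.2, hp.1, hp.2.1⟩
        ⟨hp₀.2.2.1, hp₀.2.2.2, hp₀.1, hp₀.2.1⟩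
      omega
  obtain ⟨M, hM⟩ := h2 i₀ j₀ n₀ l₀ hq₀
  obtain ⟨m, rfl⟩ := Int.eq_ofNat_of_zero_le (a := M) (by omega)
  refine ⟨A, hA3, hA0, fun hAO => h A hAO hAS, m, fun i j n l hq => ?_⟩
  by_cases c1 : (i ∈ A ∧ j ∈ A ∧ n ∉ A ∧ l ∉ A) ∨ (i ∉ A ∧ j ∉ A ∧ n ∈ A ∧ l ∈ A)
  · rw [hsame hq c1, hM]
    rcases c1 with ⟨hi, hj, hn, hl⟩ | ⟨hi, hj, hn, hl⟩ <;> simp [ex, same, hi, hj, hn, hl] <;> ring
  · by_cases c2 : (i ∈ A ∧ n ∈ A ∧ j ∉ A ∧ l ∉ A) ∨ (i ∉ A ∧ n ∉ A ∧ j ∈ A ∧ l ∈ A)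
    · rw [hinv i n j l, hsame (nodup_swap' hq) c2, hM]
      rcases c2 with ⟨hi, hj, hn, hl⟩ | ⟨hi, hj, hn, hl⟩ <;> simp [ex, same, hi, hj, hn, hl] <;> ring
    · rw [hzero hq c1 c2]
      rw [ku1_ex A i j n l c1 c2, mul_zero]

end Pool.Agent.Lib.MP_07b2d0_nt.Ks
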