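import Mathlib

/-!
Theta constants with integral characteristics: convergence, symmetries, product formula.
-/

set_option autoImplicit false

namespace Pool.Agent.Lib.MP_07b2d0_nt.Sch

open Complex

variable {ι : Type} [Fintype ι] [DecidableEq ι]

theorem summable_pi {f : ℤ → ℝ} (hf : Summable f) (h0 : ∀ n, 0 ≤ f n) :
    Summable fun m : ι → ℤ => ∏ i, f (m i) := by
  refine summable_of_sum_le (c := ∏ _i : ι, ∑' n, f n)
    (fun m => Finset.prod_nonneg fun i _ => h0 _) fun s => ?_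
  let t : Finset ℤ := s.biUnion fun m => Finset.univ.image m
  calc ∑ m ∈ s, ∏ i, f (m i) ≤ ∑ m ∈ Fintype.piFinset fun _ : ι => t, ∏ i, f (m i) := by
        refine Finset.sum_le_sum_of_subset_of_nonneg (fun m hm => ?_)
          fun m _ _ => Finset.prod_nonneg fun i _ => h0 _
        rw [Fintype.mem_piFinset]
        intro i
        exact Finset.mem_biUnion.mpr ⟨m, hm, Finset.mem_image_of_mem _ (Finset.mem_univ i)⟩
    _ = ∏ _i : ι, ∑ n ∈ t, f n := (Finset.prod_univ_sum _ _).symm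
    _ ≤ _ := Finset.prod_le_prod (fun i _ => Finset.sum_nonneg fun n _ => h0 n)
        fun i _ => hf.sum_le_tsum _ fun n _ => h0 n

omit [DecidableEq ι] in
theorem coercive {Y : Matrix ι ι ℝ} (hY : Y.PosDef) :
    ∃ c : ℝ, 0 < c ∧ ∀ x : ι → ℝ, c * ∑ i, x i ^ 2 ≤ ∑ i, ∑ j, Y i j * x i * x j := by
  let q : (ι → ℝ) → ℝ := fun x => ∑ i, ∑ j, Y i j * x i * x j
  have hq : ∀ x, x ≠ 0 → 0 < q x := fun x hx => by
    have := hY.dotProduct_mulVec_pos hx
    refine this.trans_eq ?_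
    simp only [q, dotProduct, Matrix.mulVec, star_trivial, Finset.mul_sum]
    exact Finset.sum_congr rfl fun i _ => Finset.sum_congr rfl fun j _ => by ring
  obtain ⟨c, hc, h⟩ := (isCompact_sphere (0 : ι → ℝ) 1).exists_forall_le' (f := q)
    (by fun_prop) (a := 0) fun x hx => hq x (by rintro rfl; simp at hx)
  refine ⟨c / (Fintype.card ι + 1), by positivity, fun x => ?_⟩
  by_cases hx : x = 0
  · simp [hx]
  have hn : 0 < ‖x‖ := norm_pos_iff.mpr hx
  have h1 := h (‖x‖⁻¹ • x) (by simp [norm_smul, hn.ne'])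
  have h2 : q (‖x‖⁻¹ • x) * ‖x‖ ^ 2 = q x := by
    simp only [q, Pi.smul_apply, smul_eq_mul, Finset.sum_mul]
    exact Finset.sum_congr rfl fun i _ => Finset.sum_congr rfl fun j _ => by field_simp
  have h3 : ∑ i, x i ^ 2 ≤ (Fintype.card ι + 1) * ‖x‖ ^ 2 := by
    have : ∑ i, x i ^ 2 ≤ ∑ _i : ι, ‖x‖ ^ 2 := Finset.sum_le_sum fun i _ => by
      rw [← sq_abs]
      exact pow_le_pow_left₀ (abs_nonneg _) (norm_le_pi_norm x i) 2
    rw [Finset.sum_const, Finset.card_univ, nsmul_eq_mul] at this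
    nlinarith [sq_nonneg ‖x‖]
  change _ ≤ q x
  rw [← h2, div_mul_eq_mul_div, div_le_iff₀ (by positivity)]
  calc c * ∑ i, x i ^ 2 ≤ c * ((Fintype.card ι + 1) * ‖x‖ ^ 2) := by gcongr
    _ = c * ‖x‖ ^ 2 * (Fintype.card ι + 1) := by ring
    _ ≤ _ := by gcongr

/-- The quadratic form. -/
noncomputable def qf (τ : Matrix ι ι ℂ) (m : ι → ℤ) : ℂ := ∑ i, ∑ j, τ i j * m i * m j

/-- The integral dot product. -/
def dz (m b : ι → ℤ) : ℤ := ∑ i, m i * b i

/-- The general term. -/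
noncomputable def et (τ : Matrix ι ι ℂ) (k : ℕ) (b m : ι → ℤ) : ℂ :=
  exp (Real.pi * I * (k * qf τ m / 16 + dz m b / 4))

/-- Theta constants of `k τ` with characteristics `(a / 2, b)`. -/
noncomputable def tz (τ : Matrix ι ι ℂ) (k : ℕ) (a b : ι → ℤ) : ℂ :=
  ∑' n : ι → ℤ, et τ k b (4 • n + a)

theorem summable_et {τ : Matrix ι ι ℂ} (hτ : (τ.map im).PosDef) {k : ℕ} (hk : k ≠ 0)
    (b : ι → ℤ) : Summable fun m => ‖et τ k b m‖ := by
  obtain ⟨c, hc, h⟩ := coercive hτ
  have h1 := summable_pow_mul_jacobiTheta₂_term_bound 0 (T := c / 16) (by positivity) 0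
  refine Summable.of_nonneg_of_le (fun _ => norm_nonneg _) (fun m => ?_)
    (summable_pi h1 fun n => by positivity)
  have h2 : (qf τ m).im = ∑ i, ∑ j, (τ.map im) i j * (m i : ℝ) * (m j : ℝ) := by
    simp [qf, im_sum]
  have h3 := h fun i => (m i : ℝ)
  rw [← h2] at h3
  have h4 : (1 : ℝ) ≤ k := by exact_mod_cast Nat.one_le_iff_ne_zero.mpr hk
  have h5 : 0 ≤ c * ∑ i, (m i : ℝ) ^ 2 := by positivity
  simp only [pow_zero, one_mul, mul_zero, zero_mul, sub_zero]
  rw [← Real.exp_sum, et, norm_exp, Real.exp_le_exp, ← Finset.mul_sum, ← Finset.mul_sum]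
  have h6 : (Real.pi * I * (k * qf τ m / 16 + dz m b / 4) : ℂ).re =
      -Real.pi * (k * (qf τ m).im / 16) := by
    simp
  rw [h6]
  have : c / 16 * ∑ i, (m i : ℝ) ^ 2 ≤ k * (qf τ m).im / 16 := by nlinarith
  nlinarith [Real.pi_pos]

omit [DecidableEq ι] in
theorem tz_per_a (τ : Matrix ι ι ℂ) (k : ℕ) {a a' : ι → ℤ} (h : ∀ i, (4 : ℤ) ∣ a i - a' i)
    (b : ι → ℤ) : tz τ k a b = tz τ k a' b := by
  choose l hl using h
  rw [tz, tz, ← (Equiv.addRight l).tsum_eq fun n => et τ k b (4 • n + a')]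
  refine tsum_congr fun n => ?_
  congr 1
  funext i
  have := hl i
  simp only [Equiv.coe_addRight, Pi.add_apply, nsmul_eq_mul, Nat.cast_ofNat, Pi.mul_apply,
    Pi.ofNat_apply]
  omega

omit [DecidableEq ι] in
theorem tz_neg (τ : Matrix ι ι ℂ) (k : ℕ) (a b : ι → ℤ) : tz τ k (-a) (-b) = tz τ k a b := by
  rw [tz, tz, ← (Equiv.neg _).tsum_eq fun n => et τ k b (4 • n + a)]
  refine tsum_congr fun n => ?_
  have e : 4 • (Equiv.neg _) n + a = -(4 • n + -a) := by
    simp only [Equiv.neg_apply]; abel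
  rw [e]
  generalize 4 • n + -a = m
  simp [et, qf, dz]

omit [DecidableEq ι] in
theorem tz_per_b (τ : Matrix ι ι ℂ) (k : ℕ) (a b l : ι → ℤ) :
    tz τ k a (b + 2 • l) = I ^ dz a l * tz τ k a b := by
  rw [tz, tz, ← tsum_mul_left]
  refine tsum_congr fun n => ?_
  have e : dz (4 • n + a) (b + 2 • l) = dz (4 • n + a) b + 2 * (4 * dz n l + dz a l) := by
    simp only [dz, Finset.mul_sum, ← Finset.sum_add_distrib]
    exact Finset.sum_congr rfl fun i _ => by simp; ring
  rw [et, et, e]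
  nth_rewrite 2 [← exp_pi_div_two_mul_I]
  rw [← exp_int_mul, ← exp_add,
    ← mul_one (exp (↑(dz a l) * _ + _)), ← exp_int_mul_two_pi_mul_I (dz n l), ← exp_add]
  congr 1
  push_cast
  ring

omit [DecidableEq ι] in
theorem tz_perm (τ : Matrix ι ι ℂ) (k : ℕ) (a b : ι → ℤ) (e : ι ≃ ι) :
    tz (τ.submatrix e e) k (a ∘ e) (b ∘ e) = tz τ k a b := by
  rw [tz, tz, ← (Equiv.arrowCongr e (Equiv.refl ℤ)).tsum_eq fun n => et τ k b (4 • n + a)]
  refine tsum_congr fun n => ?_
  have h : 4 • n + a ∘ e = (4 • (Equiv.arrowCongr e (Equiv.refl ℤ)) n + a) ∘ e := by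
    funext i
    simp
  rw [h]
  generalize 4 • (Equiv.arrowCongr e (Equiv.refl ℤ)) n + a = m
  have h1 : qf (τ.submatrix e e) (m ∘ e) = qf τ m := by
    rw [qf, qf, ← e.sum_comp fun i => ∑ j, τ i j * m i * m j]
    exact Finset.sum_congr rfl fun i _ => e.sum_comp fun j => τ (e i) j * m (e i) * m j
  have h2 : dz (m ∘ e) (b ∘ e) = dz m b := e.sum_comp fun i => m i * b i
  rw [et, et, h1, h2]

/-- The reparametrisation of pairs of lattice points. -/
def pairEquiv : (ι → Fin 2) × (ι → ℤ) × (ι → ℤ) ≃ (ι → ℤ) × (ι → ℤ) where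
  toFun x := (x.2.1 + x.2.2 + fun i => ((x.1 i : ℕ) : ℤ), x.2.1 - x.2.2)
  invFun y := (fun i => ⟨((y.1 i - y.2 i) % 2).toNat, by omega⟩,
    fun i => y.2 i + (y.1 i - y.2 i) / 2, fun i => (y.1 i - y.2 i) / 2)
  left_inv x := by
    obtain ⟨s, l, k⟩ := x
    refine Prod.ext (funext fun i => Fin.ext ?_) (Prod.ext (funext fun i => ?_) (funext fun i => ?_))
    all_goals
      have := (s i).isLt
      simp only [Pi.add_apply, Pi.sub_apply]
      omega
  right_inv y := by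
    obtain ⟨n, n'⟩ := y
    refine Prod.ext (funext fun i => ?_) (funext fun i => ?_)
    all_goals
      simp only [Pi.add_apply, Pi.sub_apply]
      omega

omit [DecidableEq ι] in
theorem et_mul (τ : Matrix ι ι ℂ) (b b' u v : ι → ℤ) :
    et τ 1 b (u + v) * et τ 1 b' (u - v) = et τ 2 (b + b') u * et τ 2 (b - b') v := by
  have e1 : qf τ (u + v) + qf τ (u - v) = 2 * qf τ u + 2 * qf τ v := by
    simp only [qf, Finset.mul_sum, ← Finset.sum_add_distrib]
    exact Finset.sum_congr rfl fun i _ => Finset.sum_congr rfl fun j _ => by simp; ring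
  have e2 : (dz (u + v) b : ℂ) + dz (u - v) b' = dz u (b + b') + dz v (b - b') := by
    norm_cast
    simp only [dz, ← Finset.sum_add_distrib]
    exact Finset.sum_congr rfl fun i _ => by simp; ring
  simp only [et, ← exp_add]
  congr 1
  push_cast
  linear_combination (Real.pi * I / 16) * e1 + (Real.pi * I / 4) * e2

omit [Fintype ι] [DecidableEq ι] in
theorem inj_four (a : ι → ℤ) : Function.Injective fun n : ι → ℤ => 4 • n + a := fun n n' h => by
  funext i
  have := congrFun h i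
  simp only [Pi.add_apply, nsmul_eq_mul, Nat.cast_ofNat, Pi.mul_apply, Pi.ofNat_apply] at this
  omega

/-- The product formula. -/
theorem tz_mul {τ : Matrix ι ι ℂ} (hτ : (τ.map im).PosDef) (a a' b b' : ι → ℤ) :
    tz τ 1 (2 • a) b * tz τ 1 (2 • a') b' = ∑ s : ι → Fin 2,
      tz τ 2 (fun i => 2 * (s i : ℕ) + a i + a' i) (b + b') *
        tz τ 2 (fun i => 2 * (s i : ℕ) + a i - a' i) (b - b') := by
  have hs : ∀ (k : ℕ), k ≠ 0 → ∀ a b : ι → ℤ, Summable fun n : ι → ℤ => ‖et τ k b (4 • n + a)‖ :=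
    fun k hk a b => (summable_et hτ hk b).comp_injective (inj_four a)
  have h1 := summable_mul_of_summable_norm (hs 1 one_ne_zero (2 • a) b)
    (hs 1 one_ne_zero (2 • a') b')
  rw [tz, tz, tsum_mul_tsum_of_summable_norm (hs 1 one_ne_zero _ b) (hs 1 one_ne_zero _ b'),
    ← pairEquiv.tsum_eq]
  refine (pairEquiv.summable_iff.mpr h1).tsum_prod.trans ?_
  rw [tsum_fintype]
  refine Finset.sum_congr rfl fun s _ => ?_
  rw [tz, tz, tsum_mul_tsum_of_summable_norm (hs 2 two_ne_zero _ _) (hs 2 two_ne_zero _ _)]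
  refine tsum_congr fun x => ?_
  rw [← et_mul]
  simp only [Function.comp, pairEquiv, Equiv.coe_fn_mk]
  congr 2 <;> funext i <;> simp <;> ring

end Pool.Agent.Lib.MP_07b2d0_nt.Sch
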