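import Mathlib

/-!
The quadrics in eight variables attached to characteristics of genus three.
-/

set_option autoImplicit false

namespace Pool.Agent.Lib.MP_07b2d0_nt.Sch

open Complex

/-- Vectors of length three over the field with two elements. -/
abbrev B3 := Bool × Bool × Bool

/-- Addition. -/
def ad3 (x y : B3) : B3 := (xor x.1 y.1, xor x.2.1 y.2.1, xor x.2.2 y.2.2)

/-- Dot product. -/
def dt3 (x y : B3) : Bool := xor (x.1 && y.1) (xor (x.2.1 && y.2.1) (x.2.2 && y.2.2))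

/-- The sign. -/
def sg (b : Bool) : ℂ := if b then -1 else 1

@[simp] theorem sg_true : sg true = -1 := rfl

@[simp] theorem sg_false : sg false = 1 := rfl

/-- The upper half of an even characteristic of genus one. -/
def al (e : Fin 3) : Bool := e = 2

/-- The lower half of an even characteristic of genus one. -/
def be (e : Fin 3) : Bool := e = 1

/-- The quadric with a product characteristic. -/
noncomputable def P (Y : B3 → ℂ) (i j k : Fin 3) : ℂ :=
  ∑ s, sg (dt3 s (be i, be j, be k)) * Y (ad3 s (al i, al j, al k)) * Y s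

theorem P_eq (Y : B3 → ℂ) (i j k : Fin 3) : P Y i j k = ∑ x, ∑ y, ∑ z,
    sg (dt3 (x, y, z) (be i, be j, be k)) * Y (ad3 (x, y, z) (al i, al j, al k)) * Y (x, y, z) := by
  simp only [P, Fintype.sum_prod_type]

/-- Systems of values of the quadrics. -/
def Cl (W : Fin 3 → Fin 3 → Fin 3 → ℂ) : Prop := ∃ Y, ∀ i j k, W i j k = P Y i j k

/-- The symmetric quadratic form in three variables. -/
def sch (x y z : ℂ) : ℂ := x ^ 2 + y ^ 2 + z ^ 2 - 2 * (x * y + x * z + y * z)

/-- The product of two of three values. -/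
def pr (f : Fin 3 → ℂ) (o : Fin 3) : ℂ := f (o + 1) * f (o + 2)

/-- The invariant of degree eight. -/
def G3 (W : Fin 3 → Fin 3 → Fin 3 → ℂ) (o o' : Fin 3) : ℂ :=
  sch (pr (fun j => pr (W 0 j) o') o) (pr (fun j => pr (W 1 j) o') o)
    (pr (fun j => pr (W 2 j) o') o)

variable {W : Fin 3 → Fin 3 → Fin 3 → ℂ}

theorem Cl.smul (h : Cl W) (c : ℂ) : Cl fun i j k => c * W i j k := by
  obtain ⟨Y, h⟩ := h
  obtain ⟨d, rfl⟩ := IsAlgClosed.exists_eq_mul_self c
  refine ⟨fun s => d * Y s, fun i j k => ?_⟩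
  simp only [h, P, Finset.mul_sum]
  exact Finset.sum_congr rfl fun s _ => by ring

theorem Cl.s12 (h : Cl W) : Cl fun i j k => W j i k := by
  obtain ⟨Y, h⟩ := h
  refine ⟨fun s => Y (s.2.1, s.1, s.2.2), fun i j k => ?_⟩
  simp only [h, P_eq]
  rw [Finset.sum_comm]
  simp only [dt3, ad3, Bool.xor_left_comm]

theorem Cl.s23 (h : Cl W) : Cl fun i j k => W i k j := by
  obtain ⟨Y, h⟩ := h
  refine ⟨fun s => Y (s.1, s.2.2, s.2.1), fun i j k => ?_⟩
  simp only [h, P_eq]
  refine Finset.sum_congr rfl fun x _ => ?_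
  rw [Finset.sum_comm]
  simp only [dt3, ad3, Bool.xor_comm]

theorem Cl.had (h : Cl W) : Cl fun i j k => W (![0, 2, 1] i) j k := by
  obtain ⟨Y, h⟩ := h
  have : Cl fun i j k => 2 * W (![0, 2, 1] i) j k := by
    refine ⟨fun s => Y (false, s.2) + sg s.1 * Y (true, s.2), fun i j k => ?_⟩
    simp only [h, P_eq]
    generalize al j = a2, al k = a3, be j = b2, be k = b3
    fin_cases i <;> cases a2 <;> cases a3 <;> cases b2 <;> cases b3 <;>
      simp [dt3, ad3, al, be] <;> ring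
  simpa using this.smul 2⁻¹

theorem Cl.tr (h : Cl W) : Cl fun i j k => ![1, 1, I] i * W (![1, 0, 2] i) j k := by
  obtain ⟨Y, h⟩ := h
  refine ⟨fun s => (if s.1 then I else 1) * Y s, fun i j k => ?_⟩
  simp only [h, P, Finset.mul_sum]
  refine Finset.sum_congr rfl fun ⟨x, y, z⟩ _ => ?_
  simp only [dt3, ad3]
  generalize xor (y && be j) (z && be k) = u, xor y (al j) = y', xor z (al k) = z'
  fin_cases i <;> cases x <;> cases u <;> simp [al, be] <;> ring_nf <;> simp

theorem igusa {A B C D E F G H : ℂ} (h1 : E + F = A + B - C - D) (h2 : G + H = A - B + C - D)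
    (h3 : E - F = G - H) : sch (A * C) (B * D) (G * H) = sch (A * B) (C * D) (E * F) := by
  have k : G * H = E * F - A * B - C * D + A * C + B * D := by
    linear_combination (-1 / 4) * ((E + F) + (A + B - C - D)) * h1 +
      (1 / 4) * ((G + H) + (A - B + C - D)) * h2 + (1 / 4) * ((E - F) + (G - H)) * h3
  rw [k, sch, sch]
  ring

theorem Cl.val (h : Cl W) : G3 (fun i j k => W j i k) 2 2 = G3 W 2 2 := by
  obtain ⟨Y, h⟩ := h
  simp only [G3, pr, h]
  refine igusa ?_ ?_ ?_ <;> simp [P_eq, dt3, ad3, al, be] <;> ring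

theorem G3_swap (W : Fin 3 → Fin 3 → Fin 3 → ℂ) (o o' : Fin 3) :
    G3 (fun i j k => W i k j) o o' = G3 W o' o := by
  simp only [G3, pr, sch]
  ring

theorem Cl.had2 (h : Cl W) :
    Cl (fun i j k => W i (![0, 2, 1] j) k) ∧ G3 (fun i j k => W i (![0, 2, 1] j) k) 2 2 = G3 W 2 2 := by
  refine ⟨h.s12.had.s12, h.s12.had.val.trans (Eq.trans ?_ h.val)⟩
  simp [G3, pr, sch]
  ring

theorem Cl.tr2 (h : Cl W) : Cl (fun i j k => ![1, 1, I] j * W i (![1, 0, 2] j) k) ∧
    G3 (fun i j k => ![1, 1, I] j * W i (![1, 0, 2] j) k) 2 2 = G3 W 2 2 := by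
  refine ⟨h.s12.tr.s12, h.s12.tr.val.trans (Eq.trans ?_ h.val)⟩
  simp [G3, pr, sch]
  ring_nf
  simp

theorem Cl.move (h : Cl W) (o : Fin 3) :
    ∃ W', Cl W' ∧ G3 W' 2 2 = G3 W 2 2 ∧ ∀ o', G3 W' 2 o' = G3 W o o' := by
  fin_cases o
  · refine ⟨_, h.tr2.1.had2.1, h.tr2.1.had2.2.trans h.tr2.2, fun o' => ?_⟩
    simp [G3, pr, sch]
    ring_nf
    simp
  · refine ⟨_, h.had2.1, h.had2.2, fun o' => ?_⟩
    simp [G3, pr, sch]
    ring
  · exact ⟨W, h, rfl, fun _ => rfl⟩

theorem Cl.all (h : Cl W) (o o' : Fin 3) : G3 W o o' = G3 W 2 2 := by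
  obtain ⟨W', h1, h2, h3⟩ := h.move o
  obtain ⟨W'', -, h5, h6⟩ := h1.s23.move o'
  rw [← h3, ← G3_swap, ← h6, h5, G3_swap, h2]

end Pool.Agent.Lib.MP_07b2d0_nt.Sch
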