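import Mathlib
import Pool.Agent.Lib.MP_07b2d0_nt.Prim
import Pool.Agent.Lib.MP_07b2d0_nt.FB

/-!
Bounds for the ratios of the quadrics.
-/

set_option autoImplicit false

namespace Pool.Agent.Lib.MP_07b2d0_nt.Sch

open NumberField Height

variable {L : Type} [Field L] [NumberField L] {ψ : L →+* ℂ} {n N : ℕ}

/-- Complex numbers coming from units. -/
def U (ψ : L →+* ℂ) (N : ℕ) (z : ℂ) : Prop := ∃ y, IsU N y ∧ ψ y = z

/-- Complex numbers coming from units of bounded height. -/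
def Bd (ψ : L →+* ℂ) (n N k : ℕ) (z : ℂ) : Prop :=
  ∃ y, IsU N y ∧ ψ y = z ∧ logHeight₁ y ≤ k * (2 * nfC n)

theorem U.ne {z : ℂ} (h : U ψ N z) : z ≠ 0 := by
  obtain ⟨y, hy, rfl⟩ := h
  simpa using hy.1

theorem U.mul {z w : ℂ} (h : U ψ N z) (h' : U ψ N w) : U ψ N (z * w) := by
  obtain ⟨y, hy, rfl⟩ := h
  obtain ⟨y', hy', rfl⟩ := h'
  exact ⟨_, hy.mul hy', map_mul _ _ _⟩

theorem U.div {z w : ℂ} (h : U ψ N z) (h' : U ψ N w) : U ψ N (z / w) := by
  obtain ⟨y, hy, rfl⟩ := h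
  obtain ⟨y', hy', rfl⟩ := h'
  exact ⟨_, hy.div hy', map_div₀ _ _ _⟩

theorem U.one : U ψ N 1 := ⟨1, isU_one, map_one _⟩

theorem Bd.mul {k l : ℕ} {z w : ℂ} (h : Bd ψ n N k z) (h' : Bd ψ n N l w) :
    Bd ψ n N (k + l) (z * w) := by
  obtain ⟨y, hy, rfl, e⟩ := h
  obtain ⟨y', hy', rfl, e'⟩ := h'
  refine ⟨_, hy.mul hy', map_mul _ _ _, (logHeight₁_mul_le _ _).trans ?_⟩
  push_cast
  linarith

theorem Bd.div {k l : ℕ} {z w : ℂ} (h : Bd ψ n N k z) (h' : Bd ψ n N l w) :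
    Bd ψ n N (k + l) (z / w) := by
  obtain ⟨y, hy, rfl, e⟩ := h
  obtain ⟨y', hy', rfl, e'⟩ := h'
  refine ⟨_, hy.div hy', map_div₀ _ _ _, (h_div_le _ _).trans ?_⟩
  push_cast
  linarith

theorem Bd.one (k : ℕ) : Bd ψ n N k 1 :=
  ⟨1, isU_one, map_one _, by rw [logHeight₁_one]; positivity⟩

theorem Bd.root {k d : ℕ} {z : ℂ} (hz : U ψ N z) (hd : d ≠ 0) (h : Bd ψ n N (d * k) (z ^ d)) :
    Bd ψ n N k z := by
  obtain ⟨y, hy, rfl⟩ := hz
  obtain ⟨y', -, e1, e⟩ := h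
  rw [← map_pow] at e1
  rw [ψ.injective e1, logHeight₁_pow, Nat.cast_mul, mul_assoc] at e
  exact ⟨y, hy, rfl, le_of_mul_le_mul_left e (by positivity)⟩

theorem Bd.sq {k : ℕ} {z : ℂ} (h : Bd ψ n N k z) : Bd ψ n N (2 * k) (z ^ 2) := by
  rw [two_mul, pow_two]
  exact h.mul h

/-- The three term unit equations hidden in the square root of the form. -/
theorem base (s : Small L n N) {x y z : ℂ} (hx : U ψ N x) (hy : U ψ N y) (hz : U ψ N z) {w : L}
    (hw : ψ w ^ 2 = sch x y z) : Bd ψ n N 2 (x / y) := by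
  obtain ⟨x, hx, rfl⟩ := hx
  obtain ⟨y, hy, rfl⟩ := hy
  obtain ⟨z, hz, rfl⟩ := hz
  have h1 : w ^ 2 = x ^ 2 + y ^ 2 + z ^ 2 - 2 * (x * y + x * z + y * z) :=
    ψ.injective (by simpa [sch, map_ofNat] using hw)
  have h2 := isU_two (K := L) s.h2
  have hx' := hx.2.1
  have hy' := hy.2.1
  have hz' := hz.2.1
  have h2' := h2.2.1
  have hw' : w ∈ RN L N := mem_RN_of_sq (by
    rw [h1]
    exact sub_mem (add_mem (add_mem (pow_mem hx' 2) (pow_mem hy' 2)) (pow_mem hz' 2))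
      (mul_mem h2' (add_mem (add_mem (mul_mem hx' hy') (mul_mem hx' hz')) (mul_mem hy' hz'))))
  have key : ∀ w : L, w ∈ RN L N → w ^ 2 = x ^ 2 + y ^ 2 + z ^ 2 - 2 * (x * y + x * z + y * z) →
      logHeight₁ ((x + y - z + w) / (2 * y)) ≤ 2 * nfC n := fun w hw' h1 => by
    have u1 : IsU N (x + y - z + w) := ((h2.mul hx).mul (h2.mul hy)).of_mul (y := x + y - z - w)
      (add_mem (sub_mem (add_mem hx' hy') hz') hw') (sub_mem (sub_mem (add_mem hx' hy') hz') hw')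
      (by linear_combination -h1)
    have u2 : IsU N (x - y - z + w) := ((h2.mul hy).mul (h2.mul hz)).of_mul (y := x - y - z - w)
      (add_mem (sub_mem (sub_mem hx' hy') hz') hw') (sub_mem (sub_mem (sub_mem hx' hy') hz') hw')
      (by linear_combination -h1)
    refine s.unit_eq (u1.div (h2.mul hy)) ?_
    have : (x + y - z + w) / (2 * y) - 1 = (x - y - z + w) / (2 * y) := by
      have := hy.1
      field_simp
      ring
    rw [this]
    exact u2.div (h2.mul hy)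
  refine ⟨_, hx.div hy, map_div₀ _ _ _, ?_⟩
  have e : x / y = (x + y - z + w) / (2 * y) * ((x + y - z + -w) / (2 * y)) := by
    have := hy.1
    field_simp
    linear_combination h1
  rw [e]
  refine (logHeight₁_mul_le _ _).trans ?_
  have k1 := key w hw' h1
  have k2 := key (-w) (neg_mem hw') (by rw [neg_sq, h1])
  push_cast
  linarith

theorem U.pr {f : Fin 3 → ℂ} (h : ∀ j, U ψ N (f j)) (o : Fin 3) : U ψ N (pr f o) :=
  (h _).mul (h _)

theorem pr_div (f g : Fin 3 → ℂ) (o : Fin 3) : pr (fun j => f j / g j) o = pr f o / pr g o := by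
  simp only [pr, div_mul_div_comm]

/-- From the products of two of three values to the values. -/
theorem peel {k : ℕ} {f : Fin 3 → ℂ} (hu : ∀ j, U ψ N (f j)) (h : ∀ o, Bd ψ n N k (pr f o))
    (j : Fin 3) : Bd ψ n N (2 * k) (f j) := by
  have h1 := (((h (j + 1)).mul (h (j + 2))).div (h j)).mul (Bd.one k)
  refine Bd.root (d := 2) (hu j) two_ne_zero ?_
  convert h1 using 1
  · ring
  · have e0 := (hu 0).ne
    have e1 := (hu 1).ne
    have e2 := (hu 2).ne
    fin_cases j <;> simp [pr] <;> field_simp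

/-- The invariant of degree sixteen. -/
def G4 (Z : Fin 3 → Fin 3 → Fin 3 → Fin 3 → ℂ) (o o' o'' : Fin 3) : ℂ :=
  G3 (fun i j k => pr (Z i j k) o'') o o'

theorem first_coord (s : Small L n N) {Z : Fin 3 → Fin 3 → Fin 3 → Fin 3 → ℂ}
    (hu : ∀ i j k l, U ψ N (Z i j k l)) {w : L} (hw : ∀ o o' o'', ψ w ^ 2 = G4 Z o o' o'')
    (i j k l : Fin 3) : Bd ψ n N 16 (Z i j k l / Z 0 j k l) := by
  have h1 : ∀ i j k o, U ψ N (pr (Z i j k) o) := fun i j k => U.pr (hu i j k)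
  have h2 : ∀ i j o o', U ψ N (pr (fun k => pr (Z i j k) o') o) := fun i j o o' =>
    U.pr (fun k => h1 i j k o') o
  have h3 : ∀ i o o' o'', U ψ N (pr (fun j => pr (fun k => pr (Z i j k) o'') o') o) :=
    fun i o o' o'' => U.pr (fun j => h2 i j o' o'') o
  refine peel (k := 8) (f := fun l => Z i j k l / Z 0 j k l) (fun l => (hu ..).div (hu ..))
    (fun o'' => ?_) l
  rw [pr_div]
  refine peel (k := 4) (f := fun k => pr (Z i j k) o'' / pr (Z 0 j k) o'')
    (fun k => (h1 ..).div (h1 ..)) (fun o' => ?_) k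
  rw [pr_div]
  refine peel (k := 2) (f := fun j => pr (fun k => pr (Z i j k) o'') o' /
    pr (fun k => pr (Z 0 j k) o'') o') (fun j => (h2 ..).div (h2 ..)) (fun o => ?_) j
  rw [pr_div]
  have h4 := hw o o' o''
  fin_cases i
  · rw [Fin.zero_eta, div_self (h3 ..).ne]
    exact Bd.one _
  · refine base s (h3 ..) (h3 ..) (h3 2 o o' o'') (w := w) (h4.trans ?_)
    simp only [G4, G3, sch, Fin.mk_one]
    ring
  · refine base s (h3 ..) (h3 ..) (h3 1 o o' o'') (w := w) (h4.trans ?_)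
    simp only [G4, G3, sch, Fin.reduceFinMk]
    ring

end Pool.Agent.Lib.MP_07b2d0_nt.Sch
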