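import Mathlib
import Pool.Agent.Lib.MP_07b2d0_nt.FA
import Pool.Agent.Lib.MP_07b2d0_nt.FC

/-!
Products of two theta constants of genus four as quadrics of genus three.
-/

set_option autoImplicit false

namespace Pool.Agent.Lib.MP_07b2d0_nt.Sch

open Complex

/-- A bit as an integer. -/
def bz (b : Bool) : ℤ := if b then 1 else 0

/-- A bit as an element of `Fin 2`. -/
def fb (b : Bool) : Fin 2 := if b then 1 else 0

theorem fb_bz (b : Bool) : ((fb b : ℕ) : ℤ) = bz b := by cases b <;> rfl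

theorem sum_four (f : (Fin 4 → Fin 2) → ℂ) : ∑ s, f s =
    ∑ σ : B3, (f ![fb σ.1, fb σ.2.1, fb σ.2.2, 0] + f ![fb σ.1, fb σ.2.1, fb σ.2.2, 1]) := by
  let e : B3 × Fin 2 ≃ (Fin 4 → Fin 2) :=
    Equiv.ofBijective (fun x => ![fb x.1.1, fb x.1.2.1, fb x.1.2.2, x.2]) (by decide +kernel)
  rw [← e.sum_comp, Fintype.sum_prod_type]
  simp only [Fin.sum_univ_two]
  rfl

variable {τ : Matrix (Fin 4) (Fin 4) ℂ}

/-- Theta constants of `2 τ`. -/
noncomputable def X (τ : Matrix (Fin 4) (Fin 4) ℂ) (σ : B3) (c d : ℤ) : ℂ :=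
  tz τ 2 ![2 * bz σ.1, 2 * bz σ.2.1, 2 * bz σ.2.2, c] ![0, 0, 0, d]

theorem X_per {σ : B3} {c c' : ℤ} (h : (4 : ℤ) ∣ c - c') (d : ℤ) : X τ σ c d = X τ σ c' d :=
  tz_per_a _ _ (fun i => by fin_cases i <;> simp [h]) _

theorem X_neg (σ : B3) (c d : ℤ) : X τ σ (-c) (-d) = X τ σ c d := by
  rw [X, X, ← tz_neg τ 2 ![_, _, _, c]]
  have : -![0, 0, 0, d] = ![0, 0, 0, -d] := by simp
  rw [this]
  exact tz_per_a _ _ (fun i => by fin_cases i <;> simp <;> omega) _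

theorem X_add (σ : B3) (c d : ℤ) : X τ σ c (d + 2) = I ^ c * X τ σ c d := by
  have := tz_per_b τ 2 ![2 * bz σ.1, 2 * bz σ.2.1, 2 * bz σ.2.2, c] ![0, 0, 0, d] ![0, 0, 0, 1]
  simpa [X, dz, Fin.sum_univ_four] using this

theorem core (hτ : (τ.map im).PosDef) (A B : B3) (h1 : (A.1 && B.1) = false)
    (h2 : (A.2.1 && B.2.1) = false) (h3 : (A.2.2 && B.2.2) = false) (t t' u u' : ℤ) :
    tz τ 1 (2 • ![bz A.1, bz A.2.1, bz A.2.2, t]) ![bz B.1, bz B.2.1, bz B.2.2, u] *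
      tz τ 1 (2 • ![bz A.1, bz A.2.1, bz A.2.2, t']) ![bz B.1, bz B.2.1, bz B.2.2, u'] =
    ∑ σ, sg (dt3 σ B) * (X τ (ad3 σ A) (t + t') (u + u') * X τ σ (t - t') (u - u') +
      X τ (ad3 σ A) (2 + t + t') (u + u') * X τ σ (2 + t - t') (u - u')) := by
  rw [tz_mul hτ, sum_four]
  refine Finset.sum_congr rfl fun σ _ => ?_
  have k1 : ∀ s a b : Bool, (a && b) = false →
      (2 * bz s + bz a + bz a) * bz b = 2 * bz (s && b) := by decide
  have k2 : ∀ s a : Bool, (4 : ℤ) ∣ 2 * bz s + bz a + bz a - 2 * bz (xor s a) := by decide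
  have k3 : ∀ p q r : Bool, I ^ (2 * bz p + 2 * bz q + 2 * bz r) = sg (xor p (xor q r)) := by
    intro p q r
    rw [← mul_add, ← mul_add, zpow_mul, zpow_ofNat, I_sq]
    cases p <;> cases q <;> cases r <;> norm_num [bz]
  have e1 : ∀ r : Fin 2, tz τ 2 (fun i => 2 * (![fb σ.1, fb σ.2.1, fb σ.2.2, r] i : ℕ) +
      ![bz A.1, bz A.2.1, bz A.2.2, t] i + ![bz A.1, bz A.2.1, bz A.2.2, t'] i)
      (![bz B.1, bz B.2.1, bz B.2.2, u] + ![bz B.1, bz B.2.1, bz B.2.2, u']) =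
      sg (dt3 σ B) * X τ (ad3 σ A) (2 * (r : ℕ) + t + t') (u + u') := fun r => by
    have : ![bz B.1, bz B.2.1, bz B.2.2, u] + ![bz B.1, bz B.2.1, bz B.2.2, u'] =
        ![0, 0, 0, u + u'] + 2 • ![bz B.1, bz B.2.1, bz B.2.2, 0] := by
      funext i
      fin_cases i <;> simp [two_mul]
    rw [this, tz_per_b]
    congr 1
    · simp only [dz, Fin.sum_univ_four, Matrix.cons_val_zero, Matrix.cons_val_one,
        Matrix.cons_val, fb_bz, mul_zero, add_zero, k1 _ _ _ h1, k1 _ _ _ h2, k1 _ _ _ h3, k3, dt3]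
    · exact tz_per_a _ _ (fun i => by fin_cases i <;> simp [fb_bz, ad3, k2]) _
  have e2 : ∀ r : Fin 2, tz τ 2 (fun i => 2 * (![fb σ.1, fb σ.2.1, fb σ.2.2, r] i : ℕ) +
      ![bz A.1, bz A.2.1, bz A.2.2, t] i - ![bz A.1, bz A.2.1, bz A.2.2, t'] i)
      (![bz B.1, bz B.2.1, bz B.2.2, u] - ![bz B.1, bz B.2.1, bz B.2.2, u']) =
      X τ σ (2 * (r : ℕ) + t - t') (u - u') := fun r => by
    rw [X]
    congr 1 <;> funext i <;> fin_cases i <;> simp [fb_bz]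
  rw [e1, e1, e2, e2]
  simp
  ring

/-- The theta constants with product characteristics. -/
noncomputable def Zt (τ : Matrix (Fin 4) (Fin 4) ℂ) (s : ℂ) (i j k l : Fin 3) : ℂ :=
  tz τ 1 (2 • ![bz (al i), bz (al j), bz (al k), bz (al l)])
    ![bz (be i), bz (be j), bz (be k), bz (be l)] / s

theorem cl_pr (hτ : (τ.map im).PosDef) (s : ℂ) (o : Fin 3) :
    Cl fun i j k => pr (Zt τ s i j k) o := by
  have k : ∀ i, (al i && be i) = false := by decide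
  have key : ∀ (Y : B3 → ℂ) (c : ℂ) (t t' u u' : ℤ), bz (al (o + 1)) = t → bz (al (o + 2)) = t' →
      bz (be (o + 1)) = u → bz (be (o + 2)) = u' → (∀ σ σ', X τ σ' (t + t') (u + u') *
        X τ σ (t - t') (u - u') + X τ σ' (2 + t + t') (u + u') * X τ σ (2 + t - t') (u - u') =
          c * (Y σ' * Y σ)) → Cl fun i j k => pr (Zt τ s i j k) o := by
    rintro Y c _ _ _ _ rfl rfl rfl rfl h
    convert Cl.smul ⟨Y, fun _ _ _ => rfl⟩ (c / (s * s)) using 4 with i j l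
    rw [pr, Zt, Zt, div_mul_div_comm,
      core hτ (al i, al j, al l) (be i, be j, be l) (k i) (k j) (k l), P, Finset.mul_sum,
      Finset.sum_div]
    exact Finset.sum_congr rfl fun σ _ => by rw [h]; ring
  fin_cases o
  · refine key (fun σ => X τ σ 1 1) (-2 * I) 0 1 1 0 rfl rfl rfl rfl fun σ σ' => ?_
    have e : ∀ σ, X τ σ (-1) 1 = -I * X τ σ 1 1 := fun σ => by
      have := X_add (τ := τ) σ 1 (-1)
      rw [← X_neg σ 1 (-1), neg_neg] at this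
      norm_num at this
      rw [this, ← mul_assoc]
      simp
    have e' : ∀ σ, X τ σ 3 1 = X τ σ (-1) 1 := fun σ => X_per (by norm_num) _
    norm_num [e, e']
    ring
  · refine key (fun σ => X τ σ 1 0) 2 1 0 0 0 rfl rfl rfl rfl fun σ σ' => ?_
    have e : ∀ σ, X τ σ 3 0 = X τ σ 1 0 := fun σ =>
      (X_per (c' := -1) (by norm_num) _).trans (by simpa using X_neg (τ := τ) σ 1 0)
    norm_num [e]
    ring
  · refine key (fun σ => X τ σ 0 1) 1 0 0 0 1 rfl rfl rfl rfl fun σ σ' => ?_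
    have e : ∀ σ, X τ σ 0 (-1) = X τ σ 0 1 := fun σ => by simpa using X_neg (τ := τ) σ 0 1
    have e' : ∀ σ, X τ σ 2 1 = 0 := fun σ => by
      have h1 := X_add (τ := τ) σ 2 (-1)
      rw [← X_neg σ 2 (-1), neg_neg, X_per (c := -2) (c' := 2) (by norm_num)] at h1
      norm_num at h1
      linear_combination h1 / 2
    norm_num [e, e']

theorem Zt_perm (s : ℂ) (e : Fin 4 ≃ Fin 4) (v : Fin 4 → Fin 3) :
    Zt (τ.submatrix e e) s (v (e 0)) (v (e 1)) (v (e 2)) (v (e 3)) =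
      Zt τ s (v 0) (v 1) (v 2) (v 3) := by
  rw [Zt, Zt, ← tz_perm τ 1 _ _ e]
  have h : ∀ f : Fin 3 → ℤ, ![f (v 0), f (v 1), f (v 2), f (v 3)] = f ∘ v := fun f => by
    funext i
    fin_cases i <;> rfl
  have h' : ∀ f : Fin 3 → ℤ, ![f (v (e 0)), f (v (e 1)), f (v (e 2)), f (v (e 3))] = f ∘ v ∘ e :=
    fun f => by
      funext i
      fin_cases i <;> rfl
  rw [h fun i => bz (al i), h fun i => bz (be i), h' fun i => bz (al i), h' fun i => bz (be i)]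
  rfl

/-- Systems of theta constants. -/
def Th (s : ℂ) (Z : Fin 3 → Fin 3 → Fin 3 → Fin 3 → ℂ) : Prop :=
  ∃ τ : Matrix (Fin 4) (Fin 4) ℂ, (τ.map im).PosDef ∧ Z = Zt τ s

variable {s : ℂ} {Z : Fin 3 → Fin 3 → Fin 3 → Fin 3 → ℂ}

theorem Th.s12 (h : Th s Z) : Th s fun i j k l => Z j i k l := by
  obtain ⟨τ, h, rfl⟩ := h
  refine ⟨τ.submatrix (Equiv.swap 0 1) (Equiv.swap 0 1), h.submatrix (Equiv.injective _), ?_⟩
  funext i j k l
  exact (Zt_perm s (Equiv.swap 0 1) ![j, i, k, l]).symm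

theorem Th.s23 (h : Th s Z) : Th s fun i j k l => Z i k j l := by
  obtain ⟨τ, h, rfl⟩ := h
  refine ⟨τ.submatrix (Equiv.swap 1 2) (Equiv.swap 1 2), h.submatrix (Equiv.injective _), ?_⟩
  funext i j k l
  exact (Zt_perm s (Equiv.swap 1 2) ![i, k, j, l]).symm

theorem Th.s34 (h : Th s Z) : Th s fun i j k l => Z i j l k := by
  obtain ⟨τ, h, rfl⟩ := h
  refine ⟨τ.submatrix (Equiv.swap 2 3) (Equiv.swap 2 3), h.submatrix (Equiv.injective _), ?_⟩
  funext i j k l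
  exact (Zt_perm s (Equiv.swap 2 3) ![i, j, l, k]).symm

theorem Th.cl (h : Th s Z) (o : Fin 3) : Cl fun i j k => pr (Z i j k) o := by
  obtain ⟨τ, h, rfl⟩ := h
  exact cl_pr h s o

theorem G4_s23 (Z : Fin 3 → Fin 3 → Fin 3 → Fin 3 → ℂ) (o o' o'' : Fin 3) :
    G4 (fun i j k l => Z i k j l) o o' o'' = G4 Z o' o o'' :=
  G3_swap (fun i j k => pr (Z i j k) o'') o o'

theorem G4_s34 (Z : Fin 3 → Fin 3 → Fin 3 → Fin 3 → ℂ) (o o' o'' : Fin 3) :
    G4 (fun i j k l => Z i j l k) o o' o'' = G4 Z o o'' o' := by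
  simp only [G4, G3, pr]
  congr 1 <;> ring

theorem Th.all (h : Th s Z) (o o' o'' : Fin 3) : G4 Z o o' o'' = G4 Z 2 2 2 := by
  have h1 : G4 Z o o' o'' = G4 Z 2 2 o'' := (h.cl o'').all o o'
  have h2 : G4 (fun i j k l => Z i j l k) 2 o'' 2 = G4 (fun i j k l => Z i j l k) 2 2 2 :=
    (h.s34.cl 2).all 2 o''
  rw [h1, ← G4_s34, h2, G4_s34]

theorem Th.val (h : Th s Z) : G4 (fun i j k l => Z j i k l) 2 2 2 = G4 Z 2 2 2 := (h.cl 2).val

open NumberField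

variable {L : Type} [Field L] [NumberField L] {ψ : L →+* ℂ} {n N : ℕ}

theorem Th.bound (h : Th s Z) (hs : Small L n N) (hu : ∀ i j k l, U ψ N (Z i j k l)) {w : L}
    (hw : ψ w ^ 2 = G4 Z 2 2 2) (i j k l : Fin 3) : Bd ψ n N 64 (Z i j k l / Z 0 0 0 0) := by
  have H : ∀ {Z : Fin 3 → Fin 3 → Fin 3 → Fin 3 → ℂ}, Th s Z → (∀ i j k l, U ψ N (Z i j k l)) →
      ψ w ^ 2 = G4 Z 2 2 2 → ∀ i j k l, Bd ψ n N 16 (Z i j k l / Z 0 j k l) :=
    fun h hu hw => first_coord hs hu fun o o' o'' => hw.trans (h.all ..).symm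
  have h1 := H h hu hw i j k l
  have h2 := H h.s12 (fun _ _ _ _ => hu ..) (hw.trans h.val.symm) j 0 k l
  have w3 := hw.trans (G4_s23 Z 2 2 2).symm
  have h3 := H h.s23.s12 (fun _ _ _ _ => hu ..) (w3.trans h.s23.val.symm) k 0 0 l
  have w4 := (hw.trans (G4_s34 Z 2 2 2).symm).trans (G4_s23 _ 2 2 2).symm
  have h4 := H h.s34.s23.s12 (fun _ _ _ _ => hu ..) (w4.trans h.s34.s23.val.symm) l 0 0 0
  convert ((h1.mul h2).mul h3).mul h4 using 1
  have := fun i j k l => (hu i j k l).ne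
  field_simp (disch := exact this ..)

end Pool.Agent.Lib.MP_07b2d0_nt.Sch
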