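import Mathlib

/-!
Theta constants with characteristics in genus four and the Schottky form.
-/

set_option autoImplicit false

namespace Pool.Agent.Lib.MP_07b2d0_nt.Sch

open Complex

/-- The theta constant with characteristic `(a, b)`:
the sum over `n` in `Z^4` of `exp (pi i (p^T tau p + p . b))`, `p = n + a / 2`. -/
noncomputable def theta (τ : Matrix (Fin 4) (Fin 4) ℂ) (a b : Fin 4 → Fin 2) : ℂ :=
  ∑' n : Fin 4 → ℤ, exp (Real.pi * I *
    (∑ i, ∑ j, τ i j * ((n i : ℂ) + ((a i : ℕ) : ℂ) / 2) * ((n j : ℂ) + ((a j : ℕ) : ℂ) / 2) +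
      ∑ i, ((n i : ℂ) + ((a i : ℕ) : ℂ) / 2) * ((b i : ℕ) : ℂ)))

/-- The product of the eight theta constants with characteristics `(μ 0 0 0, ν * * *)`. -/
noncomputable def rho (τ : Matrix (Fin 4) (Fin 4) ℂ) (μ ν : Fin 2) : ℂ :=
  ∏ v : Fin 3 → Fin 2, theta τ ![μ, 0, 0, 0] ![ν, v 0, v 1, v 2]

/-- The Schottky form. -/
noncomputable def schottky (τ : Matrix (Fin 4) (Fin 4) ℂ) : ℂ :=
  rho τ 0 0 ^ 2 + rho τ 0 1 ^ 2 + rho τ 1 0 ^ 2 -
    2 * (rho τ 0 0 * rho τ 0 1 + rho τ 0 0 * rho τ 1 0 + rho τ 0 1 * rho τ 1 0)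

end Pool.Agent.Lib.MP_07b2d0_nt.Sch
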