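import Mathlib
import Pool.Agent.Lib.MP_07b2d0_nt.FD
import Pool.Agent.Lib.MP_07b2d0_nt.FStmt

/-!
Field extensions and the passage to all characteristics.
-/

set_option autoImplicit false

namespace Pool.Agent.Lib.MP_07b2d0_nt.Sch

open Complex NumberField Height Module Polynomial

variable {τ : Matrix (Fin 4) (Fin 4) ℂ}

theorem theta_eq (τ : Matrix (Fin 4) (Fin 4) ℂ) (a b : Fin 4 → Fin 2) :
    theta τ a b = tz τ 1 (2 • fun i => ((a i : ℕ) : ℤ)) fun i => ((b i : ℕ) : ℤ) := by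
  refine tsum_congr fun n => ?_
  rw [et]
  congr 2
  simp only [qf, dz, Fin.sum_univ_four, Pi.add_apply, nsmul_eq_mul, Pi.mul_apply, Nat.cast_ofNat,
    Pi.ofNat_apply]
  push_cast
  ring

theorem Zt_eq (s : ℂ) (i j k l : Fin 3) : Zt τ s i j k l =
    theta τ ![fb (al i), fb (al j), fb (al k), fb (al l)]
      ![fb (be i), fb (be j), fb (be k), fb (be l)] / s := by
  rw [Zt, theta_eq]
  congr 2
  · congr 1
    funext r
    fin_cases r <;> simp [fb_bz]
  · funext r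
    fin_cases r <;> simp [fb_bz]

theorem G4_eq (s : ℂ) : G4 (Zt τ s) 2 2 2 = schottky τ / s ^ 16 := by
  let e : Fin 2 × Fin 2 × Fin 2 ≃ (Fin 3 → Fin 2) :=
    Equiv.ofBijective (fun x => ![x.1, x.2.1, x.2.2]) (by decide +kernel)
  have h : ∀ μ ν, rho τ μ ν = ∏ x, ∏ y, ∏ z, theta τ ![μ, 0, 0, 0] ![ν, x, y, z] := fun μ ν => by
    rw [rho, ← e.prod_comp]
    simp only [Fintype.prod_prod_type]
    rfl
  simp only [G4, G3, pr, sch, Zt_eq, schottky, h, Fin.prod_univ_two]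
  simp only [Fin.reduceAdd, al, be, fb, Fin.reduceEq, decide_true, decide_false, ↓reduceIte,
    Bool.false_eq_true]
  ring

/-- Theta constants of the second order. -/
noncomputable def Th2 (τ : Matrix (Fin 4) (Fin 4) ℂ) (s : Fin 4 → Fin 2) : ℂ :=
  tz τ 2 (fun i => 2 * (s i : ℕ)) 0

/-- The sign character. -/
def sn (s b : Fin 4 → Fin 2) : ℤ := (-1) ^ ∑ i, (s i : ℕ) * b i

theorem theta_sq (hτ : (τ.map im).PosDef) (a b : Fin 4 → Fin 2) :
    theta τ a b ^ 2 = ∑ s, (sn s b * sn a b : ℤ) * (Th2 τ (s + a) * Th2 τ s) := by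
  rw [sq, theta_eq, tz_mul hτ]
  refine Finset.sum_congr rfl fun s _ => ?_
  rw [← two_smul ℕ, ← zero_add (2 • _), tz_per_b, sub_self, mul_assoc]
  congr 1
  · have : dz (fun i => 2 * (s i : ℕ) + (a i : ℕ) + (a i : ℕ)) (fun i => ((b i : ℕ) : ℤ)) =
        ((2 * (∑ i, (s i : ℕ) * b i + ∑ i, (a i : ℕ) * b i) : ℕ) : ℤ) := by
      simp only [dz, Fin.sum_univ_four]
      push_cast
      ring
    rw [this, zpow_natCast, pow_mul, I_sq, pow_add]
    simp [sn]
  · have k : ∀ x y : Fin 2, (4 : ℤ) ∣ 2 * (x : ℕ) + (y : ℕ) + (y : ℕ) - 2 * ((x + y : Fin 2) : ℕ) := by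
      decide
    congr 1
    · exact tz_per_a _ _ (fun i => k _ _) _
    · simp [Th2]

theorem sn_orth : ∀ s s' : Fin 4 → Fin 2, ∑ b, sn s b * sn s' b = if s' = s then 16 else 0 := by
  decide +kernel

theorem Th2_sq (hτ : (τ.map im).PosDef) (s : Fin 4 → Fin 2) :
    ∑ b, (sn s b : ℤ) * theta τ 0 b ^ 2 = 16 * Th2 τ s ^ 2 := by
  have h0 : ∀ b, sn 0 b = 1 := fun b => by simp [sn]
  simp only [theta_sq hτ, h0, mul_one, add_zero, Finset.mul_sum, ← mul_assoc]
  rw [Finset.sum_comm]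
  simp only [← Finset.sum_mul, ← Int.cast_mul, ← Int.cast_sum, sn_orth]
  simp [sq, mul_assoc]

theorem ext_sqrt (l : ℕ) : ∀ (L : Type) [Field L] [NumberField L] (ψ : L →+* ℂ) (z : Fin l → ℂ),
    (∀ i, ∃ c, ψ c = z i ^ 2) → ∃ (M : Type) (_ : Field M) (_ : NumberField M) (χ : M →+* ℂ)
      (ι : L →+* M), (∀ x, χ (ι x) = ψ x) ∧ finrank ℚ M ≤ 2 ^ l * finrank ℚ L ∧
        ∀ i, ∃ y, χ y = z i := by
  induction l with
  | zero => exact fun L _ _ ψ z _ => ⟨L, inferInstance, inferInstance, ψ, RingHom.id L, fun _ => rfl, by simp, fun i => i.elim0⟩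
  | succ l ih =>
    intro L _ _ ψ z h
    let := ψ.toAlgebra
    obtain ⟨c, hc⟩ := h 0
    have hm : (Polynomial.X ^ 2 - C c).Monic := monic_X_pow_sub_C c two_ne_zero
    have h0 : aeval (z 0) (Polynomial.X ^ 2 - C c) = 0 := by
      rw [map_sub, aeval_X_pow, aeval_C, sub_eq_zero]
      exact hc.symm
    have hi : IsIntegral L (z 0) := ⟨_, hm, h0⟩
    let L' := IntermediateField.adjoin L {z 0}
    have := IntermediateField.adjoin.finiteDimensional hi
    have : NumberField L' := NumberField.of_module_finite L L'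
    have h1 : finrank L L' ≤ 2 := by
      rw [IntermediateField.adjoin.finrank hi]
      exact (natDegree_le_natDegree (minpoly.min L _ hm h0)).trans natDegree_X_pow_sub_C.le
    obtain ⟨M, _, _, χ, ι, e1, e2, e3⟩ := ih L' (algebraMap L' ℂ) (fun i => z i.succ) fun i => by
      obtain ⟨d, hd⟩ := h i.succ
      exact ⟨algebraMap L L' d, hd⟩
    refine ⟨M, inferInstance, inferInstance, χ, ι.comp (algebraMap L L'), fun x => e1 _, e2.trans ?_, fun i => ?_⟩
    · rw [← finrank_mul_finrank ℚ L L', pow_succ, mul_assoc, mul_comm 2]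
      gcongr
    · exact Fin.cases ⟨ι (IntermediateField.AdjoinSimple.gen L (z 0)), e1 _⟩ e3 i

variable {K : Type} [Field K] [NumberField K] {φ : K →+* ℂ} {n N : ℕ}

theorem logHeight_map_le {L : Type} [Field L] [NumberField L] (ι : K →+* L) (x : K) :
    logHeight₁ (ι x) ≤ finrank ℚ L * logHeight₁ x := by
  let := ι.toAlgebra
  have h := mulHeight₁_algebraMap (L := L) x
  have h1 : finrank K L ≤ finrank ℚ L := by
    rw [← finrank_mul_finrank ℚ K L]
    exact Nat.le_mul_of_pos_left _ finrank_pos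
  change logHeight₁ (algebraMap K L x) ≤ _
  rw [logHeight₁_eq_log_mulHeight₁, h, Real.log_pow, ← logHeight₁_eq_log_mulHeight₁]
  exact mul_le_mul_of_nonneg_right (by exact_mod_cast h1) (zero_le_logHeight₁ x)

theorem lift (s : Small K n N) {α : Type} [Fintype α] {z : α → ℂ} {x : α → K}
    (hx : ∀ i, φ (x i) = z i ^ 2) (he : ∀ i (v : FinitePlace K), v (N : K) = 1 → Even (ord v (x i))) :
    ∃ (L : Type) (_ : Field L) (_ : NumberField L) (ψ : L →+* ℂ) (ι : K →+* L),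
      Small L (extN (Fintype.card α) n) N ∧ (∀ x, ψ (ι x) = φ x) ∧ ∀ i, ∃ y, ψ y = z i := by
  classical
  let g : α → K := fun i => if x i = 0 then 1 else x i
  obtain ⟨L, _, _, ι, h1, h2, h3⟩ := exists_ext s.hD s.hd s.hN s.hNn
    (fun t => g ((Fintype.equivFin α).symm t)) (fun t => by
      simp only [g]
      split_ifs with h
      exacts [one_ne_zero, h]) (fun t v hv => by
      simp only [g]
      split_ifs with h
      · rw [(fp_eq_one_iff v one_ne_zero).mp (map_one v)]; simp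
      · exact he _ v hv)
  let := ι.toAlgebra
  let := φ.toAlgebra
  have : IsScalarTower ℚ K L := IsScalarTower.of_algebraMap_eq' (Subsingleton.elim _ _)
  have : Algebra.IsAlgebraic K L := Algebra.IsAlgebraic.tower_top (K := ℚ) K
  let ψ : L →ₐ[K] ℂ := IsAlgClosed.lift
  refine ⟨L, inferInstance, inferInstance, ψ, ι, ⟨h1, h2, s.hN, s.hNn.trans (le_extN _ _), s.h2⟩, ψ.commutes, fun i => ?_⟩
  by_cases h : x i = 0
  · exact ⟨0, by simpa [h, eq_comm (a := (0 : ℂ))] using hx i⟩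
  obtain ⟨r, hr⟩ := h3 (Fintype.equivFin α i)
  simp only [g, Equiv.symm_apply_apply, if_neg h] at hr
  have h4 : ψ r ^ 2 = z i ^ 2 := by rw [← hx, sq, ← map_mul, ← hr]; exact ψ.commutes _
  rcases sq_eq_sq_iff_eq_or_eq_neg.mp h4 with h5 | h5
  · exact ⟨r, h5⟩
  · exact ⟨-r, by simp [h5]⟩

theorem lift_unit (s : Small K n N) {α : Type} [Fintype α] {z : α → ℂ}
    (hz : ∀ i, U φ N (z i ^ 2)) :
    ∃ (L : Type) (_ : Field L) (_ : NumberField L) (ψ : L →+* ℂ) (ι : K →+* L),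
      Small L (extN (Fintype.card α) n) N ∧ (∀ x, ψ (ι x) = φ x) ∧ ∀ i, U ψ N (z i) := by
  choose x hx he using hz
  obtain ⟨L, _, _, ψ, ι, h1, h2, h3⟩ := lift s he fun i v hv => by
    have e1 := mem_RN_iff_ord.mp (hx i).2.1 v hv
    have e2 := mem_RN_iff_ord.mp (hx i).2.2 v hv
    rw [ord_inv] at e2
    exact ⟨0, by omega⟩
  refine ⟨L, inferInstance, inferInstance, ψ, ι, h1, h2, fun i => ?_⟩
  obtain ⟨y, hy⟩ := h3 i
  have e : ι (x i) = y ^ 2 := ψ.injective (by rw [h2, he, map_pow, hy])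
  have hu := (hx i).map ι s.hN
  rw [e] at hu
  exact ⟨y, ⟨fun h => hu.1 (by simp [h]), mem_RN_of_sq hu.2.1,
    mem_RN_of_sq (by rw [inv_pow]; exact hu.2.2)⟩, hy⟩

theorem h_signed (hD : finrank ℚ K ≤ n) {ε : (Fin 4 → Fin 2) → ℤ} (hε : ∀ s, ε s = 1 ∨ ε s = -1)
    {f : (Fin 4 → Fin 2) → K} {H : ℝ} (hf : ∀ s, logHeight₁ (f s) ≤ H) :
    logHeight₁ (∑ s, (ε s : K) * f s) ≤ 3 * n + 16 * H := by
  refine (logHeight₁_sum_le _ _).trans (add_le_add ?_ ?_)
  · rw [totalWeight_eq_finrank, mul_comm, Finset.card_univ]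
    refine mul_le_mul ?_ (by exact_mod_cast hD) (by positivity) (by norm_num)
    rw [show ((Fintype.card (Fin 4 → Fin 2) : ℕ) : ℝ) = 2 ^ 4 by simp; norm_num, Real.log_pow]
    push_cast
    linarith [Real.log_two_lt_d9]
  · refine (Finset.sum_le_card_nsmul _ _ H fun s _ => ?_).trans (by simp)
    rcases hε s with h | h <;> simpa [h] using hf s

theorem sn_pm (s b : Fin 4 → Fin 2) : sn s b = 1 ∨ sn s b = -1 := neg_one_pow_eq_or _ _

/-- The final constant. -/
def cF (n : ℕ) : ℕ := 4 * (7 * (2 ^ 16 * n) + 32 * (2 ^ 16 * n * (3 * n + 2048 * (2 * nfC n))))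

theorem all_chars (hτ : (τ.map im).PosDef) (hD : finrank ℚ K ≤ n) {t : ℂ}
    (h : ∀ b, Bd φ n N 64 (theta τ 0 b / t)) (a b : Fin 4 → Fin 2) {x : K}
    (hx : φ x = (theta τ a b / t) ^ 8) : logHeight₁ x ≤ cF n := by
  choose y _ hy hh using h
  let e : Fin 16 ≃ (Fin 4 → Fin 2) := (finFunctionFinEquiv (m := 2) (n := 4)).symm
  have hc : ∀ s, φ (∑ b, (sn s b : K) * y b ^ 2) = (4 * Th2 τ s / t) ^ 2 := fun s => by
    simp only [map_sum, map_mul, map_intCast, map_pow, hy, div_pow, ← mul_div_assoc,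
      ← Finset.sum_div, Th2_sq hτ]
    ring
  obtain ⟨M, _, _, χ, ι, e1, e2, e3⟩ := ext_sqrt 16 K φ (fun i => 4 * Th2 τ (e i) / t)
    fun i => ⟨_, hc _⟩
  have e4 : finrank ℚ M ≤ 2 ^ 16 * n := e2.trans (by gcongr)
  choose η hη using fun s => e3 (e.symm s)
  simp only [Equiv.apply_symm_apply] at hη
  have h1 : ∀ s, logHeight₁ (η s) ≤ (2 ^ 16 * n : ℕ) * (3 * n + 2048 * (2 * nfC n)) := fun s => by
    have k1 : η s ^ 2 = ι (∑ b, (sn s b : K) * y b ^ 2) := χ.injective (by rw [e1, hc, map_pow, hη])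
    have k2 := h_signed hD (sn_pm s) (f := fun b => y b ^ 2) (H := 2 * (64 * (2 * nfC n)))
      fun b => by rw [logHeight₁_pow]; have := hh b; push_cast at this ⊢; linarith
    have k3 := logHeight_map_le ι (∑ b, (sn s b : K) * y b ^ 2)
    rw [← k1, logHeight₁_pow] at k3
    have k4 := zero_le_logHeight₁ (η s)
    refine le_trans (by push_cast at k3; linarith) (mul_le_mul (a := (finrank ℚ M : ℝ))
      (by exact_mod_cast e4) (k2.trans_eq (by ring)) (zero_le_logHeight₁ _) (by positivity))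
  have h2 := h_signed e4 (ε := fun s => sn s b * sn a b) (f := fun s => η (s + a) * η s) (fun s => by
    rcases sn_pm s b with h | h <;> rcases sn_pm a b with h' | h' <;> simp [h, h'])
    fun s => (logHeight₁_mul_le _ _).trans (add_le_add (h1 _) (h1 _))
  have h3 : ι x = ((∑ s, ((sn s b * sn a b : ℤ) : M) * (η (s + a) * η s)) / 2 ^ 4) ^ 4 := by
    refine χ.injective ?_
    rw [e1, hx, show 8 = 2 * 4 from rfl, pow_mul, div_pow, theta_sq hτ, map_pow, map_div₀, map_sum,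
      Finset.sum_div, Finset.sum_div]
    congr 1
    refine Finset.sum_congr rfl fun s _ => ?_
    simp only [map_mul, map_intCast, hη, map_pow, map_ofNat]
    ring
  refine (logHeight_le_map ι x).trans ?_
  have h4 := h_two_le e4
  rw [h3, logHeight₁_pow]
  grw [h_div_le, logHeight₁_pow, h2, h4]
  unfold cF
  push_cast
  exact le_of_eq (by ring)

theorem main (s : Small K n N) (hτ : (τ.map im).PosDef) (h0 : theta τ 0 0 ≠ 0)
    (hu : ∀ a b : Fin 4 → Fin 2, a * b = 0 → U φ N ((theta τ a b / theta τ 0 0) ^ 8)) {y : K}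
    (hy : φ y = schottky τ / theta τ 0 0 ^ 16)
    (he : ∀ v : FinitePlace K, v (N : K) = 1 → Even (ord v y)) (a b : Fin 4 → Fin 2) {x : K}
    (hx : φ x = (theta τ a b / theta τ 0 0) ^ 8) :
    logHeight₁ x ≤ cF (extN 81 (extN 81 (extN 81 (extN 1 n)))) := by
  obtain ⟨t, ht⟩ : ∃ t, t = theta τ 0 0 := ⟨_, rfl⟩
  rw [← ht] at h0 hu hy hx
  obtain ⟨w, hw⟩ := IsAlgClosed.exists_eq_mul_self (φ y)
  let z : Fin 3 × Fin 3 × Fin 3 × Fin 3 → ℂ := fun e => Zt τ t e.1 e.2.1 e.2.2.1 e.2.2.2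
  have up : ∀ {K L : Type} [Field K] [NumberField K] [Field L] [NumberField L] {φ : K →+* ℂ}
      {ψ : L →+* ℂ} {ι : K →+* L}, (∀ x, ψ (ι x) = φ x) → ∀ {z : ℂ}, U φ N z → U ψ N z := by
    rintro K L _ _ _ _ φ ψ ι h _ ⟨u, h1, rfl⟩
    exact ⟨ι u, h1.map ι s.hN, h u⟩
  obtain ⟨L1, _, _, ψ1, ι1, s1, c1, w1⟩ := lift s (α := Fin 1) (z := fun _ => w) (x := fun _ => y)
    (fun _ => by rw [hw, sq]) fun _ => he
  obtain ⟨L2, _, _, ψ2, ι2, s2, c2, u2⟩ := lift_unit s1 (φ := ψ1) (z := fun e => (z e ^ 2) ^ 2)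
    fun e => by
      refine up c1 ?_
      have k : ∀ i, fb (al i) * fb (be i) = 0 := by decide
      rw [← pow_mul, ← pow_mul]
      simp only [z, Zt_eq]
      exact hu _ _ (funext fun r => by fin_cases r <;> exact k _)
  obtain ⟨L3, _, _, ψ3, ι3, s3, c3, u3⟩ := lift_unit s2 u2
  obtain ⟨L4, _, _, ψ4, ι4, s4, c4, u4⟩ := lift_unit s3 u3
  obtain ⟨w', hw'⟩ := w1 0
  simp only [Fintype.card_prod, Fintype.card_fin, Nat.reduceMul] at s4
  have hb := Th.bound (s := t) ⟨τ, hτ, rfl⟩ s4 (fun i j k l => u4 (i, j, k, l))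
    (w := ι4 (ι3 (ι2 w'))) (by rw [c4, c3, c2, hw', G4_eq, ← hy, hw, sq])
  refine (logHeight_le_map (ι4.comp (ι3.comp (ι2.comp ι1))) x).trans
    (all_chars (φ := ψ4) (N := N) (t := t) hτ s4.hD (fun b => ?_) a b ?_)
  · have e0 : Zt τ t 0 0 0 0 = 1 := by
      rw [Zt_eq, div_eq_one_iff_eq h0, ht]
      congr 1 <;> decide
    have := hb (b 0).castSucc (b 1).castSucc (b 2).castSucc (b 3).castSucc
    rw [e0, div_one, Zt_eq] at this
    convert this using 3 <;> clear this <;> revert b <;> decide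
  · simp only [RingHom.comp_apply, c4, c3, c2, c1, hx]

theorem exists_place (hN : N ≠ 0) :
    ∃ v : IsDedekindDomain.HeightOneSpectrum (𝓞 K), (N : 𝓞 K) ∉ v.asIdeal := by
  have h1 : Ideal.span {((2 * N + 1 : ℕ) : 𝓞 K)} ≠ ⊤ := fun h => by
    have := Ideal.absNorm_span_natCast (S := 𝓞 K) (2 * N + 1)
    rw [h, Ideal.absNorm_top, eq_comm, Nat.pow_eq_one, RingOfIntegers.rank] at this
    have := finrank_pos (R := ℚ) (M := K)
    omega
  obtain ⟨m, hm, h2⟩ := Ideal.exists_le_maximal _ h1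
  have h3 := h2 (Ideal.mem_span_singleton_self _)
  refine ⟨⟨m, hm.isPrime, fun h => ?_⟩, fun h => hm.ne_top ((Ideal.eq_top_iff_one _).mpr ?_)⟩
  · rw [h, Ideal.mem_bot] at h3
    exact Nat.cast_ne_zero.mpr (by omega) h3
  · simpa using m.sub_mem h3 (m.mul_mem_left 2 h)

end Pool.Agent.Lib.MP_07b2d0_nt.Sch
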