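import Mathlib
import Pool.Agent.Lib.MP_07b2d0_nt.FE

/-!
The Schottky form for all hyperplanes of the standard Lagrangian.
-/

set_option autoImplicit false

namespace Pool.Agent.Lib.MP_07b2d0_nt.Sch

open Complex Matrix Finset

section

variable {ι : Type} [Fintype ι] [DecidableEq ι]

/-- Change of basis. -/
noncomputable def cg (U : Matrix ι ι ℤ) (τ : Matrix ι ι ℂ) : Matrix ι ι ℂ :=
  (U.map (Int.castRingHom ℂ))ᵀ * τ * U.map (Int.castRingHom ℂ)

omit [DecidableEq ι] in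
theorem qf_eq (τ : Matrix ι ι ℂ) (m : ι → ℤ) :
    qf τ m = (fun i => (m i : ℂ)) ⬝ᵥ τ *ᵥ fun i => (m i : ℂ) := by
  simp only [qf, dotProduct, mulVec, mul_sum]
  exact sum_congr rfl fun i _ => sum_congr rfl fun j _ => by ring

theorem tz_cg {U U' : Matrix ι ι ℤ} (h : U * U' = 1) (τ : Matrix ι ι ℂ) (k : ℕ) (a b : ι → ℤ) :
    tz (cg U τ) k a (b ᵥ* U) = tz τ k (U *ᵥ a) b := by
  let e : (ι → ℤ) ≃ (ι → ℤ) := ⟨fun n => U *ᵥ n, fun n => U' *ᵥ n,
    fun n => by simp [mul_eq_one_comm.mp h], fun n => by simp [h]⟩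
  rw [tz, tz, ← e.tsum_eq fun n => et τ k b (4 • n + U *ᵥ a)]
  refine tsum_congr fun n => ?_
  have h0 : 4 • e n + U *ᵥ a = U *ᵥ (4 • n + a) := by
    rw [mulVec_add, mulVec_smul]
    rfl
  rw [h0]
  generalize 4 • n + a = m
  have h1 : qf (cg U τ) m = qf τ (U *ᵥ m) := by
    have : (fun i => ((U *ᵥ m) i : ℂ)) = U.map (Int.castRingHom ℂ) *ᵥ fun i => (m i : ℂ) :=
      funext fun i => (Int.castRingHom ℂ).map_mulVec U m i
    rw [qf_eq, qf_eq, this, cg, ← mulVec_mulVec, ← mulVec_mulVec, dotProduct_mulVec, vecMul_transpose]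
  have h2 : dz m (b ᵥ* U) = dz (U *ᵥ m) b :=
    (dotProduct_comm _ _).trans ((dotProduct_mulVec b U m).symm.trans (dotProduct_comm _ _))
  rw [et, et, h1, h2]

theorem posDef_cg {U U' : Matrix ι ι ℤ} (h : U * U' = 1) {τ : Matrix ι ι ℂ}
    (hτ : (τ.map im).PosDef) : ((cg U τ).map im).PosDef := by
  have h1 : (cg U τ).map im = (U.map (Int.castRingHom ℝ))ᴴ * τ.map im * U.map (Int.castRingHom ℝ) := by
    ext i j
    simp [cg, mul_apply, im_sum]
  rw [h1]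
  refine hτ.conjTranspose_mul_mul_same (mulVec_injective_of_isUnit ?_)
  refine IsUnit.of_mul_eq_one (U'.map (Int.castRingHom ℝ)) ?_
  rw [← Matrix.map_mul, h, Matrix.map_one _ (map_zero _) (map_one _)]

end

variable {τ : Matrix (Fin 4) (Fin 4) ℂ}

/-- The transvection. -/
def tv : Matrix (Fin 4) (Fin 4) ℤ := !![1, 1, 0, 0; 0, 1, 0, 0; 0, 0, 1, 0; 0, 0, 0, 1]

theorem tv_inv : tv * !![1, -1, 0, 0; 0, 1, 0, 0; 0, 0, 1, 0; 0, 0, 0, 1] = 1 := by decide +kernel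

theorem theta_tv (τ : Matrix (Fin 4) (Fin 4) ℂ) (a b : Fin 4 → Fin 2) :
    theta τ ![a 0 + a 1, a 1, a 2, a 3] b =
      (-1) ^ ((a 1 : ℕ) * b 0 * b 1) * theta (cg tv τ) a ![b 0, b 0 + b 1, b 2, b 3] := by
  have h1 := tz_cg tv_inv τ 1 (2 • fun i => ((a i : ℕ) : ℤ)) fun i => ((b i : ℕ) : ℤ)
  have h2 : (fun i => ((b i : ℕ) : ℤ)) ᵥ* tv = (fun i => ((![b 0, b 0 + b 1, b 2, b 3] i : ℕ) : ℤ)) +
      2 • ![0, (((b 0 : ℕ) * b 1 : ℕ) : ℤ), 0, 0] := by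
    clear h1
    revert b
    decide +kernel
  have h3 : dz (2 • fun i => ((a i : ℕ) : ℤ)) ![0, (((b 0 : ℕ) * b 1 : ℕ) : ℤ), 0, 0] =
      (2 * ((a 1 : ℕ) * b 0 * b 1) : ℕ) := by
    simp [dz, Fin.sum_univ_four]
    ring
  rw [h2, tz_per_b, h3, zpow_natCast, pow_mul, I_sq] at h1
  rw [theta_eq, theta_eq, h1]
  refine tz_per_a _ _ ?_ _
  clear h1 h2 h3 b
  revert a
  decide +kernel

theorem theta_perm (τ : Matrix (Fin 4) (Fin 4) ℂ) (a b : Fin 4 → Fin 2) (e : Fin 4 ≃ Fin 4) :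
    theta (τ.submatrix e e) (a ∘ e) (b ∘ e) = theta τ a b := by
  rw [theta_eq, theta_eq, ← tz_perm τ 1 _ _ e]
  rfl

theorem rho_eq (τ : Matrix (Fin 4) (Fin 4) ℂ) (μ ν : Fin 2) :
    rho τ μ ν = ∏ x, ∏ y, ∏ z, theta τ ![μ, 0, 0, 0] ![ν, x, y, z] := by
  let e : Fin 2 × Fin 2 × Fin 2 ≃ (Fin 3 → Fin 2) :=
    Equiv.ofBijective (fun x => ![x.1, x.2.1, x.2.2]) (by decide +kernel)
  rw [rho, ← e.prod_comp]
  simp only [Fintype.prod_prod_type]
  rfl

theorem schottky_tv (τ : Matrix (Fin 4) (Fin 4) ℂ) : schottky (cg tv τ) = schottky τ := by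
  have h : ∀ μ ν, rho (cg tv τ) μ ν = rho τ μ ν := fun μ ν => by
    rw [rho_eq, rho_eq, ← Equiv.prod_comp (Equiv.addLeft ν)]
    refine prod_congr rfl fun x _ => prod_congr rfl fun y _ => prod_congr rfl fun z _ => ?_
    simpa using (theta_tv τ ![μ, 0, 0, 0] ![ν, x, y, z]).symm
  simp only [schottky, h]

theorem schottky_swap (hτ : (τ.map im).PosDef) (i : Fin 3) :
    schottky (τ.submatrix (Equiv.swap i.castSucc i.succ) (Equiv.swap i.castSucc i.succ)) =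
      schottky τ := by
  have h := fun τ => (G4_eq (τ := τ) 1).symm
  simp only [one_pow, div_one] at h
  rw [h, h]
  fin_cases i
  · refine Eq.trans ?_ (Th.val (s := 1) ⟨τ, hτ, rfl⟩)
    congr 1
    funext i j k l
    exact Zt_perm 1 (Equiv.swap 0 1) ![j, i, k, l]
  · refine Eq.trans ?_ (G4_s23 _ 2 2 2)
    congr 1
    funext i j k l
    exact Zt_perm 1 (Equiv.swap 1 2) ![i, k, j, l]
  · refine Eq.trans ?_ (G4_s34 _ 2 2 2)
    congr 1
    funext i j k l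
    exact Zt_perm 1 (Equiv.swap 2 3) ![i, j, l, k]

/-- The Schottky form written with the hyperplane orthogonal to `a`. -/
def Hy (a : Fin 4 → Fin 2) : Prop := ∀ τ : Matrix (Fin 4) (Fin 4) ℂ, (τ.map im).PosDef →
  ∃ r, r ^ 2 = (∏ b with ∑ i, a i * b i = 0, theta τ a b) ^ 2 ∧
    sch (∏ b with ∑ i, a i * b i = 0, theta τ 0 b) (∏ b with ¬ ∑ i, a i * b i = 0, theta τ 0 b) r =
      schottky τ

theorem Hy.step {a a' : Fin 4 → Fin 2} (h : Hy a') (β : (Fin 4 → Fin 2) → Fin 4 → Fin 2)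
    (hβ : Function.Bijective β) (h0 : ∀ b, ∑ i, a i * b i = ∑ i, a' i * β b i)
    (H : ∀ τ : Matrix (Fin 4) (Fin 4) ℂ, (τ.map im).PosDef → ∃ τ' : Matrix (Fin 4) (Fin 4) ℂ,
      (τ'.map im).PosDef ∧ schottky τ' = schottky τ ∧ (∀ b, theta τ 0 b = theta τ' 0 (β b)) ∧
        ∀ b, theta τ a b ^ 2 = theta τ' a' (β b) ^ 2) : Hy a := by
  intro τ hτ
  obtain ⟨τ', h1, h2, h3, h4⟩ := H τ hτ
  obtain ⟨r, h5, h6⟩ := h τ' h1
  refine ⟨r, h5.trans ?_, (h6.trans h2).symm ▸ ?_⟩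
  · rw [← prod_pow, ← prod_pow]
    exact (prod_bijective β hβ (by simp [h0]) fun b _ => h4 b).symm
  · congr 1 <;> exact prod_bijective β hβ (by simp [h0]) fun b _ => h3 b

/-- Four generators. -/
def gen (g : Fin 4) (a : Fin 4 → Fin 2) : Fin 4 → Fin 2 :=
  Fin.lastCases ![a 0 + a 1, a 1, a 2, a 3] (fun i => a ∘ Equiv.swap i.castSucc i.succ) g

theorem Hy.gen {a : Fin 4 → Fin 2} (h : Hy a) (g : Fin 4) : Hy (gen g a) := by
  induction g using Fin.lastCases with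
  | last =>
    rw [Sch.gen, Fin.lastCases_last]
    refine h.step (fun b => ![b 0, b 0 + b 1, b 2, b 3]) (by decide +kernel)
      (by clear h; revert a; decide +kernel) fun τ hτ =>
      ⟨cg tv τ, posDef_cg tv_inv hτ, schottky_tv τ, fun b => ?_, fun b => ?_⟩
    · have := theta_tv τ 0 b
      rw [show ![(0 : Fin 4 → Fin 2) 0 + (0 : Fin 4 → Fin 2) 1, (0 : Fin 4 → Fin 2) 1,
        (0 : Fin 4 → Fin 2) 2, (0 : Fin 4 → Fin 2) 3] = 0 by decide] at this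
      simpa using this
    · rw [theta_tv, mul_pow, ← pow_mul, mul_comm _ 2, pow_mul]
      simp
  | cast i =>
    rw [Sch.gen, Fin.lastCases_castSucc]
    refine h.step (fun b => b ∘ Equiv.swap i.castSucc i.succ) (by revert i; decide +kernel)
      (by clear h; revert a i; decide +kernel) fun τ hτ =>
      ⟨_, hτ.submatrix (Equiv.injective _), schottky_swap hτ i, fun b => ?_, fun b => ?_⟩
    · exact (theta_perm τ 0 b _).symm
    · rw [← theta_perm τ _ b (Equiv.swap i.castSucc i.succ)]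
      congr 2
      funext j
      simp

theorem hy_base : Hy ![1, 0, 0, 0] := fun τ _ => by
  have h : ∀ (ν : Fin 2) (p : (Fin 4 → Fin 2) → Prop) [DecidablePred p] (a : Fin 4 → Fin 2),
      (∀ b, p b ↔ b 0 = ν) → ∏ b with p b, theta τ a b =
        ∏ v : Fin 3 → Fin 2, theta τ a ![ν, v 0, v 1, v 2] := fun ν p _ a hp => by
    refine (prod_bij (fun v _ => ![ν, v 0, v 1, v 2]) (fun v _ => by simp [hp]) ?_ ?_
      fun _ _ => rfl).symm
    · intro v _ w _ h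
      funext i
      fin_cases i
      exacts [congrFun h 1, congrFun h 2, congrFun h 3]
    · intro b hb
      refine ⟨![b 1, b 2, b 3], mem_univ _, ?_⟩
      rw [← (hp b).mp (mem_filter.mp hb).2]
      funext i
      fin_cases i <;> rfl
  refine ⟨_, rfl, ?_⟩
  rw [h 0 _ 0 (by decide +kernel), h 1 _ 0 (by decide +kernel), h 0 _ _ (by decide +kernel),
    show (0 : Fin 4 → Fin 2) = ![0, 0, 0, 0] by decide]
  rfl

theorem hy_all (a : Fin 4 → Fin 2) (ha : a ≠ 0) : Hy a := by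
  have h : ∀ w : List (Fin 4), Hy (w.foldr gen ![1, 0, 0, 0]) := fun w => by
    induction w with
    | nil => exact hy_base
    | cons g w ih => exact ih.gen g
  have : ∀ a : Fin 4 → Fin 2, a ≠ 0 → ∃ w ∈ [[], [0], [1, 0], [3, 0], [2, 1, 0], [1, 3, 0],
      [0, 1, 3, 0], [2, 1, 3, 0], [2, 0, 1, 3, 0], [3, 0, 1, 3, 0], [1, 2, 0, 1, 3, 0],
      [3, 2, 0, 1, 3, 0], [1, 3, 2, 0, 1, 3, 0], [0, 1, 3, 2, 0, 1, 3, 0],
      [3, 0, 1, 3, 2, 0, 1, 3, 0]], w.foldr gen ![1, 0, 0, 0] = a := by decide +kernel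
  obtain ⟨w, -, rfl⟩ := this a ha
  exact h w

end Pool.Agent.Lib.MP_07b2d0_nt.Sch
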