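import Mathlib
import Pool.Agent.Lib.MP_07b2d0_nt.FF
import Pool.Agent.Lib.MP_07b2d0_nt.KH5

/-!
Sixteen units on the Schottky locus.
-/

set_option autoImplicit false

namespace Pool.Agent.Lib.MP_07b2d0_nt.Sch

open Complex NumberField Height Module Finset

variable {K : Type} [Field K] [NumberField K] {φ : K →+* ℂ} {n N : ℕ}
  {τ : Matrix (Fin 4) (Fin 4) ℂ}

theorem dvd_ord_map {L : Type} [Field L] [NumberField L] (ι : K →+* L) {d : ℤ} {x : K}
    (h : ∀ v : IsDedekindDomain.HeightOneSpectrum (𝓞 K), (N : 𝓞 K) ∉ v.asIdeal →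
      d ∣ WithZero.log (v.valuation K x)) (w : FinitePlace L) (hw : w ((2 * N : ℕ) : L) = 1) :
    d ∣ ord w (ι x) := by
  let := ι.toAlgebra
  let v := w.maximalIdeal.under (𝓞 K)
  have : w.maximalIdeal.asIdeal.LiesOver v.asIdeal := ⟨rfl⟩
  have h1 := IsDedekindDomain.HeightOneSpectrum.valuation_liesOver L v w.maximalIdeal x
  have h2 := h v fun hm => notMem_of_fp_eq_one hw (by
    simpa using (Ideal.mem_of_liesOver w.maximalIdeal.asIdeal v.asIdeal _).mp hm)
  change d ∣ ord w (algebraMap K L x)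
  rw [ord, ← h1, WithZero.log_pow, nsmul_eq_mul, dvd_neg]
  exact h2.mul_left _

theorem le_nfC (n : ℕ) : n ≤ nfC n := by
  have : n ≤ sysP n := (Nat.le_add_right n 2).trans (Nat.le_self_pow (by norm_num) _)
  exact this.trans (Nat.le_mul_of_pos_right _ (Nat.succ_pos _))

theorem fourier {F : Type} [CommMonoid F] (z : (Fin 4 → Fin 2) → F) (c : Fin 4 → Fin 2)
    (hc : c ≠ 0) :
    (∏ a : Fin 4 → Fin 2 with ¬ ∑ i, a i * c i = 0, ∏ b with ¬ ∑ i, a i * b i = 0, z b) * z 0 ^ 8 =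
      (∏ a : Fin 4 → Fin 2 with ¬ ∑ i, a i * c i = 0, ∏ b with ∑ i, a i * b i = 0, z b) * z c ^ 8 := by
  have h1 : ∀ (p : (Fin 4 → Fin 2) → (Fin 4 → Fin 2) → Prop) [∀ a, DecidablePred (p a)] (d),
      (∏ a : Fin 4 → Fin 2 with ¬ ∑ i, a i * c i = 0, ∏ b with p a b, z b) * z d ^ 8 = ∏ b, z b ^
        (∑ a : Fin 4 → Fin 2 with ¬ ∑ i, a i * c i = 0, (if p a b then 1 else 0) + if b = d then 8 else 0) := by
    intro p _ d
    simp only [prod_filter (p _), pow_add, prod_mul_distrib, ← prod_pow_eq_pow_sum, pow_ite,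
      pow_one, pow_zero, prod_ite_eq', mem_univ, if_true]
    rw [prod_comm]
  rw [h1, h1]
  refine prod_congr rfl fun b _ => ?_
  congr 1
  clear h1
  revert b c
  decide +kernel

theorem goepel : ∃ c : ℕ → ℕ, Primrec c ∧ ∀ (K : Type) [Field K] [NumberField K] (φ : K →+* ℂ)
    (n N : ℕ) (τ : Matrix (Fin 4) (Fin 4) ℂ) (x : (Fin 4 → Fin 2) → (Fin 4 → Fin 2) → K),
    Small K n (2 * N) → (τ.map im).PosDef → theta τ 0 0 ≠ 0 → schottky τ = 0 →
    (∀ a b, φ (x a b) = (theta τ a b / theta τ 0 0) ^ 8) → (∀ b, IsU (2 * N) (x 0 b)) →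
    (∀ a ≠ 0, ∀ v : IsDedekindDomain.HeightOneSpectrum (𝓞 K), (N : 𝓞 K) ∉ v.asIdeal →
      32 ∣ WithZero.log (v.valuation K (∏ b with ∑ i, a i * b i = 0, x a b))) →
    ∀ a b, logHeight₁ (x a b) ≤ c n := by
  obtain ⟨c, hc, H⟩ := Ks.kum_unit
  let m : ℕ → ℕ := fun n => extN 16 (extN 16 (extN 16 (extN 16 n)))
  have hm : Primrec m :=
    pr_extN (.const _) (pr_extN (.const _) (pr_extN (.const _) (pr_extN (.const _) .id)))
  have hF : Primrec fun n => cF n := by
    unfold cF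
    exact pr_mul (.const _) (pr_add (pr_mul (.const _) (pr_mul (.const _) .id))
      (pr_mul (.const _) (pr_mul (pr_mul (.const _) .id) (pr_add (pr_mul (.const _) .id)
        (pr_mul (.const _) (pr_mul (.const _) (pr_nfC .id)))))))
  refine ⟨fun n => cF (m n + c (m n)), hF.comp (pr_add hm (hc.comp hm)), ?_⟩
  intro K _ _ φ n N τ x s hτ h0 hJ hx hu he a b
  obtain ⟨t, ht⟩ : ∃ t, t = theta τ 0 0 := ⟨_, rfl⟩
  rw [← ht] at h0
  simp only [← ht] at hx
  choose z hz using fun b => IsAlgClosed.exists_eq_mul_self (theta τ 0 b / t)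
  obtain ⟨L1, _, _, ψ1, ι1, s1, c1, u1⟩ := lift_unit s (φ := φ)
    (z := fun b => ((z b ^ 2) ^ 2) ^ 2) fun b => ⟨x 0 b, hu b, by rw [hx, hz]; ring⟩
  obtain ⟨L2, _, _, ψ2, ι2, s2, c2, u2⟩ := lift_unit s1 u1
  obtain ⟨L3, _, _, ψ3, ι3, s3, c3, u3⟩ := lift_unit s2 u2
  obtain ⟨L, _, _, ψ, ι4, s4, c4, u4⟩ := lift_unit s3 u3
  have hcard : Fintype.card (Fin 4 → Fin 2) = 16 := by simp
  rw [hcard] at s4
  change Small L (m n) _ at s4
  let ι := ι4.comp (ι3.comp (ι2.comp ι1))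
  have hι : ∀ x, ψ (ι x) = φ x := fun x => by simp only [ι, RingHom.comp_apply, c4, c3, c2, c1]
  choose y hy hψ using u4
  have hp : ∀ S : Finset (Fin 4 → Fin 2), IsU (2 * N) (∏ b ∈ S, y b) := fun S =>
    prod_induction _ _ (fun _ _ => IsU.mul) isU_one fun b _ => hy b
  have key : ∀ a : Fin 4 → Fin 2, a ≠ 0 → logHeight₁ ((∏ b with ¬ ∑ i, a i * b i = 0, y b) /
      ∏ b with ∑ i, a i * b i = 0, y b) ≤ (m n + c (m n) : ℕ) := fun a ha => by
    obtain ⟨r, h1, h2⟩ := hy_all a ha τ hτ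
    have k0 : #{b : Fin 4 → Fin 2 | ∑ i, a i * b i = 0} = 8 := by
      clear h1 h2; revert a; decide +kernel
    have k1 : #{b : Fin 4 → Fin 2 | ¬ ∑ i, a i * b i = 0} = 8 := by
      clear h1 h2 k0; revert a; decide +kernel
    have k2 : ∀ S : Finset (Fin 4 → Fin 2), #S = 8 →
        ∏ b ∈ S, theta τ 0 b = t ^ 8 * ψ (∏ b ∈ S, y b) ^ 2 := fun S hS => by
      rw [map_prod, ← prod_pow, ← hS, ← prod_const, ← prod_mul_distrib]
      exact prod_congr rfl fun b _ => by rw [hψ, sq, ← hz]; field_simp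
    have k3 : ψ (ι (∏ b with ∑ i, a i * b i = 0, x a b)) = (r / t ^ 8) ^ 8 := by
      rw [hι, map_prod]
      simp only [hx]
      rw [prod_pow, prod_div_distrib, prod_const, k0, div_pow, div_pow,
        show r ^ 8 = (r ^ 2) ^ 4 by ring, h1]
      ring
    rw [k2 _ k0, k2 _ k1, hJ] at h2
    have u0 := hp {b | ∑ i, a i * b i = 0}
    have u1 := hp {b | ¬ ∑ i, a i * b i = 0}
    have he' := dvd_ord_map ι (he a ha)
    generalize ∏ b with ∑ i, a i * b i = 0, y b = p at *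
    generalize ∏ b with ¬ ∑ i, a i * b i = 0, y b = q at *
    generalize ι (∏ b with ∑ i, a i * b i = 0, x a b) = X at *
    have k4 : ∀ q : L, IsU (2 * N) q → r = t ^ 8 * (ψ p + ψ q) ^ 2 →
        logHeight₁ (q / p) ≤ (m n + c (m n) : ℕ) := fun q hq hr => by
      have e1 : X = (p * (q / p + 1)) ^ 16 := ψ.injective (by
        rw [k3, hr, mul_add, mul_div_cancel₀ _ u0.1, mul_one, map_pow, map_add]
        field_simp
        ring)
      have e2 := H L _ _ 2 (q / p + 1) s4 Nat.prime_two (dvd_mul_right _ _)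
        (add_mem (hq.div u0).2.1 (one_mem _)) (by simpa using hq.div u0) fun v hv => by
          by_cases e : q / p + 1 = 0
          · simp [e, ord]
          have e3 := he' v hv
          have e4 := mem_RN_iff_ord.mp u0.2.1 v hv
          have e5 := mem_RN_iff_ord.mp u0.2.2 v hv
          rw [e1, ord_pow, ord_mul v u0.1 e] at e3
          rw [ord_inv] at e5
          omega
      have e3 := h_sub_le s4.hD (q / p + 1) 1
      rw [add_sub_cancel_right, logHeight₁_one] at e3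
      push_cast
      linarith
    have k5 : (r - t ^ 8 * (ψ p + ψ q) ^ 2) * (r - t ^ 8 * (ψ p + ψ (-q)) ^ 2) = 0 := by
      rw [← h2, sch, map_neg]
      ring
    rcases mul_eq_zero.mp k5 with e | e
    · exact k4 q u1 (sub_eq_zero.mp e)
    · simpa only [neg_div, logHeight₁_neg] using k4 _ u1.neg (sub_eq_zero.mp e)
  refine (logHeight_le_map ι _).trans (all_chars (φ := ψ) (N := 2 * N) (t := t) hτ
    (s4.hD.trans (Nat.le_add_right _ _)) (fun b => ?_) a b (by rw [hι, hx]))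
  have y0 : y 0 ^ 2 = 1 := ψ.injective (by rw [map_pow, hψ, sq, ← hz, ← ht, div_self h0, map_one])
  refine ⟨y b ^ 2, by rw [sq]; exact (hy b).mul (hy b), by rw [map_pow, hψ, sq, hz], ?_⟩
  by_cases hb : b = 0
  · rw [hb, y0, logHeight₁_one]
    positivity
  have h1 := fourier y b hb
  have h2 : (y b ^ 2) ^ 4 = ∏ a : Fin 4 → Fin 2 with ¬ ∑ i, a i * b i = 0,
      (∏ b with ¬ ∑ i, a i * b i = 0, y b) / ∏ b with ∑ i, a i * b i = 0, y b := by
    rw [prod_div_distrib, eq_div_iff (prod_ne_zero_iff.mpr fun a _ => (hp _).1), ← pow_mul,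
      mul_comm, ← h1, show 8 = 2 * 4 from rfl, pow_mul, y0, one_pow, mul_one]
  have h3 := (logHeight₁_prod_le _ _).trans (sum_le_card_nsmul
    {a : Fin 4 → Fin 2 | ¬ ∑ i, a i * b i = 0} _ _ fun a ha => key a (by
      rintro rfl
      simp at ha))
  rw [← h2, logHeight₁_pow, nsmul_eq_mul] at h3
  have h4 : (#{a : Fin 4 → Fin 2 | ¬ ∑ i, a i * b i = 0} : ℝ) ≤ 16 := by
    exact_mod_cast (card_le_univ _).trans hcard.le
  have h5 : ((m n + c (m n) : ℕ) : ℝ) ≤ nfC (m n + c (m n)) := by exact_mod_cast le_nfC _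
  have h6 := mul_le_mul h4 h5 (Nat.cast_nonneg _) (by norm_num)
  have h7 : (0 : ℝ) ≤ nfC (m n + c (m n)) := Nat.cast_nonneg _
  push_cast at h3 h6 ⊢
  linarith

end Pool.Agent.Lib.MP_07b2d0_nt.Sch
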