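import Mathlib
import Pool.Agent.Lib.MP_07b2d0_nt.KDef

set_option autoImplicit false
set_option linter.unusedSectionVars false
set_option linter.unusedVariables false

namespace Pool.Agent.Lib.MP_07b2d0_nt.Ks

open Polynomial WithZero Finset
open scoped Polynomial.Bivariate

variable {k E : Type} [Field k] [IsAlgClosed k] [CharZero k] [Field E] [Algebra k E]
  {ℓ : ℕ} {x y : E} {f : k[X]}
open scoped IntermediateField.algebraAdjoinAdjoin in
/-- Places above a point.  Sketch: put `Algebra k[X] E` through `aeval t` and `Algebra (RatFunc k) E`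
(or use `K₀ = k⟮t⟯` as fraction field of `A₀ = Algebra.adjoin k {t}`, which is a principal ideal
domain isomorphic to `k[X]`, `Polynomial.algEquivOfTranscendental`).  Let `R` be the integral
closure of `A₀` in `E`: a Dedekind domain (`IsIntegralClosure.isDedekindDomain`, characteristic
zero gives separability) with fraction field `E`
(`IsIntegralClosure.isFractionRing_of_finite_extension`).  `R` is integral over `A ≤ R`, so a
prime `𝔮` of `R` lies over the prime `ker φ` (`Ideal.exists_ideal_over_prime_of_isIntegral`); it is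
nonzero as it contains `t - φ t`.  Take `HeightOneSpectrum.valuation E`
(`valuation_le_one`, `valuation_lt_one_iff_mem`, `valuation_exists_uniformizer`). -/
theorem exists_place {t : E} (ht : Transcendental k t)
    (hfin : FiniteDimensional (IntermediateField.adjoin k {t}) E) (A : Subalgebra k E)
    (htA : t ∈ A) (hA : ∀ a ∈ A, IsIntegral (Algebra.adjoin k {t}) a) (φ : A →ₐ[k] k) :
    ∃ v : Valuation E ℤᵐ⁰, Triv k v ∧ Srj v ∧
      ∀ a : A, v ((a : E) - algebraMap k E (φ a)) < 1 := by
  let A₀ := Algebra.adjoin k ({t} : Set E)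
  let e := Polynomial.algEquivOfTranscendental k t ht
  have hpid : IsPrincipalIdealRing A₀ := IsPrincipalIdealRing.of_surjective e.toRingHom e.surjective
  have hch : CharZero (IntermediateField.adjoin k ({t} : Set E)) :=
    charZero_of_injective_algebraMap (algebraMap k _).injective
  let R := integralClosure A₀ E
  have hded : IsDedekindDomain R :=
    integralClosure.isDedekindDomain A₀ (IntermediateField.adjoin k ({t} : Set E)) E
  have hfr : IsFractionRing R E :=
    integralClosure.isFractionRing_of_finite_extension (IntermediateField.adjoin k ({t} : Set E)) E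
  let ι : A →+* R := (A.val.toRingHom).codRestrict R.toSubring fun a => hA a a.2
  let _ : Algebra A R := ι.toAlgebra
  have hA₀ : A₀ ≤ A := Algebra.adjoin_le (by simpa using htA)
  have hint : Algebra.IsIntegral A R := ⟨fun r => by
    obtain ⟨p, hp, hr⟩ := r.2
    refine ⟨p.map (Subalgebra.inclusion hA₀).toRingHom, hp.map _, ?_⟩
    apply Subtype.ext
    rw [eval₂_map]
    have := hom_eval₂ p ((algebraMap A R).comp (Subalgebra.inclusion hA₀).toRingHom)
      R.val.toRingHom r
    exact this.trans hr⟩
  have hinj : Function.Injective (algebraMap A R) := fun a b h =>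
    Subtype.ext (congrArg (fun r : R => (r : E)) h)
  have hP : (RingHom.ker φ).IsPrime := RingHom.ker_isPrime φ
  obtain ⟨Q, hQ, hQP⟩ := Ideal.exists_ideal_over_prime_of_isIntegral_of_isDomain (S := R)
    (RingHom.ker φ) (by rw [(RingHom.injective_iff_ker_eq_bot _).mp hinj]; exact bot_le)
  have hmem : ∀ a : A, algebraMap A R (a - algebraMap k A (φ a)) ∈ Q := fun a => by
    rw [← Ideal.mem_comap, hQP, RingHom.mem_ker]
    simp
  have hQ0 : Q ≠ ⊥ := by
    rintro rfl
    have h1 := congrArg Subtype.val ((Ideal.mem_bot).mp (hmem ⟨t, htA⟩))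
    have h2 : t - algebraMap k E (φ ⟨t, htA⟩) = 0 := h1
    exact ht (sub_eq_zero.mp h2 ▸ isAlgebraic_algebraMap _)
  let 𝔮 : IsDedekindDomain.HeightOneSpectrum R := ⟨Q, hQ, hQ0⟩
  refine ⟨𝔮.valuation E, fun c => ?_, ?_, fun a => ?_⟩
  · exact 𝔮.valuation_le_one (K := E) (algebraMap A R (algebraMap k A c))
  · exact 𝔮.valuation_exists_uniformizer E
  · exact (𝔮.valuation_lt_one_iff_mem (K := E) _).mpr (hmem a)

end Pool.Agent.Lib.MP_07b2d0_nt.Ks
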