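import Mathlib
import Pool.Agent.Lib.MP_07b2d0_nt.KDef

set_option autoImplicit false
set_option linter.unusedSectionVars false
set_option linter.unusedVariables false

namespace Pool.Agent.Lib.MP_07b2d0_nt.Ks

open Polynomial WithZero Finset
open scoped Polynomial.Bivariate

variable {k E : Type} [Field k] [IsAlgClosed k] [CharZero k] [Field E] [Algebra k E]
  {ℓ : ℕ} {x y : E} {f : k[X]}
variable {v : Valuation E ℤᵐ⁰}

theorem Triv.eq_one (hv : Triv k v) {c : k} (hc : c ≠ 0) : v (algebraMap k E c) = 1 := by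
  refine le_antisymm (hv c) ?_
  have h1 : v (algebraMap k E c) * v (algebraMap k E c⁻¹) = 1 := by
    rw [← map_mul, ← map_mul, mul_inv_cancel₀ hc, map_one, map_one]
  exact h1.ge.trans (mul_le_of_le_one_right' (hv _))

theorem Triv.comap (hv : Triv k v) (α : k ≃+* k) (β : E ≃+* E)
    (hc : ∀ c, β (algebraMap k E c) = algebraMap k E (α c)) : Triv k (v.comap β.toRingHom) := by
  intro c
  change v (β (algebraMap k E c)) ≤ 1
  rw [hc]
  exact hv _

theorem Triv.aeval_le_one (hv : Triv k v) (hx : v x ≤ 1) (A : k[X]) : v (aeval x A) ≤ 1 := by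
  induction A using Polynomial.induction_on' with
  | add p q hp hq => rw [map_add]; exact v.map_add_le hp hq
  | monomial n a =>
    rw [aeval_monomial, map_mul, map_pow]
    exact mul_le_one' (hv a) (pow_le_one' hx n)

theorem Triv.le_one_of_cen (hv : Triv k v) {z : E} {τ : k} (h : v (z - algebraMap k E τ) < 1) :
    v z ≤ 1 := by
  rw [← sub_add_cancel z (algebraMap k E τ)]
  exact v.map_add_le h.le (hv τ)

theorem Triv.y_le_one (hv : Triv k v) (hx : v x ≤ 1) (hℓ : ℓ ≠ 0) (he : y ^ ℓ = aeval x f) :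
    v y ≤ 1 := by
  have h1 := hv.aeval_le_one hx f
  rwa [← he, map_pow, pow_le_one_iff_of_nonneg zero_le hℓ] at h1

theorem Triv.aevalAeval_le_one (hv : Triv k v) (hx : v x ≤ 1) (hy : v y ≤ 1) (G : k[X][Y]) :
    v (aevalAeval x y G) ≤ 1 := by
  induction G using Polynomial.induction_on' with
  | add p q hp hq => rw [map_add]; exact v.map_add_le hp hq
  | monomial n a =>
    rw [← C_mul_X_pow_eq_monomial, map_mul, map_pow, aevalAeval_C, aevalAeval_Y, map_mul, map_pow]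
    exact mul_le_one' (hv.aeval_le_one hx a) (pow_le_one' hy n)

/-- `A - C (A.eval τ)` is divisible by `X - C τ`. -/
theorem Triv.aeval_sub_lt (hv : Triv k v) {τ : k} (h : v (x - algebraMap k E τ) < 1) (A : k[X]) :
    v (aeval x A - algebraMap k E (A.eval τ)) < 1 := by
  obtain ⟨q, hq⟩ := X_sub_C_dvd_sub_C_eval (p := A) (a := τ)
  have h1 := congrArg (aeval x) hq
  rw [map_sub, map_mul, map_sub, aeval_C, aeval_C, aeval_X] at h1
  rw [h1, map_mul]
  exact (mul_le_of_le_one_right' (hv.aeval_le_one (hv.le_one_of_cen h) q)).trans_lt h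

/-- The valuation ring maps to the residue field; induct on `G`. -/
theorem Triv.aevalAeval_sub_lt (hv : Triv k v) {τ η : k} (h : Cen v x y τ η) (G : k[X][Y]) :
    v (aevalAeval x y G - algebraMap k E (G.evalEval τ η)) < 1 := by
  obtain ⟨q, hq⟩ := X_sub_C_dvd_sub_C_eval (p := G) (a := C η)
  have h1 := congrArg (aevalAeval x y) hq
  rw [map_sub, map_mul, map_sub, aevalAeval_C, aevalAeval_C, aevalAeval_Y, aeval_C] at h1
  rw [← sub_add_sub_cancel _ (aeval x (G.eval (C η))), h1]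
  refine v.map_add_lt ?_ (hv.aeval_sub_lt h.1 _)
  rw [map_mul]
  exact (mul_le_of_le_one_right' (hv.aevalAeval_le_one (hv.le_one_of_cen h.1)
    (hv.le_one_of_cen h.2) q)).trans_lt h.2

theorem Triv.aevalAeval_eq_one (hv : Triv k v) {τ η : k} (h : Cen v x y τ η) {G : k[X][Y]}
    (hG : G.evalEval τ η ≠ 0) : v (aevalAeval x y G) = 1 := by
  have h1 := hv.aevalAeval_sub_lt h G
  rw [← hv.eq_one hG] at h1 ⊢
  exact v.map_eq_of_sub_lt h1

/-- `exists_eq_pow_rootMultiplicity_mul_and_not_dvd`. -/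
theorem Triv.aeval_eq_pow (hv : Triv k v) {τ : k} (h : v (x - algebraMap k E τ) < 1) {A : k[X]}
    (hA : A ≠ 0) : v (aeval x A) = v (x - algebraMap k E τ) ^ A.rootMultiplicity τ := by
  obtain ⟨q, hq, h1⟩ := exists_eq_pow_rootMultiplicity_mul_and_not_dvd A hA τ
  have h2 := hv.aeval_sub_lt h q
  rw [← hv.eq_one (c := q.eval τ) fun h0 => h1 (dvd_iff_isRoot.2 h0)] at h2
  have h3 := v.map_eq_of_sub_lt h2
  rw [hv.eq_one (c := q.eval τ) fun h0 => h1 (dvd_iff_isRoot.2 h0)] at h3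
  conv_lhs => rw [hq, map_mul, map_pow, map_sub, aeval_X, aeval_C, map_mul, map_pow, h3, mul_one]

theorem Triv.kb1_fac (hv : Triv k v) {A : k[X]} (hA : A ≠ 0) {c : ℤᵐ⁰}
    (h : ∀ τ : k, v (x - algebraMap k E τ) = c) : v (aeval x A) = c ^ A.natDegree := by
  have h1 := IsAlgClosed.card_roots_eq_natDegree (p := A)
  conv_lhs => rw [← C_leadingCoeff_mul_prod_multiset_X_sub_C h1]
  rw [map_mul, map_mul, aeval_C, hv.eq_one (leadingCoeff_ne_zero.2 hA), one_mul, map_multiset_prod,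
    map_multiset_prod, Multiset.map_map, Multiset.map_map, ← h1, ← Multiset.prod_replicate,
    ← Multiset.map_const']
  refine congrArg _ (Multiset.map_congr rfl fun τ _ => ?_)
  simpa using h τ

theorem Triv.aeval_inf (hv : Triv k v) (h : 1 < v x) {A : k[X]} (hA : A ≠ 0) :
    v (aeval x A) = v x ^ A.natDegree := by
  exact hv.kb1_fac hA fun τ => v.map_sub_eq_of_lt_left ((hv τ).trans_lt h)

theorem Triv.cen_unique (hv : Triv k v) {z : E} {τ τ' : k} (h : v (z - algebraMap k E τ) < 1)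
    (h' : v (z - algebraMap k E τ') < 1) : τ = τ' := by
  by_contra h0
  have h1 := v.map_sub_lt h' h
  rw [sub_sub_sub_cancel_left, ← map_sub, hv.eq_one (sub_ne_zero.2 h0)] at h1
  exact lt_irrefl _ h1

/-- If `v (x - τ) = 1` for all `τ` then `v (A(x)) = 1` for all `A ≠ 0` (factor `A`). -/
theorem Triv.aeval_eq_one (hv : Triv k v) (hx : v x ≤ 1)
    (h : ∀ τ : k, ¬ v (x - algebraMap k E τ) < 1) {A : k[X]} (hA : A ≠ 0) :
    v (aeval x A) = 1 := by
  rw [hv.kb1_fac hA fun τ => le_antisymm (v.map_sub_le hx (hv τ)) (not_lt.1 (h τ)), one_pow]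

theorem Triv.kb1_cen (hv : Triv k v) (he : y ^ ℓ = aeval x f) {τ η : k} (h : Cen v x y τ η) :
    η ^ ℓ = f.eval τ := by
  have h1 := hv.aeval_sub_lt h.2 (X ^ ℓ)
  rw [map_pow, aeval_X, he, eval_pow, eval_X] at h1
  exact hv.cen_unique h1 (hv.aeval_sub_lt h.1 f)

/-- `y ^ ℓ - f(τ) = ∏ (y - η)` over the roots `η` of `X ^ ℓ - C (f.eval τ)` has valuation `< 1`. -/
theorem Triv.exists_cen (hv : Triv k v) (hℓ : ℓ ≠ 0) (he : y ^ ℓ = aeval x f) {τ : k}
    (h : v (x - algebraMap k E τ) < 1) : ∃ η : k, η ^ ℓ = f.eval τ ∧ Cen v x y τ η := by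
  have h1 : ∃ η : k, v (y - algebraMap k E η) < 1 := by
    by_contra h0
    have h2 := hv.aeval_eq_one (hv.y_le_one (hv.le_one_of_cen h) hℓ he) (not_exists.1 h0)
      (X_pow_sub_C_ne_zero (Nat.pos_of_ne_zero hℓ) (f.eval τ))
    rw [map_sub, map_pow, aeval_X, aeval_C, he] at h2
    exact (hv.aeval_sub_lt h f).ne h2
  obtain ⟨η, hη⟩ := h1
  exact ⟨η, hv.kb1_cen he ⟨h, hη⟩, h, hη⟩

theorem Triv.eq_of_cen (hv : Triv k v) (he : y ^ ℓ = aeval x f) {τ η : k} (h : Cen v x y τ η) :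
    η ^ ℓ = f.eval τ := by
  exact hv.kb1_cen he h

end Pool.Agent.Lib.MP_07b2d0_nt.Ks
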