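import Mathlib
import Pool.Agent.Lib.MP_07b2d0_nt.KDef

set_option autoImplicit false
set_option linter.unusedSectionVars false
set_option linter.unusedVariables false

namespace Pool.Agent.Lib.MP_07b2d0_nt.Ks

open Polynomial WithZero Finset
open scoped Polynomial.Bivariate

variable {k E : Type} [Field k] [IsAlgClosed k] [CharZero k] [Field E] [Algebra k E]
  {ℓ : ℕ} {x y : E} {f : k[X]}

theorem Ram.ne_zero (h : Ram ℓ f) : f ≠ 0 := by
  rintro rfl
  exact h.deg (by simp)

/-- The evaluation map to the rational function field. -/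
noncomputable def ka1_psi (k : Type) {E : Type} [Field k] [Field E] [Algebra k E] (x : E) :
    k[X] →ₐ[k] IntermediateField.adjoin k {x} :=
  aeval (IntermediateField.AdjoinSimple.gen k x)

theorem ka1_psi_coe (p : k[X]) :
    algebraMap (IntermediateField.adjoin k {x}) E (ka1_psi k x p) = aeval x p := by
  unfold ka1_psi
  rw [← aeval_algebraMap_apply, IntermediateField.AdjoinSimple.algebraMap_gen]

theorem ka1_aeval_map (G : k[X][Y]) :
    aeval y (G.map (ka1_psi k x).toRingHom) = aevalAeval x y G := by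
  induction G using Polynomial.induction_on' with
  | add p q hp hq => rw [Polynomial.map_add, map_add, map_add, hp, hq]
  | monomial n a =>
    rw [← C_mul_X_pow_eq_monomial, Polynomial.map_mul, Polynomial.map_pow, map_C, map_X, map_mul,
      map_mul, map_pow, map_pow, aeval_X, aeval_C, aevalAeval_C, aevalAeval_Y]
    congr 1
    exact ka1_psi_coe a

theorem ka1_psi_inj (ht : Transcendental k x) : Function.Injective (ka1_psi k x) := by
  intro p q hpq
  have h1 : aeval x p = aeval x q := by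
    rw [← ka1_psi_coe, ← ka1_psi_coe, hpq]
  exact transcendental_iff_injective.mp ht h1

theorem ka1_not_pow (hr : Ram ℓ f) (ht : Transcendental k x)
    (b : IntermediateField.adjoin k {x}) : b ^ ℓ ≠ ka1_psi k x f := by
  intro hb
  have hinj := transcendental_iff_injective.mp ht
  have hb' : (b : E) ^ ℓ = aeval x f := by
    rw [← ka1_psi_coe, ← hb, map_pow]
    rfl
  obtain ⟨r, s, hrs⟩ := (IntermediateField.mem_adjoin_simple_iff k (b : E)).mp b.2
  have hf0 : aeval x f ≠ 0 := by
    intro h0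
    exact hr.ne_zero (hinj (by rw [h0, map_zero]))
  have hs : aeval x s ≠ 0 := by
    intro h0
    rw [hrs, h0, div_zero, zero_pow hr.prime.ne_zero] at hb'
    exact hf0 hb'.symm
  have hs0 : s ≠ 0 := by
    rintro rfl
    exact hs (map_zero _)
  have h2 : r ^ ℓ = f * s ^ ℓ := by
    apply hinj
    rw [map_mul, map_pow, map_pow, ← hb', hrs, div_pow, div_mul_cancel₀ _ (pow_ne_zero _ hs)]
  have h3 := congrArg natDegree h2
  rw [natDegree_mul hr.ne_zero (pow_ne_zero _ hs0), natDegree_pow, natDegree_pow] at h3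
  apply hr.deg
  have h4 : ℓ ∣ f.natDegree + ℓ * s.natDegree := ⟨r.natDegree, h3.symm⟩
  exact (Nat.dvd_add_left (Dvd.intro _ rfl)).mp h4

theorem ka1_root (he : y ^ ℓ = aeval x f) :
    aeval y (X ^ ℓ - C (ka1_psi k x f)) = 0 := by
  rw [map_sub, map_pow, aeval_X, aeval_C, ka1_psi_coe, he, sub_self]

theorem ka1_integral (hℓ : ℓ ≠ 0) (he : y ^ ℓ = aeval x f) :
    IsIntegral (IntermediateField.adjoin k {x}) y :=
  ⟨X ^ ℓ - C (ka1_psi k x f), monic_X_pow_sub_C _ hℓ, by
    have := ka1_root he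
    rwa [aeval_def] at this⟩

/-- A polynomial of degree `< ℓ` in `Y` vanishing at `(x, y)` is zero.  Sketch: let `K₀ = k⟮x⟯`
(or `RatFunc k` mapped to `E` through `RatFunc.liftAlgHom`).  `f(x)` is no `ℓ`-th power in `K₀`
(`A ^ ℓ = f * B ^ ℓ` contradicts `ℓ ∤ natDegree f`), so `X ^ ℓ - C f(x)` is irreducible over `K₀`
(`X_pow_sub_C_irreducible_of_prime`), it is the minimal polynomial of `y`, and `G` mapped to
`K₀[X]` has smaller degree.  The map `k[X] → K₀` is injective as `x` is transcendental.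
The hypothesis `gen` is not needed. -/
theorem eq_zero_of_natDegree (hr : Ram ℓ f) (ht : Transcendental k x) (he : y ^ ℓ = aeval x f)
    {G : k[X][Y]} (hG : G.natDegree < ℓ) (h0 : aevalAeval x y G = 0) : G = 0 := by
  have hirr := X_pow_sub_C_irreducible_of_prime hr.prime (ka1_not_pow hr ht)
  have hmin := minpoly.eq_of_irreducible_of_monic hirr (ka1_root he)
    (monic_X_pow_sub_C _ hr.prime.ne_zero)
  have hinj : Function.Injective (ka1_psi k x).toRingHom := ka1_psi_inj ht
  by_contra hne
  have hne' : G.map (ka1_psi k x).toRingHom ≠ 0 := by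
    rwa [Ne, Polynomial.map_eq_zero_iff hinj]
  have hle := minpoly.degree_le_of_ne_zero (IntermediateField.adjoin k {x}) y hne'
    (by rw [ka1_aeval_map, h0])
  have hle' := natDegree_le_natDegree hle
  rw [← hmin, natDegree_X_pow_sub_C, natDegree_map_eq_of_injective hinj] at hle'
  omega

theorem kum_monic (hℓ : ℓ ≠ 0) (f : k[X]) : (kum ℓ f).Monic ∧ (kum ℓ f).natDegree = ℓ := by
  unfold kum
  exact ⟨monic_X_pow_sub_C _ hℓ, natDegree_X_pow_sub_C⟩

theorem aevalAeval_kum (he : y ^ ℓ = aeval x f) : aevalAeval x y (kum ℓ f) = 0 := by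
  unfold kum
  rw [map_sub, map_pow, aevalAeval_Y, aevalAeval_C, he, sub_self]

theorem evalEval_kum {ρ η : k} (he : η ^ ℓ = f.eval ρ) : (kum ℓ f).evalEval ρ η = 0 := by
  unfold kum
  rw [evalEval_sub, evalEval_pow, evalEval_X, evalEval_C, he, sub_self]

theorem ka1_mod (hℓ : ℓ ≠ 0) (he : y ^ ℓ = aeval x f) (G : k[X][Y]) :
    (G %ₘ kum ℓ f).natDegree < ℓ ∧ aevalAeval x y (G %ₘ kum ℓ f) = aevalAeval x y G := by
  obtain ⟨hm, hd⟩ := kum_monic hℓ f
  refine ⟨?_, ?_⟩
  · have h1 : kum ℓ f ≠ 1 := by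
      intro h1
      rw [h1, natDegree_one] at hd
      exact hℓ hd.symm
    have := natDegree_modByMonic_lt G hm h1
    rwa [hd] at this
  · conv_rhs => rw [← modByMonic_add_div G (kum ℓ f)]
    rw [map_add, map_mul, aevalAeval_kum he, zero_mul, add_zero]

/-- Divide by the monic `kum ℓ f` and use `eq_zero_of_natDegree` for the remainder. -/
theorem Cyc.ker (h : Cyc ℓ x y f) {G : k[X][Y]} (h0 : aevalAeval x y G = 0) : kum ℓ f ∣ G := by
  have hℓ := h.ram.prime.ne_zero
  obtain ⟨h1, h2⟩ := ka1_mod hℓ h.eq G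
  rw [h0] at h2
  have h3 := eq_zero_of_natDegree h.ram h.trans h.eq h1 h2
  exact (modByMonic_eq_zero_iff_dvd (kum_monic hℓ f).1).mp h3

theorem ka1_top (h : Cyc ℓ x y f) :
    IntermediateField.adjoin (IntermediateField.adjoin k {x}) {y} = ⊤ := by
  have h1 := IntermediateField.adjoin_simple_adjoin_simple k x y
  rw [h.gen] at h1
  rw [eq_top_iff]
  intro z _
  have h2 : z ∈ (IntermediateField.adjoin (IntermediateField.adjoin k {x}) {y}).restrictScalars k := by
    rw [h1]
    exact IntermediateField.mem_top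
  exact h2

/-- Sketch: the elements `φ` with `φ * B(x) = G(x, y)` for some `B ≠ 0` and some `G` form an
intermediate field containing `x, y`.  (Closure under inverses: the set is the image of
`K₀[y] = Algebra.adjoin K₀ {y}` with `y` algebraic over `K₀ = k⟮x⟯`, which is a field; use
`IntermediateField.adjoin_adjoin_left`, `adjoin_simple_toSubalgebra_of_isAlgebraic` or the like,
`IntermediateField.mem_adjoin_simple_iff`, and clear denominators.)  Then reduce `G` modulo the
monic `kum ℓ f`. -/
theorem Cyc.repr (h : Cyc ℓ x y f) (φ : E) : ∃ (G : k[X][Y]) (B : k[X]),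
    B ≠ 0 ∧ G.natDegree < ℓ ∧ φ * aeval x B = aevalAeval x y G := by
  have hℓ := h.ram.prime.ne_zero
  have hint := ka1_integral hℓ h.eq
  have hmem : φ ∈ Algebra.adjoin (IntermediateField.adjoin k {x}) {y} := by
    rw [← IntermediateField.adjoin_simple_toSubalgebra_of_isAlgebraic hint.isAlgebraic,
      ka1_top h]
    exact IntermediateField.mem_top
  have key : ∃ (G : k[X][Y]) (B : k[X]), B ≠ 0 ∧ φ * aeval x B = aevalAeval x y G := by
    induction hmem using Algebra.adjoin_induction with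
    | mem z hz =>
      rw [Set.mem_singleton_iff] at hz
      subst hz
      exact ⟨Y, 1, one_ne_zero, by rw [map_one, mul_one, aevalAeval_Y]⟩
    | algebraMap c =>
      obtain ⟨r, s, hrs⟩ := (IntermediateField.mem_adjoin_simple_iff k (c : E)).mp c.2
      have hc : algebraMap (IntermediateField.adjoin k {x}) E c = (c : E) := rfl
      by_cases hs : aeval x s = 0
      · refine ⟨0, 1, one_ne_zero, ?_⟩
        rw [hc, hrs, hs, div_zero, zero_mul, map_zero]
      · refine ⟨C r, s, ?_, ?_⟩
        · rintro rfl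
          exact hs (map_zero _)
        · rw [hc, hrs, div_mul_cancel₀ _ hs, aevalAeval_C]
    | add a b _ _ ha hb =>
      obtain ⟨G₁, B₁, h1, e1⟩ := ha
      obtain ⟨G₂, B₂, h2, e2⟩ := hb
      refine ⟨G₁ * C B₂ + G₂ * C B₁, B₁ * B₂, mul_ne_zero h1 h2, ?_⟩
      rw [map_add, map_mul, map_mul, map_mul, aevalAeval_C, aevalAeval_C, ← e1, ← e2]
      ring
    | mul a b _ _ ha hb =>
      obtain ⟨G₁, B₁, h1, e1⟩ := ha
      obtain ⟨G₂, B₂, h2, e2⟩ := hb
      refine ⟨G₁ * G₂, B₁ * B₂, mul_ne_zero h1 h2, ?_⟩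
      rw [map_mul, map_mul, ← e1, ← e2]
      ring
  obtain ⟨G, B, hB, e⟩ := key
  obtain ⟨h1, h2⟩ := ka1_mod hℓ h.eq G
  exact ⟨G %ₘ kum ℓ f, B, hB, h1, by rw [h2, e]⟩

/-- `E` is finite over `k⟮x⟯` because `y` is integral over it. -/
theorem Cyc.big (h : Cyc ℓ x y f) : Big ℓ x y f := by
  refine ⟨h.ram, h.trans, ?_, h.eq⟩
  have hint := ka1_integral h.ram.prime.ne_zero h.eq
  have h1 := IntermediateField.adjoin.finiteDimensional hint
  rw [ka1_top h] at h1
  exact (IntermediateField.topEquiv (F := IntermediateField.adjoin k {x})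
    (E := E)).toLinearEquiv.finiteDimensional

end Pool.Agent.Lib.MP_07b2d0_nt.Ks
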