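import Mathlib
import Pool.Agent.Lib.MP_07b2d0_nt.KA1

set_option autoImplicit false
set_option linter.unusedSectionVars false
set_option linter.unusedVariables false

namespace Pool.Agent.Lib.MP_07b2d0_nt.Ks

open Polynomial WithZero Finset
open scoped Polynomial.Bivariate

variable {k E : Type} [Field k] [IsAlgClosed k] [CharZero k] [Field E] [Algebra k E]
  {ℓ : ℕ} {x y : E} {f : k[X]}

variable {ζ : k} {s : E ≃ₐ[k] E}

theorem ka2_irr (h : Cyc ℓ x y f) :
    Irreducible (X ^ ℓ - C (⟨aeval x f, by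
      have : aeval x f ∈ (IntermediateField.adjoin k {x}).toSubalgebra :=
        Polynomial.aeval_mem_adjoin_singleton k x |> IntermediateField.algebra_adjoin_le_adjoin k {x}
      exact this⟩ : IntermediateField.adjoin k {x})) := by
  refine X_pow_sub_C_irreducible_of_prime h.ram.prime ?_
  rintro ⟨b, hb⟩ hbe
  have hbe' : b ^ ℓ = aeval x f := by
    have := congrArg Subtype.val hbe
    simpa using this
  obtain ⟨A, B, rfl⟩ := (IntermediateField.mem_adjoin_simple_iff k b).1 hb
  have hinj : Function.Injective (aeval x : k[X] →ₐ[k] E) :=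
    transcendental_iff_injective.1 h.trans
  have hf : f ≠ 0 := h.ram.ne_zero
  have hf' : aeval x f ≠ 0 := fun h0 => hf (hinj (by simpa using h0))
  have hℓ : ℓ ≠ 0 := h.ram.prime.ne_zero
  have hB' : aeval x B ≠ 0 := by
    intro h0
    rw [h0, div_zero, zero_pow hℓ] at hbe'
    exact hf' hbe'.symm
  have hB : B ≠ 0 := fun h0 => hB' (by simp [h0])
  have e : A ^ ℓ = f * B ^ ℓ := by
    apply hinj
    rw [map_pow, map_mul, map_pow, ← hbe', div_pow, div_mul_cancel₀ _ (pow_ne_zero _ hB')]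
  have e2 := congrArg natDegree e
  rw [natDegree_pow, natDegree_mul hf (pow_ne_zero _ hB), natDegree_pow] at e2
  apply h.ram.deg
  have : ℓ ∣ f.natDegree + ℓ * B.natDegree := e2 ▸ Dvd.intro _ rfl
  exact (Nat.dvd_add_left (Dvd.intro _ rfl)).1 this

theorem ka2_hom (σ : E →+* E) (α : k →+* k)
    (hc : ∀ c, σ (algebraMap k E c) = algebraMap k E (α c)) (hx : σ x = x) (A : k[X]) :
    σ (aeval x A) = aeval x (A.map α) := by
  induction A using Polynomial.induction_on' with
  | add p q hp hq => simp [hp, hq]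
  | monomial n a => simp [aeval_monomial, hc, hx]

theorem ka2_hom2 (σ : E →+* E) (α : k →+* k)
    (hc : ∀ c, σ (algebraMap k E c) = algebraMap k E (α c)) (hx : σ x = x) (G : k[X][Y]) :
    σ (aevalAeval x y G) = aevalAeval x (σ y) (G.map (mapRingHom α)) := by
  induction G using Polynomial.induction_on' with
  | add p q hp hq => rw [map_add, map_add, hp, hq, Polynomial.map_add, map_add]
  | monomial n a =>
    rw [← C_mul_X_pow_eq_monomial, Polynomial.map_mul, Polynomial.map_pow, map_C, map_X]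
    simp only [map_mul, map_pow, aevalAeval_C, aevalAeval_Y, coe_mapRingHom]
    rw [ka2_hom σ α hc hx]

theorem ka2_comp (c : k) (G : k[X][Y]) :
    aevalAeval x y (G.comp (C (C c) * Y)) = aevalAeval x (algebraMap k E c * y) G := by
  induction G using Polynomial.induction_on' with
  | add p q hp hq => rw [add_comp, map_add, map_add, hp, hq]
  | monomial n a =>
    rw [← C_mul_X_pow_eq_monomial, mul_comp, C_comp, pow_comp, X_comp]
    simp only [map_mul, map_pow, aevalAeval_C, aevalAeval_Y, aeval_C]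

theorem ka2_ne (h : Cyc ℓ x y f) {B : k[X]} (hB : B ≠ 0) : aeval x B ≠ 0 := fun h0 =>
  hB (transcendental_iff_injective.1 h.trans (by simpa using h0))

/-- Sketch: over `K₀ = k⟮x⟯` the elements `y` and `ζ y` have the same minimal polynomial
`X ^ ℓ - C f(x)` (irreducible, see `eq_zero_of_natDegree`), and `K₀⟮y⟯ = ⊤`; use a power basis
(`PowerBasis.lift`, `PowerBasis.equivOfMinpoly`, or `minpoly.exists_algEquiv_of_root`-like lemmas;
an injective `K₀`-linear endomorphism of a finite dimensional space is bijective,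
`AlgHom.bijective` / `Algebra.IsAlgebraic.algHom_bijective`), then restrict scalars to `k`. -/
theorem Cyc.aut (h : Cyc ℓ x y f) (hζ : IsPrimitiveRoot ζ ℓ) : ∃ s : E ≃ₐ[k] E, Aut ℓ ζ x y s := by
  classical
  set K₀ := IntermediateField.adjoin k {x} with hK₀
  have hirr := ka2_irr h
  set a : K₀ := ⟨aeval x f, _⟩ with ha
  have hℓ : ℓ ≠ 0 := h.ram.prime.ne_zero
  have hmon : (X ^ ℓ - C a : K₀[X]).Monic := monic_X_pow_sub_C a hℓ
  have hay : aeval y (X ^ ℓ - C a : K₀[X]) = 0 := by
    simp only [map_sub, map_pow, aeval_X, aeval_C]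
    rw [h.eq]; exact sub_self _
  have hmin : minpoly K₀ y = X ^ ℓ - C a :=
    (minpoly.eq_of_irreducible_of_monic hirr hay hmon).symm
  have hint : IsIntegral K₀ y := ⟨_, hmon, by rw [← aeval_def]; exact hay⟩
  have htop : IntermediateField.adjoin K₀ {y} = ⊤ := by
    apply IntermediateField.restrictScalars_injective k
    rw [hK₀, IntermediateField.adjoin_adjoin_left, IntermediateField.restrictScalars_top]
    exact h.gen
  have hz : aeval (algebraMap k E ζ * y) (minpoly K₀ (IntermediateField.adjoin.powerBasis hint).gen)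
      = 0 := by
    rw [IntermediateField.adjoin.powerBasis_gen, IntermediateField.minpoly_gen, hmin]
    simp only [map_sub, map_pow, aeval_X, aeval_C]
    rw [mul_pow, ← map_pow, hζ.pow_eq_one, map_one, one_mul, h.eq]; exact sub_self _
  let e : IntermediateField.adjoin K₀ {y} ≃ₐ[K₀] E :=
    (IntermediateField.equivOfEq htop).trans IntermediateField.topEquiv
  let σ : E →ₐ[K₀] E :=
    ((IntermediateField.adjoin.powerBasis hint).lift _ hz).comp e.symm.toAlgHom
  have hσ : σ y = algebraMap k E ζ * y := by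
    have e1 : e.symm y = (IntermediateField.adjoin.powerBasis hint).gen := by
      rw [AlgEquiv.symm_apply_eq]; rfl
    show ((IntermediateField.adjoin.powerBasis hint).lift _ hz) (e.symm y) = _
    rw [e1, PowerBasis.lift_gen]
  have : FiniteDimensional K₀ E := h.big.fin
  have hbij : Function.Bijective σ := Algebra.IsAlgebraic.algHom_bijective σ
  refine ⟨(AlgEquiv.ofBijective σ hbij).restrictScalars k, hζ, ?_, hσ⟩
  exact σ.commutes ⟨x, IntermediateField.mem_adjoin_simple_self k x⟩

theorem Aut.pow_x (hs : Aut ℓ ζ x y s) (i : ℕ) : (s ^ i) x = x := by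
  induction i with
  | zero => rfl
  | succ n ih => rw [pow_succ, AlgEquiv.mul_apply, hs.sx, ih]

theorem Aut.pow_y (hs : Aut ℓ ζ x y s) (i : ℕ) : (s ^ i) y = algebraMap k E (ζ ^ i) * y := by
  induction i with
  | zero => simp
  | succ n ih =>
    rw [pow_succ, AlgEquiv.mul_apply, hs.sy, map_mul, AlgEquiv.commutes, ih, pow_succ, map_mul]
    ring

theorem Aut.pow_aeval (hs : Aut ℓ ζ x y s) (i : ℕ) (A : k[X]) :
    (s ^ i) (aeval x A) = aeval x A := by
  rw [← aeval_algHom_apply, hs.pow_x]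

theorem Aut.pow_aevalAeval (hs : Aut ℓ ζ x y s) (i : ℕ) (G : k[X][Y]) :
    (s ^ i) (aevalAeval x y G) = aevalAeval x y (G.comp (C (C (ζ ^ i)) * Y)) := by
  have := ka2_hom2 (x := x) (y := y) ((s ^ i : E ≃ₐ[k] E) : E →+* E) (RingHom.id k)
    (fun c => (s ^ i).commutes c) (hs.pow_x i) G
  rw [mapRingHom_id, Polynomial.map_id] at this
  rw [ka2_comp, ← hs.pow_y]
  exact this

/-- Use `Cyc.repr`. -/
theorem Aut.pow_eq_one (hs : Aut ℓ ζ x y s) (h : Cyc ℓ x y f) : s ^ ℓ = 1 := by
  ext φ
  obtain ⟨G, B, hB, -, e⟩ := h.repr φ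
  have e2 := congrArg (s ^ ℓ) e
  rw [map_mul, hs.pow_aeval, hs.pow_aevalAeval, hs.prim.pow_eq_one] at e2
  simp only [map_one, one_mul, comp_X] at e2
  rw [← e] at e2
  exact mul_right_cancel₀ (ka2_ne h hB) e2

/-- Write `φ * B(x) = G(x, y)` with `natDegree G < ℓ`; then `G.comp (C (C ζ) * Y) - G` vanishes at
`(x, y)`, so it is zero, so `(ζ ^ i - 1) * coeff i G = 0` and `G` is constant in `Y`. -/
theorem Aut.fixed (hs : Aut ℓ ζ x y s) (h : Cyc ℓ x y f) {φ : E} (hφ : s φ = φ) :
    ∃ A B : k[X], B ≠ 0 ∧ φ * aeval x B = aeval x A := by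
  obtain ⟨G, B, hB, hG, e⟩ := h.repr φ
  have e2 := congrArg (s ^ (1 : ℕ) : E ≃ₐ[k] E) e
  rw [map_mul, hs.pow_aeval, hs.pow_aevalAeval, pow_one, pow_one, hφ, e] at e2
  have hdeg : (G.comp (C (C ζ) * Y) - G).natDegree < ℓ := by
    refine lt_of_le_of_lt (natDegree_sub_le _ _) (max_lt ?_ hG)
    refine lt_of_le_of_lt natDegree_comp_le (lt_of_le_of_lt ?_ hG)
    have : (C (C ζ) * Y : k[X][Y]).natDegree ≤ 1 :=
      (natDegree_C_mul_le _ _).trans natDegree_X_le
    simpa using Nat.mul_le_mul_left G.natDegree this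
  have h0 := eq_zero_of_natDegree h.ram h.trans h.eq hdeg (by rw [map_sub, ← e2, sub_self])
  have hc : ∀ i, 0 < i → G.coeff i = 0 := by
    intro i hi
    by_cases hil : i < ℓ
    · have h1 := congrArg (fun P => coeff P i) h0
      simp only [coeff_sub, comp_C_mul_X_coeff, coeff_zero] at h1
      have h2 : G.coeff i * (C ζ ^ i - 1) = 0 := by linear_combination h1
      rcases mul_eq_zero.1 h2 with h3 | h3
      · exact h3
      · exfalso
        apply hs.prim.pow_ne_one_of_pos_of_lt hi.ne' hil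
        have : (C (ζ ^ i) : k[X]) = C 1 := by rw [map_pow, map_one]; linear_combination h3
        exact C_injective this
    · exact coeff_eq_zero_of_natDegree_lt (by omega)
  have hGC : G = C (G.coeff 0) := by
    ext1 i
    rcases Nat.eq_zero_or_pos i with rfl | hi
    · simp
    · rw [hc i hi, coeff_C, if_neg hi.ne']
  refine ⟨G.coeff 0, B, hB, ?_⟩
  rw [e]
  conv_lhs => rw [hGC]
  exact aevalAeval_C _ _ _

theorem nm_mul (s : E ≃ₐ[k] E) (ℓ : ℕ) (u z : E) : nm s ℓ (u * z) = nm s ℓ u * nm s ℓ z := by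
  simp only [nm, map_mul, prod_mul_distrib]

theorem nm_pow (s : E ≃ₐ[k] E) (ℓ : ℕ) (z : E) (n : ℕ) : nm s ℓ (z ^ n) = nm s ℓ z ^ n := by
  simp only [nm, map_pow, prod_pow]

theorem nm_ne_zero (s : E ≃ₐ[k] E) (ℓ : ℕ) {z : E} (hz : z ≠ 0) : nm s ℓ z ≠ 0 := by
  unfold nm
  exact prod_ne_zero_iff.2 fun i _ => (_root_.map_ne_zero _).2 hz

theorem Aut.nm_aeval (hs : Aut ℓ ζ x y s) (A : k[X]) : nm s ℓ (aeval x A) = aeval x A ^ ℓ := by
  simp only [nm, hs.pow_aeval, prod_const, card_range]

theorem Aut.s_nm (hs : Aut ℓ ζ x y s) (h : Cyc ℓ x y f) (z : E) : s (nm s ℓ z) = nm s ℓ z := by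
  unfold nm
  rw [map_prod]
  have e1 : ∀ i, s ((s ^ i) z) = (s ^ (i + 1)) z := fun i => by rw [pow_succ', AlgEquiv.mul_apply]
  simp only [e1]
  rcases eq_or_ne z 0 with rfl | hz
  · simp
  have e2 := prod_range_succ (fun i => (s ^ i) z) ℓ
  rw [prod_range_succ', hs.pow_eq_one h, pow_zero] at e2
  exact mul_right_cancel₀ ((_root_.map_ne_zero _).2 hz) e2

/-- A semilinear automorphism fixing `x, y, ζ` commutes with `s` (use `Cyc.repr`: it maps
`G(x, y)` to `(G.map (mapRingHom α))(x, y)`), hence with the norm. -/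
theorem Aut.map_nm (hs : Aut ℓ ζ x y s) (h : Cyc ℓ x y f) (α : k ≃+* k) (β : E ≃+* E)
    (hc : ∀ c, β (algebraMap k E c) = algebraMap k E (α c)) (hx : β x = x) (hy : β y = y)
    (hζ : α ζ = ζ) (z : E) : β (nm s ℓ z) = nm s ℓ (β z) := by
  have key : ∀ φ, β (s φ) = s (β φ) := by
    intro φ
    obtain ⟨G, B, hB, -, e⟩ := h.repr φ
    have hb2 : ∀ (y' : E) (G : k[X][Y]), β (aevalAeval x y' G) =
        aevalAeval x (β y') (G.map (mapRingHom (α : k →+* k))) := fun y' G =>
      ka2_hom2 (x := x) (y := y') (β : E →+* E) (α : k →+* k) hc hx G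
    have hb1 : ∀ A : k[X], β (aeval x A) = aeval x (A.map (α : k →+* k)) := fun A =>
      ka2_hom (x := x) (β : E →+* E) (α : k →+* k) hc hx A
    have hs2 : ∀ (y' : E) (G : k[X][Y]), s (aevalAeval x y' G) = aevalAeval x (s y') G := by
      intro y' G
      have := ka2_hom2 (x := x) (y := y') (s : E →+* E) (RingHom.id k)
        (fun c => s.commutes c) hs.sx G
      rw [mapRingHom_id, Polynomial.map_id] at this
      exact this
    have hs1 : ∀ A : k[X], s (aeval x A) = aeval x A := fun A => by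
      simpa using hs.pow_aeval 1 A
    have e1 := congrArg (fun t => β (s t)) e
    have e2 := congrArg (fun t => s (β t)) e
    simp only [map_mul, hs1, hb1, hs2, hb2, hs.sy, hy, hc, hζ] at e1 e2
    have hB' : aeval x (B.map (α : k →+* k)) ≠ 0 :=
      ka2_ne h ((Polynomial.map_ne_zero_iff (α : k →+* k).injective).2 hB)
    exact mul_right_cancel₀ hB' (e1.trans e2.symm)
  have key2 : ∀ (i : ℕ) φ, β ((s ^ i) φ) = (s ^ i) (β φ) := by
    intro i
    induction i with
    | zero => intro φ; rfl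
    | succ n ih => intro φ; rw [pow_succ, AlgEquiv.mul_apply, AlgEquiv.mul_apply, ih, key]
  simp only [nm, map_prod, key2]

end Pool.Agent.Lib.MP_07b2d0_nt.Ks
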