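import Mathlib
import Pool.Agent.Lib.MP_07b2d0_nt.KA2

set_option autoImplicit false
set_option linter.unusedSectionVars false
set_option linter.unusedVariables false

namespace Pool.Agent.Lib.MP_07b2d0_nt.Ks

open Polynomial WithZero Finset
open scoped Polynomial.Bivariate

variable {k E : Type} [Field k] [IsAlgClosed k] [CharZero k] [Field E] [Algebra k E]
  {ℓ : ℕ} {x y : E} {f : k[X]}

variable {ζ : k} {s : E ≃ₐ[k] E}

theorem ka3_mul {P Q : k[X][Y]} {a b : ℕ} (hP : ∀ i, (P.coeff i).natDegree ≤ a)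
    (hQ : ∀ i, (Q.coeff i).natDegree ≤ b) (i : ℕ) : ((P * Q).coeff i).natDegree ≤ a + b := by
  rw [coeff_mul]
  exact natDegree_sum_le_of_forall_le _ _ fun c _ =>
    natDegree_mul_le.trans (add_le_add (hP _) (hQ _))

theorem ka3_prod (g : ℕ → k[X][Y]) {d : ℕ} (hg : ∀ j i, ((g j).coeff i).natDegree ≤ d) (n : ℕ) :
    ∀ i, ((∏ j ∈ range n, g j).coeff i).natDegree ≤ n * d := by
  induction n with
  | zero =>
    intro i
    rw [prod_range_zero, coeff_one]
    split_ifs <;> simp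
  | succ n ih =>
    intro i
    rw [prod_range_succ, add_mul, one_mul]
    exact ka3_mul ih (hg n) i

theorem ka3_evalEval_comp (c ρ η : k) (G : k[X][Y]) :
    (G.comp (C (C c) * Y)).evalEval ρ η = G.evalEval ρ (c * η) := by
  simp only [evalEval, eval_comp, eval_mul, eval_C, eval_X, map_mul]

/-- Sketch: `H = ∏ i ∈ range ℓ, G.comp (C (C (ζ ^ i)) * Y)` is invariant under composition with
`C (C ζ) * Y` (cyclic shift of the factors, `ζ ^ ℓ = 1`), so `coeff n H = 0` unless `ℓ ∣ n`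
(`comp_C_mul_X_coeff`).  Take `M = ∑ n ∈ H.support, H.coeff n * f ^ (n / ℓ)` and use
`Y ^ ℓ - C f ∣ (Y ^ ℓ) ^ j - (C f) ^ j`.  Degrees: all coefficients of `H` have `natDegree ≤ ℓ * d`
(induction over the product, `coeff_mul`) and `natDegree H ≤ ℓ * e`. -/
theorem exists_nrm_deg (hζ : IsPrimitiveRoot ζ ℓ) (hℓ : ℓ ≠ 0) (f : k[X]) (G : k[X][Y]) {d e : ℕ}
    (hd : ∀ i, (G.coeff i).natDegree ≤ d) (he : G.natDegree ≤ e) :
    ∃ M : k[X], IsNrm ℓ ζ f G M ∧ M.natDegree ≤ ℓ * d + e * f.natDegree := by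
  classical
  set g : ℕ → k[X][Y] := fun i => G.comp (C (C (ζ ^ i)) * Y) with hg
  set H := ∏ i ∈ range ℓ, g i with hH
  have hinv : H.comp (C (C ζ) * Y) = H := by
    have e1 : ∀ i, (g i).comp (C (C ζ) * Y) = g (i + 1) := by
      intro i
      simp only [hg, comp_assoc, mul_comp, C_comp, X_comp, pow_succ, map_mul, mul_assoc]
    rw [hH, Polynomial.prod_comp]
    simp only [e1]
    have e0 : g ℓ = g 0 := by simp only [hg, hζ.pow_eq_one, pow_zero]
    rcases eq_or_ne (g 0) 0 with h0 | h0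
    · have hG : G = 0 := by simpa [hg] using h0
      simp [hg, hG]
    have e2 := prod_range_succ g ℓ
    rw [prod_range_succ', e0] at e2
    exact mul_right_cancel₀ h0 e2
  have hdv : ∀ n ∈ H.support, ℓ ∣ n := by
    intro n hn
    have h1 := congrArg (fun P => coeff P n) hinv
    simp only [comp_C_mul_X_coeff] at h1
    have h2 : H.coeff n * (C ζ ^ n - 1) = 0 := by linear_combination h1
    rcases mul_eq_zero.1 h2 with h3 | h3
    · exact absurd h3 (mem_support_iff.1 hn)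
    · have : (C (ζ ^ n) : k[X]) = C 1 := by rw [map_pow, map_one]; linear_combination h3
      exact (hζ.pow_eq_one_iff_dvd n).1 (C_injective this)
  have hco : ∀ i, (H.coeff i).natDegree ≤ ℓ * d := by
    refine ka3_prod g (fun j i => ?_) ℓ
    simp only [hg, comp_C_mul_X_coeff]
    rw [← map_pow]
    exact (natDegree_mul_C_le _ _).trans (hd i)
  have hdeg : H.natDegree ≤ ℓ * e := by
    refine (natDegree_prod_le _ _).trans ?_
    refine (sum_le_card_nsmul _ _ e fun j _ => ?_).trans (by simp)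
    refine natDegree_comp_le.trans ?_
    have : (C (C (ζ ^ j)) * Y : k[X][Y]).natDegree ≤ 1 :=
      (natDegree_C_mul_le _ _).trans natDegree_X_le
    exact (by simpa using Nat.mul_le_mul_left G.natDegree this : _ ≤ G.natDegree).trans he
  refine ⟨∑ n ∈ H.support, H.coeff n * f ^ (n / ℓ), ?_, ?_⟩
  · show kum ℓ f ∣ H - _
    rw [map_sum]
    nth_rewrite 1 [H.as_sum_support_C_mul_X_pow]
    rw [← sum_sub_distrib]
    refine dvd_sum fun n hn => ?_
    obtain ⟨m, rfl⟩ := hdv n hn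
    rw [Nat.mul_div_cancel_left _ (Nat.pos_of_ne_zero hℓ), map_mul, ← mul_sub, pow_mul, map_pow]
    exact Dvd.dvd.mul_left (sub_dvd_pow_sub_pow _ _ _) _
  · refine natDegree_sum_le_of_forall_le _ _ fun n hn => ?_
    refine natDegree_mul_le.trans (add_le_add (hco n) (natDegree_pow_le.trans ?_))
    refine Nat.mul_le_mul_right _ ?_
    exact Nat.div_le_of_le_mul ((le_natDegree_of_mem_supp n hn).trans hdeg)

theorem exists_nrm (hζ : IsPrimitiveRoot ζ ℓ) (hℓ : ℓ ≠ 0) (f : k[X]) (G : k[X][Y]) :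
    ∃ M : k[X], IsNrm ℓ ζ f G M := by
  classical
  obtain ⟨M, hM, -⟩ := exists_nrm_deg hζ hℓ f G
    (d := G.support.sup fun i => (G.coeff i).natDegree) (e := G.natDegree) (fun i => by
      by_cases hi : i ∈ G.support
      · exact le_sup (f := fun i => (G.coeff i).natDegree) hi
      · rw [notMem_support_iff.1 hi]; simp) le_rfl
  exact ⟨M, hM⟩

theorem IsNrm.eval_eq {G : k[X][Y]} {M : k[X]} (h : IsNrm ℓ ζ f G M) {ρ η : k}
    (hη : η ^ ℓ = f.eval ρ) : M.eval ρ = ∏ i ∈ range ℓ, G.evalEval ρ (ζ ^ i * η) := by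
  obtain ⟨Q, hQ⟩ := h
  have := congrArg (evalEvalRingHom ρ η) hQ
  simp only [map_sub, map_mul, map_prod, coe_evalEvalRingHom, evalEval_kum hη, zero_mul,
    evalEval_C, ka3_evalEval_comp] at this
  exact (sub_eq_zero.1 this).symm

theorem IsNrm.aeval_eq {G : k[X][Y]} {M : k[X]} (h : IsNrm ℓ ζ f G M) (hs : Aut ℓ ζ x y s)
    (he : y ^ ℓ = aeval x f) : aeval x M = nm s ℓ (aevalAeval x y G) := by
  obtain ⟨Q, hQ⟩ := h
  have := congrArg (aevalAeval x y) hQ
  rw [map_sub, map_mul, map_prod, aevalAeval_kum he, zero_mul, aevalAeval_C] at this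
  simp only [nm, hs.pow_aevalAeval]
  exact (sub_eq_zero.1 this).symm

/-- A zero `(ρ, η)` of `G` gives a root `ρ` of `M` (the factor `i = 0`). -/
theorem IsNrm.finZ {G : k[X][Y]} {M : k[X]} (h : IsNrm ℓ ζ f G M) (hℓ : ℓ ≠ 0) (hM : M ≠ 0) :
    FinZ ℓ f G := by
  classical
  refine (M.roots.toFinset.finite_toSet).subset ?_
  rintro ρ ⟨η, hη, h0⟩
  simp only [Finset.mem_coe, Multiset.mem_toFinset, mem_roots hM, IsRoot.def]
  rw [h.eval_eq hη]
  exact prod_eq_zero (mem_range.2 (Nat.pos_of_ne_zero hℓ)) (by simpa using h0)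

/-- If `M = 0` then above every `ρ` (choose any `η` with `η ^ ℓ = f(ρ)`) some `ζ ^ i * η` is a
zero of `G`, and `k` is infinite. -/
theorem IsNrm.ne_zero {G : k[X][Y]} {M : k[X]} (h : IsNrm ℓ ζ f G M) (hζ : IsPrimitiveRoot ζ ℓ)
    (hℓ : ℓ ≠ 0) (hG : FinZ ℓ f G) : M ≠ 0 := by
  rintro rfl
  refine Set.infinite_univ (α := k) (hG.subset fun ρ _ => ?_)
  obtain ⟨η, hη⟩ := IsAlgClosed.exists_pow_nat_eq (f.eval ρ) (Nat.pos_of_ne_zero hℓ)
  have := h.eval_eq hη
  rw [eval_zero] at this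
  obtain ⟨i, -, hi⟩ := prod_eq_zero_iff.1 this.symm
  refine ⟨ζ ^ i * η, ?_, hi⟩
  rw [mul_pow, ← pow_mul, mul_comm i, pow_mul, hζ.pow_eq_one, one_pow, one_mul, hη]

end Pool.Agent.Lib.MP_07b2d0_nt.Ks
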