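import Mathlib

set_option autoImplicit false
set_option linter.unusedSectionVars false
set_option linter.unusedVariables false

namespace Pool.Agent.Lib.MP_07b2d0_nt.Ks

/-- Fewer equations than unknowns, all vanishing at the origin, have another common zero.
Sketch: otherwise by the Nullstellensatz (`MvPolynomial.vanishingIdeal_zeroLocus_eq_radical`) the
radical of `I = span (range p)` is the maximal ideal `m = ker (constantCoeff)` of the origin, so
`m ∈ I.minimalPrimes` and Krull's height theorem
(`Ideal.height_le_card_of_mem_minimalPrimes_span_finset`) gives `height m ≤ card ι`.  But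
`height m ≥ card σ`: with `σ ≃ Fin n`, the kernels of the maps `aeval (fun i => if i < j then 0
else X i)` form a strictly increasing chain of primes of length `n` ending in `m` (`LTSeries`,
`Order.length_le_height_last`, `Ideal.height_eq_primeHeight`).  Any other proof is welcome. -/
theorem exists_ne_zero_common_zero {k σ ι : Type} [Field k] [IsAlgClosed k] [Fintype σ]
    [Fintype ι] (h : Fintype.card ι < Fintype.card σ) (p : ι → MvPolynomial σ k)
    (h0 : ∀ i, MvPolynomial.eval 0 (p i) = 0) :
    ∃ z : σ → k, z ≠ 0 ∧ ∀ i, MvPolynomial.eval z (p i) = 0 := by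
  classical
  by_contra hne
  have hz : ∀ z : σ → k, (∀ i, MvPolynomial.eval z (p i) = 0) → z = 0 := by
    intro z hz
    by_contra h1
    exact hne ⟨z, h1, hz⟩
  have key : ringKrullDim (MvPolynomial σ k) ≤ ((Fintype.card ι : ℕ∞) : WithBot ℕ∞) := by
    rw [ringKrullDim_le_iff_isMaximal_height_le]
    intro m hm
    obtain ⟨a, rfl⟩ := MvPolynomial.isMaximal_iff_eq_vanishingIdeal_singleton.1 hm
    let q : ι → MvPolynomial σ k := fun i =>
      MvPolynomial.aeval (fun s => MvPolynomial.X s - MvPolynomial.C (a s)) (p i)
    have hq : ∀ (x : σ → k) i, MvPolynomial.aeval x (q i) = MvPolynomial.eval (x - a) (p i) := by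
      intro x i
      simp only [q]
      have e : (fun s => MvPolynomial.aeval x (MvPolynomial.X s - MvPolynomial.C (a s) :
          MvPolynomial σ k)) = x - a := by
        funext s
        simp
      rw [← AlgHom.comp_apply, MvPolynomial.comp_aeval, e]
      rfl
    have hl : MvPolynomial.zeroLocus k (Ideal.span ((Finset.univ.image q : Finset _) :
        Set (MvPolynomial σ k))) = {a} := by
      rw [MvPolynomial.zeroLocus_span]
      ext x
      simp only [Finset.coe_image, Finset.coe_univ, Set.image_univ, Set.mem_range,
        forall_exists_index, forall_apply_eq_imp_iff, Set.mem_ofPred_eq, Set.mem_singleton_iff, hq]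
      constructor
      · intro hx
        exact sub_eq_zero.1 (hz _ hx)
      · rintro rfl i
        rw [sub_self]
        exact h0 i
    have hr := MvPolynomial.vanishingIdeal_zeroLocus_eq_radical (K := k)
      (Ideal.span ((Finset.univ.image q : Finset _) : Set (MvPolynomial σ k)))
    rw [hl] at hr
    have hmin : MvPolynomial.vanishingIdeal k {a} ∈ (Ideal.span ((Finset.univ.image q : Finset _) :
        Set (MvPolynomial σ k))).minimalPrimes := by
      rw [← Ideal.radical_minimalPrimes, ← hr, Ideal.minimalPrimes_eq_subsingleton_self]
      rfl
    have h1 := Ideal.height_le_card_of_mem_minimalPrimes_span_finset hmin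
    have h2 : (Finset.univ.image q).card ≤ Fintype.card ι := Finset.card_image_le
    exact_mod_cast h1.trans (by exact_mod_cast h2)
  rw [MvPolynomial.ringKrullDim_of_isNoetherianRing, ringKrullDim_eq_zero_of_field, zero_add,
    Nat.card_eq_fintype_card] at key
  have : Fintype.card σ ≤ Fintype.card ι := by exact_mod_cast key
  omega

end Pool.Agent.Lib.MP_07b2d0_nt.Ks
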