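import Mathlib
import Pool.Agent.Lib.MP_07b2d0_nt.KA3
import Pool.Agent.Lib.MP_07b2d0_nt.KA4

set_option autoImplicit false
set_option linter.unusedSectionVars false
set_option linter.unusedVariables false

namespace Pool.Agent.Lib.MP_07b2d0_nt.Ks

open Polynomial WithZero Finset
open scoped Polynomial.Bivariate

variable {k E : Type} [Field k] [IsAlgClosed k] [CharZero k] [Field E] [Algebra k E]
  {ℓ : ℕ} {x y : E} {f : k[X]}

variable {ζ : k} {s : E ≃ₐ[k] E}

theorem ka5_coeff {R : Type} [CommRing R] {n : ℕ} (c : Fin n → R) (j : Fin n) :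
    (∑ i : Fin n, C (c i) * X ^ (i : ℕ)).coeff j = c j := by
  rw [finsetSum_coeff, Finset.sum_eq_single j]
  · simp
  · intro b _ hb
    rw [coeff_C_mul_X_pow, if_neg]
    exact fun h => hb (Fin.ext h.symm)
  · simp

theorem ka5_coeff_ge {R : Type} [CommRing R] {n : ℕ} (c : Fin n → R) (j : ℕ) (hj : n ≤ j) :
    (∑ i : Fin n, C (c i) * X ^ (i : ℕ)).coeff j = 0 := by
  rw [finsetSum_coeff]
  refine Finset.sum_eq_zero fun b _ => ?_
  rw [coeff_C_mul_X_pow, if_neg]
  have := b.2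
  omega

theorem ka5_deg {R : Type} [CommRing R] {n : ℕ} (c : Fin n → R) :
    (∑ i : Fin n, C (c i) * X ^ (i : ℕ)).natDegree ≤ n - 1 := by
  rw [natDegree_le_iff_coeff_eq_zero]
  intro j hj
  exact ka5_coeff_ge c j (by omega)

/-- The case of Tsen's theorem that we need, for polynomials.  Sketch: unknowns
`z : Option (Fin ℓ) × Fin (d + 1) → k`, `G = ∑ i j, C (C (z (some i, j)) * X ^ j) * Y ^ i`,
`T = ∑ j, C (z (none, j)) * X ^ j`.  Put `D = ℓ * d + ℓ * natDegree f + 1`, choose `D + 1` distinct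
points `ρ t` (`Infinite.natEmbedding` or natural numbers) and `η t` with `η t ^ ℓ = f(ρ t)`.
Equation number `t` is the polynomial
`∏ u ∈ range ℓ, (∑ i j, X (some i, j) * C (ρ t ^ j * (ζ ^ u * η t) ^ i)) -
  C (ρ t - τ) * (∑ j, X (none, j) * C (ρ t ^ j)) ^ ℓ`.
For `d = ℓ * natDegree f + 2` there are more unknowns `(ℓ + 1) (d + 1)` than equations.  For a
common zero `z ≠ 0` (`exists_ne_zero_common_zero`) take `M` from `exists_nrm_deg`; then
`M - (X - C τ) * T ^ ℓ` has degree `≤ D` and `D + 1` roots (`IsNrm.eval_eq`). -/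
theorem exists_nrm_eq (hζ : IsPrimitiveRoot ζ ℓ) (hℓ : ℓ ≠ 0) (f : k[X]) (τ : k) :
    ∃ (G : k[X][Y]) (T : k[X]), G.natDegree < ℓ ∧ (G ≠ 0 ∨ T ≠ 0) ∧
      IsNrm ℓ ζ f G ((X - C τ) * T ^ ℓ) := by
  classical
  obtain ⟨d, hd⟩ : ∃ d, d = ℓ * f.natDegree + 2 := ⟨_, rfl⟩
  obtain ⟨D, hD⟩ : ∃ D, D = ℓ * d + ℓ * f.natDegree + 1 := ⟨_, rfl⟩
  let ρ : Fin (D + 1) → k := fun t => ((t : ℕ) : k)
  have hρ : Function.Injective ρ := fun a b h => Fin.ext (Nat.cast_injective h)
  have hη : ∀ t, ∃ η, η ^ ℓ = f.eval (ρ t) := fun t =>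
    IsAlgClosed.exists_pow_nat_eq _ (Nat.pos_of_ne_zero hℓ)
  choose η hη using hη
  let p : Fin (D + 1) → MvPolynomial (Option (Fin ℓ) × Fin (d + 1)) k := fun t =>
    ∏ u ∈ range ℓ, (∑ i : Fin ℓ, ∑ j : Fin (d + 1), MvPolynomial.X (some i, j) *
      MvPolynomial.C (ρ t ^ (j : ℕ) * (ζ ^ u * η t) ^ (i : ℕ))) -
      MvPolynomial.C (ρ t - τ) *
        (∑ j : Fin (d + 1), MvPolynomial.X (none, j) * MvPolynomial.C (ρ t ^ (j : ℕ))) ^ ℓ
  have hev : ∀ (z : Option (Fin ℓ) × Fin (d + 1) → k) t, MvPolynomial.eval z (p t) =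
      ∏ u ∈ range ℓ, (∑ i : Fin ℓ, ∑ j : Fin (d + 1), z (some i, j) *
        (ρ t ^ (j : ℕ) * (ζ ^ u * η t) ^ (i : ℕ))) -
        (ρ t - τ) * (∑ j : Fin (d + 1), z (none, j) * ρ t ^ (j : ℕ)) ^ ℓ := by
    intro z t
    simp only [p, map_sub, map_prod, map_sum, map_mul, map_pow, MvPolynomial.eval_X,
      MvPolynomial.eval_C]
  have hcard : Fintype.card (Fin (D + 1)) < Fintype.card (Option (Fin ℓ) × Fin (d + 1)) := by
    simp only [Fintype.card_fin, Fintype.card_prod, Fintype.card_option]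
    have : (ℓ + 1) * (d + 1) = ℓ * d + ℓ + d + 1 := by ring
    omega
  obtain ⟨z, hz, hp⟩ := exists_ne_zero_common_zero hcard p (by
    intro t
    rw [hev]
    simp [hℓ])
  let A : Option (Fin ℓ) → k[X] := fun o => ∑ j : Fin (d + 1), C (z (o, j)) * X ^ (j : ℕ)
  have hA : ∀ o, (A o).natDegree ≤ d := fun o => ka5_deg (fun j => z (o, j))
  have hAe : ∀ o r, (A o).eval r = ∑ j : Fin (d + 1), z (o, j) * r ^ (j : ℕ) := by
    intro o r
    simp [A, eval_finsetSum]
  let G : k[X][Y] := ∑ i : Fin ℓ, C (A (some i)) * X ^ (i : ℕ)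
  have hG : G.natDegree ≤ ℓ - 1 := ka5_deg (fun i => A (some i))
  have hGc : ∀ i, (G.coeff i).natDegree ≤ d := by
    intro i
    by_cases hi : i < ℓ
    · have := ka5_coeff (fun i => A (some i)) ⟨i, hi⟩
      simp only at this
      rw [show G.coeff i = A (some ⟨i, hi⟩) from this]
      exact hA _
    · rw [show G.coeff i = 0 from ka5_coeff_ge (fun i => A (some i)) i (by omega)]
      simp
  have hGe : ∀ r e, G.evalEval r e =
      ∑ i : Fin ℓ, ∑ j : Fin (d + 1), z (some i, j) * (r ^ (j : ℕ) * e ^ (i : ℕ)) := by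
    intro r e
    simp only [G, evalEval_finsetSum, evalEval_mul, evalEval_C, evalEval_pow, evalEval_X, hAe,
      Finset.sum_mul, mul_assoc]
  obtain ⟨M, hM, hMd⟩ := exists_nrm_deg hζ hℓ f G hGc (le_trans hG (Nat.sub_le ℓ 1))
  refine ⟨G, A none, by omega, ?_, ?_⟩
  · by_contra hcon
    push Not at hcon
    apply hz
    have hA0 : ∀ o, A o = 0 := by
      intro o
      cases o with
      | none => exact hcon.2
      | some i =>
        have := ka5_coeff (fun i => A (some i)) i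
        rw [← this, show (∑ i : Fin ℓ, C (A (some i)) * X ^ (i : ℕ)) = G from rfl, hcon.1,
          coeff_zero]
    funext ⟨o, j⟩
    have := ka5_coeff (fun j => z (o, j)) j
    rw [← this, show (∑ j : Fin (d + 1), C (z (o, j)) * X ^ (j : ℕ)) = A o from rfl, hA0,
      coeff_zero]
    rfl
  · have hE : M - (X - C τ) * A none ^ ℓ = 0 := by
      refine eq_zero_of_natDegree_lt_card_of_eval_eq_zero _ hρ ?_ ?_
      · intro t
        have h1 := hp t
        rw [hev] at h1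
        rw [eval_sub, hM.eval_eq (hη t)]
        simp only [hGe, eval_mul, eval_sub, eval_X, eval_C, eval_pow, hAe]
        exact h1
      · rw [Fintype.card_fin]
        have h1 : ((X - C τ) * A none ^ ℓ).natDegree ≤ 1 + ℓ * d := by
          refine le_trans natDegree_mul_le (add_le_add ?_ ?_)
          · rw [natDegree_X_sub_C]
          · exact le_trans natDegree_pow_le (Nat.mul_le_mul_left _ (hA none))
        have h2 := natDegree_sub_le M ((X - C τ) * A none ^ ℓ)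
        have h3 : max M.natDegree ((X - C τ) * A none ^ ℓ).natDegree ≤ D := by
          apply max_le <;> omega
        omega
    rw [← sub_eq_zero.mp hE]
    exact hM

/-- If `T = 0` then `nm (G(x, y)) = 0`, so `G(x, y) = 0`, so `G = 0` (`eq_zero_of_natDegree`).
Take `ψ = G(x, y) / T(x)`. -/
theorem Aut.norm_surj (hs : Aut ℓ ζ x y s) (h : Cyc ℓ x y f) (τ : k) :
    ∃ ψ : E, nm s ℓ ψ = x - algebraMap k E τ := by
  have hℓ : ℓ ≠ 0 := h.ram.prime.ne_zero
  obtain ⟨G, T, hG, hne, hN⟩ := exists_nrm_eq hs.prim hℓ f τ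
  have h1 := hN.aeval_eq hs h.eq
  have hT : T ≠ 0 := by
    intro hT
    have hG0 : G ≠ 0 := hne.resolve_right (fun h => h hT)
    have h2 : aevalAeval x y G ≠ 0 := fun h0 =>
      hG0 (eq_zero_of_natDegree h.ram h.trans h.eq hG h0)
    apply nm_ne_zero s ℓ h2
    rw [← h1, hT, zero_pow hℓ, mul_zero, map_zero]
  have hTx : aeval x T ≠ 0 := fun h0 => h.trans ⟨T, hT, h0⟩
  refine ⟨aevalAeval x y G / aeval x T, ?_⟩
  have h3 := nm_mul s ℓ (aevalAeval x y G / aeval x T) (aeval x T)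
  rw [div_mul_cancel₀ _ hTx, ← h1, hs.nm_aeval, map_mul, map_pow] at h3
  have h4 := mul_right_cancel₀ (pow_ne_zero ℓ hTx) h3
  rw [← h4]
  simp

end Pool.Agent.Lib.MP_07b2d0_nt.Ks
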