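import Mathlib
import Pool.Agent.Lib.MP_07b2d0_nt.KA1
import Pool.Agent.Lib.MP_07b2d0_nt.KB1

set_option autoImplicit false
set_option linter.unusedSectionVars false
set_option linter.unusedVariables false

namespace Pool.Agent.Lib.MP_07b2d0_nt.Ks

open Polynomial WithZero Finset
open scoped Polynomial.Bivariate

variable {k E : Type} [Field k] [IsAlgClosed k] [CharZero k] [Field E] [Algebra k E]
  {ℓ : ℕ} {x y : E} {f : k[X]}
/-- Common core of the two lemmas below: a sum of terms with pairwise distinct valuations. -/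
theorem val_sum_eq {v : Valuation E ℤᵐ⁰} {S : Finset ℕ} {u : ℕ → E} {i₀ : ℕ} (hi : i₀ ∈ S)
    (h : ∀ i ∈ S, i ≠ i₀ → v (u i) < v (u i₀)) :
    v (∑ i ∈ S, u i) = v (u i₀) ∧ (u i₀ ≠ 0 → v (∑ i ∈ S, u i - u i₀) < v (u i₀)) := by
  refine ⟨v.map_sum_eq_of_lt hi fun i hi' => ?_, fun h0 => ?_⟩
  · rw [Finset.mem_sdiff, Finset.mem_singleton] at hi'
    exact h i hi'.1 hi'.2
  · rw [← Finset.add_sum_erase S u hi, add_sub_cancel_left]
    exact v.map_sum_lt ((Valuation.ne_zero_iff v).2 h0) fun i hi' =>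
      h i (Finset.mem_of_mem_erase hi') (Finset.ne_of_mem_erase hi')

theorem kb4_aeval_ne (h : Cyc ℓ x y f) {A : k[X]} (hA : A ≠ 0) : aeval x A ≠ 0 := fun h0 =>
  h.trans ⟨A, hA, h0⟩

theorem kb4_log_neg (h : Cyc ℓ x y f) {τ : k} {v : Valuation E ℤᵐ⁰}
    (hc : v (x - algebraMap k E τ) < 1) : log (v (x - algebraMap k E τ)) < 0 := by
  have h0 : x - algebraMap k E τ ≠ 0 := by
    have := kb4_aeval_ne h (X_sub_C_ne_zero τ)
    simpa using this
  have h1 := (log_lt_log ((Valuation.ne_zero_iff v).2 h0) one_ne_zero).2 hc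
  rwa [log_one] at h1

theorem kb4_logy (h : Cyc ℓ x y f) {v : Valuation E ℤᵐ⁰} {t : ℤᵐ⁰} {w : ℕ}
    (hw : v (aeval x f) = t ^ w) : (ℓ : ℤ) * log (v y) = w * log t := by
  have h1 : v y ^ ℓ = t ^ w := by rw [← hw, ← h.eq, map_pow]
  have h2 := congrArg log h1
  rwa [log_pow, log_pow, nsmul_eq_mul, nsmul_eq_mul] at h2

theorem kb4_dvd (h : Cyc ℓ x y f) {v : Valuation E ℤᵐ⁰} {t : ℤᵐ⁰} {w : ℕ} (hf : ¬ ℓ ∣ w)
    (hw : v (aeval x f) = t ^ w) : (ℓ : ℤ) ∣ log t := by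
  have hp : Prime (ℓ : ℤ) := Nat.prime_iff_prime_int.1 h.ram.prime
  have h1 : (ℓ : ℤ) ∣ w * log t := ⟨_, (kb4_logy h hw).symm⟩
  rcases hp.dvd_or_dvd h1 with h2 | h2
  · exact absurd (Int.natCast_dvd_natCast.1 h2) hf
  · exact h2

theorem kb4_lead_ram (τ : k) (A B : k[X]) (hA : A ≠ 0) (hB : B ≠ 0)
    (hAB : rootMultiplicity τ A = rootMultiplicity τ B) :
    ∃ c : k, c ≠ 0 ∧ (A - C c * B = 0 ∨
      (-1 : ℤ) * (rootMultiplicity τ (A - C c * B) : ℕ) < -1 * (rootMultiplicity τ B : ℕ)) := by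
  obtain ⟨A', hA', hA1⟩ := exists_eq_pow_rootMultiplicity_mul_and_not_dvd A hA τ
  obtain ⟨B', hB', hB1⟩ := exists_eq_pow_rootMultiplicity_mul_and_not_dvd B hB τ
  rw [dvd_iff_isRoot] at hA1 hB1
  have hA2 : A'.eval τ ≠ 0 := hA1
  have hB2 : B'.eval τ ≠ 0 := hB1
  refine ⟨A'.eval τ / B'.eval τ, div_ne_zero hA2 hB2, ?_⟩
  rw [or_iff_not_imp_left]
  intro hne
  have h1 : X - C τ ∣ A' - C (A'.eval τ / B'.eval τ) * B' := by
    rw [dvd_iff_isRoot, IsRoot.def, eval_sub, eval_mul, eval_C, div_mul_cancel₀ _ hB2, sub_self]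
  have h2 : (X - C τ) ^ (rootMultiplicity τ B + 1) ∣ A - C (A'.eval τ / B'.eval τ) * B := by
    obtain ⟨D, hD⟩ := h1
    refine ⟨D, ?_⟩
    rw [hAB] at hA'
    generalize rootMultiplicity τ B = r at hA' hB'
    rw [pow_succ, mul_assoc, ← hD]
    conv_lhs => rw [hA', hB']
    ring
  have h3 := (le_rootMultiplicity_iff hne).2 h2
  omega

theorem kb4_lead_inf (A B : k[X]) (hA : A ≠ 0) (hB : B ≠ 0) (hAB : natDegree A = natDegree B) :
    ∃ c : k, c ≠ 0 ∧ (A - C c * B = 0 ∨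
      (1 : ℤ) * (natDegree (A - C c * B) : ℕ) < 1 * (natDegree B : ℕ)) := by
  have hA2 : A.leadingCoeff ≠ 0 := leadingCoeff_ne_zero.2 hA
  have hB2 : B.leadingCoeff ≠ 0 := leadingCoeff_ne_zero.2 hB
  have hc : A.leadingCoeff / B.leadingCoeff ≠ 0 := div_ne_zero hA2 hB2
  refine ⟨_, hc, ?_⟩
  rw [or_iff_not_imp_left]
  intro hne
  have h1 : degree (A - C (A.leadingCoeff / B.leadingCoeff) * B) < degree A := by
    refine degree_sub_lt_left ?_ hA ?_
    · rw [degree_C_mul hc, degree_eq_natDegree hA, degree_eq_natDegree hB, hAB]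
    · rw [leadingCoeff_mul, leadingCoeff_C, div_mul_cancel₀ _ hB2]
  have h2 := natDegree_lt_natDegree hne h1
  omega

theorem kb4_lt {v : Valuation E ℤᵐ⁰} {a b : E} (ha : a ≠ 0) (hb : b ≠ 0) {m : ℕ} (hm : 0 < m)
    {s L p q : ℤ} (hs : s * s = 1) (hL : 0 < s * L) (hpq : s * p < s * q)
    (h1 : m * log (v a) = p * L) (h2 : m * log (v b) = q * L) : v a < v b := by
  have h3 := mul_lt_mul_of_pos_right hpq hL
  have h4 : ∀ r : ℤ, s * r * (s * L) = r * L := fun r => by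
    calc s * r * (s * L) = (s * s) * (r * L) := by ring
      _ = r * L := by rw [hs, one_mul]
  rw [h4, h4, ← h1, ← h2] at h3
  have hm' : (0 : ℤ) < m := by exact_mod_cast hm
  exact (log_lt_log ((Valuation.ne_zero_iff v).2 ha) ((Valuation.ne_zero_iff v).2 hb)).1
    (lt_of_mul_lt_mul_left h3 hm'.le)

theorem kb4_core (h : Cyc ℓ x y f) (P : Valuation E ℤᵐ⁰ → Prop) (t : E) (o : k[X] → ℕ) (s : ℤ)
    (hs : s * s = 1)
    (hP : ∀ v, P v → 0 < s * log (v t) ∧ ∀ A : k[X], A ≠ 0 → v (aeval x A) = v t ^ o A)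
    (hf : ¬ ℓ ∣ o f)
    (hc : ∀ A B : k[X], A ≠ 0 → B ≠ 0 → o A = o B →
      ∃ c : k, c ≠ 0 ∧ (A - C c * B = 0 ∨ s * (o (A - C c * B) : ℕ) < s * (o B : ℕ)))
    {g : E} (hg : g ≠ 0) :
    ∃ n : ℤ, (∀ v, P v → ℓ * log (v g) = n * log (v t)) ∧
      (n = 0 → ∃ c : k, c ≠ 0 ∧ ∀ v, P v → v (g - algebraMap k E c) < 1) := by
  obtain ⟨G, B, hB, hG, hr⟩ := h.repr g
  have hp : Prime (ℓ : ℤ) := Nat.prime_iff_prime_int.1 h.ram.prime
  have hl : 0 < ℓ := h.ram.prime.pos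
  have hBx : aeval x B ≠ 0 := kb4_aeval_ne h hB
  have hy : y ≠ 0 := by
    rintro rfl
    have := h.eq
    rw [zero_pow hl.ne'] at this
    exact kb4_aeval_ne h h.ram.ne_zero this.symm
  have hG0 : G ≠ 0 := by
    rintro rfl
    rw [map_zero] at hr
    exact mul_ne_zero hg hBx hr
  set u : ℕ → E := fun i => aeval x (G.coeff i) * y ^ i with hu
  have hsum : aevalAeval x y G = ∑ i ∈ G.support, u i := by
    conv_lhs => rw [G.as_sum_support_C_mul_X_pow]
    rw [map_sum]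
    refine Finset.sum_congr rfl fun i _ => ?_
    rw [map_mul, map_pow, aevalAeval_C, aevalAeval_Y]
  set e : ℕ → ℤ := fun i => ℓ * (o (G.coeff i) : ℕ) + i * (o f : ℕ) with he
  have hlt : ∀ i ∈ G.support, i < ℓ := fun i hi => (le_natDegree_of_mem_supp i hi).trans_lt hG
  have hdiv : ∀ i j : ℕ, i < ℓ → j < ℓ → (ℓ : ℤ) ∣ ((i : ℤ) - j) * (o f : ℕ) → i = j := by
    intro i j hi hj hd
    rcases hp.dvd_or_dvd hd with h2 | h2
    · have := Int.eq_zero_of_abs_lt_dvd h2 (abs_lt.2 ⟨by omega, by omega⟩)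
      omega
    · exact absurd (Int.natCast_dvd_natCast.1 h2) hf
  obtain ⟨i₀, hi₀, hmax⟩ := Finset.exists_max_image G.support (fun i => s * e i)
    (nonempty_support_iff.2 hG0)
  have hu0 : ∀ i ∈ G.support, u i ≠ 0 := fun i hi =>
    mul_ne_zero (kb4_aeval_ne h (mem_support_iff.1 hi)) (pow_ne_zero _ hy)
  have hlogA : ∀ v, P v → ∀ A : k[X], A ≠ 0 → log (v (aeval x A)) = o A * log (v t) := by
    intro v hv A hA
    rw [(hP v hv).2 A hA, log_pow, nsmul_eq_mul]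
  have hlogu : ∀ v, P v → ∀ i ∈ G.support, ℓ * log (v (u i)) = e i * log (v t) := by
    intro v hv i hi
    have h1 := kb4_logy h ((hP v hv).2 f h.ram.ne_zero)
    have h2 := hlogA v hv _ (mem_support_iff.1 hi)
    simp only [hu, he]
    rw [map_mul, map_pow, log_mul
      ((Valuation.ne_zero_iff v).2 (kb4_aeval_ne h (mem_support_iff.1 hi)))
      (pow_ne_zero _ ((Valuation.ne_zero_iff v).2 hy)), log_pow, nsmul_eq_mul, h2]
    linear_combination (i : ℤ) * h1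
  have hkey : ∀ v, P v → ∀ i ∈ G.support, i ≠ i₀ → v (u i) < v (u i₀) := by
    intro v hv i hi hne
    refine kb4_lt (hu0 i hi) (hu0 i₀ hi₀) hl hs (hP v hv).1 ?_ (hlogu v hv i hi)
      (hlogu v hv i₀ hi₀)
    refine lt_of_le_of_ne (hmax i hi) fun heq => hne ?_
    have h1 : e i = e i₀ := by
      calc e i = s * (s * e i) := by rw [← mul_assoc, hs, one_mul]
        _ = s * (s * e i₀) := by rw [heq]
        _ = e i₀ := by rw [← mul_assoc, hs, one_mul]
    refine hdiv i i₀ (hlt i hi) (hlt i₀ hi₀) ⟨(o (G.coeff i₀) : ℕ) - (o (G.coeff i) : ℕ), ?_⟩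
    simp only [he] at h1
    linear_combination h1
  refine ⟨e i₀ - ℓ * (o B : ℕ), fun v hv => ?_, fun hn => ?_⟩
  · have h1 := (val_sum_eq hi₀ (hkey v hv)).1
    rw [← hsum, ← hr, map_mul] at h1
    have h2 := congrArg log h1
    rw [log_mul ((Valuation.ne_zero_iff v).2 hg) ((Valuation.ne_zero_iff v).2 hBx),
      hlogA v hv B hB] at h2
    have h3 := hlogu v hv i₀ hi₀
    linear_combination (ℓ : ℤ) * h2 + h3
  · have h0 : i₀ = 0 := by
      refine hdiv i₀ 0 (hlt i₀ hi₀) hl ⟨(o B : ℕ) - (o (G.coeff i₀) : ℕ), ?_⟩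
      simp only [he] at hn
      push_cast
      linear_combination hn
    subst h0
    have hA0 : G.coeff 0 ≠ 0 := mem_support_iff.1 hi₀
    have hoo : o (G.coeff 0) = o B := by
      simp only [he] at hn
      have hl' : (ℓ : ℤ) ≠ 0 := by exact_mod_cast hl.ne'
      have : (ℓ : ℤ) * (o (G.coeff 0) : ℕ) = ℓ * (o B : ℕ) := by
        push_cast at hn
        linear_combination hn
      exact_mod_cast mul_left_cancel₀ hl' this
    obtain ⟨c, hc0, hc1⟩ := hc _ _ hA0 hB hoo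
    refine ⟨c, hc0, fun v hv => ?_⟩
    have hu00 : u 0 = aeval x (G.coeff 0) := by simp [hu]
    have hvB : v (u 0) = v (aeval x B) := by
      rw [hu00, (hP v hv).2 _ hA0, (hP v hv).2 _ hB, hoo]
    have hvB0 : 0 < v (aeval x B) := zero_lt_iff.2 ((Valuation.ne_zero_iff v).2 hBx)
    have h1 := (val_sum_eq hi₀ (hkey v hv)).2 (hu0 0 hi₀)
    rw [hvB] at h1
    have h2 : v (aeval x (G.coeff 0 - C c * B)) < v (aeval x B) := by
      by_cases hz : G.coeff 0 - C c * B = 0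
      · rw [hz, map_zero, map_zero]
        exact hvB0
      · refine kb4_lt (kb4_aeval_ne h hz) hBx one_pos hs (hP v hv).1 (hc1.resolve_left hz) ?_ ?_
        · rw [hlogA v hv _ hz]
          simp
        · rw [hlogA v hv _ hB]
          simp
    have h3 : (g - algebraMap k E c) * aeval x B =
        (∑ i ∈ G.support, u i - u 0) + aeval x (G.coeff 0 - C c * B) := by
      rw [← hsum, ← hr, hu00, map_sub, map_mul, aeval_C]
      ring
    have h4 := v.map_add_lt h1 h2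
    rw [← h3, map_mul] at h4
    exact (mul_lt_iff_lt_one_left hvB0).1 h4

/-- The unique place above a root of `f`.  Sketch: `g * B(x) = ∑ i ∈ G.support, A_i(x) * y ^ i`
(`Cyc.repr`).  With `L = log (v (x - τ)) < 0` and `w = rootMultiplicity τ f` we get
`ℓ * log (v (A_i(x) * y ^ i)) = (ℓ * rootMultiplicity τ A_i + i * w) * L` (`Triv.aeval_eq_pow`); the
integers `e_i = ℓ * rootMultiplicity τ A_i + i * w`, `i < ℓ`, are distinct modulo `ℓ`.  Let `i₀`
minimise `e_i` and `n = e_i₀ - ℓ * rootMultiplicity τ B`.  If `n = 0` then `i₀ = 0` and `A_0`, `B`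
have the same multiplicity `r` at `τ`; write `A_0 = (X - C τ) ^ r * A'`, `B = (X - C τ) ^ r * B'`
and take `c = A'(τ) / B'(τ)`. -/
theorem Cyc.ram_val (h : Cyc ℓ x y f) {τ : k} (hτ : f.IsRoot τ) {g : E} (hg : g ≠ 0) :
    ∃ n : ℤ, (∀ v : Valuation E ℤᵐ⁰, Triv k v → v (x - algebraMap k E τ) < 1 →
        ℓ * log (v g) = n * log (v (x - algebraMap k E τ))) ∧
      (n = 0 → ∃ c : k, c ≠ 0 ∧ ∀ v : Valuation E ℤᵐ⁰, Triv k v →
        v (x - algebraMap k E τ) < 1 → v (g - algebraMap k E c) < 1) := by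
  refine kb4_core h (fun v => Triv k v ∧ v (x - algebraMap k E τ) < 1) (x - algebraMap k E τ)
    (rootMultiplicity τ) (-1) (by norm_num) (fun v hv => ⟨?_, fun A hA => hv.1.aeval_eq_pow hv.2 hA⟩)
    (h.ram.root τ hτ) (kb4_lead_ram τ) hg |>.imp fun n hn =>
      ⟨fun v h1 h2 => hn.1 v ⟨h1, h2⟩, fun h0 => (hn.2 h0).imp fun c hc =>
        ⟨hc.1, fun v h1 h2 => hc.2 v ⟨h1, h2⟩⟩⟩
  have := kb4_log_neg h hv.2
  linarith

/-- The unique place above infinity; same proof with degrees (`Triv.aeval_inf`), now `i₀`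
maximises `ℓ * natDegree A_i + i * natDegree f`, and `c` is a ratio of leading coefficients. -/
theorem Cyc.inf_val (h : Cyc ℓ x y f) {g : E} (hg : g ≠ 0) :
    ∃ n : ℤ, (∀ v : Valuation E ℤᵐ⁰, Triv k v → 1 < v x → ℓ * log (v g) = n * log (v x)) ∧
      (n = 0 → ∃ c : k, c ≠ 0 ∧ ∀ v : Valuation E ℤᵐ⁰, Triv k v → 1 < v x →
        v (g - algebraMap k E c) < 1) := by
  refine kb4_core h (fun v => Triv k v ∧ 1 < v x) x natDegree 1 (by norm_num)
    (fun v hv => ⟨?_, fun A hA => hv.1.aeval_inf hv.2 hA⟩) h.ram.deg kb4_lead_inf hg |>.imp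
      fun n hn => ⟨fun v h1 h2 => hn.1 v ⟨h1, h2⟩, fun h0 => (hn.2 h0).imp fun c hc =>
        ⟨hc.1, fun v h1 h2 => hc.2 v ⟨h1, h2⟩⟩⟩
  have h1 : log (1 : ℤᵐ⁰) < log (v x) :=
    (log_lt_log one_ne_zero (zero_lt_one.trans hv.2).ne').2 hv.2
  rw [log_one] at h1
  linarith

/-- From `v y ^ ℓ = v (x - τ) ^ rootMultiplicity τ f`. -/
theorem Cyc.ram_dvd (h : Cyc ℓ x y f) {τ : k} (hτ : f.IsRoot τ) {v : Valuation E ℤᵐ⁰}
    (hv : Triv k v) (hc : v (x - algebraMap k E τ) < 1) :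
    (ℓ : ℤ) ∣ log (v (x - algebraMap k E τ)) := by
  exact kb4_dvd h (h.ram.root τ hτ) (hv.aeval_eq_pow hc h.ram.ne_zero)

theorem Cyc.inf_dvd (h : Cyc ℓ x y f) {v : Valuation E ℤᵐ⁰} (hv : Triv k v) (hc : 1 < v x) :
    (ℓ : ℤ) ∣ log (v x) := by
  exact kb4_dvd h h.ram.deg (hv.aeval_inf hc h.ram.ne_zero)

/-- Apply `Cyc.ram_val` to a uniformizer and use `Cyc.ram_dvd`. -/
theorem Cyc.ram_e (h : Cyc ℓ x y f) {τ : k} (hτ : f.IsRoot τ) {v : Valuation E ℤᵐ⁰}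
    (hv : Triv k v) (hs : Srj v) (hc : v (x - algebraMap k E τ) < 1) :
    log (v (x - algebraMap k E τ)) = -ℓ := by
  obtain ⟨π, hπ⟩ := hs
  have hπ0 : π ≠ 0 := by
    rintro rfl
    rw [map_zero] at hπ
    exact exp_ne_zero hπ.symm
  obtain ⟨n, hn, -⟩ := h.ram_val hτ hπ0
  have h1 := hn v hv hc
  obtain ⟨m, hm⟩ := h.ram_dvd hτ hv hc
  have h2 := kb4_log_neg h hc
  have hl : (0 : ℤ) < ℓ := by exact_mod_cast h.ram.prime.pos
  rw [hπ, log_exp, hm] at h1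
  have h3 : n * m = -1 := by
    apply mul_left_cancel₀ hl.ne'
    linarith
  have h4 : m < 0 := by
    rw [hm] at h2
    by_contra h5
    have := mul_nonneg hl.le (not_lt.1 h5)
    linarith
  have h6 : m = 1 ∨ m = -1 := Int.eq_one_or_neg_one_of_mul_eq_neg_one (by rw [mul_comm]; exact h3)
  rcases h6 with h6 | h6
  · omega
  · rw [hm, h6]
    ring

end Pool.Agent.Lib.MP_07b2d0_nt.Ks
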