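import Mathlib
import Pool.Agent.Lib.MP_07b2d0_nt.KA1
import Pool.Agent.Lib.MP_07b2d0_nt.KB1
import Pool.Agent.Lib.MP_07b2d0_nt.KB2

set_option autoImplicit false
set_option linter.unusedSectionVars false
set_option linter.unusedVariables false

namespace Pool.Agent.Lib.MP_07b2d0_nt.Ks

open Polynomial WithZero Finset
open scoped Polynomial.Bivariate

variable {k E : Type} [Field k] [IsAlgClosed k] [CharZero k] [Field E] [Algebra k E]
  {ℓ : ℕ} {x y : E} {f : k[X]}
/-- Apply `exists_place` with `A` the range of `aevalAeval x y` and `φ` induced by evaluation at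
`(τ, η)`, well defined by `Cyc.ker` and `evalEval_kum` (for instance `Ideal.Quotient.liftₐ` and
`Ideal.quotientKerEquivRange`, or `RingHom.liftOfSurjective` / `AlgHom.liftOfSurjective`). -/
theorem Cyc.pt (h : Cyc ℓ x y f) {τ η : k} (hη : η ^ ℓ = f.eval τ) :
    ∃ v : Valuation E ℤᵐ⁰, Triv k v ∧ Srj v ∧ Cen v x y τ η := by
  have hℓ : ℓ ≠ 0 := h.ram.prime.ne_zero
  let π : k[X][Y] →ₐ[k] E := aevalAeval x y
  let φ : π.range →ₐ[k] k := AlgHom.liftOfSurjective π.rangeRestrict π.rangeRestrict_surjective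
    (aevalAeval τ η) (fun G hG => by
      have h0 : aevalAeval x y G = 0 := congrArg Subtype.val (RingHom.mem_ker.1 hG)
      obtain ⟨Q, rfl⟩ := h.ker h0
      have h1 : aevalAeval τ η (kum ℓ f) = 0 := by
        rw [coe_aevalAeval_eq_evalEval]
        exact evalEval_kum hη
      change aevalAeval τ η (kum ℓ f * Q) = 0
      rw [map_mul, h1, zero_mul])
  have hφ : ∀ G, φ (π.rangeRestrict G) = aevalAeval τ η G := fun G =>
    AlgHom.liftOfSurjective_apply _ _ _ _ G
  have hi : ∀ a : k[X], IsIntegral (Algebra.adjoin k {x}) (aeval x a) := fun a =>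
    isIntegral_algebraMap (x := (⟨aeval x a, Polynomial.aeval_mem_adjoin_singleton k x⟩ :
      Algebra.adjoin k {x}))
  have hy : IsIntegral (Algebra.adjoin k {x}) y :=
    IsIntegral.of_pow (Nat.pos_of_ne_zero hℓ) (h.eq ▸ hi f)
  obtain ⟨v, h1, h2, h3⟩ := exists_place h.trans h.big.fin π.range ⟨C X, aevalAeval_X x y⟩
    (by
      rintro _ ⟨G, rfl⟩
      change IsIntegral _ (aevalAeval x y G)
      induction G using Polynomial.induction_on with
      | C a =>
        rw [aevalAeval_C]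
        exact hi a
      | add p q hp hq =>
        rw [map_add]
        exact hp.add hq
      | monomial n a _ =>
        rw [map_mul, map_pow, aevalAeval_C, aevalAeval_Y]
        exact (hi a).mul (hy.pow _)) φ
  refine ⟨v, h1, h2, ?_, ?_⟩
  · have := h3 (π.rangeRestrict (C X))
    rw [hφ, aevalAeval_X] at this
    convert this using 3
    exact (aevalAeval_X x y).symm
  · have := h3 (π.rangeRestrict Y)
    rw [hφ, aevalAeval_Y] at this
    convert this using 3
    exact (aevalAeval_Y x y).symm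

/-- Apply `exists_place` to `t = x⁻¹`, `A = Algebra.adjoin k {t}`, `φ t = 0`
(`k⟮x⁻¹⟯ = k⟮x⟯`). -/
theorem Cyc.pt_inf (h : Cyc ℓ x y f) : ∃ v : Valuation E ℤᵐ⁰, Triv k v ∧ 1 < v x := by
  have ht : Transcendental k x⁻¹ := fun e => h.trans (IsAlgebraic.inv_iff.1 e)
  have hx : x ≠ 0 := fun e => h.trans (e ▸ isAlgebraic_zero)
  have hK : IntermediateField.adjoin k {x⁻¹} = IntermediateField.adjoin k {x} := by
    refine le_antisymm (IntermediateField.adjoin_simple_le_iff.2 (inv_mem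
      (IntermediateField.mem_adjoin_simple_self k x))) (IntermediateField.adjoin_simple_le_iff.2 ?_)
    have := inv_mem (IntermediateField.mem_adjoin_simple_self k x⁻¹)
    rwa [inv_inv] at this
  let π : k[X] →ₐ[k] E := aeval x⁻¹
  let φ : π.range →ₐ[k] k := AlgHom.liftOfSurjective π.rangeRestrict π.rangeRestrict_surjective
    (aeval 0) (fun G hG => by
      have h0 : aeval x⁻¹ G = 0 := congrArg Subtype.val (RingHom.mem_ker.1 hG)
      have h1 : G = 0 := transcendental_iff.1 ht G h0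
      rw [h1]
      exact zero_mem _)
  have hφ : ∀ G, φ (π.rangeRestrict G) = aeval 0 G := fun G =>
    AlgHom.liftOfSurjective_apply _ _ _ _ G
  obtain ⟨v, h1, -, h3⟩ := exists_place ht (hK ▸ h.big.fin) π.range ⟨X, aeval_X _⟩
    (by
      rintro _ ⟨G, rfl⟩
      exact isIntegral_algebraMap (x := (⟨aeval x⁻¹ G, Polynomial.aeval_mem_adjoin_singleton k _⟩ :
        Algebra.adjoin k {x⁻¹}))) φ
  refine ⟨v, h1, ?_⟩
  have h4 := h3 (π.rangeRestrict X)
  rw [hφ, aeval_X, map_zero, sub_zero] at h4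
  have h5 : v x⁻¹ < 1 := by
    convert h4 using 2
    exact (aeval_X x⁻¹).symm
  rw [map_inv₀] at h5
  exact (inv_lt_one₀ (zero_lt_iff.2 ((Valuation.ne_zero_iff v).2 hx))).1 h5

/-- A valuation which is trivial on `k[x]` is trivial.  Sketch: `v y = 1`; it suffices to show
`v φ ≤ 1` for all `φ`, which follows from `Cyc.repr`, `Triv.aeval_eq_one` and
`Triv.aevalAeval_le_one`; apply it to `φ` and `φ⁻¹`. -/
theorem Cyc.center (h : Cyc ℓ x y f) {v : Valuation E ℤᵐ⁰} (hv : Triv k v) (hx : v x ≤ 1)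
    {g : E} (hg : g ≠ 0) (h1 : v g ≠ 1) : ∃ τ η : k, η ^ ℓ = f.eval τ ∧ Cen v x y τ η := by
  have hℓ : ℓ ≠ 0 := h.ram.prime.ne_zero
  by_cases hc : ∃ τ : k, v (x - algebraMap k E τ) < 1
  · obtain ⟨τ, hτ⟩ := hc
    exact ⟨τ, hv.exists_cen hℓ h.eq hτ⟩
  · exfalso
    have key : ∀ φ : E, v φ ≤ 1 := by
      intro φ
      obtain ⟨G, B, hB, -, e⟩ := h.repr φ
      have e1 := hv.aevalAeval_le_one hx (hv.y_le_one hx hℓ h.eq) G
      rwa [← e, map_mul, hv.aeval_eq_one hx (fun τ hτ => hc ⟨τ, hτ⟩) hB, mul_one] at e1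
    have e2 := key g⁻¹
    rw [map_inv₀] at e2
    exact h1 (le_antisymm (key g)
      ((inv_le_one₀ (zero_lt_iff.2 ((Valuation.ne_zero_iff v).2 hg))).1 e2))

end Pool.Agent.Lib.MP_07b2d0_nt.Ks
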