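import Mathlib
import Pool.Agent.Lib.MP_07b2d0_nt.KA1

set_option autoImplicit false
set_option linter.unusedSectionVars false
set_option linter.unusedVariables false

namespace Pool.Agent.Lib.MP_07b2d0_nt.Ks

open Polynomial WithZero Finset
open scoped Polynomial.Bivariate

variable {k E : Type} [Field k] [IsAlgClosed k] [CharZero k] [Field E] [Algebra k E]
  {ℓ : ℕ} {x y : E} {f : k[X]}
variable {τ η : k} {G : k[X][Y]}

theorem kb5_eval (hη : η ^ ℓ = f.eval τ) {W : k[X][Y]} (h : kum ℓ f ∣ W) : W.evalEval τ η = 0 := by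
  obtain ⟨q, rfl⟩ := h
  rw [evalEval_mul, evalEval_kum hη, zero_mul]

theorem IsMult.ne_zero (hη : η ^ ℓ = f.eval τ) (h : IsMult ℓ f τ η G 0) : G.evalEval τ η ≠ 0 := by
  obtain ⟨G₁, G₂, h1, h2, h3⟩ := h
  have := kb5_eval hη h3
  intro h0
  simp [evalEval_mul, h0] at this
  exact h2 this

theorem IsMult.eq_zero (hη : η ^ ℓ = f.eval τ) {n : ℕ} (h : IsMult ℓ f τ η G n) (hn : n ≠ 0) :
    G.evalEval τ η = 0 := by
  obtain ⟨G₁, G₂, h1, h2, h3⟩ := h
  have := kb5_eval hη h3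
  simp only [evalEval_sub, evalEval_mul, evalEval_C, eval_pow, eval_sub, eval_X, eval_C, sub_self,
    zero_pow hn, zero_mul, sub_zero] at this
  exact (mul_eq_zero.mp this).resolve_right h1

theorem isMult_zero (h : G.evalEval τ η ≠ 0) : IsMult ℓ f τ η G 0 := by
  exact ⟨1, G, by simp, h, by simp⟩

/-- `kum` is monic: write `W = kum * q + r` with `r = W %ₘ kum`; then `kum ∣ C p * r`, whose
degree is smaller, so `C p * r = 0`. -/
theorem kum_dvd_of_C_mul (hℓ : ℓ ≠ 0) {p : k[X]} (hp : p ≠ 0) {W : k[X][Y]}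
    (h : kum ℓ f ∣ C p * W) : kum ℓ f ∣ W := by
  obtain ⟨hm, hdeg⟩ := kum_monic hℓ f
  have h1 : kum ℓ f ∣ C p * (W %ₘ kum ℓ f) := by
    have h2 : C p * (W %ₘ kum ℓ f) = C p * W - kum ℓ f * (C p * (W /ₘ kum ℓ f)) := by
      have := modByMonic_add_div W (kum ℓ f)
      linear_combination C p * this
    rw [h2]
    exact dvd_sub h (dvd_mul_right _ _)
  have h3 : C p * (W %ₘ kum ℓ f) = 0 := by
    refine eq_zero_of_dvd_of_degree_lt h1 ?_
    rw [degree_C_mul hp]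
    exact degree_modByMonic_lt W hm
  have h4 : W %ₘ kum ℓ f = 0 := (mul_eq_zero.mp h3).resolve_left (C_ne_zero.mpr hp)
  exact (modByMonic_eq_zero_iff_dvd hm).mp h4

/-- Dividing by `X - τ₀` does not change the multiplicity at points above `τ ≠ τ₀`. -/
theorem IsMult.div_ne {H G' : k[X][Y]} {τ₀ : k} {n : ℕ} (h : IsMult ℓ f τ η G n)
    (hH : H.evalEval τ η ≠ 0) (hd : kum ℓ f ∣ G * H - C (X - C τ₀) * G') (hτ : τ ≠ τ₀) :
    IsMult ℓ f τ η G' n := by
  obtain ⟨G₁, G₂, h1, h2, h3⟩ := h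
  refine ⟨C (X - C τ₀) * G₁, G₂ * H, ?_, ?_, ?_⟩
  · simp only [evalEval_mul, evalEval_C, eval_sub, eval_X, eval_C]
    exact mul_ne_zero (sub_ne_zero.mpr hτ) h1
  · rw [evalEval_mul]
    exact mul_ne_zero h2 hH
  · have : G' * (C (X - C τ₀) * G₁) - C ((X - C τ) ^ n) * (G₂ * H) =
        H * (G * G₁ - C ((X - C τ) ^ n) * G₂) - G₁ * (G * H - C (X - C τ₀) * G') := by ring
    rw [this]
    exact dvd_sub (h3.mul_left _) (hd.mul_left _)

/-- Dividing by `X - τ` lowers the multiplicity by one (use `kum_dvd_of_C_mul`). -/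
theorem IsMult.div_eq (hℓ : ℓ ≠ 0) {H G' : k[X][Y]} {n : ℕ} (h : IsMult ℓ f τ η G (n + 1))
    (hH : H.evalEval τ η ≠ 0) (hd : kum ℓ f ∣ G * H - C (X - C τ) * G') :
    IsMult ℓ f τ η G' n := by
  obtain ⟨G₁, G₂, h1, h2, h3⟩ := h
  refine ⟨G₁, G₂ * H, h1, ?_, ?_⟩
  · rw [evalEval_mul]
    exact mul_ne_zero h2 hH
  · refine kum_dvd_of_C_mul hℓ (X_sub_C_ne_zero τ) ?_
    have : C (X - C τ) * (G' * G₁ - C ((X - C τ) ^ n) * (G₂ * H)) =
        H * (G * G₁ - C ((X - C τ) ^ (n + 1)) * G₂) - G₁ * (G * H - C (X - C τ) * G') := by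
      rw [pow_succ, C_mul]
      ring
    rw [this]
    exact dvd_sub (h3.mul_left _) (hd.mul_left _)

theorem IsMult.succ {H G' : k[X][Y]} {n : ℕ} (h : IsMult ℓ f τ η G' n)
    (hH : H.evalEval τ η ≠ 0) (hd : kum ℓ f ∣ G * H - C (X - C τ) * G') :
    IsMult ℓ f τ η G (n + 1) := by
  obtain ⟨G₁, G₂, h1, h2, h3⟩ := h
  refine ⟨H * G₁, G₂, ?_, h2, ?_⟩
  · rw [evalEval_mul]
    exact mul_ne_zero hH h1
  · have : G * (H * G₁) - C ((X - C τ) ^ (n + 1)) * G₂ =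
        G₁ * (G * H - C (X - C τ) * G') + C (X - C τ) * (G' * G₁ - C ((X - C τ) ^ n) * G₂) := by
      rw [pow_succ, C_mul]
      ring
    rw [this]
    exact dvd_add (hd.mul_left _) (h3.mul_left _)

/-- If `W(τ, Y)` is divisible by `Y ^ ℓ - f(τ)` then `W ≡ (X - τ) * G'` modulo `kum`: lift the
quotient to `q : k[X][Y]` (`map C`); all coefficients of `W - kum * q` vanish at `τ`
(`C_dvd_iff_dvd_coeff`, `dvd_iff_isRoot`). -/
theorem exists_div_of_dvd {W : k[X][Y]}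
    (h : (X ^ ℓ - C (f.eval τ) : k[X]) ∣ W.map (evalRingHom τ)) :
    ∃ G' : k[X][Y], kum ℓ f ∣ W - C (X - C τ) * G' := by
  obtain ⟨q, hq⟩ := h
  have h1 : (W - kum ℓ f * q.map C).map (evalRingHom τ) = 0 := by
    have h2 : (evalRingHom τ).comp (C : k →+* k[X]) = RingHom.id k := by
      ext c
      simp
    rw [Polynomial.map_sub, Polynomial.map_mul, Polynomial.map_map, h2, Polynomial.map_id, hq]
    simp [kum]
  have h3 : C (X - C τ) ∣ W - kum ℓ f * q.map C := by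
    rw [C_dvd_iff_dvd_coeff]
    intro i
    rw [dvd_iff_isRoot]
    have := congrArg (fun P => P.coeff i) h1
    simpa only [coeff_map, coe_evalRingHom, coeff_zero, IsRoot.def] using this
  obtain ⟨G', hG'⟩ := h3
  exact ⟨G', q.map C, by linear_combination hG'⟩

/-- With `H = ∑ i ∈ range ℓ, (C (C u) * Y) ^ i * C (C η * g) ^ (ℓ - 1 - i)`, `u = g.eval τ`, one has
`H(τ, Y) = u ^ (ℓ - 1) * (Y ^ ℓ - η ^ ℓ) / (Y - η)` (`Commute.geom_sum₂`, `mul_neg_geom_sum₂`),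
and `G(τ, Y)` is divisible by `Y - η`; conclude with `exists_div_of_dvd`. -/
theorem exists_div_geom (hη : η ^ ℓ = f.eval τ) (h0 : G.evalEval τ η = 0) (g : k[X]) :
    ∃ G' : k[X][Y], kum ℓ f ∣
      G * (∑ i ∈ range ℓ, (C (C (g.eval τ)) * Y) ^ i * C (C η * g) ^ (ℓ - 1 - i)) -
        C (X - C τ) * G' := by
  apply exists_div_of_dvd
  have h1 : X - C η ∣ G.map (evalRingHom τ) := by
    rw [dvd_iff_isRoot, IsRoot, map_evalRingHom_eval]
    exact h0
  obtain ⟨G0, hG0⟩ := h1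
  have h2 : (∑ i ∈ range ℓ, (C (C (g.eval τ)) * Y) ^ i * C (C η * g) ^ (ℓ - 1 - i) : k[X][Y]).map
      (evalRingHom τ) = C (g.eval τ) ^ (ℓ - 1) * ∑ i ∈ range ℓ, X ^ i * C η ^ (ℓ - 1 - i) := by
    rw [Polynomial.map_sum, Finset.mul_sum]
    refine Finset.sum_congr rfl fun i hi => ?_
    have hi' : ℓ - 1 = i + (ℓ - 1 - i) := by
      have := Finset.mem_range.mp hi
      omega
    simp only [Polynomial.map_mul, Polynomial.map_pow, map_C, map_X, coe_evalRingHom, eval_C,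
      C_mul]
    generalize ℓ - 1 - i = j at hi' ⊢
    rw [hi']
    ring
  rw [Polynomial.map_mul, hG0, h2, ← hη, C_pow]
  refine ⟨G0 * C (g.eval τ) ^ (ℓ - 1), ?_⟩
  rw [← geom_sum₂_mul (X : k[X]) (C η) ℓ]
  ring

end Pool.Agent.Lib.MP_07b2d0_nt.Ks
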