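import Mathlib
import Pool.Agent.Lib.MP_07b2d0_nt.KB3
import Pool.Agent.Lib.MP_07b2d0_nt.KB5

set_option autoImplicit false
set_option linter.unusedSectionVars false
set_option linter.unusedVariables false

namespace Pool.Agent.Lib.MP_07b2d0_nt.Ks

open Polynomial WithZero Finset
open scoped Polynomial.Bivariate

variable {k E : Type} [Field k] [IsAlgClosed k] [CharZero k] [Field E] [Algebra k E]
  {ℓ : ℕ} {x y : E} {f : k[X]}
variable {τ η : k} {G : k[X][Y]}

theorem kb6_eq (he : y ^ ℓ = aeval x f) {A B D : k[X][Y]} {p : k[X]}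
    (h : kum ℓ f ∣ A * B - C p * D) :
    aevalAeval x y A * aevalAeval x y B = aeval x p * aevalAeval x y D := by
  obtain ⟨W, hW⟩ := h
  have h1 := congrArg (aevalAeval x y) hW
  rw [map_mul (aevalAeval x y) (kum ℓ f), aevalAeval_kum he, zero_mul, map_sub, map_mul, map_mul,
    aevalAeval_C, sub_eq_zero] at h1
  exact h1

theorem kb6_aeval_ne (ht : Transcendental k x) {A : k[X]} (hA : A ≠ 0) : aeval x A ≠ 0 :=
  fun h0 => ht ⟨A, hA, h0⟩

theorem kb6_sub_ne (ht : Transcendental k x) (τ : k) : x - algebraMap k E τ ≠ 0 := by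
  have h := kb6_aeval_ne ht (X_sub_C_ne_zero τ)
  simpa using h

theorem kb6_H (hℓ : ℓ ≠ 0) (hτ : f.eval τ ≠ 0) (hη : η ^ ℓ = f.eval τ) :
    (∑ i ∈ range ℓ, (C (C ((1 : k[X]).eval τ)) * Y) ^ i * C (C η * 1) ^ (ℓ - 1 - i) :
      k[X][Y]).evalEval τ η ≠ 0 := by
  have hη0 : η ≠ 0 := by
    rintro rfl
    rw [zero_pow hℓ] at hη
    exact hτ hη.symm
  have h1 : (∑ i ∈ range ℓ, (C (C ((1 : k[X]).eval τ)) * Y) ^ i * C (C η * 1) ^ (ℓ - 1 - i) :
      k[X][Y]).evalEval τ η = ∑ i ∈ range ℓ, η ^ (ℓ - 1) := by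
    rw [evalEval_finsetSum]
    refine Finset.sum_congr rfl fun i hi => ?_
    have hi' : i + (ℓ - 1 - i) = ℓ - 1 := by
      have := Finset.mem_range.1 hi
      omega
    simp only [evalEval_mul, evalEval_pow, evalEval_C, evalEval_X, eval_one, mul_one, eval_C,
      one_mul]
    rw [← pow_add, hi']
  rw [h1, Finset.sum_const, card_range, nsmul_eq_mul]
  exact mul_ne_zero (Nat.cast_ne_zero.2 hℓ) (pow_ne_zero _ hη0)

theorem IsMult.val {n : ℕ} (h : IsMult ℓ f τ η G n) (he : y ^ ℓ = aeval x f)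
    {v : Valuation E ℤᵐ⁰} (hv : Triv k v) (hc : Cen v x y τ η) :
    v (aevalAeval x y G) = v (x - algebraMap k E τ) ^ n := by
  obtain ⟨G₁, G₂, h1, h2, hd⟩ := h
  have h3 := congrArg v (kb6_eq he hd)
  rw [map_mul, map_mul, hv.aevalAeval_eq_one hc h1, hv.aevalAeval_eq_one hc h2, mul_one,
    mul_one] at h3
  rw [h3, map_pow, map_pow]
  simp

/-- Sketch: fix `v` from `Cyc.pt` and induct on the natural number `-log (v (G(x, y)))`.  If
`G(τ, η) ≠ 0` use `isMult_zero`.  Otherwise take `G'` from `exists_div_geom` with `g = 1`; the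
factor `H` has `H(τ, η) = ℓ * η ^ (ℓ - 1) ≠ 0`, so `v G(x, y) = v (x - τ) * v G'(x, y)`, and use
`IsMult.succ`. -/
theorem Cyc.exists_isMult (h : Cyc ℓ x y f) (hτ : f.eval τ ≠ 0) (hη : η ^ ℓ = f.eval τ)
    (hG : aevalAeval x y G ≠ 0) : ∃ n, IsMult ℓ f τ η G n := by
  obtain ⟨v, hv, -, hc⟩ := h.pt hη
  have hℓ : ℓ ≠ 0 := h.ram.prime.ne_zero
  have hx : v x ≤ 1 := hv.le_one_of_cen hc.1
  have hy : v y ≤ 1 := hv.le_one_of_cen hc.2
  have hs0 : v (x - algebraMap k E τ) ≠ 0 := (Valuation.ne_zero_iff v).2 (kb6_sub_ne h.trans τ)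
  have hlog : log (v (x - algebraMap k E τ)) < 0 := by
    have := (log_lt_log hs0 one_ne_zero).2 hc.1
    simpa using this
  have key : ∀ (m : ℕ) (G : k[X][Y]), aevalAeval x y G ≠ 0 →
      -log (v (aevalAeval x y G)) < m → ∃ n, IsMult ℓ f τ η G n := by
    intro m
    induction m with
    | zero =>
      intro G hG hm
      exfalso
      have h0 : v (aevalAeval x y G) ≠ 0 := (Valuation.ne_zero_iff v).2 hG
      have := (log_le_log h0 one_ne_zero).2 (hv.aevalAeval_le_one hx hy G)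
      simp only [log_one, Nat.cast_zero] at this hm
      omega
    | succ m ih =>
      intro G hG hm
      by_cases h0 : G.evalEval τ η = 0
      · obtain ⟨G', hG'⟩ := exists_div_geom hη h0 (1 : k[X])
        have hH := kb6_H hℓ hτ hη
        have h3 := kb6_eq h.eq hG'
        have h4 := congrArg v h3
        rw [map_mul v, map_mul v, hv.aevalAeval_eq_one hc hH, mul_one] at h4
        have h5 : aeval x (X - C τ) = x - algebraMap k E τ := by simp
        rw [h5] at h4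
        have hv0 : v (aevalAeval x y G) ≠ 0 := (Valuation.ne_zero_iff v).2 hG
        have hv1 : v (aevalAeval x y G') ≠ 0 := by
          intro h6
          rw [h6, mul_zero] at h4
          exact hv0 h4
        have h7 : log (v (aevalAeval x y G)) =
            log (v (x - algebraMap k E τ)) + log (v (aevalAeval x y G')) := by
          rw [h4, log_mul hs0 hv1]
        obtain ⟨n, hn⟩ := ih G' ((Valuation.ne_zero_iff v).1 hv1) (by
          push_cast at hm
          omega)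
        exact ⟨n + 1, hn.succ hH hG'⟩
      · exact ⟨0, isMult_zero h0⟩
  obtain ⟨m, hm⟩ := exists_nat_gt (-log (v (aevalAeval x y G)))
  exact key m G hG hm

/-- `Cyc.repr`, `Cyc.exists_isMult`, `IsMult.val`, `Triv.aeval_eq_pow`. -/
theorem Cyc.unr_val (h : Cyc ℓ x y f) (hτ : f.eval τ ≠ 0) (hη : η ^ ℓ = f.eval τ) {g : E}
    (hg : g ≠ 0) : ∃ n : ℤ, ∀ v : Valuation E ℤᵐ⁰, Triv k v → Cen v x y τ η →
      log (v g) = n * log (v (x - algebraMap k E τ)) := by
  obtain ⟨G, B, hB, -, hGB⟩ := h.repr g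
  have hB0 : aeval x B ≠ 0 := kb6_aeval_ne h.trans hB
  have hG0 : aevalAeval x y G ≠ 0 := by
    rw [← hGB]
    exact mul_ne_zero hg hB0
  obtain ⟨n, hn⟩ := h.exists_isMult hτ hη hG0
  refine ⟨(n : ℤ) - B.rootMultiplicity τ, fun v hv hc => ?_⟩
  have h1 := congrArg v hGB
  rw [map_mul, hn.val h.eq hv hc, hv.aeval_eq_pow hc.1 hB] at h1
  have hs0 : v (x - algebraMap k E τ) ≠ 0 := (Valuation.ne_zero_iff v).2 (kb6_sub_ne h.trans τ)
  have hg0 : v g ≠ 0 := (Valuation.ne_zero_iff v).2 hg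
  have h2 := congrArg log h1
  rw [log_mul hg0 (pow_ne_zero _ hs0), log_pow, log_pow] at h2
  simp only [nsmul_eq_mul] at h2
  linear_combination h2

/-- Apply `Cyc.unr_val` to a uniformizer. -/
theorem Cyc.unr_e (h : Cyc ℓ x y f) (hτ : f.eval τ ≠ 0) {v : Valuation E ℤᵐ⁰} (hv : Triv k v)
    (hs : Srj v) (hc : Cen v x y τ η) : log (v (x - algebraMap k E τ)) = -1 := by
  obtain ⟨π, hπ⟩ := hs
  have hη : η ^ ℓ = f.eval τ := hv.eq_of_cen h.eq hc
  have hπ0 : π ≠ 0 := by
    rintro rfl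
    rw [map_zero] at hπ
    exact exp_ne_zero hπ.symm
  obtain ⟨n, hn⟩ := h.unr_val hτ hη hπ0
  have h1 := hn v hv hc
  rw [hπ, log_exp] at h1
  have hs0 : v (x - algebraMap k E τ) ≠ 0 := (Valuation.ne_zero_iff v).2 (kb6_sub_ne h.trans τ)
  have hlog : log (v (x - algebraMap k E τ)) < 0 := by
    have := (log_lt_log hs0 one_ne_zero).2 hc.1
    simpa using this
  have h2 : log (v (x - algebraMap k E τ)) ∣ 1 := ⟨-n, by linear_combination -h1⟩
  rcases Int.isUnit_iff.1 (isUnit_of_dvd_one h2) with h3 | h3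
  · omega
  · exact h3

end Pool.Agent.Lib.MP_07b2d0_nt.Ks
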