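import Mathlib
import Pool.Agent.Lib.MP_07b2d0_nt.KA3
import Pool.Agent.Lib.MP_07b2d0_nt.KB4
import Pool.Agent.Lib.MP_07b2d0_nt.KB6

set_option autoImplicit false
set_option linter.unusedSectionVars false
set_option linter.unusedVariables false

namespace Pool.Agent.Lib.MP_07b2d0_nt.Ks

open Polynomial WithZero Finset
open scoped Polynomial.Bivariate

variable {k E : Type} [Field k] [IsAlgClosed k] [CharZero k] [Field E] [Algebra k E]
  {ℓ : ℕ} {x y : E} {f : k[X]}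
/-- Every valuation centred at `(τ, η)` is a power of a normalised one with the same centre:
use `unr_val`, `unr_e` if `f(τ) ≠ 0` (then `e = -log (v (x - τ))`), and `ram_val`, `ram_e`,
`ram_dvd` otherwise (then `ℓ * e = -log (v (x - τ))`). -/
theorem Cyc.val_mul (h : Cyc ℓ x y f) {τ η : k} {v v₀ : Valuation E ℤᵐ⁰} (hv : Triv k v)
    (hv₀ : Triv k v₀) (hs : Srj v₀) (hc : Cen v x y τ η) (hc₀ : Cen v₀ x y τ η) :
    ∃ e : ℤ, ∀ g : E, log (v g) = e * log (v₀ g) := by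
  have hη := hv.eq_of_cen h.eq hc
  by_cases hτ : f.eval τ = 0
  · obtain ⟨q, hq⟩ := h.ram_dvd hτ hv hc.1
    have h0 := h.ram_e hτ hv₀ hs hc₀.1
    have hℓ : (ℓ : ℤ) ≠ 0 := Int.natCast_ne_zero.2 h.ram.prime.ne_zero
    refine ⟨-q, fun g => ?_⟩
    by_cases hg : g = 0
    · simp [hg]
    obtain ⟨n, hn, -⟩ := h.ram_val hτ hg
    have h1 := hn v hv hc.1
    have h2 := hn v₀ hv₀ hc₀.1
    rw [hq] at h1
    rw [h0] at h2
    apply mul_left_cancel₀ hℓ
    linear_combination h1 + q * h2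
  · have h0 := h.unr_e hτ hv₀ hs hc₀
    refine ⟨-log (v (x - algebraMap k E τ)), fun g => ?_⟩
    by_cases hg : g = 0
    · simp [hg]
    obtain ⟨n, hn⟩ := h.unr_val hτ hη hg
    rw [hn v hv hc, hn v₀ hv₀ hc₀, h0]
    ring

/-- A normalised valuation is determined by its centre. -/
theorem Cyc.place_unique (h : Cyc ℓ x y f) {τ η : k} {v v₀ : Valuation E ℤᵐ⁰} (hv : Triv k v)
    (hv₀ : Triv k v₀) (hs : Srj v) (hs₀ : Srj v₀) (hc : Cen v x y τ η) (hc₀ : Cen v₀ x y τ η) :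
    v = v₀ := by
  obtain ⟨e, he⟩ := h.val_mul hv hv₀ hs₀ hc hc₀
  have hx : x - algebraMap k E τ ≠ 0 := by
    intro h0
    exact h.trans (sub_eq_zero.1 h0 ▸ isAlgebraic_algebraMap τ)
  have hneg : ∀ w : Valuation E ℤᵐ⁰, w (x - algebraMap k E τ) < 1 →
      log (w (x - algebraMap k E τ)) < 0 := by
    intro w hw
    have := (log_lt_log ((Valuation.ne_zero_iff w).2 hx) one_ne_zero).2 hw
    rwa [log_one] at this
  have h1 := hneg v hc.1
  have h2 := hneg v₀ hc₀.1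
  rw [he] at h1
  have hpos : 0 < e := by
    by_contra hh
    nlinarith
  obtain ⟨π, hπ⟩ := hs
  have h3 := he π
  rw [hπ, log_exp] at h3
  have h4 : e = 1 := Int.eq_one_of_dvd_one hpos.le ⟨-log (v₀ π), by linear_combination -h3⟩
  ext g
  by_cases hg : g = 0
  · simp [hg]
  have h5 := he g
  rw [h4, one_mul] at h5
  rw [← exp_log ((Valuation.ne_zero_iff v).2 hg), h5, exp_log ((Valuation.ne_zero_iff v₀).2 hg)]

/-- `Cyc.center`, `Cyc.pt`, `Cyc.val_mul`. -/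
theorem Cyc.finDiv_of_srj (h : Cyc ℓ x y f) {m : ℕ} {φ : E} (hφ : φ ≠ 0)
    (H : ∀ v : Valuation E ℤᵐ⁰, Triv k v → v x ≤ 1 → Srj v → (m : ℤ) ∣ log (v φ)) :
    FinDiv k x m φ := by
  intro v hv hx
  by_cases h1 : v φ = 1
  · simp [h1]
  obtain ⟨τ, η, hη, hc⟩ := h.center hv hx hφ h1
  obtain ⟨v₀, hv₀, hs, hc₀⟩ := h.pt hη
  obtain ⟨e, he⟩ := h.val_mul hv hv₀ hs hc hc₀
  rw [he]
  exact Dvd.dvd.mul_left (H v₀ hv₀ (hv₀.le_one_of_cen hc₀.1) hs) e

/-- Finitely many zeros and poles.  Sketch: `g * B(x) = G(x, y)`, take `ζ`, `s`, and the norm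
`M ≠ 0` of `G` (`IsNrm.aeval_eq`, `nm_ne_zero`).  A valuation in the set has a centre `(τ, η)`;
if `B(τ) ≠ 0` and `G(τ, η) ≠ 0` then `v g = 1`.  So `τ` is a root of `B * M` (`IsNrm.eval_eq`), and
`η` is a root of `X ^ ℓ - C (f.eval τ)`; the centre determines `v` (`place_unique`). -/
theorem Cyc.finite_support (h : Cyc ℓ x y f) {g : E} (hg : g ≠ 0) :
    {v : Valuation E ℤᵐ⁰ | Triv k v ∧ v x ≤ 1 ∧ Srj v ∧ v g ≠ 1}.Finite := by
  classical
  have hℓ : ℓ ≠ 0 := h.ram.prime.ne_zero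
  have : NeZero ℓ := ⟨hℓ⟩
  obtain ⟨ζ, hζ⟩ := HasEnoughRootsOfUnity.exists_primitiveRoot k ℓ
  obtain ⟨s, hs⟩ := h.aut hζ
  obtain ⟨G, B, hB, -, hGB⟩ := h.repr g
  obtain ⟨M, hM⟩ := exists_nrm hζ hℓ f G
  have hBx : aeval x B ≠ 0 := fun h0 => h.trans ⟨B, hB, h0⟩
  have hG : aevalAeval x y G ≠ 0 := hGB ▸ mul_ne_zero hg hBx
  have hM0 : M ≠ 0 := by
    intro h0
    have := hM.aeval_eq hs h.eq
    rw [h0, map_zero] at this
    exact nm_ne_zero s ℓ hG this.symm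
  have hfin : {p : k × k | (B * M).IsRoot p.1 ∧ p.2 ^ ℓ = f.eval p.1}.Finite := by
    have h1 : {τ : k | (B * M).IsRoot τ}.Finite := finite_setOfPred_isRoot (mul_ne_zero hB hM0)
    have h2 : ∀ τ : k, {η : k | η ^ ℓ = f.eval τ}.Finite := by
      intro τ
      refine (finite_setOfPred_isRoot
        (X_pow_sub_C_ne_zero (Nat.pos_of_ne_zero hℓ) (f.eval τ))).subset fun η hη => ?_
      simpa [sub_eq_zero] using hη
    refine (h1.biUnion fun τ _ => (h2 τ).image fun η => (τ, η)).subset ?_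
    rintro ⟨τ, η⟩ ⟨ha, hb⟩
    simp only [Set.mem_iUnion, Set.mem_image]
    exact ⟨τ, ha, η, hb, rfl⟩
  refine (hfin.biUnion (t := fun p => {v : Valuation E ℤᵐ⁰ | Triv k v ∧ Srj v ∧
    Cen v x y p.1 p.2}) fun p _ => ?_).subset ?_
  · refine Set.Subsingleton.finite ?_
    rintro v ⟨a1, a2, a3⟩ v₀ ⟨b1, b2, b3⟩
    exact h.place_unique a1 b1 a2 b2 a3 b3
  · rintro v ⟨hv, hx, hsv, h1⟩
    obtain ⟨τ, η, hη, hc⟩ := h.center hv hx hg h1
    simp only [Set.mem_iUnion]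
    refine ⟨(τ, η), ⟨?_, hη⟩, hv, hsv, hc⟩
    by_contra hr
    rw [IsRoot.def, eval_mul, mul_eq_zero, not_or] at hr
    have hG0 : G.evalEval τ η ≠ 0 := by
      intro h0
      apply hr.2
      rw [hM.eval_eq hη]
      exact Finset.prod_eq_zero (Finset.mem_range.2 (Nat.pos_of_ne_zero hℓ)) (by simpa using h0)
    have e1 := hv.aevalAeval_eq_one hc hG0
    have e2 := hv.aeval_eq_pow hc.1 hB
    rw [rootMultiplicity_eq_zero hr.1, pow_zero] at e2
    rw [← hGB, map_mul, e2, mul_one] at e1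
    exact h1 e1

end Pool.Agent.Lib.MP_07b2d0_nt.Ks
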