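import Mathlib

set_option autoImplicit false
set_option linter.unusedSectionVars false
set_option linter.unusedVariables false

namespace Pool.Agent.Lib.MP_07b2d0_nt.Ks

open Finset

theorem kb8_poly {ℓ : ℕ} (hℓ : ℓ.Prime) : ∃ g : Polynomial ℤ,
    (1 - Polynomial.X) ^ ℓ = 1 - Polynomial.X ^ ℓ + Polynomial.C (ℓ : ℤ) * g := by
  have : Fact ℓ.Prime := ⟨hℓ⟩
  have h : Polynomial.C (ℓ : ℤ) ∣ (1 - Polynomial.X) ^ ℓ - (1 - Polynomial.X ^ ℓ) := by
    rw [Polynomial.C_dvd_iff_dvd_coeff]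
    intro i
    rw [← ZMod.intCast_zmod_eq_zero_iff_dvd]
    have h1 : (((1 - Polynomial.X) ^ ℓ - (1 - Polynomial.X ^ ℓ) : Polynomial ℤ).map
        (Int.castRingHom (ZMod ℓ))) = 0 := by
      rw [Polynomial.map_sub, Polynomial.map_sub, Polynomial.map_pow, Polynomial.map_pow,
        Polynomial.map_sub, Polynomial.map_one, Polynomial.map_X, sub_pow_char, one_pow, sub_self]
    have h2 := congrArg (fun q => Polynomial.coeff q i) h1
    simpa only [Polynomial.coeff_map, Polynomial.coeff_zero, eq_intCast] using h2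
  obtain ⟨g, hg⟩ := h
  exact ⟨g, by rw [← hg]; ring⟩

/-- The finitely supported functions. -/
def kb8_A (P : Type) : Submodule ℤ (P → ℤ) where
  carrier := {D | (Function.support D).Finite}
  zero_mem' := by simp
  add_mem' := fun {a b} ha hb => (Set.Finite.union ha hb).subset (Function.support_add a b)
  smul_mem' := fun c a ha => Set.Finite.subset ha (Function.support_const_smul_subset c a)

theorem kb8_single {P : Type} [DecidableEq P] (p : P) : (Pi.single p 1 : P → ℤ) ∈ kb8_A P :=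
  (Set.finite_singleton p).subset Pi.support_single_subset

theorem kb8_comp {P : Type} (σ : Equiv.Perm P) {D : P → ℤ} (h : D ∈ kb8_A P) :
    D ∘ σ ∈ kb8_A P :=
  Set.Finite.preimage (f := σ) σ.injective.injOn h

theorem kb8_ind {P : Type} [DecidableEq P] (W : Submodule ℤ (P → ℤ))
    (h : ∀ p, (Pi.single p 1 : P → ℤ) ∈ W) : kb8_A P ≤ W := by
  intro D hD
  have e : D = ∑ p ∈ (Set.Finite.toFinset hD), D p • (Pi.single p 1 : P → ℤ) := by
    funext q
    rw [Finset.sum_apply, Finset.sum_eq_single q]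
    · simp
    · intro b _ hb
      simp [Pi.single_eq_of_ne hb.symm]
    · intro hq
      have h0 : D q = 0 := by
        by_contra h0
        exact hq ((Set.Finite.mem_toFinset hD).2 h0)
      rw [h0, zero_smul, Pi.zero_apply]
  rw [e]
  exact W.sum_mem fun p _ => W.smul_mem _ (h p)

/-- A finitely supported function with vanishing norm is of the form `E - E ∘ σ`. -/
theorem kb8_h90 {P : Type} [DecidableEq P] (σ : Equiv.Perm P) {ℓ : ℕ} (hℓ : 0 < ℓ)
    (hσ : σ ^ ℓ = 1) {D : P → ℤ} (hD : D ∈ kb8_A P)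
    (hN : ∀ p, ∑ i ∈ range ℓ, D ((σ ^ i) p) = 0) :
    D ∈ (kb8_A P).map (1 - LinearMap.funLeft ℤ ℤ σ) := by
  set C := (kb8_A P).map (1 - LinearMap.funLeft ℤ ℤ σ) with hC
  have h1 : ∀ p, (Pi.single (σ p) 1 : P → ℤ) - Pi.single p 1 ∈ C := by
    intro p
    refine ⟨Pi.single (σ p) 1, kb8_single _, ?_⟩
    funext q
    simp [LinearMap.funLeft_apply, Pi.single_apply]
  have h2 : ∀ (i : ℕ) p, (Pi.single ((σ ^ i) p) 1 : P → ℤ) - Pi.single p 1 ∈ C := by
    intro i p
    induction i with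
    | zero => simp
    | succ i ih =>
      have := C.add_mem (h1 ((σ ^ i) p)) ih
      rwa [sub_add_sub_cancel, ← Equiv.Perm.mul_apply, ← pow_succ'] at this
  have hfo : IsOfFinOrder σ := isOfFinOrder_iff_pow_eq_one.2 ⟨ℓ, hℓ, hσ⟩
  let r : P → P := fun p => (Quotient.mk (Equiv.Perm.SameCycle.setoid σ) p).out
  have hr1 : ∀ p, ∃ i : ℕ, (σ ^ i) (r p) = p := by
    intro p
    obtain ⟨i, hi⟩ : σ.SameCycle (r p) p :=
      Quotient.mk_out (s := Equiv.Perm.SameCycle.setoid σ) p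
    obtain ⟨j, hj⟩ := hfo.mem_powers_iff_mem_zpowers.2 (Subgroup.zpow_mem_zpowers σ i)
    refine ⟨j, ?_⟩
    have hj' : σ ^ j = σ ^ i := hj
    rw [hj', hi]
  have hr2 : ∀ (i : ℕ) p, r ((σ ^ i) p) = r p := by
    intro i p
    have : Quotient.mk (Equiv.Perm.SameCycle.setoid σ) ((σ ^ i) p) =
        Quotient.mk (Equiv.Perm.SameCycle.setoid σ) p :=
      (Quotient.sound (s := Equiv.Perm.SameCycle.setoid σ) ⟨i, by simp⟩).symm
    exact congrArg Quotient.out this
  have hr3 : ∀ p, r (r p) = r p := by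
    intro p
    obtain ⟨i, hi⟩ := hr1 p
    rw [← hr2 i (r p), hi]
  let B : Submodule ℤ (P → ℤ) :=
    { carrier := {E | ∀ p, r p ≠ p → E p = 0}
      zero_mem' := fun _ _ => rfl
      add_mem' := fun {a b} ha hb p hp => by rw [Pi.add_apply, ha p hp, hb p hp, add_zero]
      smul_mem' := fun c a ha p hp => by rw [Pi.smul_apply, ha p hp, smul_zero] }
  have h3 : kb8_A P ≤ C ⊔ B := by
    refine kb8_ind _ fun p => ?_
    obtain ⟨i, hi⟩ := hr1 p
    have h4 := h2 i (r p)
    rw [hi] at h4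
    refine Submodule.mem_sup.2 ⟨_, h4, Pi.single (r p) 1, fun q hq => ?_, sub_add_cancel _ _⟩
    refine Pi.single_eq_of_ne (fun e => hq ?_) _
    rw [e, hr3]
  obtain ⟨c, hc, b, hb, e⟩ := Submodule.mem_sup.1 (h3 hD)
  have h5 : ∀ p, ∑ i ∈ range ℓ, c ((σ ^ i) p) = 0 := by
    intro p
    obtain ⟨E, -, rfl⟩ := hc
    have h6 := Finset.sum_range_sub' (fun i => E ((σ ^ i) p)) ℓ
    rw [hσ, pow_zero, sub_self] at h6
    rw [← h6]
    refine Finset.sum_congr rfl fun i _ => ?_
    rw [pow_succ', Equiv.Perm.mul_apply]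
    rfl
  have h6 : b = 0 := by
    funext q
    by_cases hq : r q = q
    · have h7 := hN q
      rw [← e] at h7
      simp only [Pi.add_apply, Finset.sum_add_distrib] at h7
      rw [h5, zero_add] at h7
      have h8 : ∀ i ∈ range ℓ, b ((σ ^ i) q) = (if (σ ^ i) q = q then 1 else 0) * b q := by
        intro i _
        split_ifs with hi
        · rw [hi, one_mul]
        · rw [zero_mul]
          exact hb _ (by rw [hr2, hq]; exact Ne.symm hi)
      rw [Finset.sum_congr rfl h8, ← Finset.sum_mul] at h7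
      refine (mul_eq_zero.1 h7).resolve_left (ne_of_gt ?_)
      refine Finset.sum_pos' (fun i _ => by split_ifs <;> norm_num) ⟨0, mem_range.2 hℓ, by simp⟩
    · exact hb q hq
  rw [← e, h6, add_zero]
  exact hc

/-- Pure group theory: divisibility of the class group.  `Pr` is the group of principal divisors.
Let `A` be the group of finitely supported `D : P → ℤ`, `T D = D ∘ σ`, `N = ∑ i ∈ range ℓ, T ^ i`.
(1) If `D ∈ A` and `N D = 0` then `D ∈ (1 - T) A`: modulo `(1 - T) A` the indicator functions of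
points in the same orbit agree, and all orbit sums of `D` vanish (alternatively: induct on the
support; or use `D = (1 - T) D'` with an explicit `D'` on each orbit).
(2) By `h2`, every indicator function lies in `Pr + (1 - T) A`, so `A = Pr + (1 - T) A`, and by
iteration (`hT`) `A = Pr + (1 - T) ^ (ℓ - 1) A`.
(3) In `ℤ[X]`, `(1 - X) ^ (ℓ - 1) - ∑ i ∈ range ℓ, X ^ i` is divisible by `ℓ` (over `ZMod ℓ`
multiply by `1 - X` and use `sub_pow_char`), and `N A ≤ Pr` by `h1`, so `A = Pr + ℓ A`; iterate.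
It is convenient to work in the module `P →₀ ℤ` with the linear endomorphism `T` and
`Polynomial.aeval T`, or in the quotient `A / Pr`. -/
theorem perm_div {P : Type} [DecidableEq P] (σ : Equiv.Perm P) {ℓ : ℕ} (hℓ : ℓ.Prime)
    (hσ : σ ^ ℓ = 1) (Pr : AddSubgroup (P → ℤ)) (hfin : ∀ D ∈ Pr, (Function.support D).Finite)
    (hT : ∀ D ∈ Pr, D ∘ σ ∈ Pr)
    (h1 : ∀ p₀, (fun p => ∑ i ∈ range ℓ, if (σ ^ i) p = p₀ then (1 : ℤ) else 0) ∈ Pr)
    (h2 : ∀ p₀, ∃ D ∈ Pr, ∀ p, ∑ i ∈ range ℓ, D ((σ ^ i) p) =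
      ∑ i ∈ range ℓ, if (σ ^ i) p = p₀ then (1 : ℤ) else 0) (n : ℕ) (p₀ : P) :
    ∃ D ∈ Pr, ∀ p, (ℓ : ℤ) ^ n ∣ (if p = p₀ then (1 : ℤ) else 0) + D p := by
  set T : Module.End ℤ (P → ℤ) := LinearMap.funLeft ℤ ℤ σ with hTdef
  set W : Submodule ℤ (P → ℤ) := AddSubgroup.toIntSubmodule Pr with hW
  have hWT : W ≤ W.comap T := fun D hD => hT D hD
  have hAT : kb8_A P ≤ (kb8_A P).comap T := fun D hD => kb8_comp σ hD
  let S : Polynomial ℤ → Prop := fun f =>
    ∀ D ∈ kb8_A P, ∃ E ∈ kb8_A P, D - Polynomial.aeval T f E ∈ W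
  have hmul : ∀ f g, S f → S g → S (f * g) := by
    intro f g hf hg D hD
    obtain ⟨E, hE, h3⟩ := hf D hD
    obtain ⟨F, hF, h4⟩ := hg E hE
    refine ⟨F, hF, ?_⟩
    have h5 := W.add_mem h3 (Polynomial.aeval_apply_smul_mem_of_le_comap h4 f T hWT)
    rwa [map_sub, sub_add_sub_cancel, ← Module.End.mul_apply, ← map_mul] at h5
  have hpow : ∀ f, S f → ∀ m : ℕ, S (f ^ m) := by
    intro f hf m
    induction m with
    | zero => exact fun D hD => ⟨D, hD, by simp⟩
    | succ m ih => rw [pow_succ]; exact hmul _ _ ih hf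
  have hS1 : S (1 - Polynomial.X) := by
    intro D hD
    have h3 : kb8_A P ≤ W ⊔ (kb8_A P).map (1 - T) := by
      refine kb8_ind _ fun p => ?_
      obtain ⟨E, hE, h4⟩ := h2 p
      refine Submodule.mem_sup.2 ⟨E, hE, Pi.single p 1 - E, ?_, add_sub_cancel _ _⟩
      refine kb8_h90 σ hℓ.pos hσ (Submodule.sub_mem _ (kb8_single p) (hfin E hE)) fun q => ?_
      simp only [Pi.sub_apply, Finset.sum_sub_distrib, Pi.single_apply]
      rw [h4, sub_self]
    obtain ⟨w, hw, _, ⟨E, hE, rfl⟩, e⟩ := Submodule.mem_sup.1 (h3 hD)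
    refine ⟨E, hE, ?_⟩
    rw [map_sub, map_one, Polynomial.aeval_X, ← e, add_sub_cancel_right]
    exact hw
  have hTp : ∀ (i : ℕ) (D : P → ℤ), (T ^ i) D = D ∘ (σ ^ i : Equiv.Perm P) := by
    intro i
    induction i with
    | zero => intro D; rfl
    | succ i ih =>
      intro D
      rw [pow_succ, Module.End.mul_apply, ih, pow_succ']
      rfl
  have hTl : T ^ ℓ = 1 := by
    refine LinearMap.ext fun D => ?_
    rw [hTp, hσ]
    rfl
  have hSl : S (Polynomial.C (ℓ : ℤ)) := by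
    intro D hD
    obtain ⟨g, hg⟩ := kb8_poly hℓ
    obtain ⟨E, hE, h3⟩ := hpow _ hS1 ℓ D hD
    rw [hg, map_add, map_sub, map_one, map_pow, Polynomial.aeval_X, hTl, sub_self, zero_add,
      map_mul, Module.End.mul_apply] at h3
    exact ⟨_, Polynomial.aeval_apply_smul_mem_of_le_comap hE g T hAT, h3⟩
  obtain ⟨E, -, h3⟩ := hpow _ hSl n _ (kb8_single p₀)
  refine ⟨_, Pr.neg_mem h3, fun p => ⟨E p, ?_⟩⟩
  rw [← Polynomial.C_pow, Polynomial.aeval_C, Module.algebraMap_end_apply]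
  simp [Pi.single_apply]

end Pool.Agent.Lib.MP_07b2d0_nt.Ks
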