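import Mathlib
import Pool.Agent.Lib.MP_07b2d0_nt.KA5
import Pool.Agent.Lib.MP_07b2d0_nt.KB7
import Pool.Agent.Lib.MP_07b2d0_nt.KB8

set_option autoImplicit false
set_option linter.unusedSectionVars false
set_option linter.unusedVariables false

namespace Pool.Agent.Lib.MP_07b2d0_nt.Ks

open Polynomial WithZero Finset
open scoped Polynomial.Bivariate

variable {k E : Type} [Field k] [IsAlgClosed k] [CharZero k] [Field E] [Algebra k E]
  {ℓ : ℕ} {x y : E} {f : k[X]}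
/-- The finite places. -/
def Pl (k : Type) {E : Type} [Field k] [Field E] [Algebra k E] (x : E) : Type :=
  {v : Valuation E ℤᵐ⁰ // Triv k v ∧ v x ≤ 1 ∧ Srj v}

variable {ζ : k} {s : E ≃ₐ[k] E}

/-- Pull-back of a place along an automorphism that fixes `x`. -/
def kb9_act (t : E ≃ₐ[k] E) (ht : t x = x) (p : Pl k x) : Pl k x :=
  ⟨p.1.comap t.toRingEquiv.toRingHom, fun c => by simpa using p.2.1 c, by simpa [ht] using p.2.2.1,
    p.2.2.2.elim fun π hπ => ⟨t.symm π, by simpa using hπ⟩⟩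

theorem kb9_log {v : Valuation E ℤᵐ⁰} (hv : Triv k v) (hx : v x ≤ 1) {τ : k}
    (h : ¬ v (x - algebraMap k E τ) < 1) : log (v (x - algebraMap k E τ)) = 0 := by
  rw [le_antisymm (v.map_sub_le hx (hv τ)) (not_lt.1 h), log_one]

theorem kb9_prod (v : Valuation E ℤᵐ⁰) (S : Finset ℕ) {u : ℕ → E} (hu : ∀ i, u i ≠ 0) :
    log (v (∏ i ∈ S, u i)) = ∑ i ∈ S, log (v (u i)) := by
  induction S using Finset.induction_on with
  | empty => simp
  | insert a S ha ih =>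
    rw [prod_insert ha, sum_insert ha, map_mul, log_mul ((map_ne_zero v).2 (hu a))
      ((map_ne_zero v).2 (prod_ne_zero_iff.2 fun i _ => hu i)), ih]

theorem kb9_ne (h : Cyc ℓ x y f) (τ : k) : x - algebraMap k E τ ≠ 0 := fun h0 =>
  h.trans (sub_eq_zero.1 h0 ▸ isAlgebraic_algebraMap τ)

/-- The action of `s` on places by `Valuation.comap`. -/
theorem Aut.exists_perm (hs : Aut ℓ ζ x y s) (h : Cyc ℓ x y f) :
    ∃ σ : Equiv.Perm (Pl k x), σ ^ ℓ = 1 ∧ ∀ (i : ℕ) (p : Pl k x) (g : E),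
      ((σ ^ i) p).1 g = p.1 ((s ^ i) g) := by
  have hx' : s.symm x = x := by rw [AlgEquiv.symm_apply_eq, hs.sx]
  let σ : Equiv.Perm (Pl k x) := ⟨kb9_act s hs.sx, kb9_act s.symm hx',
    fun p => Subtype.ext (Valuation.ext fun g => by simp [kb9_act]),
    fun p => Subtype.ext (Valuation.ext fun g => by simp [kb9_act])⟩
  have h1 : ∀ (i : ℕ) (p : Pl k x) (g : E), ((σ ^ i) p).1 g = p.1 ((s ^ i) g) := fun i => by
    induction i with
    | zero => intro p g; rfl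
    | succ i ih =>
      intro p g
      rw [pow_succ, pow_succ', Equiv.Perm.mul_apply, ih]
      rfl
  refine ⟨σ, Equiv.ext fun p => Subtype.ext (Valuation.ext fun g => ?_), h1⟩
  rw [h1, hs.pow_eq_one h]
  rfl

open Classical in
/-- The divisor of `x - τ`.  If `p` is not above `τ` both sides vanish.  Let `p` have centre
`(τ, η')`; then `σ ^ i p` has centre `(τ, ζ ^ i * η')`.  If `f(τ) = 0` then `η = η' = 0`, all
`σ ^ i p = p₀` (`place_unique`) and the left side is `ℓ` (`ram_e`).  Otherwise exactly one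
`i < ℓ` has `ζ ^ i * η' = η` (`IsPrimitiveRoot.eq_pow_of_pow_eq_one`, `pow_inj`) and the left side
is `1` (`unr_e`). -/
theorem Aut.div_sub (hs : Aut ℓ ζ x y s) (h : Cyc ℓ x y f) {σ : Equiv.Perm (Pl k x)}
    (hσ : ∀ (i : ℕ) (p : Pl k x) (g : E), ((σ ^ i) p).1 g = p.1 ((s ^ i) g)) {τ η : k}
    {p₀ : Pl k x} (h₀ : Cen p₀.1 x y τ η) (p : Pl k x) :
    -log (p.1 (x - algebraMap k E τ)) =
      ∑ i ∈ range ℓ, if (σ ^ i) p = p₀ then (1 : ℤ) else 0 := by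
  have hℓ := h.ram.prime.ne_zero
  have hx : ∀ i, ((σ ^ i) p).1 (x - algebraMap k E τ) = p.1 (x - algebraMap k E τ) := fun i => by
    rw [hσ, map_sub, hs.pow_x, AlgEquiv.commutes]
  by_cases hp : p.1 (x - algebraMap k E τ) < 1
  swap
  · rw [kb9_log p.2.1 p.2.2.1 hp, neg_zero, eq_comm]
    refine sum_eq_zero fun i _ => if_neg fun h0 => hp ?_
    rw [← hx i, h0]
    exact h₀.1
  obtain ⟨η', hη', hc⟩ := p.2.1.exists_cen hℓ h.eq hp
  have hη := p₀.2.1.eq_of_cen h.eq h₀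
  have h1 : ∀ i, Cen ((σ ^ i) p).1 x y τ (ζ ^ i * η') := fun i => ⟨(hx i).trans_lt hp, by
    rw [hσ, map_sub, hs.pow_y, AlgEquiv.commutes, map_mul (algebraMap k E), ← mul_sub, map_mul,
      p.2.1.eq_one (pow_ne_zero _ (hs.prim.ne_zero hℓ)), one_mul]
    exact hc.2⟩
  have h2 : ∀ i, (σ ^ i) p = p₀ ↔ ζ ^ i * η' = η := fun i =>
    ⟨fun h0 => p₀.2.1.cen_unique (h0 ▸ (h1 i).2) h₀.2, fun h0 => Subtype.ext
      (h.place_unique ((σ ^ i) p).2.1 p₀.2.1 ((σ ^ i) p).2.2.2 p₀.2.2.2 (h0 ▸ h1 i) h₀)⟩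
  simp only [h2]
  by_cases hτ : f.eval τ = 0
  · rw [hτ] at hη hη'
    rw [h.ram_e hτ p.2.1 p.2.2.2 hp, pow_eq_zero_iff hℓ |>.1 hη, pow_eq_zero_iff hℓ |>.1 hη']
    simp
  · have h3 : η' ≠ 0 := fun h0 => hτ (by rw [← hη', h0, zero_pow hℓ])
    have : NeZero ℓ := ⟨hℓ⟩
    obtain ⟨j, hj, hj'⟩ := hs.prim.eq_pow_of_pow_eq_one (ξ := η / η')
      (by rw [div_pow, hη, hη', div_self hτ])
    rw [h.unr_e hτ p.2.1 p.2.2.2 hc, neg_neg, sum_eq_single j (fun i hi hij => if_neg fun h0 =>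
      hij (hs.prim.pow_inj (mem_range.1 hi) hj (by rw [hj', ← h0, mul_div_cancel_right₀ _ h3])))
      (fun h0 => (h0 (mem_range.2 hj)).elim), if_pos (by rw [hj', div_mul_cancel₀ _ h3])]

/-- Apply `perm_div` to `Pr = {fun p => -log (p.1 g) | g ≠ 0}` (`finite_support`, `div_sub`,
`Aut.norm_surj`, `Cyc.center`) and the place `p₀` with centre `(a, 0)`.  If
`ℓ ^ n ∣ [p = p₀] - log (p θ)` for all `p`, then, as `-log (p (x - a)) = ℓ * [p = p₀]`,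
`ℓ ^ (n + 1) ∣ log (p ((x - a) * θ ^ ℓ))`; finish with `finDiv_of_srj`. -/
theorem Cyc.tower_fin (h : Cyc ℓ x y f) {a : k} (ha : f.IsRoot a) (n : ℕ) :
    ∃ θ : E, θ ≠ 0 ∧ FinDiv k x (ℓ ^ n) ((x - algebraMap k E a) * θ ^ ℓ) := by
  classical
  have hℓ := h.ram.prime.ne_zero
  have : NeZero ℓ := ⟨hℓ⟩
  obtain ⟨ζ, hζ⟩ := HasEnoughRootsOfUnity.exists_primitiveRoot k ℓ
  obtain ⟨s, hs⟩ := h.aut hζ
  obtain ⟨σ, hσ1, hσ⟩ := hs.exists_perm h
  let Pr : AddSubgroup (Pl k x → ℤ) :=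
    { carrier := {D | ∃ g : E, g ≠ 0 ∧ ∀ p, D p = -log (p.1 g)}
      zero_mem' := ⟨1, one_ne_zero, fun p => by simp⟩
      add_mem' := by
        rintro D D' ⟨g, hg, hD⟩ ⟨g', hg', hD'⟩
        refine ⟨g * g', mul_ne_zero hg hg', fun p => ?_⟩
        rw [Pi.add_apply, hD, hD', map_mul,
          log_mul ((map_ne_zero p.1).2 hg) ((map_ne_zero p.1).2 hg'), neg_add]
      neg_mem' := by
        rintro D ⟨g, hg, hD⟩
        refine ⟨g⁻¹, inv_ne_zero hg, fun p => ?_⟩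
        rw [Pi.neg_apply, hD, map_inv₀, log_inv] }
  have hc : ∀ p : Pl k x, ∃ τ η : k, Cen p.1 x y τ η := fun p => by
    obtain ⟨π, hπ⟩ := p.2.2.2
    obtain ⟨τ, η, -, hc⟩ := h.center p.2.1 p.2.2.1 (g := π)
      (fun h0 => by rw [h0, map_zero] at hπ; exact exp_ne_zero hπ.symm)
      (fun h0 => by rw [h0, ← exp_zero, exp_inj] at hπ; omega)
    exact ⟨τ, η, hc⟩
  obtain ⟨v₀, hv₀, hs₀, hc₀⟩ := h.pt (τ := a) (η := 0) (by rw [zero_pow hℓ, ha])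
  obtain ⟨p₀, rfl⟩ : ∃ p₀ : Pl k x, p₀.1 = v₀ := ⟨⟨v₀, hv₀, hv₀.le_one_of_cen hc₀.1, hs₀⟩, rfl⟩
  obtain ⟨D, ⟨θ, hθ, hD⟩, H⟩ := perm_div σ h.ram.prime hσ1 Pr (by
      rintro D ⟨g, hg, hD⟩
      refine ((h.finite_support hg).preimage (f := fun p : Pl k x => p.1)
        Subtype.val_injective.injOn).subset fun p hp => ⟨p.2.1, p.2.2.1, p.2.2.2, fun h0 => hp ?_⟩
      rw [hD, h0, log_one, neg_zero]) (by
      rintro D ⟨g, hg, hD⟩
      refine ⟨s g, (map_ne_zero s).2 hg, fun p => ?_⟩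
      have h1 := hσ 1 p g
      rw [pow_one, pow_one] at h1
      rw [Function.comp_apply, hD, h1]) (fun p₀ => by
      obtain ⟨τ, η, h₀⟩ := hc p₀
      exact ⟨_, kb9_ne h τ, fun p => by convert (hs.div_sub h hσ h₀ p).symm⟩) (fun p₀ => by
      obtain ⟨τ, η, h₀⟩ := hc p₀
      obtain ⟨ψ, hψ⟩ := hs.norm_surj h τ
      have h1 : ψ ≠ 0 := fun h0 => kb9_ne h τ (by
        rw [← hψ, h0, nm]
        exact prod_eq_zero (mem_range.2 h.ram.prime.pos) (map_zero _))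
      refine ⟨fun p => -log (p.1 ψ), ⟨ψ, h1, fun p => rfl⟩, fun p => ?_⟩
      have h2 := hs.div_sub h hσ h₀ p
      rw [← hψ, nm, kb9_prod _ _ fun i => (map_ne_zero (s ^ i)).2 h1, ← sum_neg_distrib] at h2
      simp only [hσ]
      convert h2) n p₀
  refine ⟨θ, hθ, h.finDiv_of_srj (mul_ne_zero (kb9_ne h a) (pow_ne_zero _ hθ)) fun v hv hx hv' => ?_⟩
  obtain ⟨p, rfl⟩ : ∃ p : Pl k x, p.1 = v := ⟨⟨v, hv, hx, hv'⟩, rfl⟩
  have h1 := H p
  rw [hD] at h1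
  rw [map_mul, log_mul ((map_ne_zero p.1).2 (kb9_ne h a))
    ((map_ne_zero p.1).2 (pow_ne_zero _ hθ)), map_pow, log_pow, nsmul_eq_mul, Nat.cast_pow]
  by_cases hp : p.1 (x - algebraMap k E a) < 1
  · obtain ⟨η, hη, h2⟩ := hv.exists_cen hℓ h.eq hp
    rw [ha, pow_eq_zero_iff hℓ] at hη
    subst hη
    rw [if_pos (show p = p₀ from Subtype.ext (h.place_unique hv hv₀ hv' hs₀ h2 hc₀))] at h1
    rw [h.ram_e ha hv hv' hp]
    exact (h1.mul_left (-ℓ)).trans (dvd_of_eq (by ring))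
  · rw [if_neg fun h0 : p = p₀ => hp (h0 ▸ hc₀.1)] at h1
    rw [kb9_log hv hx hp]
    exact (h1.mul_left (-ℓ)).trans (dvd_of_eq (by ring))

end Pool.Agent.Lib.MP_07b2d0_nt.Ks
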