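import Mathlib
import Pool.Agent.Lib.MP_07b2d0_nt.KB9

set_option autoImplicit false
set_option linter.unusedSectionVars false
set_option linter.unusedVariables false

namespace Pool.Agent.Lib.MP_07b2d0_nt.Ks

open Polynomial WithZero Finset
open scoped Polynomial.Bivariate

variable {k E : Type} [Field k] [IsAlgClosed k] [CharZero k] [Field E] [Algebra k E]
  {ℓ : ℕ} {x y : E} {f : k[X]}
variable {ζ : k} {s : E ≃ₐ[k] E}

theorem kb10_aeval_ne (h : Cyc ℓ x y f) {A : k[X]} (hA : A ≠ 0) : aeval x A ≠ 0 := fun h0 =>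
  h.trans ⟨A, hA, h0⟩

theorem kb10_mult_pow {B : k[X]} (hB : B ≠ 0) (τ : k) (r : ℕ) :
    rootMultiplicity τ (B ^ r) = r * rootMultiplicity τ B := by
  induction r with
  | zero => simp
  | succ r ih =>
    rw [pow_succ, rootMultiplicity_mul (mul_ne_zero (pow_ne_zero _ hB) hB), ih]
    ring

theorem kb10_pow {P : k[X]} (hP : P ≠ 0) {m : ℕ} (hm : m ≠ 0)
    (h : ∀ τ, m ∣ rootMultiplicity τ P) : ∃ Q : k[X], P = Q ^ m := by
  classical
  obtain ⟨c, hc⟩ := IsAlgClosed.exists_pow_nat_eq P.leadingCoeff (Nat.pos_of_ne_zero hm)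
  choose q hq using h
  refine ⟨C c * ∏ τ ∈ P.roots.toFinset, (X - C τ) ^ q τ, ?_⟩
  conv_lhs => rw [(IsAlgClosed.splits P).eq_prod_roots, prod_multiset_root_eq_finset_root]
  rw [mul_pow, ← C_pow, hc, ← Finset.prod_pow]
  congr 1
  refine Finset.prod_congr rfl fun τ _ => ?_
  rw [← pow_mul, mul_comm, ← hq]

theorem kb10_triv {v : Valuation E ℤᵐ⁰} (hv : Triv k v) (σ : E ≃ₐ[k] E) :
    Triv k (v.comap (σ : E →+* E)) := by
  intro c
  show v (σ (algebraMap k E c)) ≤ 1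
  rw [σ.commutes]
  exact hv c

theorem kb10_log_nm (v : Valuation E ℤᵐ⁰) (s : E ≃ₐ[k] E) (n : ℕ) {z : E} (hz : z ≠ 0) :
    log (v (nm s n z)) = ∑ i ∈ range n, log (v ((s ^ i) z)) := by
  unfold nm
  induction n with
  | zero => simp
  | succ n ih =>
    have h1 : ∀ i : ℕ, (s ^ i) z ≠ 0 := fun i => (_root_.map_ne_zero _).2 hz
    rw [Finset.prod_range_succ, Finset.sum_range_succ, map_mul,
      log_mul ((Valuation.ne_zero_iff v).2 (Finset.prod_ne_zero_iff.2 fun i _ => h1 i))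
        ((Valuation.ne_zero_iff v).2 (h1 n)), ih]

theorem DivBy.finDiv {m : ℕ} {φ : E} (h : DivBy k m φ) : FinDiv k x m φ := by
  exact fun v hv _ => h v hv

theorem DivBy.of_dvd {m m' : ℕ} {φ : E} (h : DivBy k m φ) (hm : m' ∣ m) : DivBy k m' φ := by
  exact fun v hv => (Int.natCast_dvd_natCast.2 hm).trans (h v hv)

theorem DivBy.mul_pow {m : ℕ} {φ η : E} (h : DivBy k m φ) (hφ : φ ≠ 0) (hη : η ≠ 0) :
    DivBy k m (φ * η ^ m) := by
  intro v hv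
  rw [map_mul, map_pow, log_mul ((Valuation.ne_zero_iff v).2 hφ)
    (pow_ne_zero _ ((Valuation.ne_zero_iff v).2 hη)), log_pow, nsmul_eq_mul]
  exact dvd_add (h v hv) (dvd_mul_right _ _)

/-- Over an algebraically closed field: factor `A` and `B`; for instance
`A * B ^ (m - 1) = Q₁ ^ m` (all root multiplicities are divisible by `m`) and `Q₂ = B`. -/
theorem exists_pow_of_rootMultiplicity {A B : k[X]} (hA : A ≠ 0) (hB : B ≠ 0) {m : ℕ} (hm : m ≠ 0)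
    (h : ∀ τ, (m : ℤ) ∣ (A.rootMultiplicity τ : ℤ) - B.rootMultiplicity τ) :
    ∃ Q₁ Q₂ : k[X], Q₂ ≠ 0 ∧ A * Q₂ ^ m = B * Q₁ ^ m := by
  obtain ⟨r, rfl⟩ := Nat.exists_eq_succ_of_ne_zero hm
  have hP : A * B ^ r ≠ 0 := mul_ne_zero hA (pow_ne_zero _ hB)
  obtain ⟨Q, hQ⟩ := kb10_pow hP hm fun τ => by
    rw [rootMultiplicity_mul hP, kb10_mult_pow hB]
    have h1 := h τ
    rw [← Int.natCast_dvd_natCast]
    have h2 : ((rootMultiplicity τ A + r * rootMultiplicity τ B : ℕ) : ℤ) =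
        ((rootMultiplicity τ A : ℤ) - rootMultiplicity τ B) +
          ((r.succ : ℕ) : ℤ) * rootMultiplicity τ B := by
      push_cast
      ring
    rw [h2]
    exact dvd_add h1 (dvd_mul_right _ _)
  refine ⟨Q, B, hB, ?_⟩
  rw [← hQ, pow_succ]
  ring

/-- Sketch: `nm φ * B(x) = A(x)` (`Aut.fixed`, `Aut.s_nm`).  For `τ` take a normalised `v` above
`τ` (`Cyc.pt`); `log (v (nm φ)) = ∑ log ((v.comap (s ^ i)) φ)` is divisible by `ℓ ^ (n + 1)` and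
equals `(mult_τ A - mult_τ B) * log (v (x - τ))` with `log (v (x - τ)) ∈ {-1, -ℓ}`. -/
theorem Aut.norm_pow (hs : Aut ℓ ζ x y s) (h : Cyc ℓ x y f) {n : ℕ} {φ : E} (hφ : φ ≠ 0)
    (H : FinDiv k x (ℓ ^ (n + 1)) φ) : ∃ Q₁ Q₂ : k[X], Q₁ ≠ 0 ∧ Q₂ ≠ 0 ∧
      nm s ℓ φ * aeval x Q₂ ^ ℓ ^ n = aeval x Q₁ ^ ℓ ^ n := by
  obtain ⟨A, B, hB, hAB⟩ := hs.fixed h (hs.s_nm h φ)
  have hl : 0 < ℓ := h.ram.prime.pos
  have hl' : (ℓ : ℤ) ≠ 0 := by exact_mod_cast hl.ne'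
  have hN : nm s ℓ φ ≠ 0 := nm_ne_zero s ℓ hφ
  have hBx : aeval x B ≠ 0 := kb10_aeval_ne h hB
  have hA : A ≠ 0 := by
    rintro rfl
    rw [map_zero] at hAB
    exact mul_ne_zero hN hBx hAB
  have hdiv : ∀ τ, ((ℓ ^ n : ℕ) : ℤ) ∣ (A.rootMultiplicity τ : ℤ) - B.rootMultiplicity τ := by
    intro τ
    obtain ⟨η, hη⟩ := IsAlgClosed.exists_pow_nat_eq (f.eval τ) hl
    obtain ⟨v, hv, hsr, hc⟩ := h.pt hη
    have hx : v x ≤ 1 := hv.le_one_of_cen hc.1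
    have h1 : ((ℓ ^ (n + 1) : ℕ) : ℤ) ∣ log (v (nm s ℓ φ)) := by
      rw [kb10_log_nm v s ℓ hφ]
      refine Finset.dvd_sum fun i _ => H (v.comap ((s ^ i : E ≃ₐ[k] E) : E →+* E))
        (kb10_triv hv _) ?_
      show v ((s ^ i) x) ≤ 1
      rwa [hs.pow_x]
    have h2 := congrArg (fun z => log (v z)) hAB
    simp only [map_mul] at h2
    rw [log_mul ((Valuation.ne_zero_iff v).2 hN) ((Valuation.ne_zero_iff v).2 hBx),
      hv.aeval_eq_pow hc.1 hB, hv.aeval_eq_pow hc.1 hA, log_pow, log_pow, nsmul_eq_mul,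
      nsmul_eq_mul] at h2
    obtain ⟨q, hq⟩ := h1
    by_cases hτ : f.eval τ = 0
    · rw [h.ram_e hτ hv hsr hc.1, hq] at h2
      refine ⟨-q, mul_left_cancel₀ hl' ?_⟩
      push_cast at h2 ⊢
      linear_combination h2
    · rw [h.unr_e hτ hv hsr hc, hq] at h2
      refine ⟨-(ℓ * q), ?_⟩
      push_cast at h2 ⊢
      linear_combination h2
  obtain ⟨Q₁, Q₂, hQ₂, hQ⟩ := exists_pow_of_rootMultiplicity hA hB (pow_ne_zero n hl.ne') hdiv
  refine ⟨Q₁, Q₂, ?_, hQ₂, ?_⟩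
  · rintro rfl
    rw [zero_pow (pow_ne_zero n hl.ne'), mul_zero] at hQ
    exact mul_ne_zero hA (pow_ne_zero _ hQ₂) hQ
  · have h3 := congrArg (aeval x) hQ
    rw [map_mul, map_mul, map_pow, map_pow, ← hAB] at h3
    apply mul_left_cancel₀ hBx
    linear_combination h3

/-- For `1 < v x`, `v.comap (s ^ i)` has the same value at `x`, so by `inf_val` all conjugates of
`z` have the same valuation. -/
theorem Aut.log_nm_inf (hs : Aut ℓ ζ x y s) (h : Cyc ℓ x y f) {z : E} (hz : z ≠ 0)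
    {v : Valuation E ℤᵐ⁰} (hv : Triv k v) (hx : 1 < v x) :
    log (v (nm s ℓ z)) = ℓ * log (v z) := by
  have hl' : (ℓ : ℤ) ≠ 0 := by exact_mod_cast h.ram.prime.ne_zero
  obtain ⟨n, hn, -⟩ := h.inf_val hz
  rw [kb10_log_nm v s ℓ hz]
  have key : ∀ i : ℕ, log (v ((s ^ i) z)) = log (v z) := by
    intro i
    have h1 := hn (v.comap ((s ^ i : E ≃ₐ[k] E) : E →+* E)) (kb10_triv hv _) (by
      show 1 < v ((s ^ i) x)
      rwa [hs.pow_x])
    have h2 : (ℓ : ℤ) * log (v ((s ^ i) z)) = n * log (v ((s ^ i) x)) := h1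
    rw [hs.pow_x, ← hn v hv hx] at h2
    exact mul_left_cancel₀ hl' h2
  simp only [key, Finset.sum_const, Finset.card_range, nsmul_eq_mul]

/-- For `1 < v x`: `ℓ * log (v φ) = ℓ ^ n * (deg Q₁ - deg Q₂) * log (v x)` and `ℓ ∣ log (v x)`. -/
theorem Cyc.divBy_of_finDiv (h : Cyc ℓ x y f) {n : ℕ} {φ : E} (hφ : φ ≠ 0)
    (H : FinDiv k x (ℓ ^ (n + 1)) φ) : DivBy k (ℓ ^ n) φ := by
  have hl : 0 < ℓ := h.ram.prime.pos
  have hl' : (ℓ : ℤ) ≠ 0 := by exact_mod_cast hl.ne'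
  have : NeZero ℓ := ⟨hl.ne'⟩
  obtain ⟨ζ, hζ⟩ := HasEnoughRootsOfUnity.exists_primitiveRoot k ℓ
  obtain ⟨s, hs⟩ := h.aut hζ
  obtain ⟨Q₁, Q₂, hQ₁, hQ₂, hQ⟩ := hs.norm_pow h hφ H
  intro v hv'
  have hv : Triv k v := hv'
  rcases le_or_gt (v x) 1 with hx | hx
  · exact (Int.natCast_dvd_natCast.2 (pow_dvd_pow ℓ n.le_succ)).trans (H v hv hx)
  · have h2 := congrArg (fun z => log (v z)) hQ
    simp only [map_mul, map_pow] at h2
    rw [log_mul ((Valuation.ne_zero_iff v).2 (nm_ne_zero s ℓ hφ))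
      (pow_ne_zero _ ((Valuation.ne_zero_iff v).2 (kb10_aeval_ne h hQ₂))),
      hs.log_nm_inf h hφ hv hx, hv.aeval_inf hx hQ₁, hv.aeval_inf hx hQ₂] at h2
    simp only [log_pow, nsmul_eq_mul] at h2
    obtain ⟨m, hm⟩ := h.inf_dvd hv hx
    rw [hm] at h2
    refine ⟨((Q₁.natDegree : ℤ) - Q₂.natDegree) * m, mul_left_cancel₀ hl' ?_⟩
    linear_combination h2

theorem Cyc.tower (h : Cyc ℓ x y f) {a : k} (ha : f.IsRoot a) (n : ℕ) :
    ∃ θ : E, θ ≠ 0 ∧ DivBy k (ℓ ^ n) ((x - algebraMap k E a) * θ ^ ℓ) := by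
  obtain ⟨θ, hθ, H⟩ := h.tower_fin ha (n + 1)
  refine ⟨θ, hθ, h.divBy_of_finDiv (mul_ne_zero ?_ (pow_ne_zero _ hθ)) H⟩
  simpa using kb10_aeval_ne h (X_sub_C_ne_zero a)

end Pool.Agent.Lib.MP_07b2d0_nt.Ks
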