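import Mathlib
import Pool.Agent.Lib.MP_07b2d0_nt.KB10

set_option autoImplicit false
set_option linter.unusedSectionVars false
set_option linter.unusedVariables false

namespace Pool.Agent.Lib.MP_07b2d0_nt.Ks

open Polynomial WithZero Finset
open scoped Polynomial.Bivariate

variable {k E : Type} [Field k] [IsAlgClosed k] [CharZero k] [Field E] [Algebra k E]
  {ℓ : ℕ} {x y : E} {f : k[X]}
/-- A nonzero function without finite poles has no zero at infinity.  Sketch: `nm z * B(x) = A(x)`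
with `A, B ≠ 0`; at a valuation above `τ` (`Cyc.pt`) `nm z` is integral, so
`mult_τ B ≤ mult_τ A` for all `τ`, so `natDegree B ≤ natDegree A` (count roots, or `B ∣ A`); use
`Aut.log_nm_inf` and `Triv.aeval_inf`. -/
theorem Cyc.one_le_inf (h : Cyc ℓ x y f) {z : E} (hz : z ≠ 0)
    (H : ∀ v : Valuation E ℤᵐ⁰, Triv k v → v x ≤ 1 → v z ≤ 1) {v : Valuation E ℤᵐ⁰}
    (hv : Triv k v) (hx : 1 < v x) : 1 ≤ v z := by
  have hℓ : ℓ ≠ 0 := h.ram.prime.ne_zero
  have : NeZero ℓ := ⟨hℓ⟩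
  have : NeZero (ℓ : k) := ⟨Nat.cast_ne_zero.2 hℓ⟩
  obtain ⟨ζ, hζ⟩ := HasEnoughRootsOfUnity.exists_primitiveRoot k ℓ
  obtain ⟨s, hs⟩ := h.aut hζ
  obtain ⟨A, B, hB, hAB⟩ := hs.fixed h (hs.s_nm h z)
  have hN : nm s ℓ z ≠ 0 := nm_ne_zero s ℓ hz
  have hinj : ∀ P : k[X], P ≠ 0 → aeval x P ≠ 0 := fun P hP h0 => h.trans ⟨P, hP, h0⟩
  have hA : A ≠ 0 := by
    rintro rfl
    rw [map_zero] at hAB
    exact mul_ne_zero hN (hinj B hB) hAB
  have hmult : ∀ τ : k, B.rootMultiplicity τ ≤ A.rootMultiplicity τ := by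
    intro τ
    obtain ⟨η, hη⟩ := IsAlgClosed.exists_pow_nat_eq (f.eval τ) (Nat.pos_of_ne_zero hℓ)
    obtain ⟨u, hu, -, hc⟩ := h.pt hη
    have hux : u x ≤ 1 := hu.le_one_of_cen hc.1
    have h1 : u (nm s ℓ z) ≤ 1 := by
      rw [nm, map_prod]
      refine Finset.prod_le_one' fun i _ => ?_
      have ht : Triv k (u.comap (s ^ i).toRingEquiv.toRingHom) :=
        hu.comap (RingEquiv.refl k) (s ^ i).toRingEquiv fun c => (s ^ i).commutes c
      refine H _ ht ?_
      change u ((s ^ i) x) ≤ 1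
      rwa [hs.pow_x]
    have h2 : u (aeval x A) ≤ u (aeval x B) := by
      rw [← hAB, map_mul]
      exact mul_le_of_le_one_left' h1
    rw [hu.aeval_eq_pow hc.1 hA, hu.aeval_eq_pow hc.1 hB] at h2
    have h0 : u (x - algebraMap k E τ) ≠ 0 := by
      rw [Valuation.ne_zero_iff]
      have := hinj (X - C τ) (X_sub_C_ne_zero τ)
      simpa using this
    exact (pow_le_pow_iff_right_of_lt_one₀ (zero_lt_iff.2 h0) hc.1).1 h2
  have hdeg : B.natDegree ≤ A.natDegree := by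
    classical
    rw [← IsAlgClosed.card_roots_eq_natDegree, ← IsAlgClosed.card_roots_eq_natDegree]
    refine Multiset.card_le_card (Multiset.le_iff_count.2 fun τ => ?_)
    rw [count_roots, count_roots]
    exact hmult τ
  have h3 : v (nm s ℓ z) * v x ^ B.natDegree = v x ^ A.natDegree := by
    rw [← hv.aeval_inf hx hB, ← hv.aeval_inf hx hA, ← map_mul, hAB]
  have hx0 : v x ≠ 0 := (zero_lt_one.trans hx).ne'
  have hN0 : v (nm s ℓ z) ≠ 0 := (Valuation.ne_zero_iff v).2 hN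
  have hz0 : v z ≠ 0 := (Valuation.ne_zero_iff v).2 hz
  have h4 := congrArg log h3
  rw [log_mul hN0 (pow_ne_zero _ hx0), log_pow, log_pow, hs.log_nm_inf h hz hv hx] at h4
  have hL : 0 < log (v x) := by
    rw [← log_one, log_lt_log one_ne_zero hx0]
    exact hx
  rw [← log_le_log one_ne_zero hz0, log_one]
  simp only [nsmul_eq_mul] at h4
  have h5 : (B.natDegree : ℤ) ≤ A.natDegree := by exact_mod_cast hdeg
  have h6 : (0 : ℤ) < ℓ := by exact_mod_cast Nat.pos_of_ne_zero hℓ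
  by_contra hneg
  have h7 : (ℓ : ℤ) * log (v z) < 0 := mul_neg_of_pos_of_neg h6 (not_le.1 hneg)
  nlinarith

variable {Γ : Type} [Group Γ] {α : Γ →* (k ≃+* k)} {β : Γ →* (E ≃+* E)}

/-- A class fixed by `Γ` contains an eigenfunction.  Sketch: fix `w` from `Cyc.pt_inf`.  Let
`S = {η | ∀ v, Triv k v → v x ≤ 1 → v (φ * η ^ m) ≤ 1}`.  If `log (v φ) = m * d` the condition at
`v` reads `v η ≤ exp (-d)`, so `S` is closed under `η₁ - c * η₂`.  It contains `B(x) ≠ 0` where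
`φ * B(x) = G(x, y)`.  By `one_le_inf`, `log (w η)` is bounded below on `S \ {0}`; take `η`
minimising it (`Int.exists_least_of_bdd`).  For `g`, `β g (φ * η ^ m) = φ * η' ^ m` with
`η' = ψ * β g η ∈ S` (`Triv.comap`), and `w η' = w η` by `inf_val` applied to `φ * η ^ m` and the
two valuations `w`, `w.comap (β g)`.  By the second part of `inf_val` for `η' / η` there is `c`
with `w (η' - c * η) < w η`, so `η' = c * η`. -/
theorem Cyc.eigen (h : Cyc ℓ x y f) (hA : Act α β x y) {m : ℕ} (hm : m ≠ 0) {φ : E} (hφ : φ ≠ 0)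
    (hd : FinDiv k x m φ) (H : ∀ g, ∃ ψ : E, β g φ = φ * ψ ^ m) :
    ∃ η : E, η ≠ 0 ∧ ∀ g, ∃ c : k, β g (φ * η ^ m) = algebraMap k E c * (φ * η ^ m) := by
  obtain ⟨w, hw, hwx⟩ := h.pt_inf
  have hℓ : ℓ ≠ 0 := h.ram.prime.ne_zero
  have hℓ' : (ℓ : ℤ) ≠ 0 := by exact_mod_cast hℓ
  have hm' : (m : ℤ) ≠ 0 := by exact_mod_cast hm
  let S : E → Prop := fun η =>
    ∀ v : Valuation E ℤᵐ⁰, Triv k v → v x ≤ 1 → v (φ * η ^ m) ≤ 1
  have hsub : ∀ η₁ η₂ (c : k), S η₁ → S η₂ → S (η₁ - algebraMap k E c * η₂) := by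
    intro η₁ η₂ c h₁ h₂ v hv hx
    have h1 : v (η₁ - algebraMap k E c * η₂) ≤ max (v η₁) (v η₂) := by
      refine (v.map_sub _ _).trans (max_le_max le_rfl ?_)
      rw [map_mul]
      exact mul_le_of_le_one_left' (hv c)
    have key : ∀ η, S η → v (η₁ - algebraMap k E c * η₂) ≤ v η →
        v (φ * (η₁ - algebraMap k E c * η₂) ^ m) ≤ 1 := by
      intro η hη hle
      refine le_trans ?_ (hη v hv hx)
      rw [map_mul, map_mul, map_pow, map_pow]
      exact mul_le_mul_right (pow_le_pow_left' hle m) _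
    rcases le_max_iff.1 h1 with h2 | h2
    · exact key _ h₁ h2
    · exact key _ h₂ h2
  have hlog : ∀ η : E, η ≠ 0 → log (w (φ * η ^ m)) = log (w φ) + m * log (w η) := by
    intro η hη
    rw [map_mul, map_pow, log_mul ((Valuation.ne_zero_iff w).2 hφ)
      (pow_ne_zero _ ((Valuation.ne_zero_iff w).2 hη)), log_pow, nsmul_eq_mul]
  have hbd : ∃ b : ℤ, ∀ t : ℤ, (∃ η, S η ∧ η ≠ 0 ∧ log (w η) = t) → b ≤ t := by
    refine ⟨-|log (w φ)|, ?_⟩
    rintro t ⟨η, hη, hη0, rfl⟩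
    have hne : φ * η ^ m ≠ 0 := mul_ne_zero hφ (pow_ne_zero _ hη0)
    have h1 := h.one_le_inf hne hη hw hwx
    rw [← log_le_log one_ne_zero ((Valuation.ne_zero_iff w).2 hne), log_one, hlog η hη0] at h1
    have h2 : (1 : ℤ) ≤ m := by exact_mod_cast Nat.pos_of_ne_zero hm
    have h3 := le_abs_self (log (w φ))
    have h4 := abs_nonneg (log (w φ))
    by_contra hlt
    have h5 : log (w η) < 0 := by omega
    nlinarith
  have hex : ∃ t : ℤ, ∃ η, S η ∧ η ≠ 0 ∧ log (w η) = t := by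
    obtain ⟨G, B, hB, -, hG⟩ := h.repr φ
    refine ⟨_, aeval x B, fun v hv hx => ?_, fun h0 => h.trans ⟨B, hB, h0⟩, rfl⟩
    obtain ⟨m', rfl⟩ := Nat.exists_eq_succ_of_ne_zero hm
    rw [pow_succ', ← mul_assoc, hG, map_mul, map_pow]
    exact mul_le_one' (hv.aevalAeval_le_one hx (hv.y_le_one hx hℓ h.eq) G)
      (pow_le_one' (hv.aeval_le_one hx B) _)
  obtain ⟨t, ⟨η, hη, hη0, rfl⟩, hmin⟩ := Int.exists_least_of_bdd hbd hex
  refine ⟨η, hη0, fun g => ?_⟩
  obtain ⟨ψ, hψ⟩ := H g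
  have hu : φ * η ^ m ≠ 0 := mul_ne_zero hφ (pow_ne_zero _ hη0)
  have e : β g (φ * η ^ m) = φ * (ψ * β g η) ^ m := by
    rw [map_mul, map_pow, hψ, mul_pow, mul_assoc]
  generalize ψ * β g η = η' at e
  have hcom : ∀ v : Valuation E ℤᵐ⁰, Triv k v → Triv k (v.comap (β g).toRingHom) :=
    fun v hv => hv.comap (α g) (β g) (hA.compat g)
  have hη' : S η' := by
    intro v hv hx
    rw [← e]
    refine hη _ (hcom v hv) ?_
    change v (β g x) ≤ 1
    rwa [hA.fx]
  have hη0' : η' ≠ 0 := by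
    rintro rfl
    rw [zero_pow hm, mul_zero, map_eq_zero] at e
    exact hu e
  have hw0 : w η ≠ 0 := (Valuation.ne_zero_iff w).2 hη0
  have hw0' : w η' ≠ 0 := (Valuation.ne_zero_iff w).2 hη0'
  have heq : log (w η') = log (w η) := by
    obtain ⟨n, hn, -⟩ := h.inf_val hu
    have h1 := hn w hw hwx
    have h2 := hn _ (hcom w hw) (by
      change 1 < w (β g x)
      rwa [hA.fx])
    change ℓ * log (w (β g (φ * η ^ m))) = n * log (w (β g x)) at h2
    rw [hA.fx, e, ← h1, hlog η hη0, hlog η' hη0'] at h2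
    exact mul_left_cancel₀ hm' (add_left_cancel (mul_left_cancel₀ hℓ' h2))
  obtain ⟨n, hn, hn0⟩ := h.inf_val (div_ne_zero hη0' hη0)
  have hx0 : w x ≠ 0 := (zero_lt_one.trans hwx).ne'
  have hL : 0 < log (w x) := by
    rw [← log_one, log_lt_log one_ne_zero hx0]
    exact hwx
  have h1 := hn w hw hwx
  rw [map_div₀, log_div hw0' hw0, heq, sub_self, mul_zero] at h1
  obtain ⟨c, -, hc⟩ := hn0 ((mul_eq_zero.1 h1.symm).resolve_right hL.ne')
  have h2 : w (η' - algebraMap k E c * η) < w η := by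
    have e2 : η' - algebraMap k E c * η = (η' / η - algebraMap k E c) * η := by
      field_simp
    rw [e2, map_mul]
    exact mul_lt_of_lt_one_left (zero_lt_iff.2 hw0) (hc w hw hwx)
  have h3 : η' - algebraMap k E c * η = 0 := by
    by_contra hne
    have h4 := hmin _ ⟨_, hsub η' η c hη' hη, hne, rfl⟩
    rw [log_le_log hw0 ((Valuation.ne_zero_iff w).2 hne)] at h4
    exact absurd h2 (not_lt.2 h4)
  refine ⟨c ^ m, ?_⟩
  rw [e, sub_eq_zero.1 h3, map_pow]
  ring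

end Pool.Agent.Lib.MP_07b2d0_nt.Ks
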