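import Mathlib
import Pool.Agent.Lib.MP_07b2d0_nt.KC1

set_option autoImplicit false
set_option linter.unusedSectionVars false
set_option linter.unusedVariables false

namespace Pool.Agent.Lib.MP_07b2d0_nt.Ks

open Polynomial WithZero Finset
open scoped Polynomial.Bivariate

variable {k E : Type} [Field k] [IsAlgClosed k] [CharZero k] [Field E] [Algebra k E]
  {ℓ : ℕ} {x y : E} {f : k[X]}
variable {Γ : Type} [Group Γ] {α : Γ →* (k ≃+* k)} {β : Γ →* (E ≃+* E)}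
  {ζ : k} {s : E ≃ₐ[k] E}

/-- If `u ^ ℓ` is a constant then so is `u` (factor `X ^ ℓ - C c` over `k`). -/
theorem exists_const_of_pow (hℓ : ℓ ≠ 0) {u : E} {c : k} (h : u ^ ℓ = algebraMap k E c) :
    ∃ e : k, u = algebraMap k E e := by
  have hi : IsIntegral k u :=
    IsIntegral.of_pow (Nat.pos_of_ne_zero hℓ) (h ▸ isIntegral_algebraMap)
  obtain ⟨e, he⟩ := minpoly.mem_range_of_degree_eq_one k u
    (IsAlgClosed.degree_eq_one_of_irreducible k (minpoly.irreducible hi))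
  exact ⟨e, he.symm⟩

/-- Sketch: let `m = n + 3`, take `N` from `Tors` at level `m`, `θ₀` from `Cyc.tower` at level
`N + m`, `φ = (x - a) * θ₀ ^ ℓ`, `η` from `Cyc.eigen` and `θ = θ₀ * η ^ ℓ ^ (m - 1)`, so that
`(x - a) * θ ^ ℓ = φ * η ^ ℓ ^ m`.  As `β g` fixes `x - a`, `(β g θ / θ) ^ ℓ` is a constant.  By
`Aut.norm_pow`, `((x - a) * nm θ) ^ ℓ = (Q₁ / Q₂) ^ ℓ ^ (n + 2)` (`nm_mul`, `nm_pow`,
`Aut.nm_aeval`), so `(x - a) * nm θ = e * (Q₁ / Q₂) ^ ℓ ^ (n + 1)` with a constant `e`, which is an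
`ℓ`-th power in `k`. -/
theorem Aut.package (hs : Aut ℓ ζ x y s) (h : Cyc ℓ x y f) (hA : Act α β x y) (hT : Tors k β ℓ)
    {a : k} (ha : f.IsRoot a) (hfa : ∀ g, α g a = a) (n : ℕ) :
    ∃ (θ : E) (Q₁ Q₂ : k[X]), θ ≠ 0 ∧ Q₂ ≠ 0 ∧
      DivBy k (ℓ ^ (n + 1)) ((x - algebraMap k E a) * θ ^ ℓ) ∧
      (∀ g, ∃ e : k, β g θ = algebraMap k E e * θ) ∧
      (x - algebraMap k E a) * nm s ℓ θ * aeval x Q₂ ^ ℓ = aeval x Q₁ ^ ℓ := by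
  have hp := h.ram.prime
  have hℓ : ℓ ≠ 0 := hp.ne_zero
  have hinj : ∀ {A : k[X]}, A ≠ 0 → aeval x A ≠ 0 := fun {A} hA0 e => h.trans ⟨A, hA0, e⟩
  have hxa : x - algebraMap k E a = aeval x (X - C a) := by simp
  have hx0 : x - algebraMap k E a ≠ 0 := hxa ▸ hinj (X_sub_C_ne_zero a)
  obtain ⟨N, hN⟩ := hT (n + 3)
  obtain ⟨θ₀, hθ₀, hd⟩ := h.tower ha (N + (n + 3))
  have hφ : (x - algebraMap k E a) * θ₀ ^ ℓ ≠ 0 := mul_ne_zero hx0 (pow_ne_zero _ hθ₀)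
  have hd1 := hd.of_dvd (pow_dvd_pow ℓ (Nat.le_add_left (n + 3) N))
  obtain ⟨η, hη, hc⟩ := h.eigen hA (pow_ne_zero _ hℓ) hφ hd1.finDiv
    (hN _ hφ (hd.of_dvd (pow_dvd_pow ℓ (Nat.le_add_right N (n + 3)))))
  have hd2 := hd1.mul_pow hφ hη
  obtain ⟨θ, hθ⟩ : ∃ θ, θ = θ₀ * η ^ ℓ ^ (n + 2) := ⟨_, rfl⟩
  have hθ0 : θ ≠ 0 := hθ ▸ mul_ne_zero hθ₀ (pow_ne_zero _ hη)
  have e1 : (x - algebraMap k E a) * θ₀ ^ ℓ * η ^ ℓ ^ (n + 3) =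
      (x - algebraMap k E a) * θ ^ ℓ := by
    rw [hθ, mul_pow, ← pow_mul, ← pow_succ, mul_assoc]
  rw [e1] at hd2 hc
  obtain ⟨Q₁, Q₂, hQ₁, hQ₂, hQ⟩ :=
    hs.norm_pow h (mul_ne_zero hx0 (pow_ne_zero _ hθ0)) hd2.finDiv
  rw [nm_mul, nm_pow, hxa, hs.nm_aeval, ← hxa] at hQ
  have hq : aeval x Q₁ ^ ℓ ^ (n + 1) ≠ 0 := pow_ne_zero _ (hinj hQ₁)
  obtain ⟨e, he⟩ := exists_const_of_pow hℓ (c := (1 : k))
    (u := (x - algebraMap k E a) * nm s ℓ θ * aeval x Q₂ ^ ℓ ^ (n + 1) /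
      aeval x Q₁ ^ ℓ ^ (n + 1)) (by
    rw [div_pow, mul_pow, mul_pow, ← pow_mul, ← pow_mul, ← pow_succ, hQ, map_one]
    exact div_self (pow_ne_zero _ (hinj hQ₁)))
  obtain ⟨d, hd⟩ := IsAlgClosed.exists_pow_nat_eq e hp.pos
  refine ⟨θ, C d * Q₁ ^ ℓ ^ n, Q₂ ^ ℓ ^ n, hθ0, pow_ne_zero _ hQ₂,
    hd2.of_dvd (pow_dvd_pow ℓ (by omega)), fun g => ?_, ?_⟩
  · obtain ⟨c, hc⟩ := hc g
    rw [map_mul, map_sub, hA.fx, hA.compat, hfa, map_pow, mul_left_comm] at hc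
    obtain ⟨e', he'⟩ := exists_const_of_pow hℓ (c := c) (u := β g θ / θ) (by
      rw [div_pow, mul_left_cancel₀ hx0 hc, mul_div_cancel_right₀ _ (pow_ne_zero _ hθ0)])
    exact ⟨e', (div_eq_iff hθ0).1 he'⟩
  · rw [map_mul, map_pow, map_pow, aeval_C, mul_pow, ← pow_mul, ← pow_mul, ← pow_succ,
      ← map_pow (algebraMap k E), hd]
    exact (div_eq_iff hq).1 he

end Pool.Agent.Lib.MP_07b2d0_nt.Ks
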