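import Mathlib
import Pool.Agent.Lib.MP_07b2d0_nt.KC2

set_option autoImplicit false
set_option linter.unusedSectionVars false
set_option linter.unusedVariables false

namespace Pool.Agent.Lib.MP_07b2d0_nt.Ks

open Polynomial WithZero Finset
open scoped Polynomial.Bivariate

variable {k E : Type} [Field k] [IsAlgClosed k] [CharZero k] [Field E] [Algebra k E]
  {ℓ : ℕ} {x y : E} {f : k[X]}
variable {Γ : Type} [Group Γ] {α : Γ →* (k ≃+* k)} {β : Γ →* (E ≃+* E)}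
  {ζ : k} {s : E ≃ₐ[k] E}

theorem kc3_mul {v : Valuation E ℤᵐ⁰} (hv : Triv k v) {z z' : E} {c c' : k}
    (h : v (z - algebraMap k E c) < 1) (h' : v (z' - algebraMap k E c') < 1) :
    v (z * z' - algebraMap k E (c * c')) < 1 := by
  have e : z * z' - algebraMap k E (c * c') =
      (z - algebraMap k E c) * z' + algebraMap k E c * (z' - algebraMap k E c') := by
    rw [map_mul]; ring
  rw [e]
  refine v.map_add_lt ?_ ?_ <;> rw [map_mul]
  · exact mul_lt_one_of_nonneg_of_lt_one_left zero_le h (hv.le_one_of_cen h')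
  · exact mul_lt_one_of_nonneg_of_lt_one_right (hv _) zero_le h'

/-- Value of `q / θ` at a branch point.  Sketch: let `v` be normalised above `b`
(`Cyc.pt` with `η = 0`).  All `v.comap (s ^ i)` are centred above `b`, so by `ram_val`
`log (v (nm θ)) = ℓ * log (v θ)`, hence `v q = v θ` since `v (x - a) = 1`.  As `ℓ ∣ log (v θ)` and
`log (v (x - b)) = -ℓ` (`ram_e`) there is `r : ℤ` with `θ' = θ * (x - b) ^ r` a unit at `v`;
`q' = q * (x - b) ^ r` is a unit too and `(x - a) * nm θ' = q' ^ ℓ`.  By `ram_val` (case `n = 0`)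
there are constants `c₁, c₂ ≠ 0` with `w (θ' - c₁) < 1` and `w (q' - c₂) < 1` for all `w` above
`b`; then `(s ^ i) θ' ≡ c₁`, so `(b - a) * c₁ ^ ℓ = c₂ ^ ℓ` (`Triv.cen_unique`).  Take
`γ = c₂ / c₁`. -/
theorem Aut.branch_value (hs : Aut ℓ ζ x y s) (h : Cyc ℓ x y f) {a b : k} (hb : f.IsRoot b)
    (hab : b ≠ a) {θ q : E} (hθ : θ ≠ 0)
    (hd : DivBy k (ℓ ^ 2) ((x - algebraMap k E a) * θ ^ ℓ))
    (hq : (x - algebraMap k E a) * nm s ℓ θ = q ^ ℓ) :
    ∃ γ : k, γ ^ ℓ = b - a ∧ ∀ v : Valuation E ℤᵐ⁰, Triv k v → v (x - algebraMap k E b) < 1 →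
      v (q / θ - algebraMap k E γ) < 1 := by
  have hℓ := h.ram.prime.ne_zero
  have hℓ' : (ℓ : ℤ) ≠ 0 := by exact_mod_cast hℓ
  obtain ⟨v₀, hv₀, hs₀, hc₀, -⟩ := h.pt (τ := b) (η := 0) (by rw [zero_pow hℓ, hb.eq_zero])
  have he := h.ram_e hb hv₀ hs₀ hc₀
  have hsub : ∀ τ : k, x - algebraMap k E τ ≠ 0 := fun τ h0 =>
    h.trans (sub_eq_zero.mp h0 ▸ isAlgebraic_algebraMap τ)
  have hsx : ∀ (i : ℕ) (τ : k), (s ^ i) (x - algebraMap k E τ) = x - algebraMap k E τ :=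
    fun i τ => by rw [map_sub, hs.pow_x, AlgEquiv.commutes]
  have hT : ∀ (i : ℕ) {v : Valuation E ℤᵐ⁰}, Triv k v → Triv k (v.comap (s ^ i).toRingEquiv.toRingHom) :=
    fun i v hv c => by
      rw [Valuation.comap_apply]
      exact (congrArg v ((s ^ i).commutes c)).trans_le (hv c)
  have hC : ∀ (i : ℕ) {v : Valuation E ℤᵐ⁰}, v (x - algebraMap k E b) < 1 →
      (v.comap (s ^ i).toRingEquiv.toRingHom) (x - algebraMap k E b) < 1 := fun i v hv => by
    rw [Valuation.comap_apply]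
    exact (congrArg v (hsx i b)).trans_lt hv
  have hxa : ∀ {v : Valuation E ℤᵐ⁰}, Triv k v → v (x - algebraMap k E b) < 1 →
      v (x - algebraMap k E a - algebraMap k E (b - a)) < 1 := fun hv hc => by
    convert hc using 2
    rw [map_sub]
    ring
  have hone : ∀ {v : Valuation E ℤᵐ⁰} {z : E} {c : k}, Triv k v → c ≠ 0 →
      v (z - algebraMap k E c) < 1 → v z = 1 := fun {v z c} hv hc hz => by
    rw [← hv.eq_one hc] at hz ⊢
    exact v.map_eq_of_sub_lt hz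
  have hba : b - a ≠ 0 := sub_ne_zero.mpr hab
  have h1 := hd v₀ hv₀
  rw [map_mul, hone hv₀ hba (hxa hv₀ hc₀), one_mul, map_pow, log_pow] at h1
  obtain ⟨r, hr⟩ : (ℓ : ℤ) ∣ log (v₀ θ) := by
    rw [nsmul_eq_mul, Nat.cast_pow, sq] at h1
    exact (mul_dvd_mul_iff_left hℓ').mp h1
  obtain ⟨u, hu⟩ : ∃ u, u = (x - algebraMap k E b) ^ r := ⟨_, rfl⟩
  have hu0 : u ≠ 0 := hu ▸ zpow_ne_zero _ (hsub b)
  have hθ' : θ * u ≠ 0 := mul_ne_zero hθ hu0
  have hv1 : log (v₀ (θ * u)) = 0 := by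
    rw [map_mul, log_mul (by simpa using hθ) (by simpa using hu0), hu, map_zpow₀, log_zpow, he, hr]
    simp [mul_comm]
  obtain ⟨n₁, hn₁, hc₁⟩ := h.ram_val hb hθ'
  have hn₁0 : n₁ = 0 := by
    have := hn₁ v₀ hv₀ hc₀
    rw [hv1, he] at this
    simpa [hℓ] using this
  obtain ⟨c₁, hc₁0, hc₁⟩ := hc₁ hn₁0
  have hnm : (x - algebraMap k E a) * nm s ℓ (θ * u) = (q * u) ^ ℓ := by
    have : nm s ℓ u = u ^ ℓ := by
      rw [nm, Finset.prod_congr rfl (g := fun _ => u) fun i _ => by rw [hu, map_zpow₀, hsx]]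
      simp
    rw [nm_mul, ← mul_assoc, hq, this, mul_pow]
  have hcong : ∀ {v : Valuation E ℤᵐ⁰}, Triv k v → v (x - algebraMap k E b) < 1 →
      v ((q * u) ^ ℓ - algebraMap k E ((b - a) * c₁ ^ ℓ)) < 1 := fun {v} hv hc => by
    have e1 : v (nm s ℓ (θ * u) - algebraMap k E (c₁ ^ ℓ)) < 1 := by
      have : ∀ n : ℕ, v (∏ i ∈ range n, (s ^ i) (θ * u) - algebraMap k E (c₁ ^ n)) < 1 := by
        intro n
        induction n with
        | zero => simp
        | succ n ih =>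
          rw [prod_range_succ, pow_succ]
          exact kc3_mul hv ih (hc₁ _ (hT n hv) (hC n hc) |>.trans_eq' (by
            rw [Valuation.comap_apply, map_sub]
            exact congrArg (fun z => v ((s ^ n) (θ * u) - z)) ((s ^ n).commutes c₁)))
      exact this ℓ
    rw [← hnm]
    exact kc3_mul hv (hxa hv hc) e1
  have hq' : q * u ≠ 0 := fun h0 => by
    have := hone hv₀ (mul_ne_zero hba (pow_ne_zero _ hc₁0)) (hcong hv₀ hc₀)
    rw [h0, zero_pow hℓ, map_zero] at this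
    exact zero_ne_one this
  obtain ⟨n₂, hn₂, hc₂⟩ := h.ram_val hb hq'
  have hn₂0 : n₂ = 0 := by
    have e1 := hn₂ v₀ hv₀ hc₀
    have e2 := congrArg log (hone hv₀ (mul_ne_zero hba (pow_ne_zero _ hc₁0)) (hcong hv₀ hc₀))
    rw [map_pow, log_pow, log_one, nsmul_eq_mul] at e2
    rw [e2, he] at e1
    simpa [hℓ] using e1
  obtain ⟨c₂, hc₂0, hc₂⟩ := hc₂ hn₂0
  have hcc : c₂ ^ ℓ = (b - a) * c₁ ^ ℓ := by
    refine hv₀.cen_unique ?_ (hcong hv₀ hc₀)
    have : ∀ n : ℕ, v₀ ((q * u) ^ n - algebraMap k E (c₂ ^ n)) < 1 := by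
      intro n
      induction n with
      | zero => simp
      | succ n ih =>
        rw [pow_succ, pow_succ]
        exact kc3_mul hv₀ ih (hc₂ _ hv₀ hc₀)
    exact this ℓ
  refine ⟨c₂ / c₁, by rw [div_pow, hcc, mul_div_cancel_right₀ _ (pow_ne_zero _ hc₁0)],
    fun v hv hc => ?_⟩
  have e1 : q / θ - algebraMap k E (c₂ / c₁) = ((q * u - algebraMap k E c₂) -
      algebraMap k E (c₂ / c₁) * (θ * u - algebraMap k E c₁)) / (θ * u) := by
    have : algebraMap k E c₁ ≠ 0 := by simpa using hc₁0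
    rw [map_div₀]
    field_simp
    ring
  rw [e1, map_div₀, hone hv hc₁0 (hc₁ v hv hc), div_one]
  refine v.map_sub_lt (hc₂ v hv hc) ?_
  rw [map_mul]
  exact mul_lt_one_of_nonneg_of_lt_one_right (hv _) zero_le (hc₁ v hv hc)

/-- Cross ratios with infinity are `ℓ`-th powers of fixed elements.  Sketch: take `ζ`, `s`, the
package at level `n = 1`, `q = Q₁(x) / Q₂(x)`.  If `β g θ = e * θ` then
`β g (nm θ) = e ^ ℓ * nm θ` (`Aut.map_nm`), so `(β g q / q) ^ ℓ` is constant and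
`β g (q / θ) = u * (q / θ)` for a constant `u` not depending on the branch point.  Applying
`branch_value` to `v.comap (β g)` gives `v (u * (q / θ) - α g γ) < 1`, so `α g γ = u * γ`.  Divide
the values at `b` and `b'`. -/
theorem Cyc.l2 (h : Cyc ℓ x y f) (hA : Act α β x y) (hF : Fix α f)
    (hz : ∀ g (z : k), z ^ ℓ = 1 → α g z = z) (hT : Tors k β ℓ) {a b b' : k} (ha : f.IsRoot a)
    (hb : f.IsRoot b) (hb' : f.IsRoot b') (hab : b ≠ a) (hab' : b' ≠ a) :
    ∃ γ : k, (∀ g, α g γ = γ) ∧ γ ^ ℓ = (b - a) / (b' - a) := by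
  have hℓ := h.ram.prime.ne_zero
  have : NeZero ℓ := ⟨hℓ⟩
  obtain ⟨ζ, hζ⟩ := HasEnoughRootsOfUnity.exists_primitiveRoot k ℓ
  obtain ⟨s, hs⟩ := h.aut hζ
  obtain ⟨θ, Q₁, Q₂, hθ, hQ, hd, he, hq⟩ := hs.package h hA hT ha (fun g => hF.root g a ha) 1
  have hQ' : aeval x Q₂ ≠ 0 := fun h0 => h.trans ⟨Q₂, hQ, h0⟩
  obtain ⟨q, hqd⟩ : ∃ q, q = aeval x Q₁ / aeval x Q₂ := ⟨_, rfl⟩
  have hq' : (x - algebraMap k E a) * nm s ℓ θ = q ^ ℓ := by
    rw [hqd, div_pow, ← hq, mul_div_cancel_right₀ _ (pow_ne_zero _ hQ')]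
  have hxa : x - algebraMap k E a ≠ 0 := fun h0 =>
    h.trans (sub_eq_zero.mp h0 ▸ isAlgebraic_algebraMap a)
  have hq0 : q ≠ 0 := fun h0 => by
    rw [h0, zero_pow hℓ] at hq'
    exact mul_ne_zero hxa (nm_ne_zero s ℓ hθ) hq'
  have hfx : ∀ g (τ : k), f.IsRoot τ → β g (x - algebraMap k E τ) = x - algebraMap k E τ :=
    fun g τ hτ => by rw [map_sub, hA.fx, hA.compat, hF.root g τ hτ]
  have key : ∀ g, ∃ u : k, β g (q / θ) = algebraMap k E u * (q / θ) := fun g => by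
    obtain ⟨e, he⟩ := he g
    have e1 : β g (nm s ℓ θ) = algebraMap k E (e ^ ℓ) * nm s ℓ θ := by
      have := hs.nm_aeval (C e)
      rw [aeval_C] at this
      rw [hs.map_nm h (α g) (β g) (hA.compat g) (hA.fx g) (hA.fy g) (hz g ζ hζ.pow_eq_one), he,
        nm_mul, this, map_pow]
    have e2 : (β g q / q) ^ ℓ = algebraMap k E (e ^ ℓ) := by
      rw [div_pow, ← map_pow, ← hq', map_mul, hfx g a ha, e1]
      have := nm_ne_zero s ℓ hθ
      field_simp
    obtain ⟨e', he'⟩ := exists_const_of_pow hℓ e2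
    refine ⟨e' / e, ?_⟩
    rw [map_div₀, he, map_div₀, ← he']
    field_simp
  choose u hu using key
  have main : ∀ τ : k, f.IsRoot τ → τ ≠ a → ∃ γ : k, γ ^ ℓ = τ - a ∧ ∀ g, α g γ = u g * γ := by
    intro τ hτ hne
    obtain ⟨γ, h1, h2⟩ := hs.branch_value h hτ hne hθ hd hq'
    refine ⟨γ, h1, fun g => ?_⟩
    obtain ⟨v, hv, -, hc, -⟩ := h.pt (τ := τ) (η := 0) (by rw [zero_pow hℓ, hτ.eq_zero])
    have e1 := h2 (v.comap (β g).toRingHom) (hv.comap (α g) (β g) (hA.compat g))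
      ((congrArg v (hfx g τ hτ)).trans_lt hc)
    have e2 : v (algebraMap k E (u g) * (q / θ) - algebraMap k E (α g γ)) < 1 := by
      rw [← hu, ← hA.compat, ← map_sub]
      exact e1
    exact hv.cen_unique e2 (kc3_mul hv (c := u g) (by simp) (h2 v hv hc))
  obtain ⟨γ, h1, h2⟩ := main b hb hab
  obtain ⟨γ', h1', h2'⟩ := main b' hb' hab'
  refine ⟨γ / γ', fun g => ?_, by rw [div_pow, h1, h1']⟩
  have hγ' : γ' ≠ 0 := fun h0 => by
    rw [h0, zero_pow hℓ] at h1'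
    exact hab' (sub_eq_zero.mp h1'.symm)
  have hu0 : u g ≠ 0 := fun h0 => by
    have := h2' g
    rw [h0, zero_mul] at this
    exact hγ' (by simpa using this)
  rw [map_div₀, h2, h2', mul_div_mul_left _ _ hu0]

end Pool.Agent.Lib.MP_07b2d0_nt.Ks
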