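import Mathlib
import Pool.Agent.Lib.MP_07b2d0_nt.KC2

set_option autoImplicit false
set_option linter.unusedSectionVars false
set_option linter.unusedVariables false

namespace Pool.Agent.Lib.MP_07b2d0_nt.Ks

open Polynomial WithZero Finset
open scoped Polynomial.Bivariate

variable {k E : Type} [Field k] [IsAlgClosed k] [CharZero k] [Field E] [Algebra k E]
  {ℓ : ℕ} {x y : E} {f : k[X]}
variable {Γ : Type} [Group Γ] {α : Γ →* (k ≃+* k)} {β : Γ →* (E ≃+* E)}

theorem Fix.map (hF : Fix α f) (g : Γ) : f.map (α g).toRingHom = f := by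
  have hcard : f.roots.card = f.natDegree := IsAlgClosed.card_roots_eq_natDegree
  have hf := C_leadingCoeff_mul_prod_multiset_X_sub_C hcard
  have h1 : (f.roots.map fun a => (X - C a : k[X])).prod.map (α g).toRingHom =
      (f.roots.map fun a => (X - C a : k[X])).prod := by
    rw [Polynomial.map_multiset_prod, Multiset.map_map]
    congr 1
    apply Multiset.map_congr rfl
    intro r hr
    have h2 : (α g).toRingHom r = r := hF.root g r (isRoot_of_mem_roots hr)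
    simp only [Function.comp_apply, Polynomial.map_sub, map_X, map_C, h2]
  have h3 : (α g).toRingHom f.leadingCoeff = f.leadingCoeff := hF.lead g
  conv_lhs => rw [← hf]
  rw [Polynomial.map_mul, map_C, h1, h3, hf]

theorem Fix.eval (hF : Fix α f) (g : Γ) (τ : k) : f.eval (α g τ) = α g (f.eval τ) := by
  have h1 : (f.map (α g).toRingHom).eval ((α g).toRingHom τ) = (α g).toRingHom (f.eval τ) := by
    rw [eval_map, eval₂_at_apply]
  rw [hF.map g] at h1
  exact h1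

theorem kc4_log (h : Cyc ℓ x y f) {θ : E} (hθ : θ ≠ 0) {G : k[X][Y]} {B : k[X]} (hB : B ≠ 0)
    (e : θ * aeval x B = aevalAeval x y G) {τ η : k} (hτ : f.eval τ ≠ 0) {n : ℕ}
    (hm : IsMult ℓ f τ η G n) {v : Valuation E ℤᵐ⁰} (hv : Triv k v) (hs : Srj v)
    (hc : Cen v x y τ η) : log (v θ) = (B.rootMultiplicity τ : ℤ) - n := by
  have h1 := hm.val h.eq hv hc
  have h2 := hv.aeval_eq_pow hc.1 hB
  have h3 := h.unr_e hτ hv hs hc
  have hBx : aeval x B ≠ 0 := by
    intro h0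
    exact hB (transcendental_iff_injective.mp h.trans (by rw [h0, map_zero]))
  have h4 : v θ ≠ 0 := (Valuation.ne_zero_iff v).mpr hθ
  have h5 : v (aeval x B) ≠ 0 := (Valuation.ne_zero_iff v).mpr hBx
  have h6 : log (v θ * v (aeval x B)) = log (v θ) + log (v (aeval x B)) := log_mul h4 h5
  rw [← map_mul, e, h1, h2, log_pow, log_pow, h3] at h6
  simp only [nsmul_eq_mul] at h6
  linarith

theorem kc4_dvd (h : Cyc ℓ x y f) {θ : E} (hθ : θ ≠ 0) {a : k} (ha : f.IsRoot a) {n : ℕ}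
    (hd : DivBy k (ℓ ^ (n + 1)) ((x - algebraMap k E a) * θ ^ ℓ)) {τ η : k} (hτ : f.eval τ ≠ 0)
    {v : Valuation E ℤᵐ⁰} (hv : Triv k v) (hc : Cen v x y τ η) : (ℓ : ℤ) ^ n ∣ log (v θ) := by
  have h1 := hv.aeval_eq_pow hc.1 (X_sub_C_ne_zero a)
  have hne : τ ≠ a := by
    rintro rfl
    exact hτ ha
  have h2 : rootMultiplicity τ (X - C a : k[X]) = 0 := by
    apply rootMultiplicity_eq_zero
    rw [IsRoot.def, eval_sub, eval_X, eval_C]
    exact sub_ne_zero.mpr hne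
  rw [h2, pow_zero, map_sub, aeval_X, aeval_C] at h1
  have h3 := hd v hv
  rw [map_mul, h1, one_mul, map_pow, log_pow, nsmul_eq_mul, Nat.cast_pow, pow_succ'] at h3
  have hℓ : (ℓ : ℤ) ≠ 0 := Int.natCast_ne_zero.mpr h.ram.prime.ne_zero
  exact (mul_dvd_mul_iff_left hℓ).mp h3

theorem kc4_comap (hA : Act α β x y) (g : Γ) {τ η : k} {v : Valuation E ℤᵐ⁰} (hv : Triv k v)
    (hs : Srj v) (hc : Cen v x y (α g τ) (α g η)) :
    Triv k (v.comap (β g).toRingHom) ∧ Srj (v.comap (β g).toRingHom) ∧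
      Cen (v.comap (β g).toRingHom) x y τ η := by
  refine ⟨hv.comap (α g) (β g) (hA.compat g), ?_, ?_, ?_⟩
  · obtain ⟨π, hπ⟩ := hs
    refine ⟨(β g).symm π, ?_⟩
    rw [Valuation.comap_apply]
    change v (β g ((β g).symm π)) = _
    rw [RingEquiv.apply_symm_apply, hπ]
  · rw [Valuation.comap_apply]
    change v (β g (x - algebraMap k E τ)) < 1
    rw [map_sub, hA.fx, hA.compat]
    exact hc.1
  · rw [Valuation.comap_apply]
    change v (β g (y - algebraMap k E η)) < 1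
    rw [map_sub, hA.fy, hA.compat]
    exact hc.2

/-- Sketch: take `s` and the package at level `n`; `θ * B(x) = G(x, y)` (`Cyc.repr`), `M` the norm
of `G`; `M(x) = nm θ * B(x) ^ ℓ`, so `(X - C a) * M * Q₂ ^ ℓ = (Q₁ * B) ^ ℓ` as `x` is
transcendental.  Choose `m τ η` by `Cyc.exists_isMult`.  For a normalised `v` centred at an
unramified `(τ, η)` (`Cyc.pt`, `unr_e`, `IsMult.val`, `Triv.aeval_eq_pow`):
`-log (v θ) = m τ η - rootMultiplicity τ B`, and `ℓ ^ (n + 1) ∣ ℓ * log (v θ)`.  For the invariance: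
if `v` is normalised and centred at `(α g τ, α g η)` then `v.comap (β g)` is normalised and centred
at `(τ, η)`, and it has the same value at `θ`. -/
theorem Cyc.good (h : Cyc ℓ x y f) (hA : Act α β x y) (hF : Fix α f) (hT : Tors k β ℓ) {ζ : k}
    (hζ : IsPrimitiveRoot ζ ℓ) {a : k} (ha : f.IsRoot a) (n : ℕ) : Good ℓ ζ f α a n := by
  have hℓ := h.ram.prime.ne_zero
  have hinj := transcendental_iff_injective.mp h.trans
  obtain ⟨s, hs⟩ := h.aut hζ
  obtain ⟨θ, Q₁, Q₂, hθ, hQ₂, hd, heig, hQ⟩ := hs.package h hA hT ha (fun g => hF.root g a ha) n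
  obtain ⟨G, B, hB, hG, e⟩ := h.repr θ
  obtain ⟨M, hM⟩ := exists_nrm hζ hℓ f G
  have hBx : aeval x B ≠ 0 := by
    intro h0
    exact hB (hinj (by rw [h0, map_zero]))
  have hMx : aeval x M = nm s ℓ θ * aeval x B ^ ℓ := by
    rw [hM.aeval_eq hs h.eq, ← e, nm_mul, hs.nm_aeval]
  have hG0 : aevalAeval x y G ≠ 0 := by
    rw [← e]
    exact mul_ne_zero hθ hBx
  have hex : ∀ τ η : k, ∃ j : ℕ, f.eval τ ≠ 0 → η ^ ℓ = f.eval τ → IsMult ℓ f τ η G j := by
    intro τ η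
    by_cases h1 : f.eval τ ≠ 0 ∧ η ^ ℓ = f.eval τ
    · obtain ⟨j, hj⟩ := h.exists_isMult h1.1 h1.2 hG0
      exact ⟨j, fun _ _ => hj⟩
    · exact ⟨0, fun h2 h3 => absurd ⟨h2, h3⟩ h1⟩
  choose m hm using hex
  have key1 : ∀ τ η : k, f.eval τ ≠ 0 → η ^ ℓ = f.eval τ →
      (ℓ : ℤ) ^ n ∣ (B.rootMultiplicity τ : ℤ) - m τ η := by
    intro τ η h1 h2
    obtain ⟨v, hv, hsv, hc⟩ := h.pt h2
    rw [← kc4_log h hθ hB e h1 (hm τ η h1 h2) hv hsv hc]
    exact kc4_dvd h hθ ha hd h1 hv hc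
  have key2 : ∀ (g : Γ) (τ η : k), f.eval τ ≠ 0 → η ^ ℓ = f.eval τ →
      (B.rootMultiplicity (α g τ) : ℤ) - m (α g τ) (α g η) =
        (B.rootMultiplicity τ : ℤ) - m τ η := by
    intro g τ η h1 h2
    have h1' : f.eval (α g τ) ≠ 0 := by
      rw [hF.eval g τ]
      exact (map_ne_zero_iff _ (α g).injective).mpr h1
    have h2' : (α g η) ^ ℓ = f.eval (α g τ) := by
      rw [hF.eval g τ, ← map_pow, h2]
    obtain ⟨v, hv, hsv, hc⟩ := h.pt h2'
    obtain ⟨hw, hsw, hcw⟩ := kc4_comap hA g hv hsv hc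
    rw [← kc4_log h hθ hB e h1' (hm _ _ h1' h2') hv hsv hc,
      ← kc4_log h hθ hB e h1 (hm τ η h1 h2) hw hsw hcw, Valuation.comap_apply]
    obtain ⟨c, hc'⟩ := heig g
    have hc0 : c ≠ 0 := by
      rintro rfl
      rw [map_zero, zero_mul] at hc'
      exact hθ ((map_eq_zero_iff _ (β g).injective).mp hc')
    change _ = log (v (β g θ))
    rw [hc', map_mul, hv.eq_one hc0, one_mul]
  refine ⟨G, M, Q₁ * B, Q₂, m, hG, hM, ?_, hQ₂, ?_, hm, ?_⟩
  · rintro rfl
    rw [map_zero] at hMx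
    exact mul_ne_zero (nm_ne_zero s ℓ hθ) (pow_ne_zero _ hBx) hMx.symm
  · apply hinj
    rw [map_mul, map_mul, map_pow, map_pow, map_mul, map_sub, aeval_X, aeval_C, hMx, mul_pow,
      ← hQ]
    ring
  · intro τ η η' h1 h2 h3
    refine ⟨?_, fun g => ?_⟩
    · have h4 := dvd_sub (key1 τ η' h1 h3) (key1 τ η h1 h2)
      have h5 : (m τ η : ℤ) - m τ η' = ((B.rootMultiplicity τ : ℤ) - m τ η') -
          ((B.rootMultiplicity τ : ℤ) - m τ η) := by ring
      rw [h5]
      exact h4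
    · have h4 := key2 g τ η h1 h2
      have h5 := key2 g τ η' h1 h3
      linarith

end Pool.Agent.Lib.MP_07b2d0_nt.Ks
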