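import Mathlib
import Pool.Agent.Lib.MP_07b2d0_nt.KDef

set_option autoImplicit false
set_option linter.unusedSectionVars false
set_option linter.unusedVariables false

namespace Pool.Agent.Lib.MP_07b2d0_nt.Ks

open Polynomial Finset
open scoped Polynomial.Bivariate

variable {k : Type} [Field k] [IsAlgClosed k] [CharZero k] {ν : AbsoluteValue k ℝ} {ℓ : ℕ}
  {f : k[X]}

theorem lg_mul {u z : k} (hu : u ≠ 0) (hz : z ≠ 0) : lg ν (u * z) = lg ν u + lg ν z := by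
  rw [lg, lg, lg, map_mul, Real.log_mul (ν.ne_zero hu) (ν.ne_zero hz)]

theorem lg_pow (z : k) (n : ℕ) : lg ν (z ^ n) = n * lg ν z := by
  rw [lg, lg, map_pow, Real.log_pow]

theorem lg_zpow (z : k) (n : ℤ) : lg ν (z ^ n) = n * lg ν z := by
  rw [lg, lg, map_zpow₀, Real.log_zpow]

theorem lg_prod {ι : Type} (S : Finset ι) {z : ι → k} (h : ∀ i ∈ S, z i ≠ 0) :
    lg ν (∏ i ∈ S, z i) = ∑ i ∈ S, lg ν (z i) := by
  rw [lg, map_prod, Real.log_prod fun i hi => ν.ne_zero (h i hi)]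
  rfl

theorem NA.sub_le (h : NA ν ℓ) (u z : k) : ν (u - z) ≤ max (ν u) (ν z) := by
  have := h.na u (-z)
  rwa [ν.map_neg, ← sub_eq_add_neg] at this

theorem NA.tri (h : NA ν ℓ) (u z t : k) : ν (u - t) ≤ max (ν (u - z)) (ν (z - t)) := by
  have := h.na (u - z) (z - t)
  rwa [sub_add_sub_cancel] at this

theorem NA.eq_of_lt (h : NA ν ℓ) {u z : k} (hlt : ν (u - z) < ν z) : ν u = ν z := by
  have h1 := h.na (u - z) z
  rw [sub_add_cancel, max_eq_right hlt.le] at h1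
  have h2 := h.sub_le u (u - z)
  rw [sub_sub_cancel, le_max_iff] at h2
  exact le_antisymm h1 (h2.resolve_right hlt.not_ge)

/-- Isosceles triangles. -/
theorem NA.iso (h : NA ν ℓ) {u z t : k} (hlt : ν (u - z) < ν (z - t)) :
    ν (u - t) = ν (z - t) := by
  exact h.eq_of_lt (by rwa [sub_sub_sub_cancel_right])

theorem NA.sum_le (h : NA ν ℓ) {ι : Type} (S : Finset ι) {z : ι → k} {c : ℝ} (hc : 0 ≤ c)
    (H : ∀ i ∈ S, ν (z i) ≤ c) : ν (∑ i ∈ S, z i) ≤ c := by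
  refine Finset.sum_induction z (fun w => ν w ≤ c) (fun a b ha hb => ?_) (by simpa using hc) H
  exact (h.na a b).trans (max_le ha hb)

theorem NA.sum_lt (h : NA ν ℓ) {ι : Type} (S : Finset ι) {z : ι → k} {c : ℝ} (hc : 0 < c)
    (H : ∀ i ∈ S, ν (z i) < c) : ν (∑ i ∈ S, z i) < c := by
  refine Finset.sum_induction z (fun w => ν w < c) (fun a b ha hb => ?_) (by simpa using hc) H
  exact (h.na a b).trans_lt (max_lt ha hb)

theorem NA.mul_sub_one (h : NA ν ℓ) {t : ℝ} (ht : t ≤ 1) {u z : k} (hu : ν (u - 1) ≤ t)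
    (hz : ν (z - 1) ≤ t) : ν (u * z - 1) ≤ t := by
  have h1 : ν u ≤ 1 := by
    have := h.na (u - 1) 1
    rw [sub_add_cancel, map_one] at this
    exact this.trans (max_le (hu.trans ht) le_rfl)
  have h2 := h.na (u * (z - 1)) (u - 1)
  rw [show u * (z - 1) + (u - 1) = u * z - 1 by ring, map_mul] at h2
  exact h2.trans (max_le ((mul_le_of_le_one_left (ν.nonneg _) h1).trans hz) hu)

theorem NA.prod_sub_one (h : NA ν ℓ) {t : ℝ} (h0 : 0 ≤ t) (ht : t ≤ 1) (S : Multiset k)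
    (H : ∀ z ∈ S, ν (z - 1) ≤ t) : ν (S.prod - 1) ≤ t := by
  exact Multiset.prod_induction (fun w => ν (w - 1) ≤ t) S
    (fun a b ha hb => h.mul_sub_one ht ha hb) (by simpa using h0) H

theorem NA.pow_sub_one (h : NA ν ℓ) {t : ℝ} (h0 : 0 ≤ t) (ht : t ≤ 1) {z : k}
    (hz : ν (z - 1) ≤ t) (n : ℕ) : ν (z ^ n - 1) ≤ t := by
  induction n with
  | zero => simpa using h0
  | succ n ih =>
    rw [pow_succ]
    exact h.mul_sub_one ht ih hz

theorem abs_root_one (hℓ : ℓ ≠ 0) {z : k} (hz : z ^ ℓ = 1) : ν z = 1 := by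
  have := congrArg ν hz
  rw [map_pow, map_one] at this
  exact (pow_eq_one_iff_of_nonneg (ν.nonneg _) hℓ).1 this

/-- `u ^ ℓ - z ^ ℓ = (u - z) * ∑ u ^ i * z ^ (ℓ - 1 - i)` and the sum is congruent to `ℓ`. -/
theorem NA.pow_sub_pow (h : NA ν ℓ) {u z : k} (hu : ν (u - 1) < 1) (hz : ν (z - 1) < 1) :
    ν (u ^ ℓ - z ^ ℓ) = ν (u - z) := by
  have ht : max (ν (u - 1)) (ν (z - 1)) < 1 := max_lt hu hz
  have h0 : 0 ≤ max (ν (u - 1)) (ν (z - 1)) := le_max_of_le_left (ν.nonneg _)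
  have h1 : ν ((∑ i ∈ range ℓ, u ^ i * z ^ (ℓ - 1 - i)) - ℓ) < ν (ℓ : k) := by
    have e : (∑ i ∈ range ℓ, u ^ i * z ^ (ℓ - 1 - i)) - ℓ =
        ∑ i ∈ range ℓ, (u ^ i * z ^ (ℓ - 1 - i) - 1) := by
      simp [Finset.sum_sub_distrib]
    rw [e, h.one]
    exact (h.sum_le _ h0 fun i _ => h.mul_sub_one ht.le
      (h.pow_sub_one h0 ht.le (le_max_left _ _) _)
      (h.pow_sub_one h0 ht.le (le_max_right _ _) _)).trans_lt ht
  rw [← geom_sum₂_mul, map_mul, h.eq_of_lt h1, h.one, one_mul]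

/-- `1 - u = ∏ (1 - z)` over the roots `z` of `X ^ ℓ - C u`. -/
theorem NA.exists_root (h : NA ν ℓ) {u : k} (hu : ν (u - 1) < 1) :
    ∃ z : k, z ^ ℓ = u ∧ ν (z - 1) < 1 := by
  have hℓ : ℓ ≠ 0 := by
    rintro rfl
    simpa using h.one
  by_contra hc
  push Not at hc
  have hm := monic_X_pow_sub_C u hℓ
  have h1 := (IsAlgClosed.splits (X ^ ℓ - C u : k[X])).eval_eq_prod_roots_of_monic hm 1
  have h2 : 1 ≤ ν ((X ^ ℓ - C u : k[X]).roots.map fun a => 1 - a).prod := by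
    refine Multiset.prod_induction (fun w => 1 ≤ ν w) _ (fun a b ha hb => ?_) (by simp) ?_
    · rw [map_mul]
      exact one_le_mul_of_one_le_of_one_le ha hb
    · intro w hw
      obtain ⟨a, ha, rfl⟩ := Multiset.mem_map.1 hw
      have h3 := (mem_roots hm.ne_zero).1 ha
      rw [ν.map_sub]
      exact hc a (by simpa [sub_eq_zero] using h3)
  rw [← h1, eval_sub, eval_pow, eval_X, eval_C, one_pow, ν.map_sub] at h2
  exact hu.not_ge h2

/-- The value group is dense: take roots and powers of an element with `1 < ν z`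
(`exists_rat_btwn`, `IsAlgClosed.exists_pow_nat_eq`). -/
theorem NA.dense (h : NA ν ℓ) {r₁ r₂ : ℝ} (hr : r₁ < r₂) :
    ∃ z : k, z ≠ 0 ∧ r₁ < lg ν z ∧ lg ν z < r₂ := by
  obtain ⟨w, hw⟩ := h.nt
  have hw0 : w ≠ 0 := by
    rintro rfl
    norm_num at hw
  have hl : 0 < lg ν w := Real.log_pos hw
  obtain ⟨q, q1, q2⟩ := exists_rat_btwn (div_lt_div_of_pos_right hr hl)
  obtain ⟨z, hz⟩ := IsAlgClosed.exists_pow_nat_eq (w ^ q.num) q.den_pos
  have e : lg ν z = q * lg ν w := by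
    have h1 := lg_pow (ν := ν) z q.den
    rw [hz, lg_zpow] at h1
    have h2 : (q.den : ℝ) ≠ 0 := Nat.cast_ne_zero.2 q.den_nz
    rw [Rat.cast_def]
    field_simp
    linarith
  refine ⟨z, ?_, ?_, ?_⟩
  · rintro rfl
    rw [zero_pow q.den_nz] at hz
    exact zpow_ne_zero _ hw0 hz.symm
  · rw [e]
    exact (div_lt_iff₀ hl).1 q1
  · rw [e]
    exact (lt_div_iff₀ hl).1 q2

theorem Near.mono {b ρ : k} {R ε ε' : ℝ} {up : Bool} (h : Near ν b R up ε ρ) (hε : ε ≤ ε') :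
    Near ν b R up ε' ρ := by
  exact ⟨h.1, h.2.1.trans_le hε, h.2.2⟩

theorem NA.near_exists (h : NA ν ℓ) (b : k) (R : ℝ) (up : Bool) {ε : ℝ} (hε : 0 < ε) :
    ∃ ρ, Near ν b R up ε ρ := by
  cases up with
  | true =>
    obtain ⟨z, h0, h1, h2⟩ := h.dense (r₁ := Real.log R) (r₂ := Real.log R + ε) (by linarith)
    have e : hh ν b R (z + b) = lg ν z - Real.log R := by rw [hh, add_sub_cancel_right]
    refine ⟨z + b, by simpa using h0, ?_, fun _ => ?_, fun h => absurd h (by simp)⟩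
    · rw [e, abs_lt]
      constructor <;> linarith
    · rw [e]
      linarith
  | false =>
    obtain ⟨z, h0, h1, h2⟩ := h.dense (r₁ := Real.log R - ε) (r₂ := Real.log R) (by linarith)
    have e : hh ν b R (z + b) = lg ν z - Real.log R := by rw [hh, add_sub_cancel_right]
    refine ⟨z + b, by simpa using h0, ?_, fun h => absurd h (by simp), fun _ => ?_⟩
    · rw [e, abs_lt]
      constructor <;> linarith
    · rw [e]
      linarith

theorem NA.near_le (h : NA ν ℓ) {b : k} {R : ℝ} {up : Bool} {ε p p' C : ℝ} (hε : 0 < ε)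
    (H : ∀ ρ, Near ν b R up ε ρ → p ≤ p' + C * |hh ν b R ρ|) : p ≤ p' := by
  refine le_of_forall_pos_le_add fun δ hδ => ?_
  have h1 : 0 < |C| + 1 := by positivity
  obtain ⟨ρ, hρ⟩ := h.near_exists b R up (lt_min hε (div_pos hδ h1))
  have h2 := H ρ (hρ.mono (min_le_left _ _))
  have h3 := (lt_div_iff₀ h1).1 (hρ.2.1.trans_le (min_le_right _ _))
  have h4 := abs_nonneg (hh ν b R ρ)
  nlinarith [le_abs_self C]

theorem NA.near_eq (h : NA ν ℓ) {b : k} {R : ℝ} {up : Bool} {ε p q p' q' : ℝ} (hε : 0 < ε)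
    (H : ∀ ρ, Near ν b R up ε ρ → p + q * hh ν b R ρ = p' + q' * hh ν b R ρ) :
    p = p' ∧ q = q' := by
  have key : ∀ {p q p' q' : ℝ}, (∀ ρ, Near ν b R up ε ρ →
      p + q * hh ν b R ρ = p' + q' * hh ν b R ρ) → p ≤ p' := fun {p q p' q'} H =>
    h.near_le (C := |q' - q|) hε fun ρ hρ => by
      have h1 := H ρ hρ
      have h2 := le_abs_self ((q' - q) * hh ν b R ρ)
      rw [abs_mul] at h2
      linarith
  have e : p = p' := le_antisymm (key H) (key fun ρ hρ => (H ρ hρ).symm)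
  obtain ⟨ρ, hρ⟩ := h.near_exists b R up hε
  have h1 := H ρ hρ
  have h2 : hh ν b R ρ ≠ 0 := by
    cases up with
    | true => exact (hρ.2.2.1 rfl).ne'
    | false => exact (hρ.2.2.2 rfl).ne
  exact ⟨e, mul_right_cancel₀ h2 (by linarith)⟩

end Pool.Agent.Lib.MP_07b2d0_nt.Ks
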