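import Mathlib
import Pool.Agent.Lib.MP_07b2d0_nt.KE1

set_option autoImplicit false
set_option linter.unusedSectionVars false
set_option linter.unusedVariables false

namespace Pool.Agent.Lib.MP_07b2d0_nt.Ks

open Polynomial Finset
open scoped Polynomial.Bivariate

variable {k : Type} [Field k] [IsAlgClosed k] [CharZero k] {ν : AbsoluteValue k ℝ} {ℓ : ℕ}
  {f : k[X]}

variable {b b' : k} {R : ℝ} {up : Bool} {A B : k[X]}

theorem mu_center (h : NA ν ℓ) (hb : ν (b' - b) ≤ R) (A : k[X]) : mu ν b' R A = mu ν b R A := by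
  unfold mu
  congr 2
  refine Multiset.map_congr rfl fun τ _ => ?_
  congr 1
  have h1 := h.tri τ b b'
  have h2 := h.tri τ b' b
  rw [ν.map_sub b b'] at h1
  apply le_antisymm
  · exact max_le (h1.trans (max_le_max le_rfl hb)) (le_max_right _ _)
  · exact max_le (h2.trans (max_le_max le_rfl hb)) (le_max_right _ _)

theorem cnt_center_true (h : NA ν ℓ) (hb : ν (b' - b) ≤ R) (A : k[X]) :
    cnt ν b' R true A = cnt ν b R true A := by
  unfold cnt
  congr 1
  refine Multiset.filter_congr fun τ _ => ?_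
  have h1 := h.tri τ b b'
  have h2 := h.tri τ b' b
  rw [ν.map_sub b b'] at h1
  simp only [true_and, ← le_iff_lt_or_eq]
  constructor
  · intro H
    exact h2.trans (max_le H hb)
  · intro H
    exact h1.trans (max_le H hb)

theorem cnt_center_false (h : NA ν ℓ) (hb : ν (b' - b) < R) (A : k[X]) :
    cnt ν b' R false A = cnt ν b R false A := by
  unfold cnt
  congr 1
  refine Multiset.filter_congr fun τ _ => ?_
  have h1 := h.tri τ b b'
  have h2 := h.tri τ b' b
  rw [ν.map_sub b b'] at h1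
  simp only [Bool.false_eq_true, false_and, or_false]
  constructor
  · intro H
    exact h2.trans_lt (max_lt H hb)
  · intro H
    exact h1.trans_lt (max_lt H hb)

theorem cnt_mul (hA : A ≠ 0) (hB : B ≠ 0) :
    cnt ν b R up (A * B) = cnt ν b R up A + cnt ν b R up B := by
  unfold cnt
  rw [roots_mul (mul_ne_zero hA hB), Multiset.filter_add, Multiset.card_add]

theorem cnt_pow (n : ℕ) : cnt ν b R up (A ^ n) = n * cnt ν b R up A := by
  unfold cnt
  rw [roots_pow, Multiset.filter_nsmul, Multiset.card_nsmul]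

theorem cnt_X_sub_C (hR : 0 < R) : cnt ν b R up (X - C b) = 1 := by
  unfold cnt
  rw [roots_X_sub_C, Multiset.filter_singleton]
  simp [hR]

theorem cnt_congr {R' : ℝ} {up' : Bool}
    (H : ∀ τ, A.IsRoot τ → ((ν (τ - b) < R ∨ (up = true ∧ ν (τ - b) = R)) ↔
      (ν (τ - b') < R' ∨ (up' = true ∧ ν (τ - b') = R')))) :
    cnt ν b R up A = cnt ν b' R' up' A := by
  unfold cnt
  congr 1
  exact Multiset.filter_congr fun τ hτ => H τ (isRoot_of_mem_roots hτ)

theorem cnt_all (H : ∀ τ, A.IsRoot τ → ν (τ - b) ≤ R) : cnt ν b R true A = A.natDegree := by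
  unfold cnt
  rw [Multiset.filter_eq_self.2, IsAlgClosed.card_roots_eq_natDegree]
  intro τ hτ
  simp only [true_and, ← le_iff_lt_or_eq]
  exact H τ (isRoot_of_mem_roots hτ)

theorem cnt_single (hR : 0 < R) (H : ∀ τ, A.IsRoot τ → ν (τ - b) < R → τ = b) :
    cnt ν b R false A = A.rootMultiplicity b := by
  classical
  unfold cnt
  rw [← count_roots, Multiset.count_eq_card_filter_eq]
  congr 1
  refine Multiset.filter_congr fun τ hτ => ?_
  simp only [Bool.false_eq_true, false_and, or_false]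
  constructor
  · intro hlt
    exact (H τ (isRoot_of_mem_roots hτ) hlt).symm
  · rintro rfl
    simpa using hR

open Classical in
theorem cnt_prod {ι : Type} [Fintype ι] {c : k} (hc : c ≠ 0) (a : ι → k) (w : ι → ℕ) :
    cnt ν b R false (C c * ∏ i, (X - C (a i)) ^ w i) =
      ∑ i ∈ univ.filter fun i => ν (a i - b) < R, w i := by
  have key : ∀ S : Finset ι, cnt ν b R false (∏ i ∈ S, (X - C (a i)) ^ w i) =
      ∑ i ∈ S.filter fun i => ν (a i - b) < R, w i := by
    intro S
    induction S using Finset.induction_on with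
    | empty => simp [cnt]
    | insert j S hj ih =>
      have hne : (∏ i ∈ S, (X - C (a i)) ^ w i : k[X]) ≠ 0 :=
        Finset.prod_ne_zero_iff.2 fun i _ => pow_ne_zero _ (X_sub_C_ne_zero _)
      rw [Finset.prod_insert hj, cnt_mul (pow_ne_zero _ (X_sub_C_ne_zero _)) hne, ih, cnt_pow,
        Finset.filter_insert]
      have h1 : cnt ν b R false (X - C (a j)) = if ν (a j - b) < R then 1 else 0 := by
        unfold cnt
        rw [roots_X_sub_C, Multiset.filter_singleton]
        by_cases h2 : ν (a j - b) < R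
        · simp [h2]
        · simp [h2]
      rw [h1]
      split_ifs with h2
      · rw [Finset.sum_insert (by simp [hj]), mul_one]
      · simp
  rw [← key]
  unfold cnt
  rw [roots_C_mul _ hc]

/-- One linear factor: for small `ε` and `ρ` near the circle, `ν (ρ - τ)` is `ν (ρ - b)` if `τ` is
counted by `cnt` and `ν (τ - b)` otherwise. -/
theorem near_linear (h : NA ν ℓ) (hR : 0 < R) (b τ : k) (up : Bool) :
    ∃ ε > 0, ∀ ρ, Near ν b R up ε ρ → ρ ≠ τ ∧
      ((ν (τ - b) < R ∨ (up = true ∧ ν (τ - b) = R)) → ν (ρ - τ) = ν (ρ - b)) ∧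
      (¬ (ν (τ - b) < R ∨ (up = true ∧ ν (τ - b) = R)) → ν (ρ - τ) = ν (τ - b)) := by
  have main : ∃ ε > 0, ∀ ρ, Near ν b R up ε ρ →
      ((ν (τ - b) < R ∨ (up = true ∧ ν (τ - b) = R)) → ν (τ - b) < ν (ρ - b)) ∧
      (¬ (ν (τ - b) < R ∨ (up = true ∧ ν (τ - b) = R)) → ν (ρ - b) < ν (τ - b)) := by
    rcases lt_trichotomy (ν (τ - b)) R with hd | hd | hd
    · by_cases h0 : ν (τ - b) = 0
      · refine ⟨1, one_pos, fun ρ hρ => ⟨fun _ => ?_, fun hn => absurd (Or.inl hd) hn⟩⟩
        rw [h0]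
        exact ν.pos (sub_ne_zero.2 hρ.1)
      · have hp : 0 < ν (τ - b) := lt_of_le_of_ne (ν.nonneg _) (Ne.symm h0)
        refine ⟨Real.log R - Real.log (ν (τ - b)), sub_pos.2 (Real.log_lt_log hp hd),
          fun ρ hρ => ⟨fun _ => ?_, fun hn => absurd (Or.inl hd) hn⟩⟩
        have hr : 0 < ν (ρ - b) := ν.pos (sub_ne_zero.2 hρ.1)
        have h1 := (abs_lt.1 hρ.2.1).1
        unfold hh lg at h1
        exact (Real.log_lt_log_iff hp hr).1 (by linarith)
    · refine ⟨1, one_pos, fun ρ hρ => ?_⟩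
      have hr : 0 < ν (ρ - b) := ν.pos (sub_ne_zero.2 hρ.1)
      constructor
      · rintro (H | ⟨H, -⟩)
        · exact absurd hd H.ne
        · have h1 := hρ.2.2.1 H
          unfold hh lg at h1
          rw [hd]
          exact (Real.log_lt_log_iff hR hr).1 (by linarith)
      · intro H
        have hu : up = false := by
          cases up
          · rfl
          · exact absurd (Or.inr ⟨rfl, hd⟩) H
        have h1 := hρ.2.2.2 hu
        unfold hh lg at h1
        rw [hd]
        exact (Real.log_lt_log_iff hr hR).1 (by linarith)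
    · refine ⟨Real.log (ν (τ - b)) - Real.log R, sub_pos.2 (Real.log_lt_log hR hd),
        fun ρ hρ => ⟨?_, fun _ => ?_⟩⟩
      · rintro (H | ⟨-, H⟩)
        · exact absurd hd (not_lt.2 H.le)
        · exact absurd H hd.ne'
      · have hr : 0 < ν (ρ - b) := ν.pos (sub_ne_zero.2 hρ.1)
        have h1 := (abs_lt.1 hρ.2.1).2
        unfold hh lg at h1
        exact (Real.log_lt_log_iff hr (hR.trans hd)).1 (by linarith)
  obtain ⟨ε, hε, H⟩ := main
  refine ⟨ε, hε, fun ρ hρ => ?_⟩
  obtain ⟨H1, H2⟩ := H ρ hρ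
  refine ⟨?_, fun hc => ?_, fun hc => ?_⟩
  · rintro rfl
    by_cases hc : ν (ρ - b) < R ∨ (up = true ∧ ν (ρ - b) = R)
    · exact lt_irrefl _ (H1 hc)
    · exact lt_irrefl _ (H2 hc)
  · have h1 := H1 hc
    rw [ν.map_sub ρ b] at h1
    have h2 := h.iso h1
    rw [ν.map_sub ρ τ, h2, ν.map_sub]
  · have h1 := H2 hc
    rw [ν.map_sub τ b] at h1
    have h2 := h.iso h1
    rw [h2, ν.map_sub]

/-- Factor `A` (`Splits.eq_prod_roots` / `C_leadingCoeff_mul_prod_multiset_X_sub_C`) and induct on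
the multiset of roots. -/
theorem poly_near (h : NA ν ℓ) (hR : 0 < R) (hA : A ≠ 0) (b : k) (up : Bool) :
    ∃ ε > 0, ∀ ρ, Near ν b R up ε ρ → A.eval ρ ≠ 0 ∧
      lg ν (A.eval ρ) = mu ν b R A + cnt ν b R up A * hh ν b R ρ := by
  classical
  have key : ∀ S : Multiset k, ∃ ε > 0, ∀ ρ, Near ν b R up ε ρ →
      (S.map fun τ => ρ - τ).prod ≠ 0 ∧ lg ν (S.map fun τ => ρ - τ).prod =
        (S.map fun τ => Real.log (max (ν (τ - b)) R)).sum +
          ((S.filter fun τ => ν (τ - b) < R ∨ (up = true ∧ ν (τ - b) = R)).card : ℕ) *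
            hh ν b R ρ := by
    intro S
    induction S using Multiset.induction_on with
    | empty => exact ⟨1, one_pos, fun ρ _ => by simp [lg]⟩
    | cons τ S ih =>
      obtain ⟨ε, hε, H⟩ := ih
      obtain ⟨ε', hε', H'⟩ := near_linear h hR b τ up
      refine ⟨min ε ε', lt_min hε hε', fun ρ hρ => ?_⟩
      obtain ⟨H1, H2⟩ := H ρ (hρ.mono (min_le_left _ _))
      obtain ⟨H3, H4, H5⟩ := H' ρ (hρ.mono (min_le_right _ _))
      have hne : ρ - τ ≠ 0 := sub_ne_zero.2 H3
      rw [Multiset.map_cons, Multiset.prod_cons, Multiset.map_cons, Multiset.sum_cons]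
      refine ⟨mul_ne_zero hne H1, ?_⟩
      rw [lg_mul hne H1, H2]
      by_cases hc : ν (τ - b) < R ∨ (up = true ∧ ν (τ - b) = R)
      · rw [Multiset.filter_cons_of_pos (p := fun τ => ν (τ - b) < R ∨ (up = true ∧ ν (τ - b) = R))
          _ hc, Multiset.card_cons]
        have hle : ν (τ - b) ≤ R := by
          rcases hc with hc | hc
          · exact hc.le
          · exact hc.2.le
        have e1 : lg ν (ρ - τ) = lg ν (ρ - b) := by unfold lg; rw [H4 hc]
        rw [max_eq_right hle, e1]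
        push_cast
        unfold hh
        ring
      · rw [Multiset.filter_cons_of_neg (p := fun τ => ν (τ - b) < R ∨ (up = true ∧ ν (τ - b) = R))
          _ hc]
        have hle : R ≤ ν (τ - b) := not_lt.1 fun hlt => hc (Or.inl hlt)
        have e1 : lg ν (ρ - τ) = Real.log (ν (τ - b)) := by unfold lg; rw [H5 hc]
        rw [max_eq_left hle, e1]
        ring
  obtain ⟨ε, hε, H⟩ := key A.roots
  refine ⟨ε, hε, fun ρ hρ => ?_⟩
  obtain ⟨H1, H2⟩ := H ρ hρ
  have hl : A.leadingCoeff ≠ 0 := leadingCoeff_ne_zero.2 hA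
  have e : A.eval ρ = A.leadingCoeff * (A.roots.map fun τ => ρ - τ).prod := by
    conv_lhs => rw [← C_leadingCoeff_mul_prod_multiset_X_sub_C
      (IsAlgClosed.card_roots_eq_natDegree (p := A))]
    rw [eval_mul, eval_C, eval_multiset_prod, Multiset.map_map]
    simp
  rw [e]
  refine ⟨mul_ne_zero hl H1, ?_⟩
  rw [lg_mul hl H1, H2]
  unfold mu cnt
  rw [add_assoc]

end Pool.Agent.Lib.MP_07b2d0_nt.Ks
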