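import Mathlib
import Pool.Agent.Lib.MP_07b2d0_nt.KE2

set_option autoImplicit false
set_option linter.unusedSectionVars false
set_option linter.unusedVariables false

namespace Pool.Agent.Lib.MP_07b2d0_nt.Ks

open Polynomial Finset
open scoped Polynomial.Bivariate

variable {k : Type} [Field k] [IsAlgClosed k] [CharZero k] {ν : AbsoluteValue k ℝ} {ℓ : ℕ}
  {f : k[X]}
variable (D : Reg ν ℓ f)

theorem ke6_near {w η : k} (hw : w ≠ 0) : ν (η - w) < ν w ↔ ν (η / w - 1) < 1 := by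
  rw [div_sub_one hw, map_div₀, div_lt_one (ν.pos hw)]

theorem Reg.R0_pos : 0 < D.R0 := by
  obtain ⟨b, hb⟩ := D.ne
  exact (D.pos b hb).trans (D.lt b hb)

theorem Reg.om_of_omt {t : ℝ} (h0 : 0 < t) (h1 : t < 1) {ρ : k} (h : D.Omt t ρ) : D.Om ρ := by
  refine ⟨h.1.trans_lt (mul_lt_of_lt_one_left D.R0_pos h1), fun b hb => ?_⟩
  have e1 := h.2 b hb
  have e2 := D.pos b hb
  have e3 : 0 < ν (ρ - b) := (pos_iff_pos_of_mul_pos (e2.trans_le e1)).1 h0
  exact e1.trans_lt (mul_lt_of_lt_one_left e3 h1)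

theorem Reg.omt_mono {t t' : ℝ} (ht : t ≤ t') {ρ : k} (h : D.Omt t ρ) : D.Omt t' ρ := by
  exact ⟨h.1.trans (mul_le_mul_of_nonneg_right ht D.R0_pos.le),
    fun b hb => (h.2 b hb).trans (mul_le_mul_of_nonneg_right ht (ν.nonneg _))⟩

theorem Reg.exists_omt {ρ : k} (h : D.Om ρ) {t₀ : ℝ} (h0 : 0 < t₀) (h1 : t₀ < 1) :
    ∃ t, t₀ ≤ t ∧ t < 1 ∧ D.Omt t ρ := by
  have key : ∀ u v : ℝ, u < v → ∀ᶠ t in nhdsWithin (1 : ℝ) (Set.Iio 1), u ≤ t * v := by
    intro u v huv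
    refine Filter.Eventually.filter_mono nhdsWithin_le_nhds ?_
    have hc : ContinuousAt (fun t : ℝ => t * v) 1 := by fun_prop
    exact (hc.eventually (lt_mem_nhds (show u < 1 * v by rwa [one_mul]))).mono fun t ht => ht.le
  have e0 := key t₀ 1 h1
  have e1 := key _ _ h.1
  have e2 : ∀ᶠ t in nhdsWithin (1 : ℝ) (Set.Iio 1), ∀ b ∈ D.T, D.R b ≤ t * ν (ρ - b) :=
    (Filter.eventually_all_finset D.T).2 fun b hb => key _ _ (h.2 b hb)
  obtain ⟨t, a0, a1, a2, a3⟩ := (e0.and (e1.and (e2.and self_mem_nhdsWithin))).exists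
  exact ⟨t, by simpa using a0, a3, a1, a2⟩

theorem Reg.sub_ne {ρ : k} (h : D.Om ρ) {b : k} (hb : b ∈ D.T) : ρ - b ≠ 0 := by
  intro e
  have e1 := h.2 b hb
  rw [e, map_zero] at e1
  exact lt_asymm e1 (D.pos b hb)

theorem Reg.g0_ne {ρ : k} (h : D.Om ρ) : D.g0.eval ρ ≠ 0 := by
  rw [Reg.g0, eval_prod]
  refine prod_ne_zero_iff.2 fun b hb => ?_
  simpa using fun e => absurd e (D.sub_ne h hb)

theorem Reg.lg_g0 {ρ : k} (h : D.Om ρ) :
    lg ν (D.g0.eval ρ) = ∑ b ∈ D.T, D.kk b * lg ν (ρ - b) := by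
  rw [Reg.g0, eval_prod, lg_prod]
  · refine sum_congr rfl fun b _ => ?_
    rw [eval_pow, lg_pow]
    simp
  · intro b hb
    simpa using fun e => absurd e (D.sub_ne h hb)

theorem Reg.kap_ne (hf : f ≠ 0) : D.kap ≠ 0 := by
  classical
  refine mul_ne_zero (leadingCoeff_ne_zero.2 hf) (Multiset.prod_ne_zero fun h0 => ?_)
  obtain ⟨τ, hτ, e⟩ := Multiset.mem_map.1 h0
  have e1 := (Multiset.mem_filter.1 hτ).2
  rw [← sub_eq_zero.1 e, sub_self, map_zero] at e1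
  exact absurd D.R0_pos (not_lt.2 e1)

theorem Reg.f_ne {ρ : k} (h : D.Om ρ) (hf : f ≠ 0) : f.eval ρ ≠ 0 := by
  intro e
  obtain ⟨b, hb, e1⟩ := D.cov ρ e h.1
  exact absurd (h.2 b hb) (not_lt.2 e1)

/-- Sketch: `f(ρ) = lead * ∏ (ρ - τ)` over the multiset of roots.  Define `c τ = a0 - τ` if
`R0 ≤ ν (τ - a0)`, and `c τ = ρ - b` if `τ` lies in the closed disc of `b ∈ T` (`cov`; the discs are
disjoint by `sep` and lie in the open disc by `lt`, `ins`).  Then `ν ((ρ - τ) / c τ - 1) ≤ t` for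
every root, and `lead * ∏ c τ = kap * g0(ρ) ^ ℓ` by `wt` (split the multiset of roots into the
outer part and the parts `filter (ν (τ - b) ≤ R b)`).  Use `NA.prod_sub_one`. -/
theorem Reg.approx (h : NA ν ℓ) (hf : f ≠ 0) {t : ℝ} (h0 : 0 < t) (h1 : t < 1) {ρ : k}
    (hρ : D.Omt t ρ) : ν (f.eval ρ / (D.kap * D.g0.eval ρ ^ ℓ) - 1) ≤ t := by
  classical
  have hom := D.om_of_omt h0 h1 hρ
  have hR := D.R0_pos
  let cc : k → k := fun τ => (if D.R0 ≤ ν (τ - D.a0) then D.a0 - τ else 1) *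
    ∏ b ∈ D.T, if ν (τ - b) ≤ D.R b then ρ - b else 1
  have e1 : ∀ s : Multiset k, (s.map cc).prod =
      ((s.filter fun τ => D.R0 ≤ ν (τ - D.a0)).map fun τ => D.a0 - τ).prod *
        ∏ b ∈ D.T, (ρ - b) ^ (s.filter fun τ => ν (τ - b) ≤ D.R b).card := by
    intro s
    induction s using Multiset.induction_on with
    | empty => simp
    | cons τ s ih =>
      rw [Multiset.map_cons, Multiset.prod_cons, ih, mul_mul_mul_comm, ← prod_mul_distrib]
      congr 1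
      · by_cases hτ : D.R0 ≤ ν (τ - D.a0) <;> simp [hτ]
      · refine prod_congr rfl fun b _ => ?_
        by_cases hτ : ν (τ - b) ≤ D.R b <;> simp [hτ, pow_succ']
  have e2 : D.kap * D.g0.eval ρ ^ ℓ = f.leadingCoeff * (f.roots.map cc).prod := by
    rw [e1, Reg.kap, Reg.g0, eval_prod, ← prod_pow, mul_assoc]
    congr 2
    refine prod_congr rfl fun b hb => ?_
    have e3 := D.wt b hb
    unfold cnt at e3
    rw [eval_pow, eval_sub, eval_X, eval_C, ← pow_mul, mul_comm, ← e3]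
    congr 2
    exact Multiset.filter_congr fun τ _ => by simp [le_iff_lt_or_eq]
  have e4 : f.eval ρ = f.leadingCoeff * (f.roots.map fun τ => ρ - τ).prod := by
    conv_lhs => rw [← C_leadingCoeff_mul_prod_multiset_X_sub_C
      (IsAlgClosed.card_roots_eq_natDegree (p := f))]
    rw [eval_mul, eval_C, eval_multiset_prod, Multiset.map_map]
    simp
  rw [e2, e4, mul_div_mul_left _ _ (leadingCoeff_ne_zero.2 hf), ← Multiset.prod_map_div]
  refine h.prod_sub_one h0.le h1.le _ fun z hz => ?_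
  obtain ⟨τ, hτ, rfl⟩ := Multiset.mem_map.1 hz
  have hτ' : f.IsRoot τ := (mem_roots hf).1 hτ
  by_cases ho : D.R0 ≤ ν (τ - D.a0)
  · have e5 : cc τ = D.a0 - τ := by
      simp only [cc]
      rw [if_pos ho, prod_eq_one, mul_one]
      intro b hb
      refine if_neg fun e => ?_
      have e6 := h.tri τ b D.a0
      have e7 := e.trans_lt (D.lt b hb)
      exact absurd (e6.trans_lt (max_lt e7 (D.ins b hb))) (not_lt.2 ho)
    have e8 : ν (D.a0 - τ) = ν (τ - D.a0) := ν.map_sub _ _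
    have e9 : 0 < ν (D.a0 - τ) := by rw [e8]; exact hR.trans_le ho
    have e10 : D.a0 - τ ≠ 0 := ν.pos_iff.1 e9
    rw [e5, show (ρ - τ) / (D.a0 - τ) - 1 = (ρ - D.a0) / (D.a0 - τ) by field_simp; ring,
      map_div₀, div_le_iff₀ e9, e8]
    exact hρ.1.trans (mul_le_mul_of_nonneg_left ho h0.le)
  · obtain ⟨b, hb, hbτ⟩ := D.cov τ hτ' (not_le.1 ho)
    have e5 : cc τ = ρ - b := by
      simp only [cc]
      rw [if_neg ho, one_mul, prod_eq_single_of_mem b hb, if_pos hbτ]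
      intro b' hb' hne
      refine if_neg fun e => ?_
      have e6 := h.tri b τ b'
      have e7 := D.sep b hb b' hb' hne.symm
      have e8 := D.sep b' hb' b hb hne
      rw [ν.map_sub b' b] at e8
      rw [ν.map_sub b τ] at e6
      exact absurd (e6.trans_lt (max_lt (hbτ.trans_lt e7) (e.trans_lt e8)))
        (lt_irrefl _)
    have e10 : ρ - b ≠ 0 := D.sub_ne hom hb
    rw [e5, show (ρ - τ) / (ρ - b) - 1 = (b - τ) / (ρ - b) by field_simp; ring,
      map_div₀, div_le_iff₀ (ν.pos e10), ν.map_sub b τ]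
    exact hbτ.trans (hρ.2 b hb)

theorem Reg.sheet_iff (hf : f ≠ 0) {c ρ η : k} (hc : c ≠ 0) (hρ : D.Om ρ) :
    D.Sheet c ρ η ↔ η ^ ℓ = f.eval ρ ∧ ν (η / (c * D.g0.eval ρ) - 1) < 1 := by
  exact and_congr_right fun _ => ke6_near (mul_ne_zero hc (D.g0_ne hρ))

/-- `exists_omt`, `approx`, `NA.exists_root`. -/
theorem Reg.sheet_exists (h : NA ν ℓ) (hf : f ≠ 0) {c ρ : k} (hc : c ^ ℓ = D.kap) (hρ : D.Om ρ) :
    ∃ η, D.Sheet c ρ η := by
  obtain ⟨t, t0, t1, ht⟩ := D.exists_omt hρ (t₀ := 1 / 2) (by norm_num) (by norm_num)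
  have e1 := D.approx h hf (by linarith) t1 ht
  obtain ⟨z, hz, hz1⟩ := h.exists_root (e1.trans_lt t1)
  have hk := D.kap_ne hf
  have hg := D.g0_ne hρ
  have hℓ : ℓ ≠ 0 := by
    rintro rfl
    simpa using h.one
  have hc0 : c ≠ 0 := by
    rintro rfl
    exact hk (by rw [← hc, zero_pow hℓ])
  refine ⟨z * (c * D.g0.eval ρ), (D.sheet_iff hf hc0 hρ).2 ⟨?_, ?_⟩⟩
  · rw [mul_pow, mul_pow, hz, hc, div_mul_cancel₀ _ (mul_ne_zero hk (pow_ne_zero _ hg))]
  · rwa [mul_div_cancel_right₀ _ (mul_ne_zero hc0 hg)]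

/-- `NA.pow_sub_pow`. -/
theorem Reg.sheet_unique (h : NA ν ℓ) {c ρ η η' : k} (h1 : D.Sheet c ρ η) (h2 : D.Sheet c ρ η') :
    η = η' := by
  have hw : c * D.g0.eval ρ ≠ 0 := ν.pos_iff.1 ((ν.nonneg _).trans_lt h1.2)
  have e := h.pow_sub_pow ((ke6_near hw).1 h1.2) ((ke6_near hw).1 h2.2)
  rw [div_pow, div_pow, h1.1, h2.1, sub_self, map_zero] at e
  exact (div_left_inj' hw).1 (sub_eq_zero.1 (ν.eq_zero.1 e.symm))

theorem Reg.sheet_mul (hℓ : ℓ ≠ 0) {c ρ η z : k} (hz : z ^ ℓ = 1) (h1 : D.Sheet c ρ η) :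
    D.Sheet (z * c) ρ (z * η) := by
  refine ⟨by rw [mul_pow, hz, one_mul, h1.1], ?_⟩
  rw [mul_assoc, ← mul_sub, map_mul, map_mul ν z, abs_root_one hℓ hz, one_mul, one_mul]
  exact h1.2

theorem Reg.sheet_abs (h : NA ν ℓ) {c ρ η : k} (h1 : D.Sheet c ρ η) :
    ν η = ν (c * D.g0.eval ρ) := by
  exact h.eq_of_lt h1.2

/-- All points of a sheet above the region have bounded coordinates. -/
theorem Reg.bounded (h : NA ν ℓ) (c : k) : ∃ B : ℝ, ∀ ρ, D.Om ρ → ν ρ ≤ B ∧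
    ν (c * D.g0.eval ρ) ≤ B := by
  refine ⟨max (D.R0 + ν D.a0) (ν c * ∏ b ∈ D.T, D.R0 ^ D.kk b), fun ρ hρ =>
    ⟨le_max_of_le_left ?_, le_max_of_le_right ?_⟩⟩
  · have e := ν.add_le (ρ - D.a0) D.a0
    rw [sub_add_cancel] at e
    linarith [hρ.1]
  · rw [map_mul, Reg.g0, eval_prod, map_prod]
    refine mul_le_mul_of_nonneg_left (prod_le_prod (fun b _ => ν.nonneg _) fun b hb => ?_)
      (ν.nonneg c)
    rw [eval_pow, eval_sub, eval_X, eval_C, map_pow]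
    refine pow_le_pow_left₀ (ν.nonneg _) ((h.tri ρ D.a0 b).trans (max_le hρ.1.le ?_)) _
    rw [ν.map_sub]
    exact (D.ins b hb).le

end Pool.Agent.Lib.MP_07b2d0_nt.Ks
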