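import Mathlib
import Pool.Agent.Lib.MP_07b2d0_nt.KE6

set_option autoImplicit false
set_option linter.unusedSectionVars false
set_option linter.unusedVariables false

namespace Pool.Agent.Lib.MP_07b2d0_nt.Ks

open Polynomial Finset
open scoped Polynomial.Bivariate

variable {k : Type} [Field k] [IsAlgClosed k] [CharZero k] {ν : AbsoluteValue k ℝ} {ℓ : ℕ}
  {f : k[X]}

theorem ke7_ind {P : k[X][Y] → Prop} (hC : ∀ a : k, P (C (C a))) (hX : P (C X)) (hY : P Y)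
    (add : ∀ G G', P G → P G' → P (G + G')) (mul : ∀ G G', P G → P G' → P (G * G'))
    (G : k[X][Y]) : P G := by
  have h1 : ∀ a : k[X], P (C a) := fun a => by
    induction a using Polynomial.induction_on with
    | C a => exact hC a
    | add p q hp hq =>
      rw [map_add]
      exact add _ _ hp hq
    | monomial n a ih =>
      rw [pow_succ, ← mul_assoc, map_mul]
      exact mul _ _ ih hX
  induction G using Polynomial.induction_on with
  | C a => exact h1 a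
  | add p q hp hq => exact add _ _ hp hq
  | monomial n a ih =>
    rw [pow_succ, ← mul_assoc]
    exact mul _ _ ih hY

theorem ke7_ne (h : NA ν ℓ) : (ℓ : k) ≠ 0 := fun e => by
  have h1 := h.one
  rw [e, map_zero] at h1
  exact zero_ne_one h1

theorem ke7_nat (h : NA ν ℓ) (m : ℕ) : ν (m : k) ≤ 1 := by
  induction m with
  | zero =>
    rw [Nat.cast_zero, map_zero]
    exact zero_le_one
  | succ m ih =>
    rw [Nat.cast_succ]
    exact (h.na _ _).trans (max_le ih (map_one ν).le)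

theorem ke7_binom (h : NA ν ℓ) {z d : k} (hz : ν z ≤ 1) (hd : ν d ≤ 1) (m : ℕ) :
    ν ((z + d) ^ (m + 1) - z ^ (m + 1) - (m + 1 : ℕ) * z ^ m * d) ≤ ν d ^ 2 := by
  induction m with
  | zero =>
    have e : (z + d) ^ (0 + 1) - z ^ (0 + 1) - (0 + 1 : ℕ) * z ^ 0 * d = 0 := by
      push_cast
      ring
    rw [e, map_zero]
    positivity
  | succ m ih =>
    have e : (z + d) ^ (m + 1 + 1) - z ^ (m + 1 + 1) - (m + 1 + 1 : ℕ) * z ^ (m + 1) * d =
        (z + d) * ((z + d) ^ (m + 1) - z ^ (m + 1) - (m + 1 : ℕ) * z ^ m * d) +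
          (m + 1 : ℕ) * z ^ m * d ^ 2 := by
      push_cast
      ring
    rw [e]
    refine (h.na _ _).trans (max_le ?_ ?_)
    · rw [map_mul]
      exact (mul_le_of_le_one_left (ν.nonneg _) ((h.na _ _).trans (max_le hz hd))).trans ih
    · rw [map_mul, map_mul, map_pow, map_pow]
      exact mul_le_of_le_one_left (by positivity)
        (mul_le_one₀ (ke7_nat h _) (by positivity) (pow_le_one₀ (ν.nonneg _) hz))

/-- The function is a polynomial divided by a power of `g` where `g` does not vanish. -/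
def Ke7Q (g : k[X]) (φ : k → k) : Prop :=
  ∃ (H : k[X]) (N : ℕ), ∀ ρ : k, g.eval ρ ≠ 0 → φ ρ = H.eval ρ / g.eval ρ ^ N

theorem ke7Q_poly (g H : k[X]) : Ke7Q g fun ρ => H.eval ρ :=
  ⟨H, 0, fun ρ _ => by rw [pow_zero, div_one]⟩

theorem Ke7Q.add {g : k[X]} {φ ψ : k → k} (h : Ke7Q g φ) (h' : Ke7Q g ψ) :
    Ke7Q g fun ρ => φ ρ + ψ ρ := by
  obtain ⟨H, N, h⟩ := h
  obtain ⟨H', N', h'⟩ := h'
  refine ⟨H * g ^ N' + g ^ N * H', N + N', fun ρ hρ => ?_⟩
  beta_reduce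
  rw [h ρ hρ, h' ρ hρ, div_add_div _ _ (pow_ne_zero _ hρ) (pow_ne_zero _ hρ), pow_add, eval_add,
    eval_mul, eval_mul, eval_pow, eval_pow]

theorem Ke7Q.mul {g : k[X]} {φ ψ : k → k} (h : Ke7Q g φ) (h' : Ke7Q g ψ) :
    Ke7Q g fun ρ => φ ρ * ψ ρ := by
  obtain ⟨H, N, h⟩ := h
  obtain ⟨H', N', h'⟩ := h'
  refine ⟨H * H', N + N', fun ρ hρ => ?_⟩
  beta_reduce
  rw [h ρ hρ, h' ρ hρ, div_mul_div_comm, pow_add, eval_mul]

/-- Induct on `G` (sums, constants, and multiplication by `C X` and `Y`), or expand in monomials. -/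
theorem NA.lipschitz (h : NA ν ℓ) (G : k[X][Y]) (B : ℝ) : ∃ C : ℝ, 0 < C ∧
    ∀ ρ η ρ' η' : k, ν ρ ≤ B → ν η ≤ B → ν ρ' ≤ B → ν η' ≤ B → ν (G.evalEval ρ η) ≤ C ∧
      ν (G.evalEval ρ η - G.evalEval ρ' η') ≤ C * max (ν (ρ - ρ')) (ν (η - η')) := by
  induction G using ke7_ind with
  | hC a =>
    refine ⟨ν a + 1, by positivity, fun ρ η ρ' η' _ _ _ _ => ⟨?_, ?_⟩⟩
    · rw [evalEval_CC]
      linarith
    · rw [evalEval_CC, evalEval_CC, sub_self, map_zero]
      positivity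
  | hX =>
    refine ⟨max B 1, by positivity, fun ρ η ρ' η' h1 _ _ _ => ⟨?_, ?_⟩⟩
    · rw [evalEval_C, eval_X]
      exact h1.trans (le_max_left _ _)
    · rw [evalEval_C, evalEval_C, eval_X, eval_X]
      exact (le_max_left _ _).trans (le_mul_of_one_le_left (by positivity) (le_max_right _ _))
  | hY =>
    refine ⟨max B 1, by positivity, fun ρ η ρ' η' _ h1 _ _ => ⟨?_, ?_⟩⟩
    · rw [evalEval_X]
      exact h1.trans (le_max_left _ _)
    · rw [evalEval_X, evalEval_X]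
      exact (le_max_right _ _).trans (le_mul_of_one_le_left (by positivity) (le_max_right _ _))
  | add G G' hG hG' =>
    obtain ⟨c, hc, H⟩ := hG
    obtain ⟨c', hc', H'⟩ := hG'
    refine ⟨c + c', by positivity, fun ρ η ρ' η' h1 h2 h3 h4 => ?_⟩
    obtain ⟨a1, a2⟩ := H ρ η ρ' η' h1 h2 h3 h4
    obtain ⟨b1, b2⟩ := H' ρ η ρ' η' h1 h2 h3 h4
    refine ⟨?_, ?_⟩
    · rw [evalEval_add]
      exact (ν.add_le _ _).trans (add_le_add a1 b1)
    · rw [evalEval_add, evalEval_add, add_sub_add_comm, add_mul]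
      exact (ν.add_le _ _).trans (add_le_add a2 b2)
  | mul G G' hG hG' =>
    obtain ⟨c, hc, H⟩ := hG
    obtain ⟨c', hc', H'⟩ := hG'
    refine ⟨c * c', by positivity, fun ρ η ρ' η' h1 h2 h3 h4 => ?_⟩
    obtain ⟨a1, a2⟩ := H ρ η ρ' η' h1 h2 h3 h4
    obtain ⟨b1, b2⟩ := H' ρ η ρ' η' h1 h2 h3 h4
    have b3 := (H' ρ' η' ρ' η' h3 h4 h3 h4).1
    refine ⟨?_, ?_⟩
    · rw [evalEval_mul, map_mul]
      exact mul_le_mul a1 b1 (ν.nonneg _) hc.le
    · have e : (G * G').evalEval ρ η - (G * G').evalEval ρ' η' =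
          G.evalEval ρ η * (G'.evalEval ρ η - G'.evalEval ρ' η') +
            (G.evalEval ρ η - G.evalEval ρ' η') * G'.evalEval ρ' η' := by
        rw [evalEval_mul, evalEval_mul]
        ring
      rw [e]
      refine (h.na _ _).trans (max_le ?_ ?_)
      · rw [map_mul, mul_assoc]
        exact mul_le_mul a1 b2 (ν.nonneg _) hc.le
      · rw [map_mul, mul_right_comm]
        exact mul_le_mul a2 b3 (ν.nonneg _) (by positivity)

/-- Polynomial approximation of the `ℓ`-th root.  `Z₀ = 1`, `Z' = Z - C ℓ⁻¹ * (Z ^ ℓ - X)`.  With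
`z = Z(u)`, `e = z ^ ℓ - u`, `d = -e / ℓ`: `(z + d) ^ ℓ = z ^ ℓ + ℓ * z ^ (ℓ - 1) * d + d ^ 2 * r` with
`ν r ≤ 1` (`Polynomial.binomExpansion`, `powAddExpansion`, or an induction), so the new error is
`e * (1 - z ^ (ℓ - 1)) + d ^ 2 * r`. -/
theorem NA.newton (h : NA ν ℓ) {t : ℝ} (h0 : 0 ≤ t) (h1 : t < 1) (n : ℕ) : ∃ Z : k[X],
    ∀ u : k, ν (u - 1) ≤ t → ν (Z.eval u - 1) ≤ t ∧ ν (Z.eval u ^ ℓ - u) ≤ t ^ (n + 1) := by
  have hl := ke7_ne h
  obtain ⟨m, rfl⟩ := Nat.exists_eq_succ_of_ne_zero (n := ℓ) fun e => hl (by rw [e, Nat.cast_zero])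
  induction n with
  | zero =>
    refine ⟨1, fun u hu => ⟨?_, ?_⟩⟩
    · rwa [eval_one, sub_self, map_zero]
    · rwa [eval_one, one_pow, ν.map_sub, zero_add, pow_one]
  | succ n ih =>
    obtain ⟨Z, hZ⟩ := ih
    refine ⟨Z - C ((m.succ : ℕ) : k)⁻¹ * (Z ^ m.succ - X), fun u hu => ?_⟩
    obtain ⟨a1, a2⟩ := hZ u hu
    set z := Z.eval u with hz
    set d : k := -(((m.succ : ℕ) : k)⁻¹ * (z ^ m.succ - u)) with hd
    have e1 : (Z - C ((m.succ : ℕ) : k)⁻¹ * (Z ^ m.succ - X)).eval u = z + d := by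
      rw [eval_sub, eval_mul, eval_C, eval_sub, eval_pow, eval_X, sub_eq_add_neg]
    have b1 : ν d ≤ t ^ (n + 1) := by
      rwa [hd, ν.map_neg, map_mul, map_inv₀, h.one, inv_one, one_mul]
    have b2 : t ^ (n + 1) ≤ t := pow_le_of_le_one h0 h1.le (Nat.succ_ne_zero n)
    have b3 : ν z = 1 := by
      have := h.eq_of_lt (u := z) (z := 1) (by rw [map_one]; exact a1.trans_lt h1)
      rwa [map_one] at this
    rw [e1]
    refine ⟨?_, ?_⟩
    · rw [add_sub_right_comm]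
      exact (h.na _ _).trans (max_le a1 (b1.trans b2))
    · have e2 : (z + d) ^ m.succ - u = ((z + d) ^ (m + 1) - z ^ (m + 1) - (m + 1 : ℕ) * z ^ m * d) +
          -((z ^ m.succ - u) * (z ^ m - 1)) := by
        have e3 : ((m + 1 : ℕ) : k) * d = -(z ^ m.succ - u) := by
          rw [hd, mul_neg, ← mul_assoc, mul_inv_cancel₀ hl, one_mul]
        rw [Nat.succ_eq_add_one] at e3 ⊢
        linear_combination z ^ m * e3
      rw [e2]
      refine (h.na _ _).trans (max_le ?_ ?_)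
      · refine (ke7_binom h b3.le (b1.trans (b2.trans h1.le)) m).trans ?_
        rw [sq, pow_succ t (n + 1)]
        exact mul_le_mul b1 (b1.trans b2) (ν.nonneg _) (by positivity)
      · rw [ν.map_neg, map_mul, pow_succ t (n + 1)]
        exact mul_le_mul a2 (h.pow_sub_one h0 h1.le a1 m) (ν.nonneg _) (by positivity)

/-- Clearing denominators: `G(ρ, c * g(ρ) * Z(f(ρ) / (κ * g(ρ) ^ ℓ)))` is a polynomial in `ρ`
divided by a power of `g(ρ)`.  (The functions `ρ ↦ H(ρ) / g(ρ) ^ N` on `{g ≠ 0}` are closed under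
sums and products; induct on `Z` and on `G`.) -/
theorem exists_clear (G : k[X][Y]) (Z g : k[X]) (c κ : k) : ∃ (H : k[X]) (N : ℕ), ∀ ρ : k,
    g.eval ρ ≠ 0 → G.evalEval ρ (c * g.eval ρ * Z.eval (f.eval ρ / (κ * g.eval ρ ^ ℓ))) =
      H.eval ρ / g.eval ρ ^ N := by
  have h1 : Ke7Q g fun ρ => f.eval ρ / (κ * g.eval ρ ^ ℓ) :=
    ⟨C κ⁻¹ * f, ℓ, fun ρ _ => by
      beta_reduce
      rw [eval_mul, eval_C, div_eq_mul_inv, mul_inv, div_eq_mul_inv]
      ring⟩
  have h2 : Ke7Q g fun ρ => Z.eval (f.eval ρ / (κ * g.eval ρ ^ ℓ)) := by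
    induction Z using Polynomial.induction_on with
    | C a => simpa only [eval_C] using ke7Q_poly g (C a)
    | add p q hp hq => simpa only [eval_add] using hp.add hq
    | monomial n a ih =>
      simpa only [pow_succ, ← mul_assoc, eval_mul, eval_X] using ih.mul h1
  have h3 : Ke7Q g fun ρ => c * g.eval ρ * Z.eval (f.eval ρ / (κ * g.eval ρ ^ ℓ)) := by
    simpa only [eval_mul, eval_C] using (ke7Q_poly g (C c * g)).mul h2
  change Ke7Q g fun ρ => G.evalEval ρ (c * g.eval ρ * Z.eval (f.eval ρ / (κ * g.eval ρ ^ ℓ)))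
  induction G using ke7_ind with
  | hC a => simpa only [evalEval_CC, eval_C] using ke7Q_poly g (C a)
  | hX => simpa only [evalEval_C] using ke7Q_poly g X
  | hY => simpa only [evalEval_X] using h3
  | add G G' hG hG' => simpa only [evalEval_add] using hG.add hG'
  | mul G G' hG hG' => simpa only [evalEval_mul] using hG.mul hG'

/-- With `u = f(ρ) / (kap * g0(ρ) ^ ℓ)` and `z = η / (c * g0(ρ))` we have `z ^ ℓ = u`, so
`ν (z - Z(u)) = ν (u - Z(u) ^ ℓ) ≤ t ^ (n + 1)` (`NA.pow_sub_pow`, `Reg.approx`); use `lipschitz`,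
`Reg.bounded` and `exists_pow_lt_of_lt_one`. -/
theorem Reg.rat_approx (D : Reg ν ℓ f) (h : NA ν ℓ) (hf : f ≠ 0) {c : k} (hc : c ^ ℓ = D.kap)
    (G : k[X][Y]) {t ε : ℝ} (h0 : 0 < t) (h1 : t < 1) (hε : 0 < ε) : ∃ (H : k[X]) (N : ℕ),
      ∀ ρ η, D.Omt t ρ → D.Sheet c ρ η →
        ν (G.evalEval ρ η - H.eval ρ / D.g0.eval ρ ^ N) < ε := by
  have hl : ℓ ≠ 0 := fun e => ke7_ne h (by rw [e, Nat.cast_zero])
  have hc0 : c ≠ 0 := fun e => D.kap_ne hf (by rw [← hc, e, zero_pow hl])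
  obtain ⟨B, hB⟩ := D.bounded h c
  obtain ⟨L, hL, H⟩ := h.lipschitz G B
  obtain ⟨n, hn⟩ := exists_pow_lt_of_lt_one (x := ε / (L * max B 1)) (by positivity) h1
  obtain ⟨Z, hZ⟩ := h.newton h0.le h1 n
  obtain ⟨P, N, hP⟩ := exists_clear (f := f) (ℓ := ℓ) G Z D.g0 c D.kap
  refine ⟨P, N, fun ρ η hρ hη => ?_⟩
  have hom := D.om_of_omt h0 h1 hρ
  have hg := D.g0_ne hom
  obtain ⟨b1, b2⟩ := hB ρ hom
  obtain ⟨z1, z2⟩ := hZ _ (D.approx h hf h0 h1 hρ)
  obtain ⟨s1, s2⟩ := (D.sheet_iff hf hc0 hom).1 hη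
  rw [← hP ρ hg]
  set u := f.eval ρ / (D.kap * D.g0.eval ρ ^ ℓ) with hu
  set w := c * D.g0.eval ρ with hw
  have hw0 : w ≠ 0 := mul_ne_zero hc0 hg
  have e1 : (η / w) ^ ℓ = u := by rw [div_pow, s1, hw, mul_pow, hc]
  have e2 : ν (Z.eval u) = 1 := by
    have := h.eq_of_lt (u := Z.eval u) (z := 1) (by rw [map_one]; exact z1.trans_lt h1)
    rwa [map_one] at this
  have e3 : ν (η - w * Z.eval u) ≤ max B 1 * t ^ n := by
    have e4 : η - w * Z.eval u = w * (η / w - Z.eval u) := by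
      rw [mul_sub, mul_div_cancel₀ _ hw0]
    rw [e4, map_mul, ← h.pow_sub_pow s2 (z1.trans_lt h1), e1, ν.map_sub]
    exact mul_le_mul (b2.trans (le_max_left _ _))
      (z2.trans (pow_le_pow_of_le_one h0.le h1.le (Nat.le_succ n))) (ν.nonneg _) (by positivity)
  have e5 := (H ρ η ρ (w * Z.eval u) b1 ((D.sheet_abs h hη).trans_le b2) b1
    (by rwa [map_mul, e2, mul_one])).2
  rw [sub_self, map_zero, max_eq_right (ν.nonneg _)] at e5
  refine (e5.trans (mul_le_mul_of_nonneg_left e3 hL.le)).trans_lt ?_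
  rwa [lt_div_iff₀ (by positivity), mul_comm, mul_assoc] at hn

end Pool.Agent.Lib.MP_07b2d0_nt.Ks
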