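import Mathlib
import Pool.Agent.Lib.MP_07b2d0_nt.KE7
import Pool.Agent.Lib.MP_07b2d0_nt.KA3

set_option autoImplicit false
set_option linter.unusedSectionVars false
set_option linter.unusedVariables false

namespace Pool.Agent.Lib.MP_07b2d0_nt.Ks

open Polynomial Finset
open scoped Polynomial.Bivariate

variable {k : Type} [Field k] [IsAlgClosed k] [CharZero k] {ν : AbsoluteValue k ℝ} {ℓ : ℕ}
  {f : k[X]}
variable (D : Reg ν ℓ f)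

theorem ke8_ne (h : NA ν ℓ) : ℓ ≠ 0 := by
  rintro rfl
  have h1 := h.one
  rw [Nat.cast_zero, map_zero] at h1
  exact zero_ne_one h1

theorem ke8_lip (h : NA ν ℓ) (P : k[X]) (B : ℝ) : ∃ K : ℝ, 0 < K ∧ ∀ ρ ρ' : k, ν ρ ≤ B →
    ν ρ' ≤ B → ν (P.eval ρ - P.eval ρ') ≤ K * ν (ρ - ρ') := by
  obtain ⟨K, hK, H⟩ := h.lipschitz (C P) B
  refine ⟨K, hK, fun ρ ρ' h1 h2 => ?_⟩
  have h3 := (H ρ ρ ρ' ρ h1 h1 h2 h1).2
  rwa [evalEval_C, evalEval_C, sub_self, map_zero, max_eq_left (ν.nonneg _)] at h3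

/-- Continuity along a sheet.  For `ρ` close to `τ`, `ν (g0(ρ) / g0(τ) - 1) < 1`, so
`ν (η / η₀ - 1) < 1` and `ν (η / η₀ - 1) = ν (f(ρ) / f(τ) - 1)` (`NA.pow_sub_pow` with `z = 1`)
is small; use `lipschitz` (also for `C f` and `C g0`). -/
theorem Reg.cont (h : NA ν ℓ) (hf : f ≠ 0) {c τ η₀ : k} (hτ : D.Om τ) (h₀ : D.Sheet c τ η₀)
    (G : k[X][Y]) {ε : ℝ} (hε : 0 < ε) : ∃ δ > 0, ∀ ρ η, D.Om ρ → ν (ρ - τ) < δ →
      D.Sheet c ρ η → ν (G.evalEval ρ η - G.evalEval τ η₀) < ε := by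
  obtain ⟨B, hB⟩ := D.bounded h c
  obtain ⟨K₁, k1, H1⟩ := h.lipschitz G B
  obtain ⟨K₂, k2, H2⟩ := ke8_lip h f B
  obtain ⟨K₃, k3, H3⟩ := ke8_lip h (C c * D.g0) B
  have hA : 0 < ν (c * D.g0.eval τ) := (ν.nonneg _).trans_lt h₀.2
  have ha := D.sheet_abs h h₀
  have hη₀ : η₀ ≠ 0 := ν.pos_iff.1 (ha ▸ hA)
  have hp : 0 < ν η₀ := ν.pos hη₀
  have hK : 0 < K₂ * ν η₀ / ν η₀ ^ ℓ := by positivity
  have hK' : 0 < K₁ * (1 + K₂ * ν η₀ / ν η₀ ^ ℓ) := by positivity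
  refine ⟨min (ν η₀ / K₃) (ε / (K₁ * (1 + K₂ * ν η₀ / ν η₀ ^ ℓ))), by positivity,
    fun ρ η hρ hδ hs => ?_⟩
  obtain ⟨d1, d2⟩ := lt_min_iff.1 hδ
  have h1 : ν (c * D.g0.eval ρ - c * D.g0.eval τ) < ν (c * D.g0.eval τ) := by
    have h2 := H3 ρ τ (hB ρ hρ).1 (hB τ hτ).1
    rw [eval_mul, eval_mul, eval_C, eval_C] at h2
    rw [lt_div_iff₀ k3, mul_comm] at d1
    exact h2.trans_lt (ha ▸ d1)
  have h2 := h.eq_of_lt h1
  have h3 : ν (η - η₀) < ν η₀ := by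
    rw [ha]
    refine (h.tri η (c * D.g0.eval ρ) η₀).trans_lt (max_lt (h2 ▸ hs.2) ?_)
    refine (h.tri _ (c * D.g0.eval τ) η₀).trans_lt (max_lt h1 ?_)
    rw [ν.map_sub]
    exact h₀.2
  have e1 : η / η₀ - 1 = (η - η₀) / η₀ := by field_simp
  have h4 : ν (η / η₀ - 1) < 1 := by rwa [e1, map_div₀, div_lt_one hp]
  have h5 := h.pow_sub_pow h4 (z := 1) (by rw [sub_self, map_zero]; exact one_pos)
  have e2 : (η / η₀) ^ ℓ - 1 ^ ℓ = (f.eval ρ - f.eval τ) / η₀ ^ ℓ := by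
    rw [← hs.1, ← h₀.1, div_pow, one_pow, sub_div, div_self (pow_ne_zero _ hη₀)]
  rw [e1, e2, map_div₀, map_div₀, map_pow, eq_div_iff hp.ne'] at h5
  have h6 : ν (η - η₀) ≤ K₂ * ν η₀ / ν η₀ ^ ℓ * ν (ρ - τ) := by
    rw [← h5]
    calc ν (f.eval ρ - f.eval τ) / ν η₀ ^ ℓ * ν η₀ ≤ K₂ * ν (ρ - τ) / ν η₀ ^ ℓ * ν η₀ := by
          gcongr
          exact H2 ρ τ (hB ρ hρ).1 (hB τ hτ).1
      _ = K₂ * ν η₀ / ν η₀ ^ ℓ * ν (ρ - τ) := by ring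
  have h7 := (H1 ρ η τ η₀ (hB ρ hρ).1 (D.sheet_abs h hs ▸ (hB ρ hρ).2) (hB τ hτ).1
    (ha ▸ (hB τ hτ).2)).2
  rw [lt_div_iff₀ hK', mul_comm, mul_assoc] at d2
  refine h7.trans_lt (lt_of_le_of_lt (mul_le_mul_of_nonneg_left ?_ k1.le) d2)
  have h8 := ν.nonneg (ρ - τ)
  have h9 := mul_nonneg hK.le h8
  refine max_le ?_ ?_ <;> linarith

theorem Reg.far (h : NA ν ℓ) {τ : k} (hτ : ¬ D.Om τ) {t : ℝ} (h0 : 0 < t) (h1 : t < 1) :
    ∃ δ > 0, ∀ ρ, D.Omt t ρ → δ ≤ ν (ρ - τ) := by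
  by_cases h2 : ν (τ - D.a0) < D.R0
  · have h3 : ∃ b ∈ D.T, ν (τ - b) ≤ D.R b := by
      by_contra hn
      exact hτ ⟨h2, fun b hb => not_le.1 fun h4 => hn ⟨b, hb, h4⟩⟩
    obtain ⟨b, hb, h4⟩ := h3
    refine ⟨D.R b, D.pos b hb, fun ρ hρ => ?_⟩
    have h5 := (D.om_of_omt h0 h1 hρ).2 b hb
    rw [ν.map_sub] at h5
    rw [ν.map_sub, h.iso (h4.trans_lt h5)]
    exact h5.le
  · refine ⟨D.R0, D.R0_pos, fun ρ hρ => ?_⟩
    have h5 := (D.om_of_omt h0 h1 hρ).1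
    have h6 := not_lt.1 h2
    rw [ν.map_sub] at h6
    rwa [h.iso (h5.trans_le h6)]

/-- A function without zeros on the sheet is bounded below on the shrunk region.  Let `M ≠ 0` be
the norm of `G` (`exists_nrm`, `IsNrm.ne_zero`).  For each root `τ` of `M` get `δ τ, ε τ > 0` such
that `ε τ ≤ ν G(ρ, η)` whenever `ν (ρ - τ) < δ τ` (`cont` if `τ ∈ Om`, vacuous by `far`
otherwise).  Away from the roots `ν M(ρ) ≥ ν lead * δ ^ deg`, while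
`M(ρ) = ∏ G(ρ, ζ ^ i * η)` and the factors with `i ≠ 0` are bounded by `C` (`lipschitz`). -/
theorem Reg.lower (h : NA ν ℓ) (hf : f ≠ 0) {c : k} (hc : c ^ ℓ = D.kap) {G : k[X][Y]}
    (hG : FinZ ℓ f G) (H : ∀ ρ η, D.Om ρ → D.Sheet c ρ η → G.evalEval ρ η ≠ 0) {t : ℝ}
    (h0 : 0 < t) (h1 : t < 1) :
    ∃ ε > 0, ∀ ρ η, D.Omt t ρ → D.Sheet c ρ η → ε ≤ ν (G.evalEval ρ η) := by
  have hℓ := ke8_ne h
  have : NeZero (ℓ : k) := ⟨Nat.cast_ne_zero.2 hℓ⟩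
  obtain ⟨ζ, hζ⟩ := HasEnoughRootsOfUnity.exists_primitiveRoot k ℓ
  obtain ⟨M, hM⟩ := exists_nrm hζ hℓ f G
  have hM0 := hM.ne_zero hζ hℓ hG
  have h2 : ∀ τ : k, ∃ δ > 0, ∃ ε > 0, ∀ ρ η, D.Omt t ρ → D.Sheet c ρ η → ν (ρ - τ) < δ →
      ε ≤ ν (G.evalEval ρ η) := by
    intro τ
    by_cases hτ : D.Om τ
    · obtain ⟨η₀, h₀⟩ := D.sheet_exists h hf hc hτ
      have hp := ν.pos (H τ η₀ hτ h₀)
      obtain ⟨δ, hδ, H1⟩ := D.cont h hf hτ h₀ G hp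
      exact ⟨δ, hδ, _, hp, fun ρ η h3 h4 h5 =>
        (h.eq_of_lt (H1 ρ η (D.om_of_omt h0 h1 h3) h5 h4)).ge⟩
    · obtain ⟨δ, hδ, H1⟩ := D.far h hτ h0 h1
      exact ⟨δ, hδ, 1, one_pos, fun ρ η h3 _ h5 => absurd (H1 ρ h3) (not_le.2 h5)⟩
  have h3 : ∀ S : Multiset k, ∃ ε > 0, ∀ ρ η, D.Omt t ρ → D.Sheet c ρ η →
      ε ≤ ν (G.evalEval ρ η) ∨ ε ≤ ν (S.map (ρ - ·)).prod := by
    intro S
    induction S using Multiset.induction_on with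
    | empty =>
      refine ⟨1, one_pos, fun ρ η _ _ => Or.inr ?_⟩
      rw [Multiset.map_zero, Multiset.prod_zero, map_one]
    | cons τ S ih =>
      obtain ⟨ε, hε, H1⟩ := ih
      obtain ⟨δ, hδ, ε', hε', H2⟩ := h2 τ
      refine ⟨min (min ε ε') (δ * ε), by positivity, fun ρ η h4 h5 => ?_⟩
      rcases lt_or_ge (ν (ρ - τ)) δ with h6 | h6
      · exact Or.inl (((min_le_left _ _).trans (min_le_right _ _)).trans (H2 ρ η h4 h5 h6))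
      · rcases H1 ρ η h4 h5 with h7 | h7
        · exact Or.inl (((min_le_left _ _).trans (min_le_left _ _)).trans h7)
        · refine Or.inr ((min_le_right _ _).trans ?_)
          rw [Multiset.map_cons, Multiset.prod_cons, map_mul]
          exact mul_le_mul h6 h7 hε.le (ν.nonneg _)
  obtain ⟨ε, hε, H1⟩ := h3 M.roots
  obtain ⟨B, hB⟩ := D.bounded h c
  obtain ⟨K, hK, H2⟩ := h.lipschitz G B
  have hl : 0 < ν M.leadingCoeff := ν.pos (leadingCoeff_ne_zero.2 hM0)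
  obtain ⟨n, hn⟩ := Nat.exists_eq_succ_of_ne_zero hℓ
  refine ⟨min ε (ν M.leadingCoeff * ε / K ^ n), by positivity, fun ρ η h4 h5 => ?_⟩
  rcases H1 ρ η h4 h5 with h6 | h6
  · exact (min_le_left _ _).trans h6
  refine (min_le_right _ _).trans ?_
  have hρ := D.om_of_omt h0 h1 h4
  have hζ1 : ν ζ = 1 := abs_root_one hℓ hζ.pow_eq_one
  have h7 : ∀ i, ν (G.evalEval ρ (ζ ^ i * η)) ≤ K := by
    intro i
    have h8 : ν (ζ ^ i * η) ≤ B := by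
      rw [map_mul, map_pow, hζ1, one_pow, one_mul, D.sheet_abs h h5]
      exact (hB ρ hρ).2
    exact (H2 ρ _ ρ _ (hB ρ hρ).1 h8 (hB ρ hρ).1 h8).1
  have h8 := congrArg ν (hM.eval_eq h5.1)
  have e : range ℓ = range (n + 1) := by rw [hn]
  rw [(IsAlgClosed.splits M).eval_eq_prod_roots, e, prod_range_succ', map_mul, map_mul, map_prod,
    pow_zero, one_mul] at h8
  have h9 : ∏ i ∈ range n, ν (G.evalEval ρ (ζ ^ (i + 1) * η)) ≤ K ^ n := by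
    refine (prod_le_prod (fun i _ => ν.nonneg _) fun i _ => h7 (i + 1)).trans_eq ?_
    rw [prod_const, card_range]
  rw [div_le_iff₀ (pow_pos hK n), mul_comm _ (K ^ n)]
  exact ((mul_le_mul_of_nonneg_left h6 hl.le).trans_eq h8).trans
    (mul_le_mul_of_nonneg_right h9 (ν.nonneg _))

end Pool.Agent.Lib.MP_07b2d0_nt.Ks
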