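import Mathlib
import Pool.Agent.Lib.MP_07b2d0_nt.KE8

set_option autoImplicit false
set_option linter.unusedSectionVars false
set_option linter.unusedVariables false

namespace Pool.Agent.Lib.MP_07b2d0_nt.Ks

open Polynomial Finset
open scoped Polynomial.Bivariate

variable {k : Type} [Field k] [IsAlgClosed k] [CharZero k] {ν : AbsoluteValue k ℝ} {ℓ : ℕ}
  {f : k[X]}
variable (D : Reg ν ℓ f)

theorem ke9_lin (h : NA ν ℓ) {t : ℝ} (h0 : 0 < t) {τ : k} (hτ : ¬ D.Omt t τ) :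
    ∃ (p : ℝ) (n : k → ℤ), ∀ ρ, D.Omt t ρ →
      lg ν (ρ - τ) = p + ∑ b ∈ D.T, n b * lg ν (ρ - b) := by
  classical
  by_cases h1 : ν (τ - D.a0) ≤ t * D.R0
  · obtain ⟨b, hb, h2⟩ : ∃ b ∈ D.T, t * ν (τ - b) < D.R b := by
      by_contra hcon
      push Not at hcon
      exact hτ ⟨h1, hcon⟩
    refine ⟨0, fun b' => if b' = b then 1 else 0, fun ρ hρ => ?_⟩
    have h3 : ν (τ - b) < ν (b - ρ) := by
      rw [ν.map_sub b ρ]
      exact lt_of_mul_lt_mul_left (h2.trans_le (hρ.2 b hb)) h0.le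
    have h4 := h.iso h3
    rw [ν.map_sub τ ρ, ν.map_sub b ρ] at h4
    simp [lg, h4, hb]
  · refine ⟨lg ν (D.a0 - τ), 0, fun ρ hρ => ?_⟩
    have h3 : ν (ρ - D.a0) < ν (D.a0 - τ) := by
      rw [ν.map_sub D.a0 τ]
      exact hρ.1.trans_lt (not_le.1 h1)
    simp [lg, h.iso h3]

theorem ke9_prod (h : NA ν ℓ) {t : ℝ} (h0 : 0 < t) (s : Multiset k)
    (hs : ∀ τ ∈ s, ¬ D.Omt t τ) : ∃ (p : ℝ) (n : k → ℤ), ∀ ρ, D.Omt t ρ →
      (s.map fun τ => ρ - τ).prod ≠ 0 ∧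
      lg ν (s.map fun τ => ρ - τ).prod = p + ∑ b ∈ D.T, n b * lg ν (ρ - b) := by
  induction s using Multiset.induction_on with
  | empty => exact ⟨0, 0, fun ρ _ => by simp [lg]⟩
  | cons τ s ih =>
    obtain ⟨p, n, hp⟩ := ih fun τ' hτ' => hs τ' (Multiset.mem_cons_of_mem hτ')
    have hτ := hs τ (Multiset.mem_cons_self _ _)
    obtain ⟨q, m, hq⟩ := ke9_lin D h h0 hτ
    refine ⟨q + p, m + n, fun ρ hρ => ?_⟩
    have h1 : ρ - τ ≠ 0 := sub_ne_zero.2 fun e => hτ (e ▸ hρ)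
    rw [Multiset.map_cons, Multiset.prod_cons, lg_mul h1 (hp ρ hρ).1, (hp ρ hρ).2, hq ρ hρ]
    refine ⟨mul_ne_zero h1 (hp ρ hρ).1, ?_⟩
    simp only [Pi.add_apply, Int.cast_add, add_mul, sum_add_distrib]
    ring

/-- A root `τ ∉ Omt t` has `ν (ρ - τ) = ν (τ - a0)` for all `ρ ∈ Omt t`, or
`ν (ρ - τ) = ν (ρ - b)` for some `b ∈ T` and all such `ρ`; induct on the multiset of roots. -/
theorem Reg.poly_form (h : NA ν ℓ) {t : ℝ} (h0 : 0 < t) (h1 : t < 1) {H : k[X]}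
    (hH : ∀ ρ, D.Omt t ρ → H.eval ρ ≠ 0) : ∃ (p : ℝ) (n : k → ℤ), ∀ ρ, D.Omt t ρ →
      lg ν (H.eval ρ) = p + ∑ b ∈ D.T, n b * lg ν (ρ - b) := by
  by_cases hz : H = 0
  · exact ⟨0, 0, fun ρ hρ => absurd (by simp [hz]) (hH ρ hρ)⟩
  obtain ⟨p, n, hp⟩ := ke9_prod D h h0 H.roots fun τ hτ hρ =>
    hH τ hρ ((mem_roots hz).1 hτ)
  refine ⟨lg ν H.leadingCoeff + p, n, fun ρ hρ => ?_⟩
  have e : H.eval ρ = H.leadingCoeff * (H.roots.map fun τ => ρ - τ).prod := by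
    conv_lhs => rw [(IsAlgClosed.splits H).eq_prod_roots]
    simp [eval_multiset_prod]
  rw [e, lg_mul (leadingCoeff_ne_zero.2 hz) (hp ρ hρ).1, (hp ρ hρ).2, add_assoc]

/-- `lower`, `rat_approx` with the same `ε`, `NA.eq_of_lt`, `sheet_exists`, `poly_form`, `lg_g0`. -/
theorem Reg.form_t (h : NA ν ℓ) (hf : f ≠ 0) {c : k} (hc : c ^ ℓ = D.kap) {G : k[X][Y]}
    (hG : FinZ ℓ f G) (H : ∀ ρ η, D.Om ρ → D.Sheet c ρ η → G.evalEval ρ η ≠ 0) {t : ℝ}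
    (h0 : 0 < t) (h1 : t < 1) : ∃ (p : ℝ) (n : k → ℤ), ∀ ρ η, D.Omt t ρ → D.Sheet c ρ η →
      lg ν (G.evalEval ρ η) = p + ∑ b ∈ D.T, n b * lg ν (ρ - b) := by
  obtain ⟨ε, hε, hl⟩ := D.lower h hf hc hG H h0 h1
  obtain ⟨P, N, hP⟩ := D.rat_approx h hf hc G h0 h1 hε
  have key : ∀ ρ η, D.Omt t ρ → D.Sheet c ρ η →
      ν (P.eval ρ / D.g0.eval ρ ^ N) = ν (G.evalEval ρ η) := fun ρ η hρ hη => by
    refine h.eq_of_lt ?_
    rw [ν.map_sub]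
    exact (hP ρ η hρ hη).trans_le (hl ρ η hρ hη)
  have hne : ∀ ρ, D.Omt t ρ → P.eval ρ ≠ 0 := fun ρ hρ h2 => by
    obtain ⟨η, hη⟩ := D.sheet_exists h hf hc (D.om_of_omt h0 h1 hρ)
    have h3 := hl ρ η hρ hη
    rw [← key ρ η hρ hη, h2, zero_div, map_zero] at h3
    exact absurd hε (not_lt.2 h3)
  obtain ⟨p, n, hp⟩ := D.poly_form h h0 h1 hne
  refine ⟨p, fun b => n b - N * D.kk b, fun ρ η hρ hη => ?_⟩
  have hom := D.om_of_omt h0 h1 hρ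
  have h2 : lg ν (G.evalEval ρ η) = lg ν (P.eval ρ / D.g0.eval ρ ^ N) := by
    rw [lg, lg, key ρ η hρ hη]
  have h3 : P.eval ρ / D.g0.eval ρ ^ N = P.eval ρ * D.g0.eval ρ ^ (-(N : ℤ)) := by
    rw [zpow_neg, zpow_natCast, div_eq_mul_inv]
  rw [h2, h3, lg_mul (hne ρ hρ) (zpow_ne_zero _ (D.g0_ne hom)), lg_zpow, hp ρ hρ, D.lg_g0 hom,
    mul_sum, add_assoc, ← sum_add_distrib]
  congr 1
  refine sum_congr rfl fun b _ => ?_
  push_cast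
  ring

end Pool.Agent.Lib.MP_07b2d0_nt.Ks
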