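import Mathlib
import Pool.Agent.Lib.MP_07b2d0_nt.KE9

set_option autoImplicit false
set_option linter.unusedSectionVars false
set_option linter.unusedVariables false

namespace Pool.Agent.Lib.MP_07b2d0_nt.Ks

open Polynomial Finset
open scoped Polynomial.Bivariate

variable {k : Type} [Field k] [IsAlgClosed k] [CharZero k] {ν : AbsoluteValue k ℝ} {ℓ : ℕ}
  {f : k[X]}
variable (D : Reg ν ℓ f)

theorem ke10_fin {b : k} {R : ℝ} {up : Bool} (U : Finset k) (P : k → k → Prop)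
    (H : ∀ τ ∈ U, ∃ ε > 0, ∀ ρ, Near ν b R up ε ρ → P τ ρ) :
    ∃ ε > 0, ∀ ρ, Near ν b R up ε ρ → ∀ τ ∈ U, P τ ρ := by
  classical
  induction U using Finset.induction_on with
  | empty => exact ⟨1, one_pos, fun ρ _ τ hτ => absurd hτ (notMem_empty τ)⟩
  | insert a U _ ih =>
    obtain ⟨ε₁, h1, h2⟩ := H a (mem_insert_self _ _)
    obtain ⟨ε₂, h3, h4⟩ := ih fun τ hτ => H τ (mem_insert_of_mem hτ)
    refine ⟨min ε₁ ε₂, lt_min h1 h3, fun ρ hρ τ hτ => ?_⟩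
    rcases mem_insert.1 hτ with rfl | hτ
    · exact h2 ρ (hρ.mono (min_le_left _ _))
    · exact h4 ρ (hρ.mono (min_le_right _ _)) τ hτ

theorem ke10_up {b ρ : k} {R R' : ℝ} (hR : 0 < R) (hR' : 0 < R')
    (hρ : Near ν b R true (Real.log R' - Real.log R) ρ) : R < ν (ρ - b) ∧ ν (ρ - b) < R' := by
  obtain ⟨h1, h2, h3, -⟩ := hρ
  have h4 : 0 < ν (ρ - b) := ν.pos (sub_ne_zero.2 h1)
  have h5 := h3 rfl
  have h6 := (abs_lt.1 h2).2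
  rw [hh, lg] at h5 h6
  exact ⟨(Real.log_lt_log_iff hR h4).1 (by linarith), (Real.log_lt_log_iff h4 hR').1 (by linarith)⟩

theorem ke10_down {b ρ : k} {R R' : ℝ} (hR : 0 < R) (hR' : 0 < R')
    (hρ : Near ν b R false (Real.log R - Real.log R') ρ) : R' < ν (ρ - b) ∧ ν (ρ - b) < R := by
  obtain ⟨h1, h2, -, h3⟩ := hρ
  have h4 : 0 < ν (ρ - b) := ν.pos (sub_ne_zero.2 h1)
  have h5 := h3 rfl
  have h6 := (abs_lt.1 h2).1
  rw [hh, lg] at h5 h6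
  exact ⟨(Real.log_lt_log_iff hR' h4).1 (by linarith), (Real.log_lt_log_iff h4 hR).1 (by linarith)⟩

theorem ke10_omt (W : Finset k) (hW : ∀ ρ ∈ W, D.Om ρ) :
    ∃ t : ℝ, 0 < t ∧ t < 1 ∧ ∀ ρ ∈ W, D.Omt t ρ := by
  classical
  induction W using Finset.induction_on with
  | empty => exact ⟨1 / 2, by norm_num, by norm_num, fun ρ hρ => absurd hρ (notMem_empty ρ)⟩
  | insert a W _ ih =>
    obtain ⟨t, h0, h1, h2⟩ := ih fun ρ hρ => hW ρ (mem_insert_of_mem hρ)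
    obtain ⟨t', h3, h4, h5⟩ := D.exists_omt (hW a (mem_insert_self _ _)) h0 h1
    refine ⟨t', h0.trans_le h3, h4, fun ρ hρ => ?_⟩
    rcases mem_insert.1 hρ with rfl | hρ
    · exact h5
    · exact D.omt_mono h3 (h2 ρ hρ)

/-- Just outside an inner disc (`near_linear` for `a0`-distance, the other centres and `S`). -/
theorem Reg.near_in (h : NA ν ℓ) {b : k} (hb : b ∈ D.T) (S : Finset k) (hS : ∀ τ ∈ S, D.Om τ) :
    ∃ ε > 0, ∀ ρ, Near ν b (D.R b) true ε ρ → D.Om ρ ∧ ρ ∉ S ∧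
      (∀ b' ∈ D.T, b' ≠ b → ν (ρ - b') = ν (b - b')) ∧ ∀ τ ∈ S, ν (ρ - τ) = ν (b - τ) := by
  classical
  have hR := D.pos b hb
  obtain ⟨ε, hε, H⟩ := ke10_fin (D.T ∪ S) _ fun τ _ => near_linear h hR b τ true
  have hl : 0 < Real.log D.R0 - Real.log (D.R b) := sub_pos.2 (Real.log_lt_log hR (D.lt b hb))
  refine ⟨min ε (Real.log D.R0 - Real.log (D.R b)), lt_min hε hl, fun ρ hρ => ?_⟩
  have h1 := H ρ (hρ.mono (min_le_left _ _))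
  obtain ⟨h2, h3⟩ := ke10_up hR D.R0_pos (hρ.mono (min_le_right _ _))
  have key : ∀ τ ∈ D.T ∪ S, D.R b < ν (τ - b) → ν (ρ - τ) = ν (b - τ) := by
    intro τ hτ hlt
    rw [(h1 τ hτ).2.2 (by
      rintro (h4 | ⟨-, h4⟩)
      · exact lt_asymm hlt h4
      · exact hlt.ne' h4), ν.map_sub]
  have h4 : ∀ b' ∈ D.T, b' ≠ b → ν (ρ - b') = ν (b - b') := fun b' hb' hne =>
    key b' (mem_union_left _ hb') (by
      rw [ν.map_sub]
      exact D.sep b hb b' hb' hne.symm)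
  refine ⟨⟨(h.tri ρ b D.a0).trans_lt (max_lt h3 (D.ins b hb)), fun b' hb' => ?_⟩,
    fun hS' => (h1 ρ (mem_union_right _ hS')).1 rfl, h4,
    fun τ hτ => key τ (mem_union_right _ hτ) ((hS τ hτ).2 b hb)⟩
  by_cases hne : b' = b
  · rw [hne]
    exact h2
  · rw [h4 b' hb' hne, ν.map_sub]
    exact D.sep b' hb' b hb hne

/-- Just inside the outer circle. -/
theorem Reg.near_out (h : NA ν ℓ) (S : Finset k) (hS : ∀ τ ∈ S, D.Om τ) :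
    ∃ ε > 0, ∀ ρ, Near ν D.a0 D.R0 false ε ρ → D.Om ρ ∧ ρ ∉ S ∧
      (∀ b ∈ D.T, ν (ρ - b) = ν (ρ - D.a0)) ∧ ∀ τ ∈ S, ν (ρ - τ) = ν (ρ - D.a0) := by
  classical
  have hR := D.R0_pos
  obtain ⟨ε, hε, H⟩ := ke10_fin (D.T ∪ S) _ fun τ _ => near_linear h hR D.a0 τ false
  obtain ⟨ε', hε', H'⟩ := ke10_fin (ν := ν) (b := D.a0) (R := D.R0) (up := false) D.T
    (fun b ρ => D.R b < ν (ρ - D.a0) ∧ ν (ρ - D.a0) < D.R0) fun b hb =>
      ⟨_, sub_pos.2 (Real.log_lt_log (D.pos b hb) (D.lt b hb)),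
        fun ρ hρ => ke10_down hR (D.pos b hb) hρ⟩
  refine ⟨min ε ε', lt_min hε hε', fun ρ hρ => ?_⟩
  have h1 := H ρ (hρ.mono (min_le_left _ _))
  have h2 := H' ρ (hρ.mono (min_le_right _ _))
  have h3 : ∀ b ∈ D.T, ν (ρ - b) = ν (ρ - D.a0) := fun b hb =>
    (h1 b (mem_union_left _ hb)).2.1 (Or.inl (D.ins b hb))
  obtain ⟨b₀, hb₀⟩ := D.ne
  refine ⟨⟨(h2 b₀ hb₀).2, fun b hb => ?_⟩, fun hS' => (h1 ρ (mem_union_right _ hS')).1 rfl, h3,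
    fun τ hτ => (h1 τ (mem_union_right _ hτ)).2.1 (Or.inl (hS τ hτ).1)⟩
  rw [h3 b hb]
  exact (h2 b hb).1

/-- For each `b ∈ T` choose two points `ρ₁ b, ρ₂ b` near the inner vertex (`near_in` with `S = ∅`,
`near_exists`) with different `hh`; choose `t₀` such that these finitely many points lie in
`Omt t₀` (`exists_omt`, `omt_mono`).  Subtracting the two equations gives `n b = 0`. -/
theorem Reg.uniq (h : NA ν ℓ) : ∃ t₀ : ℝ, 0 < t₀ ∧ t₀ < 1 ∧ ∀ (p : ℝ) (n : k → ℤ),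
    (∀ ρ, D.Omt t₀ ρ → p + ∑ b ∈ D.T, n b * lg ν (ρ - b) = 0) → p = 0 ∧ ∀ b ∈ D.T, n b = 0 := by
  classical
  have hex : ∀ b ∈ D.T, ∃ ρ₁ ρ₂ : k, D.Om ρ₁ ∧ D.Om ρ₂ ∧ lg ν (ρ₂ - b) < lg ν (ρ₁ - b) ∧
      ∀ b' ∈ D.T, b' ≠ b → lg ν (ρ₁ - b') = lg ν (ρ₂ - b') := by
    intro b hb
    obtain ⟨ε, hε, H⟩ := D.near_in h hb ∅ fun τ hτ => absurd hτ (notMem_empty τ)
    obtain ⟨ρ₁, h1⟩ := h.near_exists b (D.R b) true hε
    obtain ⟨ρ₂, h2⟩ := h.near_exists b (D.R b) true (lt_min hε (h1.2.2.1 rfl))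
    have h3 := H ρ₁ h1
    have h4 := H ρ₂ (h2.mono (min_le_left _ _))
    have h5 := (abs_lt.1 (h2.mono (min_le_right _ _)).2.1).2
    refine ⟨ρ₁, ρ₂, h3.1, h4.1, ?_, fun b' hb' hne => ?_⟩
    · rw [hh, hh] at h5
      linarith
    · rw [lg, lg, h3.2.2.1 b' hb' hne, h4.2.2.1 b' hb' hne]
  choose! ρ₁ ρ₂ h1 h2 h3 h4 using hex
  obtain ⟨t, h0, ht, hW⟩ := ke10_omt D (D.T.image ρ₁ ∪ D.T.image ρ₂) fun ρ hρ => by
    rcases mem_union.1 hρ with hρ | hρ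
    · obtain ⟨b, hb, rfl⟩ := mem_image.1 hρ
      exact h1 b hb
    · obtain ⟨b, hb, rfl⟩ := mem_image.1 hρ
      exact h2 b hb
  refine ⟨t, h0, ht, fun p n H => ?_⟩
  have hn : ∀ b ∈ D.T, n b = 0 := by
    intro b hb
    have e1 := H (ρ₁ b) (hW _ (mem_union_left _ (mem_image_of_mem _ hb)))
    have e2 := H (ρ₂ b) (hW _ (mem_union_right _ (mem_image_of_mem _ hb)))
    rw [← add_sum_erase D.T _ hb] at e1 e2
    rw [sum_congr rfl fun b' hb' => by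
      rw [h4 b hb b' (mem_of_mem_erase hb') (ne_of_mem_erase hb')]] at e1
    have e3 : (n b : ℝ) * (lg ν (ρ₁ b - b) - lg ν (ρ₂ b - b)) = 0 := by linarith
    exact_mod_cast (mul_eq_zero.1 e3).resolve_right (sub_pos.2 (h3 b hb)).ne'
  obtain ⟨b₀, hb₀⟩ := D.ne
  have e1 := H (ρ₁ b₀) (hW _ (mem_union_left _ (mem_image_of_mem _ hb₀)))
  rw [sum_eq_zero fun b hb => by rw [hn b hb, Int.cast_zero, zero_mul], add_zero] at e1
  exact ⟨e1, hn⟩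

/-- Take `p, n` from `form_t` at `t₀`; for `ρ ∈ Om` choose `t ≥ t₀` with `ρ ∈ Omt t` and compare
the two formulas on `Omt t₀` (`sheet_exists`, `uniq`). -/
theorem Reg.form_zero (h : NA ν ℓ) (hf : f ≠ 0) {c : k} (hc : c ^ ℓ = D.kap) {G : k[X][Y]}
    (hG : FinZ ℓ f G) (H : ∀ ρ η, D.Om ρ → D.Sheet c ρ η → G.evalEval ρ η ≠ 0) :
    ∃ (p : ℝ) (n : k → ℤ), ∀ ρ η, D.Om ρ → D.Sheet c ρ η →
      lg ν (G.evalEval ρ η) = p + ∑ b ∈ D.T, n b * lg ν (ρ - b) := by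
  obtain ⟨t₀, h0, h1, hu⟩ := D.uniq h
  obtain ⟨p, n, hpn⟩ := D.form_t h hf hc hG H h0 h1
  refine ⟨p, n, fun ρ η hρ hs => ?_⟩
  obtain ⟨t, h2, h3, h4⟩ := D.exists_omt hρ h0 h1
  obtain ⟨p', n', hpn'⟩ := D.form_t h hf hc hG H (h0.trans_le h2) h3
  obtain ⟨h5, h6⟩ := hu (p - p') (fun b => n b - n' b) fun ρ' hρ' => by
    obtain ⟨η', hs'⟩ := D.sheet_exists h hf hc (D.om_of_omt h0 h1 hρ')
    have e1 := hpn ρ' η' hρ' hs'
    have e2 := hpn' ρ' η' (D.omt_mono h2 hρ') hs'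
    simp only [Int.cast_sub, sub_mul, sum_sub_distrib]
    linarith
  rw [hpn' ρ η h4 hs, sub_eq_zero.1 h5]
  congr 1
  exact sum_congr rfl fun b hb => by rw [sub_eq_zero.1 (h6 b hb)]

end Pool.Agent.Lib.MP_07b2d0_nt.Ks
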