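import Mathlib
import Pool.Agent.Lib.MP_07b2d0_nt.KE10
import Pool.Agent.Lib.MP_07b2d0_nt.KB5

set_option autoImplicit false
set_option linter.unusedSectionVars false
set_option linter.unusedVariables false

namespace Pool.Agent.Lib.MP_07b2d0_nt.Ks

open Polynomial Finset
open scoped Polynomial.Bivariate

variable {k : Type} [Field k] [IsAlgClosed k] [CharZero k] {ν : AbsoluteValue k ℝ} {ℓ : ℕ}
  {f : k[X]}
variable (D : Reg ν ℓ f)

theorem ke11_eval (u η₀ : k) (g : k[X]) (ρ η : k) :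
    (∑ i ∈ range ℓ, (C (C u) * Y) ^ i * C (C η₀ * g) ^ (ℓ - 1 - i) : k[X][Y]).evalEval ρ η =
      ∑ i ∈ range ℓ, (u * η) ^ i * (η₀ * g.eval ρ) ^ (ℓ - 1 - i) := by
  rw [evalEval_finsetSum]
  refine sum_congr rfl fun i _ => ?_
  simp only [evalEval_mul, evalEval_pow, evalEval_C, evalEval_X, eval_C, eval_mul]

theorem ke11_dvd {W : k[X][Y]} {ρ η : k} (he : η ^ ℓ = f.eval ρ) (h : kum ℓ f ∣ W) :
    W.evalEval ρ η = 0 := by
  obtain ⟨q, rfl⟩ := h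
  rw [evalEval_mul, evalEval_kum he, zero_mul]

theorem ke11_c_ne {c ρ η : k} (h : D.Sheet c ρ η) : c ≠ 0 := by
  rintro rfl
  have h1 := h.2
  rw [zero_mul, map_zero] at h1
  exact absurd h1 (not_lt.2 (ν.nonneg _))

/-- The auxiliary factor on the sheet: with `u = g0(τ)`, both `u * η` and `η₀ * g0(ρ)` are
`c * g0(τ) * g0(ρ)` times one-units, so the sum is `(c * g0(τ) * g0(ρ)) ^ (ℓ - 1)` times an element
congruent to `ℓ`. -/
theorem Reg.geom_abs (h : NA ν ℓ) (hf : f ≠ 0) {c τ η₀ ρ η : k} (hτ : D.Om τ) (hρ : D.Om ρ)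
    (h₀ : D.Sheet c τ η₀) (h₁ : D.Sheet c ρ η) :
    ν ((∑ i ∈ range ℓ, (C (C (D.g0.eval τ)) * Y) ^ i *
      C (C η₀ * D.g0) ^ (ℓ - 1 - i) : k[X][Y]).evalEval ρ η) =
      ν (c * D.g0.eval τ * D.g0.eval ρ) ^ (ℓ - 1) := by
  have hc : c ≠ 0 := ke11_c_ne D h₀
  have hu := D.g0_ne hτ
  have hg := D.g0_ne hρ
  have ha := ((D.sheet_iff hf hc hρ).1 h₁).2
  have hb := ((D.sheet_iff hf hc hτ).1 h₀).2
  set a := η / (c * D.g0.eval ρ) with ha'
  set b := η₀ / (c * D.g0.eval τ) with hb'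
  have e1 : D.g0.eval τ * η = c * D.g0.eval τ * D.g0.eval ρ * a := by
    rw [ha']
    field_simp
  have e2 : η₀ * D.g0.eval ρ = c * D.g0.eval τ * D.g0.eval ρ * b := by
    rw [hb']
    field_simp
  have e3 : ∑ i ∈ range ℓ, (D.g0.eval τ * η) ^ i * (η₀ * D.g0.eval ρ) ^ (ℓ - 1 - i) =
      (c * D.g0.eval τ * D.g0.eval ρ) ^ (ℓ - 1) * ∑ i ∈ range ℓ, a ^ i * b ^ (ℓ - 1 - i) := by
    rw [mul_sum]
    refine sum_congr rfl fun i hi => ?_
    have h1 : ℓ - 1 = i + (ℓ - 1 - i) := by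
      have := mem_range.1 hi
      omega
    rw [e1, e2, mul_pow _ a, mul_pow _ b]
    conv_rhs => rw [h1, pow_add, ← h1]
    ring
  have ht : max (ν (a - 1)) (ν (b - 1)) < 1 := max_lt ha hb
  have ht0 : 0 ≤ max (ν (a - 1)) (ν (b - 1)) := (ν.nonneg _).trans (le_max_left _ _)
  have e4 : ν (∑ i ∈ range ℓ, a ^ i * b ^ (ℓ - 1 - i)) = 1 := by
    rw [← h.one]
    refine h.eq_of_lt ?_
    have e5 : ∑ i ∈ range ℓ, a ^ i * b ^ (ℓ - 1 - i) - (ℓ : k) =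
        ∑ i ∈ range ℓ, (a ^ i * b ^ (ℓ - 1 - i) - 1) := by
      rw [sum_sub_distrib, sum_const, card_range, nsmul_eq_mul, mul_one]
    rw [e5, h.one]
    refine h.sum_lt _ one_pos fun i _ => lt_of_le_of_lt ?_ ht
    exact h.mul_sub_one ht.le (h.pow_sub_one ht0 ht.le (le_max_left _ _) _)
      (h.pow_sub_one ht0 ht.le (le_max_right _ _) _)
  rw [ke11_eval, e3, map_mul, e4, mul_one, map_pow]

/-- A zero `(ρ, η)` on the curve of the auxiliary factor satisfies `(u * η) ^ ℓ = (η₀ * g(ρ)) ^ ℓ`,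
so `ρ` is a root of `C (u ^ ℓ) * f - C (η₀ ^ ℓ) * g ^ ℓ`, which is nonzero as `ℓ ∤ natDegree f`. -/
theorem finZ_geom (hr : Ram ℓ f) {u η₀ : k} (hu : u ≠ 0) (g : k[X]) :
    FinZ ℓ f (∑ i ∈ range ℓ, (C (C u) * Y) ^ i * C (C η₀ * g) ^ (ℓ - 1 - i)) := by
  classical
  have hP : (C (u ^ ℓ) * f - (C η₀ * g) ^ ℓ : k[X]) ≠ 0 := by
    intro h0
    have h1 := congrArg natDegree (sub_eq_zero.1 h0)
    rw [natDegree_C_mul (pow_ne_zero _ hu), natDegree_pow] at h1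
    exact hr.deg ⟨_, h1⟩
  refine (C (u ^ ℓ) * f - (C η₀ * g) ^ ℓ : k[X]).roots.toFinset.finite_toSet.subset ?_
  rintro ρ ⟨η, h1, h2⟩
  rw [ke11_eval] at h2
  have h3 := geom_sum₂_mul (u * η) (η₀ * g.eval ρ) ℓ
  rw [h2, zero_mul] at h3
  rw [mem_coe, Multiset.mem_toFinset, mem_roots hP, IsRoot.def, eval_sub, eval_mul, eval_pow,
    eval_mul, eval_C, eval_C, ← h1, ← mul_pow, ← h3]

/-- Induct on `∑ τ ∈ S, m τ`, for all `G` and `m`.  If the sum is zero use `form_zero` and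
`IsMult.ne_zero`.  Otherwise pick `τ ∈ S` with `m τ ≠ 0`, `η₀` on the sheet, `G'` from
`exists_div_geom` with `g = g0`, and `m' = Function.update m τ (m τ - 1)`
(`IsMult.div_ne`, `IsMult.div_eq`, `geom_abs`, `sheet_unique`, `finZ_geom`); evaluate
`G * H = (ρ - τ) * G'` at points of the curve (`evalEval_kum`) and use `lg_g0`. -/
theorem Reg.form (h : NA ν ℓ) (hr : Ram ℓ f) {c : k} (hc : c ^ ℓ = D.kap) {G : k[X][Y]}
    (hG : FinZ ℓ f G) (S : Finset k) (hS : ∀ τ ∈ S, D.Om τ) (m : k → ℕ)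
    (hm : ∀ ρ η, D.Om ρ → D.Sheet c ρ η → IsMult ℓ f ρ η G (m ρ))
    (h0 : ∀ ρ, D.Om ρ → ρ ∉ S → m ρ = 0) : ∃ (p : ℝ) (n : k → ℤ), D.Form c G S m p n := by
  classical
  have hf := hr.ne_zero
  obtain ⟨N, hN⟩ : ∃ N, ∑ τ ∈ S, m τ = N := ⟨_, rfl⟩
  induction N generalizing G m with
  | zero =>
    have hm0 : ∀ τ ∈ S, m τ = 0 := sum_eq_zero_iff.1 hN
    have hne : ∀ ρ η, D.Om ρ → D.Sheet c ρ η → G.evalEval ρ η ≠ 0 := by
      intro ρ η hρ hs
      have h1 := hm ρ η hρ hs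
      have h2 : m ρ = 0 := by
        by_cases hρS : ρ ∈ S
        · exact hm0 ρ hρS
        · exact h0 ρ hρ hρS
      rw [h2] at h1
      exact h1.ne_zero hs.1
    obtain ⟨p, n, hpn⟩ := D.form_zero h hf hc hG hne
    refine ⟨p, n, fun ρ η hρ _ hs => ⟨hne ρ η hρ hs, ?_⟩⟩
    rw [hpn ρ η hρ hs, sum_eq_zero (s := S) fun τ hτ => by rw [hm0 τ hτ, Nat.cast_zero, zero_mul],
      add_zero]
  | succ N ih =>
    obtain ⟨τ, hτS, hτ0⟩ : ∃ τ ∈ S, m τ ≠ 0 :=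
      exists_ne_zero_of_sum_ne_zero (by rw [hN]; exact Nat.succ_ne_zero N)
    have hτ := hS τ hτS
    obtain ⟨η₀, h₀⟩ := D.sheet_exists h hf hc hτ
    have hc0 : c ≠ 0 := ke11_c_ne D h₀
    have hu := D.g0_ne hτ
    obtain ⟨G', hG'⟩ := exists_div_geom h₀.1 ((hm τ η₀ hτ h₀).eq_zero h₀.1 hτ0) D.g0
    have hHZ := finZ_geom hr (η₀ := η₀) hu D.g0
    have hHa := fun ρ η (hρ : D.Om ρ) (hs : D.Sheet c ρ η) => D.geom_abs h hf hτ hρ h₀ hs
    generalize (∑ i ∈ range ℓ, (C (C (D.g0.eval τ)) * Y) ^ i *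
      C (C η₀ * D.g0) ^ (ℓ - 1 - i) : k[X][Y]) = H at hG' hHZ hHa
    have hH : ∀ ρ η, D.Om ρ → D.Sheet c ρ η → H.evalEval ρ η ≠ 0 := by
      intro ρ η hρ hs h1
      have h2 := hHa ρ η hρ hs
      rw [h1, map_zero] at h2
      exact pow_ne_zero _ (ν.ne_zero (mul_ne_zero (mul_ne_zero hc0 hu) (D.g0_ne hρ))) h2.symm
    have hev : ∀ ρ η, η ^ ℓ = f.eval ρ →
        G.evalEval ρ η * H.evalEval ρ η = (ρ - τ) * G'.evalEval ρ η := by
      intro ρ η he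
      have h1 := ke11_dvd he hG'
      rwa [evalEval_sub, evalEval_mul, evalEval_mul, evalEval_C, eval_sub, eval_X, eval_C,
        sub_eq_zero] at h1
    have hZ : FinZ ℓ f G' := by
      refine (Set.Finite.union hG hHZ).subset ?_
      rintro ρ ⟨η, h1, h2⟩
      have h3 := hev ρ η h1
      rw [h2, mul_zero] at h3
      exact (mul_eq_zero.1 h3).imp (fun h4 => ⟨η, h1, h4⟩) fun h4 => ⟨η, h1, h4⟩
    obtain ⟨j, hj⟩ := Nat.exists_eq_succ_of_ne_zero hτ0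
    have hsum : ∀ F : k → ℝ, ∑ x ∈ S, (m x : ℝ) * F x =
        ∑ x ∈ S, (Function.update m τ j x : ℝ) * F x + F τ := by
      intro F
      rw [← add_sum_erase S _ hτS, ← add_sum_erase S _ hτS, Function.update_self, hj,
        sum_congr rfl (g := fun x => (m x : ℝ) * F x) (s₂ := S.erase τ)
          (f := fun x => (Function.update m τ j x : ℝ) * F x) fun x hx => by
            rw [Function.update_of_ne (ne_of_mem_erase hx)]]
      push_cast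
      ring
    obtain ⟨p, n, hpn⟩ := ih hZ (Function.update m τ j)
      (fun ρ η hρ hs => by
        by_cases hρτ : ρ = τ
        · subst hρτ
          rw [Function.update_self]
          have h1 := hm ρ η hρ hs
          rw [hj] at h1
          exact h1.div_eq hr.prime.ne_zero (hH ρ η hρ hs) hG'
        · rw [Function.update_of_ne hρτ]
          exact (hm ρ η hρ hs).div_ne (hH ρ η hρ hs) hG' hρτ)
      (fun ρ hρ hρS => by
        rw [Function.update_of_ne fun h1 : ρ = τ => hρS (h1 ▸ hτS)]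
        exact h0 ρ hρ hρS)
      (by
        have h1 := hsum fun _ => 1
        simp only [mul_one] at h1
        have h2 : ∑ x ∈ S, m x = ∑ x ∈ S, Function.update m τ j x + 1 := by exact_mod_cast h1
        omega)
    refine ⟨p - (ℓ - 1 : ℕ) * lg ν (c * D.g0.eval τ), fun b => n b - (ℓ - 1 : ℕ) * D.kk b,
      fun ρ η hρ hρS hs => ?_⟩
    obtain ⟨h1, h2⟩ := hpn ρ η hρ hρS hs
    have h3 := hev ρ η hs.1
    have h4 : ρ - τ ≠ 0 := sub_ne_zero.2 fun h5 => hρS (h5 ▸ hτS)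
    have h5 : G.evalEval ρ η ≠ 0 := left_ne_zero_of_mul (h3 ▸ mul_ne_zero h4 h1)
    refine ⟨h5, ?_⟩
    have h6 := congrArg (lg ν) h3
    rw [lg_mul h5 (hH ρ η hρ hs), lg_mul h4 h1, h2] at h6
    have h7 : lg ν (H.evalEval ρ η) = (ℓ - 1 : ℕ) * (lg ν (c * D.g0.eval τ) +
        ∑ b ∈ D.T, D.kk b * lg ν (ρ - b)) := by
      rw [← D.lg_g0 hρ, ← lg_mul (mul_ne_zero hc0 hu) (D.g0_ne hρ), lg, hHa ρ η hρ hs,
        Real.log_pow, lg]
    have h8 : ∑ b ∈ D.T, ((n b - (ℓ - 1 : ℕ) * D.kk b : ℤ) : ℝ) * lg ν (ρ - b) =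
        ∑ b ∈ D.T, n b * lg ν (ρ - b) - (ℓ - 1 : ℕ) * ∑ b ∈ D.T, D.kk b * lg ν (ρ - b) := by
      rw [mul_sum, ← sum_sub_distrib]
      refine sum_congr rfl fun b _ => ?_
      rw [Int.cast_sub, Int.cast_mul, Int.cast_natCast, Int.cast_natCast]
      ring
    rw [h8, hsum fun x => lg ν (ρ - x)]
    linarith

end Pool.Agent.Lib.MP_07b2d0_nt.Ks
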