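import Mathlib
import Pool.Agent.Lib.MP_07b2d0_nt.KE2
import Pool.Agent.Lib.MP_07b2d0_nt.KA3

set_option autoImplicit false
set_option linter.unusedSectionVars false
set_option linter.unusedVariables false

namespace Pool.Agent.Lib.MP_07b2d0_nt.Ks

open Polynomial Finset
open scoped Polynomial.Bivariate

variable {k : Type} [Field k] [IsAlgClosed k] [CharZero k] {ν : AbsoluteValue k ℝ} {ℓ : ℕ}
  {f : k[X]}

variable {b : k} {R : ℝ} {G : k[X][Y]} {μ : ℝ} {ζ : k}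

theorem ke3_unif {ι : Type} {up : Bool} (S : Finset ι) (P : ι → k → Prop)
    (H : ∀ i ∈ S, ∃ ε > 0, ∀ ρ, Near ν b R up ε ρ → P i ρ) :
    ∃ ε > 0, ∀ ρ, Near ν b R up ε ρ → ∀ i ∈ S, P i ρ := by
  classical
  induction S using Finset.induction_on with
  | empty => exact ⟨1, one_pos, fun ρ _ i hi => by simp at hi⟩
  | insert j S hj ih =>
    obtain ⟨ε₁, h1, H1⟩ := H j (mem_insert_self _ _)
    obtain ⟨ε₂, h2, H2⟩ := ih fun i hi => H i (mem_insert_of_mem hi)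
    refine ⟨min ε₁ ε₂, lt_min h1 h2, fun ρ hρ i hi => ?_⟩
    rcases mem_insert.1 hi with rfl | hi
    · exact H1 ρ (hρ.mono (min_le_left _ _))
    · exact H2 ρ (hρ.mono (min_le_right _ _)) i hi

theorem ke3_sum (G : k[X][Y]) (ρ η : k) :
    G.evalEval ρ η = ∑ i ∈ G.support, (G.coeff i).eval ρ * η ^ i := by
  rw [evalEval, eval_eq_sum (p := G), Polynomial.sum, eval_finsetSum]
  simp

theorem ke3_hh {up : Bool} {ε : ℝ} {ρ : k} (h : Near ν b R up ε ρ) : hh ν b R ρ ≠ 0 := by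
  cases up
  · exact (h.2.2.2 rfl).ne
  · exact (h.2.2.1 rfl).ne'

theorem ke3_lines (m m' : ℝ) {s s' : ℝ} (hs : s ≠ s') :
    ∃ ε > 0, ∀ t : ℝ, t ≠ 0 → |t| < ε → m + s * t ≠ m' + s' * t := by
  have hs' : s - s' ≠ 0 := sub_ne_zero.2 hs
  by_cases hm : m = m'
  · refine ⟨1, one_pos, fun t ht _ he => ?_⟩
    have : (s - s') * t = 0 := by
      rw [hm] at he
      linarith
    rcases mul_eq_zero.1 this with h | h
    · exact hs' h
    · exact ht h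
  · refine ⟨|(m' - m) / (s - s')|,
      abs_pos.2 (div_ne_zero (sub_ne_zero.2 (Ne.symm hm)) hs'), fun t _ hlt he => ?_⟩
    have : t = (m' - m) / (s - s') := by
      field_simp
      linarith
    rw [← this] at hlt
    exact lt_irrefl _ hlt

theorem ke3_slope (hℓ : ℓ.Prime) {c : ℕ} (hc : ¬ ℓ ∣ c) {i j : ℕ} (hi : i < ℓ) (hj : j < ℓ)
    (hij : i ≠ j) (u v : ℕ) : (u : ℝ) + i / ℓ * c ≠ (v : ℝ) + j / ℓ * c := by
  intro he
  have hl : (ℓ : ℝ) ≠ 0 := Nat.cast_ne_zero.2 hℓ.ne_zero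
  have h1 : (u * ℓ + i * c : ℝ) = v * ℓ + j * c := by
    field_simp at he
    linarith
  have h2 : u * ℓ + i * c = v * ℓ + j * c := by exact_mod_cast h1
  have h3 : i * c ≡ j * c [MOD ℓ] := by
    have h4 : (u * ℓ + i * c) % ℓ = (v * ℓ + j * c) % ℓ := by rw [h2]
    simpa [Nat.ModEq] using h4
  have h5 : i ≡ j [MOD ℓ] :=
    Nat.ModEq.cancel_right_of_coprime ((Nat.Prime.coprime_iff_not_dvd hℓ).2 hc) h3
  exact hij (Nat.ModEq.eq_of_lt_of_lt h5 hi hj)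

theorem exists_isGm (hG : G ≠ 0) (b : k) (R : ℝ) : ∃ μ, IsGm ν ℓ f b R G μ := by
  obtain ⟨i, hi, hm⟩ := Finset.exists_max_image G.support
    (fun i : ℕ => mu ν b R (G.coeff i) + i / ℓ * mu ν b R f) (support_nonempty.2 hG)
  refine ⟨_, ⟨i, mem_support_iff.1 hi, rfl⟩, ?_⟩
  rintro t ⟨j, hj, rfl⟩
  exact hm j (mem_support_iff.2 hj)

theorem IsGm.center (h : NA ν ℓ) {b' : k} (hb : ν (b' - b) ≤ R) (hμ : IsGm ν ℓ f b R G μ) :
    IsGm ν ℓ f b' R G μ := by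
  unfold IsGm at hμ ⊢
  simpa only [mu_center h hb] using hμ

/-- The terms of `G(ρ, η) = ∑ i ∈ G.support, (G.coeff i)(ρ) * η ^ i` near a vertex
(`poly_near` for the finitely many coefficients and for `f`; `ℓ * lg η = lg (f.eval ρ)`). -/
theorem near_terms (h : NA ν ℓ) (hℓ : ℓ ≠ 0) (hf : f ≠ 0) (hR : 0 < R) (G : k[X][Y]) (b : k)
    (up : Bool) : ∃ ε > 0, ∀ ρ η, Near ν b R up ε ρ → η ^ ℓ = f.eval ρ → ∀ i, G.coeff i ≠ 0 →
      (G.coeff i).eval ρ * η ^ i ≠ 0 ∧ lg ν ((G.coeff i).eval ρ * η ^ i) =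
        (mu ν b R (G.coeff i) + i / ℓ * mu ν b R f) +
          (cnt ν b R up (G.coeff i) + i / ℓ * cnt ν b R up f) * hh ν b R ρ := by
  obtain ⟨ε₁, h1, H1⟩ := poly_near h hR hf b up
  obtain ⟨ε₂, h2, H2⟩ := ke3_unif (ν := ν) (b := b) (R := R) (up := up) G.support
    (fun i ρ => (G.coeff i).eval ρ ≠ 0 ∧ lg ν ((G.coeff i).eval ρ) =
      mu ν b R (G.coeff i) + cnt ν b R up (G.coeff i) * hh ν b R ρ)
    fun i hi => poly_near h hR (mem_support_iff.1 hi) b up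
  refine ⟨min ε₁ ε₂, lt_min h1 h2, fun ρ η hρ hη i hi => ?_⟩
  obtain ⟨a1, a2⟩ := H1 ρ (hρ.mono (min_le_left _ _))
  obtain ⟨a3, a4⟩ := H2 ρ (hρ.mono (min_le_right _ _)) i (mem_support_iff.2 hi)
  have hη0 : η ≠ 0 := by
    rintro rfl
    rw [zero_pow hℓ] at hη
    exact a1 hη.symm
  have hl : (ℓ : ℝ) ≠ 0 := Nat.cast_ne_zero.2 hℓ
  have a5 : lg ν η = (mu ν b R f + cnt ν b R up f * hh ν b R ρ) / ℓ := by
    rw [← a2, ← hη, lg_pow]
    field_simp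
  refine ⟨mul_ne_zero a3 (pow_ne_zero _ hη0), ?_⟩
  rw [lg_mul a3 (pow_ne_zero _ hη0), lg_pow, a4, a5]
  ring

theorem IsGm.upper (h : NA ν ℓ) (hℓ : ℓ ≠ 0) (hf : f ≠ 0) (hR : 0 < R)
    (hμ : IsGm ν ℓ f b R G μ) (up : Bool) : ∃ ε > 0, ∃ C : ℝ, ∀ ρ η, Near ν b R up ε ρ →
      η ^ ℓ = f.eval ρ → G.evalEval ρ η ≠ 0 → lg ν (G.evalEval ρ η) ≤ μ + C * |hh ν b R ρ| := by
  obtain ⟨ε, h1, H⟩ := near_terms h hℓ hf hR G b up
  set s : ℕ → ℝ := fun i => cnt ν b R up (G.coeff i) + i / ℓ * cnt ν b R up f with hs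
  refine ⟨ε, h1, ∑ i ∈ G.support, |s i|, fun ρ η hρ hη hG => ?_⟩
  rw [lg, Real.log_le_iff_le_exp (ν.pos hG), ke3_sum]
  refine h.sum_le _ (Real.exp_pos _).le fun i hi => ?_
  obtain ⟨a1, a2⟩ := H ρ η hρ hη i (mem_support_iff.1 hi)
  rw [← Real.log_le_iff_le_exp (ν.pos a1)]
  change lg ν _ ≤ _
  rw [a2]
  have b1 := hμ.2 ⟨i, mem_support_iff.1 hi, rfl⟩
  have b2 : |s i| ≤ ∑ i ∈ G.support, |s i| :=
    Finset.single_le_sum (f := fun i => |s i|) (fun _ _ => abs_nonneg _) hi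
  have b3 : s i * hh ν b R ρ ≤ (∑ i ∈ G.support, |s i|) * |hh ν b R ρ| := by
    refine (le_abs_self _).trans ?_
    rw [abs_mul]
    exact mul_le_mul_of_nonneg_right b2 (abs_nonneg _)
  exact add_le_add b1 b3

/-- In a ramified direction the slopes `cnt (G.coeff i) + i / ℓ * cnt f`, `i < ℓ`, are pairwise
distinct, so for small `hh ≠ 0` the terms have pairwise distinct absolute values and `ν G(ρ, η)` is
the largest of them. -/
theorem IsGm.lower (h : NA ν ℓ) (hℓ : ℓ.Prime) (hf : f ≠ 0) (hR : 0 < R)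
    (hμ : IsGm ν ℓ f b R G μ) (hG : G.natDegree < ℓ) {up : Bool} (hc : ¬ ℓ ∣ cnt ν b R up f) :
    ∃ ε > 0, ∃ C : ℝ, ∀ ρ η, Near ν b R up ε ρ → η ^ ℓ = f.eval ρ →
      G.evalEval ρ η ≠ 0 ∧ μ ≤ lg ν (G.evalEval ρ η) + C * |hh ν b R ρ| := by
  classical
  obtain ⟨ε₁, h1, H⟩ := near_terms h hℓ.ne_zero hf hR G b up
  set s : ℕ → ℝ := fun i => cnt ν b R up (G.coeff i) + i / ℓ * cnt ν b R up f with hs
  set m : ℕ → ℝ := fun i => mu ν b R (G.coeff i) + i / ℓ * mu ν b R f with hm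
  have hlt : ∀ i ∈ G.support, i < ℓ := fun i hi =>
    (le_natDegree_of_mem_supp i hi).trans_lt hG
  obtain ⟨ε₂, h2, H2⟩ := ke3_unif (ν := ν) (b := b) (R := R) (up := up) (G.support ×ˢ G.support)
    (fun p ρ => p.1 ≠ p.2 → m p.1 + s p.1 * hh ν b R ρ ≠ m p.2 + s p.2 * hh ν b R ρ)
    (by
      rintro ⟨i, j⟩ hp
      obtain ⟨hi, hj⟩ := mem_product.1 hp
      by_cases hij : i = j
      · exact ⟨1, one_pos, fun ρ _ hne => (hne hij).elim⟩
      · obtain ⟨ε, hε, He⟩ := ke3_lines (m i) (m j)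
          (ke3_slope hℓ hc (hlt i hi) (hlt j hj) hij (cnt ν b R up (G.coeff i))
            (cnt ν b R up (G.coeff j)))
        exact ⟨ε, hε, fun ρ hρ _ => He _ (ke3_hh hρ) hρ.2.1⟩)
  obtain ⟨i₁, hi₁, hμ₁⟩ := hμ.1
  have hi₁' : i₁ ∈ G.support := mem_support_iff.2 hi₁
  refine ⟨min ε₁ ε₂, lt_min h1 h2, |s i₁|, fun ρ η hρ hη => ?_⟩
  have H' := H ρ η (hρ.mono (min_le_left _ _)) hη
  have H2' := H2 ρ (hρ.mono (min_le_right _ _))
  obtain ⟨i₀, hi₀, hmax⟩ := Finset.exists_max_image G.support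
    (fun i => m i + s i * hh ν b R ρ) ⟨i₁, hi₁'⟩
  obtain ⟨a1, a2⟩ := H' i₀ (mem_support_iff.1 hi₀)
  have hsmall : ν (∑ i ∈ G.support.erase i₀, (G.coeff i).eval ρ * η ^ i) <
      ν ((G.coeff i₀).eval ρ * η ^ i₀) := by
    refine h.sum_lt _ (ν.pos a1) fun i hi => ?_
    obtain ⟨hne, hi'⟩ := mem_erase.1 hi
    obtain ⟨c1, c2⟩ := H' i (mem_support_iff.1 hi')
    rw [← Real.log_lt_log_iff (ν.pos c1) (ν.pos a1)]
    change lg ν _ < lg ν _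
    rw [a2, c2]
    exact lt_of_le_of_ne (hmax i hi') (H2' (i, i₀) (mem_product.2 ⟨hi', hi₀⟩) hne)
  have hval : ν (G.evalEval ρ η) = ν ((G.coeff i₀).eval ρ * η ^ i₀) := by
    refine h.eq_of_lt ?_
    rw [ke3_sum, ← Finset.add_sum_erase _ _ hi₀, add_sub_cancel_left]
    exact hsmall
  refine ⟨?_, ?_⟩
  · intro h0
    rw [h0, map_zero] at hval
    exact (ν.pos a1).ne hval
  · have e1 : lg ν (G.evalEval ρ η) = m i₀ + s i₀ * hh ν b R ρ := by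
      rw [lg, hval]
      exact a2
    have e2 := hmax i₁ hi₁'
    have e3 : -(s i₁ * hh ν b R ρ) ≤ |s i₁| * |hh ν b R ρ| := by
      rw [← abs_mul]
      exact neg_le_abs _
    have e4 : μ = m i₁ := hμ₁
    rw [e1, e4]
    linarith

end Pool.Agent.Lib.MP_07b2d0_nt.Ks
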