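import Mathlib
import Pool.Agent.Lib.MP_07b2d0_nt.KE3

set_option autoImplicit false
set_option linter.unusedSectionVars false
set_option linter.unusedVariables false

namespace Pool.Agent.Lib.MP_07b2d0_nt.Ks

open Polynomial Finset
open scoped Polynomial.Bivariate

variable {k : Type} [Field k] [IsAlgClosed k] [CharZero k] {ν : AbsoluteValue k ℝ} {ℓ : ℕ}
  {f : k[X]}

variable {b : k} {R : ℝ} {G : k[X][Y]} {M : k[X]} {μ : ℝ} {ζ : k}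

theorem ke4_pow (hζ : IsPrimitiveRoot ζ ℓ) {η z : k} (hη : η ^ ℓ = z) (i : ℕ) :
    (ζ ^ i * η) ^ ℓ = z := by
  rw [mul_pow, ← pow_mul, mul_comm i ℓ, pow_mul, hζ.pow_eq_one, one_pow, one_mul, hη]

theorem ke4_lg (hM : IsNrm ℓ ζ f G M) {ρ η : k} (hη : η ^ ℓ = f.eval ρ) (h0 : M.eval ρ ≠ 0) :
    (∀ i ∈ range ℓ, G.evalEval ρ (ζ ^ i * η) ≠ 0) ∧
      lg ν (M.eval ρ) = ∑ i ∈ range ℓ, lg ν (G.evalEval ρ (ζ ^ i * η)) := by
  rw [hM.eval_eq hη] at h0 ⊢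
  have h1 := Finset.prod_ne_zero_iff.1 h0
  exact ⟨h1, lg_prod _ h1⟩

/-- Move to the ramified direction `(b', up)` (`mu_center`, `IsGm.center`); there
`lg M(ρ) = ∑ lg G(ρ, ζ ^ i * η)` (`IsNrm.eval_eq`) is within `C * |hh|` of `ℓ * μ` (`IsGm.upper`,
`IsGm.lower`) and of `mu M` (`poly_near`); use `NA.near_le` twice. -/
theorem IsGm.mu_nrm (h : NA ν ℓ) (hℓ : ℓ.Prime) (hζ : IsPrimitiveRoot ζ ℓ) (hf : f ≠ 0)
    (hR : 0 < R) (hns : NonSplit ν ℓ f b R) (hG : G.natDegree < ℓ) (hM : IsNrm ℓ ζ f G M)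
    (hM0 : M ≠ 0) (hμ : IsGm ν ℓ f b R G μ) : mu ν b R M = ℓ * μ := by
  obtain ⟨b', up, hb, hc⟩ := hns
  have hμ' := hμ.center h hb
  rw [← mu_center h hb M]
  obtain ⟨ε₁, hε₁, C₁, H₁⟩ := hμ'.upper h hℓ.ne_zero hf hR up
  obtain ⟨ε₂, hε₂, C₂, H₂⟩ := hμ'.lower h hℓ hf hR hG hc
  obtain ⟨ε₃, hε₃, H₃⟩ := poly_near h hR hM0 b' up
  have hε : 0 < min ε₁ (min ε₂ ε₃) := lt_min hε₁ (lt_min hε₂ hε₃)
  have key : ∀ ρ, Near ν b' R up (min ε₁ (min ε₂ ε₃)) ρ →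
      mu ν b' R M + cnt ν b' R up M * hh ν b' R ρ ≤ ℓ * μ + ℓ * C₁ * |hh ν b' R ρ| ∧
      ℓ * μ ≤ mu ν b' R M + cnt ν b' R up M * hh ν b' R ρ + ℓ * C₂ * |hh ν b' R ρ| := by
    intro ρ hρ
    obtain ⟨η, hη⟩ := IsAlgClosed.exists_pow_nat_eq (f.eval ρ) hℓ.pos
    obtain ⟨n0, e0⟩ := H₃ ρ (hρ.mono ((min_le_right _ _).trans (min_le_right _ _)))
    obtain ⟨n1, e1⟩ := ke4_lg (ν := ν) hM hη n0
    rw [← e0, e1]
    constructor
    · have := Finset.sum_le_sum fun i (hi : i ∈ range ℓ) =>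
        H₁ ρ _ (hρ.mono (min_le_left _ _)) (ke4_pow hζ hη i) (n1 i hi)
      rw [Finset.sum_const, card_range, nsmul_eq_mul] at this
      linarith
    · have := Finset.sum_le_sum fun i (hi : i ∈ range ℓ) =>
        (H₂ ρ _ (hρ.mono ((min_le_right _ _).trans (min_le_left _ _))) (ke4_pow hζ hη i)).2
      rw [Finset.sum_const, card_range, nsmul_eq_mul, Finset.sum_add_distrib, Finset.sum_const,
        card_range, nsmul_eq_mul] at this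
      linarith
  have hab : ∀ ρ, |(cnt ν b' R up M : ℝ) * hh ν b' R ρ| = cnt ν b' R up M * |hh ν b' R ρ| := by
    intro ρ
    rw [abs_mul, abs_of_nonneg (Nat.cast_nonneg _)]
  apply le_antisymm
  · refine h.near_le (b := b') (R := R) (up := up) (C := ℓ * C₁ + cnt ν b' R up M) hε fun ρ hρ => ?_
    have h1 := (key ρ hρ).1
    have h2 := neg_abs_le ((cnt ν b' R up M : ℝ) * hh ν b' R ρ)
    rw [hab] at h2
    linarith
  · refine h.near_le (b := b') (R := R) (up := up) (C := ℓ * C₂ + cnt ν b' R up M) hε fun ρ hρ => ?_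
    have h1 := (key ρ hρ).2
    have h2 := le_abs_self ((cnt ν b' R up M : ℝ) * hh ν b' R ρ)
    rw [hab] at h2
    linarith

/-- All sheets meet at a non split vertex.  `G ≠ 0` since `M ≠ 0`.  Each `p s ≤ μ` (`IsGm.upper`,
`NA.near_le`), and `∑ p s = mu M = ℓ * μ`, `∑ q s = cnt M` (`poly_near`, `NA.near_eq`). -/
theorem ns_main (h : NA ν ℓ) (hℓ : ℓ.Prime) (hζ : IsPrimitiveRoot ζ ℓ) (hf : f ≠ 0)
    (hR : 0 < R) (hns : NonSplit ν ℓ f b R) (hG : G.natDegree < ℓ) (hM : IsNrm ℓ ζ f G M)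
    (hM0 : M ≠ 0) (up : Bool) {ε : ℝ} (hε : 0 < ε) (p q : ℕ → ℝ)
    (H : ∀ ρ, Near ν b R up ε ρ → ∃ η, η ^ ℓ = f.eval ρ ∧
      ∀ s < ℓ, lg ν (G.evalEval ρ (ζ ^ s * η)) = p s + q s * hh ν b R ρ) :
    (∀ s < ℓ, ∀ s' < ℓ, p s = p s') ∧ ∑ s ∈ range ℓ, q s = cnt ν b R up M := by
  obtain ⟨ε₃, hε₃, H₃⟩ := poly_near h hR hM0 b up
  have hG0 : G ≠ 0 := by
    rintro rfl
    obtain ⟨ρ, hρ⟩ := h.near_exists b R up hε₃
    obtain ⟨η, hη⟩ := IsAlgClosed.exists_pow_nat_eq (f.eval ρ) hℓ.pos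
    exact (ke4_lg (ν := ν) hM hη (H₃ ρ hρ).1).1 0 (mem_range.2 hℓ.pos) (by simp)
  obtain ⟨μ, hμ⟩ := exists_isGm (ν := ν) (ℓ := ℓ) (f := f) hG0 b R
  have hmu := hμ.mu_nrm h hℓ hζ hf hR hns hG hM hM0
  obtain ⟨ε₁, hε₁, C₁, H₁⟩ := hμ.upper h hℓ.ne_zero hf hR up
  have hε' : 0 < min ε (min ε₁ ε₃) := lt_min hε (lt_min hε₁ hε₃)
  have hle : ∀ s ∈ range ℓ, p s ≤ μ := by
    intro s hs
    refine h.near_le (b := b) (R := R) (up := up) (C := C₁ + |q s|) hε' fun ρ hρ => ?_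
    obtain ⟨η, hη, e⟩ := H ρ (hρ.mono (min_le_left _ _))
    obtain ⟨n0, -⟩ := H₃ ρ (hρ.mono ((min_le_right _ _).trans (min_le_right _ _)))
    have h1 := H₁ ρ _ (hρ.mono ((min_le_right _ _).trans (min_le_left _ _))) (ke4_pow hζ hη s)
      ((ke4_lg (ν := ν) hM hη n0).1 s hs)
    rw [e s (mem_range.1 hs)] at h1
    have h2 := neg_abs_le (q s * hh ν b R ρ)
    rw [abs_mul] at h2
    linarith
  have hsum : ∑ s ∈ range ℓ, p s = mu ν b R M ∧ ∑ s ∈ range ℓ, q s = cnt ν b R up M := by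
    refine h.near_eq (b := b) (R := R) (up := up) hε' fun ρ hρ => ?_
    obtain ⟨η, hη, e⟩ := H ρ (hρ.mono (min_le_left _ _))
    obtain ⟨n0, e0⟩ := H₃ ρ (hρ.mono ((min_le_right _ _).trans (min_le_right _ _)))
    rw [← e0, (ke4_lg (ν := ν) hM hη n0).2, Finset.sum_mul, ← Finset.sum_add_distrib]
    exact Finset.sum_congr rfl fun s hs => (e s (mem_range.1 hs)).symm
  refine ⟨?_, hsum.2⟩
  have hall : ∀ s ∈ range ℓ, p s = μ := by
    refine (Finset.sum_eq_sum_iff_of_le hle).1 ?_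
    rw [hsum.1, hmu, Finset.sum_const, card_range, nsmul_eq_mul]
  intro s hs s' hs'
  rw [hall s (mem_range.2 hs), hall s' (mem_range.2 hs')]

end Pool.Agent.Lib.MP_07b2d0_nt.Ks
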