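import Mathlib
import Pool.Agent.Lib.MP_07b2d0_nt.KE10
import Pool.Agent.Lib.MP_07b2d0_nt.KE4

set_option autoImplicit false
set_option linter.unusedSectionVars false
set_option linter.unusedVariables false

namespace Pool.Agent.Lib.MP_07b2d0_nt.Ks

open Polynomial Finset
open scoped Polynomial.Bivariate

variable {k : Type} [Field k] [IsAlgClosed k] [CharZero k] {ν : AbsoluteValue k ℝ} {ℓ : ℕ}
  {f : k[X]}
variable (D : Reg ν ℓ f)

/-- Boundary conditions.  Apply `ns_main` at the vertex `(b, R b)` with `up = true` (`near_in`),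
where `p_s = p s + n s b * log (R b) + ∑ b' ≠ b, n s b' * lg (b - b') + ∑ τ, m s τ * lg (b - τ)` and
`q_s = n s b`, and at `(a0, R0)` with `up = false` (`near_out`), where
`q_s = ∑ b, n s b + ∑ τ, m s τ` and `p_s = p s + q_s * log R0`; points of the sheet `ζ ^ s * c` are
`ζ ^ s * η` (`sheet_exists`, `sheet_mul`).  Subtract. -/
theorem Reg.bdry (h : NA ν ℓ) (hr : Ram ℓ f) {ζ c : k} (hζ : IsPrimitiveRoot ζ ℓ)
    (hc : c ^ ℓ = D.kap) {G : k[X][Y]} {M : k[X]} (hG : G.natDegree < ℓ) (hM : IsNrm ℓ ζ f G M)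
    (hM0 : M ≠ 0) (S : Finset k) (hS : ∀ τ ∈ S, D.Om τ) (m : ℕ → k → ℕ) (p : ℕ → ℝ)
    (n : ℕ → k → ℤ) (H : ∀ s < ℓ, D.Form (ζ ^ s * c) G S (m s) (p s) (n s)) {b : k}
    (hb : b ∈ D.T) :
    (∀ s < ℓ, ∀ s' < ℓ, ∑ b' ∈ D.T, D.Mx b b' * (n s b' - n s' b' : ℤ) =
      -∑ τ ∈ S, ((m s τ : ℤ) - m s' τ : ℤ) * (Real.log D.R0 - lg ν (b - τ))) ∧
    ∑ s ∈ range ℓ, n s b = cnt ν b (D.R b) true M := by
  classical
  have hf : f ≠ 0 := by
    rintro rfl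
    exact hr.deg (by simp)
  have hℓ : ℓ ≠ 0 := hr.prime.ne_zero
  have key : ∀ ρ, D.Om ρ → ρ ∉ S → ∃ η, η ^ ℓ = f.eval ρ ∧ ∀ s < ℓ,
      lg ν (G.evalEval ρ (ζ ^ s * η)) =
        p s + ∑ b ∈ D.T, n s b * lg ν (ρ - b) + ∑ τ ∈ S, m s τ * lg ν (ρ - τ) := by
    intro ρ h1 h2
    obtain ⟨η, hη⟩ := D.sheet_exists h hf hc h1
    refine ⟨η, hη.1, fun s hs => (H s hs ρ _ h1 h2 (D.sheet_mul hℓ ?_ hη)).2⟩
    rw [← pow_mul, mul_comm, pow_mul, hζ.pow_eq_one, one_pow]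
  obtain ⟨L, hL⟩ : ∃ L : k → ℝ,
      ∀ b', L b' = if b = b' then Real.log (D.R b) else lg ν (b - b') := ⟨_, fun _ => rfl⟩
  obtain ⟨ε₁, hε₁, h₁⟩ := D.near_in h hb S hS
  obtain ⟨ε₂, hε₂, h₂⟩ := D.near_out h S hS
  obtain ⟨A1, A2⟩ := ns_main h hr.prime hζ hf (D.pos b hb) (D.ns b hb) hG hM hM0 true hε₁
    (fun s => p s + ∑ b' ∈ D.T, n s b' * L b' + ∑ τ ∈ S, m s τ * lg ν (b - τ))
    (fun s => n s b) fun ρ hρ => by
      obtain ⟨a1, a2, a3, a4⟩ := h₁ ρ hρ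
      obtain ⟨η, e1, e2⟩ := key ρ a1 a2
      refine ⟨η, e1, fun s hs => ?_⟩
      have e3 : ∑ b' ∈ D.T, n s b' * lg ν (ρ - b') = ∑ b' ∈ D.T,
          (n s b' * L b' + if b = b' then n s b * hh ν b (D.R b) ρ else 0) := by
        refine sum_congr rfl fun b' hb' => ?_
        rw [hL]
        split_ifs with e
        · subst e
          unfold hh
          ring
        · unfold lg
          rw [a3 b' hb' (Ne.symm e), add_zero]
      have e4 : ∑ τ ∈ S, m s τ * lg ν (ρ - τ) = ∑ τ ∈ S, m s τ * lg ν (b - τ) :=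
        sum_congr rfl fun τ hτ => by unfold lg; rw [a4 τ hτ]
      rw [e2 s hs, e3, e4, sum_add_distrib, sum_ite_eq, if_pos hb]
      ring
  obtain ⟨B1, -⟩ := ns_main h hr.prime hζ hf D.R0_pos D.ns0 hG hM hM0 false hε₂
    (fun s => p s + (∑ b' ∈ D.T, (n s b' : ℝ) + ∑ τ ∈ S, (m s τ : ℝ)) * Real.log D.R0)
    (fun s => ∑ b' ∈ D.T, (n s b' : ℝ) + ∑ τ ∈ S, (m s τ : ℝ)) fun ρ hρ => by
      obtain ⟨a1, a2, a3, a4⟩ := h₂ ρ hρ
      obtain ⟨η, e1, e2⟩ := key ρ a1 a2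
      refine ⟨η, e1, fun s hs => ?_⟩
      have e3 : ∑ b' ∈ D.T, n s b' * lg ν (ρ - b') = ∑ b' ∈ D.T, n s b' * lg ν (ρ - D.a0) :=
        sum_congr rfl fun b' hb' => by unfold lg; rw [a3 b' hb']
      have e4 : ∑ τ ∈ S, m s τ * lg ν (ρ - τ) = ∑ τ ∈ S, m s τ * lg ν (ρ - D.a0) :=
        sum_congr rfl fun τ hτ => by unfold lg; rw [a4 τ hτ]
      rw [e2 s hs, e3, e4, ← sum_mul, ← sum_mul]
      unfold hh
      ring
  refine ⟨fun s hs s' hs' => ?_, by exact_mod_cast A2⟩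
  have e1 := A1 s hs s' hs'
  have e2 := B1 s hs s' hs'
  have e3 : ∑ b' ∈ D.T, D.Mx b b' * (n s b' - n s' b' : ℤ) = ∑ b' ∈ D.T,
      (n s b' * Real.log D.R0 - n s' b' * Real.log D.R0 - (n s b' * L b' - n s' b' * L b')) := by
    refine sum_congr rfl fun b' _ => ?_
    have e4 : D.Mx b b' = Real.log D.R0 - L b' := by
      rw [hL]
      unfold Reg.Mx
      congr
    rw [e4]
    push_cast
    ring
  have e5 : ∑ τ ∈ S, ((m s τ : ℤ) - m s' τ : ℤ) * (Real.log D.R0 - lg ν (b - τ)) = ∑ τ ∈ S,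
      (m s τ * Real.log D.R0 - m s' τ * Real.log D.R0 -
        (m s τ * lg ν (b - τ) - m s' τ * lg ν (b - τ))) := by
    refine sum_congr rfl fun τ _ => ?_
    push_cast
    ring
  rw [e3, e5]
  simp only [sum_sub_distrib, ← sum_mul]
  linarith

end Pool.Agent.Lib.MP_07b2d0_nt.Ks
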