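import Mathlib
import Pool.Agent.Lib.MP_07b2d0_nt.KE1

set_option autoImplicit false
set_option linter.unusedSectionVars false
set_option linter.unusedVariables false

namespace Pool.Agent.Lib.MP_07b2d0_nt.Ks

open Finset Matrix

open Classical in
theorem ke13_rel_psd {ι : Type} [Fintype ι] (r : ι → ι → Prop) (hs : ∀ i j, r i j → r j i)
    (ht : ∀ i j l, r i j → r j l → r i l) (n : ι → ℝ) :
    0 ≤ ∑ i, ∑ j, n i * (if r i j then (1 : ℝ) else 0) * n j := by
  set w : ι → ℝ := fun x => ((univ.filter fun y => r x y).card : ℝ)⁻¹ with hw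
  have key : ∀ i j, (if r i j then (1 : ℝ) else 0) =
      ∑ x, w x * (if r x i then (1 : ℝ) else 0) * (if r x j then (1 : ℝ) else 0) := by
    intro i j
    by_cases hij : r i j
    · rw [if_pos hij]
      have h1 : ∀ x, w x * (if r x i then (1 : ℝ) else 0) * (if r x j then (1 : ℝ) else 0) =
          if r i x then w i else 0 := by
        intro x
        by_cases hx : r i x
        · have hcls : (univ.filter fun y => r x y) = univ.filter fun y => r i y := by
            ext y
            simp only [mem_filter, mem_univ, true_and]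
            exact ⟨fun h => ht _ _ _ hx h, fun h => ht _ _ _ (hs _ _ hx) h⟩
          rw [if_pos hx, if_pos (hs _ _ hx), if_pos (ht _ _ _ (hs _ _ hx) hij)]
          simp only [hw, hcls, mul_one]
        · rw [if_neg hx, if_neg (fun h => hx (hs _ _ h))]
          ring
      simp only [h1]
      rw [← Finset.sum_filter, Finset.sum_const, nsmul_eq_mul]
      have hpos : ((univ.filter fun y => r i y).card : ℝ) ≠ 0 := by
        have : (univ.filter fun y => r i y).Nonempty := ⟨j, by simp [hij]⟩
        exact_mod_cast this.card_pos.ne'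
      simp only [hw]
      rw [mul_inv_cancel₀ hpos]
    · rw [if_neg hij]
      symm
      refine Finset.sum_eq_zero fun x _ => ?_
      by_cases h1 : r x i
      · rw [if_neg (fun h2 => hij (ht _ _ _ (hs _ _ h1) h2)), mul_zero]
      · rw [if_neg h1, mul_zero, zero_mul]
  have h2 : ∑ i, ∑ j, n i * (if r i j then (1 : ℝ) else 0) * n j =
      ∑ x, w x * (∑ i, (if r x i then (1 : ℝ) else 0) * n i) ^ 2 := by
    have h3 : ∀ x, w x * (∑ i, (if r x i then (1 : ℝ) else 0) * n i) ^ 2 =
        ∑ i, ∑ j, n i * (w x * (if r x i then (1 : ℝ) else 0) *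
          (if r x j then (1 : ℝ) else 0)) * n j := by
      intro x
      rw [sq, Finset.sum_mul_sum, Finset.mul_sum]
      refine Finset.sum_congr rfl fun i _ => ?_
      rw [Finset.mul_sum]
      refine Finset.sum_congr rfl fun j _ => ?_
      ring
    simp only [h3]
    rw [Finset.sum_comm (s := univ) (t := univ)
      (f := fun x i => ∑ j, n i * (w x * (if r x i then (1 : ℝ) else 0) *
          (if r x j then (1 : ℝ) else 0)) * n j)]
    refine Finset.sum_congr rfl fun i _ => ?_
    rw [Finset.sum_comm]
    refine Finset.sum_congr rfl fun j _ => ?_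
    rw [key i j, Finset.mul_sum, Finset.sum_mul]
  rw [h2]
  refine Finset.sum_nonneg fun x _ => mul_nonneg ?_ (sq_nonneg _)
  exact inv_nonneg.mpr (Nat.cast_nonneg _)

open Classical in
theorem ke13_psd_aux {ι : Type} [Fintype ι] (n : ι → ℝ) (K : ℕ) : ∀ (M : ι → ι → ℝ),
    (univ.filter fun p : ι × ι => 0 < M p.1 p.2).card ≤ K → (∀ i j, 0 ≤ M i j) →
    (∀ i j, M i j = M j i) → (∀ i j l, min (M i j) (M j l) ≤ M i l) →
    0 ≤ ∑ i, ∑ j, n i * M i j * n j := by
  induction K with
  | zero =>
    intro M hc h0 hs hu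
    have hz : ∀ i j, M i j = 0 := by
      intro i j
      by_contra hne
      have : (i, j) ∈ univ.filter fun p : ι × ι => 0 < M p.1 p.2 := by
        simp [lt_of_le_of_ne (h0 i j) (Ne.symm hne)]
      have h2 := Finset.card_pos.mpr ⟨_, this⟩
      omega
    simp [hz]
  | succ K ih =>
    intro M hc h0 hs hu
    by_cases hne : (univ.filter fun p : ι × ι => 0 < M p.1 p.2).Nonempty
    swap
    · refine ih M ?_ h0 hs hu
      rw [Finset.not_nonempty_iff_eq_empty] at hne
      rw [hne]
      simp
    obtain ⟨p, hp, hmin⟩ := Finset.exists_min_image _ (fun p : ι × ι => M p.1 p.2) hne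
    set h := M p.1 p.2 with hh
    have hpos : 0 < h := (Finset.mem_filter.mp hp).2
    have hle : ∀ i j, 0 < M i j → h ≤ M i j := fun i j hij => hmin (i, j) (by simp [hij])
    have hdec : ∀ i j, M i j = max (M i j - h) 0 + h * (if 0 < M i j then (1 : ℝ) else 0) := by
      intro i j
      by_cases hij : 0 < M i j
      · rw [if_pos hij, max_eq_left (by linarith [hle i j hij])]
        ring
      · have : M i j = 0 := le_antisymm (not_lt.mp hij) (h0 i j)
        rw [if_neg hij, this, max_eq_right (by linarith)]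
        ring
    have h1 := ih (fun i j => max (M i j - h) 0) ?_ (fun i j => le_max_right _ _)
      (fun i j => by rw [hs i j]) ?_
    · have h2 := ke13_rel_psd (fun i j => 0 < M i j) (fun i j hij => by rwa [hs j i])
        (fun i j l a b => lt_of_lt_of_le (lt_min a b) (hu i j l)) n
      have h3 : ∑ i, ∑ j, n i * M i j * n j = ∑ i, ∑ j, n i * max (M i j - h) 0 * n j +
          h * ∑ i, ∑ j, n i * (if 0 < M i j then (1 : ℝ) else 0) * n j := by
        rw [Finset.mul_sum, ← Finset.sum_add_distrib]
        refine Finset.sum_congr rfl fun i _ => ?_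
        rw [Finset.mul_sum, ← Finset.sum_add_distrib]
        refine Finset.sum_congr rfl fun j _ => ?_
        conv_lhs => rw [hdec i j]
        ring
      rw [h3]
      have h4 := mul_nonneg hpos.le h2
      convert add_nonneg h1 h4 using 1
    · have hsub : (univ.filter fun q : ι × ι => 0 < max (M q.1 q.2 - h) 0) ⊆
          (univ.filter fun p : ι × ι => 0 < M p.1 p.2).erase p := by
        intro q hq
        have hq' : 0 < max (M q.1 q.2 - h) 0 := (Finset.mem_filter.mp hq).2
        have hq2 : h < M q.1 q.2 := by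
          rcases lt_max_iff.mp hq' with a | a
          · linarith
          · exact absurd a (lt_irrefl _)
        refine Finset.mem_erase.mpr ⟨?_, by simp; linarith⟩
        rintro rfl
        exact lt_irrefl _ hq2
      have h5 := Finset.card_le_card hsub
      rw [Finset.card_erase_of_mem hp] at h5
      omega
    · intro i j l
      rcases le_total (M i j) (M j l) with a | a
      · have b := hu i j l
        rw [min_eq_left a] at b
        exact (min_le_left _ _).trans (max_le_max (by linarith) le_rfl)
      · have b := hu i j l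
        rw [min_eq_right a] at b
        exact (min_le_right _ _).trans (max_le_max (by linarith) le_rfl)

/-- Nonnegative ultrametric matrices are positive semidefinite.  Induct on the number of positive
entries: with `h` the least positive entry, `M = h * P + M'` where `P i j = 1` iff `0 < M i j`, and
`M'` is again nonnegative ultrametric.  The relation `0 < M i j` is symmetric and transitive, so
the quadratic form of `P` is a sum of squares of class sums (for instance `P i j = ∑ c, e c i * e c
j` with `c` running over the image of `i ↦ {j | 0 < M i j}`). -/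
theorem ultra_psd {ι : Type} [Fintype ι] (M : ι → ι → ℝ) (h0 : ∀ i j, 0 ≤ M i j)
    (hs : ∀ i j, M i j = M j i) (hu : ∀ i j l, min (M i j) (M j l) ≤ M i l) (n : ι → ℝ) :
    0 ≤ ∑ i, ∑ j, n i * M i j * n j := by
  exact ke13_psd_aux n _ M le_rfl h0 hs hu

/-- Subtract a small multiple of the identity and apply `ultra_psd`. -/
theorem ultra_inj {ι : Type} [Fintype ι] (M : ι → ι → ℝ) (h0 : ∀ i j, 0 < M i j)
    (hs : ∀ i j, M i j = M j i) (hu : ∀ i j l, min (M i j) (M j l) ≤ M i l)
    (hd : ∀ i j, i ≠ j → M i j < M i i) (n : ι → ℝ) (hn : ∀ i, ∑ j, M i j * n j = 0) : n = 0 := by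
  classical
  rcases isEmpty_or_nonempty ι with hι | hι
  · funext i
    exact isEmptyElim i
  obtain ⟨p, hp⟩ := Finite.exists_min
    (fun p : ι × ι => if p.1 = p.2 then M p.1 p.1 else M p.1 p.1 - M p.1 p.2)
  set ε := (if p.1 = p.2 then M p.1 p.1 else M p.1 p.1 - M p.1 p.2) with hε
  have hpos : 0 < ε := by
    rw [hε]
    split_ifs with hh
    · exact h0 _ _
    · linarith [hd _ _ hh]
  have h1 : ∀ i, ε ≤ M i i := fun i => by simpa using hp (i, i)
  have h2 : ∀ i j, i ≠ j → ε ≤ M i i - M i j := fun i j hij => by simpa [hij] using hp (i, j)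
  have h3 := ultra_psd (fun i j => M i j - if i = j then ε else 0) ?_ ?_ ?_ n
  · have h4 : ∑ i, ∑ j, n i * (M i j - if i = j then ε else 0) * n j = -(ε * ∑ i, n i ^ 2) := by
      rw [Finset.mul_sum, ← Finset.sum_neg_distrib]
      refine Finset.sum_congr rfl fun i _ => ?_
      have h5 : ∀ j, n i * (M i j - if i = j then ε else 0) * n j =
          n i * (M i j * n j) - if i = j then ε * n i ^ 2 else 0 := by
        intro j
        split_ifs with hh
        · subst hh; ring
        · ring
      simp only [h5]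
      rw [Finset.sum_sub_distrib, ← Finset.mul_sum, hn i]
      simp
    rw [h4] at h3
    have h6 : ∑ i, n i ^ 2 ≤ 0 := by
      by_contra hh
      have := mul_pos hpos (not_le.mp hh)
      linarith
    have h7 : ∑ i, n i ^ 2 = 0 := le_antisymm h6 (Finset.sum_nonneg fun i _ => sq_nonneg _)
    funext i
    have := (Finset.sum_eq_zero_iff_of_nonneg fun i _ => sq_nonneg (n i)).mp h7 i (mem_univ i)
    simpa using this
  · intro i j
    split_ifs with hh
    · subst hh; linarith [h1 i]
    · linarith [h0 i j]
  · intro i j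
    by_cases hh : i = j
    · subst hh; rfl
    · simp only [if_neg hh, if_neg (Ne.symm hh), hs i j]
  · intro i j l
    by_cases hil : i = l
    · subst hil
      by_cases hij : i = j
      · subst hij; exact min_le_left _ _
      · refine (min_le_left _ _).trans ?_
        simp only [if_neg hij, if_true]
        linarith [h2 i j hij]
    · simp only [if_neg hil, sub_zero]
      refine le_trans (min_le_min ?_ ?_) (hu i j l)
      · split_ifs <;> linarith
      · split_ifs <;> linarith

/-- Write `M = lam * A` with an integer matrix `A`; `det A ≠ 0` by injectivity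
(`Matrix.exists_mulVec_eq_zero_iff`); `adjugate A * A = det A • 1` gives
`ℓ ^ N ∣ d * det A * n i`; take `N` with `¬ ℓ ^ N ∣ d * det A`, more precisely
`N = multiplicity + 1`. -/
theorem int_matrix {ι : Type} [Fintype ι] (M : ι → ι → ℝ) {lam : ℝ} (hlam : 0 < lam)
    (hM : ∀ i j, ∃ z : ℤ, M i j = lam * z)
    (hinj : ∀ n : ι → ℝ, (∀ i, ∑ j, M i j * n j = 0) → n = 0) {ℓ d : ℕ} (hℓ : ℓ.Prime)
    (hd : d ≠ 0) : ∃ N : ℕ, ∀ n : ι → ℤ,
      (∀ i, ∃ z : ℤ, d * ∑ j, M i j * n j = lam * (ℓ ^ N * z)) → ∀ i, (ℓ : ℤ) ∣ n i := by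
  classical
  choose A hA using hM
  set B : Matrix ι ι ℤ := Matrix.of A with hB
  have hsum : ∀ (n : ι → ℤ) i, ∑ j, M i j * (n j : ℝ) = lam * (((B *ᵥ n) i : ℤ) : ℝ) := by
    intro n i
    simp only [hB, Matrix.mulVec, dotProduct, Matrix.of_apply, Int.cast_sum, Int.cast_mul,
      Finset.mul_sum, hA]
    refine Finset.sum_congr rfl fun j _ => ?_
    ring
  have hdet : B.det ≠ 0 := by
    intro hz
    obtain ⟨v, hv, hv'⟩ := Matrix.exists_mulVec_eq_zero_iff.mpr hz
    have := hinj (fun j => (v j : ℝ)) fun i => by rw [hsum, hv']; simp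
    apply hv
    funext j
    have h2 := congrFun this j
    simpa using h2
  refine ⟨((d : ℤ) * B.det).natAbs, fun n hn i => ?_⟩
  set N := ((d : ℤ) * B.det).natAbs with hN
  have h1 : ∀ j, (ℓ : ℤ) ^ N ∣ d * (B *ᵥ n) j := by
    intro j
    obtain ⟨z, hz⟩ := hn j
    rw [hsum] at hz
    refine ⟨z, ?_⟩
    have h2 : (d : ℝ) * (((B *ᵥ n) j : ℤ) : ℝ) = ℓ ^ N * z := by
      apply mul_left_cancel₀ hlam.ne'
      linear_combination hz
    exact_mod_cast h2
  have h2 : (ℓ : ℤ) ^ N ∣ d * B.det * n i := by
    have h3 : B.adjugate *ᵥ (B *ᵥ n) = B.det • n := by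
      rw [Matrix.mulVec_mulVec, Matrix.adjugate_mul, Matrix.smul_mulVec, Matrix.one_mulVec]
    have h4 : (d : ℤ) * B.det * n i = ∑ j, B.adjugate i j * (d * (B *ᵥ n) j) := by
      have h5 := congrFun h3 i
      rw [Pi.smul_apply, smul_eq_mul] at h5
      rw [mul_assoc, ← h5]
      simp only [Matrix.mulVec, dotProduct, Finset.mul_sum]
      refine Finset.sum_congr rfl fun j _ => ?_
      refine Finset.sum_congr rfl fun l _ => ?_
      ring
    rw [h4]
    exact Finset.dvd_sum fun j _ => Dvd.dvd.mul_left (h1 j) _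
  by_contra hnd
  have hp : Prime (ℓ : ℤ) := Nat.prime_iff_prime_int.mp hℓ
  have h6 : (ℓ : ℤ) ^ N ∣ d * B.det := hp.pow_dvd_of_dvd_mul_right N hnd h2
  have h7 : (d : ℤ) * B.det ≠ 0 := mul_ne_zero (by exact_mod_cast hd) hdet
  have h8 : ℓ ^ N ∣ N := by
    have := Int.natAbs_dvd_natAbs.mpr h6
    rwa [Int.natAbs_pow, Int.natAbs_natCast] at this
  have h9 : 0 < N := Int.natAbs_pos.mpr h7
  have h10 := Nat.le_of_dvd h9 h8
  have h11 : N < ℓ ^ N := Nat.lt_pow_self hℓ.one_lt
  omega

variable {k : Type} [Field k] [IsAlgClosed k] [CharZero k] {ν : AbsoluteValue k ℝ} {ℓ : ℕ}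
  {f : Polynomial k}

theorem Reg.mx_inj (D : Reg ν ℓ f) (h : NA ν ℓ) (n : D.T → ℝ)
    (hn : ∀ b : D.T, ∑ b' : D.T, D.Mx b b' * n b' = 0) : n = 0 := by
  classical
  set dd : D.T → D.T → ℝ := fun b b' => if b = b' then D.R b else ν ((b : k) - b') with hdd
  have hM : ∀ b b' : D.T, D.Mx b b' = Real.log D.R0 - Real.log (dd b b') := by
    intro b b'
    by_cases hb : b = b'
    · subst hb
      simp [Reg.Mx, hdd]
    · have hb' : (b : k) ≠ b' := fun hh => hb (Subtype.ext hh)
      simp [Reg.Mx, hdd, hb, hb', lg]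
  have hsep : ∀ b b' : D.T, b ≠ b' → D.R b < ν ((b : k) - b') := fun b b' hb =>
    D.sep b b.2 b' b'.2 fun hh => hb (Subtype.ext hh)
  have hpos : ∀ b b' : D.T, 0 < dd b b' := by
    intro b b'
    simp only [hdd]
    split_ifs with hb
    · exact D.pos b b.2
    · exact (D.pos b b.2).trans (hsep b b' hb)
  have hlt : ∀ b b' : D.T, dd b b' < D.R0 := by
    intro b b'
    simp only [hdd]
    split_ifs with hb
    · exact D.lt b b.2
    · refine (h.tri b D.a0 b').trans_lt (max_lt (D.ins b b.2) ?_)
      rw [AbsoluteValue.map_sub]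
      exact D.ins b' b'.2
  have hsym : ∀ b b' : D.T, dd b b' = dd b' b := by
    intro b b'
    by_cases hb : b = b'
    · subst hb; rfl
    · simp only [hdd, if_neg hb, if_neg (Ne.symm hb)]
      exact AbsoluteValue.map_sub _ _ _
  have htri : ∀ i j l : D.T, dd i l ≤ max (dd i j) (dd j l) := by
    intro i j l
    by_cases hij : i = j
    · subst hij; exact le_max_right _ _
    by_cases hjl : j = l
    · subst hjl; exact le_max_left _ _
    by_cases hil : i = l
    · subst hil
      refine le_trans ?_ (le_max_left _ _)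
      simp only [hdd, if_neg hij, if_true]
      exact (hsep i j hij).le
    · simp only [hdd, if_neg hij, if_neg hjl, if_neg hil]
      exact h.tri _ _ _
  refine ultra_inj (fun b b' : D.T => D.Mx b b') ?_ ?_ ?_ ?_ n hn
  · intro i j
    rw [hM]
    linarith [Real.log_lt_log (hpos i j) (hlt i j)]
  · intro i j
    rw [hM, hM, hsym]
  · intro i j l
    rw [hM, hM, hM]
    rcases le_max_iff.mp (htri i j l) with a | a
    · refine (min_le_left _ _).trans ?_
      linarith [Real.log_le_log (hpos i l) a]
    · refine (min_le_right _ _).trans ?_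
      linarith [Real.log_le_log (hpos i l) a]
  · intro i j hij
    rw [hM, hM]
    have : dd i i < dd i j := by
      simp only [hdd, if_neg hij, if_true]
      exact hsep i j hij
    linarith [Real.log_lt_log (hpos i i) this]

end Pool.Agent.Lib.MP_07b2d0_nt.Ks
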