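import Mathlib
import Pool.Agent.Lib.MP_07b2d0_nt.KE6
import Pool.Agent.Lib.MP_07b2d0_nt.KC4

set_option autoImplicit false
set_option linter.unusedSectionVars false
set_option linter.unusedVariables false

namespace Pool.Agent.Lib.MP_07b2d0_nt.Ks

open Polynomial Finset
open scoped Polynomial.Bivariate

variable {k : Type} [Field k] [IsAlgClosed k] [CharZero k] {ν : AbsoluteValue k ℝ} {ℓ : ℕ}
  {f : k[X]}
variable {Γ : Type} [Group Γ] {α : Γ →* (k ≃+* k)} {lam : ℝ}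

theorem ke14_inv (g : Γ) (u : k) : α g⁻¹ (α g u) = u := by
  have : α g⁻¹ (α g u) = (α g⁻¹ * α g) u := rfl
  rw [this, ← map_mul, inv_mul_cancel, map_one]
  rfl

theorem ke14_sub (hI : Inert ν α lam) (hF : Fix α f) {u z : k} (hu : f.IsRoot u)
    (hz : f.IsRoot z) (h : u ≠ z) : ∃ n : ℤ, Real.log (ν (u - z)) = lam * n :=
  hI.vi _ (sub_ne_zero.2 h) fun g => by rw [map_sub, hF.root g u hu, hF.root g z hz]

/-- The product over the orbit `O` of `z` is fixed, and all its factors have the absolute value of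
`z`, so `card O * lg z ∈ lam * ℤ` with `0 < card O ≤ d`. -/
theorem Inert.orbit (hI : Inert ν α lam) {z : k} (hz : z ≠ 0) (S : Finset k) {d : ℕ}
    (hS : S.card ≤ d) (H : ∀ g, α g z ∈ S) : ∃ n : ℤ, d.factorial * lg ν z = lam * n := by
  classical
  set O := S.filter fun u => ∃ g, α g z = u with hO
  have hmem : ∀ u, u ∈ O ↔ ∃ g, α g z = u := by
    intro u
    rw [hO, mem_filter]
    exact ⟨fun h => h.2, fun ⟨g, hg⟩ => ⟨hg ▸ H g, g, hg⟩⟩
  have hz' : z ∈ O := (hmem z).2 ⟨1, by simp⟩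
  have hst : ∀ g, ∀ u ∈ O, α g u ∈ O := by
    intro g u hu
    obtain ⟨g', rfl⟩ := (hmem u).1 hu
    exact (hmem _).2 ⟨g * g', by rw [map_mul]; rfl⟩
  have hne : ∀ u ∈ O, u ≠ 0 := by
    intro u hu
    obtain ⟨g', rfl⟩ := (hmem u).1 hu
    simpa using hz
  have hfix : ∀ g, α g (∏ u ∈ O, u) = ∏ u ∈ O, u := by
    intro g
    rw [map_prod]
    refine Finset.prod_nbij' (fun u => α g u) (fun u => α g⁻¹ u) (hst g) (hst g⁻¹) ?_ ?_ ?_
    · intro u _
      exact ke14_inv g u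
    · intro u _
      have := ke14_inv (α := α) g⁻¹ u
      rwa [inv_inv] at this
    · intro u _
      rfl
  obtain ⟨n, hn⟩ := hI.vi _ (prod_ne_zero_iff.2 hne) hfix
  have hl : lg ν (∏ u ∈ O, u) = O.card * lg ν z := by
    rw [lg_prod O hne]
    rw [Finset.sum_congr rfl (g := fun _ => lg ν z)]
    · simp
    · intro u hu
      obtain ⟨g', rfl⟩ := (hmem u).1 hu
      simp only [lg, hI.iso]
  have hc : O.card ≤ d := (card_filter_le _ _).trans hS
  obtain ⟨q, hq⟩ := Nat.dvd_factorial (card_pos.2 ⟨z, hz'⟩) hc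
  refine ⟨q * n, ?_⟩
  have h2 : (O.card : ℝ) * lg ν z = lam * n := by
    rw [← hl]
    exact hn
  rw [hq]
  push_cast
  linear_combination (q : ℝ) * h2

variable (D : Reg ν ℓ f)

theorem Reg.om_map (hI : Inert ν α lam) (hF : Fix α f) (g : Γ) (ρ : k) :
    D.Om (α g ρ) ↔ D.Om ρ := by
  have h1 : ∀ b, f.IsRoot b → ν (α g ρ - b) = ν (ρ - b) := by
    intro b hb
    rw [← hI.iso g (ρ - b), map_sub (α g), hF.root g b hb]
  unfold Reg.Om
  rw [h1 _ D.root0]
  refine and_congr_right fun _ => forall₂_congr fun b hb => ?_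
  rw [h1 _ (D.root b hb)]

theorem Reg.kap_map (hf : f ≠ 0) (hF : Fix α f) (g : Γ) : α g D.kap = D.kap := by
  unfold Reg.kap
  rw [map_mul, hF.lead, map_multiset_prod, Multiset.map_map]
  congr 2
  refine Multiset.map_congr rfl fun τ hτ => ?_
  have hr : f.IsRoot τ := (mem_roots hf).1 (Multiset.mem_filter.1 hτ).1
  simp only [Function.comp, map_sub]
  rw [hF.root g _ D.root0, hF.root g _ hr]

theorem Reg.sheet_map (hI : Inert ν α lam) (hF : Fix α f) (g : Γ) {c ρ η : k}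
    (h : D.Sheet c ρ η) : D.Sheet (α g c) (α g ρ) (α g η) := by
  have hg : D.g0.eval (α g ρ) = α g (D.g0.eval ρ) := by
    unfold Reg.g0
    rw [eval_prod, eval_prod, map_prod]
    refine Finset.prod_congr rfl fun b hb => ?_
    simp only [eval_pow, eval_sub, eval_X, eval_C, map_pow, map_sub]
    rw [hF.root g b (D.root b hb)]
  obtain ⟨h1, h2⟩ := h
  refine ⟨?_, ?_⟩
  · rw [hF.eval, ← h1, map_pow]
  · rw [hg, ← map_mul, ← map_sub, hI.iso, hI.iso]
    exact h2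

theorem Reg.log_R0 (hI : Inert ν α lam) (hF : Fix α f) : ∃ z : ℤ, Real.log D.R0 = lam * z := by
  obtain ⟨τ, hτ, he⟩ := D.val0
  have hp := D.R0_pos
  rw [he] at hp ⊢
  refine ke14_sub hI hF hτ D.root0 ?_
  intro h0
  rw [h0] at hp
  simp at hp

theorem Reg.mx_int (hI : Inert ν α lam) (hF : Fix α f) {b b' : k} (hb : b ∈ D.T) (hb' : b' ∈ D.T) :
    ∃ z : ℤ, D.Mx b b' = lam * z := by
  classical
  obtain ⟨z, hz⟩ := D.log_R0 hI hF
  unfold Reg.Mx
  by_cases hbb : b = b'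
  · rw [if_pos hbb]
    obtain ⟨τ, hτ, he⟩ := D.val b hb
    have hp := D.pos b hb
    rw [he] at hp ⊢
    obtain ⟨z', hz'⟩ := ke14_sub hI hF hτ (D.root b hb) (by
      intro h0
      rw [h0] at hp
      simp at hp)
    refine ⟨z - z', ?_⟩
    rw [hz, hz']
    push_cast
    ring
  · rw [if_neg hbb]
    obtain ⟨z', hz'⟩ := ke14_sub hI hF (D.root b hb) (D.root b' hb') hbb
    refine ⟨z - z', ?_⟩
    rw [hz, lg, hz']
    push_cast
    ring

/-- Discreteness.  Let `z c c' = ∏ τ ∈ S, (b - τ) ^ (e c c' τ)`.  As `e c c'` vanishes outside `S`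
and `e (g c) (g c') (g τ) = e c c' τ`, `α g (z c c') = z (g c) (g c')` (reduce both products to the
supports of the exponents, `Finset.prod_subset`, `Finset.prod_bij`).  There are at most `ℓ ^ 2`
pairs of `ℓ`-th roots of `κ` (`Polynomial.nthRoots`, `card_nthRoots`); apply `Inert.orbit`. -/
theorem Inert.disc (hI : Inert ν α lam) (hℓ : ℓ ≠ 0) {κ b : k} (hκ : ∀ g, α g κ = κ)
    (hb : ∀ g, α g b = b) (S : Finset k) (hS : b ∉ S) (e : k → k → k → ℤ)
    (h0 : ∀ c c' τ, c ^ ℓ = κ → c' ^ ℓ = κ → τ ∉ S → e c c' τ = 0)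
    (he : ∀ g c c' τ, c ^ ℓ = κ → c' ^ ℓ = κ → e (α g c) (α g c') (α g τ) = e c c' τ)
    {c c' : k} (hc : c ^ ℓ = κ) (hc' : c' ^ ℓ = κ) :
    ∃ n : ℤ, (ℓ ^ 2).factorial * ∑ τ ∈ S, e c c' τ * lg ν (b - τ) = lam * n := by
  classical
  set Z : k → k → k := fun c c' => ∏ τ ∈ S, (b - τ) ^ e c c' τ with hZ
  have hne : ∀ τ ∈ S, b - τ ≠ 0 := fun τ hτ h => hS (by rwa [sub_eq_zero.1 h])
  have hroot : ∀ g c, c ^ ℓ = κ → (α g c) ^ ℓ = κ := by
    intro g c hc
    rw [← map_pow, hc, hκ]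
  have hmap : ∀ g, α g (Z c c') = Z (α g c) (α g c') := by
    intro g
    have hinj : Function.Injective (α g) := (α g).injective
    have e1 : α g (Z c c') = ∏ τ ∈ S.image (α g), (b - τ) ^ e (α g c) (α g c') τ := by
      rw [Finset.prod_image fun u _ v _ h => hinj h]
      simp only [hZ, map_prod, map_zpow₀, map_sub]
      refine Finset.prod_congr rfl fun τ _ => ?_
      rw [hb, he g c c' τ hc hc']
    rw [e1]
    have e2 : ∏ τ ∈ S.image (α g), (b - τ) ^ e (α g c) (α g c') τ =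
        ∏ τ ∈ S.image (α g) ∪ S, (b - τ) ^ e (α g c) (α g c') τ := by
      refine Finset.prod_subset subset_union_left fun τ _ hτ => ?_
      obtain ⟨σ, rfl⟩ := (α g).surjective τ
      have hσ : σ ∉ S := fun h => hτ (mem_image_of_mem _ h)
      rw [he g c c' σ hc hc', h0 c c' σ hc hc' hσ, zpow_zero]
    have e3 : Z (α g c) (α g c') =
        ∏ τ ∈ S.image (α g) ∪ S, (b - τ) ^ e (α g c) (α g c') τ := by
      refine Finset.prod_subset subset_union_right fun τ _ hτ => ?_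
      rw [h0 _ _ τ (hroot g c hc) (hroot g c' hc') hτ, zpow_zero]
    rw [e2, e3]
  have hZne : Z c c' ≠ 0 := prod_ne_zero_iff.2 fun τ hτ => zpow_ne_zero _ (hne τ hτ)
  set N := (nthRoots ℓ κ).toFinset with hN
  have hNc : N.card ≤ ℓ := (Multiset.toFinset_card_le _).trans (card_nthRoots ℓ κ)
  have hNm : ∀ c, c ^ ℓ = κ → c ∈ N := fun c hc =>
    Multiset.mem_toFinset.2 ((mem_nthRoots (Nat.pos_of_ne_zero hℓ)).2 hc)
  have hcard : ((N ×ˢ N).image fun p => Z p.1 p.2).card ≤ ℓ ^ 2 := by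
    refine card_image_le.trans ?_
    rw [card_product, sq]
    exact Nat.mul_le_mul hNc hNc
  obtain ⟨n, hn⟩ := hI.orbit hZne _ hcard fun g => by
    rw [hmap]
    exact mem_image.2 ⟨(α g c, α g c'),
      mem_product.2 ⟨hNm _ (hroot g c hc), hNm _ (hroot g c' hc')⟩, rfl⟩
  refine ⟨n, ?_⟩
  rw [← hn, hZ]
  congr 1
  rw [lg_prod S fun τ hτ => zpow_ne_zero _ (hne τ hτ)]
  exact Finset.sum_congr rfl fun τ _ => (lg_zpow _ _).symm

end Pool.Agent.Lib.MP_07b2d0_nt.Ks
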