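import Mathlib
import Pool.Agent.Lib.MP_07b2d0_nt.KE11
import Pool.Agent.Lib.MP_07b2d0_nt.KE12
import Pool.Agent.Lib.MP_07b2d0_nt.KE13
import Pool.Agent.Lib.MP_07b2d0_nt.KE14

set_option autoImplicit false
set_option linter.unusedSectionVars false
set_option linter.unusedVariables false

namespace Pool.Agent.Lib.MP_07b2d0_nt.Ks

open Polynomial Finset
open scoped Polynomial.Bivariate

variable {k : Type} [Field k] [IsAlgClosed k] [CharZero k] {ν : AbsoluteValue k ℝ} {ℓ : ℕ}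
  {f : k[X]}
variable {Γ : Type} [Group Γ] {α : Γ →* (k ≃+* k)} {lam : ℝ}

/-- The contradiction.  Take `N` from `int_matrix` for `Mx` on `T` with `d = (ℓ ^ 2)!` (`mx_int`,
`mx_inj`), `b₀ ∈ T`, and the data of `Good` for `a = b₀`, `n = N`.  Choose `η c τ` on the sheet `c`
for `c ^ ℓ = kap`, `τ ∈ Om`; `S` = roots of `M` in `Om`; `m c τ = m τ (η c τ)` vanishes on `Om`
outside `S` (`IsMult.eq_zero`, `IsNrm.eval_eq`).  `Reg.form` for the sheets `ζ ^ s * c` and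
`Reg.bdry`.  With `e c c' τ = (m c τ - m c' τ) / ℓ ^ N` on `Om` and `0` elsewhere, `Inert.disc`
(`om_map`, `sheet_map`, `sheet_unique`, `kap_map`) and `log_R0` give the hypothesis of `int_matrix`
for `n s - n 0`.  So `ℓ ∣ ∑ s, n s b₀ = cnt M`, contradicting
`1 + cnt M + ℓ * cnt Q₂ = ℓ * cnt Q₁` (`cnt_mul`, `cnt_pow`, `cnt_X_sub_C`). -/
theorem Reg.core (D : Reg ν ℓ f) (h : NA ν ℓ) (hr : Ram ℓ f) (hI : Inert ν α lam) (hF : Fix α f)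
    {ζ : k} (hζ : IsPrimitiveRoot ζ ℓ) (H : ∀ a, f.IsRoot a → ∀ n, Good ℓ ζ f α a n) : False := by
  classical
  have hℓ := hr.prime
  have hℓ0 : ℓ ≠ 0 := hℓ.ne_zero
  have hf : f ≠ 0 := hr.ne_zero
  obtain ⟨N, hN⟩ := int_matrix (fun b b' : D.T => D.Mx b b') hI.pos
    (fun i j => D.mx_int hI hF i.2 j.2) (D.mx_inj h) hℓ (Nat.factorial_ne_zero (ℓ ^ 2))
  obtain ⟨b₀, hb₀⟩ := D.ne
  obtain ⟨G, M, Q₁, Q₂, m, hG, hM, hM0, hQ₂, hQ, hmult, hdiv⟩ := H b₀ (D.root b₀ hb₀) N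
  choose! η hη using fun (c τ : k) (hc : c ^ ℓ = D.kap) (hτ : D.Om τ) =>
    D.sheet_exists h hf hc hτ
  obtain ⟨S, hS⟩ : ∃ S : Finset k, ∀ τ, τ ∈ S ↔ M.eval τ = 0 ∧ D.Om τ :=
    ⟨M.roots.toFinset.filter D.Om, fun τ => by
      rw [mem_filter, Multiset.mem_toFinset, mem_roots hM0, IsRoot.def]⟩
  have hSom : ∀ τ ∈ S, D.Om τ := fun τ hτ => ((hS τ).1 hτ).2
  have h0 : ∀ c τ, c ^ ℓ = D.kap → D.Om τ → τ ∉ S → m τ (η c τ) = 0 := by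
    intro c τ hc hτ hτS
    by_contra hne
    have h1 := (hη c τ hc hτ).1
    have h2 := (hmult τ _ (D.f_ne hτ hf) h1).eq_zero h1 hne
    refine hτS ((hS τ).2 ⟨?_, hτ⟩)
    rw [hM.eval_eq h1]
    exact prod_eq_zero (mem_range.2 hℓ.pos) (by rwa [pow_zero, one_mul])
  obtain ⟨c₀, hc₀⟩ := IsAlgClosed.exists_pow_nat_eq D.kap hℓ.pos
  have hcs : ∀ s : ℕ, (ζ ^ s * c₀) ^ ℓ = D.kap := fun s => by
    rw [mul_pow, ← pow_mul, mul_comm s ℓ, pow_mul, hζ.pow_eq_one, one_pow, one_mul, hc₀]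
  have hform : ∀ s : ℕ, ∃ (p : ℝ) (n : k → ℤ),
      D.Form (ζ ^ s * c₀) G S (fun τ => m τ (η (ζ ^ s * c₀) τ)) p n := fun s =>
    D.form h hr (hcs s) (hM.finZ hℓ0 hM0) S hSom _
      (fun ρ η' hρ hs => by
        have h1 := hη _ ρ (hcs s) hρ
        rw [D.sheet_unique h hs h1]
        exact hmult ρ _ (D.f_ne hρ hf) h1.1)
      (fun ρ hρ hρS => h0 _ ρ (hcs s) hρ hρS)
  choose p n hpn using hform
  have hb := fun b (hb : b ∈ D.T) => D.bdry h hr hζ hc₀ hG hM hM0 S hSom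
    (fun s τ => m τ (η (ζ ^ s * c₀) τ)) p n (fun s _ => hpn s) hb
  obtain ⟨e, he⟩ : ∃ e : k → k → k → ℤ, ∀ c c' τ, e c c' τ =
      if D.Om τ then ((m τ (η c τ) : ℤ) - m τ (η c' τ)) / (ℓ : ℤ) ^ N else 0 :=
    ⟨_, fun _ _ _ => rfl⟩
  have hemul : ∀ c c' τ, c ^ ℓ = D.kap → c' ^ ℓ = D.kap → D.Om τ →
      (m τ (η c τ) : ℤ) - m τ (η c' τ) = (ℓ : ℤ) ^ N * e c c' τ := by
    intro c c' τ hc hc' hτ
    rw [he, if_pos hτ, Int.mul_ediv_cancel'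
      (hdiv τ _ _ (D.f_ne hτ hf) (hη c τ hc hτ).1 (hη c' τ hc' hτ).1).1]
  have he0 : ∀ c c' τ, c ^ ℓ = D.kap → c' ^ ℓ = D.kap → τ ∉ S → e c c' τ = 0 := by
    intro c c' τ hc hc' hτS
    rw [he]
    split_ifs with hτ
    · rw [h0 c τ hc hτ hτS, h0 c' τ hc' hτ hτS, sub_self, Int.zero_ediv]
    · rfl
  have hηg : ∀ g c τ, c ^ ℓ = D.kap → D.Om τ → η (α g c) (α g τ) = α g (η c τ) := by
    intro g c τ hc hτ
    have h1 : α g c ^ ℓ = D.kap := by rw [← map_pow, hc, D.kap_map hf hF]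
    exact D.sheet_unique h (hη _ _ h1 ((D.om_map hI hF g τ).2 hτ))
      (D.sheet_map hI hF g (hη c τ hc hτ))
  have heg : ∀ g c c' τ, c ^ ℓ = D.kap → c' ^ ℓ = D.kap →
      e (α g c) (α g c') (α g τ) = e c c' τ := by
    intro g c c' τ hc hc'
    rw [he, he]
    by_cases hτ : D.Om τ
    · rw [if_pos hτ, if_pos ((D.om_map hI hF g τ).2 hτ), hηg g c τ hc hτ, hηg g c' τ hc' hτ,
        (hdiv τ _ _ (D.f_ne hτ hf) (hη c τ hc hτ).1 (hη c' τ hc' hτ).1).2 g]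
    · rw [if_neg hτ, if_neg fun h1 => hτ ((D.om_map hI hF g τ).1 h1)]
  obtain ⟨z₀, hz₀⟩ := D.log_R0 hI hF
  have hdvd : ∀ s < ℓ, (ℓ : ℤ) ∣ n s b₀ - n 0 b₀ := by
    intro s hs
    refine hN (fun b => n s b - n 0 b) (fun b => ?_) ⟨b₀, hb₀⟩
    have hbS : (b : k) ∉ S := fun hbS => D.sub_ne (hSom _ hbS) b.2 (sub_self _)
    obtain ⟨z, hz⟩ := hI.disc hℓ0 (D.kap_map hf hF) (fun g => hF.root g b (D.root b b.2)) S hbS e
      he0 heg (hcs s) (hcs 0)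
    have h1 := (hb b b.2).1 s hs 0 hℓ.pos
    have h2 : ∑ τ ∈ S, (((m τ (η (ζ ^ s * c₀) τ) : ℤ) - m τ (η (ζ ^ 0 * c₀) τ) : ℤ) : ℝ) *
        (Real.log D.R0 - lg ν (b - τ)) =
        (ℓ : ℝ) ^ N * (lam * z₀ * ∑ τ ∈ S, (e (ζ ^ s * c₀) (ζ ^ 0 * c₀) τ : ℝ) -
          ∑ τ ∈ S, (e (ζ ^ s * c₀) (ζ ^ 0 * c₀) τ : ℝ) * lg ν (b - τ)) := by
      rw [mul_sum, ← sum_sub_distrib, mul_sum]
      refine sum_congr rfl fun τ hτ => ?_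
      rw [hemul _ _ τ (hcs s) (hcs 0) (hSom τ hτ), hz₀]
      push_cast
      ring
    refine ⟨z - (ℓ ^ 2).factorial * z₀ * ∑ τ ∈ S, e (ζ ^ s * c₀) (ζ ^ 0 * c₀) τ, ?_⟩
    rw [sum_coe_sort D.T fun b' => D.Mx b b' * ((n s b' - n 0 b' : ℤ) : ℝ), h1, h2]
    push_cast
    linear_combination (ℓ : ℝ) ^ N * hz
  have h1 : (ℓ : ℤ) ∣ (cnt ν b₀ (D.R b₀) true M : ℤ) := by
    rw [← (hb b₀ hb₀).2]
    have h2 : ∑ s ∈ range ℓ, n s b₀ = ∑ s ∈ range ℓ, (n s b₀ - n 0 b₀) + ℓ * n 0 b₀ := by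
      rw [sum_sub_distrib, sum_const, card_range, nsmul_eq_mul, sub_add_cancel]
    rw [h2]
    exact dvd_add (dvd_sum fun s hs => hdvd s (mem_range.1 hs)) (dvd_mul_right _ _)
  have h2 := congrArg (cnt ν b₀ (D.R b₀) true) hQ
  rw [cnt_mul (mul_ne_zero (X_sub_C_ne_zero b₀) hM0) (pow_ne_zero _ hQ₂),
    cnt_mul (X_sub_C_ne_zero b₀) hM0, cnt_pow, cnt_pow, cnt_X_sub_C (D.pos b₀ hb₀)] at h2
  obtain ⟨w, hw⟩ := Int.natCast_dvd_natCast.1 h1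
  have h3 : ℓ ∣ 1 + ℓ * (w + cnt ν b₀ (D.R b₀) true Q₂) :=
    ⟨_, by rw [← h2, hw]; ring⟩
  exact hℓ.one_lt.ne' (Nat.dvd_one.1 ((Nat.dvd_add_left (dvd_mul_right _ _)).1 h3))

end Pool.Agent.Lib.MP_07b2d0_nt.Ks
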