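import Mathlib
import Pool.Agent.Lib.MP_07b2d0_nt.KE2

set_option autoImplicit false
set_option linter.unusedSectionVars false
set_option linter.unusedVariables false

namespace Pool.Agent.Lib.MP_07b2d0_nt.Ks

open Polynomial Finset
open scoped Polynomial.Bivariate

variable {k : Type} [Field k] [IsAlgClosed k] [CharZero k] {ν : AbsoluteValue k ℝ} {ℓ : ℕ}
  {f : k[X]}

theorem ke5_ne (hr : Ram ℓ f) : f ≠ 0 := by
  rintro rfl
  exact hr.deg (by rw [natDegree_zero]; exact dvd_zero _)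

theorem ke5_min (hf : f ≠ 0) (b : k) (p : k → Prop) (hex : ∃ τ, f.IsRoot τ ∧ p τ) :
    ∃ τ, f.IsRoot τ ∧ p τ ∧ ∀ σ, f.IsRoot σ → p σ → ν (τ - b) ≤ ν (σ - b) := by
  classical
  have hm : ∀ σ, σ ∈ f.roots.toFinset.filter p ↔ f.IsRoot σ ∧ p σ := fun σ => by
    rw [mem_filter, Multiset.mem_toFinset, mem_roots hf]
  obtain ⟨τ, hτ⟩ := hex
  obtain ⟨σ, h1, h2⟩ := exists_min_image (f.roots.toFinset.filter p) (fun σ => ν (σ - b))
    ⟨τ, (hm τ).2 hτ⟩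
  exact ⟨σ, ((hm σ).1 h1).1, ((hm σ).1 h1).2, fun ρ h3 h4 => h2 ρ ((hm ρ).2 ⟨h3, h4⟩)⟩

theorem ke5_max (hf : f ≠ 0) (b : k) (p : k → Prop) (hex : ∃ τ, f.IsRoot τ ∧ p τ) :
    ∃ τ, f.IsRoot τ ∧ p τ ∧ ∀ σ, f.IsRoot σ → p σ → ν (σ - b) ≤ ν (τ - b) := by
  classical
  have hm : ∀ σ, σ ∈ f.roots.toFinset.filter p ↔ f.IsRoot σ ∧ p σ := fun σ => by
    rw [mem_filter, Multiset.mem_toFinset, mem_roots hf]
  obtain ⟨τ, hτ⟩ := hex
  obtain ⟨σ, h1, h2⟩ := exists_max_image (f.roots.toFinset.filter p) (fun σ => ν (σ - b))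
    ⟨τ, (hm τ).2 hτ⟩
  exact ⟨σ, ((hm σ).1 h1).1, ((hm σ).1 h1).2, fun ρ h3 h4 => h2 ρ ((hm ρ).2 ⟨h3, h4⟩)⟩

theorem ke5_tf {b : k} {r r' : ℝ} (hlt : r < r')
    (H : ∀ σ, f.IsRoot σ → r < ν (σ - b) → r' ≤ ν (σ - b)) :
    cnt ν b r true f = cnt ν b r' false f := by
  refine cnt_congr fun σ hσ => ⟨fun h1 => Or.inl ?_, fun h1 => ?_⟩
  · rcases h1 with h1 | ⟨_, h1⟩
    · exact h1.trans hlt
    · exact h1 ▸ hlt
  · rcases h1 with h1 | ⟨h1, _⟩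
    · rcases lt_trichotomy (ν (σ - b)) r with h2 | h2 | h2
      · exact Or.inl h2
      · exact Or.inr ⟨rfl, h2⟩
      · exact absurd (H σ hσ h2) (not_le.2 h1)
    · exact absurd h1 Bool.false_ne_true

theorem ke5_sub (S : Finset k) (P : Finset k → Prop) (h0 : P ∅) :
    ∃ T ⊆ S, P T ∧ ∀ T' ⊆ S, P T' → T'.card ≤ T.card := by
  classical
  obtain ⟨T, hT, hmax⟩ := exists_max_image (S.powerset.filter P) Finset.card
    ⟨∅, mem_filter.2 ⟨empty_mem_powerset _, h0⟩⟩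
  exact ⟨T, mem_powerset.1 (mem_filter.1 hT).1, (mem_filter.1 hT).2,
    fun T' h1 h2 => hmax T' (mem_filter.2 ⟨mem_powerset.2 h1, h2⟩)⟩

theorem ke5_self (b : k) {r : ℝ} (hr : 0 ≤ r) : ν (b - b) ≤ r := by
  rwa [sub_self, map_zero]

/-- The outer vertex.  Let `V` be the finite set of the `ν (τ - a)`, `τ` a root.  Not all roots lie
in the open disc of radius `R` (`cnt_all`, `ℓ ∤ natDegree`), so the least `r ∈ V` with `R ≤ r`
has `ℓ ∣ cnt a r false f` (`cnt_congr`).  Let `R₀` be the largest positive `r ∈ V` with this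
property.  If `ℓ ∣ cnt a R₀ true f`, the next radius of `V` would be larger. -/
theorem exists_outer (h : NA ν ℓ) (hr : Ram ℓ f) {a : k} (ha : f.IsRoot a) {R : ℝ} (hR : 0 < R)
    (hc : ℓ ∣ cnt ν a R false f) : ∃ R₀ : ℝ, 0 < R₀ ∧ ℓ ∣ cnt ν a R₀ false f ∧
      NonSplit ν ℓ f a R₀ ∧ ∃ τ, f.IsRoot τ ∧ R₀ = ν (τ - a) := by
  have hf := ke5_ne hr
  have h1 : ∃ τ, f.IsRoot τ ∧ R ≤ ν (τ - a) := by
    by_contra hn
    have h2 : ∀ τ, f.IsRoot τ → ν (τ - a) < R := fun τ hτ => not_le.1 fun h3 => hn ⟨τ, hτ, h3⟩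
    have h3 : cnt ν a R false f = cnt ν a R true f :=
      cnt_congr fun τ hτ => ⟨fun _ => Or.inl (h2 τ hτ), fun _ => Or.inl (h2 τ hτ)⟩
    rw [h3, cnt_all fun τ hτ => (h2 τ hτ).le] at hc
    exact hr.deg hc
  obtain ⟨τ₁, r1, p1, m1⟩ := ke5_min (ν := ν) hf a _ h1
  have h4 : cnt ν a R false f = cnt ν a (ν (τ₁ - a)) false f := by
    refine cnt_congr fun σ hσ => ⟨fun h5 => Or.inl ?_, fun h5 => Or.inl ?_⟩
    · rcases h5 with h5 | ⟨h5, _⟩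
      · exact h5.trans_le p1
      · exact absurd h5 Bool.false_ne_true
    · rcases h5 with h5 | ⟨h5, _⟩
      · exact not_le.1 fun h6 => not_le.2 h5 (m1 σ hσ h6)
      · exact absurd h5 Bool.false_ne_true
  obtain ⟨τ₀, r0, p0, m0⟩ := ke5_max (ν := ν) hf a
    (fun τ => 0 < ν (τ - a) ∧ ℓ ∣ cnt ν a (ν (τ - a)) false f) ⟨τ₁, r1, hR.trans_le p1, h4 ▸ hc⟩
  refine ⟨ν (τ₀ - a), p0.1, p0.2, ⟨a, true, ke5_self a p0.1.le, fun hd => ?_⟩, τ₀, r0, rfl⟩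
  by_cases h5 : ∃ τ, f.IsRoot τ ∧ ν (τ₀ - a) < ν (τ - a)
  · obtain ⟨τ₂, r2, p2, m2⟩ := ke5_min (ν := ν) hf a _ h5
    rw [ke5_tf p2 m2] at hd
    exact not_le.2 p2 (m0 τ₂ r2 ⟨p0.1.trans p2, hd⟩)
  · rw [cnt_all fun τ hτ => not_lt.1 fun h6 => h5 ⟨τ, hτ, h6⟩] at hd
    exact hr.deg hd

/-- The inner vertices.  Let `r` be the largest element of `V = {ν (τ - b) | τ root}` with
`0 < r < R₀` and `NonSplit b r`.  There is one: the least positive element of `V` (it is `< R₀`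
by `cnt_single`, and non split in the direction `(b, false)`).  If `r'` is the next element of
`V ∪ {R₀}` then `cnt b r true f = cnt b r' false f` is divisible by `ℓ`. -/
theorem exists_inner (h : NA ν ℓ) (hr : Ram ℓ f) {b : k} (hb : f.IsRoot b) {R₀ : ℝ}
    (hR : 0 < R₀) (hc : ℓ ∣ cnt ν b R₀ false f) : ∃ r : ℝ, 0 < r ∧ r < R₀ ∧
      ℓ ∣ cnt ν b r true f ∧ NonSplit ν ℓ f b r ∧ (∃ τ, f.IsRoot τ ∧ r = ν (τ - b)) ∧
      ∀ r' : ℝ, r' < R₀ → NonSplit ν ℓ f b r' → (∃ τ, f.IsRoot τ ∧ r' = ν (τ - b)) → r' ≤ r := by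
  have hf := ke5_ne hr
  have h1 : ∃ σ, f.IsRoot σ ∧ 0 < ν (σ - b) ∧ ν (σ - b) < R₀ := by
    by_contra hn
    rw [cnt_single hR fun τ hτ h2 => by
      by_contra h3
      exact hn ⟨τ, hτ, ν.pos (sub_ne_zero.2 h3), h2⟩] at hc
    exact hr.root b hb hc
  obtain ⟨σ, rσ, pσ, lσ⟩ := h1
  obtain ⟨τ₁, r1, p1, m1⟩ := ke5_min (ν := ν) hf b (fun τ => 0 < ν (τ - b)) ⟨σ, rσ, pσ⟩
  have h2 : NonSplit ν ℓ f b (ν (τ₁ - b)) := by
    refine ⟨b, false, ke5_self b p1.le, ?_⟩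
    rw [cnt_single p1 fun τ hτ h2 => by
      by_contra h3
      exact not_le.2 h2 (m1 τ hτ (ν.pos (sub_ne_zero.2 h3)))]
    exact hr.root b hb
  obtain ⟨τ₀, r0, p0, m0⟩ := ke5_max (ν := ν) hf b
    (fun τ => 0 < ν (τ - b) ∧ ν (τ - b) < R₀ ∧ NonSplit ν ℓ f b (ν (τ - b)))
    ⟨τ₁, r1, p1, (m1 σ rσ pσ).trans_lt lσ, h2⟩
  refine ⟨ν (τ₀ - b), p0.1, p0.2.1, ?_, p0.2.2, ⟨τ₀, r0, rfl⟩, ?_⟩
  · by_cases h5 : ∃ τ, f.IsRoot τ ∧ ν (τ₀ - b) < ν (τ - b) ∧ ν (τ - b) < R₀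
    · obtain ⟨ρ, rρ, pρ, lρ⟩ := h5
      obtain ⟨τ₂, r2, p2, m2⟩ := ke5_min (ν := ν) hf b (fun τ => ν (τ₀ - b) < ν (τ - b))
        ⟨ρ, rρ, pρ⟩
      rw [ke5_tf p2 m2]
      by_contra hd
      exact not_le.2 p2 (m0 τ₂ r2 ⟨p0.1.trans p2, (m2 ρ rρ pρ).trans_lt lρ,
        b, false, ke5_self b (p0.1.trans p2).le, hd⟩)
    · rwa [ke5_tf p0.2.1 fun τ hτ h6 => not_lt.1 fun h7 => h5 ⟨τ, hτ, h6, h7⟩]
  · rintro r' h5 h6 ⟨τ, hτ, rfl⟩
    rcases le_or_gt (ν (τ - b)) 0 with h7 | h7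
    · exact h7.trans p0.1.le
    · exact m0 τ hτ ⟨h7, h5, h6⟩

/-- Choose `R b` by `exists_inner` for every root `b` with `ν (b - a) < R₀`
(`cnt_center_false`).  If `ν (b - b') ≤ R b` then `R b ≤ R b'` by maximality (the vertex
`(b', R b)` is the same vertex, and `R b` is a distance from `b'` to a root), so
`ν (b - b') ≤ R b` is an equivalence relation; let `T` be a set of representatives (for instance a
subset of maximal cardinality among those with property `sep`, `Finset.exists_max_image` on the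
powerset). -/
theorem exists_reg (h : NA ν ℓ) (hr : Ram ℓ f) {a : k} (ha : f.IsRoot a) {R : ℝ} (hR : 0 < R)
    (hc : ℓ ∣ cnt ν a R false f) : Nonempty (Reg ν ℓ f) := by
  classical
  have hf := ke5_ne hr
  obtain ⟨R₀, hR₀, hc₀, hns, hval⟩ := exists_outer h hr ha hR hc
  have h1 : ∀ b, f.IsRoot b ∧ ν (b - a) < R₀ → ∃ r : ℝ, 0 < r ∧ r < R₀ ∧
      ℓ ∣ cnt ν b r true f ∧ NonSplit ν ℓ f b r ∧ (∃ τ, f.IsRoot τ ∧ r = ν (τ - b)) ∧
      ∀ r' : ℝ, r' < R₀ → NonSplit ν ℓ f b r' → (∃ τ, f.IsRoot τ ∧ r' = ν (τ - b)) → r' ≤ r :=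
    fun b hb => exists_inner h hr hb.1 hR₀ (by rwa [cnt_center_false h hb.2])
  choose! Rf q1 q2 q3 q4 q5 q6 using h1
  have hm : ∀ σ, σ ∈ f.roots.toFinset.filter (fun b => ν (b - a) < R₀) ↔
      f.IsRoot σ ∧ ν (σ - a) < R₀ := fun σ => by
    rw [mem_filter, Multiset.mem_toFinset, mem_roots hf]
  have key : ∀ b b', f.IsRoot b ∧ ν (b - a) < R₀ → f.IsRoot b' ∧ ν (b' - a) < R₀ →
      ν (b - b') ≤ Rf b → Rf b ≤ Rf b' := by
    intro b b' hb hb' hle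
    refine q6 b' hb' _ (q2 b hb) ?_ ?_
    · obtain ⟨c, up, h2, h3⟩ := q4 b hb
      exact ⟨c, up, (h.tri c b b').trans (max_le h2 hle), h3⟩
    · obtain ⟨τ, hτ, h2⟩ := q5 b hb
      rcases hle.eq_or_lt with h3 | h3
      · exact ⟨b, hb.1, h3.symm⟩
      · refine ⟨τ, hτ, ?_⟩
        have h4 : ν (b' - b) < ν (b - τ) := by
          rwa [ν.map_sub b' b, ν.map_sub b τ, ← h2]
        rw [h2, ν.map_sub τ b', h.iso h4, ν.map_sub τ b]
  obtain ⟨T, hT1, hsep, hmax⟩ := ke5_sub (f.roots.toFinset.filter fun b => ν (b - a) < R₀)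
    (fun T => ∀ b ∈ T, ∀ b' ∈ T, b ≠ b' → Rf b < ν (b - b'))
    fun b hb => absurd hb (notMem_empty b)
  have hS : ∀ b ∈ T, f.IsRoot b ∧ ν (b - a) < R₀ := fun b hb => (hm b).1 (hT1 hb)
  have hcov : ∀ τ, f.IsRoot τ → ν (τ - a) < R₀ → ∃ b ∈ T, ν (τ - b) ≤ Rf b := by
    intro τ hτ hτ'
    by_contra hn
    have h2 : ∀ b ∈ T, Rf b < ν (τ - b) := fun b hb => not_le.1 fun h3 => hn ⟨b, hb, h3⟩
    have h3 : τ ∉ T := fun h4 => not_le.2 (h2 τ h4) (ke5_self τ (q1 τ ⟨hτ, hτ'⟩).le)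
    have h4 := hmax (insert τ T) (insert_subset ((hm τ).2 ⟨hτ, hτ'⟩) hT1)
      (fun b hb b' hb' hne => by
        rcases mem_insert.1 hb with e | hb
        · rcases mem_insert.1 hb' with e' | hb'
          · exact absurd (e.trans e'.symm) hne
          · rw [e]
            exact not_le.1 fun h5 => not_le.2 (h2 b' hb')
              (h5.trans (key τ b' ⟨hτ, hτ'⟩ (hS b' hb') h5))
        · rcases mem_insert.1 hb' with e' | hb'
          · rw [e', ν.map_sub b τ]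
            exact h2 b hb
          · exact hsep b hb b' hb' hne)
    rw [card_insert_of_notMem h3] at h4
    omega
  refine ⟨⟨a, R₀, T, Rf, fun b => cnt ν b (Rf b) true f / ℓ, ?_, fun b hb => q1 b (hS b hb),
    fun b hb => q2 b (hS b hb), fun b hb => (hS b hb).2, hsep, hcov,
    fun b hb => (Nat.mul_div_cancel' (q3 b (hS b hb))).symm, fun b hb => q4 b (hS b hb), hns,
    fun b hb => (hS b hb).1, ha, fun b hb => q5 b (hS b hb), hval⟩⟩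
  obtain ⟨b, hb, _⟩ := hcov a ha (by rwa [sub_self, map_zero])
  exact ⟨b, hb⟩

end Pool.Agent.Lib.MP_07b2d0_nt.Ks
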