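import Mathlib
import Pool.Agent.Lib.MP_07b2d0_nt.KC3
import Pool.Agent.Lib.MP_07b2d0_nt.KC4
import Pool.Agent.Lib.MP_07b2d0_nt.KE5
import Pool.Agent.Lib.MP_07b2d0_nt.KE15

set_option autoImplicit false
set_option linter.unusedSectionVars false
set_option linter.unusedVariables false

namespace Pool.Agent.Lib.MP_07b2d0_nt.Ks

open Polynomial WithZero Finset
open scoped Polynomial.Bivariate

variable {k E : Type} [Field k] [IsAlgClosed k] [CharZero k] [Field E] [Algebra k E]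
  {ℓ : ℕ} {x y : E} {f : k[X]}
variable {Γ : Type} [Group Γ] {α : Γ →* (k ≃+* k)} {β : Γ →* (E ≃+* E)}
  {ν : AbsoluteValue k ℝ} {lam : ℝ}

theorem Cyc.l1 (h : Cyc ℓ x y f) (hA : Act α β x y) (hF : Fix α f) (hT : Tors k β ℓ)
    (hν : NA ν ℓ) (hI : Inert ν α lam) {a : k} (ha : f.IsRoot a) {R : ℝ} (hR : 0 < R) :
    ¬ ℓ ∣ cnt ν a R false f := by
  intro hc
  obtain ⟨D⟩ := exists_reg hν h.ram ha hR hc
  have : NeZero ℓ := ⟨h.ram.prime.ne_zero⟩
  obtain ⟨ζ, hζ⟩ := HasEnoughRootsOfUnity.exists_primitiveRoot k ℓ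
  exact D.core hν h.ram hI hF hζ fun a ha n => h.good hA hF hT hζ ha n

end Pool.Agent.Lib.MP_07b2d0_nt.Ks
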