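import Mathlib
import Pool.Agent.Lib.MP_07b2d0_nt.KB1
import Pool.Agent.Lib.MP_07b2d0_nt.KB10

set_option autoImplicit false
set_option linter.unusedSectionVars false
set_option linter.unusedVariables false

namespace Pool.Agent.Lib.MP_07b2d0_nt.Ks

open Polynomial WithZero Finset
open scoped Polynomial.Bivariate

variable {k E : Type} [Field k] [IsAlgClosed k] [CharZero k] [Field E] [Algebra k E]
  {ℓ : ℕ} {x y : E} {f : k[X]}
/-- If a power `ψ ^ m` lies in `E` then so does `ψ ^ d` for some `0 < d ≤ [F : E]`.  Sketch: the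
minimal polynomial `P` of `ψ` over `E` divides `X ^ m - C (ψ ^ m) = ∏ (X - ω * ψ)`, `ω` running
over the `m`-th roots of unity of `k`; so `P` splits in `F` with roots of the form `ω * ψ` and its
constant coefficient is `± ω' * ψ ^ natDegree P`. -/
theorem exists_pow_mem {F : Type} [Field F] [Algebra k F] (L : IntermediateField k F)
    [FiniteDimensional L F] {ψ : F} {m : ℕ} (hm : m ≠ 0) (h : ψ ^ m ∈ L) :
    ∃ d, 0 < d ∧ d ≤ Module.finrank L F ∧ ψ ^ d ∈ L := by
  refine ⟨Module.finrank L F, Module.finrank_pos, le_rfl, ?_⟩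
  by_cases h0 : ψ = 0
  · rw [h0, zero_pow Module.finrank_pos.ne']
    exact zero_mem L
  have hc0 : Algebra.norm L ψ ≠ 0 := Algebra.norm_ne_zero_iff.2 h0
  have hc1 : algebraMap L F (Algebra.norm L ψ) ≠ 0 := (_root_.map_ne_zero _).2 hc0
  have h1 : algebraMap L F (Algebra.norm L ψ) ^ m = (ψ ^ Module.finrank L F) ^ m := by
    have e : ψ ^ m = algebraMap L F ⟨ψ ^ m, h⟩ := rfl
    rw [← map_pow, ← map_pow, e, Algebra.norm_algebraMap, map_pow, ← e, ← pow_mul, ← pow_mul,
      mul_comm]
  have h2 : (ψ ^ Module.finrank L F / algebraMap L F (Algebra.norm L ψ)) ^ m = 1 := by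
    rw [div_pow, ← h1, div_self (pow_ne_zero _ hc1)]
  have h3 : IsIntegral k (ψ ^ Module.finrank L F / algebraMap L F (Algebra.norm L ψ)) :=
    IsIntegral.of_pow (Nat.pos_of_ne_zero hm) (h2 ▸ isIntegral_one)
  obtain ⟨u, hu⟩ := minpoly.mem_range_of_degree_eq_one k _
    (IsAlgClosed.degree_eq_one_of_irreducible k (minpoly.irreducible h3))
  have h4 : ψ ^ Module.finrank L F = algebraMap k F u * algebraMap L F (Algebra.norm L ψ) := by
    rw [hu, div_mul_cancel₀ _ hc1]
  rw [h4]
  exact mul_mem (L.algebraMap_mem u) (Algebra.norm L ψ).2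

/-- With `d` from `exists_pow_mem`, `ψ ^ gcd d (ℓ ^ N) ∈ L` (Bezout, `ψ = 0` is trivial), and
`gcd d (ℓ ^ N) = ℓ ^ j` with `j < ℓ ^ j ≤ finrank`. -/
theorem pow_mem_of_pow_mem {F : Type} [Field F] [Algebra k F] (L : IntermediateField k F)
    [FiniteDimensional L F] (hℓ : ℓ.Prime) {ψ : F} {N : ℕ} (h : ψ ^ ℓ ^ N ∈ L) :
    ψ ^ ℓ ^ Module.finrank L F ∈ L := by
  by_cases h0 : ψ = 0
  · rw [h0, zero_pow (pow_ne_zero _ hℓ.ne_zero)]
    exact zero_mem L
  obtain ⟨d, hd0, hd, hdL⟩ := exists_pow_mem L (pow_ne_zero N hℓ.ne_zero) h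
  have hg : ψ ^ Nat.gcd d (ℓ ^ N) ∈ L := by
    rw [← zpow_natCast, Nat.gcd_eq_gcd_ab, zpow_add₀ h0, zpow_mul, zpow_mul, zpow_natCast,
      zpow_natCast]
    exact mul_mem (zpow_mem hdL _) (zpow_mem h _)
  obtain ⟨j, -, hj⟩ := (Nat.dvd_prime_pow hℓ).1 (Nat.gcd_dvd_right d (ℓ ^ N))
  have h1 : ℓ ^ j ≤ d := hj ▸ Nat.gcd_le_left _ hd0
  have h2 : j < ℓ ^ j := Nat.lt_pow_self hℓ.one_lt
  obtain ⟨i, hi⟩ : ∃ i, Module.finrank L F = j + i := ⟨Module.finrank L F - j, by omega⟩
  rw [hi, pow_add, pow_mul, ← hj]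
  exact pow_mem hg _

variable {Γ : Type} [Group Γ] {α : Γ →* (k ≃+* k)} {β : Γ →* (E ≃+* E)}
  {ν : AbsoluteValue k ℝ} {lam : ℝ}

/-- Passing to the subfield `L = k⟮x, y⟯`.  Sketch: `β g` maps `L` into `L`
(`IntermediateField.adjoin_induction`), so it restricts to `β' g : L ≃+* L` with inverse the
restriction of `β g⁻¹`.  `E` is finite over `L ≥ k⟮x⟯`.  For `Tors` at level `m` take `N` for the
level `m + finrank L E`: if `φ ∈ L` has `DivBy` in `L`, then also in `E` (`Valuation.comap` along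
the inclusion); `β g φ = φ * ψ ^ ℓ ^ (m + finrank)`, and `ψ ^ ℓ ^ finrank ∈ L`
(`pow_mem_of_pow_mem`).  For `gen` use `IntermediateField.lift_adjoin` / `map_injective` or
`IntermediateField.adjoin_induction`. -/
theorem Big.exists_cyc (h : Big ℓ x y f) (hA : Act α β x y) (hT : Tors k β ℓ) :
    ∃ (L : Type) (_ : Field L) (_ : Algebra k L) (x' y' : L) (β' : Γ →* (L ≃+* L)),
      Cyc ℓ x' y' f ∧ Act α β' x' y' ∧ Tors k β' ℓ := by
  let L : IntermediateField k E := IntermediateField.adjoin k {x, y}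
  have hx : x ∈ L := IntermediateField.subset_adjoin k _ (by simp)
  have hy : y ∈ L := IntermediateField.subset_adjoin k _ (by simp)
  have hmap : ∀ g, ∀ z ∈ L, β g z ∈ L := by
    intro g z hz
    induction hz using IntermediateField.adjoin_induction with
    | mem z hz =>
      rcases hz with rfl | rfl
      · rw [hA.fx]
        exact hx
      · rw [hA.fy]
        exact hy
    | algebraMap c =>
      rw [hA.compat]
      exact L.algebraMap_mem _
    | add a b _ _ ha hb =>
      rw [map_add]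
      exact add_mem ha hb
    | inv a _ ha =>
      rw [map_inv₀]
      exact inv_mem ha
    | mul a b _ _ ha hb =>
      rw [map_mul]
      exact mul_mem ha hb
  let r : Γ → (L ≃+* L) := fun g =>
    { toFun := fun z => ⟨β g z, hmap g z z.2⟩
      invFun := fun z => ⟨β g⁻¹ z, hmap g⁻¹ z z.2⟩
      left_inv := fun z => Subtype.ext (by
        show (β g⁻¹ * β g) z = z
        rw [← map_mul, inv_mul_cancel, map_one]
        rfl)
      right_inv := fun z => Subtype.ext (by
        show (β g * β g⁻¹) z = z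
        rw [← map_mul, mul_inv_cancel, map_one]
        rfl)
      map_mul' := fun a b => Subtype.ext (map_mul (β g) (a : E) (b : E))
      map_add' := fun a b => Subtype.ext (map_add (β g) (a : E) (b : E)) }
  let β' : Γ →* (L ≃+* L) := MonoidHom.mk' r fun g g' => by
    ext z
    show β (g * g') z = β g (β g' z)
    rw [map_mul]
    rfl
  have hβ' : ∀ g (z : L), ((β' g z : L) : E) = β g z := fun g z => rfl
  have hfin : FiniteDimensional L E := by
    have hle : IntermediateField.adjoin k {x} ≤ L :=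
      IntermediateField.adjoin.mono k _ _ (by simp)
    have := h.fin
    let _ : Algebra (IntermediateField.adjoin k {x}) L :=
      (IntermediateField.inclusion hle).toRingHom.toAlgebra
    have : IsScalarTower (IntermediateField.adjoin k {x}) L E :=
      IsScalarTower.of_algebraMap_eq fun _ => rfl
    exact Module.Finite.of_restrictScalars_finite (IntermediateField.adjoin k {x}) L E
  refine ⟨L, inferInstance, inferInstance, ⟨x, hx⟩, ⟨y, hy⟩, β', ⟨h.ram, ?_, ?_, ?_⟩,
    ⟨fun g c => Subtype.ext (hA.compat g c), fun g => Subtype.ext (hA.fx g),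
      fun g => Subtype.ext (hA.fy g)⟩, fun m => ?_⟩
  · intro ha
    exact h.trans (ha.algebraMap (A := E))
  · apply IntermediateField.map_injective L.val
    rw [IntermediateField.adjoin_map, ← AlgHom.fieldRange_eq_map, IntermediateField.fieldRange_val,
      Set.image_pair]
    rfl
  · apply (algebraMap L E).injective
    rw [map_pow, ← aeval_algebraMap_apply]
    exact h.eq
  · obtain ⟨N, hN⟩ := hT (Module.finrank L E + m)
    refine ⟨N, fun φ hφ hD g => ?_⟩
    have hφ' : (φ : E) ≠ 0 := fun h0 => hφ (Subtype.ext h0)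
    obtain ⟨ψ, hψ⟩ := hN φ hφ' (fun v hv => hD (v.comap (algebraMap L E)) hv) g
    have h1 : ψ ^ ℓ ^ (Module.finrank L E + m) ∈ L := by
      have : ψ ^ ℓ ^ (Module.finrank L E + m) = β g φ / φ := by
        rw [hψ, mul_div_cancel_left₀ _ hφ']
      rw [this]
      exact div_mem (hmap g _ φ.2) φ.2
    refine ⟨⟨_, pow_mem_of_pow_mem L h.ram.prime h1⟩, Subtype.ext ?_⟩
    rw [hβ', hψ, pow_add, pow_mul]
    rfl

end Pool.Agent.Lib.MP_07b2d0_nt.Ks
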