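import Mathlib
import Pool.Agent.Lib.MP_07b2d0_nt.KE2

set_option autoImplicit false
set_option linter.unusedSectionVars false
set_option linter.unusedVariables false

namespace Pool.Agent.Lib.MP_07b2d0_nt.Ks

open Polynomial WithZero Finset
open scoped Polynomial.Bivariate

variable {k E : Type} [Field k] [IsAlgClosed k] [CharZero k] [Field E] [Algebra k E]
  {ℓ : ℕ} {x y : E} {f : k[X]}
variable {Γ : Type} [Group Γ] {α : Γ →* (k ≃+* k)} {β : Γ →* (E ≃+* E)}
  {ν : AbsoluteValue k ℝ} {lam : ℝ}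

theorem kf3_monic {ι : Type} [Fintype ι] (b : ι → k) (e : ι → ℕ) :
    (∏ i, (X - C (b i)) ^ e i : k[X]).Monic :=
  monic_prod_of_monic _ _ fun i _ => (monic_X_sub_C (b i)).pow _

theorem kf3_lead {ι : Type} [Fintype ι] (c : k) (b : ι → k) (e : ι → ℕ) :
    (C c * ∏ i, (X - C (b i)) ^ e i : k[X]).leadingCoeff = c := by
  rw [leadingCoeff_mul, (kf3_monic b e).leadingCoeff, leadingCoeff_C, mul_one]

theorem kf3_deg {ι : Type} [Fintype ι] {c : k} (hc : c ≠ 0) (b : ι → k) (e : ι → ℕ) :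
    (C c * ∏ i, (X - C (b i)) ^ e i : k[X]).natDegree = ∑ i, e i := by
  rw [natDegree_C_mul hc, natDegree_prod_of_monic _ _ fun i _ => (monic_X_sub_C (b i)).pow _]
  refine Finset.sum_congr rfl fun i _ => ?_
  rw [(monic_X_sub_C (b i)).natDegree_pow, natDegree_X_sub_C, mul_one]

theorem kf3_root {ι : Type} [Fintype ι] {c : k} (hc : c ≠ 0) (b : ι → k) (e : ι → ℕ) {τ : k}
    (h : (C c * ∏ i, (X - C (b i)) ^ e i : k[X]).IsRoot τ) : ∃ i, τ = b i ∧ e i ≠ 0 := by
  rw [IsRoot.def, eval_mul, eval_C, eval_prod, mul_eq_zero, Finset.prod_eq_zero_iff] at h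
  rcases h with h | ⟨i, -, h⟩
  · exact absurd h hc
  · rw [eval_pow, eval_sub, eval_X, eval_C, pow_eq_zero_iff'] at h
    exact ⟨i, sub_eq_zero.1 h.1, h.2⟩

theorem kf3_mult {ι : Type} [Fintype ι] {c : k} (hc : c ≠ 0) {b : ι → k}
    (hb : Function.Injective b) (e : ι → ℕ) (i : ι) :
    (C c * ∏ i, (X - C (b i)) ^ e i : k[X]).rootMultiplicity (b i) = e i := by
  classical
  have h1 : (C c * ∏ i, (X - C (b i)) ^ e i : k[X]) =
      (C c * ∏ i' ∈ univ.erase i, (X - C (b i')) ^ e i') * (X - C (b i)) ^ e i := by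
    rw [mul_assoc, Finset.prod_erase_mul _ _ (Finset.mem_univ i)]
  have h2 : ¬ (C c * ∏ i' ∈ univ.erase i, (X - C (b i')) ^ e i' : k[X]).IsRoot (b i) := by
    rw [IsRoot.def, eval_mul, eval_C, eval_prod, mul_eq_zero, Finset.prod_eq_zero_iff]
    rintro (h | ⟨i', hi', h⟩)
    · exact hc h
    · rw [eval_pow, eval_sub, eval_X, eval_C, pow_eq_zero_iff'] at h
      exact (Finset.ne_of_mem_erase hi') (hb (sub_eq_zero.1 h.1)).symm
  have h3 : (C c * ∏ i' ∈ univ.erase i, (X - C (b i')) ^ e i' : k[X]) ≠ 0 := by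
    intro h0
    rw [h0] at h2
    exact h2 (by simp)
  rw [h1, rootMultiplicity_mul_X_sub_C_pow h3, rootMultiplicity_eq_zero h2, zero_add]

theorem kf3_trans (ht : Transcendental k x) (τ : k) :
    Transcendental k (x - algebraMap k E τ)⁻¹ := by
  intro h
  apply ht
  have h1 : IsAlgebraic k (x - algebraMap k E τ) := IsAlgebraic.inv_iff.1 h
  have h2 := h1.add (isAlgebraic_algebraMap (A := E) τ)
  rwa [sub_add_cancel] at h2

theorem kf3_adjoin (x : E) (τ : k) :
    IntermediateField.adjoin k {(x - algebraMap k E τ)⁻¹} = IntermediateField.adjoin k {x} := by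
  apply le_antisymm
  · rw [IntermediateField.adjoin_simple_le_iff]
    exact inv_mem (sub_mem (IntermediateField.mem_adjoin_simple_self k x)
      (IntermediateField.algebraMap_mem _ τ))
  · rw [IntermediateField.adjoin_simple_le_iff]
    have h1 := add_mem (inv_mem (IntermediateField.mem_adjoin_simple_self k
      (x - algebraMap k E τ)⁻¹)) (IntermediateField.algebraMap_mem _ τ)
    rwa [inv_inv, sub_add_cancel] at h1

theorem kf3_ne (ht : Transcendental k x) (τ : k) : x - algebraMap k E τ ≠ 0 := by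
  intro h
  apply ht
  rw [sub_eq_zero.1 h]
  exact isAlgebraic_algebraMap τ

open Classical in
/-- Moving the branch point `a j` to infinity.  Let `x' = (x - a j)⁻¹`, `b i = (a i - a j)⁻¹`,
`U = {i | i ≠ j, ℓ ∤ w i}`, `V = {i | ℓ ∣ w i}`.  For `i ≠ j`,
`x - a i = (a j - a i) * (x' - b i) / x'`.  Take
`y' = y * x' ^ ((∑ w) / ℓ) / ∏ i ∈ V, (x' - b i) ^ (w i / ℓ)`,
`c' = c * ∏ i ≠ j, (a j - a i) ^ w i`.  The `b i` are distinct, so the root `b i` has multiplicity
`w i`; the degree is `∑ i ∈ U, w i ≡ - w j` modulo `ℓ`; `k⟮x'⟯ = k⟮x⟯`. -/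
theorem Gen.mobius {ι : Type} [Fintype ι] {c : k} {a : ι → k} {w : ι → ℕ} (h : Gen ℓ x y c a w)
    (hA : Act α β x y) (hc : ∀ g, α g c = c) (ha : ∀ g i, α g (a i) = a i) {j : ι}
    (hj : ¬ ℓ ∣ w j) : ∃ (x' y' : E) (c' : k), c' ≠ 0 ∧
      Big ℓ x' y' (C c' * ∏ i, (X - C (a i - a j)⁻¹) ^ if i ≠ j ∧ ¬ ℓ ∣ w i then w i else 0) ∧
      Act α β x' y' ∧
      Fix α (C c' * ∏ i, (X - C (a i - a j)⁻¹) ^ if i ≠ j ∧ ¬ ℓ ∣ w i then w i else 0) := by
  set e : ι → ℕ := fun i => if i ≠ j ∧ ¬ ℓ ∣ w i then w i else 0 with he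
  set q : ι → ℕ := fun i => if ℓ ∣ w i then w i / ℓ else 0 with hq
  set d : ι → k := fun i => if i = j then 1 else (a j - a i) ^ w i with hd
  set b : ι → k := fun i => (a i - a j)⁻¹ with hb
  set x' : E := (x - algebraMap k E (a j))⁻¹ with hx'
  obtain ⟨S, hS⟩ := h.sum
  have hbi : Function.Injective b := by
    intro i i' hii
    exact h.inj (sub_left_injective (inv_injective hii))
  have hd0 : ∀ i, d i ≠ 0 := by
    intro i
    by_cases hi : i = j
    · simp [hd, hi]
    · have : a j - a i ≠ 0 := sub_ne_zero.2 fun h0 => hi (h.inj h0).symm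
      simp [hd, hi, this]
  have hc' : c * ∏ i, d i ≠ 0 := mul_ne_zero h.ne (Finset.prod_ne_zero_iff.2 fun i _ => hd0 i)
  have ht' : Transcendental k x' := kf3_trans h.trans (a j)
  have hxj : x - algebraMap k E (a j) ≠ 0 := kf3_ne h.trans (a j)
  have hfac : ∀ i, ((x - algebraMap k E (a i)) * x') ^ w i =
      algebraMap k E (d i) * (x' - algebraMap k E (b i)) ^ e i *
        ((x' - algebraMap k E (b i)) ^ q i) ^ ℓ := by
    intro i
    by_cases hi : i = j
    · subst hi
      simp [hd, he, hq, hj, hx', mul_inv_cancel₀ hxj]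
    · have h1 : a i - a j ≠ 0 := sub_ne_zero.2 fun h0 => hi (h.inj h0)
      have h2 : algebraMap k E (a i) - algebraMap k E (a j) ≠ 0 := by
        rw [← map_sub]
        exact (_root_.map_ne_zero _).2 h1
      have h3 : (x - algebraMap k E (a i)) * x' =
          algebraMap k E (a j - a i) * (x' - algebraMap k E (b i)) := by
        simp only [hb, hx', map_inv₀, map_sub]
        field_simp
        ring
      have h4 : w i = e i + q i * ℓ := by
        by_cases hw : ℓ ∣ w i
        · simp [he, hq, hw, Nat.div_mul_cancel hw]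
        · simp [he, hq, hw, hi]
      have h5 : d i = (a j - a i) ^ w i := by simp [hd, hi]
      rw [h3, mul_pow, h5, map_pow, ← pow_mul, mul_assoc, ← pow_add, ← h4]
  have hsum : ∑ i, w i = ∑ i, e i + ℓ * ∑ i, q i + w j := by
    have h1 : ∀ i, w i = e i + ℓ * q i + if i = j then w j else 0 := by
      intro i
      by_cases hi : i = j
      · subst hi
        simp [he, hq, hj]
      · by_cases hw : ℓ ∣ w i
        · simp [he, hq, hw, hi, Nat.mul_div_cancel' hw]
        · simp [he, hq, hw, hi]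
    rw [Finset.sum_congr rfl fun i _ => h1 i, Finset.sum_add_distrib, Finset.sum_add_distrib,
      ← Finset.mul_sum]
    simp
  have hP : (∏ i, (x' - algebraMap k E (b i)) ^ q i) ≠ 0 :=
    Finset.prod_ne_zero_iff.2 fun i _ => pow_ne_zero _ (kf3_ne ht' (b i))
  have hαb : ∀ g i, α g (b i) = b i := by
    intro g i
    simp only [hb, map_inv₀, map_sub, ha]
  have hβx : ∀ g, β g x' = x' := by
    intro g
    simp only [hx', map_inv₀, map_sub, hA.fx, hA.compat, ha]
  refine ⟨x', y * x' ^ S / ∏ i, (x' - algebraMap k E (b i)) ^ q i, c * ∏ i, d i, hc',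
    ⟨⟨h.prime, ?_, ?_⟩, ht', ?_, ?_⟩, ⟨hA.compat, hβx, ?_⟩, ⟨?_, ?_⟩⟩
  · intro τ hτ
    obtain ⟨i, rfl, hi⟩ := kf3_root hc' b e hτ
    rw [kf3_mult hc' hbi e i]
    by_cases hw : i ≠ j ∧ ¬ ℓ ∣ w i
    · have : e i = w i := by simp only [he]; rw [if_pos hw]
      rw [this]
      exact hw.2
    · exact absurd (by simp only [he]; rw [if_neg hw]) hi
  · rw [kf3_deg hc' b e]
    intro hdvd
    apply hj
    have h1 : ℓ ∣ ∑ i, e i + ℓ * ∑ i, q i + w j := by
      rw [← hsum]
      exact ⟨S, hS⟩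
    exact (Nat.dvd_add_right (dvd_add hdvd (dvd_mul_right _ _))).1 h1
  · rw [hx', kf3_adjoin]
    exact h.fin
  · have h1 : aeval x' (C (c * ∏ i, d i) * ∏ i, (X - C (b i)) ^ e i : k[X]) =
        algebraMap k E c * ∏ i, (algebraMap k E (d i) * (x' - algebraMap k E (b i)) ^ e i) := by
      simp only [map_mul, map_prod, map_pow, map_sub, aeval_C, aeval_X, Finset.prod_mul_distrib,
        mul_assoc]
    rw [h1, div_pow, div_eq_iff (pow_ne_zero _ hP), mul_pow, h.eq, ← pow_mul, mul_comm S ℓ, ← hS,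
      ← Finset.prod_pow_eq_pow_sum, mul_assoc, ← Finset.prod_mul_distrib, ← Finset.prod_pow,
      mul_assoc, ← Finset.prod_mul_distrib]
    congr 1
    refine Finset.prod_congr rfl fun i _ => ?_
    rw [← mul_pow, hfac]
  · intro g
    simp only [map_div₀, map_mul, map_pow, map_prod, map_sub, hβx, hA.fy, hA.compat, hαb]
  · intro g
    rw [kf3_lead, map_mul, hc, map_prod]
    congr 1
    refine Finset.prod_congr rfl fun i _ => ?_
    by_cases hi : i = j
    · simp [hd, hi]
    · simp [hd, hi, ha]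
  · intro g τ hτ
    obtain ⟨i, rfl, -⟩ := kf3_root hc' b e hτ
    exact hαb g i

end Pool.Agent.Lib.MP_07b2d0_nt.Ks
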