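import Mathlib
import Pool.Agent.Lib.MP_07b2d0_nt.KF1
import Pool.Agent.Lib.MP_07b2d0_nt.KF2
import Pool.Agent.Lib.MP_07b2d0_nt.KF3
import Pool.Agent.Lib.MP_07b2d0_nt.CR

set_option autoImplicit false
set_option linter.unusedSectionVars false
set_option linter.unusedVariables false

namespace Pool.Agent.Lib.MP_07b2d0_nt.Ks

open Polynomial WithZero Finset
open scoped Polynomial.Bivariate

variable {k E : Type} [Field k] [IsAlgClosed k] [CharZero k] [Field E] [Algebra k E]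
  {ℓ : ℕ} {x y : E} {f : k[X]}
variable {Γ : Type} [Group Γ] {α : Γ →* (k ≃+* k)} {β : Γ →* (E ≃+* E)}
  {ν : AbsoluteValue k ℝ} {lam : ℝ}
  {ι : Type} [Fintype ι] {c : k} {a : ι → k} {w : ι → ℕ}

theorem kf4_root (c : k) (b : ι → k) (e : ι → ℕ) {i : ι} (hi : e i ≠ 0) :
    (C c * ∏ i, (X - C (b i)) ^ e i).IsRoot (b i) := by
  rw [IsRoot.def, eval_mul, eval_prod, prod_eq_zero (mem_univ i), mul_zero]
  rw [eval_pow, eval_sub, eval_X, eval_C, sub_self, zero_pow hi]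

theorem kf4_mob (h : Gen ℓ x y c a w) (hA : Act α β x y) (hc : ∀ g, α g c = c)
    (ha : ∀ g i, α g (a i) = a i) (hT : Tors k β ℓ) {j : ι} (hj : ¬ ℓ ∣ w j) :
    ∃ (L : Type) (_ : Field L) (_ : Algebra k L) (x' y' : L) (β' : Γ →* (L ≃+* L)) (c' : k)
      (e : ι → ℕ), c' ≠ 0 ∧ (∀ i, i ≠ j ∧ ¬ ℓ ∣ w i → e i = w i) ∧
      (∀ i, ¬ (i ≠ j ∧ ¬ ℓ ∣ w i) → e i = 0) ∧
      Cyc ℓ x' y' (C c' * ∏ i, (X - C (a i - a j)⁻¹) ^ e i) ∧ Act α β' x' y' ∧ Tors k β' ℓ ∧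
      Fix α (C c' * ∏ i, (X - C (a i - a j)⁻¹) ^ e i) ∧
      ∀ i, i ≠ j → ¬ ℓ ∣ w i →
        (C c' * ∏ i, (X - C (a i - a j)⁻¹) ^ e i).IsRoot (a i - a j)⁻¹ := by
  obtain ⟨x₁, y₁, c', h1, h2, h3, h4⟩ := h.mobius hA hc ha hj
  obtain ⟨L, i1, i2, x', y', β', h5, h6, h7⟩ := h2.exists_cyc h3 hT
  refine ⟨L, i1, i2, x', y', β', c', _, h1, fun i hi => if_pos hi, fun i hi => if_neg hi, h5, h6,
    h7, h4, fun i h8 h9 => kf4_root c' (fun i => (a i - a j)⁻¹) _ ?_⟩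
  rw [if_pos ⟨h8, h9⟩]
  intro h0
  exact h9 (h0 ▸ dvd_zero ℓ)

theorem kf4_sub {p q r : k} (hp : p - r ≠ 0) (hq : q - r ≠ 0) :
    (p - r)⁻¹ - (q - r)⁻¹ = (q - p) / ((p - r) * (q - r)) := by
  field_simp
  ring

/-- Let `i₀ ∈ I`, `j₀ ∈ J`; apply `Gen.mobius` with `j₀`, `Big.exists_cyc` and `Cyc.l1` with centre
`b i₀`, `b i = (a i - a j₀)⁻¹`.  Since `ℓ ∣ ∑ i ∈ J, w i` and `ℓ ∤ w j₀`, `J.erase j₀` is nonempty;
let `R` be the minimum of `ν (b j - b i₀)` over it.  By `Sep` for `(i₀, i', j, j₀)`,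
`ν (b i' - b i₀) < ν (b j - b i₀)`, so `cnt = ∑ i ∈ I, w i` (`cnt_prod`). -/
theorem Gen.l1 (h : Gen ℓ x y c a w) (hA : Act α β x y) (hc : ∀ g, α g c = c)
    (ha : ∀ g i, α g (a i) = a i) (hT : Tors k β ℓ) (hν : NA ν ℓ) (hI : Inert ν α lam) :
    Loc1 ν ℓ a w := by
  classical
  rintro I J hd hm ⟨i₀, hi₀⟩ ⟨j₀, hj₀⟩ hdv hsep
  have hj : ¬ ℓ ∣ w j₀ := (hm j₀).2 (Or.inr hj₀)
  have hne : ∀ i ∈ I, i ≠ j₀ := fun i hi e => disjoint_left.1 hd hi (e ▸ hj₀)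
  obtain ⟨L, _, _, x', y', β', c', e, h1, e1, e2, h2, h3, h4, h5, h6⟩ := kf4_mob h hA hc ha hT hj
  have hJ : ℓ ∣ ∑ i ∈ J, w i := by
    have h7 : ℓ ∣ ∑ i ∈ univ \ (I ∪ J), w i := dvd_sum fun i hi => by
      by_contra h8
      exact (mem_sdiff.1 hi).2 (mem_union.2 ((hm i).1 h8))
    have h8 := h.sum
    rw [← sum_sdiff (subset_univ (I ∪ J)), sum_union hd] at h8
    exact (Nat.dvd_add_right hdv).1 ((Nat.dvd_add_right h7).1 h8)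
  have hJ' : (J.erase j₀).Nonempty := by
    rw [nonempty_iff_ne_empty]
    intro h7
    rw [← add_sum_erase J w hj₀, h7, sum_empty, add_zero] at hJ
    exact hj hJ
  have key : ∀ i ∈ I, ∀ j ∈ J.erase j₀, ν ((a i - a j₀)⁻¹ - (a i₀ - a j₀)⁻¹) <
      ν ((a j - a j₀)⁻¹ - (a i₀ - a j₀)⁻¹) := by
    intro i hi j hj'
    have n1 := sub_ne h.inj (hne i hi)
    have n2 := sub_ne h.inj (hne i₀ hi₀)
    have n3 := sub_ne h.inj (mem_erase.1 hj').1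
    have h7 := hsep i₀ hi₀ i hi j (mem_erase.1 hj').2 j₀ hj₀
    have p1 := ν.pos n1
    have p2 := ν.pos n2
    have p3 := ν.pos n3
    rw [kf4_sub n1 n2, kf4_sub n3 n2, map_div₀, map_div₀, map_mul, map_mul,
      div_lt_div_iff₀ (mul_pos p1 p2) (mul_pos p3 p2), ← mul_assoc, ← mul_assoc]
    exact mul_lt_mul_of_pos_right h7 p2
  obtain ⟨j₁, hj₁, hmin⟩ := exists_min_image (J.erase j₀)
    (fun j => ν ((a j - a j₀)⁻¹ - (a i₀ - a j₀)⁻¹)) hJ'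
  refine h2.l1 h3 h5 h4 hν hI (h6 i₀ (hne i₀ hi₀) ((hm i₀).2 (Or.inl hi₀)))
    ((ν.nonneg _).trans_lt (key i₀ hi₀ j₁ hj₁)) ?_
  rw [cnt_prod h1 (fun i => (a i - a j₀)⁻¹) e, ← sum_subset (s₁ := I)
    (fun i hi => mem_filter.2 ⟨mem_univ i, key i hi j₁ hj₁⟩) fun i hi hi' => e2 i fun h7 =>
      not_le.2 (mem_filter.1 hi).2
        (hmin i (mem_erase.2 ⟨h7.1, ((hm i).1 h7.2).resolve_left hi'⟩)),
    sum_congr rfl fun i hi => e1 i ⟨hne i hi, (hm i).2 (Or.inl hi)⟩]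
  exact hdv

/-- Apply `Gen.mobius` with the index `l`, `Big.exists_cyc` and `Cyc.l2`:
`(b j - b i) / (b n - b i) = cr a i j n l` for `b i = (a i - a l)⁻¹`. -/
theorem Gen.l2 (h : Gen ℓ x y c a w) (hA : Act α β x y) (hc : ∀ g, α g c = c)
    (ha : ∀ g i, α g (a i) = a i) (hz : ∀ g (z : k), z ^ ℓ = 1 → α g z = z) (hT : Tors k β ℓ)
    {i j n l : ι} (hq : [i, j, n, l].Nodup) (hi : ¬ ℓ ∣ w i) (hj : ¬ ℓ ∣ w j) (hn : ¬ ℓ ∣ w n)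
    (hl : ¬ ℓ ∣ w l) : ∃ γ : k, (∀ g, α g γ = γ) ∧ γ ^ ℓ = cr a i j n l := by
  obtain ⟨q1, q2, q3, q4, q5, q6⟩ := nodup4.1 hq
  obtain ⟨L, _, _, x', y', β', c', e, -, -, -, h2, h3, h4, h5, h6⟩ := kf4_mob h hA hc ha hT hl
  have hb : ∀ {m : ι}, i ≠ m → (a m - a l)⁻¹ ≠ (a i - a l)⁻¹ := fun hm h7 =>
    hm (h.inj (sub_left_injective (inv_injective h7))).symm
  obtain ⟨γ, h7, h8⟩ := h2.l2 h3 h5 hz h4 (h6 i q3 hi) (h6 j q5 hj) (h6 n q6 hn) (hb q1) (hb q2)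
  refine ⟨γ, h7, h8.trans ?_⟩
  have n1 := sub_ne h.inj q3
  have n2 := sub_ne h.inj q5
  have n3 := sub_ne h.inj q6
  have n4 := sub_ne h.inj q2
  rw [kf4_sub n2 n1, kf4_sub n3 n1, cr]
  field_simp

end Pool.Agent.Lib.MP_07b2d0_nt.Ks
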