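import Mathlib

set_option autoImplicit false
set_option linter.unusedSectionVars false
set_option linter.unusedVariables false

namespace Pool.Agent.Lib.MP_07b2d0_nt.Ks

/-- The spectral norm as an absolute value: `spectralMulAlgNorm`, `spectralNorm_extends`,
`isNonarchimedean_spectralNorm`, `spectralNorm_eq_of_equiv`. -/
theorem exists_spec_abs (L : Type) [NontriviallyNormedField L] [IsUltrametricDist L]
    [CompleteSpace L] : ∃ ν : AbsoluteValue (AlgebraicClosure L) ℝ, IsNonarchimedean ν ∧
      (∀ u : L, ν (algebraMap L _ u) = ‖u‖) ∧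
      ∀ (σ : AlgebraicClosure L ≃ₐ[L] AlgebraicClosure L) (z : AlgebraicClosure L),
        ν (σ z) = ν z := by
  let N := spectralMulAlgNorm L (AlgebraicClosure L)
  let ν : AbsoluteValue (AlgebraicClosure L) ℝ :=
    { toFun := fun z => spectralNorm L (AlgebraicClosure L) z
      map_mul' := fun x y => map_mul N x y
      nonneg' := fun x => spectralNorm_nonneg x
      eq_zero' := fun x => map_eq_zero_iff_eq_zero N
      add_le' := fun x y => map_add_le_add N x y }
  refine ⟨ν, isNonarchimedean_spectralNorm (K := L) (L := AlgebraicClosure L),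
    fun u => spectralNorm_extends u, fun σ z => (spectralNorm_eq_of_equiv σ z).symm⟩

open NumberField in
/-- The completion at a finite place: `L = v.maximalIdeal.adicCompletion K` with its norm
(`FinitePlace.norm_embedding_eq`, see the file `Mathlib/NumberTheory/NumberField/Completion/
FinitePlace`).  The image of `K` is dense, so every norm is the norm of an element of `K`, and the
finitely many residue classes of `𝓞 K` modulo `v` represent the residue field: for `‖u‖ ≤ 1`
approximate `u` by `z ∈ K` with `v z ≤ 1`, write `z = a / s` with `s ∉ v`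
(or use `HeightOneSpectrum.exists_valuation_sub_lt_of_integer`-like lemmas). -/
theorem exists_completion (K : Type) [Field K] [NumberField K] (v : FinitePlace K) :
    ∃ (L : Type) (_ : NontriviallyNormedField L) (_ : IsUltrametricDist L) (_ : CompleteSpace L)
      (_ : Algebra K L), (∀ z : K, ‖algebraMap K L z‖ = v z) ∧ (∀ u : L, ∃ z : K, ‖u‖ = v z) ∧
      ∃ S : Finset L, ∀ u : L, ‖u‖ ≤ 1 → ∃ r ∈ S, ‖u - r‖ < 1 := by
  classical
  let w := v.maximalIdeal
  let L := w.adicCompletion K
  have hemb : ∀ z : K, ‖FinitePlace.embedding w z‖ = v z := fun z => v.norm_embedding_eq z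
  have hnt : ∃ x : L, 1 < ‖x‖ := by
    obtain ⟨a, ha, ha0⟩ := Submodule.exists_mem_ne_zero_of_ne_bot w.ne_bot
    have h1 := (FinitePlace.norm_lt_one_iff_mem K w a).2 ha
    have h0 : FinitePlace.embedding w (algebraMap (𝓞 K) K a) ≠ 0 := by
      rw [map_ne_zero]
      exact fun h => ha0 (by simpa using h)
    refine ⟨(FinitePlace.embedding w (algebraMap (𝓞 K) K a))⁻¹, ?_⟩
    rw [norm_inv]
    exact (one_lt_inv₀ (norm_pos_iff.2 h0)).2 h1
  let inst : NontriviallyNormedField L :=
    { (inferInstance : NormedField L) with non_trivial := hnt }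
  have hum : IsUltrametricDist L := inferInstance
  have hcs : CompleteSpace L := inferInstance
  have hdense : ∀ (u : L) (ε : ℝ), 0 < ε → ∃ z : K, ‖u - FinitePlace.embedding w z‖ < ε := by
    intro u ε hε
    obtain ⟨z, hz⟩ := (w.denseRange_algebraMap K).exists_dist_lt u hε
    exact ⟨z, by rwa [dist_eq_norm] at hz⟩
  refine ⟨L, inst, hum, hcs, inferInstance, hemb, fun u => ?_, ?_⟩
  · by_cases hu : u = 0
    · exact ⟨0, by simp [hu]⟩
    · obtain ⟨z, hz⟩ := hdense u ‖u‖ (norm_pos_iff.2 hu)
      refine ⟨z, ?_⟩
      rw [← hemb]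
      have e : FinitePlace.embedding w z = u + -(u - FinitePlace.embedding w z) := by ring
      rw [e, IsUltrametricDist.norm_add_eq_max_of_norm_ne_norm (by rw [norm_neg]; exact hz.ne'),
        norm_neg, max_eq_left hz.le]
  · have hfin : Finite (𝓞 K ⧸ w.asIdeal) := w.asIdeal.finiteQuotientOfFreeOfNeBot w.ne_bot
    have := Fintype.ofFinite (𝓞 K ⧸ w.asIdeal)
    refine ⟨Finset.univ.image fun c : 𝓞 K ⧸ w.asIdeal =>
      FinitePlace.embedding w (algebraMap (𝓞 K) K c.out), fun u hu => ?_⟩
    obtain ⟨z, hz⟩ := hdense u 1 one_pos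
    have hz1 : ‖FinitePlace.embedding w z‖ ≤ 1 := by
      have e : FinitePlace.embedding w z = u + -(u - FinitePlace.embedding w z) := by ring
      rw [e]
      refine (IsUltrametricDist.norm_add_le_max _ _).trans (max_le hu ?_)
      rw [norm_neg]
      exact hz.le
    have hle : ∀ y : K, ‖FinitePlace.embedding w y‖ ≤ 1 → w.valuation K y ≤ 1 := by
      intro y hy
      rw [FinitePlace.norm_embedding'] at hy
      exact (WithZeroMulInt.toNNReal_le_one_iff (HeightOneSpectrum.one_lt_absNorm_nnreal w)).1
        (by exact_mod_cast hy)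
    have hlt : ∀ y : K, w.valuation K y < 1 → ‖FinitePlace.embedding w y‖ < 1 := by
      intro y hy
      rw [FinitePlace.norm_embedding']
      exact_mod_cast
        (WithZeroMulInt.toNNReal_lt_one_iff (HeightOneSpectrum.one_lt_absNorm_nnreal w)).2 hy
    obtain ⟨a, ha⟩ := w.exists_valuation_sub_lt_of_integer (hle z hz1) 1
    have ha' := hlt _ ha
    refine ⟨_, Finset.mem_image_of_mem _ (Finset.mem_univ (Ideal.Quotient.mk w.asIdeal a)), ?_⟩
    have hm : a - (Ideal.Quotient.mk w.asIdeal a).out ∈ w.asIdeal := by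
      rw [← Ideal.Quotient.eq]
      exact (Ideal.Quotient.mk_out _).symm
    have hb := (FinitePlace.norm_lt_one_iff_mem K w _).2 hm
    have e : u - FinitePlace.embedding w (algebraMap (𝓞 K) K (Ideal.Quotient.mk w.asIdeal a).out) =
        (u - FinitePlace.embedding w z) + (-FinitePlace.embedding w (algebraMap (𝓞 K) K a - z) +
          FinitePlace.embedding w
            (algebraMap (𝓞 K) K (a - (Ideal.Quotient.mk w.asIdeal a).out))) := by
      simp only [map_sub]
      ring
    rw [e]
    refine (IsUltrametricDist.norm_add_le_max _ _).trans_lt (max_lt hz ?_)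
    refine (IsUltrametricDist.norm_add_le_max _ _).trans_lt (max_lt ?_ hb)
    rwa [norm_neg]

end Pool.Agent.Lib.MP_07b2d0_nt.Ks
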