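import Mathlib

set_option autoImplicit false
set_option linter.unusedSectionVars false
set_option linter.unusedVariables false

namespace Pool.Agent.Lib.MP_07b2d0_nt.Ks

open Polynomial Finset

variable {L Ω : Type} [Field L] [CharZero L] [Field Ω] [Algebra L Ω] [IsAlgClosure L Ω]
  {ν : AbsoluteValue Ω ℝ}

/-- The ring of elements of absolute value at most one. -/
def kg2O {Ω : Type} [Field Ω] {ν : AbsoluteValue Ω ℝ} (hna : IsNonarchimedean ν) : Subring Ω where
  carrier := {x | ν x ≤ 1}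
  mul_mem' := fun {a b} ha hb => by
    simp only [Set.mem_ofPred_eq, map_mul] at *
    exact mul_le_one₀ ha (ν.nonneg _) hb
  one_mem' := by simp
  add_mem' := fun {a b} ha hb => (hna a b).trans (max_le ha hb)
  zero_mem' := by simp
  neg_mem' := fun {a} ha => by simpa using ha

theorem kg2_mem (hna : IsNonarchimedean ν) {x : Ω} : x ∈ kg2O hna ↔ ν x ≤ 1 := Iff.rfl

theorem kg2_add_lt (hna : IsNonarchimedean ν) {a b : Ω} (ha : ν a < 1) (hb : ν b < 1) :
    ν (a + b) < 1 := (hna a b).trans_lt (max_lt ha hb)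

theorem kg2_sub_lt (hna : IsNonarchimedean ν) {a b : Ω} (ha : ν a < 1) (hb : ν b < 1) :
    ν (a - b) < 1 := by
  rw [sub_eq_add_neg]
  exact kg2_add_lt hna ha (by rwa [ν.map_neg])

theorem kg2_mul_lt {a b : Ω} (ha : ν a < 1) (hb : ν b ≤ 1) : ν (a * b) < 1 := by
  rw [map_mul]
  exact mul_lt_one_of_nonneg_of_lt_one_left (ν.nonneg _) ha hb

theorem kg2_sum_lt (hna : IsNonarchimedean ν) {ι : Type} (s : Finset ι) {f : ι → Ω}
    (h : ∀ i ∈ s, ν (f i) < 1) : ν (∑ i ∈ s, f i) < 1 :=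
  Finset.sum_induction f (fun x => ν x < 1) (fun _ _ => kg2_add_lt hna) (by simp) h

/-- The coefficients of the minimal polynomial are symmetric functions of the conjugates of `z`,
which all have the absolute value of `z` (`minpoly.exists_algEquiv_of_root`, `Normal`); for
instance induct on the multiset of roots: a product of `X - C r` with `ν r ≤ 1` has all
coefficients in the subring `{ν ≤ 1}`. -/
theorem minpoly_coeff_le (hna : IsNonarchimedean ν)
    (hσ : ∀ (σ : Ω ≃ₐ[L] Ω) (z : Ω), ν (σ z) = ν z) {z : Ω} (hz : ν z ≤ 1) (i : ℕ) :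
    ν (algebraMap L Ω ((minpoly L z).coeff i)) ≤ 1 := by
  have : IsAlgClosed Ω := IsAlgClosure.isAlgClosed L
  have hal : IsAlgebraic L z := Algebra.IsAlgebraic.isAlgebraic z
  have hm : ((minpoly L z).map (algebraMap L Ω)).Monic := (minpoly.monic hal.isIntegral).map _
  have hl : (minpoly L z).map (algebraMap L Ω) ∈ lifts (kg2O hna).subtype := by
    refine (IsAlgClosed.splits _).mem_lift_of_roots_mem_range hm _ fun r hr => ?_
    have h1 : aeval r (minpoly L z) = 0 := by
      rw [mem_roots hm.ne_zero, IsRoot.def, eval_map_algebraMap] at hr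
      exact hr
    obtain ⟨σ, rfl⟩ := minpoly.exists_algEquiv_of_root' hal h1
    exact ⟨⟨σ z, (kg2_mem hna).2 (by rwa [hσ])⟩, rfl⟩
  obtain ⟨c, hc⟩ := (lifts_iff_coeff_lifts _).1 hl i
  rw [coeff_map] at hc
  rw [← hc]
  exact c.2

/-- Every power `z ^ n` is `∑ i < d, c i * z ^ i` with `ν (c i) ≤ 1` (induction with the minimal
polynomial, or `X ^ n %ₘ P` over the subring), hence congruent to one of the finitely many sums
with coefficients in `S`; pigeonhole gives `ν (z ^ a - z ^ b) < 1` with `a < b`. -/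
theorem exists_pow_sub_one_lt (hna : IsNonarchimedean ν)
    (hσ : ∀ (σ : Ω ≃ₐ[L] Ω) (z : Ω), ν (σ z) = ν z) (S : Finset L)
    (hS : ∀ u : L, ν (algebraMap L Ω u) ≤ 1 → ∃ r ∈ S, ν (algebraMap L Ω (u - r)) < 1) {z : Ω}
    (hz : ν z = 1) : ∃ m : ℕ, 0 < m ∧ ν (z ^ m - 1) < 1 := by
  classical
  have hal : IsIntegral L z := (Algebra.IsAlgebraic.isAlgebraic z).isIntegral
  let O : Subring L := (kg2O hna).comap (algebraMap L Ω)
  have hl : minpoly L z ∈ lifts O.subtype := by
    rw [lifts_iff_coeff_lifts]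
    intro i
    exact ⟨⟨_, minpoly_coeff_le hna hσ hz.le i⟩, rfl⟩
  obtain ⟨P, hP, -, hPm⟩ := lifts_and_degree_eq_and_monic hl (minpoly.monic hal)
  set d := (minpoly L z).natDegree with hd
  have key : ∀ n : ℕ, ∃ c : Fin d → S, ν (z ^ n - ∑ i : Fin d,
      algebraMap L Ω (c i : L) * z ^ (i : ℕ)) < 1 := by
    intro n
    have h1 : (X ^ n %ₘ P).map O.subtype = X ^ n %ₘ minpoly L z := by
      rw [map_modByMonic _ hPm, hP, Polynomial.map_pow, map_X]
    have h2 : ∀ i, ν (algebraMap L Ω ((X ^ n %ₘ minpoly L z).coeff i)) ≤ 1 := by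
      intro i
      rw [← h1, coeff_map]
      exact ((X ^ n %ₘ P).coeff i).2
    choose r hr hr' using fun i => hS _ (h2 i)
    refine ⟨fun i => ⟨r i, hr i⟩, ?_⟩
    have h3 : (X ^ n %ₘ minpoly L z).natDegree < d :=
      natDegree_modByMonic_lt _ (minpoly.monic hal) (minpoly.ne_one L z)
    have h4 : z ^ n = ∑ i : Fin d, algebraMap L Ω ((X ^ n %ₘ minpoly L z).coeff i) * z ^ (i : ℕ) := by
      have h5 := aeval_modByMonic_eq_self_of_root (p := X ^ n) (minpoly.aeval L z)
      rw [aeval_eq_sum_range' h3, map_pow, aeval_X, Finset.sum_range] at h5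
      rw [← h5]
      exact Finset.sum_congr rfl fun i _ => Algebra.smul_def _ _
    rw [h4, ← Finset.sum_sub_distrib]
    refine kg2_sum_lt hna _ fun i _ => ?_
    rw [← sub_mul, ← map_sub]
    exact kg2_mul_lt (hr' i) (by rw [map_pow, hz, one_pow])
  choose c hc using key
  obtain ⟨a, b, hab, e⟩ := Finite.exists_ne_map_eq_of_infinite c
  wlog hlt : a < b generalizing a b
  · exact this b a hab.symm e.symm (lt_of_le_of_ne (not_lt.1 hlt) hab.symm)
  refine ⟨b - a, Nat.sub_pos_of_lt hlt, ?_⟩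
  have h1 := kg2_sub_lt hna (hc b) (hc a)
  rw [e, sub_sub_sub_cancel_right] at h1
  have h2 : z ^ b - z ^ a = z ^ a * (z ^ (b - a) - 1) := by
    rw [mul_sub, ← pow_add, Nat.add_sub_cancel' hlt.le, mul_one]
  rwa [h2, map_mul, map_pow, hz, one_pow, one_mul] at h1

/-- Remove the bad primes from `m`: if a prime `p ∣ m` has `ν p < 1` then
`(u - 1) ^ p ≡ u ^ p - 1` for `u = z ^ (m / p)` (binomial theorem, `add_pow_prime_eq` or
`exists_add_pow_prime_eq`), so induct on `m`.  If all primes dividing `m` have `ν p = 1` then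
`ν m = 1`; finally `z ^ m - 1 = ∏ (z - ω)`. -/
theorem exists_root_of_unity [IsAlgClosed Ω] (hna : IsNonarchimedean ν) {z : Ω} (hz : ν z = 1) {m : ℕ}
    (hm : 0 < m) (h : ν (z ^ m - 1) < 1) :
    ∃ (n : ℕ) (ω : Ω), ν (n : Ω) = 1 ∧ ω ^ n = 1 ∧ ν (z - ω) < 1 := by
  induction m using Nat.strong_induction_on with
  | _ m ih =>
  by_cases hp : ∃ p : ℕ, p.Prime ∧ p ∣ m ∧ ν (p : Ω) < 1
  · obtain ⟨p, hp, ⟨q, rfl⟩, hν⟩ := hp
    have hq : 0 < q := Nat.pos_of_mul_pos_left hm
    refine ih q (by nlinarith [hp.two_le]) hq ?_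
    have hu : z ^ q ∈ kg2O hna := by rw [kg2_mem, map_pow, hz, one_pow]
    obtain ⟨r, hr⟩ := exists_add_pow_prime_eq hp (⟨z ^ q, hu⟩ - 1 : kg2O hna) 1
    have h1 := congrArg (kg2O hna).subtype hr
    simp only [sub_add_cancel, map_pow, map_add, map_sub, map_mul, map_one, map_natCast,
      Subring.subtype_apply, one_pow] at h1
    have h2 : (z ^ q - 1) ^ p = (z ^ (p * q) - 1) - p * ((z ^ q - 1) * (r : Ω)) := by
      rw [mul_comm p q, pow_mul, h1]; ring
    have h3 : ν ((z ^ q - 1) ^ p) < 1 := by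
      rw [h2]
      exact kg2_sub_lt hna h (kg2_mul_lt hν
        ((kg2O hna).mul_mem ((kg2O hna).sub_mem hu (kg2O hna).one_mem) r.2))
    rw [map_pow] at h3
    by_contra h4
    exact absurd h3 (not_lt.2 (one_le_pow₀ (not_lt.1 h4)))
  · have hν : ν (m : Ω) = 1 := by
      have h1 : ∀ p ∈ m.primeFactorsList, ν (p : Ω) = 1 := fun p hp' =>
        le_antisymm (natCast_mem (kg2O hna) p) (not_lt.1 fun h2 =>
          hp ⟨p, Nat.prime_of_mem_primeFactorsList hp', Nat.dvd_of_mem_primeFactorsList hp', h2⟩)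
      rw [← Nat.prod_primeFactorsList hm.ne', Nat.cast_list_prod, map_list_prod, List.map_map]
      refine List.prod_eq_one fun x hx => ?_
      obtain ⟨p, hp', rfl⟩ := List.mem_map.1 hx
      exact h1 p hp'
    have hmon : (X ^ m - C 1 : Polynomial Ω).Monic := monic_X_pow_sub_C 1 hm.ne'
    have h1 := (IsAlgClosed.splits (X ^ m - C 1 : Polynomial Ω)).eval_eq_prod_roots_of_monic hmon z
    simp only [eval_sub, eval_pow, eval_X, eval_C] at h1
    by_contra hne
    rw [h1, map_multiset_prod, Multiset.map_map] at h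
    refine absurd h (not_lt.2 (Multiset.prod_induction (fun x : ℝ => 1 ≤ x) _
      (fun a b ha hb => one_le_mul_of_one_le_of_one_le ha hb) le_rfl ?_))
    intro x hx
    obtain ⟨ω, hω, rfl⟩ := Multiset.mem_map.1 hx
    refine not_lt.1 fun h2 => hne ⟨m, ω, hν, ?_, h2⟩
    rw [mem_roots hmon.ne_zero, IsRoot.def] at hω
    simp only [eval_sub, eval_pow, eval_X, eval_C] at hω
    exact sub_eq_zero.1 hω

end Pool.Agent.Lib.MP_07b2d0_nt.Ks
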