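import Mathlib

set_option autoImplicit false
set_option linter.unusedSectionVars false
set_option linter.unusedVariables false

namespace Pool.Agent.Lib.MP_07b2d0_nt.Ks

open Polynomial Finset

variable {L Ω : Type} [Field L] [CharZero L] [Field Ω] [Algebra L Ω] [IsAlgClosure L Ω]
  {ν : AbsoluteValue Ω ℝ}

theorem kg3_add (hna : IsNonarchimedean ν) {a b : Ω} {c : ℝ} (ha : ν a < c) (hb : ν b < c) :
    ν (a + b) < c :=
  (hna a b).trans_lt (max_lt ha hb)

theorem kg3_sub (hna : IsNonarchimedean ν) {a b : Ω} {c : ℝ} (ha : ν a < c) (hb : ν b < c) :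
    ν (a - b) < c := by
  rw [sub_eq_add_neg]
  exact kg3_add hna ha (by rwa [AbsoluteValue.map_neg])

theorem kg3_ne {n : ℕ} (hn : ν (n : Ω) = 1) : n ≠ 0 := by
  rintro rfl
  simp at hn

theorem kg3_one {n : ℕ} (hn : n ≠ 0) {ω : Ω} (h : ω ^ n = 1) : ν ω = 1 := by
  have h1 : ν ω ^ n = 1 := by rw [← map_pow, h, map_one]
  exact (pow_eq_one_iff_of_nonneg (ν.nonneg ω) hn).1 h1

theorem kg3_small (hna : IsNonarchimedean ν) {c : ℝ} (hc : 0 < c) (s : Finset Ω) :
    ∀ Q : Polynomial Ω, Q.degree < s.card → (∀ a ∈ s, ν a ≤ 1) →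
      (∀ a ∈ s, ∀ b ∈ s, ν (a - b) < 1 → a = b) → (∀ a ∈ s, ν (Q.eval a) < c) →
      ∀ i, ν (Q.coeff i) < c := by
  classical
  induction s using Finset.induction_on with
  | empty =>
    intro Q hQ _ _ _ i
    have h0 : Q = 0 := by
      by_contra h0
      rw [degree_eq_natDegree h0] at hQ
      simp at hQ
    rw [h0, coeff_zero, map_zero]
    exact hc
  | insert a s ha ih =>
    intro Q hQ h1 h2 h3 i
    by_cases h0 : Q = 0
    · rw [h0, coeff_zero, map_zero]
      exact hc
    have e : Q = C (Q.eval a) + (X - C a) * (Q /ₘ (X - C a)) := by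
      rw [← modByMonic_X_sub_C_eq_C_eval, modByMonic_add_div]
    have hd : (Q /ₘ (X - C a)).degree < s.card := by
      refine (degree_divByMonic_lt Q (X - C a) h0
        (by rw [degree_X_sub_C]; exact zero_lt_one)).trans_le ?_
      rw [degree_eq_natDegree h0] at hQ ⊢
      rw [Finset.card_insert_of_notMem ha, Nat.cast_lt] at hQ
      exact Nat.cast_le.2 (Nat.lt_succ_iff.1 hQ)
    have ha3 := h3 a (mem_insert_self a s)
    have h4 := ih _ hd (fun b hb => h1 b (mem_insert_of_mem hb))
      (fun b hb b' hb' => h2 b (mem_insert_of_mem hb) b' (mem_insert_of_mem hb')) (fun b hb => by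
        have h5 : (b - a) * (Q /ₘ (X - C a)).eval b = Q.eval b - Q.eval a := by
          have h6 := congrArg (eval b) e
          rw [eval_add, eval_C, eval_mul, eval_sub, eval_X, eval_C] at h6
          linear_combination -h6
        have h6 : 1 ≤ ν (b - a) := by
          by_contra h7
          exact ha (h2 b (mem_insert_of_mem hb) a (mem_insert_self a s) (not_le.1 h7) ▸ hb)
        have h7 := kg3_sub hna (h3 b (mem_insert_of_mem hb)) ha3
        rw [← h5, map_mul] at h7
        exact (le_mul_of_one_le_left (ν.nonneg _) h6).trans_lt h7)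
    rw [e, coeff_add, sub_mul, coeff_sub, coeff_C_mul]
    refine kg3_add hna ?_ (kg3_sub hna ?_ ?_)
    · rw [coeff_C]
      split_ifs
      · exact ha3
      · rwa [map_zero]
    · cases i with
      | zero => rwa [coeff_X_mul_zero, map_zero]
      | succ i => rw [coeff_X_mul]; exact h4 i
    · rw [map_mul]
      exact (mul_le_of_le_one_left (ν.nonneg _) (h1 a (mem_insert_self a s))).trans_lt (h4 i)

/-- Distinct `n`-th roots of unity are incongruent when `ν n = 1`: for `u ^ n = 1`, `u ≠ 1` one has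
`∑ i ∈ range n, u ^ i = 0`, which is congruent to `n` if `ν (u - 1) < 1`. -/
theorem root_eq_of_lt (hna : IsNonarchimedean ν) {n : ℕ} (hn : ν (n : Ω) = 1) {ω ω' : Ω}
    (h1 : ω ^ n = 1) (h2 : ω' ^ n = 1) (h : ν (ω - ω') < 1) : ω = ω' := by
  have hn0 := kg3_ne hn
  by_contra hne
  have h3 := (Commute.all ω ω').geom_sum₂_mul n
  rw [h1, h2, sub_self] at h3
  have h4 := (mul_eq_zero.1 h3).resolve_right (sub_ne_zero.2 hne)
  have h5 : ∀ i : ℕ, ν (ω ^ i - ω' ^ i) < 1 := by
    intro i
    induction i with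
    | zero => simp
    | succ i ih =>
      have e : ω ^ (i + 1) - ω' ^ (i + 1) = ω * (ω ^ i - ω' ^ i) + ω' ^ i * (ω - ω') := by ring
      rw [e]
      refine kg3_add hna ?_ ?_
      · rwa [map_mul, kg3_one hn0 h1, one_mul]
      · rwa [map_mul, map_pow, kg3_one hn0 h2, one_pow, one_mul]
  have h6 : ∑ i ∈ range n, (ω ^ i - ω' ^ i) * ω' ^ (n - 1 - i) = -(n * ω' ^ (n - 1)) := by
    simp only [sub_mul, Finset.sum_sub_distrib]
    rw [h4, zero_sub, Finset.sum_congr rfl (g := fun _ => ω' ^ (n - 1)), sum_const, card_range,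
      nsmul_eq_mul]
    intro i hi
    rw [← pow_add, Nat.add_sub_cancel' (Nat.le_sub_one_of_lt (mem_range.1 hi))]
  obtain ⟨b, -, hb⟩ := hna.finset_image_add_of_nonempty
    (fun i => (ω ^ i - ω' ^ i) * ω' ^ (n - 1 - i)) (nonempty_range_iff.2 hn0)
  rw [h6, AbsoluteValue.map_neg, map_mul, map_mul, map_pow, map_pow, kg3_one hn0 h2, one_pow,
    one_pow, hn, mul_one, mul_one] at hb
  exact absurd (h5 b) (not_lt.2 hb)

/-- `L(ω)` is unramified.  Write `z = P(ω)` with `degree P < d = natDegree (minpoly L ω)`, `P ≠ 0`,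
and divide by a coefficient `u` of largest absolute value, so all coefficients have `ν ≤ 1` and
one is `1`.  If `ν (P ω) < 1` then `ν (P ω') < 1` for each of the `d` distinct conjugates `ω'`
(`hσ`), which are pairwise incongruent (`root_eq_of_lt`).  By Lagrange interpolation
(`Lagrange.eq_interpolate`-like) or by repeated division by `X - C ω'`, all coefficients of `P`
have `ν < 1`, a contradiction. -/
theorem exists_abs_eq_simple (hna : IsNonarchimedean ν)
    (hσ : ∀ (σ : Ω ≃ₐ[L] Ω) (z : Ω), ν (σ z) = ν z) {n : ℕ} (hn : ν (n : Ω) = 1) {ω : Ω}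
    (hω : ω ^ n = 1) {z : Ω} (hz : z ∈ IntermediateField.adjoin L {ω}) :
    ∃ u : L, ν z = ν (algebraMap L Ω u) := by
  classical
  have hn0 := kg3_ne hn
  have halg : IsAlgebraic L ω := Algebra.IsAlgebraic.isAlgebraic ω
  have hint := halg.isIntegral
  have hz' : z ∈ Algebra.adjoin L {ω} := by
    rw [← IntermediateField.adjoin_simple_toSubalgebra_of_isAlgebraic halg]
    exact hz
  rw [Algebra.adjoin_singleton_eq_range_aeval] at hz'
  obtain ⟨P₀, hP₀⟩ := hz'
  set P := P₀ %ₘ minpoly L ω with hP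
  have hPz : aeval ω P = z := (minpoly.aeval_modByMonic_minpoly P₀ ω).trans hP₀
  have hdeg : P.degree < (minpoly L ω).degree := degree_modByMonic_lt P₀ (minpoly.monic hint)
  by_cases h0 : P = 0
  · exact ⟨0, by rw [← hPz, h0, map_zero, map_zero (algebraMap L Ω)]⟩
  obtain ⟨i, hi, hmax⟩ := Finset.exists_max_image P.support
    (fun i => ν (algebraMap L Ω (P.coeff i))) (support_nonempty.2 h0)
  refine ⟨P.coeff i, le_antisymm ?_ ?_⟩
  · rw [← hPz, aeval_def, eval₂_eq_sum, Polynomial.sum]
    obtain ⟨b, hb, hb'⟩ := hna.finset_image_add_of_nonempty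
      (fun e => algebraMap L Ω (P.coeff e) * ω ^ e) (support_nonempty.2 h0)
    rw [map_mul, map_pow, kg3_one hn0 hω, one_pow, mul_one] at hb'
    exact hb'.trans (hmax b hb)
  · by_contra hlt
    push Not at hlt
    have : IsAlgClosed Ω := IsAlgClosure.isAlgClosed L
    have hcard : ((minpoly L ω).rootSet Ω).toFinset.card = (minpoly L ω).natDegree := by
      rw [Set.toFinset_card]
      exact card_rootSet_eq_natDegree (minpoly.irreducible hint).separable (IsAlgClosed.splits _)
    have hconj : ∀ a ∈ ((minpoly L ω).rootSet Ω).toFinset, ∃ σ : Ω ≃ₐ[L] Ω, σ ω = a := by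
      intro a ha
      exact minpoly.exists_algEquiv_of_root' halg
        (aeval_eq_zero_of_mem_rootSet (Set.mem_toFinset.1 ha))
    have hroot : ∀ a ∈ ((minpoly L ω).rootSet Ω).toFinset, a ^ n = 1 := by
      intro a ha
      obtain ⟨σ, rfl⟩ := hconj a ha
      rw [← map_pow, hω, map_one]
    have h1 := kg3_small hna ((ν.nonneg z).trans_lt hlt) ((minpoly L ω).rootSet Ω).toFinset
      (P.map (algebraMap L Ω))
      (by rw [degree_map, hcard, ← degree_eq_natDegree (minpoly.ne_zero hint)]; exact hdeg)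
      (fun a ha => (kg3_one hn0 (hroot a ha)).le)
      (fun a ha b hb h => root_eq_of_lt hna hn (hroot a ha) (hroot b hb) h)
      (fun a ha => by
        obtain ⟨σ, rfl⟩ := hconj a ha
        rw [eval_map_algebraMap, aeval_algHom_apply, hσ, hPz]
        exact hlt) i
    rw [coeff_map] at h1
    exact lt_irrefl _ h1

/-- `z` lies in the field generated by finitely many such roots of unity
(`IntermediateField.exists_finset_of_mem_adjoin`), all powers of one primitive root of unity whose
order is the product of the exponents. -/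
theorem exists_abs_eq (hna : IsNonarchimedean ν)
    (hσ : ∀ (σ : Ω ≃ₐ[L] Ω) (z : Ω), ν (σ z) = ν z) {z : Ω}
    (hz : z ∈ IntermediateField.adjoin L {ω : Ω | ∃ n : ℕ, ν (n : Ω) = 1 ∧ ω ^ n = 1}) :
    ∃ u : L, ν z = ν (algebraMap L Ω u) := by
  obtain ⟨T, hT, hzT⟩ := IntermediateField.exists_finset_of_mem_adjoin hz
  choose! m hm using fun ω (hω : ω ∈ T) => hT (Finset.mem_coe.2 hω)
  have hN : ν ((∏ ω ∈ T, m ω : ℕ) : Ω) = 1 := by
    rw [Nat.cast_prod, map_prod]
    exact Finset.prod_eq_one fun ω hω => (hm ω hω).1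
  have : NeZero (∏ ω ∈ T, m ω) := ⟨kg3_ne hN⟩
  have : IsAlgClosed Ω := IsAlgClosure.isAlgClosed L
  have : CharZero Ω := charZero_of_injective_algebraMap (algebraMap L Ω).injective
  obtain ⟨ζ, hζ⟩ := HasEnoughRootsOfUnity.exists_primitiveRoot Ω (∏ ω ∈ T, m ω)
  refine exists_abs_eq_simple hna hσ hN hζ.pow_eq_one (IntermediateField.adjoin_le_iff.2 ?_ hzT)
  intro ω hω
  obtain ⟨c, hc⟩ := Finset.dvd_prod_of_mem m (Finset.mem_coe.1 hω)
  obtain ⟨i, -, hi⟩ := hζ.eq_pow_of_pow_eq_one (ξ := ω)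
    (by rw [hc, pow_mul, (hm ω hω).2, one_pow])
  rw [← hi]
  exact pow_mem (IntermediateField.mem_adjoin_simple_self L ζ) i

end Pool.Agent.Lib.MP_07b2d0_nt.Ks
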