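import Mathlib
import Pool.Agent.Lib.MP_07b2d0_nt.KG1
import Pool.Agent.Lib.MP_07b2d0_nt.KG2
import Pool.Agent.Lib.MP_07b2d0_nt.KG3

set_option autoImplicit false
set_option linter.unusedSectionVars false
set_option linter.unusedVariables false

namespace Pool.Agent.Lib.MP_07b2d0_nt.Ks

open NumberField

/-- An extension of the place `v` and a large enough subgroup of its inertia group.  Sketch: `L`
from `exists_completion`, `Ω = AlgebraicClosure L`, `ν₀` from `exists_spec_abs`,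
`ι = IsAlgClosed.lift : AlgebraicClosure K →ₐ[K] Ω`, `ν = ν₀.comp ι`.  Let
`U = adjoin L {ω | ∃ n, ν₀ n = 1 ∧ ω ^ n = 1}` and
`Γ = {σ | ∃ τ ∈ U.fixingSubgroup, ∀ z, ι (σ z) = τ (ι z)}`.  Every `τ` has such a `σ`
(`AlgHom.restrictNormal'` / `AlgEquiv.restrictNormal` with the algebra structure given by `ι`).
Residues: `exists_pow_sub_one_lt`, `exists_root_of_unity`.  Fixed elements:
`InfiniteGalois.fixedField_fixingSubgroup` and `exists_abs_eq`. -/
theorem exists_loc (K : Type) [Field K] [NumberField K] (v : FinitePlace K) :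
    ∃ (ν : AbsoluteValue (AlgebraicClosure K) ℝ)
      (Γ : Subgroup (AlgebraicClosure K ≃ₐ[K] AlgebraicClosure K)), IsNonarchimedean ν ∧
      (∀ u : K, ν (algebraMap K _ u) = v u) ∧ (∀ σ ∈ Γ, ∀ z, ν (σ z) = ν z) ∧
      (∀ σ ∈ Γ, ∀ z, ν z ≤ 1 → ν (σ z - z) < 1) ∧
      ∀ z, (∀ σ ∈ Γ, σ z = z) → ∃ u : K, ν z = v u := by
  obtain ⟨L, _, _, _, _, hL1, hL2, S, hS⟩ := exists_completion K v
  obtain ⟨ν₀, hna, hν, hσ⟩ := exists_spec_abs L
  have : CharZero L := charZero_of_injective_algebraMap (algebraMap K L).injective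
  let Ω := AlgebraicClosure L
  let ι : AlgebraicClosure K →ₐ[K] Ω := IsAlgClosed.lift
  let U : IntermediateField L Ω :=
    IntermediateField.adjoin L {ω : Ω | ∃ n : ℕ, ν₀ (n : Ω) = 1 ∧ ω ^ n = 1}
  let Γ : Subgroup (AlgebraicClosure K ≃ₐ[K] AlgebraicClosure K) :=
    { carrier := {σ | ∃ τ ∈ U.fixingSubgroup, ∀ z, ι (σ z) = τ (ι z)}
      mul_mem' := by
        rintro a b ⟨τ, hτ, h⟩ ⟨τ', hτ', h'⟩
        exact ⟨τ * τ', mul_mem hτ hτ', fun z => by
          rw [AlgEquiv.mul_apply, AlgEquiv.mul_apply, h, h']⟩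
      one_mem' := ⟨1, one_mem _, fun z => rfl⟩
      inv_mem' := by
        rintro a ⟨τ, hτ, h⟩
        refine ⟨τ⁻¹, inv_mem hτ, fun z => ?_⟩
        apply τ.injective
        rw [← h, ← AlgEquiv.mul_apply, ← AlgEquiv.mul_apply, mul_inv_cancel, mul_inv_cancel]
        rfl }
  have hS' : ∀ u : L, ν₀ (algebraMap L Ω u) ≤ 1 → ∃ r ∈ S, ν₀ (algebraMap L Ω (u - r)) < 1 := by
    intro u hu
    rw [hν] at hu
    obtain ⟨r, hr, h⟩ := hS u hu
    exact ⟨r, hr, by rwa [hν]⟩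
  refine ⟨ν₀.comp (f := ι.toRingHom) ι.toRingHom.injective, Γ, fun a b => ?_, fun u => ?_,
    fun σ hs z => ?_, fun σ hs z hz => ?_, fun z hz => ?_⟩
  · change ν₀ (ι (a + b)) ≤ max (ν₀ (ι a)) (ν₀ (ι b))
    rw [map_add]
    exact hna _ _
  · change ν₀ (ι (algebraMap K _ u)) = v u
    rw [AlgHom.commutes, IsScalarTower.algebraMap_apply K L Ω, hν, hL1]
  · obtain ⟨τ, -, h⟩ := hs
    change ν₀ (ι (σ z)) = ν₀ (ι z)
    rw [h, hσ]
  · obtain ⟨τ, hτ, h⟩ := hs
    change ν₀ (ι z) ≤ 1 at hz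
    change ν₀ (ι (σ z - z)) < 1
    rw [map_sub, h]
    have hsub : ∀ a b : Ω, ν₀ a < 1 → ν₀ b < 1 → ν₀ (a - b) < 1 := fun a b ha hb => by
      rw [sub_eq_add_neg]
      exact (hna _ _).trans_lt (max_lt ha (by rwa [ν₀.map_neg]))
    rcases hz.lt_or_eq with h1 | h1
    · exact hsub _ _ (by rwa [hσ]) h1
    · obtain ⟨m, hm, h2⟩ := exists_pow_sub_one_lt hna hσ S hS' h1
      obtain ⟨n, ω, hn, hω, h3⟩ := exists_root_of_unity hna h1 hm h2
      have h4 : τ ω = ω := (IntermediateField.mem_fixingSubgroup_iff U τ).1 hτ ω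
        (IntermediateField.subset_adjoin L _ ⟨n, hn, hω⟩)
      have e : τ (ι z) - ι z = τ (ι z - ω) - (ι z - ω) := by
        rw [map_sub, h4]
        ring
      rw [e]
      exact hsub _ _ (by rwa [hσ]) h3
  · have hU : ι z ∈ U := by
      rw [← InfiniteGalois.fixedField_fixingSubgroup U]
      rintro ⟨τ, hτ⟩
      let _ : Algebra (AlgebraicClosure K) Ω := ι.toRingHom.toAlgebra
      have : IsScalarTower K (AlgebraicClosure K) Ω :=
        .of_algebraMap_eq fun a => (ι.commutes a).symm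
      have h : ∀ w, ι ((τ.restrictScalars K).restrictNormal (AlgebraicClosure K) w) = τ (ι w) :=
        fun w => AlgEquiv.restrictNormal_commutes (τ.restrictScalars K) (AlgebraicClosure K) w
      have h1 := hz _ ⟨τ, hτ, h⟩
      change τ (ι z) = ι z
      rw [← h, h1]
    obtain ⟨u, hu⟩ := exists_abs_eq hna hσ hU
    obtain ⟨w, hw⟩ := hL2 u
    refine ⟨w, ?_⟩
    change ν₀ (ι z) = v w
    rw [hu, hν, hw]

end Pool.Agent.Lib.MP_07b2d0_nt.Ks
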