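import Mathlib

set_option autoImplicit false
set_option linter.unusedSectionVars false
set_option linter.unusedVariables false

namespace Pool.Agent.Lib.MP_07b2d0_nt.Ks

open scoped Pointwise

/-- The valuation ring `A = {ν ≤ 1}`.  An isometry stabilises `A` (`MulAction.mem_stabilizer_iff`,
`ValuationSubring.mem_pointwise_smul_iff_inv_smul_mem`), the maximal ideal of `A` is `{ν < 1}`, and
the action on the residue field is described by `IsLocalRing.ResidueField.residue_smul`; unfold
`ValuationSubring.inertiaSubgroup` with `MonoidHom.mem_ker`. -/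
theorem exists_valuationSubring {K Ω : Type} [Field K] [Field Ω] [Algebra K Ω]
    {ν : AbsoluteValue Ω ℝ} (hna : IsNonarchimedean ν) : ∃ A : ValuationSubring Ω,
      (∀ z, z ∈ A ↔ ν z ≤ 1) ∧ ∀ σ : Ω ≃ₐ[K] Ω, (∀ z, ν (σ z) = ν z) →
        (∀ z, ν z ≤ 1 → ν (σ z - z) < 1) →
        ∃ τ : A.decompositionSubgroup K, τ ∈ A.inertiaSubgroup K ∧ (τ : Ω ≃ₐ[K] Ω) = σ := by
  let A : ValuationSubring Ω :=
    { carrier := {z | ν z ≤ 1}
      mul_mem' := fun {a b} ha hb => by
        change ν (a * b) ≤ 1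
        rw [map_mul]
        exact mul_le_one₀ ha (ν.nonneg _) hb
      one_mem' := by
        change ν 1 ≤ 1
        rw [map_one]
      add_mem' := fun {a b} ha hb => (hna a b).trans (max_le ha hb)
      zero_mem' := by
        change ν 0 ≤ 1
        rw [map_zero]
        exact zero_le_one
      neg_mem' := fun {a} ha => by
        change ν (-a) ≤ 1
        rw [ν.map_neg]
        exact ha
      mem_or_inv_mem' := fun a => by
        change ν a ≤ 1 ∨ ν a⁻¹ ≤ 1
        rw [map_inv₀]
        rcases le_total (ν a) 1 with h | h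
        · exact Or.inl h
        · exact Or.inr (inv_le_one_of_one_le₀ h) }
  have hA : ∀ z, z ∈ A ↔ ν z ≤ 1 := fun z => Iff.rfl
  refine ⟨A, hA, fun σ h1 h2 => ?_⟩
  have hσ : σ ∈ A.decompositionSubgroup K := by
    refine MulAction.mem_stabilizer_iff.2 (ValuationSubring.ext _ _ fun z => ?_)
    rw [ValuationSubring.mem_pointwise_smul_iff_inv_smul_mem, hA, hA, ← h1]
    simp
  refine ⟨⟨σ, hσ⟩, ?_, rfl⟩
  rw [ValuationSubring.inertiaSubgroup, MonoidHom.mem_ker]
  ext x
  obtain ⟨x, rfl⟩ := IsLocalRing.residue_surjective x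
  change (⟨σ, hσ⟩ : A.decompositionSubgroup K) • IsLocalRing.residue A x = IsLocalRing.residue A x
  rw [← IsLocalRing.ResidueField.residue_smul, ← sub_eq_zero, ← map_sub,
    IsLocalRing.residue_eq_zero_iff, IsLocalRing.mem_maximalIdeal, mem_nonunits_iff]
  intro hu
  obtain ⟨y, hy⟩ := hu.exists_right_inv
  have h3 : (σ x - x) * (y : Ω) = 1 := congrArg Subtype.val hy
  have h4 := congrArg ν h3
  rw [map_mul, map_one] at h4
  have h5 := mul_lt_one_of_nonneg_of_lt_one_left (ν.nonneg _) (h2 x x.2) ((hA _).1 y.2)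
  exact h5.ne h4

end Pool.Agent.Lib.MP_07b2d0_nt.Ks
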