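import Mathlib
import Pool.Agent.Lib.MP_07b2d0_nt.KF4
import Pool.Agent.Lib.MP_07b2d0_nt.KG4
import Pool.Agent.Lib.MP_07b2d0_nt.KG5
import Pool.Agent.Lib.MP_07b2d0_nt.KH0

set_option autoImplicit false
set_option linter.unusedSectionVars false
set_option linter.unusedVariables false

namespace Pool.Agent.Lib.MP_07b2d0_nt.Ks

open NumberField

/-- From the global hypothesis to the local conditions.  Given `v`, take `ν, Γ` from `exists_loc`
and `A` from `exists_valuationSubring`; `α = Γ →* (Kbar ≃+* Kbar)` is the inclusion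
(`MulSemiringAction.toRingAut` or a direct definition), `β = act.comp Γ.subtype`,
`lam = log (qv v)` (`log_fp`, `log_qv_pos`).  `Tors` holds with `N = m`.  `NA.nt`: an element of
`K` with `1 < v z` (inverse of `qv v`, `fp_qv_lt_one`).  Roots of unity of order `ℓ` are fixed by
`root_eq_of_lt`.  For the second part: `γ ^ ℓ = cr` and `ν γ = v u` give
`ord v cr = ℓ * ord v u` (`map_cr`, `log_fp`). -/
theorem local_K {K F ι : Type} [Field K] [NumberField K] [Field F]
    [Algebra (AlgebraicClosure K) F] [Fintype ι]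
    (act : (AlgebraicClosure K ≃ₐ[K] AlgebraicClosure K) →* (F ≃+* F)) {ℓ N : ℕ} {x y : F} {c : K}
    {a : ι → K} {w : ι → ℕ}
    (hG : Gen ℓ x y (algebraMap K (AlgebraicClosure K) c)
      (fun i => algebraMap K (AlgebraicClosure K) (a i)) w)
    (hc : ∀ σ z, act σ (algebraMap _ F z) = algebraMap _ F (σ z)) (hx : ∀ σ, act σ x = x)
    (hy : ∀ σ, act σ y = y) (hN : ℓ ∣ N) (hT : TateHom K act ℓ N) : LocK ℓ N a w := by
  intro v hv
  obtain ⟨ν, Γ, hna, hext, hiso, hin, hfix⟩ := exists_loc K v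
  obtain ⟨A, hA, hAσ⟩ := exists_valuationSubring (K := K) hna
  let α : Γ →* (AlgebraicClosure K ≃+* AlgebraicClosure K) :=
    { toFun := fun g => (g : AlgebraicClosure K ≃ₐ[K] AlgebraicClosure K).toRingEquiv
      map_one' := rfl
      map_mul' := fun g h => rfl }
  have hα : ∀ (g : Γ) z, α g z = (g : AlgebraicClosure K ≃ₐ[K] AlgebraicClosure K) z :=
    fun g z => rfl
  let β : Γ →* (F ≃+* F) := act.comp Γ.subtype
  have hβ : ∀ g : Γ, β g = act g := fun g => rfl
  have hAct : Act α β x y :=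
    ⟨fun g z => by rw [hβ, hα, hc], fun g => by rw [hβ, hx], fun g => by rw [hβ, hy]⟩
  have hK : ∀ (g : Γ) (u : K), α g (algebraMap K _ u) = algebraMap K _ u := fun g u => by
    rw [hα, AlgEquiv.commutes]
  have hnat : ∀ m : ℕ, ν (m : AlgebraicClosure K) = v (m : K) := fun m => by
    rw [← hext, map_natCast (algebraMap K (AlgebraicClosure K))]
  have hNA : (N : AlgebraicClosure K)⁻¹ ∈ A := by
    rw [hA, map_inv₀, hnat, hv, inv_one]
  have hTors : Tors (AlgebraicClosure K) β ℓ := by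
    intro m
    refine ⟨m, fun φ hφ hd g => ?_⟩
    obtain ⟨τ, hτ, hτg⟩ := hAσ g (hiso g g.2) (hin g g.2)
    obtain ⟨ψ, hψ⟩ := hT A hNA τ hτ m φ hφ hd
    exact ⟨ψ, by rw [hβ, ← hτg]; exact hψ⟩
  have hℓ1 : ν (ℓ : AlgebraicClosure K) = 1 := by
    rw [hnat]; exact fp_eq_one_of_dvd hN hv
  have hq0 : (qv v : K) ≠ 0 := by
    have := two_le_qv v
    exact_mod_cast (by omega : qv v ≠ 0)
  have hν : NA ν ℓ := by
    refine ⟨hna, hℓ1, ((qv v : ℕ) : AlgebraicClosure K)⁻¹, ?_⟩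
    rw [map_inv₀, hnat]
    exact (one_lt_inv₀ (v.pos_iff.mpr hq0)).mpr (fp_qv_lt_one v)
  have hI : Inert ν α (Real.log (qv v)) := by
    refine ⟨fun g z => by rw [hα]; exact hiso g g.2 z, log_qv_pos v, fun z hz h => ?_⟩
    obtain ⟨u, hu⟩ := hfix z fun σ hσ => h ⟨σ, hσ⟩
    refine ⟨-ord v u, ?_⟩
    rw [hu, log_fp]
    push_cast
    ring
  have hz : ∀ (g : Γ) (z : AlgebraicClosure K), z ^ ℓ = 1 → α g z = z := by
    intro g z hz1
    have h1 : ν z = 1 := by
      have h2 : ν z ^ ℓ = 1 := by rw [← map_pow, hz1, map_one]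
      exact (pow_eq_one_iff_of_nonneg (ν.nonneg z) hG.prime.ne_zero).mp h2
    refine root_eq_of_lt hna hℓ1 (by rw [← map_pow, hz1, map_one]) hz1 ?_
    rw [hα]
    exact hin g g.2 z h1.le
  refine ⟨?_, ?_⟩
  · have h1 := Gen.l1 hG hAct (fun g => hK g c) (fun g i => hK g (a i)) hTors hν hI
    intro I J hd hw hI' hJ' hs hsep
    refine h1 I J hd hw hI' hJ' hs ?_
    intro i hi i' hi' j hj j' hj'
    have h2 := hsep i hi i' hi' j hj j' hj'
    simp only [← map_sub, hext]
    exact h2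
  · intro i j n l hq hi hj hn hl
    obtain ⟨γ, hγ, hγℓ⟩ :=
      Gen.l2 hG hAct (fun g => hK g c) (fun g i => hK g (a i)) hz hTors hq hi hj hn hl
    obtain ⟨u, hu⟩ := hfix γ fun σ hσ => hγ ⟨σ, hσ⟩
    have h1 : cr (fun i => algebraMap K (AlgebraicClosure K) (a i)) i j n l =
        algebraMap K (AlgebraicClosure K) (cr a i j n l) := by
      rw [map_cr]; rfl
    have h2 : v (cr a i j n l) = v (u ^ ℓ) := by
      rw [← hext, ← h1, ← hγℓ, map_pow, hu, map_pow]
    have h3 := congrArg Real.log h2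
    rw [log_fp, log_fp, neg_inj, mul_left_inj' (log_qv_pos v).ne', ord_pow] at h3
    exact ⟨ord v u, by exact_mod_cast h3⟩

theorem local_K' {K F ι : Type} [Field K] [NumberField K] [Field F]
    [Algebra (AlgebraicClosure K) F] [Fintype ι]
    [MulSemiringAction (AlgebraicClosure K ≃ₐ[K] AlgebraicClosure K) F] {ℓ N : ℕ} {x y : F} {c : K}
    {a : ι → K} {w : ι → ℕ}
    (hG : Gen ℓ x y (algebraMap K (AlgebraicClosure K) c)
      (fun i => algebraMap K (AlgebraicClosure K) (a i)) w)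
    (hC : Curve K (AlgebraicClosure K) x)
    (hy : ∀ σ : AlgebraicClosure K ≃ₐ[K] AlgebraicClosure K, σ • y = y) (hN : ℓ ∣ N)
    (hT : TateUnramified K (AlgebraicClosure K) F ℓ N) : LocK ℓ N a w :=
  local_K (MulSemiringAction.toRingAut _ F) hG hC.1 hC.2.1 hy hN
    fun A hA σ hσ => hT σ ⟨A, hA, σ, hσ, rfl⟩

end Pool.Agent.Lib.MP_07b2d0_nt.Ks
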