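import Mathlib
import Pool.Agent.Lib.MP_07b2d0_nt.KE3

/-!
The Pell equation `u ^ 2 - F * w ^ 2 = 1` over an algebraically closed valued field.
-/

set_option autoImplicit false
set_option linter.unusedSectionVars false
set_option linter.unusedVariables false

namespace Pool.Agent.Lib.MP_07b2d0_nt.Ks

open Polynomial Finset

variable {k : Type} [Field k] [IsAlgClosed k] [CharZero k] {ν : AbsoluteValue k ℝ}
  {ι : Type} [Fintype ι] {a : ι → k}

theorem pa1_sq {A B w : k[X]} (h : IsCoprime A B) (e : A * B = w ^ 2) : ∃ g : k[X], A = g ^ 2 := by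
  obtain ⟨d, t, ht⟩ := exists_associated_pow_of_mul_eq_pow' h e
  obtain ⟨c, -, hc⟩ := Polynomial.isUnit_iff.1 t.isUnit
  obtain ⟨z, hz⟩ := IsAlgClosed.exists_pow_nat_eq c two_pos
  refine ⟨d * C z, ?_⟩
  rw [mul_pow, ← C_pow, hz, hc, ht]

theorem pa1_eval (u w : k[X]) (e : u ^ 2 - (∏ i, (X - C (a i))) * w ^ 2 = 1) (i : ι) :
    u.eval (a i) = 1 ∨ u.eval (a i) = -1 := by
  have h1 := congrArg (eval (a i)) e
  rw [eval_sub, eval_mul, eval_prod, prod_eq_zero (mem_univ i) (by simp), zero_mul, sub_zero,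
    eval_pow, eval_one] at h1
  exact sq_eq_one_iff_of_ne_zero_aux h1
where
  sq_eq_one_iff_of_ne_zero_aux {z : k} (h : z ^ 2 = 1) : z = 1 ∨ z = -1 := by
    have : (z - 1) * (z + 1) = 0 := by linear_combination h
    rcases mul_eq_zero.1 this with h | h
    · exact Or.inl (sub_eq_zero.1 h)
    · exact Or.inr (eq_neg_of_add_eq_zero_left h)

theorem pa1_monic (a : ι → k) : (∏ i, (X - C (a i)) : k[X]).Monic :=
  monic_prod_of_monic _ _ fun i _ => monic_X_sub_C _

theorem pa1_deg (a : ι → k) : (∏ i, (X - C (a i)) : k[X]).natDegree = Fintype.card ι := by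
  rw [natDegree_prod_of_monic _ _ fun i _ => monic_X_sub_C _]
  simp

theorem pa1_udeg {u w : k[X]} (hw : w ≠ 0) (e : u ^ 2 - (∏ i, (X - C (a i))) * w ^ 2 = 1)
    [Nonempty ι] : 2 * u.natDegree = Fintype.card ι + 2 * w.natDegree := by
  have h0 : 0 < Fintype.card ι := Fintype.card_pos
  have h1 : ((∏ i, (X - C (a i))) * w ^ 2 : k[X]).natDegree = Fintype.card ι + 2 * w.natDegree := by
    rw [natDegree_mul (pa1_monic a).ne_zero (pow_ne_zero _ hw), pa1_deg, natDegree_pow]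
  have h2 : u ^ 2 = (∏ i, (X - C (a i))) * w ^ 2 + C 1 := by
    rw [C_1]
    linear_combination e
  rw [← h1, ← natDegree_pow, h2, natDegree_add_C]

/-- A minimal solution takes both values at the branch points. -/
theorem pell_colours (ha : Function.Injective a) [Nonempty ι] (n : ℕ) : ∀ u w : k[X],
    u.natDegree = n → w ≠ 0 → u ^ 2 - (∏ i, (X - C (a i))) * w ^ 2 = 1 →
    ∃ u w : k[X], w ≠ 0 ∧ u ^ 2 - (∏ i, (X - C (a i))) * w ^ 2 = 1 ∧
      (∃ i, u.eval (a i) = 1) ∧ ∃ j, u.eval (a j) = -1 := by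
  induction n using Nat.strong_induction_on with
  | _ n ih =>
  have key : ∀ u w : k[X], u.natDegree = n → w ≠ 0 →
      u ^ 2 - (∏ i, (X - C (a i))) * w ^ 2 = 1 → (∀ i, u.eval (a i) = 1) →
      ∃ u w : k[X], w ≠ 0 ∧ u ^ 2 - (∏ i, (X - C (a i))) * w ^ 2 = 1 ∧
        (∃ i, u.eval (a i) = 1) ∧ ∃ j, u.eval (a j) = -1 := by
    intro u w hn hw e h1
    obtain ⟨g, hg⟩ : (∏ i, (X - C (a i)) : k[X]) ∣ u - 1 :=
      Fintype.prod_dvd_of_coprime (pairwise_coprime_X_sub_C ha) fun i =>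
        dvd_iff_isRoot.2 (by rw [IsRoot.def, eval_sub, h1, eval_one, sub_self])
    have h2 : (u + 1) * g = w ^ 2 := by
      apply mul_left_cancel₀ (pa1_monic a).ne_zero
      linear_combination e - (u + 1) * hg
    have h20 : (2 : k) ≠ 0 := two_ne_zero
    have hC : (C (2 : k)⁻¹ : k[X]) * 2 = 1 := by
      rw [show (2 : k[X]) = C 2 from rfl, ← C_mul, inv_mul_cancel₀ h20, C_1]
    have hc : IsCoprime (u + 1) g :=
      ⟨C 2⁻¹, -(C 2⁻¹ * ∏ i, (X - C (a i))), by linear_combination hC + C (2 : k)⁻¹ * hg⟩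
    obtain ⟨g₂, hg₂⟩ := pa1_sq hc h2
    obtain ⟨g₁, hg₁⟩ := pa1_sq hc.symm (by rw [mul_comm]; exact h2)
    obtain ⟨z, hz⟩ := IsAlgClosed.exists_pow_nat_eq (2 : k)⁻¹ two_pos
    have hz0 : z ≠ 0 := by
      rintro rfl
      rw [zero_pow two_ne_zero] at hz
      exact inv_ne_zero h20 hz.symm
    have hz' : (C z : k[X]) ^ 2 = C 2⁻¹ := by rw [← C_pow, hz]
    have hg0 : g₁ ≠ 0 := by
      rintro rfl
      rw [hg₁, zero_pow two_ne_zero, mul_zero] at h2
      exact pow_ne_zero 2 hw h2.symm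
    have hd := pa1_udeg hw e
    have h0 : 0 < Fintype.card ι := Fintype.card_pos
    have hd2 : u.natDegree = 2 * g₂.natDegree := by
      rw [← natDegree_pow, ← hg₂, ← C_1, natDegree_add_C]
    refine ih (C z * g₂).natDegree ?_ (C z * g₂) (C z * g₁) rfl
      (mul_ne_zero (C_ne_zero.2 hz0) hg0) ?_
    · rw [natDegree_C_mul hz0]
      omega
    · rw [mul_pow, mul_pow, hz', ← hg₂, ← hg₁]
      linear_combination hC + C (2 : k)⁻¹ * hg
  intro u w hn hw e
  by_cases h1 : ∀ i, u.eval (a i) = 1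
  · exact key u w hn hw e h1
  by_cases h2 : ∀ i, u.eval (a i) = -1
  · exact key (-u) w (by rw [natDegree_neg, hn]) hw (by rw [neg_sq]; exact e) fun i => by
      rw [eval_neg, h2, neg_neg]
  obtain ⟨j, hj⟩ := not_forall.1 h1
  obtain ⟨i, hi⟩ := not_forall.1 h2
  exact ⟨u, w, hw, e, ⟨i, (pa1_eval u w e i).resolve_right hi⟩, j,
    (pa1_eval u w e j).resolve_left hj⟩

/-- Two polynomials differing by `2` which both vanish in a disc have equally many roots there. -/
theorem cnt_eq_of_two (h : NA ν 2) {A B : k[X]} (hA : A ≠ 0) (hB : B ≠ 0) (e : B - A = 2) {b : k}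
    {R : ℝ} (hR : 0 < R) (h1 : cnt ν b R false A ≠ 0) (h2 : cnt ν b R false B ≠ 0) :
    cnt ν b R false A = cnt ν b R false B := by
  by_contra hne
  obtain ⟨ε₁, p1, H1⟩ := poly_near h hR hA b false
  obtain ⟨ε₂, p2, H2⟩ := poly_near h hR hB b false
  obtain ⟨ε₃, p3, H3⟩ := ke3_lines (mu ν b R A) (mu ν b R B)
    (s := cnt ν b R false A) (s' := cnt ν b R false B) (by exact_mod_cast hne)
  obtain ⟨ε₄, p4, H4⟩ := ke3_lines (mu ν b R A) 0
    (s := cnt ν b R false A) (s' := 0) (by exact_mod_cast h1)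
  obtain ⟨ε₅, p5, H5⟩ := ke3_lines (mu ν b R B) 0
    (s := cnt ν b R false B) (s' := 0) (by exact_mod_cast h2)
  obtain ⟨ρ, hρ⟩ := h.near_exists b R false
    (lt_min (lt_min p1 p2) (lt_min p3 (lt_min p4 p5)))
  obtain ⟨q12, q345⟩ := lt_min_iff.1 hρ.2.1
  obtain ⟨q3, q45⟩ := lt_min_iff.1 q345
  obtain ⟨q4, q5⟩ := lt_min_iff.1 q45
  obtain ⟨a1, a2⟩ := H1 ρ (hρ.mono ((min_le_left _ _).trans (min_le_left _ _)))
  obtain ⟨b1, b2⟩ := H2 ρ (hρ.mono ((min_le_left _ _).trans (min_le_right _ _)))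
  have t0 := ke3_hh hρ
  have c3 := H3 _ t0 q3
  have c4 := H4 _ t0 q4
  have c5 := H5 _ t0 q5
  rw [← a2, ← b2] at c3
  rw [← a2, zero_mul, add_zero] at c4
  rw [← b2, zero_mul, add_zero] at c5
  have e1 : B.eval ρ - A.eval ρ = 2 := by
    rw [← eval_sub, e]
    exact eval_ofNat 2 ρ
  have e2 : ν (B.eval ρ - A.eval ρ) = 1 := by
    rw [e1]
    exact_mod_cast h.one
  rcases lt_trichotomy (ν (A.eval ρ)) (ν (B.eval ρ)) with h3 | h3 | h3
  · have := h.eq_of_lt (u := B.eval ρ - A.eval ρ) (z := B.eval ρ) (by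
      rwa [sub_sub_cancel_left, ν.map_neg])
    exact c5 (by rw [lg, ← this, e2, Real.log_one])
  · exact c3 (by rw [lg, lg, h3])
  · have := h.eq_of_lt (u := B.eval ρ - A.eval ρ) (z := -A.eval ρ) (by
      rwa [sub_neg_eq_add, sub_add_cancel, ν.map_neg])
    rw [ν.map_neg] at this
    exact c4 (by rw [lg, ← this, e2, Real.log_one])

theorem cnt_ne_zero {A : k[X]} (hA : A ≠ 0) {b τ : k} {R : ℝ} (h : A.IsRoot τ)
    (hτ : ν (τ - b) < R) : cnt ν b R false A ≠ 0 := by
  classical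
  unfold cnt
  rw [Ne, Multiset.card_eq_zero, Multiset.filter_eq_nil]
  intro H
  exact H τ ((mem_roots hA).2 h) (Or.inl hτ)

/-- Branch points of different colours are as far apart as possible. -/
theorem pell_far (h : NA ν 2) (hL : Loc1 ν 2 a fun _ => 1) {u w : k[X]} (hw : w ≠ 0)
    (e : u ^ 2 - (∏ i, (X - C (a i))) * w ^ 2 = 1) {i j : ι} (hi : u.eval (a i) = 1)
    (hj : u.eval (a j) = -1) {b : k} {R : ℝ} (h1 : ν (a i - b) < R) (h2 : ν (a j - b) < R)
    (l : ι) : ν (a l - b) < R := by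
  classical
  by_contra hl
  have hR : 0 < R := (ν.nonneg _).trans_lt h1
  have e1 : (u - 1) * (u + 1) = C 1 * (∏ i, (X - C (a i)) ^ 1) * w ^ 2 := by
    simp only [C_1, one_mul, pow_one]
    linear_combination e
  have hF : (C 1 * ∏ i, (X - C (a i)) ^ 1 : k[X]) ≠ 0 := by
    simp only [C_1, one_mul, pow_one]
    exact (pa1_monic a).ne_zero
  have h0 : (u - 1) * (u + 1) ≠ 0 := e1 ▸ mul_ne_zero hF (pow_ne_zero _ hw)
  have hA := left_ne_zero_of_mul h0
  have hB := right_ne_zero_of_mul h0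
  have c1 := cnt_eq_of_two h hA hB (by ring) hR
    (cnt_ne_zero hA (by rw [IsRoot.def, eval_sub, hi, eval_one, sub_self]) h1)
    (cnt_ne_zero hB (by rw [IsRoot.def, eval_add, hj, eval_one, neg_add_cancel]) h2)
  have c2 := congrArg (cnt ν b R false) e1
  rw [cnt_mul hA hB, cnt_mul hF (pow_ne_zero _ hw), cnt_pow,
    cnt_prod one_ne_zero a fun _ => 1] at c2
  refine hL (univ.filter fun i => ν (a i - b) < R) (univ.filter fun i => ¬ ν (a i - b) < R)
    (disjoint_filter_filter_not _ _ _) (fun m => ?_) ⟨i, by simpa using h1⟩ ⟨l, by simpa using hl⟩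
    (by beta_reduce; omega) ?_
  · simp only [mem_filter, mem_univ, true_and, em, iff_true]
    omega
  · intro p hp p' hp' q hq q' hq'
    simp only [mem_filter, mem_univ, true_and, not_lt] at hp hp' hq hq'
    have f1 : ν (a p - a q) = ν (a q - b) := by
      rw [ν.map_sub (a q) b]
      exact h.iso (by rw [ν.map_sub b]; exact hp.trans_le hq)
    have f2 : ν (a p' - a q') = ν (a q' - b) := by
      rw [ν.map_sub (a q') b]
      exact h.iso (by rw [ν.map_sub b]; exact hp'.trans_le hq')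
    have f3 : ν (a p - a p') < R :=
      (h.tri _ b _).trans_lt (max_lt hp (by rwa [ν.map_sub]))
    have f4 : ν (a q - a q') ≤ max (ν (a q - b)) (ν (a q' - b)) := by
      have := h.tri (a q) b (a q')
      rwa [ν.map_sub b] at this
    rw [f1, f2]
    have f5 := ν.nonneg (a p - a p')
    rcases le_max_iff.1 f4 with f6 | f6
    · calc ν (a p - a p') * ν (a q - a q') ≤ ν (a p - a p') * ν (a q - b) :=
            mul_le_mul_of_nonneg_left f6 f5
        _ < ν (a q' - b) * ν (a q - b) :=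
            mul_lt_mul_of_pos_right (f3.trans_le hq') (hR.trans_le hq)
        _ = _ := mul_comm _ _
    · calc ν (a p - a p') * ν (a q - a q') ≤ ν (a p - a p') * ν (a q' - b) :=
            mul_le_mul_of_nonneg_left f6 f5
        _ < ν (a q - b) * ν (a q' - b) :=
            mul_lt_mul_of_pos_right (f3.trans_le hq) (hR.trans_le hq')

/-- The distance of two branch points of different colours is the diameter. -/
theorem pell_diam (h : NA ν 2) (hL : Loc1 ν 2 a fun _ => 1) {u w : k[X]} (hw : w ≠ 0)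
    (e : u ^ 2 - (∏ i, (X - C (a i))) * w ^ 2 = 1) {i j : ι} (hi : u.eval (a i) = 1)
    (hj : u.eval (a j) = -1) (p q : ι) : ν (a p - a q) ≤ ν (a i - a j) := by
  have key : ∀ l, ν (a l - a j) ≤ ν (a i - a j) := fun l => by
    by_contra hl
    have h1 := not_le.1 hl
    exact lt_irrefl _ (pell_far h hL hw e hi hj h1
      (by rw [sub_self, map_zero]; exact (ν.nonneg _).trans_lt h1) l)
  exact (h.tri _ (a j) _).trans (max_le (key p) (by rw [ν.map_sub]; exact key q))

end Pool.Agent.Lib.MP_07b2d0_nt.Ks
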