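import Mathlib
import Pool.Agent.Lib.MP_07b2d0_nt.KF4

/-!
The four-torsion of a hyperelliptic Jacobian sees the quadratic twist.
-/

set_option autoImplicit false
set_option linter.unusedSectionVars false
set_option linter.unusedVariables false

namespace Pool.Agent.Lib.MP_07b2d0_nt.Ks

open Polynomial WithZero Finset
open scoped Polynomial.Bivariate

variable {k E : Type} [Field k] [IsAlgClosed k] [CharZero k] [Field E] [Algebra k E]
  {ℓ : ℕ} {x y : E} {f : k[X]}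
variable {Γ : Type} [Group Γ] {α : Γ →* (k ≃+* k)} {β : Γ →* (E ≃+* E)}
  {ζ : k} {s : E ≃ₐ[k] E}

/-- Value of `q / (θ * y)` at the branch point `a` itself. -/
theorem Aut.own_value (hs : Aut 2 ζ x y s) (h : Cyc 2 x y f) {a : k} {f₁ : k[X]}
    (hf : f = (X - C a) * f₁) (h1 : f₁.eval a ≠ 0) {θ q : E} (hθ : θ ≠ 0)
    (hd : DivBy k (2 ^ 2) ((x - algebraMap k E a) * θ ^ 2))
    (hq : (x - algebraMap k E a) * nm s 2 θ = q ^ 2) :
    ∃ γ : k, γ ^ 2 * f₁.eval a = -1 ∧ ∀ v : Valuation E ℤᵐ⁰, Triv k v →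
      v (x - algebraMap k E a) < 1 → v (q / (θ * y) - algebraMap k E γ) < 1 := by
  have ha : f.IsRoot a := by rw [hf]; simp
  obtain ⟨v₀, hv₀, hs₀, hc₀, -⟩ := h.pt (τ := a) (η := 0) (by rw [zero_pow two_ne_zero, ha.eq_zero])
  have he := h.ram_e ha hv₀ hs₀ hc₀
  have hxa : x - algebraMap k E a ≠ 0 := fun h0 =>
    h.trans (sub_eq_zero.mp h0 ▸ isAlgebraic_algebraMap a)
  have hone : ∀ {v : Valuation E ℤᵐ⁰} {z : E} {c : k}, Triv k v → c ≠ 0 →
      v (z - algebraMap k E c) < 1 → v z = 1 := fun {v z c} hv hc hz => by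
    rw [← hv.eq_one hc] at hz ⊢
    exact v.map_eq_of_sub_lt hz
  have hy2 : y ^ 2 = (x - algebraMap k E a) * aeval x f₁ := by
    rw [h.eq, hf, map_mul, map_sub, aeval_X, aeval_C]
  have hf1 := hv₀.aeval_sub_lt hc₀ f₁
  have hf1' := hone hv₀ h1 hf1
  have hf0 : aeval x f₁ ≠ 0 := fun h0 => by
    rw [h0, map_zero] at hf1'
    exact zero_ne_one hf1'
  have hy0 : y ≠ 0 := fun h0 => by
    rw [h0, zero_pow two_ne_zero] at hy2
    exact mul_ne_zero hxa hf0 hy2.symm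
  have hly : log (v₀ y) = -1 := by
    have h2 := congrArg (fun z => log (v₀ z)) hy2
    simp only [map_pow, map_mul, hf1', mul_one, log_pow, he, nsmul_eq_mul] at h2
    push_cast at h2
    omega
  have hvθ : v₀ θ ≠ 0 := (Valuation.ne_zero_iff v₀).2 hθ
  obtain ⟨r, hr⟩ : Odd (log (v₀ θ)) := by
    have h2 := hd v₀ hv₀
    rw [map_mul, map_pow, log_mul ((Valuation.ne_zero_iff v₀).2 hxa) (pow_ne_zero _ hvθ), log_pow,
      he, nsmul_eq_mul] at h2
    push_cast at h2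
    rw [Int.odd_iff]
    omega
  have hu0 : y ^ (2 * r + 1) ≠ 0 := zpow_ne_zero _ hy0
  have hθ' : θ * y ^ (2 * r + 1) ≠ 0 := mul_ne_zero hθ hu0
  have hv1 : log (v₀ (θ * y ^ (2 * r + 1))) = 0 := by
    rw [map_mul, log_mul hvθ ((Valuation.ne_zero_iff v₀).2 hu0), map_zpow₀, log_zpow, hly, hr]
    simp
  obtain ⟨n₁, hn₁, hc₁⟩ := h.ram_val ha hθ'
  have hn₁0 : n₁ = 0 := by
    have := hn₁ v₀ hv₀ hc₀
    rw [hv1, he] at this
    simpa using this
  obtain ⟨c₁, hc₁0, hc₁⟩ := hc₁ hn₁0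
  have hζ : ζ = -1 := hs.prim.eq_neg_one_of_two_right
  have hsy : s y = -y := by rw [hs.sy, hζ]; simp
  have hsθ : v₀ (s (θ * y ^ (2 * r + 1)) - algebraMap k E c₁) < 1 := by
    have h2 := hc₁ (v₀.comap s.toRingEquiv.toRingHom)
      (hv₀.comap (RingEquiv.refl k) s.toRingEquiv fun c => s.commutes c) (by
        change v₀ (s (x - algebraMap k E a)) < 1
        rwa [map_sub, hs.sx, AlgEquiv.commutes])
    change v₀ (s (θ * y ^ (2 * r + 1) - algebraMap k E c₁)) < 1 at h2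
    rwa [map_sub, AlgEquiv.commutes] at h2
  have hnm : nm s 2 θ = θ * s θ := by simp [nm, prod_range_succ]
  have hid : (q / (θ * y)) * (q / (θ * y)) * aeval x f₁ * (θ * y ^ (2 * r + 1)) =
      -s (θ * y ^ (2 * r + 1)) := by
    have h3 : (-y) ^ (2 * r + 1) = -y ^ (2 * r + 1) := Odd.neg_zpow ⟨r, rfl⟩ y
    rw [map_mul, map_zpow₀, hsy, h3, ← sq, div_pow, ← hq, hnm, mul_pow, hy2]
    field_simp
  have hz1 : v₀ (q / (θ * y)) = 1 := by
    have h2 := congrArg v₀ hid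
    rw [Valuation.map_neg, hone hv₀ hc₁0 hsθ, map_mul, map_mul, hf1',
      hone hv₀ hc₁0 (hc₁ v₀ hv₀ hc₀), mul_one, mul_one, map_mul, ← sq] at h2
    exact (pow_eq_one_iff_of_nonneg zero_le two_ne_zero).1 h2
  have hz0 : q / (θ * y) ≠ 0 := fun h0 => by
    rw [h0, map_zero] at hz1
    exact zero_ne_one hz1
  obtain ⟨n₂, hn₂, hc₂⟩ := h.ram_val ha hz0
  have hn₂0 : n₂ = 0 := by
    have := hn₂ v₀ hv₀ hc₀
    rw [hz1, log_one, he] at this
    simpa using this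
  obtain ⟨c₂, hc₂0, hc₂⟩ := hc₂ hn₂0
  refine ⟨c₂, ?_, hc₂⟩
  have h3 := kc3_mul hv₀ (kc3_mul hv₀ (kc3_mul hv₀ (hc₂ v₀ hv₀ hc₀) (hc₂ v₀ hv₀ hc₀)) hf1)
    (hc₁ v₀ hv₀ hc₀)
  have h4 : v₀ (-s (θ * y ^ (2 * r + 1)) - algebraMap k E (-c₁)) < 1 := by
    rw [map_neg, ← neg_sub', Valuation.map_neg]
    exact hsθ
  rw [hid] at h3
  have h5 := hv₀.cen_unique h3 h4
  apply mul_right_cancel₀ hc₁0
  linear_combination h5

theorem Cyc.l3 (h : Cyc 2 x y f) (hA : Act α β x y) (hF : Fix α f)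
    (hT : Tors k β 2) {a b : k} {f₁ : k[X]} (hf : f = (X - C a) * f₁) (h1 : f₁.eval a ≠ 0)
    (hb : f.IsRoot b) (hab : b ≠ a) :
    ∃ γ : k, (∀ g, α g γ = γ) ∧ γ ^ 2 = -((b - a) * f₁.eval a) := by
  have ha : f.IsRoot a := by rw [hf]; simp
  have hζ : IsPrimitiveRoot (-1 : k) 2 := IsPrimitiveRoot.neg_one 0 (by norm_num)
  obtain ⟨s, hs⟩ := h.aut hζ
  obtain ⟨θ, Q₁, Q₂, hθ, hQ, hd, he, hq⟩ := hs.package h hA hT ha (fun g => hF.root g a ha) 1
  have hQ' : aeval x Q₂ ≠ 0 := fun h0 => h.trans ⟨Q₂, hQ, h0⟩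
  obtain ⟨q, hqd⟩ : ∃ q, q = aeval x Q₁ / aeval x Q₂ := ⟨_, rfl⟩
  have hq' : (x - algebraMap k E a) * nm s 2 θ = q ^ 2 := by
    rw [hqd, div_pow, ← hq, mul_div_cancel_right₀ _ (pow_ne_zero _ hQ')]
  have hxa : x - algebraMap k E a ≠ 0 := fun h0 =>
    h.trans (sub_eq_zero.mp h0 ▸ isAlgebraic_algebraMap a)
  have hq0 : q ≠ 0 := fun h0 => by
    rw [h0, zero_pow two_ne_zero] at hq'
    exact mul_ne_zero hxa (nm_ne_zero s 2 hθ) hq'
  have hfx : ∀ g (τ : k), f.IsRoot τ → β g (x - algebraMap k E τ) = x - algebraMap k E τ :=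
    fun g τ hτ => by rw [map_sub, hA.fx, hA.compat, hF.root g τ hτ]
  have key : ∀ g, ∃ u : k, β g (q / θ) = algebraMap k E u * (q / θ) := fun g => by
    obtain ⟨e, he⟩ := he g
    have e1 : β g (nm s 2 θ) = algebraMap k E (e ^ 2) * nm s 2 θ := by
      have := hs.nm_aeval (C e)
      rw [aeval_C] at this
      rw [hs.map_nm h (α g) (β g) (hA.compat g) (hA.fx g) (hA.fy g) (by simp), he,
        nm_mul, this, map_pow]
    have e2 : (β g q / q) ^ 2 = algebraMap k E (e ^ 2) := by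
      rw [div_pow, ← map_pow, ← hq', map_mul, hfx g a ha, e1]
      have := nm_ne_zero s 2 hθ
      field_simp
    obtain ⟨e', he'⟩ := exists_const_of_pow two_ne_zero e2
    refine ⟨e' / e, ?_⟩
    rw [map_div₀, he, map_div₀, ← he']
    field_simp
  choose u hu using key
  have main : ∀ (τ γ : k) (z : E), f.IsRoot τ → (∀ g, β g z = algebraMap k E (u g) * z) →
      (∀ v : Valuation E ℤᵐ⁰, Triv k v → v (x - algebraMap k E τ) < 1 →
        v (z - algebraMap k E γ) < 1) → ∀ g, α g γ = u g * γ := by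
    intro τ γ z hτ hz h2 g
    obtain ⟨v, hv, -, hc, -⟩ := h.pt (τ := τ) (η := 0) (by rw [zero_pow two_ne_zero, hτ.eq_zero])
    have e1 := h2 (v.comap (β g).toRingHom) (hv.comap (α g) (β g) (hA.compat g))
      ((congrArg v (hfx g τ hτ)).trans_lt hc)
    have e2 : v (algebraMap k E (u g) * z - algebraMap k E (α g γ)) < 1 := by
      rw [← hz, ← hA.compat, ← map_sub]
      exact e1
    exact hv.cen_unique e2 (kc3_mul hv (c := u g) (by simp) (h2 v hv hc))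
  obtain ⟨γ, g1, g2⟩ := hs.branch_value h hb hab hθ hd hq'
  obtain ⟨γ', g1', g2'⟩ := hs.own_value h hf h1 hθ hd hq'
  have h2 := main b γ _ hb hu g2
  have h2' := main a γ' _ ha (fun g => by
    rw [← div_div, map_div₀, hu, hA.fy, mul_div_assoc]) g2'
  have hγ' : γ' ≠ 0 := fun h0 => by
    rw [h0, zero_pow two_ne_zero, zero_mul] at g1'
    exact neg_ne_zero.2 one_ne_zero g1'.symm
  refine ⟨γ / γ', fun g => ?_, ?_⟩
  · have hu0 : u g ≠ 0 := fun h0 => by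
      have := h2' g
      rw [h0, zero_mul] at this
      exact hγ' (by simpa using this)
    rw [map_div₀, h2, h2', mul_div_mul_left _ _ hu0]
  · rw [div_pow, g1, div_eq_iff (pow_ne_zero _ hγ')]
    linear_combination (b - a) * g1'

end Pool.Agent.Lib.MP_07b2d0_nt.Ks
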