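import Mathlib
import Pool.Agent.Lib.MP_07b2d0_nt.PA2

/-!
The twist relation for the even model.
-/

set_option autoImplicit false
set_option linter.unusedSectionVars false
set_option linter.unusedVariables false

namespace Pool.Agent.Lib.MP_07b2d0_nt.Ks

open Polynomial WithZero Finset
open scoped Polynomial.Bivariate

variable {k E : Type} [Field k] [IsAlgClosed k] [CharZero k] [Field E] [Algebra k E]
  {ℓ : ℕ} {x y : E} {f : k[X]}
variable {Γ : Type} [Group Γ] {α : Γ →* (k ≃+* k)} {β : Γ →* (E ≃+* E)}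

open Classical in
/-- `Gen.mobius` with the value of the leading coefficient. -/
theorem Gen.mobius' {ι : Type} [Fintype ι] {c : k} {a : ι → k} {w : ι → ℕ} (h : Gen ℓ x y c a w)
    (hA : Act α β x y) (hc : ∀ g, α g c = c) (ha : ∀ g i, α g (a i) = a i) {j : ι}
    (hj : ¬ ℓ ∣ w j) : ∃ (x' y' : E) (c' : k), c' = c * ∏ i, (if i = j then 1 else (a j - a i) ^ w i) ∧
      c' ≠ 0 ∧
      Big ℓ x' y' (C c' * ∏ i, (X - C (a i - a j)⁻¹) ^ if i ≠ j ∧ ¬ ℓ ∣ w i then w i else 0) ∧
      Act α β x' y' ∧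
      Fix α (C c' * ∏ i, (X - C (a i - a j)⁻¹) ^ if i ≠ j ∧ ¬ ℓ ∣ w i then w i else 0) := by
  set e : ι → ℕ := fun i => if i ≠ j ∧ ¬ ℓ ∣ w i then w i else 0 with he
  set q : ι → ℕ := fun i => if ℓ ∣ w i then w i / ℓ else 0 with hq
  set d : ι → k := fun i => if i = j then 1 else (a j - a i) ^ w i with hd
  set b : ι → k := fun i => (a i - a j)⁻¹ with hb
  set x' : E := (x - algebraMap k E (a j))⁻¹ with hx'
  obtain ⟨S, hS⟩ := h.sum
  have hbi : Function.Injective b := by
    intro i i' hii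
    exact h.inj (sub_left_injective (inv_injective hii))
  have hd0 : ∀ i, d i ≠ 0 := by
    intro i
    by_cases hi : i = j
    · simp [hd, hi]
    · have : a j - a i ≠ 0 := sub_ne_zero.2 fun h0 => hi (h.inj h0).symm
      simp [hd, hi, this]
  have hc' : c * ∏ i, d i ≠ 0 := mul_ne_zero h.ne (Finset.prod_ne_zero_iff.2 fun i _ => hd0 i)
  have ht' : Transcendental k x' := kf3_trans h.trans (a j)
  have hxj : x - algebraMap k E (a j) ≠ 0 := kf3_ne h.trans (a j)
  have hfac : ∀ i, ((x - algebraMap k E (a i)) * x') ^ w i =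
      algebraMap k E (d i) * (x' - algebraMap k E (b i)) ^ e i *
        ((x' - algebraMap k E (b i)) ^ q i) ^ ℓ := by
    intro i
    by_cases hi : i = j
    · subst hi
      simp [hd, he, hq, hj, hx', mul_inv_cancel₀ hxj]
    · have h1 : a i - a j ≠ 0 := sub_ne_zero.2 fun h0 => hi (h.inj h0)
      have h2 : algebraMap k E (a i) - algebraMap k E (a j) ≠ 0 := by
        rw [← map_sub]
        exact (_root_.map_ne_zero _).2 h1
      have h3 : (x - algebraMap k E (a i)) * x' =
          algebraMap k E (a j - a i) * (x' - algebraMap k E (b i)) := by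
        simp only [hb, hx', map_inv₀, map_sub]
        field_simp
        ring
      have h4 : w i = e i + q i * ℓ := by
        by_cases hw : ℓ ∣ w i
        · simp [he, hq, hw, Nat.div_mul_cancel hw]
        · simp [he, hq, hw, hi]
      have h5 : d i = (a j - a i) ^ w i := by simp [hd, hi]
      rw [h3, mul_pow, h5, map_pow, ← pow_mul, mul_assoc, ← pow_add, ← h4]
  have hsum : ∑ i, w i = ∑ i, e i + ℓ * ∑ i, q i + w j := by
    have h1 : ∀ i, w i = e i + ℓ * q i + if i = j then w j else 0 := by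
      intro i
      by_cases hi : i = j
      · subst hi
        simp [he, hq, hj]
      · by_cases hw : ℓ ∣ w i
        · simp [he, hq, hw, hi, Nat.mul_div_cancel' hw]
        · simp [he, hq, hw, hi]
    rw [Finset.sum_congr rfl fun i _ => h1 i, Finset.sum_add_distrib, Finset.sum_add_distrib,
      ← Finset.mul_sum]
    simp
  have hP : (∏ i, (x' - algebraMap k E (b i)) ^ q i) ≠ 0 :=
    Finset.prod_ne_zero_iff.2 fun i _ => pow_ne_zero _ (kf3_ne ht' (b i))
  have hαb : ∀ g i, α g (b i) = b i := by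
    intro g i
    simp only [hb, map_inv₀, map_sub, ha]
  have hβx : ∀ g, β g x' = x' := by
    intro g
    simp only [hx', map_inv₀, map_sub, hA.fx, hA.compat, ha]
  refine ⟨x', y * x' ^ S / ∏ i, (x' - algebraMap k E (b i)) ^ q i, c * ∏ i, d i, rfl, hc',
    ⟨⟨h.prime, ?_, ?_⟩, ht', ?_, ?_⟩, ⟨hA.compat, hβx, ?_⟩, ⟨?_, ?_⟩⟩
  · intro τ hτ
    obtain ⟨i, rfl, hi⟩ := kf3_root hc' b e hτ
    rw [kf3_mult hc' hbi e i]
    by_cases hw : i ≠ j ∧ ¬ ℓ ∣ w i
    · have : e i = w i := by simp only [he]; rw [if_pos hw]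
      rw [this]
      exact hw.2
    · exact absurd (by simp only [he]; rw [if_neg hw]) hi
  · rw [kf3_deg hc' b e]
    intro hdvd
    apply hj
    have h1 : ℓ ∣ ∑ i, e i + ℓ * ∑ i, q i + w j := by
      rw [← hsum]
      exact ⟨S, hS⟩
    exact (Nat.dvd_add_right (dvd_add hdvd (dvd_mul_right _ _))).1 h1
  · rw [hx', kf3_adjoin]
    exact h.fin
  · have h1 : aeval x' (C (c * ∏ i, d i) * ∏ i, (X - C (b i)) ^ e i : k[X]) =
        algebraMap k E c * ∏ i, (algebraMap k E (d i) * (x' - algebraMap k E (b i)) ^ e i) := by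
      simp only [map_mul, map_prod, map_pow, map_sub, aeval_C, aeval_X, Finset.prod_mul_distrib,
        mul_assoc]
    rw [h1, div_pow, div_eq_iff (pow_ne_zero _ hP), mul_pow, h.eq, ← pow_mul, mul_comm S ℓ, ← hS,
      ← Finset.prod_pow_eq_pow_sum, mul_assoc, ← Finset.prod_mul_distrib, ← Finset.prod_pow,
      mul_assoc, ← Finset.prod_mul_distrib]
    congr 1
    refine Finset.prod_congr rfl fun i _ => ?_
    rw [← mul_pow, hfac]
  · intro g
    simp only [map_div₀, map_mul, map_pow, map_prod, map_sub, hβx, hA.fy, hA.compat, hαb]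
  · intro g
    rw [kf3_lead, map_mul, hc, map_prod]
    congr 1
    refine Finset.prod_congr rfl fun i _ => ?_
    by_cases hi : i = j
    · simp [hd, hi]
    · simp [hd, hi, ha]
  · intro g τ hτ
    obtain ⟨i, rfl, -⟩ := kf3_root hc' b e hτ
    exact hαb g i


open Classical in
theorem Gen.l3 {ι : Type} [Fintype ι] {a : ι → k} (h : Gen 2 x y (1 : k) a fun _ => 1)
    (hA : Act α β x y) (ha : ∀ g i, α g (a i) = a i) (hT : Tors k β 2) {p q s : ι}
    (hpq : p ≠ q) (hps : p ≠ s) (hqs : q ≠ s) : ∃ γ : k, (∀ g, α g γ = γ) ∧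
      γ ^ 2 = (a p - a q) * ∏ l ∈ ((univ.erase q).erase s).erase p, (a s - a l) := by
  obtain ⟨x₁, y₁, c', h0, h1, h2, h3, h4⟩ :=
    h.mobius' hA (fun g => map_one _) ha (j := q) (by norm_num)
  obtain ⟨L, i1, i2, x', y', β', h5, h6, h7⟩ := h2.exists_cyc h3 hT
  have hs : s ∈ univ.erase q := mem_erase.2 ⟨hqs.symm, mem_univ _⟩
  have hp : p ∈ (univ.erase q).erase s := mem_erase.2 ⟨hps, mem_erase.2 ⟨hpq, mem_univ _⟩⟩
  have e1 : (∏ i, (X - C (a i - a q)⁻¹) ^ (if i ≠ q ∧ ¬ 2 ∣ 1 then 1 else 0) : k[X]) =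
      ∏ i ∈ univ.erase q, (X - C (a i - a q)⁻¹) := by
    rw [← mul_prod_erase _ _ (mem_univ q), if_neg (by simp), pow_zero, one_mul]
    exact prod_congr rfl fun i hi => by
      rw [if_pos ⟨(mem_erase.1 hi).1, by norm_num⟩, pow_one]
  have e2 : c' = ∏ i ∈ univ.erase q, (a q - a i) := by
    rw [h0, one_mul, ← mul_prod_erase _ _ (mem_univ q), if_pos rfl, one_mul]
    exact prod_congr rfl fun i hi => by rw [if_neg (mem_erase.1 hi).1, pow_one]
  rw [e1] at h4 h5
  have hb : ∀ {m n : ι}, m ≠ n → (a m - a q)⁻¹ ≠ (a n - a q)⁻¹ := fun hm h7 =>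
    hm (h.inj (sub_left_injective (inv_injective h7)))
  obtain ⟨γ, g1, g2⟩ := h5.l3 h6 h4 h7 (a := (a s - a q)⁻¹) (b := (a p - a q)⁻¹)
    (f₁ := C c' * ∏ i ∈ (univ.erase q).erase s, (X - C (a i - a q)⁻¹))
    (by rw [← mul_prod_erase _ _ hs]; ring)
    (by
      rw [eval_mul, eval_C, eval_prod]
      refine mul_ne_zero h1 (prod_ne_zero_iff.2 fun i hi => ?_)
      rw [eval_sub, eval_X, eval_C]
      exact sub_ne_zero.2 (hb (mem_erase.1 hi).1.symm))
    (by
      rw [IsRoot.def, eval_mul, eval_prod,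
        prod_eq_zero (mem_erase.2 ⟨hpq, mem_univ _⟩) (by simp), mul_zero])
    (hb hps)
  obtain ⟨S, hS⟩ : Odd (((univ.erase q).erase s).erase p).card := by
    have c1 := card_erase_add_one hp
    have c2 := card_erase_add_one hs
    have c3 := card_erase_add_one (mem_univ q)
    have c4 := h.sum
    rw [sum_const, smul_eq_mul, mul_one] at c4
    rw [Nat.odd_iff]
    omega
  have n1 := sub_ne h.inj hpq
  have n2 := sub_ne h.inj hqs.symm
  have n3 := sub_ne h.inj hps
  have e3 : ∏ l ∈ ((univ.erase q).erase s).erase p,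
      ((a q - a l) * ((a s - a q)⁻¹ - (a l - a q)⁻¹)) =
      (∏ l ∈ ((univ.erase q).erase s).erase p, (a s - a l)) * (a s - a q)⁻¹ ^ (2 * S + 1) := by
    rw [← hS, ← prod_const, ← prod_mul_distrib]
    refine prod_congr rfl fun l hl => ?_
    have n4 := sub_ne h.inj (mem_erase.1 (mem_erase.1 (mem_erase.1 hl).2).2).1
    field_simp
    ring
  rw [eval_mul, eval_C, eval_prod, e2, ← mul_prod_erase _ _ hs, ← mul_prod_erase _ _ hp,
    ← mul_prod_erase _ _ hp] at g2
  simp only [eval_sub, eval_X, eval_C] at g2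
  rw [prod_mul_distrib] at e3
  refine ⟨γ * (a s - a q) ^ S / ((a p - a q)⁻¹ - (a s - a q)⁻¹), fun g => ?_, ?_⟩
  · simp only [map_div₀, map_mul, map_pow, map_sub, map_inv₀, ha, g1]
  · have n5 := sub_ne_zero.2 (hb hps)
    rw [div_pow, div_eq_iff (pow_ne_zero _ n5), mul_pow, g2]
    have e4 : (a s - a q)⁻¹ ^ (2 * S + 1) * ((a s - a q) ^ S) ^ 2 * (a s - a q) = 1 := by
      rw [← pow_mul, mul_assoc, ← pow_succ, mul_comm S 2, ← mul_pow, inv_mul_cancel₀ n2, one_pow]
    generalize (a s - a q)⁻¹ ^ (2 * S + 1) = W at e3 e4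
    generalize ((a s - a q) ^ S) ^ 2 = T at e4 ⊢
    generalize (a p - a q)⁻¹ = u at *
    generalize (a s - a q)⁻¹ = z at *
    linear_combination (u - z) ^ 2 * (a q - a s) * (a q - a p) * T * e3 - (u - z) ^ 2 *
      (a q - a p) * (∏ l ∈ ((univ.erase q).erase s).erase p, (a s - a l)) * e4

end Pool.Agent.Lib.MP_07b2d0_nt.Ks
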