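import Mathlib
import Pool.Agent.Lib.MP_07b2d0_nt.PA1
import Pool.Agent.Lib.MP_07b2d0_nt.PA3
import Pool.Agent.Lib.MP_07b2d0_nt.KG6
import Pool.Agent.Lib.MP_07b2d0_nt.KH5

/-!
Local conditions for a curve with solvable Pell equation, and the global height bound.
-/

set_option autoImplicit false
set_option linter.unusedSectionVars false
set_option linter.unusedVariables false

namespace Pool.Agent.Lib.MP_07b2d0_nt.Ks

open NumberField Polynomial Finset Height

open Classical in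
/-- The local conditions for the two-coloured configuration `a`, `P`. -/
def LocP {K ι : Type} [Field K] [NumberField K] [Fintype ι] (N : ℕ) (a : ι → K) (P : ι → Prop) :
    Prop :=
  ∀ v : FinitePlace K, v (N : K) = 1 → Loc1 (fun z => v z) 2 a (fun _ => 1) ∧
    (∀ i j, P i → ¬ P j → ∀ p q, v (a p - a q) ≤ v (a i - a j)) ∧
    ∀ p q s, p ≠ q → p ≠ s → q ≠ s →
      Even (ord v ((a p - a q) * ∏ l ∈ ((univ.erase q).erase s).erase p, (a s - a l)))

theorem local_P {K F ι : Type} [Field K] [NumberField K] [Field F]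
    [Algebra (AlgebraicClosure K) F] [Fintype ι]
    (act : (AlgebraicClosure K ≃ₐ[K] AlgebraicClosure K) →* (F ≃+* F)) {N : ℕ} {x y : F}
    {a : ι → K}
    (hG : Gen 2 x y (1 : AlgebraicClosure K)
      (fun i => algebraMap K (AlgebraicClosure K) (a i)) fun _ => 1)
    (hc : ∀ σ z, act σ (algebraMap _ F z) = algebraMap _ F (σ z)) (hx : ∀ σ, act σ x = x)
    (hy : ∀ σ, act σ y = y) (hN : 2 ∣ N) (hT : TateHom K act 2 N)
    {u w : (AlgebraicClosure K)[X]} (hw : w ≠ 0)
    (e : u ^ 2 - (∏ i, (X - C (algebraMap K (AlgebraicClosure K) (a i)))) * w ^ 2 = 1) :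
    LocP N a fun i => u.eval (algebraMap K (AlgebraicClosure K) (a i)) = 1 := by
  classical
  intro v hv
  have hL := (local_K act (c := 1) (by rw [map_one]; exact hG) hc hx hy hN hT v hv).1
  obtain ⟨ν, Γ, hna, hext, hiso, hin, hfix⟩ := exists_loc K v
  obtain ⟨A, hA, hAσ⟩ := exists_valuationSubring (K := K) hna
  let α : Γ →* (AlgebraicClosure K ≃+* AlgebraicClosure K) :=
    { toFun := fun g => (g : AlgebraicClosure K ≃ₐ[K] AlgebraicClosure K).toRingEquiv
      map_one' := rfl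
      map_mul' := fun g h => rfl }
  have hα : ∀ (g : Γ) z, α g z = (g : AlgebraicClosure K ≃ₐ[K] AlgebraicClosure K) z :=
    fun g z => rfl
  let β : Γ →* (F ≃+* F) := act.comp Γ.subtype
  have hβ : ∀ g : Γ, β g = act g := fun g => rfl
  have hAct : Act α β x y :=
    ⟨fun g z => by rw [hβ, hα, hc], fun g => by rw [hβ, hx], fun g => by rw [hβ, hy]⟩
  have hK : ∀ (g : Γ) (u : K), α g (algebraMap K _ u) = algebraMap K _ u := fun g u => by
    rw [hα, AlgEquiv.commutes]
  have hnat : ∀ m : ℕ, ν (m : AlgebraicClosure K) = v (m : K) := fun m => by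
    rw [← hext, map_natCast (algebraMap K (AlgebraicClosure K))]
  have hNA : (N : AlgebraicClosure K)⁻¹ ∈ A := by
    rw [hA, map_inv₀, hnat, hv, inv_one]
  have hTors : Tors (AlgebraicClosure K) β 2 := by
    intro m
    refine ⟨m, fun φ hφ hd g => ?_⟩
    obtain ⟨τ, hτ, hτg⟩ := hAσ g (hiso g g.2) (hin g g.2)
    obtain ⟨ψ, hψ⟩ := hT A hNA τ hτ m φ hφ hd
    exact ⟨ψ, by rw [hβ, ← hτg]; exact hψ⟩
  have hℓ1 : ν ((2 : ℕ) : AlgebraicClosure K) = 1 := by
    rw [hnat]; exact fp_eq_one_of_dvd hN hv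
  have hq0 : (qv v : K) ≠ 0 := by
    have := two_le_qv v
    exact_mod_cast (by omega : qv v ≠ 0)
  have hν : NA ν 2 := by
    refine ⟨hna, hℓ1, ((qv v : ℕ) : AlgebraicClosure K)⁻¹, ?_⟩
    rw [map_inv₀, hnat]
    exact (one_lt_inv₀ (v.pos_iff.mpr hq0)).mpr (fp_qv_lt_one v)
  refine ⟨hL, fun i j hi hj p q => ?_, fun p q s hpq hps hqs => ?_⟩
  · have hL' : Loc1 ν 2 (fun i => algebraMap K (AlgebraicClosure K) (a i)) fun _ => 1 := by
      intro I J hd hw hI' hJ' hs hsep
      refine hL I J hd hw hI' hJ' hs ?_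
      intro i hi i' hi' j hj j' hj'
      have h2 := hsep i hi i' hi' j hj j' hj'
      simpa only [← map_sub, hext] using h2
    have h1 := pell_diam hν hL' hw e hi ((pa1_eval u w e j).resolve_left hj) p q
    simpa only [← map_sub, hext] using h1
  · obtain ⟨γ, hγ, hγℓ⟩ := hG.l3 hAct (fun g i => hK g (a i)) hTors hpq hps hqs
    obtain ⟨t, ht⟩ := hfix γ fun σ hσ => hγ ⟨σ, hσ⟩
    have h2 : v ((a p - a q) * ∏ l ∈ ((univ.erase q).erase s).erase p, (a s - a l)) =
        v (t ^ 2) := by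
      rw [← hext, map_pow v, ← ht, ← map_pow, hγℓ]
      simp only [map_mul, map_prod, map_sub]
    have h3 := congrArg Real.log h2
    rw [log_fp, log_fp, neg_inj, mul_left_inj' (log_qv_pos v).ne', ord_pow] at h3
    exact ⟨ord v t, by rw [← two_mul]; exact_mod_cast h3⟩

variable {K ι : Type} [Field K] [NumberField K] [Fintype ι] {N : ℕ} {a : ι → K} {P : ι → Prop}

theorem LocP.mono {N' : ℕ} (h : LocP N a P) (hN : N ∣ N') : LocP N' a P :=
  fun v hv => h v (fp_eq_one_of_dvd hN hv)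

theorem LocP.symm (h : LocP N a P) : LocP N a fun i => ¬ P i := fun v hv =>
  ⟨(h v hv).1, fun i j hi hj p q => by
    have h1 := (h v hv).2.1 j i (not_not.1 hj) hi p q
    rwa [show v (a j - a i) = v (a i - a j) from v.1.map_sub _ _] at h1, (h v hv).2.2⟩

theorem pa4_prod (v : FinitePlace K) (S : Finset ι) {z : ι → K} (h : ∀ i ∈ S, z i ≠ 0) :
    ord v (∏ i ∈ S, z i) = ∑ i ∈ S, ord v (z i) := by
  classical
  induction S using Finset.induction_on with
  | empty => simpa using (fp_eq_one_iff v one_ne_zero).1 (map_one v)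
  | insert j S hj ih =>
    rw [prod_insert hj, sum_insert hj, ord_mul v (h j (mem_insert_self _ _))
      (prod_ne_zero_iff.2 fun i hi => h i (mem_insert_of_mem hi)),
      ih fun i hi => h i (mem_insert_of_mem hi)]

theorem pa4_le (v : FinitePlace K) {z t : K} (hz : z ≠ 0) (ht : t ≠ 0) (h : v z ≤ v t) :
    ord v t ≤ ord v z := by
  have h1 : v (z / t) ≤ 1 := by
    rw [map_div₀]
    exact div_le_one_of_le₀ h (apply_nonneg v t)
  rw [fp_le_one_iff, ord_div v hz ht] at h1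
  omega

/-- The parity computation. -/
theorem pa4_par [DecidableEq ι] (P : ι → Prop) (d : ι → ι → ZMod 2)
    (h0 : ∀ i j, P i → ¬ P j → d i j = 0 ∧ d j i = 0)
    (h1 : ∀ p q s, p ≠ q → p ≠ s → q ≠ s →
      d p q + ∑ l ∈ ((univ.erase q).erase s).erase p, d s l = 0)
    {p q s : ι} (hpq : p ≠ q) (hp : P p) (hq : P q) (hs : ¬ P s) :
    d p q = ∑ l ∈ univ.erase s, d s l := by
  have hps : p ≠ s := fun e => hs (e ▸ hp)
  have hqs : q ≠ s := fun e => hs (e ▸ hq)
  have e1 := h1 p q s hpq hps hqs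
  rw [erase_right_comm (a := q) (b := s)] at e1
  rw [← add_sum_erase _ _ (mem_erase.2 ⟨hqs, mem_univ q⟩),
    ← add_sum_erase _ _ (mem_erase.2 ⟨hpq, mem_erase.2 ⟨hps, mem_univ p⟩⟩), (h0 p s hp hs).2,
    (h0 q s hq hs).2, zero_add, zero_add]
  have e2 : ∀ z t : ZMod 2, z + t = 0 → z = t := by decide
  exact e2 _ _ e1

theorem pa4_zero [DecidableEq ι] (P : ι → Prop) [DecidablePred P] (d : ι → ι → ZMod 2)
    (h0 : ∀ i j, P i → ¬ P j → d i j = 0 ∧ d j i = 0)
    (h1 : ∀ p q s, p ≠ q → p ≠ s → q ≠ s →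
      d p q + ∑ l ∈ ((univ.erase q).erase s).erase p, d s l = 0)
    (h2 : Even (univ.filter P).card → ∃ i i', i ≠ i' ∧ P i ∧ P i' ∧ d i i' = 0)
    (h3 : Even (Fintype.card ι))
    {p q s : ι} (hpq : p ≠ q) (hp : P p) (hq : P q) (hs : ¬ P s) : d p q = 0 := by
  rw [pa4_par P d h0 h1 hpq hp hq hs]
  by_cases he : Even (univ.filter P).card
  · obtain ⟨i, i', hii, hi, hi', e⟩ := h2 he
    rw [← pa4_par P d h0 h1 hii hi hi' hs, e]
  · have e1 : ∀ l ∈ (univ.filter fun l => ¬ P l).erase s, d s l = ∑ m ∈ univ.erase p, d p m :=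
      fun l hl => pa4_par (fun i => ¬ P i) d
        (fun i j hi hj => (h0 j i (not_not.1 hj) hi).symm) h1 (mem_erase.1 hl).1.symm hs
        (mem_filter.1 (mem_erase.1 hl).2).2 (not_not.2 hp)
    rw [← sum_subset (erase_subset_erase s (filter_subset (fun l => ¬ P l) univ))
      (fun l hl hl' => (h0 l s (by
        by_contra h4
        exact hl' (mem_erase.2 ⟨(mem_erase.1 hl).1, mem_filter.2 ⟨mem_univ _, h4⟩⟩)) hs).2),
      sum_congr rfl e1, sum_const, nsmul_eq_mul]
    have c1 := card_erase_add_one (s := univ.filter fun l => ¬ P l)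
      (mem_filter.2 ⟨mem_univ s, hs⟩)
    have c2 := card_filter_add_card_filter_not (s := (univ : Finset ι)) P
    rw [card_univ] at c2
    have c3 : 2 ∣ ((univ.filter fun l => ¬ P l).erase s).card := by
      rw [Nat.even_iff] at he h3
      omega
    rw [(ZMod.natCast_eq_zero_iff _ 2).2 c3, zero_mul]

theorem LocP.facts (h : LocP N a P) (ha : Function.Injective a) (h3 : Even (Fintype.card ι))
    {p q s : ι} (hpq : p ≠ q) (hp : P p) (hq : P q) (hs : ¬ P s) (v : FinitePlace K)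
    (hv : v (N : K) = 1) : 0 ≤ ord v ((a p - a q) / (a p - a s)) ∧
      ord v ((a s - a q) / (a p - a s)) = 0 ∧ (2 : ℤ) ∣ ord v ((a p - a q) / (a p - a s)) := by
  classical
  obtain ⟨l1, l2, l3⟩ := h v hv
  have hne : ∀ {i j}, P i → ¬ P j → a i - a j ≠ 0 := fun {i j} hi hj =>
    sub_ne ha fun e => hj (e ▸ hi)
  have hge : ∀ {i j}, i ≠ j → ord v (a p - a s) ≤ ord v (a i - a j) := fun {i j} hij =>
    pa4_le v (sub_ne ha hij) (hne hp hs) (l2 p s hp hs i j)
  have heq : ∀ {i j}, P i → ¬ P j → ord v (a i - a j) = ord v (a p - a s) := fun {i j} hi hj =>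
    le_antisymm (pa4_le v (hne hp hs) (hne hi hj) (l2 i j hi hj p s))
      (hge fun e => hj (e ▸ hi))
  have hsw : ∀ i j, ord v (a i - a j) = ord v (a j - a i) := fun i j => by
    rw [← ord_neg, neg_sub]
  have n1 := sub_ne ha hpq
  have n2 : a s - a q ≠ 0 := sub_ne ha fun e => hs (e ▸ hq)
  rw [ord_div v n1 (hne hp hs), ord_div v n2 (hne hp hs), hsw s q, heq hq hs]
  refine ⟨sub_nonneg.2 (hge hpq), sub_self _, ?_⟩
  rw [← Nat.cast_ofNat, ← ZMod.intCast_zmod_eq_zero_iff_dvd]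
  refine pa4_zero P (fun i j => ((ord v (a i - a j) - ord v (a p - a s) : ℤ) : ZMod 2))
    (fun i j hi hj => ?_) (fun i j m hij him hjm => ?_) (fun he => ?_) h3 hpq hp hq hs
  · simp only [hsw j i, heq hi hj, sub_self, Int.cast_zero, and_self]
  · have e1 := l3 i j m hij him hjm
    have hz : ∀ l ∈ ((univ.erase j).erase m).erase i, a m - a l ≠ 0 := fun l hl =>
      sub_ne ha (mem_erase.1 (mem_erase.1 hl).2).1.symm
    rw [ord_mul v (sub_ne ha hij) (prod_ne_zero_iff.2 hz), pa4_prod v _ hz] at e1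
    have c1 := card_erase_add_one (s := (univ.erase j).erase m)
      (mem_erase.2 ⟨him, mem_erase.2 ⟨hij, mem_univ i⟩⟩)
    have c2 := card_erase_add_one (s := univ.erase j) (mem_erase.2 ⟨hjm.symm, mem_univ m⟩)
    have c3 := card_erase_add_one (mem_univ j)
    rw [card_univ] at c3
    obtain ⟨S, hS⟩ : Odd (((univ.erase j).erase m).erase i).card := by
      rw [Nat.even_iff] at h3
      rw [Nat.odd_iff]
      omega
    rw [← Int.cast_sum, ← Int.cast_add, sum_sub_distrib, sum_const, hS, nsmul_eq_mul,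
      ZMod.intCast_zmod_eq_zero_iff_dvd]
    obtain ⟨T, hT⟩ := e1
    exact ⟨T - (S + 1) * ord v (a p - a s), by push_cast; linear_combination hT⟩
  · have e1 := l1 (univ.filter P) (univ.filter fun l => ¬ P l)
      (disjoint_filter_filter_not _ _ _) (fun m => by
        simp only [mem_filter, mem_univ, true_and, em, iff_true]
        omega) ⟨p, mem_filter.2 ⟨mem_univ _, hp⟩⟩ ⟨s, mem_filter.2 ⟨mem_univ _, hs⟩⟩
      (by rw [sum_const, smul_eq_mul, mul_one]; exact he.two_dvd)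
    simp only [Sep, not_forall, not_lt, mem_filter, mem_univ, true_and] at e1
    obtain ⟨i, hi, i', hi', j, hj, j', hj', e2⟩ := e1
    have p1 : 0 < v (a i - a j) := v.pos_iff.2 (hne hi hj)
    have p2 : 0 < v (a i' - a j') := v.pos_iff.2 (hne hi' hj')
    have e3 : v (a i - a j) ≤ v (a i - a i') := le_of_mul_le_mul_right
      (e2.trans (mul_le_mul_of_nonneg_left (l2 i' j' hi' hj' j j') (apply_nonneg v _))) p2
    have n3 : a i - a i' ≠ 0 := v.pos_iff.1 (p1.trans_le e3)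
    have hii : i ≠ i' := fun e => n3 (by rw [e, sub_self])
    refine ⟨i, i', hii, hi, hi', ?_⟩
    have e4 := pa4_le v (hne hi hj) n3 e3
    rw [heq hi hj] at e4
    simp only [le_antisymm e4 (hge hii), sub_self, Int.cast_zero]

theorem global_pell : ∃ c : ℕ → ℕ, Primrec c ∧ ∀ (K ι : Type) [Field K] [NumberField K]
    [Fintype ι] (n N : ℕ) (a : ι → K) (P : ι → Prop), Small K n N → Function.Injective a →
    Even (Fintype.card ι) → LocP N a P → (∃ i, P i) → (∃ j, ¬ P j) →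
    ∀ i j k l, logHeight₁ ((a i - a j) / (a k - a l)) ≤ c n := by
  obtain ⟨c, hc, H⟩ := kum_unit
  refine ⟨fun n => 6 * n + 4 * c n, pr_add (pr_mul (.const _) .id) (pr_mul (.const _) hc), ?_⟩
  rintro K ι _ _ _ n N a P s ha h3 hL ⟨i₀, hi₀⟩ ⟨j₀, hj₀⟩ i j k l
  have key : ∀ (P : ι → Prop), LocP N a P → ∀ p q m, P p → P q → ¬ P m →
      logHeight₁ ((a p - a q) / (a p - a m)) ≤ c n := by
    intro P hL p q m hp hq hm
    by_cases hpq : p = q
    · rw [hpq, sub_self, zero_div, logHeight₁_zero]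
      exact Nat.cast_nonneg _
    have n1 : a p - a m ≠ 0 := sub_ne ha fun e => hm (e ▸ hp)
    have n2 : a m - a q ≠ 0 := sub_ne ha fun e => hm (e ▸ hq)
    refine H K n N 2 _ s Nat.prime_two s.h2
      (mem_RN_iff_ord.2 fun v hv => (hL.facts ha h3 hpq hp hq hm v hv).1) ?_
      fun v hv => (hL.facts ha h3 hpq hp hq hm v hv).2.2
    rw [div_sub_one n1, sub_sub_sub_cancel_left]
    exact isU_of_ord (div_ne_zero n2 n1) fun v hv => (hL.facts ha h3 hpq hp hq hm v hv).2.1
  have n0 : a i₀ - a j₀ ≠ 0 := sub_ne ha fun e => hj₀ (e ▸ hi₀)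
  have n0' : a j₀ - a i₀ ≠ 0 := sub_ne ha fun e => hj₀ (e ▸ hi₀)
  have hn : (0 : ℝ) ≤ n := Nat.cast_nonneg _
  have hb : ∀ p, logHeight₁ ((a i₀ - a p) / (a i₀ - a j₀)) ≤ n + c n := fun p => by
    by_cases hp : P p
    · linarith [key P hL i₀ p j₀ hi₀ hp hj₀]
    · have h1 := key _ hL.symm j₀ p i₀ hj₀ hp (not_not.2 hi₀)
      have h2 := h_sub_le s.hD 1 ((a j₀ - a p) / (a j₀ - a i₀))
      have e : 1 - (a j₀ - a p) / (a j₀ - a i₀) = (a i₀ - a p) / (a i₀ - a j₀) := by
        field_simp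
        ring
      rw [logHeight₁_one, e] at h2
      linarith
  have hd : ∀ p q, logHeight₁ ((a p - a q) / (a i₀ - a j₀)) ≤ 3 * n + 2 * c n := fun p q => by
    have h2 := h_sub_le s.hD ((a i₀ - a q) / (a i₀ - a j₀)) ((a i₀ - a p) / (a i₀ - a j₀))
    rw [← sub_div, sub_sub_sub_cancel_left] at h2
    linarith [hb p, hb q]
  have h4 := h_div_le ((a i - a j) / (a i₀ - a j₀)) ((a k - a l) / (a i₀ - a j₀))
  rw [div_div_div_cancel_right₀ n0] at h4
  push_cast
  linarith [hd i j, hd k l]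

end Pool.Agent.Lib.MP_07b2d0_nt.Ks
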