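import Mathlib

/-!
Rationality of the four-torsion of a hyperelliptic Jacobian.
-/

set_option autoImplicit false

namespace Pool.Agent.Lib.MP_07b2d0_nt

open Polynomial Ideal QuadraticAlgebra

/-- The affine coordinate ring of the curve `y ^ 2 = f x` over an algebraic closure of `L`. -/
abbrev CoordRing {L : Type} [Field L] (f : L[X]) : Type :=
  QuadraticAlgebra (AlgebraicClosure L)[X] (f.map (algebraMap L (AlgebraicClosure L))) 0

/-- Every ideal class of `CoordRing f` killed by `4` is fixed by the absolute Galois group. -/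
def FourTorsionRational {L : Type} [Field L] (f : L[X]) : Prop :=
  ∀ (σ : AlgebraicClosure L ≃ₐ[L] AlgebraicClosure L) (τ : CoordRing f →+* CoordRing f),
    (∀ p : (AlgebraicClosure L)[X], τ (algebraMap _ _ p) =
      algebraMap _ _ (p.map (σ : AlgebraicClosure L →+* AlgebraicClosure L))) → τ ω = ω →
    ∀ I : Ideal (CoordRing f), I ≠ ⊥ → (I ^ 4).IsPrincipal →
      ∃ x y : CoordRing f, x ≠ 0 ∧ y ≠ 0 ∧ span {x} * I.map τ = span {y} * I

end Pool.Agent.Lib.MP_07b2d0_nt
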