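import Mathlib
import Pool.Agent.Lib.MP_07b2d0_nt.Tors

/-!
Halving a Weierstrass point on a hyperelliptic Jacobian (Zarhin's formulas).
-/

set_option autoImplicit false

namespace Pool.Agent.Lib.MP_07b2d0_nt

open Polynomial Ideal QuadraticAlgebra

section Ring

variable {R : Type} [CommRing R] {z U O y t : R}

theorem ideal_mul_conj {V : R} (hy : y * y = z * U ^ 2 + V ^ 2) (ht : 2 * t = 1)
    (hc : IsCoprime U V) : span {U, y - V} * span {U, y + V} = span {U} := by
  obtain ⟨α, β, h⟩ := hc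
  apply le_antisymm
  · rw [span_pair_mul_span_pair, span_le]
    rintro x (rfl | rfl | rfl | rfl) <;> rw [SetLike.mem_coe, mem_span_singleton]
    · exact ⟨U, rfl⟩
    · exact ⟨_, rfl⟩
    · exact ⟨y - V, by ring⟩
    · exact ⟨z * U, by linear_combination hy⟩
  · have h1 : U ∈ span {U, y - V} := subset_span (by simp)
    have h2 : y - V ∈ span {U, y - V} := subset_span (by simp)
    have h3 : U ∈ span {U, y + V} := subset_span (by simp)
    have h4 : y + V ∈ span {U, y + V} := subset_span (by simp)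
    rw [span_singleton_le_iff_mem]
    have e : U = α * (U * U) + β * t * (U * (y + V) - (y - V) * U) := by
      linear_combination (-U) * h - (β * U * V) * ht
    have := add_mem (mul_mem_left _ α (mul_mem_mul h1 h3))
      (mul_mem_left _ (β * t) (sub_mem (mul_mem_mul h1 h4) (mul_mem_mul h2 h3)))
    rwa [← e] at this

theorem ideal_pow_four [IsDomain R] (hy : y * y = z * U ^ 2 + (z * O) ^ 2) (ht : 2 * t = 1)
    (hc : IsCoprime U (z * O)) (hz : z ≠ 0) :
    span {U, y - z * O} ^ 4 = span {U ^ 2 + 2 * z * O ^ 2 - 2 * y * O} := by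
  obtain ⟨s, hs⟩ : ∃ s, s = y - z * O := ⟨_, rfl⟩
  rw [← hs]
  have h1 : U ∈ span {U, s} := subset_span (by simp)
  have h2 : s ∈ span {U, s} := subset_span (by simp)
  have h3 : z ∈ span {z, s} := subset_span (by simp)
  have h4 : s ∈ span {z, s} := subset_span (by simp)
  have hzU : IsCoprime z (U ^ 2) := hc.of_mul_right_left.symm.pow_right
  have e1 : span {z, s} * (span {U, s} * span {U, s}) = span {s} := by
    apply le_antisymm
    · rw [span_pair_mul_span_pair, span_mul_span', span_le]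
      rintro x ⟨a, rfl | rfl, b, hb, rfl⟩ <;> rw [SetLike.mem_coe, mem_span_singleton]
      · rcases hb with rfl | rfl | rfl | rfl
        · exact ⟨y + a * O, by rw [hs]; linear_combination -hy⟩
        · exact ⟨a * U, by ring⟩
        · exact ⟨a * U, by ring⟩
        · exact ⟨a * s, by ring⟩
      · exact ⟨b, rfl⟩
    · obtain ⟨α, β, h⟩ : IsCoprime (U ^ 2) (z * (z * O)) := hzU.symm.mul_right hc.pow_left
      rw [span_singleton_le_iff_mem]
      have e : s = α * (s * (U * U)) + β * t * (z * (z * (U * U)) - z * (s * s)) := by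
        rw [hs]
        linear_combination (z * O - y) * h + β * t * z * hy - β * z * z * O * (y - z * O) * ht
      nth_rewrite 4 [e]
      exact add_mem (mul_mem_left _ _ (mul_mem_mul h4 (mul_mem_mul h1 h1)))
        (mul_mem_left _ _ (sub_mem (mul_mem_left _ _ (mul_mem_mul h3 (mul_mem_mul h1 h1)))
          (mul_mem_mul h3 (mul_mem_mul h2 h2))))
  have e0 : s * s = z * (U ^ 2 + 2 * z * O ^ 2 - 2 * y * O) := by rw [hs]; linear_combination hy
  have e2 : span {z, s} * span {z, s} = span {z} := by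
    apply le_antisymm
    · rw [span_pair_mul_span_pair, span_le]
      rintro x (rfl | rfl | rfl | rfl) <;> rw [SetLike.mem_coe, mem_span_singleton]
      · exact ⟨z, rfl⟩
      · exact ⟨s, rfl⟩
      · exact ⟨s, by ring⟩
      · exact ⟨_, e0⟩
    · obtain ⟨α, β, h⟩ := hzU
      rw [span_singleton_le_iff_mem]
      have e : z = α * (z * z) + β * (s * s + 2 * O * (z * s)) := by
        rw [hs]
        linear_combination (-z) * h - β * hy
      nth_rewrite 3 [e]
      exact add_mem (mul_mem_left _ _ (mul_mem_mul h3 h3)) (mul_mem_left _ _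
        (add_mem (mul_mem_mul h4 h4) (mul_mem_left _ _ (mul_mem_mul h3 h4))))
  rw [← span_singleton_mul_right_inj hz, span_singleton_mul_span_singleton, ← e0,
    ← span_singleton_mul_span_singleton, ← e1, ← e2]
  ring

end Ring

/-- Ring homomorphisms out of a quadratic algebra. -/
def qlift {P A : Type} [CommRing P] [CommRing A] {a : P} (ψ : P →+* A) (s : A)
    (h : s * s = ψ a) : QuadraticAlgebra P a 0 →+* A where
  toFun w := ψ w.re + ψ w.im * s
  map_one' := by simp
  map_mul' w w' := by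
    simp only [re_mul, im_mul, map_add, map_mul, map_zero]
    linear_combination (-(ψ w.im * ψ w'.im)) * h
  map_zero' := by simp
  map_add' w w' := by simp only [re_add, im_add, map_add]; ring

theorem qlift_apply {P A : Type} [CommRing P] [CommRing A] {a : P} (ψ : P →+* A) (s : A)
    (h : s * s = ψ a) (w : QuadraticAlgebra P a 0) : qlift ψ s h w = ψ w.re + ψ w.im * s := rfl

variable {F : Type} [Field F]

theorem natDegree_sq_sub {f p q : F[X]} (hf : Odd f.natDegree) (hq : q ≠ 0) :
    (p * p - f * q * q).natDegree = max (2 * p.natDegree) (f.natDegree + 2 * q.natDegree) := by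
  have hf0 : f ≠ 0 := by rintro rfl; simp at hf
  have h1 : (p * p).natDegree = 2 * p.natDegree := by rw [← sq, natDegree_pow]
  have h2 : (f * q * q).natDegree = f.natDegree + 2 * q.natDegree := by
    rw [natDegree_mul (mul_ne_zero hf0 hq) hq, natDegree_mul hf0 hq]; ring
  obtain ⟨k, hk⟩ := hf
  rcases lt_or_gt_of_ne (show (p * p).natDegree ≠ (f * q * q).natDegree by omega) with h | h
  · rw [natDegree_sub_eq_right_of_natDegree_lt h]; omega
  · rw [natDegree_sub_eq_left_of_natDegree_lt h]; omega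

theorem norm_eq {f : F[X]} (w : QuadraticAlgebra F[X] f 0) :
    w.norm = w.re * w.re - f * w.im * w.im := by simp [norm_def]

theorem isDomain_of_odd {f : F[X]} (hf : Odd f.natDegree) :
    IsDomain (QuadraticAlgebra F[X] f 0) := by
  have key : ∀ w : QuadraticAlgebra F[X] f 0, w.norm = 0 → w = 0 := by
    intro w hw
    rw [norm_eq] at hw
    have h1 : w.im = 0 := by
      by_contra h
      have := natDegree_sq_sub (p := w.re) hf h
      rw [hw, natDegree_zero] at this
      obtain ⟨k, hk⟩ := hf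
      omega
    ext1
    · simpa [h1] using hw
    · simpa using h1
  have : NoZeroDivisors (QuadraticAlgebra F[X] f 0) := ⟨fun {a b} h => by
    have h1 : a.norm * b.norm = 0 := by rw [← map_mul, h, QuadraticAlgebra.norm_zero]
    exact (mul_eq_zero.mp h1).imp (key a) (key b)⟩
  exact NoZeroDivisors.to_isDomain _

theorem coprime_of_squarefree {f z U O : F[X]} (hf : Squarefree f)
    (h : f = z * U ^ 2 + (z * O) ^ 2) : IsCoprime U (z * O) := by
  refine isCoprime_of_prime_dvd (fun h0 => hf.ne_zero (by rw [h, h0.1, h0.2]; simp))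
    fun p hp h1 h2 => hp.not_isUnit (hf p ?_)
  rw [h, sq, sq]
  exact dvd_add ((mul_dvd_mul h1 h1).mul_left _) (mul_dvd_mul h2 h2)

/-- The ideal with Mumford representation `(U, V)`. -/
noncomputable def mum (f U V : F[X]) : Ideal (QuadraticAlgebra F[X] f 0) :=
  span {algebraMap _ _ U, ω - algebraMap _ _ V}

theorem dvd_of_mem_mum {f z U V p : F[X]} (h : f = z * U ^ 2 + V ^ 2)
    (hp : algebraMap _ _ p ∈ mum f U V) : U ∣ p := by
  obtain ⟨α, β, e⟩ := mem_span_pair.mp hp
  have e1 := congrArg QuadraticAlgebra.re e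
  have e2 := congrArg QuadraticAlgebra.im e
  simp at e1 e2
  exact ⟨α.re + β.im * z * U + α.im * V, by
    linear_combination -e1 - V * e2 + β.im * h⟩

variable [CharZero F]

theorem mum_unique {f z U O U' O' : F[X]} {g : ℕ} (hf : Squarefree f)
    (hd : f.natDegree = 2 * g + 1) (h : f = z * U ^ 2 + (z * O) ^ 2)
    (h' : f = z * U' ^ 2 + (z * O') ^ 2) (hU : U.natDegree = g) (hU' : U'.natDegree = g)
    (hl : U'.leadingCoeff = U.leadingCoeff) (hU0 : U ≠ 0) (hO : O.degree < U.degree)
    (hO' : O'.degree < U.degree) {x y : QuadraticAlgebra F[X] f 0} (hx : x ≠ 0)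
    (hxy : span {x} * mum f U' (z * O') = span {y} * mum f U (z * O)) : U' = U ∧ O' = O := by
  have hodd : Odd f.natDegree := ⟨g, hd⟩
  have := isDomain_of_odd hodd
  have hU0' : U' ≠ 0 := fun h0 => hU0 (leadingCoeff_eq_zero.mp (by rw [← hl, h0]; simp))
  obtain ⟨ι, hι⟩ : ∃ ι, ι = algebraMap F[X] (QuadraticAlgebra F[X] f 0) := ⟨_, rfl⟩
  have hι0 : ∀ {p : F[X]}, p ≠ 0 → ι p ≠ 0 := fun {p} hp h0 =>
    hp (algebraMap_injective (by rw [← hι, h0, map_zero]))
  have ht : 2 * ι (C 2⁻¹) = 1 := by
    rw [← map_ofNat ι, ← map_mul, ← map_ofNat C, ← map_mul, mul_inv_cancel₀ two_ne_zero]; simp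
  have hsU : ∀ U, starRingEnd _ (ι U) = ι U := fun U => by
    rw [hι, starRingEnd_apply]; ext1 <;> simp
  have hconj : ∀ {U O : F[X]}, f = z * U ^ 2 + (z * O) ^ 2 →
      mum f U (z * O) * (mum f U (z * O)).map (starRingEnd _) = span {ι U} := by
    intro U O h
    have e1 : (mum f U (z * O)).map (starRingEnd _) = span {ι U, ω + ι (z * O)} := by
      have e2 : starRingEnd _ (ω - ι (z * O)) = -(ω + ι (z * O)) := by
        rw [map_sub, hsU, starRingEnd_apply]; ext1 <;> simp [hι]
      rw [mum, map_span, Set.image_pair, ← hι, hsU, e2, span_pair_comm, span_insert_neg,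
        span_pair_comm]
    rw [e1, mum, ← hι]
    refine ideal_mul_conj (z := ι z) ?_ ht ((coprime_of_squarefree hf h).map ι)
    rw [omega_mul_omega_eq_mk, ← map_pow, ← map_pow, ← map_mul, ← map_add, ← h, hι]
    rfl
  obtain ⟨I, hI⟩ : ∃ I, I = mum f U (z * O) := ⟨_, rfl⟩
  obtain ⟨I', hI'⟩ : ∃ I', I' = mum f U' (z * O') := ⟨_, rfl⟩
  have c1 := hconj h
  have c2 := hconj h'
  rw [← hI] at hxy c1
  rw [← hI'] at hxy c2
  have m1 : ι U ∈ I := by rw [hI, hι]; exact subset_span (by simp)
  have m2 : ω - ι (z * O) ∈ I := by rw [hI, hι]; exact subset_span (by simp)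
  have m3 : ι U' ∈ I' := by rw [hI', hι]; exact subset_span (by simp)
  have m4 : ω - ι (z * O') ∈ I' := by rw [hI', hι]; exact subset_span (by simp)
  obtain ⟨w, -, hw⟩ := mem_span_singleton_mul.mp
    (hxy.ge (mul_mem_mul (mem_span_singleton_self y) m1))
  have e1 : span {w} * I = span {ι U} * I' := by
    rw [← span_singleton_mul_right_inj hx, ← mul_assoc, span_singleton_mul_span_singleton, hw,
      mul_left_comm, hxy, ← mul_assoc, span_singleton_mul_span_singleton, mul_comm y]
  have e2 := congrArg (Ideal.map (starRingEnd _)) e1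
  rw [Ideal.map_mul, Ideal.map_mul, map_span, map_span, Set.image_singleton, Set.image_singleton,
    hsU] at e2
  have e3 : span {ι w.norm} = span {ι (U * U')} := by
    rw [← span_singleton_mul_right_inj (hι0 hU0), hι, algebraMap_norm_eq_mul_star, ← hι, map_mul,
      ← span_singleton_mul_span_singleton, ← span_singleton_mul_span_singleton]
    calc _ = (span {w} * I) * (span {starRingEnd _ w} * I.map (starRingEnd _)) := by
          rw [← c1, starRingEnd_apply]; ring
      _ = _ := by rw [e1, e2, ← c2]; ring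
  have e4 : w.norm ∣ U * U' := by
    have := (span_singleton_eq_span_singleton.mp e3).dvd
    rwa [hι, algebraMap_dvd_iff_dvd] at this
  have e5 : w.im = 0 := by
    by_contra h0
    have := natDegree_le_of_dvd e4 (mul_ne_zero hU0 hU0')
    rw [norm_eq, natDegree_sq_sub hodd h0, natDegree_mul hU0 hU0'] at this
    omega
  have e6 : w = ι w.re := by rw [hι]; ext1 <;> simp [e5]
  have key : ∀ {p q V : F[X]} {J J' : Ideal (QuadraticAlgebra F[X] f 0)},
      span {ι p} * J = span {ι q} * J' → ω - ι V ∈ J → q ∣ p := by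
    intro p q V J J' e m
    obtain ⟨k, -, hk⟩ := mem_span_singleton_mul.mp (e.le (mul_mem_mul (mem_span_singleton_self _) m))
    have := congrArg QuadraticAlgebra.im hk
    rw [hι] at this
    exact ⟨k.im, by simpa using this.symm⟩
  rw [e6] at e1
  have e7 : span {ι w.re} = span {ι U} := span_singleton_eq_span_singleton.mpr
    ((associated_of_dvd_dvd (key e1.symm m4) (key e1 m2)).map ι)
  rw [e7, span_singleton_mul_right_inj (hι0 hU0)] at e1
  have e8 : U ∣ U' := dvd_of_mem_mum h (by rw [← hI, e1, ← hι]; exact m3)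
  have e9 : U ∣ z * (O' - O) := dvd_of_mem_mum h (by
    rw [← hI, ← hι]
    have := sub_mem m2 (e1 ▸ m4)
    rwa [sub_sub_sub_cancel_left, ← map_sub, ← mul_sub] at this)
  refine ⟨(eq_of_dvd_of_natDegree_le_of_leadingCoeff e8 (by omega) hl.symm).symm, ?_⟩
  exact sub_eq_zero.mp (eq_zero_of_dvd_of_degree_lt
    ((coprime_of_squarefree hf h).of_mul_right_left.dvd_of_dvd_mul_left e9)
    ((degree_sub_le _ _).trans_lt (max_lt hO' hO)))

theorem two_mul_half (f : F[X]) :
    2 * algebraMap F[X] (QuadraticAlgebra F[X] f 0) (C 2⁻¹) = 1 := by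
  rw [← map_ofNat (algebraMap F[X] (QuadraticAlgebra F[X] f 0)), ← map_mul, ← map_ofNat C,
    ← map_mul, mul_inv_cancel₀ two_ne_zero]
  simp

theorem fix_sqrt {g : ℕ} {b r : Fin (2 * g + 1) → F} (hbi : Function.Injective b)
    {i j : Fin (2 * g + 1)} (hij : i ≠ j) (hr : ∀ k, r k ^ 2 = b i - b k) {σ : F →+* F}
    (hσ : ∀ k, σ (b k) = b k) {f : F[X]} (hf' : f = ∏ k, (X - C (b k)))
    (h : ∀ τ : QuadraticAlgebra F[X] f 0 →+* QuadraticAlgebra F[X] f 0,
      (∀ p : F[X], τ (algebraMap _ _ p) = algebraMap _ _ (p.map σ)) → τ ω = ω →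
      ∀ I : Ideal (QuadraticAlgebra F[X] f 0), I ≠ ⊥ → (I ^ 4).IsPrincipal →
        ∃ x y : QuadraticAlgebra F[X] f 0, x ≠ 0 ∧ y ≠ 0 ∧ span {x} * I.map τ = span {y} * I) :
    σ (r j) = r j := by
  classical
  obtain ⟨z, hz⟩ : ∃ z : F[X], z = X - C (b i) := ⟨_, rfl⟩
  have hsq : Squarefree f := hf' ▸ (separable_prod_X_sub_C_iff.mpr hbi).squarefree
  have hd : f.natDegree = 2 * g + 1 := by rw [hf', natDegree_finsetProd_X_sub_C_eq_card]; simp
  have hzd : z.natDegree = 1 := hz ▸ natDegree_X_sub_C _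
  obtain ⟨π, hπ⟩ : ∃ π : QuadraticAlgebra F[X] (-z) 0,
      π = ∏ k ∈ Finset.univ.erase i, (algebraMap _ _ (C (r k)) + ω) := ⟨_, rfl⟩
  have hn : π.re * π.re - -z * π.im * π.im = ∏ k ∈ Finset.univ.erase i, (X - C (b k)) := by
    rw [← norm_eq, hπ, map_prod]
    refine Finset.prod_congr rfl fun k _ => ?_
    simp only [norm_eq, re_add, im_add, algebraMap_re, algebraMap_im, omega_re, omega_im]
    rw [add_zero, ← map_mul, ← sq, hr, hz, map_sub]
    ring
  obtain ⟨U, hU⟩ : ∃ U, U = π.re := ⟨_, rfl⟩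
  obtain ⟨O, hO⟩ : ∃ O, O = π.im := ⟨_, rfl⟩
  rw [← hU, ← hO] at hn
  have h1 : f = z * U ^ 2 + (z * O) ^ 2 := by
    rw [hf', ← Finset.mul_prod_erase _ _ (Finset.mem_univ i), ← hn, ← hz]; ring
  have hm : (U * U - -z * O * O).Monic := hn ▸ monic_prod_X_sub_C _ _
  have hd1 : (U * U - -z * O * O).natDegree = 2 * g := by
    rw [hn, natDegree_finsetProd_X_sub_C_eq_card]; simp
  have hzo : Odd (-z).natDegree := by rw [natDegree_neg, hzd]; exact odd_one
  have h2 : U.natDegree = g ∧ (O = 0 ∨ O.natDegree < g) := by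
    by_cases h0 : O = 0
    · rw [h0, mul_zero, sub_zero, ← sq, natDegree_pow] at hd1
      exact ⟨by omega, Or.inl h0⟩
    · rw [natDegree_sq_sub hzo h0, natDegree_neg, hzd] at hd1
      exact ⟨by omega, Or.inr (by omega)⟩
  have hU0 : U ≠ 0 := by
    rintro rfl
    exact (hz ▸ not_isUnit_X_sub_C (b i)) (hsq z ⟨O ^ 2, by rw [h1]; ring⟩)
  have h3 : O.degree < U.degree := by
    rcases h2.2 with h0 | h0
    · rw [h0, degree_zero]; exact bot_lt_iff_ne_bot.mpr (degree_ne_bot.mpr hU0)
    · exact degree_lt_degree (h2.1 ▸ h0)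
  have h4 : U.leadingCoeff * U.leadingCoeff = 1 := by
    rw [← leadingCoeff_mul, ← hm.leadingCoeff, leadingCoeff_sub_of_degree_lt]
    rcases h2.2 with h0 | h0
    · rw [h0, mul_zero, degree_zero]
      exact bot_lt_iff_ne_bot.mpr (degree_ne_bot.mpr (mul_ne_zero hU0 hU0))
    · refine degree_lt_degree (lt_of_le_of_lt (natDegree_mul_le.trans
        (add_le_add_left natDegree_mul_le _)) ?_)
      rw [natDegree_mul hU0 hU0, natDegree_neg]
      omega
  have hσi : Function.Injective σ := RingHom.injective _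
  have hzσ : z.map σ = z := by simp [hz, hσ]
  have hfσ : f.map σ = f := by simp [hf', Polynomial.map_prod, hσ]
  have := isDomain_of_odd (f := f) ⟨g, hd⟩
  obtain ⟨x, y, hx, -, hxy⟩ := h (qlift ((algebraMap _ _).comp (mapRingHom σ)) ω
    (by rw [RingHom.comp_apply, coe_mapRingHom, hfσ, omega_mul_omega_eq_mk]; rfl))
    (fun p => by simp [qlift_apply]) (by simp [qlift_apply]) (mum _ U (z * O))
    (fun h0 => hU0 (algebraMap_injective (by
      rw [map_zero, ← Ideal.mem_bot, ← h0]; exact subset_span (by simp))))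
    ⟨_, by
      rw [mum, map_mul]
      refine ideal_pow_four (t := algebraMap _ _ (C (2⁻¹ : F))) ?_ ?_ ?_ ?_
      · rw [omega_mul_omega_eq_mk, ← map_mul, ← map_pow, ← map_pow, ← map_mul, ← map_add, ← h1]
        rfl
      · exact two_mul_half f
      · rw [← map_mul]; exact (coprime_of_squarefree hsq h1).map _
      · exact fun h0 => X_sub_C_ne_zero (b i) (hz ▸ algebraMap_injective (h0.trans (map_zero _).symm))⟩
  obtain ⟨e1, e2⟩ := mum_unique (U' := U.map σ) (O' := O.map σ) hsq hd h1
    (by rw [← hfσ, h1]; simp [hzσ]) h2.1 (by rw [natDegree_map_eq_of_injective hσi, h2.1])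
    (by
      rw [leadingCoeff_map_of_injective hσi]
      rcases mul_self_eq_one_iff.mp h4 with h5 | h5 <;> simp [h5]) hU0 h3
    (by rwa [degree_map_eq_of_injective hσi]) hx (by
      rw [← hxy, mum, mum, map_span, Set.image_pair]
      simp [qlift_apply, hzσ, neg_add_eq_sub])
  have e3 := congrArg (qlift (evalRingHom (b j)) (-r j) (a := -z) (by
    rw [neg_mul_neg, ← sq, hr, hz]; simp)) hπ
  have e4 := congrArg (qlift ((evalRingHom (b j)).comp (mapRingHom σ)) (-r j)
    (a := -z) (by rw [neg_mul_neg, ← sq, hr, hz]; simp [hσ])) hπ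
  rw [map_prod, qlift_apply, ← hU, ← hO] at e3 e4
  rw [RingHom.comp_apply, RingHom.comp_apply, coe_mapRingHom, e1, e2, e3,
    Finset.prod_eq_zero (i := j) (by simp [hij.symm]) (by simp [qlift_apply]), eq_comm,
    Finset.prod_eq_zero_iff] at e4
  obtain ⟨k, -, hk⟩ := e4
  have e5 : σ (r k) = r j := by simpa [qlift_apply, add_neg_eq_zero] using hk
  have e6 : k = j := hbi (by
    have := congrArg (· ^ 2) e5
    simp only [← map_pow, hr, map_sub, hσ] at this
    exact sub_right_injective this)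
  rw [← e5, e6]
  exact congrArg σ (e6 ▸ e5)

theorem isSquare_of_fourTorsion {g : ℕ} {a : Fin (2 * g + 1) → F} (ha : Function.Injective a)
    (h : FourTorsionRational (∏ i, (X - C (a i)))) {i j : Fin (2 * g + 1)} (hij : i ≠ j) :
    IsSquare (a i - a j) := by
  obtain ⟨b, hb⟩ : ∃ b : Fin (2 * g + 1) → AlgebraicClosure F,
      ∀ k, b k = algebraMap F _ (a k) := ⟨_, fun _ => rfl⟩
  have hbi : Function.Injective b := fun k l e =>
    ha ((algebraMap F (AlgebraicClosure F)).injective (by rwa [← hb, ← hb]))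
  choose r hr using fun k => IsAlgClosed.exists_pow_nat_eq (b i - b k) two_pos
  obtain ⟨s, hs⟩ := (InfiniteGalois.mem_range_algebraMap_iff_fixed (k := F) (r j)).mpr fun σ =>
    fix_sqrt (σ := σ) hbi hij hr (fun k => by rw [hb]; exact σ.commutes _)
      (by simp [Polynomial.map_prod, hb]) (h σ)
  refine ⟨s, (algebraMap F (AlgebraicClosure F)).injective ?_⟩
  rw [map_mul, hs, ← sq, hr, map_sub, hb, hb]

end Pool.Agent.Lib.MP_07b2d0_nt
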