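import Mathlib
import Pool.Agent.Lib.MP_07b2d0_nt.KH5

set_option autoImplicit false
set_option linter.unusedSectionVars false
set_option linter.unusedVariables false

namespace Pool.Agent.Lib.MP_07b2d0_nt.Ks

open Finset Real NumberField Height Module Polynomial

variable {K ι : Type} [Field K] [NumberField K]

theorem kh6_sub_le (v : FinitePlace K) (x y : K) : v (x - y) ≤ max (v x) (v y) := by
  have h := v.add_le x (-y)
  rwa [map_neg_eq_map, ← sub_eq_add_neg] at h

theorem kh6_sub_eq (v : FinitePlace K) {x y : K} (hx : v x ≤ 1) (hy : 1 < v y) :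
    v (x - y) = v y := by
  refine le_antisymm ((kh6_sub_le v x y).trans (max_le (hx.trans hy.le) le_rfl)) ?_
  have h := kh6_sub_le v x (x - y)
  rw [sub_sub_cancel] at h
  exact (le_max_iff.1 h).resolve_left (hx.trans_lt hy).not_ge

theorem kh6_int (v : FinitePlace K) {s : Set K} (hs : ∀ z ∈ s, v z ≤ 1) {x : K}
    (hx : IsIntegral (Algebra.adjoin ℤ s) x) : v x ≤ 1 := by
  have hle : Algebra.adjoin ℤ s ≤ subalgebraOfSubring (v.maximalIdeal.valuation K).integer :=
    Algebra.adjoin_le fun z hz => (fp_le_one_iff_val v z).1 (hs z hz)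
  have h := hx.map_of_comp_eq ((Algebra.adjoin ℤ s).val.toRingHom.codRestrict
    (v.maximalIdeal.valuation K).integer fun z => hle z.2) (RingHom.id K) rfl
  exact (fp_le_one_iff_val v x).2
    ((Valuation.integer.integers (v.maximalIdeal.valuation K)).isIntegral_iff_v_le_one.1 h)

theorem kh6_lt (v : FinitePlace K) {x : K} (hx : v x ≤ 1) (h : ord v x ≠ 0) : v x < 1 := by
  have h0 : x ≠ 0 := fun e => h (by simp [ord, e])
  exact (fp_lt_one_iff v h0).2 (lt_of_le_of_ne ((fp_le_one_iff v x).1 hx) h.symm)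

theorem kh6_unit {M : ℕ} {z : K} (h : IsU M z) {v : FinitePlace K} (hv : v (M : K) = 1) :
    ord v z = 0 := by
  have h1 := (fp_le_one_iff v _).1 (h.2.1 v hv)
  have h2 := (fp_le_one_iff v _).1 (h.2.2 v hv)
  rw [ord_inv] at h2
  omega

theorem kh6_cr {b : ι → K} (hb : Function.Injective b) (v : FinitePlace K)
    {i j k l : ι} (h : [i, j, k, l].Nodup) : ord v (cr b i j k l) =
      ord v (b i - b j) + ord v (b k - b l) - ord v (b i - b k) - ord v (b j - b l) := by
  obtain ⟨h1, h2, -, -, h5, h6⟩ := nodup4.mp h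
  rw [cr, ord_div v (mul_ne_zero (sub_ne hb h1) (sub_ne hb h6))
    (mul_ne_zero (sub_ne hb h2) (sub_ne hb h5)), ord_mul v (sub_ne hb h1) (sub_ne hb h6),
    ord_mul v (sub_ne hb h2) (sub_ne hb h5)]
  ring

/-- Let `I = {i | v (a i) ≤ 1}`, `J = Iᶜ`.  The elements with `v z ≤ 1` form a subring containing
the generators, which is integrally closed in `K` (ultrametric inequality, or the valuation
subring of `v.maximalIdeal.valuation K`, `fp_le_one_iff_val`), so `hcl` applies to `I`.  If `J` is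
nonempty then `Sep` holds: `v (a i - a i') ≤ 1`, `v (a i - a j) = v (a j) > 1` and
`v (a j - a j') ≤ max (v (a j)) (v (a j')) < v (a j) * v (a j')`. -/
theorem integral_all [Fintype ι] {ℓ M B : ℕ} {a : ι → K} {w : ι → ℕ} (hw : ∀ i, ¬ ℓ ∣ w i)
    (hL : LocK ℓ M a w) (hM : (3 ^ B).factorial ∣ M)
    (hcl : ∀ I : Finset ι, (∀ j ∉ I, ¬ IsIntegral
      (Algebra.adjoin ℤ (a '' I ∪ {z | logHeight₁ z ≤ B})) (a j)) → ℓ ∣ ∑ i ∈ I, w i)
    {p : ι} (hp : logHeight₁ (a p) ≤ B) (i : ι) : a i ∈ RN K M := by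
  classical
  intro v hv
  by_contra hi
  have hB : ∀ z : K, logHeight₁ z ≤ B → v z ≤ 1 := fun z hz => mem_RN_of_height hz hM v hv
  refine (hL v hv).1 (univ.filter fun j => v (a j) ≤ 1) (univ.filter fun j => ¬ v (a j) ≤ 1)
    (disjoint_filter_filter_not _ _ _) (fun j => ?_) ⟨p, mem_filter.2 ⟨mem_univ _, hB _ hp⟩⟩
    ⟨i, mem_filter.2 ⟨mem_univ _, hi⟩⟩ (hcl _ fun j hj hint => hj ?_) ?_
  · simp only [mem_filter, mem_univ, true_and]
    exact ⟨fun _ => em _, fun _ => hw j⟩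
  · refine mem_filter.2 ⟨mem_univ _, kh6_int v ?_ hint⟩
    rintro z (⟨l, hl, rfl⟩ | hz)
    · exact (mem_filter.1 (mem_coe.1 hl)).2
    · exact hB z hz
  · intro x hx x' hx' y hy y' hy'
    have h1 := (mem_filter.1 hx).2
    have h2 := (mem_filter.1 hx').2
    have h3 := not_le.1 (mem_filter.1 hy).2
    have h4 := not_le.1 (mem_filter.1 hy').2
    beta_reduce
    rw [kh6_sub_eq v h1 h3, kh6_sub_eq v h2 h4]
    refine (mul_le_of_le_one_left (apply_nonneg _ _)
      ((kh6_sub_le v _ _).trans (max_le h1 h2))).trans_lt ((kh6_sub_le v _ _).trans_lt (max_lt ?_ ?_))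
    · exact lt_mul_of_one_lt_right (zero_lt_one.trans h3) h4
    · exact lt_mul_of_one_lt_left (zero_lt_one.trans h4) h3

/-- An integral element is close to at most one of two incongruent integral elements. -/
theorem ord_sep {M : ℕ} {t d d' : K} (ht : t ∈ RN K M) (hd : d ∈ RN K M) (hd' : d' ∈ RN K M)
    (h : IsU M (d - d')) {v : FinitePlace K} (hv : v (M : K) = 1) :
    ord v (t - d) = 0 ∨ ord v (t - d') = 0 := by
  by_contra hc
  rw [not_or] at hc
  have h1 := kh6_lt v (sub_mem ht hd v hv) hc.1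
  have h2 := kh6_lt v (sub_mem ht hd' v hv) hc.2
  have h3 := (kh6_sub_le v (t - d') (t - d)).trans_lt (max_lt h2 h1)
  rw [sub_sub_sub_cancel_left, fp_lt_one_iff v h.1, kh6_unit h hv] at h3
  exact lt_irrefl _ h3

theorem IsU.ord_eq {M : ℕ} {z : K} (h : IsU M z) {v : FinitePlace K} (hv : v (M : K) = 1) :
    ord v z = 0 := by
  exact kh6_unit h hv

/-- Three points of small height.  For `i ∉ {p, q, j}` and `t = a i`, enlarge `N` with `H = 3 n`;
`ord_cr` (file `Inf`, or reprove) for `cr a i p q j`, `cr a i j p q` gives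
`ord (t - a p) ≡ ord (t - a q) ≡ ord (t - a j)` modulo `ℓ`, and `ord_sep` makes them all divisible
by `ℓ`; apply `good_values` with `S = {a p, a q, a j}`. -/
theorem three_points : ∃ c : ℕ → ℕ, Primrec c ∧ ∀ (K ι : Type) [Field K] [NumberField K]
    (n N ℓ : ℕ) (a : ι → K) (p q j : ι), Small K n N → ℓ.Prime → ℓ ∣ N → Function.Injective a →
    (∀ v : FinitePlace K, v (N : K) = 1 → ∀ i j n l, [i, j, n, l].Nodup →
      (ℓ : ℤ) ∣ ord v (cr a i j n l)) → (∀ i, a i ∈ RN K N) → p ≠ q → p ≠ j → q ≠ j →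
    logHeight₁ (a p) ≤ n → logHeight₁ (a q) ≤ n → logHeight₁ (a j) ≤ n →
    ∀ i, logHeight₁ (a i) ≤ c n := by
  classical
  obtain ⟨c, hc, H⟩ := good_values
  refine ⟨fun n => c (enl n (3 * n)) + n,
    pr_add (hc.comp (pr_enl .id (pr_mul (.const _) .id))) .id, ?_⟩
  intro K ι _ _ n N ℓ a p q j s hℓ hN ha hcr hR hpq hpj hqj hp hq hj i
  have hle : ∀ x : K, logHeight₁ x ≤ n → logHeight₁ x ≤ ((c (enl n (3 * n)) + n : ℕ) : ℝ) :=
    fun x hx => hx.trans (Nat.cast_le.2 (Nat.le_add_left _ _))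
  by_cases hip : i = p
  · exact hle _ (hip ▸ hp)
  by_cases hiq : i = q
  · exact hle _ (hiq ▸ hq)
  by_cases hij : i = j
  · exact hle _ (hij ▸ hj)
  have hen : (n : ℝ) ≤ enl n (3 * n) :=
    Nat.cast_le.2 (Nat.le_mul_of_pos_right _ (Nat.factorial_pos _))
  have hd : ∀ {x y : K}, logHeight₁ x ≤ n → logHeight₁ y ≤ n →
      logHeight₁ (x - y) ≤ ((3 * n : ℕ) : ℝ) := fun hx hy => by
    refine (h_sub_le s.hD _ _).trans ?_
    push_cast
    linarith
  have hcard : ({a p, a q, a j} : Finset K).card = 3 :=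
    card_eq_three.2 ⟨_, _, _, ha.ne hpq, ha.ne hpj, ha.ne hqj, rfl⟩
  have key : ∀ v : FinitePlace K, v ((N * (3 ^ (3 * n)).factorial : ℕ) : K) = 1 →
      (ℓ : ℤ) ∣ ord v (a i - a p) ∧ (ℓ : ℤ) ∣ ord v (a i - a q) ∧ (ℓ : ℤ) ∣ ord v (a i - a j) := by
    intro v hv
    have hv' := fp_eq_one_of_dvd (dvd_mul_right _ _) hv
    have z : ∀ {x y : K}, logHeight₁ x ≤ n → logHeight₁ y ≤ n → ord v (x - y) = 0 :=
      fun hx hy => ord_eq_zero_of_height (hd hx hy) (dvd_mul_left _ _) hv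
    have n1 : [i, p, q, j].Nodup := nodup4.2 ⟨hip, hiq, hij, hpq, hpj, hqj⟩
    have n2 : [i, j, p, q].Nodup := nodup4.2 ⟨hij, hip, hiq, hpj.symm, hqj.symm, hpq⟩
    have e1 := hcr v hv' _ _ _ _ n1
    have e2 := hcr v hv' _ _ _ _ n2
    rw [kh6_cr ha v n1, z hq hj, z hp hj, add_zero, sub_zero] at e1
    rw [kh6_cr ha v n2, z hp hq, z hj hq, add_zero, sub_zero] at e2
    have e3 : (ℓ : ℤ) ∣ ord v (a i - a p) := by
      rcases ord_sep (RN_mono (dvd_mul_right _ _) (hR i)) (RN_mono (dvd_mul_right _ _) (hR p))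
        (RN_mono (dvd_mul_right _ _) (hR q))
        (isU_of_height (sub_ne ha hpq) (hd hp hq) (dvd_mul_left _ _)) hv with h | h
      · rw [h]
        exact dvd_zero _
      · rwa [h, sub_zero] at e1
    exact ⟨e3, (dvd_sub_right e3).1 e1, (dvd_sub_left e3).1 e2⟩
  refine (H K _ _ ℓ (a i) {a p, a q, a j} (s.enlarge (3 * n)) hℓ (hN.mul_right _)
    (RN_mono (dvd_mul_right _ _) (hR i)) (by omega) (fun _ => hcard.ge) (fun d hd => ?_)
    fun d hd v hv => ?_).trans (Nat.cast_le.2 (Nat.le_add_right _ _))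
  · simp only [mem_insert, mem_singleton] at hd
    rcases hd with rfl | rfl | rfl
    exacts [hp.trans hen, hq.trans hen, hj.trans hen]
  · simp only [mem_insert, mem_singleton] at hd
    rcases hd with rfl | rfl | rfl
    exacts [(key v hv).1, (key v hv).2.1, (key v hv).2.2]

end Pool.Agent.Lib.MP_07b2d0_nt.Ks
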