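import Mathlib
import Pool.Agent.Lib.MP_07b2d0_nt.KH6

set_option autoImplicit false
set_option linter.unusedSectionVars false
set_option linter.unusedVariables false

namespace Pool.Agent.Lib.MP_07b2d0_nt.Ks

open Finset Real NumberField Height Module Polynomial

theorem kh7_ord_cr {K ι : Type} [Field K] [NumberField K] {b : ι → K}
    (hb : Function.Injective b) (v : FinitePlace K) {i j k l : ι} (h : [i, j, k, l].Nodup) :
    ord v (cr b i j k l) =
      ord v (b i - b j) + ord v (b k - b l) - ord v (b i - b k) - ord v (b j - b l) := by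
  obtain ⟨h1, h2, -, -, h5, h6⟩ := nodup4.mp h
  rw [cr, ord_div v (mul_ne_zero (sub_ne hb h1) (sub_ne hb h6))
    (mul_ne_zero (sub_ne hb h2) (sub_ne hb h5)), ord_mul v (sub_ne hb h1) (sub_ne hb h6),
    ord_mul v (sub_ne hb h2) (sub_ne hb h5)]
  ring

theorem kh7_dvd {l x y : ℤ} (h : l ∣ x) (e : y = x) : l ∣ y := e ▸ h

theorem kh7_two {l x y : ℤ} (h : l ∣ x - y) (h0 : x = 0 ∨ y = 0) : l ∣ x ∧ l ∣ y := by
  rcases h0 with rfl | rfl
  · exact ⟨dvd_zero _, by simpa using h⟩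
  · exact ⟨by simpa using h, dvd_zero _⟩

theorem kh7_two' {l x y : ℤ} (h : l ∣ x + y) (h0 : x = 0 ∨ y = 0) : l ∣ x ∧ l ∣ y := by
  rcases h0 with rfl | rfl
  · exact ⟨dvd_zero _, by simpa using h⟩
  · exact ⟨by simpa using h, dvd_zero _⟩

theorem kh7_odd {ℓ : ℕ} (hℓ : ℓ.Prime) (h2 : ℓ ≠ 2) {x : ℤ} (h : (ℓ : ℤ) ∣ x + x) :
    (ℓ : ℤ) ∣ x := by
  rw [← two_mul] at h
  rcases (Nat.prime_iff_prime_int.mp hℓ).dvd_or_dvd h with h | h
  · have h3 : ℓ ∣ 2 := by exact_mod_cast h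
    exact absurd ((Nat.prime_dvd_prime_iff_eq hℓ Nat.prime_two).mp h3) h2
  · exact h

/-- One point of a relation between four points. -/
theorem kh7_four {K : Type} {l : ℤ} {o : K → ℤ} {c d c' d' : K}
    (h : l ∣ o c + o d - o c' - o d') (h1 : o c = 0 ∨ o c' = 0) (h2 : o c = 0 ∨ o d' = 0)
    (h3 : (o c = 0 ∨ o d = 0) ∨ (c = d ∧ ∀ x : ℤ, l ∣ x + x → l ∣ x)) : l ∣ o c := by
  by_cases h0 : o c = 0
  · rw [h0]
    exact dvd_zero _
  rw [h1.resolve_left h0, h2.resolve_left h0, sub_zero, sub_zero] at h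
  rcases h3 with h3 | ⟨rfl, h3⟩
  · rwa [h3.resolve_left h0, add_zero] at h
  · exact h3 _ h

theorem kh7_card2 {K : Type} [DecidableEq K] {x y : K} (h : x ≠ y) :
    2 ≤ ({x, y} : Finset K).card := (Finset.card_pair h).ge

theorem kh7_card3 {K : Type} [DecidableEq K] {x y z : K} (h1 : x ≠ y) (h2 : x ≠ z) (h3 : y ≠ z) :
    3 ≤ ({x, y, z} : Finset K).card :=
  (Finset.card_eq_three.mpr ⟨x, y, z, h1, h2, h3, rfl⟩).ge

/-- The choice of the set of good values. -/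
theorem kh7_comb {K V : Type} [Field K] {ℓ : ℕ} (hℓ : ℓ.Prime) {o : V → K → ℤ} {sm : K → Prop}
    {α β c₁ c₂ d₁ d₂ z : K} (s1 : sm c₁) (s2 : sm c₂) (s3 : sm d₁) (s4 : sm d₂) (s5 : sm z)
    (sep : ∀ x y, sm x → sm y → x ≠ y → ∀ v, o v x = 0 ∨ o v y = 0)
    (hα : α ≠ 0) (e1 : α * d₁ + β = c₁) (e2 : α * d₂ + β = c₂) (e3 : α ≠ 1 → α * z + β = z)
    (hc : c₁ ≠ c₂) (hid : ¬ (α = 1 ∧ β = 0))
    (E1 : ∀ v, (ℓ : ℤ) ∣ o v c₁ + o v d₂ - o v c₂ - o v d₁)
    (E2 : α ≠ 1 → ∀ v, (ℓ : ℤ) ∣ o v z - o v c₁ - o v d₂)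
    (h2 : ℓ = 2 → α * c₁ + β ≠ c₁ ∧ α * c₂ + β ≠ c₂ ∧
      (α * c₁ + β = c₂ ∨ α * c₂ + β = c₁ → α ^ 2 ≠ 1)) :
    ∃ S : Finset K, 2 ≤ S.card ∧ (ℓ = 2 → 3 ≤ S.card) ∧ (∀ d ∈ S, sm d) ∧
      ∀ d ∈ S, ∀ v, (ℓ : ℤ) ∣ o v d := by
  classical
  have hd : d₁ ≠ d₂ := fun h => hc (by rw [← e1, ← e2, h])
  have E1' : ∀ v, (ℓ : ℤ) ∣ o v c₂ + o v d₁ - o v c₁ - o v d₂ := fun v => by
    have := (dvd_neg).mpr (E1 v)
    exact kh7_dvd this (by ring)
  have nb : ¬ (c₁ = d₁ ∧ c₂ = d₂) := by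
    rintro ⟨rfl, rfl⟩
    have h1 : (α - 1) * (c₁ - c₂) = 0 := by linear_combination e1 - e2
    have h3 : α = 1 := sub_eq_zero.mp ((mul_eq_zero.mp h1).resolve_right (sub_ne_zero.mpr hc))
    exact hid ⟨h3, by rw [h3] at e1; linear_combination e1⟩
  by_cases hl : ℓ = 2
  · obtain ⟨f1, f2, f3⟩ := h2 hl
    have n1 : c₁ ≠ d₁ := fun h => f1 (by rw [h] at e1 ⊢; exact e1)
    have n2 : c₂ ≠ d₂ := fun h => f2 (by rw [h] at e2 ⊢; exact e2)
    have hev : ∀ x : ℤ, (ℓ : ℤ) ∣ x + x := fun x => ⟨x, by rw [hl]; push_cast; ring⟩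
    by_cases g1 : c₁ = d₂
    · have a2 := f3 (Or.inl (by rw [g1]; exact e2))
      have a1 : α ≠ 1 := fun h => a2 (by rw [h]; ring)
      have g2 : c₂ ≠ d₁ := fun h => a2 (by
        rw [← h] at e1
        rw [← g1] at e2
        have h1 : (α + 1) * (c₁ - c₂) = 0 := by linear_combination e2 - e1
        have h3 := (mul_eq_zero.mp h1).resolve_right (sub_ne_zero.mpr hc)
        linear_combination (α - 1) * h3)
      have z1 : c₂ ≠ z := fun h => f2 (by rw [h]; exact e3 a1)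
      have z2 : d₁ ≠ z := fun h => n1 (by rw [← e1, h]; exact e3 a1)
      have k : ∀ v, (ℓ : ℤ) ∣ o v c₂ ∧ (ℓ : ℤ) ∣ o v d₁ := fun v => by
        refine kh7_two' ?_ (sep _ _ s2 s3 g2 v)
        have := dvd_add (E1' v) (hev (o v c₁))
        rw [← g1] at this
        exact kh7_dvd this (by ring)
      refine ⟨{c₂, d₁, z}, le_trans (by omega) (kh7_card3 g2 z1 z2), fun _ => kh7_card3 g2 z1 z2,
        by simp [s2, s3, s5], ?_⟩
      simp only [Finset.mem_insert, Finset.mem_singleton]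
      rintro d (rfl | rfl | rfl) v
      · exact (k v).1
      · exact (k v).2
      · have := dvd_add (E2 a1 v) (hev (o v c₁))
        rw [← g1] at this
        exact kh7_dvd this (by ring)
    by_cases g2 : c₂ = d₁
    · have a2 := f3 (Or.inr (by rw [g2]; exact e1))
      have a1 : α ≠ 1 := fun h => a2 (by rw [h]; ring)
      have z1 : c₁ ≠ z := fun h => f1 (by rw [h]; exact e3 a1)
      have z2 : d₂ ≠ z := fun h => n2 (by rw [← e2, h]; exact e3 a1)
      have k0 : ∀ v, (ℓ : ℤ) ∣ o v c₁ + o v d₂ := fun v => by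
        have := dvd_add (E1 v) (hev (o v c₂))
        rw [← g2] at this
        exact kh7_dvd this (by ring)
      have k : ∀ v, (ℓ : ℤ) ∣ o v c₁ ∧ (ℓ : ℤ) ∣ o v d₂ := fun v =>
        kh7_two' (k0 v) (sep _ _ s1 s4 g1 v)
      refine ⟨{c₁, d₂, z}, le_trans (by omega) (kh7_card3 g1 z1 z2), fun _ => kh7_card3 g1 z1 z2,
        by simp [s1, s4, s5], ?_⟩
      simp only [Finset.mem_insert, Finset.mem_singleton]
      rintro d (rfl | rfl | rfl) v
      · exact (k v).1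
      · exact (k v).2
      · have := dvd_add (E2 a1 v) (k0 v)
        exact kh7_dvd this (by ring)
    refine ⟨{c₁, c₂, d₁}, le_trans (by omega) (kh7_card3 hc n1 g2), fun _ => kh7_card3 hc n1 g2,
      by simp [s1, s2, s3], ?_⟩
    simp only [Finset.mem_insert, Finset.mem_singleton]
    intro d hd' v
    rcases hd' with h | h | h <;> rw [h]
    · exact kh7_four (E1 v) (sep _ _ s1 s2 hc v) (sep _ _ s1 s3 n1 v)
        (Or.inl (sep _ _ s1 s4 g1 v))
    · exact kh7_four (E1' v) (sep _ _ s2 s1 hc.symm v) (sep _ _ s2 s4 n2 v)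
        (Or.inl (sep _ _ s2 s3 g2 v))
    · refine kh7_four (o := o v) (d := c₂) (c' := c₁) (d' := d₂) ?_ (sep _ _ s3 s1 n1.symm v)
        (sep _ _ s3 s4 hd v) (Or.inl (sep _ _ s3 s2 (Ne.symm g2) v))
      rw [add_comm]
      exact E1' v
  by_cases n1 : c₁ = d₁
  · have n2 : c₂ ≠ d₂ := fun h => nb ⟨n1, h⟩
    have k : ∀ v, (ℓ : ℤ) ∣ o v c₂ ∧ (ℓ : ℤ) ∣ o v d₂ := fun v => by
      refine kh7_two ?_ (sep _ _ s2 s4 n2 v)
      have := E1' v
      rw [← n1] at this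
      exact kh7_dvd this (by ring)
    refine ⟨{c₂, d₂}, kh7_card2 n2, fun h => absurd h hl, by simp [s2, s4], ?_⟩
    simp only [Finset.mem_insert, Finset.mem_singleton]
    intro d hd' v
    rcases hd' with h | h <;> rw [h]
    · exact (k v).1
    · exact (k v).2
  by_cases n2 : c₂ = d₂
  · have k : ∀ v, (ℓ : ℤ) ∣ o v c₁ ∧ (ℓ : ℤ) ∣ o v d₁ := fun v => by
      refine kh7_two ?_ (sep _ _ s1 s3 n1 v)
      have := E1 v
      rw [← n2] at this
      exact kh7_dvd this (by ring)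
    refine ⟨{c₁, d₁}, kh7_card2 n1, fun h => absurd h hl, by simp [s1, s3], ?_⟩
    simp only [Finset.mem_insert, Finset.mem_singleton]
    intro d hd' v
    rcases hd' with h | h <;> rw [h]
    · exact (k v).1
    · exact (k v).2
  refine ⟨{c₁, c₂}, kh7_card2 hc, fun h => absurd h hl, by simp [s1, s2], ?_⟩
  simp only [Finset.mem_insert, Finset.mem_singleton]
  intro d hd' v
  rcases hd' with h | h <;> rw [h]
  · refine kh7_four (E1 v) (sep _ _ s1 s2 hc v) (sep _ _ s1 s3 n1 v) ?_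
    by_cases g : c₁ = d₂
    · exact Or.inr ⟨g, fun x => kh7_odd hℓ hl⟩
    · exact Or.inl (sep _ _ s1 s4 g v)
  · refine kh7_four (E1' v) (sep _ _ s2 s1 hc.symm v) (sep _ _ s2 s4 n2 v) ?_
    by_cases g : c₂ = d₁
    · exact Or.inr ⟨g, fun x => kh7_odd hℓ hl⟩
    · exact Or.inl (sep _ _ s2 s3 g v)

/-- Two points of small height and an affine relation.  Put `t = a i`, `c₁ = a p`, `c₂ = a q`,
`d₁ = (c₁ - β) / α`, `d₂ = (c₂ - β) / α`, and `z = β / (1 - α)` if `α ≠ 1`; all have height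
`≤ 4 n`.  Enlarge `N` with `H = 9 n`: then `α`, `1 - α` (if nonzero) and all nonzero differences
of `c₁, c₂, d₁, d₂, z` are units.  Write `o(d) = ord v (t - d)`; `t` differs from all these points.
From `a j - c₁ = α (t - d₁)`, `a j - c₂ = α (t - d₂)`, `t - a j = (1 - α) (t - z)` and the cross
ratios `cr a i p q j`, `cr a i j p q`:  `o(c₁) + o(d₂) ≡ o(c₂) + o(d₁) ≡ o(z)` modulo `ℓ` (the last
if `α ≠ 1`), and for distinct points at most one `o` is nonzero (`ord_sep`).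
`c₁ ≠ c₂`, `d₁ ≠ d₂`, and not both `c₁ = d₁`, `c₂ = d₂` (else `α = 1, β = 0`, `a j = a i`).
For `ℓ ≠ 2`: if `c₁ = d₁` take `S = {c₂, d₂}`, if `c₂ = d₂` take `S = {c₁, d₁}`, otherwise
`S = {c₁, c₂}` (multiplicities are 1 or 2).  For `ℓ = 2`: `c₁ ≠ d₁`, `c₂ ≠ d₂`; if moreover
`c₁ ≠ d₂`, `c₂ ≠ d₁` take `S = {c₁, c₂, d₁}`; if `c₁ = d₂` then `α ≠ ± 1`, `c₂ ≠ d₁`, and
`S = {c₂, d₁, z}`; symmetrically `S = {c₁, d₂, z}`.  Apply `good_values`. -/
theorem seed : ∃ c : ℕ → ℕ, Primrec c ∧ ∀ (K ι : Type) [Field K] [NumberField K]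
    (n N ℓ : ℕ) (a : ι → K) (p q i j : ι) (α β : K), Small K n N → ℓ.Prime → ℓ ∣ N →
    Function.Injective a →
    (∀ v : FinitePlace K, v (N : K) = 1 → ∀ i j n l, [i, j, n, l].Nodup →
      (ℓ : ℤ) ∣ ord v (cr a i j n l)) → a i ∈ RN K N → [p, q, i, j].Nodup →
    logHeight₁ (a p) ≤ n → logHeight₁ (a q) ≤ n → logHeight₁ α ≤ n → logHeight₁ β ≤ n →
    a j = α * a i + β → α ≠ 0 →
    (ℓ = 2 → α * a p + β ≠ a p ∧ α * a q + β ≠ a q ∧
      (α * a p + β = a q ∨ α * a q + β = a p → α ^ 2 ≠ 1)) →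
    logHeight₁ (a i) ≤ c n := by
  obtain ⟨cg, hcg, hg⟩ := good_values
  refine ⟨fun n => cg (enl n (9 * n) + 4 * n), hcg.comp (pr_add
    (pr_enl Primrec.id (pr_mul (.const _) Primrec.id)) (pr_mul (.const _) Primrec.id)), ?_⟩
  intro K ι _ _ n N ℓ a p q i j α β s hℓ hN ha hcr hi hnd hp hq hα hβ e hα0 h2
  obtain ⟨n1, n2, n3, n4, n5, n6⟩ := nodup4.mp hnd
  have hn0 : (0 : ℝ) ≤ n := Nat.cast_nonneg n
  obtain ⟨M, hM⟩ : ∃ M, M = N * (3 ^ (9 * n)).factorial := ⟨_, rfl⟩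
  have hM1 : N ∣ M := hM ▸ dvd_mul_right _ _
  have hM2 : (3 ^ (9 * n)).factorial ∣ M := hM ▸ dvd_mul_left _ _
  have s' : Small K (enl n (9 * n) + 4 * n) M := hM ▸ (s.enlarge (9 * n)).mono (by omega)
  have ht : a i ∈ RN K M := mem_RN_of_dvd hi hM1
  have un : ∀ x : K, x ≠ 0 → logHeight₁ x ≤ 9 * n → ∀ v : FinitePlace K, v (M : K) = 1 →
      ord v x = 0 := fun x hx h v hv =>
    IsU.ord_eq (isU_of_height hx (H := 9 * n) (by push_cast; exact h) hM2) hv
  have hd : ∀ c : K, logHeight₁ c ≤ n → logHeight₁ ((c - β) / α) ≤ 4 * n := fun c hc => by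
    have := h_div_le (c - β) α
    have := h_sub_le s.hD c β
    linarith
  have h1α : logHeight₁ (1 - α) ≤ 2 * n := by
    have := h_sub_le s.hD 1 α
    rw [logHeight₁_one] at this
    linarith
  have hz : logHeight₁ (β / (1 - α)) ≤ 4 * n := by
    have := h_div_le β (1 - α)
    linarith
  have f1 : ∀ m, m ≠ j → ∀ v : FinitePlace K, v (M : K) = 1 →
      ord v (a m - a j) = ord v (a i - (a m - β) / α) := by
    intro m hm v hv
    have e1 : a m - a j = -(α * (a i - (a m - β) / α)) := by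
      rw [e]
      field_simp
      ring
    have e2 : a i - (a m - β) / α ≠ 0 := fun h => sub_ne ha hm (by rw [e1, h]; simp)
    rw [e1, ord_neg, ord_mul v hα0 e2, un α hα0 (by linarith) v hv, zero_add]
  obtain ⟨S, S1, S2, S3, S4⟩ := kh7_comb (V := {v : FinitePlace K // v (M : K) = 1}) hℓ
    (o := fun v d => ord v.1 (a i - d)) (sm := fun d => logHeight₁ d ≤ 4 * n) (α := α) (β := β)
    (c₁ := a p) (c₂ := a q) (d₁ := (a p - β) / α) (d₂ := (a q - β) / α) (z := β / (1 - α))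
    (by linarith) (by linarith) (hd _ hp) (hd _ hq) hz
    (fun x y hx hy hxy v => ord_sep ht
      (mem_RN_of_height (H := 9 * n) (by push_cast; linarith) hM2)
      (mem_RN_of_height (H := 9 * n) (by push_cast; linarith) hM2)
      (isU_of_height (H := 9 * n) (sub_ne_zero.mpr hxy) (by
        have := h_sub_le s.hD x y
        push_cast
        linarith) hM2) v.2)
    hα0 (by field_simp; ring) (by field_simp; ring)
    (fun h => by
      have : 1 - α ≠ 0 := sub_ne_zero.mpr h.symm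
      field_simp
      ring)
    (ha.ne n1) (fun h => n6 (ha (by rw [e, h.1, h.2]; ring)))
    (fun v => by
      have nd : [i, p, q, j].Nodup := nodup4.mpr ⟨n2.symm, n4.symm, n6, n1, n3, n5⟩
      have := hcr v.1 (fp_eq_one_of_dvd hM1 v.2) i p q j nd
      rwa [kh7_ord_cr ha v.1 nd, f1 q n5 v.1 v.2, f1 p n3 v.1 v.2] at this)
    (fun h v => by
      have nd : [i, j, p, q].Nodup := nodup4.mpr ⟨n6, n2.symm, n4.symm, n3.symm, n5.symm, n1⟩
      have := hcr v.1 (fp_eq_one_of_dvd hM1 v.2) i j p q nd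
      have h0 : 1 - α ≠ 0 := sub_ne_zero.mpr h.symm
      have e1 : a i - a j = (1 - α) * (a i - β / (1 - α)) := by
        rw [e]
        field_simp
        ring
      have e2 : a i - β / (1 - α) ≠ 0 := fun h => sub_ne ha n6 (by rw [e1, h]; simp)
      have e3 : ord v.1 (a p - a q) = 0 := un _ (sub_ne ha n1) (by
        have := h_sub_le s.hD (a p) (a q)
        linarith) v.1 v.2
      rwa [kh7_ord_cr ha v.1 nd, e3, e1, ord_mul v.1 h0 e2, un _ h0 (by linarith) v.1 v.2,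
        ← neg_sub (a q) (a j), ord_neg, f1 q n5 v.1 v.2, zero_add, add_zero] at this)
    h2
  refine hg K _ M ℓ (a i) S s' hℓ (hN.trans hM1) ht S1 S2 (fun d hd => (S3 d hd).trans ?_)
    fun d hd v hv => S4 d hd ⟨v, hv⟩
  push_cast
  have : (0 : ℝ) ≤ enl n (9 * n) := Nat.cast_nonneg _
  linarith

/-- Enlarge `N` with `H = B ≤ n`, `integral_all`; if `α = 0` use `three_points` for `p, q, j`,
otherwise `seed` and then `three_points` for `p, q, i` with a larger parameter (`Small.mono`). -/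
theorem global_int : ∃ c : ℕ → ℕ, Primrec c ∧ ∀ (K ι : Type) [Field K] [NumberField K]
    [Fintype ι] (n N ℓ B : ℕ) (a : ι → K) (w : ι → ℕ) (p q i j : ι) (α β : K), Small K n N →
    B ≤ n → ℓ.Prime → ℓ ∣ N → Function.Injective a → (∀ i, ¬ ℓ ∣ w i) → LocK ℓ N a w →
    (∀ I : Finset ι, (∀ j ∉ I, ¬ IsIntegral
      (Algebra.adjoin ℤ (a '' I ∪ {z | logHeight₁ z ≤ B})) (a j)) → ℓ ∣ ∑ i ∈ I, w i) →
    [p, q, i, j].Nodup → logHeight₁ (a p) ≤ B → logHeight₁ (a q) ≤ B → logHeight₁ α ≤ B →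
    logHeight₁ β ≤ B → a j = α * a i + β →
    (ℓ = 2 → α * a p + β ≠ a p ∧ α * a q + β ≠ a q ∧
      (α * a p + β = a q ∨ α * a q + β = a p → α ^ 2 ≠ 1)) →
    ∀ m, logHeight₁ (a m) ≤ c n := by
  obtain ⟨c1, hc1, h1⟩ := seed
  obtain ⟨c3, hc3, h3⟩ := three_points
  have pe : Primrec fun n => enl n n := pr_enl Primrec.id Primrec.id
  refine ⟨fun n => c3 (enl n n + 3 * n + c1 (enl n n)), hc3.comp (pr_add
    (pr_add pe (pr_mul (.const _) Primrec.id)) (hc1.comp pe)), ?_⟩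
  intro K ι _ _ _ n N ℓ B a w p q i j α β s hB hℓ hN ha hw hL hcl hnd hp hq hα hβ e h2
  obtain ⟨n1, n2, n3, n4, n5, n6⟩ := nodup4.mp hnd
  obtain ⟨M, hM⟩ : ∃ M, M = N * (3 ^ n).factorial := ⟨_, rfl⟩
  have hM1 : N ∣ M := hM ▸ dvd_mul_right _ _
  have hM2 : (3 ^ B).factorial ∣ M := hM ▸
    (Nat.factorial_dvd_factorial (Nat.pow_le_pow_right (by omega) hB)).mul_left _
  have s1 : Small K (enl n n) M := hM ▸ s.enlarge n
  have hL' := hL.mono hM1
  have hint : ∀ m, a m ∈ RN K M := integral_all hw hL' hM2 hcl hp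
  have hcr : ∀ v : FinitePlace K, v (M : K) = 1 → ∀ i j n l, [i, j, n, l].Nodup →
      (ℓ : ℤ) ∣ ord v (cr a i j n l) := fun v hv i j n l h =>
    (hL' v hv).2 i j n l h (hw _) (hw _) (hw _) (hw _)
  have hn : n ≤ enl n n := Nat.le_mul_of_pos_right _ (Nat.factorial_pos _)
  have b1 : (B : ℝ) ≤ enl n n := by exact_mod_cast hB.trans hn
  have b2 : ((enl n n : ℕ) : ℝ) ≤ (enl n n + 3 * n + c1 (enl n n) : ℕ) := by
    exact_mod_cast (by omega : enl n n ≤ enl n n + 3 * n + c1 (enl n n))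
  have b3 : ((c1 (enl n n) : ℕ) : ℝ) ≤ (enl n n + 3 * n + c1 (enl n n) : ℕ) := by
    exact_mod_cast (by omega : c1 (enl n n) ≤ enl n n + 3 * n + c1 (enl n n))
  have s2 : Small K (enl n n + 3 * n + c1 (enl n n)) M := s1.mono (by omega)
  by_cases hα0 : α = 0
  · refine h3 K ι _ M ℓ a p q j s2 hℓ (hN.trans hM1) ha hcr hint n1 n3 n5 (by linarith)
      (by linarith) ?_
    rw [e, hα0, zero_mul, zero_add]
    linarith
  · have := h1 K ι _ M ℓ a p q i j α β s1 hℓ (hN.trans hM1) ha hcr (hint i) hnd (by linarith)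
      (by linarith) (by linarith) (by linarith) e hα0 h2
    exact h3 K ι _ M ℓ a p q i s2 hℓ (hN.trans hM1) ha hcr hint n1 n2 n4 (by linarith)
      (by linarith) (by linarith)

end Pool.Agent.Lib.MP_07b2d0_nt.Ks
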