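import Mathlib
import Pool.Agent.Lib.MP_07b2d0_nt.Prim

/-!
Ramsey's theorem for uniform hypergraphs, with a primitive recursive bound.
-/

set_option autoImplicit false

namespace Pool.Agent.Lib.MP_07b2d0_nt

open Finset

/-- A bound for Ramsey numbers with `q` colours. -/
def ram (q : ℕ) : ℕ → ℕ → ℕ
  | 0, m => m
  | r + 1, m => (fun n => ram q r n + 1)^[q * m] 0

theorem pr_ram (r : ℕ) : Primrec fun x : ℕ × ℕ => ram x.1 r x.2 := by
  induction r with
  | zero => exact .snd
  | succ r ih =>
    exact Primrec.nat_iterate (h := fun x n => ram x.1 r n + 1) (pr_mul .fst .snd) (.const 0)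
      (Primrec.succ.comp (ih.comp (.pair (.comp .fst .fst) .snd)))

theorem ramsey {α C : Type} [DecidableEq α] [Fintype C] [Nonempty C] {q : ℕ}
    (hq : Fintype.card C ≤ q) (r : ℕ) : ∀ (m : ℕ) (S : Finset α) (c : Finset α → C),
      ram q r m ≤ S.card → ∃ H ⊆ S, m ≤ H.card ∧ ∃ k, ∀ e ⊆ H, e.card = r → c e = k := by
  classical
  induction r with
  | zero => exact fun m S c h => ⟨S, Subset.rfl, h, c ∅, fun e _ he => by rw [card_eq_zero.mp he]⟩
  | succ r ih =>
    have aux : ∀ (p : ℕ) (S : Finset α) (c : Finset α → C),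
        (fun n => ram q r n + 1)^[p] 0 ≤ S.card → ∃ P ⊆ S, p ≤ P.card ∧ ∃ f : α → C,
          ∀ e ⊆ P, e.card = r + 1 → ∃ x ∈ e, c e = f x := by
      intro p
      induction p with
      | zero =>
        refine fun S c _ => ⟨∅, empty_subset _, le_rfl, fun _ => c ∅, fun e he h => ?_⟩
        simp [subset_empty.mp he] at h
      | succ p ihp =>
        intro S c h
        rw [Function.iterate_succ_apply'] at h
        obtain ⟨x, hx⟩ := card_pos.mp (lt_of_lt_of_le (Nat.succ_pos _) h)
        obtain ⟨H, h1, h2, k, h3⟩ := ih _ (S.erase x) (fun e => c (insert x e))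
          (by rw [card_erase_of_mem hx]; exact Nat.le_sub_one_of_lt h)
        obtain ⟨P, h4, h5, f, h6⟩ := ihp H c h2
        have hxP : x ∉ P := fun h0 => notMem_erase x S (h1 (h4 h0))
        refine ⟨insert x P, insert_subset hx (h4.trans (h1.trans (erase_subset _ _))),
          by rw [card_insert_of_notMem hxP]; omega, Function.update f x k, fun e he hc => ?_⟩
        by_cases hxe : x ∈ e
        · refine ⟨x, hxe, ?_⟩
          rw [Function.update_self, ← h3 (e.erase x) ((subset_insert_iff.mp he).trans h4)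
            (by rw [card_erase_of_mem hxe, hc]; rfl), insert_erase hxe]
        · obtain ⟨y, hy, e1⟩ := h6 e ((subset_insert_iff_of_notMem hxe).mp he) hc
          exact ⟨y, hy, by rwa [Function.update_of_ne (ne_of_mem_of_not_mem hy hxe)]⟩
    intro m S c h
    obtain ⟨P, h1, h2, f, h3⟩ := aux _ S c h
    obtain ⟨k, -, hk⟩ := exists_le_card_fiber_of_mul_le_card_of_maps_to (s := P) (t := univ)
      (f := f) (n := m) (fun _ _ => mem_univ _) univ_nonempty
      ((Nat.mul_le_mul_right m hq).trans h2)
    refine ⟨_, (filter_subset _ _).trans h1, hk, k, fun e he hc => ?_⟩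
    obtain ⟨x, hx, e1⟩ := h3 e (he.trans (filter_subset _ _)) hc
    exact e1.trans (mem_filter.mp (he hx)).2

end Pool.Agent.Lib.MP_07b2d0_nt
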