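import Mathlib
import Pool.Agent.Lib.MP_07b2d0_nt.Inf

/-!
Degenerations of five points.
-/

set_option autoImplicit false

namespace Pool.Agent.Lib.MP_07b2d0_nt

open Finset Real NumberField Height Module

/-- The minimum of three integers is attained twice. -/
def Iso (x y z : ℤ) : Prop := (y ≤ x ∧ y = z) ∨ (x ≤ y ∧ x = z) ∨ (x ≤ z ∧ x = y)

theorem ultra6 {a b c d e f : ℤ} (h1 : Iso a b d) (h2 : Iso a c e) (h3 : Iso b c f)
    (h4 : Iso d e f) :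
    (b ≤ a ∧ c ≤ b ∧ b = d ∧ c = e ∧ c = f) ∨
    (c ≤ a ∧ b ≤ c ∧ c = e ∧ b = d ∧ b = f) ∨
    (a ≤ b ∧ c ≤ a ∧ a = d ∧ c = f ∧ c = e) ∨
    (c ≤ b ∧ a ≤ c ∧ c = f ∧ a = d ∧ a = e) ∨
    (a ≤ c ∧ b ≤ a ∧ a = e ∧ b = f ∧ b = d) ∨
    (b ≤ c ∧ a ≤ b ∧ b = f ∧ a = e ∧ a = d) ∨
    (a ≤ d ∧ e ≤ a ∧ a = b ∧ e = f ∧ e = c) ∨
    (e ≤ d ∧ a ≤ e ∧ e = f ∧ a = b ∧ a = c) ∨
    (a ≤ e ∧ d ≤ a ∧ a = c ∧ d = f ∧ d = b) ∨
    (d ≤ e ∧ a ≤ d ∧ d = f ∧ a = c ∧ a = b) ∨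
    (b ≤ f ∧ d ≤ b ∧ b = c ∧ d = e ∧ d = a) ∨
    (d ≤ f ∧ b ≤ d ∧ d = e ∧ b = c ∧ b = a) ∨
    (b ≤ a ∧ b ≤ f ∧ b = c ∧ b = d ∧ b = e) ∨
    (a ≤ b ∧ a ≤ e ∧ a = c ∧ a = d ∧ a = f) ∨
    (a ≤ c ∧ a ≤ d ∧ a = b ∧ a = e ∧ a = f) := by
  rcases h1 with h1 | h1 | h1 <;> rcases h2 with h2 | h2 | h2 <;>
    rcases h3 with h3 | h3 | h3 <;> rcases h4 with h4 | h4 | h4 <;>
    repeat first | exact .inl (by omega) | refine .inr ?_ | omega

/-- The indicator function of the set coded by `A`. -/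
def chi (A : ℕ) (i : Fin 5) : ℤ := if A.testBit i then 1 else 0

/-- The exponent of a cross ratio for the splitting coded by `A`. -/
def ee (A : ℕ) (i j k l : Fin 5) : ℤ := (chi A i - chi A l) * (chi A j - chi A k)

/-- The maximal degenerations. -/
def shapes : List (ℕ × ℕ) :=
  [(6, 14), (6, 22), (10, 14), (10, 26), (18, 22), (18, 26), (12, 14), (12, 28), (20, 22), (20, 28),
    (24, 26), (24, 28), (6, 24), (10, 20), (18, 12)]

/-- All degenerations. -/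
def trees : List (ℕ × ℕ) :=
  [(0, 0), (6, 0), (10, 0), (12, 0), (14, 0), (18, 0), (20, 0), (22, 0), (24, 0), (26, 0),
    (28, 0)] ++ shapes

theorem shapes_spec : ∀ t ∈ shapes, t ∈ trees ∧ (t.1, 0) ∈ trees ∧ (t.2, 0) ∈ trees ∧
    chi t.1 0 = 0 ∧ chi t.2 0 = 0 := by decide

theorem struct {d : Fin 4 → Fin 4 → ℤ} (hs : ∀ i j, d i j = d j i)
    (hu : ∀ i j k, i ≠ j → i ≠ k → j ≠ k → Iso (d i j) (d i k) (d j k)) :
    ∃ t ∈ shapes, ∃ μ x y : ℤ, 0 ≤ x ∧ 0 ≤ y ∧ ∀ i j, i ≠ j → d i j =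
      μ + x * (chi t.1 i.succ * chi t.1 j.succ) + y * (chi t.2 i.succ * chi t.2 j.succ) := by
  have key : ∀ (A B : ℕ) (μ x y : ℤ), (A, B) ∈ shapes → 0 ≤ x → 0 ≤ y →
      (d 0 1 = μ + x * (chi A 1 * chi A 2) + y * (chi B 1 * chi B 2) ∧
        d 0 2 = μ + x * (chi A 1 * chi A 3) + y * (chi B 1 * chi B 3) ∧
        d 0 3 = μ + x * (chi A 1 * chi A 4) + y * (chi B 1 * chi B 4) ∧
        d 1 2 = μ + x * (chi A 2 * chi A 3) + y * (chi B 2 * chi B 3) ∧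
        d 1 3 = μ + x * (chi A 2 * chi A 4) + y * (chi B 2 * chi B 4) ∧
        d 2 3 = μ + x * (chi A 3 * chi A 4) + y * (chi B 3 * chi B 4)) →
      ∃ t ∈ shapes, ∃ μ x y : ℤ, 0 ≤ x ∧ 0 ≤ y ∧ ∀ i j, i ≠ j → d i j =
        μ + x * (chi t.1 i.succ * chi t.1 j.succ) + y * (chi t.2 i.succ * chi t.2 j.succ) := by
    intro A B μ x y h hx hy ⟨h1, h2, h3, h4, h5, h6⟩
    refine ⟨_, h, μ, x, y, hx, hy, fun i j hij => ?_⟩
    wlog hl : i < j generalizing i j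
    · rw [hs, this j i hij.symm (lt_of_le_of_ne (not_lt.mp hl) hij.symm)]; ring
    fin_cases i <;> fin_cases j <;> first | assumption | exact absurd hl (by decide)
  rcases ultra6 (hu 0 1 2 (by decide) (by decide) (by decide))
    (hu 0 1 3 (by decide) (by decide) (by decide)) (hu 0 2 3 (by decide) (by decide) (by decide))
    (hu 1 2 3 (by decide) (by decide) (by decide)) with
    h | h | h | h | h | h | h | h | h | h | h | h | h | h | h
  · exact key 6 14 (d 0 3) (d 0 1 - d 0 2) (d 0 2 - d 0 3) (by decide) (by omega) (by omega)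
      (by simp +decide [chi]; omega)
  · exact key 6 22 (d 0 2) (d 0 1 - d 0 3) (d 0 3 - d 0 2) (by decide) (by omega) (by omega)
      (by simp +decide [chi]; omega)
  · exact key 10 14 (d 0 3) (d 0 2 - d 0 1) (d 0 1 - d 0 3) (by decide) (by omega) (by omega)
      (by simp +decide [chi]; omega)
  · exact key 10 26 (d 0 1) (d 0 2 - d 0 3) (d 0 3 - d 0 1) (by decide) (by omega) (by omega)
      (by simp +decide [chi]; omega)
  · exact key 18 22 (d 0 2) (d 0 3 - d 0 1) (d 0 1 - d 0 2) (by decide) (by omega) (by omega)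
      (by simp +decide [chi]; omega)
  · exact key 18 26 (d 0 1) (d 0 3 - d 0 2) (d 0 2 - d 0 1) (by decide) (by omega) (by omega)
      (by simp +decide [chi]; omega)
  · exact key 12 14 (d 1 3) (d 1 2 - d 0 1) (d 0 1 - d 1 3) (by decide) (by omega) (by omega)
      (by simp +decide [chi]; omega)
  · exact key 12 28 (d 0 1) (d 1 2 - d 1 3) (d 1 3 - d 0 1) (by decide) (by omega) (by omega)
      (by simp +decide [chi]; omega)
  · exact key 20 22 (d 1 2) (d 1 3 - d 0 1) (d 0 1 - d 1 2) (by decide) (by omega) (by omega)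
      (by simp +decide [chi]; omega)
  · exact key 20 28 (d 0 1) (d 1 3 - d 1 2) (d 1 2 - d 0 1) (by decide) (by omega) (by omega)
      (by simp +decide [chi]; omega)
  · exact key 24 26 (d 1 2) (d 2 3 - d 0 2) (d 0 2 - d 1 2) (by decide) (by omega) (by omega)
      (by simp +decide [chi]; omega)
  · exact key 24 28 (d 0 2) (d 2 3 - d 1 2) (d 1 2 - d 0 2) (by decide) (by omega) (by omega)
      (by simp +decide [chi]; omega)
  · exact key 6 24 (d 0 2) (d 0 1 - d 0 2) (d 2 3 - d 0 2) (by decide) (by omega) (by omega)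
      (by simp +decide [chi]; omega)
  · exact key 10 20 (d 0 1) (d 0 2 - d 0 1) (d 1 3 - d 0 1) (by decide) (by omega) (by omega)
      (by simp +decide [chi]; omega)
  · exact key 18 12 (d 0 1) (d 0 3 - d 0 1) (d 1 2 - d 0 1) (by decide) (by omega) (by omega)
      (by simp +decide [chi]; omega)

/-- The first configuration. -/
def R1 (G : List ℕ) (i j k l : Fin 5) : Prop :=
  [i, j, k, l].Nodup ∧ (∀ A ∈ G, ee A i j k l = 0 ∧ 0 ≤ ee A i l k j) ∧ ∃ A ∈ G, 0 < ee A i l k j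

/-- The second configuration. -/
def R2 (G : List ℕ) (c e d b f : Fin 5) : Prop :=
  [c, e, d, b].Nodup ∧ [c, f, d, b].Nodup ∧ e ≠ f ∧ (∀ A ∈ G, 0 ≤ ee A c e d b ∧ 0 ≤ ee A c f d b ∧
    ee A e f c b + ee A c e d b = 0) ∧ ∃ A ∈ G, 0 < ee A c e d b

instance (G : List ℕ) (i j k l : Fin 5) : Decidable (R1 G i j k l) := by
  unfold R1; infer_instance

instance (G : List ℕ) (c e d b f : Fin 5) : Decidable (R2 G c e d b f) := by
  unfold R2; infer_instance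

theorem config : ∀ s ∈ trees, ∀ t ∈ trees, s = (0, 0) ∨
    (∃ i j k l, R1 [s.1, s.2, t.1, t.2] i j k l) ∨
    ∃ c e d b f, R2 [s.1, s.2, t.1, t.2] c e d b f := by decide +kernel

theorem trees_compat : ∀ t ∈ trees, ∀ i j k l, [i, j, k, l].Nodup →
    (0 ≤ ee t.1 i j k l ∧ 0 ≤ ee t.2 i j k l) ∨ (ee t.1 i j k l ≤ 0 ∧ ee t.2 i j k l ≤ 0) := by
  decide +kernel

theorem trees_sep : ∀ s ∈ trees, ∀ t ∈ trees, s = t ∨ ∃ i j k l, [i, j, k, l].Nodup ∧
    ¬(0 < ee s.1 i j k l + ee s.2 i j k l ↔ 0 < ee t.1 i j k l + ee t.2 i j k l) := by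
  decide +kernel

end Pool.Agent.Lib.MP_07b2d0_nt
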