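import Mathlib
import Pool.Agent.Lib.MP_07b2d0_nt.Tree

/-!
The signs of the valuations of cross ratios depend only on the cluster picture.
-/

set_option autoImplicit false

namespace Pool.Agent.Lib.MP_07b2d0_nt

open Finset Real NumberField Height Module

variable {K : Type} [Field K] [NumberField K]

theorem ord_iso (v : FinitePlace K) {x y z : K} (h1 : x ≠ y) (h2 : x ≠ z) (h3 : y ≠ z) :
    Iso (ord v (x - y)) (ord v (x - z)) (ord v (y - z)) := by
  have key : ∀ {p q : K}, p ≠ 0 → q ≠ 0 → p + q ≠ 0 →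
      ord v p ≤ ord v (p + q) ∨ ord v q ≤ ord v (p + q) := by
    intro p q hp hq h
    have e := (v.maximalIdeal.valuation K).map_add p q
    rw [le_max_iff, ← WithZero.log_le_log (val_ne_zero v h) (val_ne_zero v hp),
      ← WithZero.log_le_log (val_ne_zero v h) (val_ne_zero v hq)] at e
    unfold ord
    omega
  have n1 := sub_ne_zero.mpr h1
  have n2 := sub_ne_zero.mpr h2
  have n3 := sub_ne_zero.mpr h3
  have e1 := key n1 n3 (by rwa [sub_add_sub_cancel])
  have e2 := key n2 (neg_ne_zero.mpr n3) (by rwa [neg_sub, sub_add_sub_cancel])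
  have e3 := key (neg_ne_zero.mpr n1) n2 (by rwa [neg_sub, sub_add_sub_cancel])
  rw [sub_add_sub_cancel] at e1
  rw [ord_neg, neg_sub, sub_add_sub_cancel] at e2 e3
  unfold Iso
  omega

theorem quartet_pos {a b c d e f : ℤ} (_ : Iso a b d) (i2 : Iso a c e) (i3 : Iso b c f)
    (i4 : Iso d e f) : 0 < a + f - b - e ↔ (b < a ∧ c < a) ∨ (b < f ∧ d < f) := by
  unfold Iso at *
  omega

/-- Adding the point at infinity to a table of valuations. -/
def extD {r : ℕ} (d : Fin r → Fin r → ℤ) (m : ℤ) : Fin (r + 1) → Fin (r + 1) → ℤ :=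
  Fin.cons (fun _ => m) fun i => Fin.cons m (d i)

variable {r : ℕ} {a : Fin r → K} {c : K}

theorem ord_cr_ext (ha : Function.Injective a) (hc : ∀ i, a i - c ≠ 0) (v : FinitePlace K) (m : ℤ)
    {E : Fin (r + 1) → Fin (r + 1) → ℤ} (hE : E = extD (fun i j => ord v (a i - a j)) m)
    {i j k l : Fin (r + 1)} (hq : [i, j, k, l].Nodup) :
    ord v (cr (mob a c) i j k l) = E i j + E k l - E i k - E j l := by
  obtain ⟨u, e1, e2, e3⟩ := ord_mob ha hc v
  obtain ⟨U, hU0, hU⟩ : ∃ U : Fin (r + 1) → ℤ, U 0 = -m ∧ ∀ i : Fin r, U i.succ = u i.succ :=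
    ⟨Fin.cons (-m) fun i => u i.succ, rfl, fun _ => rfl⟩
  have key : ∀ i j : Fin (r + 1), i ≠ j → ord v (mob a c i - mob a c j) = U i + U j + E i j := by
    intro i j hij
    induction i using Fin.cases with
    | zero =>
      induction j using Fin.cases with
      | zero => exact absurd rfl hij
      | succ j => rw [e3, hU0, hU, hE]; simp [extD]
    | succ i =>
      induction j using Fin.cases with
      | zero => rw [e2, hU0, hU, hE]; simp [extD]
      | succ j =>
        rw [e1 i j fun h => hij (h ▸ rfl), hU, hU, hE]; simp only [extD, Fin.cons_succ]; ring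
  obtain ⟨h1, h2, -, -, h5, h6⟩ := nodup4.mp hq
  rw [ord_cr (mob_inj ha hc) v hq, key _ _ h1, key _ _ h2, key _ _ h5, key _ _ h6]
  ring

/-- The labelled cluster picture of the points at `v`. -/
def pic (a : Fin r → K) (v : FinitePlace K) : Set (Fin r × Fin r × Fin r) :=
  {x | v.maximalIdeal.valuation K (a x.1 - a x.2.1) < v.maximalIdeal.valuation K (a x.1 - a x.2.2)}

theorem mem_pic (ha : Function.Injective a) (v : FinitePlace K) {i j k : Fin r} (h1 : i ≠ j)
    (h2 : i ≠ k) : (i, j, k) ∈ pic a v ↔ ord v (a i - a k) < ord v (a i - a j) := by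
  rw [pic, Set.mem_ofPred_eq, ← WithZero.log_lt_log (val_ne_zero v (sub_ne ha h1))
    (val_ne_zero v (sub_ne ha h2))]
  unfold ord
  simp

theorem exists_ext_pic (ha : Function.Injective a) (hc : ∀ i, a i - c ≠ 0) (v : FinitePlace K) :
    ∃ E : Fin (r + 1) → Fin (r + 1) → ℤ, (∀ i j k l, [i, j, k, l].Nodup →
      (0 < ord v (cr (mob a c) i j k l) ↔
        (E i k < E i j ∧ E i l < E i j) ∨ (E k i < E k l ∧ E k j < E k l))) ∧
      ∀ i j k, i ≠ j → i ≠ k → (E i k < E i j ↔ i ≠ 0 ∧ j ≠ 0 ∧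
        ∀ x y z : Fin r, i = x.succ → j = y.succ → k = z.succ → (x, y, z) ∈ pic a v) := by
  obtain ⟨m, hm⟩ : ∃ m : ℤ, ∀ i j, m < ord v (a i - a j) := by
    obtain ⟨m, hm⟩ := Finite.exists_ge fun x : Fin r × Fin r => ord v (a x.1 - a x.2)
    exact ⟨m - 1, fun i j => by linarith [hm (i, j)]⟩
  obtain ⟨E, hE⟩ : ∃ E, E = extD (fun i j => ord v (a i - a j)) m := ⟨_, rfl⟩
  have hs : ∀ i j, E i j = E j i := by
    intro i j
    induction i using Fin.cases <;> induction j using Fin.cases <;> simp [hE, extD]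
    rw [← ord_neg, neg_sub]
  have hu : ∀ i j k, i ≠ j → i ≠ k → j ≠ k → Iso (E i j) (E i k) (E j k) := by
    intro i j k h1 h2 h3
    induction i using Fin.cases <;> induction j using Fin.cases <;> induction k using Fin.cases <;>
      simp only [hE, extD, Fin.cons_succ, Fin.cons_zero] <;>
      first
      | exact ord_iso v (ha.ne fun h => h1 (h ▸ rfl)) (ha.ne fun h => h2 (h ▸ rfl))
          (ha.ne fun h => h3 (h ▸ rfl))
      | simp [Iso, (hm _ _).le]
  refine ⟨E, fun i j k l hq => ?_, fun i j k h1 h2 => ?_⟩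
  · obtain ⟨h1, h2, h3, h4, h5, h6⟩ := nodup4.mp hq
    rw [ord_cr_ext ha hc v m hE hq, hs k i, hs k j]
    exact quartet_pos (hu _ _ _ h1 h2 h4) (hu _ _ _ h1 h3 h5) (hu _ _ _ h2 h3 h6)
      (hu _ _ _ h4 h5 h6)
  · induction i using Fin.cases with
    | zero => simp [hE, extD]
    | succ i =>
      induction j using Fin.cases with
      | zero => induction k using Fin.cases <;> simp [hE, extD, (hm _ _).le]
      | succ j =>
        induction k using Fin.cases with
        | zero => simp [hE, extD, hm, (Fin.succ_ne_zero _).symm]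
        | succ k =>
          simp [hE, extD, mem_pic ha v (i := i) (j := j) (k := k) (fun h => h1 (h ▸ rfl))
            fun h => h2 (h ▸ rfl)]

theorem pos_iff_of_pic (ha : Function.Injective a) (hc : ∀ i, a i - c ≠ 0) {v w : FinitePlace K}
    (h : pic a v = pic a w) {i j k l : Fin (r + 1)} (hq : [i, j, k, l].Nodup) :
    0 < ord v (cr (mob a c) i j k l) ↔ 0 < ord w (cr (mob a c) i j k l) := by
  obtain ⟨E, e1, e2⟩ := exists_ext_pic ha hc v
  obtain ⟨E', e3, e4⟩ := exists_ext_pic ha hc w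
  obtain ⟨h1, h2, h3, h4, -, h6⟩ := nodup4.mp hq
  rw [e1 _ _ _ _ hq, e3 _ _ _ _ hq, e2 _ _ _ h1 h2, e2 _ _ _ h1 h3, e2 _ _ _ h6 h2.symm,
    e2 _ _ _ h6 h4.symm, e4 _ _ _ h1 h2, e4 _ _ _ h1 h3, e4 _ _ _ h6 h2.symm,
    e4 _ _ _ h6 h4.symm, h]

theorem zero_of_pic (ha : Function.Injective a) (hc : ∀ i, a i - c ≠ 0) {v w : FinitePlace K}
    (h : pic a v = pic a w) {i j k l : Fin (r + 1)} (hq : [i, j, k, l].Nodup)
    (h0 : ord v (cr (mob a c) i j k l) = 0) : ord w (cr (mob a c) i j k l) = 0 := by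
  have h1 := pos_iff_of_pic ha hc h hq
  have h2 := pos_iff_of_pic ha hc h (nodup_swap' hq)
  rw [← cr_inv, ord_inv, ord_inv] at h2
  omega

end Pool.Agent.Lib.MP_07b2d0_nt
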