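import Mathlib
import Pool.Agent.Lib.MP_07b2d0_nt.Pic
import Pool.Agent.Lib.MP_07b2d0_nt.Half

/-!
Five points which degenerate at no more than two extra primes.
-/

set_option autoImplicit false

namespace Pool.Agent.Lib.MP_07b2d0_nt

open Finset Real NumberField Height Module

variable {K : Type} [Field K] [NumberField K]

theorem ord_cr_mob {a : Fin 4 → K} {c : K} (ha : Function.Injective a) (hc : ∀ i, a i - c ≠ 0)
    (v : FinitePlace K) {A B : ℕ} {μ x y : ℤ} (hA : chi A 0 = 0) (hB : chi B 0 = 0)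
    (h : ∀ i j, i ≠ j → ord v (a i - a j) =
      μ + x * (chi A i.succ * chi A j.succ) + y * (chi B i.succ * chi B j.succ))
    {i j k l : Fin 5} (hq : [i, j, k, l].Nodup) :
    ord v (cr (mob a c) i j k l) = x * ee A i j k l + y * ee B i j k l := by
  obtain ⟨u, e1, e2, e3⟩ := ord_mob ha hc v
  obtain ⟨U, hU0, hU⟩ : ∃ U : Fin 5 → ℤ, U 0 = -μ ∧ ∀ i : Fin 4, U i.succ = u i.succ :=
    ⟨Fin.cons (-μ) fun i => u i.succ, rfl, fun _ => rfl⟩
  have key : ∀ i j : Fin 5, i ≠ j → ord v (mob a c i - mob a c j) =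
      U i + U j + μ + x * (chi A i * chi A j) + y * (chi B i * chi B j) := by
    intro i j hij
    induction i using Fin.cases with
    | zero =>
      induction j using Fin.cases with
      | zero => exact absurd rfl hij
      | succ j => rw [e3, hU0, hU, hA, hB]; ring
    | succ i =>
      induction j using Fin.cases with
      | zero => rw [e2, hU0, hU, hA, hB]; ring
      | succ j =>
        have h3 : i ≠ j := fun h => hij (h ▸ rfl)
        rw [e1 i j h3, h i j h3, hU, hU]; ring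
  obtain ⟨h1, h2, -, -, h5, h6⟩ := nodup4.mp hq
  rw [ord_cr (mob_inj ha hc) v hq, key _ _ h1, key _ _ h2, key _ _ h5, key _ _ h6, ee, ee]
  ring

/-- The degeneration of the five points at `v` has type `t`. -/
def HasType (b : Fin 5 → K) (v : FinitePlace K) (t : ℕ × ℕ) : Prop :=
  ∃ x y : ℤ, 0 < x ∧ 0 < y ∧ ∀ i j k l, [i, j, k, l].Nodup →
    ord v (cr b i j k l) = x * ee t.1 i j k l + y * ee t.2 i j k l

theorem ee_zero (i j k l : Fin 5) : ee 0 i j k l = 0 := by simp [ee, chi]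

theorem exists_type {a : Fin 4 → K} {c : K} (ha : Function.Injective a) (hc : ∀ i, a i - c ≠ 0)
    (v : FinitePlace K) : ∃ t ∈ trees, HasType (mob a c) v t := by
  obtain ⟨t, ht, μ, x, y, hx, hy, h⟩ := struct (d := fun i j => ord v (a i - a j))
    (fun i j => by rw [← ord_neg, neg_sub])
    fun i j k h1 h2 h3 => ord_iso v (ha.ne h1) (ha.ne h2) (ha.ne h3)
  obtain ⟨h1, h2, h3, h4, h5⟩ := shapes_spec t ht
  have key := fun i j k l => ord_cr_mob ha hc v h4 h5 h (i := i) (j := j) (k := k) (l := l)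
  rcases hx.eq_or_lt with rfl | hx <;> rcases hy.eq_or_lt with rfl | hy
  · exact ⟨(0, 0), by decide, 1, 1, one_pos, one_pos, fun i j k l hq => by
      simp [key i j k l hq, ee_zero]⟩
  · exact ⟨_, h3, y, 1, hy, one_pos, fun i j k l hq => by simp [key i j k l hq, ee_zero]⟩
  · exact ⟨_, h2, x, 1, hx, one_pos, fun i j k l hq => by simp [key i j k l hq, ee_zero]⟩
  · exact ⟨t, h1, x, y, hx, hy, key⟩

theorem HasType.pos_iff {b : Fin 5 → K} {v : FinitePlace K} {t : ℕ × ℕ} (h : HasType b v t)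
    (m : t ∈ trees) {i j k l : Fin 5} (hq : [i, j, k, l].Nodup) :
    0 < ord v (cr b i j k l) ↔ 0 < ee t.1 i j k l + ee t.2 i j k l := by
  obtain ⟨x, y, hx, hy, e⟩ := h
  rw [e _ _ _ _ hq]
  rcases trees_compat t m i j k l hq with ⟨h1, h2⟩ | ⟨h1, h2⟩
  · rw [← not_iff_not, not_lt, not_lt]
    exact ⟨fun h => by nlinarith, fun h => by
      rw [le_antisymm (by linarith) h1, le_antisymm (by linarith) h2]; simp⟩
  · exact iff_of_false (by nlinarith) (by linarith)

/-- The parameter after removing one type of degeneration. -/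
def nxt (n : ℕ) : ℕ := enl n (9 * pellC n)

variable {L : Type} [Field L] [NumberField L] {φ : K →+* L} {b : Fin 5 → K} {n N : ℕ}

theorem progress (s : Small L n N) (hn : 4 ≤ n) (hb : Function.Injective b)
    (hs : ∀ i j k l, [i, j, k, l].Nodup →
      IsSquare (cr (φ ∘ b) i j k l) ∧ IsSquare (cr (φ ∘ b) i j k l - 1))
    {t₁ t₂ : ℕ × ℕ} (m₁ : t₁ ∈ trees) (m₂ : t₂ ∈ trees)
    (h : ∀ v : FinitePlace K, v (N : K) = 1 →
      HasType b v t₁ ∨ HasType b v t₂ ∨ HasType b v (0, 0)) :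
    ∃ t, (t = t₁ ∨ t = t₂) ∧ ∀ v : FinitePlace K,
      v ((N * (3 ^ (9 * pellC n)).factorial : ℕ) : K) = 1 → HasType b v t → HasType b v (0, 0) := by
  have hb' := φ.injective.comp hb
  obtain ⟨G, hG⟩ : ∃ G, G = [t₁.1, t₁.2, t₂.1, t₂.2] := ⟨_, rfl⟩
  have h' : ∀ {P : ℕ → Prop}, (∀ A ∈ G, P A) → P 0 → ∀ v : FinitePlace K, v (N : K) = 1 →
      ∃ t : ℕ × ℕ, P t.1 ∧ P t.2 ∧ HasType b v t := by
    intro P h1 h2 v hv
    simp only [hG, List.forall_mem_cons] at h1
    rcases h v hv with h3 | h3 | h3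
    · exact ⟨_, h1.1, h1.2.1, h3⟩
    · exact ⟨_, h1.2.2.1, h1.2.2.2.1, h3⟩
    · exact ⟨_, h2, h2, h3⟩
  have fin : ∀ i j k l, [i, j, k, l].Nodup → (∀ A ∈ G, 0 ≤ ee A i j k l) →
      (∃ A ∈ G, 0 < ee A i j k l) → logHeight₁ (cr (φ ∘ b) i j k l) ≤ 9 * pellC n →
      ∃ t, (t = t₁ ∨ t = t₂) ∧ ∀ v : FinitePlace K,
        v ((N * (3 ^ (9 * pellC n)).factorial : ℕ) : K) = 1 → HasType b v t →
          HasType b v (0, 0) := by
    intro i j k l hq h1 h2 h3
    have h4 : logHeight₁ (cr b i j k l) ≤ (9 * pellC n : ℕ) := by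
      rw [← map_cr] at h3
      exact (logHeight_le_map φ _).trans (by exact_mod_cast h3)
    simp only [hG, List.mem_cons, List.not_mem_nil, or_false, exists_eq_or_imp,
      exists_eq_left, forall_eq_or_imp, forall_eq] at h1 h2
    have h5 : 0 < ee t₁.1 i j k l + ee t₁.2 i j k l ∨ 0 < ee t₂.1 i j k l + ee t₂.2 i j k l := by
      omega
    rcases h5 with h5 | h5
    · exact ⟨_, .inl rfl, fun v hv e => absurd (ord_eq_zero_of_height h4 (dvd_mul_left _ _) hv)
        ((e.pos_iff m₁ hq).mpr h5).ne'⟩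
    · exact ⟨_, .inr rfl, fun v hv e => absurd (ord_eq_zero_of_height h4 (dvd_mul_left _ _) hv)
        ((e.pos_iff m₂ hq).mpr h5).ne'⟩
  have pell : ∀ i j k l, [i, j, k, l].Nodup → (∀ A ∈ G, 0 ≤ ee A i j k l) →
      ∃ α, Pell n N (cr (φ ∘ b) i j k l) α := by
    intro i j k l hq h1
    refine s.pell ?_ (cr_ne_zero hb' hq) ?_ (hs _ _ _ _ hq).1 (hs _ _ _ _ hq).2
    · rw [← map_cr]
      refine map_mem_RN φ s.hN (mem_RN_iff_ord.mpr fun v hv => ?_)
      obtain ⟨t, a1, a2, x, y, hx, hy, e⟩ := h' h1 (ee_zero _ _ _ _).ge v hv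
      rw [e _ _ _ _ hq]
      positivity
    · rw [cr_sub_one hb' hq]
      exact neg_ne_zero.mpr (cr_ne_zero hb' (nodup_swap hq))
  have hP : (0 : ℝ) ≤ pellC n := Nat.cast_nonneg _
  rcases config t₁ m₁ t₂ m₂ with rfl | ⟨i, j, k, l, hq, h1, h2⟩ | ⟨c, e, d, o, f, q1, q2, q3, h1, h2⟩
  · exact ⟨_, .inl rfl, fun _ _ => id⟩
  · rw [← hG] at h1 h2
    obtain ⟨α, hα⟩ := pell i j k l hq fun A hA => (h1 A hA).1.ge
    have u : IsU N (cr (φ ∘ b) i j k l) := by
      rw [← map_cr]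
      refine (isU_of_ord (cr_ne_zero hb hq) fun v hv => ?_).map φ s.hN
      obtain ⟨t, a1, a2, x, y, hx, hy, e⟩ := h' h1 (by simp [ee_zero]) v hv
      rw [e _ _ _ _ hq, a1.1, a2.1]; simp
    have e2 := (hα.of_nu_le (by omega) (u.nu s.hN).le).2
    rw [cr_sub_one hb' hq, logHeight₁_neg] at e2
    exact fin i l k j (nodup_swap hq) (fun A hA => (h1 A hA).2) h2 (by linarith)
  · rw [← hG] at h1 h2
    obtain ⟨α, hα⟩ := pell c e d o q1 fun A hA => (h1 A hA).1
    obtain ⟨γ, hγ⟩ := pell c f d o q2 fun A hA => (h1 A hA).2.1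
    obtain ⟨n1, n2, n3, n4, n5, n6⟩ := nodup4.mp q1
    obtain ⟨n7, -, -, n8, n9, -⟩ := nodup4.mp q2
    have q4 : [e, f, c, o].Nodup := nodup4.mpr ⟨q3, n1.symm, n5, n7.symm, n9, n3⟩
    have c1 := cr_ne_zero hb q4
    have c2 := cr_ne_zero hb q1
    have u : IsU N (cr (φ ∘ b) c e d o - cr (φ ∘ b) c f d o) := by
      have e0 : cr b c e d o - cr b c f d o = cr b e f c o * cr b c e d o := by
        have := sub_ne hb n2
        have := sub_ne hb n5
        have := sub_ne hb n9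
        have := sub_ne hb n1.symm
        simp only [cr]
        field_simp
        ring
      rw [← map_cr, ← map_cr, ← map_sub, e0]
      refine (isU_of_ord (mul_ne_zero c1 c2) fun v hv => ?_).map φ s.hN
      obtain ⟨t, a1, a2, x, y, hx, hy, e⟩ := h' h1 (by simp [ee_zero]) v hv
      rw [ord_mul v c1 c2, e _ _ _ _ q4, e _ _ _ _ q1]
      linear_combination x * a1.2.2 + y * a2.2.2
    have u' := u.neg
    rw [neg_sub] at u'
    have g1 := s.eta hγ hα u.1
    have g2 := s.eta hα hγ u'.1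
    rw [u.nu s.hN] at g1
    rw [u'.nu s.hN, add_comm] at g2
    have z1 := zero_le_logHeight₁ α
    have z2 := zero_le_logHeight₁ γ
    have d1 : 4 * (logHeight₁ γ + logHeight₁ α) / n ≤ 4 * (logHeight₁ γ + logHeight₁ α) / 4 :=
      div_le_div_of_nonneg_left (by linarith) (by norm_num) (by exact_mod_cast hn)
    exact fin c e d o q1 (fun A hA => (h1 A hA).1) h2 (by linarith [hα.ht1])

theorem two_aux (hb : Function.Injective b)
    (hs : ∀ i j k l, [i, j, k, l].Nodup →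
      IsSquare (cr (φ ∘ b) i j k l) ∧ IsSquare (cr (φ ∘ b) i j k l - 1))
    {i j k l : Fin 5} (hq : [i, j, k, l].Nodup) (s : Small L n N) (hn : 4 ≤ n)
    {t₁ t₂ : ℕ × ℕ} (m₁ : t₁ ∈ trees) (m₂ : t₂ ∈ trees)
    (h : ∀ v : FinitePlace K, v (N : K) = 1 →
      HasType b v t₁ ∨ HasType b v t₂ ∨ HasType b v (0, 0)) :
    logHeight₁ (cr (φ ∘ b) i j k l) ≤ 2 * nfC (nxt (nxt n)) := by
  obtain ⟨t, m, h1⟩ : ∃ t ∈ trees, ∀ v : FinitePlace K,
      v ((N * (3 ^ (9 * pellC n)).factorial : ℕ) : K) = 1 → HasType b v t ∨ HasType b v (0, 0) := by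
    obtain ⟨t, rfl | rfl, h1⟩ := progress s hn hb hs m₁ m₂ h
    · exact ⟨_, m₂, fun v hv => (h v (fp_eq_one_of_dvd (dvd_mul_right _ _) hv)).elim
        (fun e => .inr (h1 v hv e)) id⟩
    · exact ⟨_, m₁, fun v hv => (h v (fp_eq_one_of_dvd (dvd_mul_right _ _) hv)).imp_right
        fun e => e.elim (h1 v hv) id⟩
  have s' := s.enlarge (9 * pellC n)
  rw [← nxt] at s'
  obtain ⟨t', h2, h3⟩ := progress s' (hn.trans (Nat.le_mul_of_pos_right _ (Nat.factorial_pos _)))
    hb hs m m fun v hv => (h1 v hv).imp_right .inr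
  obtain rfl : t' = t := h2.elim id id
  have s'' := s'.enlarge (9 * pellC (nxt n))
  rw [← nxt] at s''
  have key : ∀ i j k l, [i, j, k, l].Nodup → IsU (N * (3 ^ (9 * pellC n)).factorial *
      (3 ^ (9 * pellC (nxt n))).factorial) (cr (φ ∘ b) i j k l) := fun i j k l hq => by
    rw [← map_cr]
    refine (isU_of_ord (cr_ne_zero hb hq) fun v hv => ?_).map φ s''.hN
    obtain ⟨x, y, -, -, e⟩ := (h1 v (fp_eq_one_of_dvd (dvd_mul_right _ _) hv)).elim (h3 v hv) id
    simp [e _ _ _ _ hq, ee_zero]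
  refine s''.unit_eq (key _ _ _ _ hq) ?_
  rw [cr_sub_one (φ.injective.comp hb) hq]
  exact (key _ _ _ _ (nodup_swap hq)).neg

theorem isSquare_cr_mob {F : Type} [Field F] {r : ℕ} {a : Fin r → F} {c : F}
    (ha : Function.Injective a) (hc : ∀ i, a i - c ≠ 0) (h : ∀ i j, i ≠ j → IsSquare (a i - a j))
    {p q : Fin r} (hpq : p ≠ q) (i j k l : Fin (r + 1)) (hq : [i, j, k, l].Nodup) :
    IsSquare (cr (mob a c) i j k l) ∧ IsSquare (cr (mob a c) i j k l - 1) := by
  have h1 : IsSquare (-1 : F) := by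
    have := (h p q hpq).div (h q p hpq.symm)
    rwa [← neg_sub, neg_div, div_self (sub_ne ha hpq.symm)] at this
  obtain ⟨t, ht0, ht⟩ : ∃ t : Fin (r + 1) → F, t 0 = 1 ∧ ∀ i : Fin r, t i.succ = a i - c :=
    ⟨Fin.cons 1 fun i => a i - c, rfl, fun _ => rfl⟩
  have ht1 : ∀ i, t i ≠ 0 := fun i => by
    induction i using Fin.cases with
    | zero => rw [ht0]; exact one_ne_zero
    | succ i => rw [ht]; exact hc i
  have h2 : ∀ i j, i ≠ j → IsSquare ((mob a c i - mob a c j) * (t i * t j)) := by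
    intro i j hij
    induction i using Fin.cases with
    | zero =>
      induction j using Fin.cases with
      | zero => exact absurd rfl hij
      | succ j => simpa [mob, ht0, ht, inv_mul_cancel₀ (hc j)] using h1
    | succ i =>
      induction j using Fin.cases with
      | zero => simp [mob, ht0, ht, inv_mul_cancel₀ (hc i)]
      | succ j =>
        rw [mob_sub hc, ht, ht, div_mul_cancel₀ _ (mul_ne_zero (hc i) (hc j)), neg_sub]
        exact h j i fun h => hij (h ▸ rfl)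
  have h3 : ∀ i j k l, [i, j, k, l].Nodup → IsSquare (cr (mob a c) i j k l) := by
    intro i j k l hq
    obtain ⟨n1, n2, -, -, n5, n6⟩ := nodup4.mp hq
    refine Eq.subst ?_ (((h2 _ _ n1).mul (h2 _ _ n6)).div ((h2 _ _ n2).mul (h2 _ _ n5)))
    have := ht1 i
    have := ht1 j
    have := ht1 k
    have := ht1 l
    have := sub_ne (mob_inj ha hc) n2
    have := sub_ne (mob_inj ha hc) n5
    simp only [cr]
    field_simp
  refine ⟨h3 _ _ _ _ hq, ?_⟩
  rw [cr_sub_one (mob_inj ha hc) hq, neg_eq_neg_one_mul]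
  exact h1.mul (h3 _ _ _ _ (nodup_swap hq))

theorem two_pics (s : Small L n N) (hn : 4 ≤ n) {a : Fin 4 → K} (ha : Function.Injective a)
    (hs : ∀ i j, i ≠ j → IsSquare (φ (a i) - φ (a j))) {P Q : Set (Fin 4 × Fin 4 × Fin 4)}
    (h : ∀ v : FinitePlace K, v (N : K) = 1 → pic a v = P ∨ pic a v = Q ∨
      ∀ i j k, i ≠ j → i ≠ k → ord v (a i - a j) = ord v (a i - a k)) :
    logHeight₁ ((a 0 - a 1) / (a 0 - a 2)) ≤ 2 * nfC (nxt (nxt n)) := by
  obtain ⟨c, hc⟩ := exists_ne_all a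
  have e : φ ∘ mob a c = mob (φ ∘ a) (φ c) := by
    funext i
    induction i using Fin.cases <;> simp [mob]
  have key : ∀ P, ∃ t ∈ trees, ∀ v, pic a v = P → HasType (mob a c) v t := by
    intro P
    by_cases h0 : ∃ w, pic a w = P
    · obtain ⟨w, rfl⟩ := h0
      obtain ⟨t, m, ht⟩ := exists_type ha hc w
      refine ⟨t, m, fun v hv => ?_⟩
      obtain ⟨t', m', ht'⟩ := exists_type ha hc v
      rcases trees_sep t m t' m' with rfl | ⟨i, j, k, l, hq, h1⟩
      · exact ht'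
      · exact absurd ((ht.pos_iff m hq).symm.trans
          ((pos_iff_of_pic ha hc hv.symm hq).trans (ht'.pos_iff m' hq))) h1
    · exact ⟨(0, 0), by decide, fun v hv => absurd ⟨v, hv⟩ h0⟩
  obtain ⟨t₁, m₁, h₁⟩ := key P
  obtain ⟨t₂, m₂, h₂⟩ := key Q
  rw [← cr_mob ha hc (by decide)]
  refine (logHeight_le_map φ _).trans ?_
  rw [map_cr]
  refine two_aux (mob_inj ha hc) ?_ (by decide) s hn m₁ m₂ fun v hv =>
    (h v hv).imp (h₁ v) (.imp (h₂ v) fun h => ⟨1, 1, one_pos, one_pos, fun i j k l hq => ?_⟩)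
  · rw [e]
    exact isSquare_cr_mob (φ.injective.comp ha) (fun i => by simpa [← map_sub] using hc i) hs
      (show 0 ≠ 1 by decide)
  · refine ord_cr_mob ha hc v (μ := ord v (a 0 - a 1)) rfl rfl (fun i j hij => ?_) hq
    simp only [chi, Nat.zero_testBit, Bool.false_eq_true, if_false, mul_zero, add_zero]
    by_cases c : i = 0
    · subst c; exact h _ _ _ hij (by decide)
    · rw [h i j 0 hij c, ← ord_neg, neg_sub]
      exact h _ _ _ (Ne.symm c) (by decide)

theorem pr_nxt {α : Type} [Primcodable α] {f : α → ℕ} (hf : Primrec f) :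
    Primrec fun a => nxt (f a) := pr_enl hf (pr_mul (.const _) (pr_pellC hf))

/-- The final bound for `t` extra primes. -/
def finC (t N D : ℕ) : ℕ := 2 * nfC (nxt^[t] (par N D))

theorem pr_finC : Primrec fun x : ℕ × ℕ × ℕ => finC x.1 x.2.1 x.2.2 :=
  pr_mul (.const _) (pr_nfC (Primrec.nat_iterate (h := fun _ b => nxt b) .fst (pr_par.comp .snd)
    (pr_nxt .snd)))

end Pool.Agent.Lib.MP_07b2d0_nt
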