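import Mathlib
import Pool.Agent.Lib.MP_07b2d0_nt.Two
import Pool.Agent.Lib.MP_07b2d0_nt.Ramsey

/-!
Many points which degenerate at a bounded number of extra primes.
-/

set_option autoImplicit false

namespace Pool.Agent.Lib.MP_07b2d0_nt

open Finset Real NumberField Height Module

theorem hom4 {a b c d e f : ℤ} (i1 : Iso a b d) (i2 : Iso a c e) (i3 : Iso b c f) (i4 : Iso d e f)
    {P Q R : Prop} (h1 : (a < d ↔ P) ∧ (d < a ↔ Q) ∧ (a < b ↔ R))
    (h2 : (a < e ↔ P) ∧ (e < a ↔ Q) ∧ (a < c ↔ R)) (h3 : (b < f ↔ P) ∧ (f < b ↔ Q) ∧ (b < c ↔ R))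
    (h4 : (d < f ↔ P) ∧ (f < d ↔ Q) ∧ (d < e ↔ R)) :
    b + e = c + d ∧ (a + f = c + d → ¬P ∧ ¬Q ∧ ¬R) := by
  unfold Iso at *
  by_cases hP : P <;> by_cases hQ : Q <;> by_cases hR : R <;>
    simp only [hP, hQ, hR, iff_true, iff_false, not_true, not_false_iff, and_self, and_false,
      imp_false, imp_true_iff, and_true] at h1 h2 h3 h4 ⊢ <;> omega

section Comb

variable {ι : Type} [LinearOrder ι]

/-- The property holds for an increasing triple in `e`. -/
def Tri (P : ι → ι → ι → Prop) (e : Finset ι) : Prop :=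
  ∃ x ∈ e, ∃ y ∈ e, ∃ z ∈ e, x < y ∧ y < z ∧ P x y z

theorem tri_iff {P : ι → ι → ι → Prop} {i j l : ι} (h1 : i < j) (h2 : j < l) :
    Tri P {i, j, l} ↔ P i j l := by
  refine ⟨?_, fun h => ⟨i, by simp, j, by simp, l, by simp, h1, h2, h⟩⟩
  rintro ⟨x, hx, y, hy, z, hz, e1, e2, h⟩
  simp only [mem_insert, mem_singleton] at hx hy hz
  rcases hx with rfl | rfl | rfl <;> rcases hy with rfl | rfl | rfl <;>
    rcases hz with rfl | rfl | rfl <;> first | exact h | (exfalso; order)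

theorem comb [Fintype ι] {V : Type} {T : Finset V} {t : ℕ} (hT : T.card ≤ t)
    (hι : ram (8 ^ t) 3 (4 * t + 4) ≤ Fintype.card ι) {d : V → ι → ι → ℤ}
    (hs : ∀ v i j, d v i j = d v j i)
    (hu : ∀ v i j k, i ≠ j → i ≠ k → j ≠ k → Iso (d v i j) (d v i k) (d v j k))
    (h : ∀ i j k l, [i, j, k, l].Nodup → (∀ w ∈ T, d w i j + d w k l = d w i k + d w j l) →
      ∀ w ∈ T, d w i l + d w k j = d w i k + d w l j)
    {i j k l : ι} (hq : [i, j, k, l].Nodup) {v : V} (hv : v ∈ T) :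
    d v i j + d v k l = d v i k + d v j l := by
  classical
  obtain ⟨H, -, hH, κ, hκ⟩ := ramsey (C := T → Prop × Prop × Prop) (q := 8 ^ t)
    (by simpa using Nat.pow_le_pow_right (by norm_num) hT) 3 _ univ
    (fun e w => (Tri (fun x y z => d w x y < d w y z) e, Tri (fun x y z => d w y z < d w x y) e,
      Tri (fun x y z => d w x y < d w x z) e)) hι
  have h1 : ∀ w (hw : w ∈ T), ∀ x ∈ H, ∀ y ∈ H, ∀ z ∈ H, x < y → y < z →
      (d w x y < d w y z ↔ (κ ⟨w, hw⟩).1) ∧ (d w y z < d w x y ↔ (κ ⟨w, hw⟩).2.1) ∧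
        (d w x y < d w x z ↔ (κ ⟨w, hw⟩).2.2) := by
    intro w hw x hx y hy z hz e1 e2
    have := congrFun (hκ {x, y, z} (by simp [insert_subset_iff, hx, hy, hz])
      (card_eq_three.mpr ⟨x, y, z, e1.ne, (e1.trans e2).ne, e2.ne, rfl⟩)) ⟨w, hw⟩
    simp only [← this, tri_iff e1 e2, and_self]
  obtain ⟨x, hx⟩ : ∃ x : Fin 4 ↪o ι, ∀ s, x s ∈ H :=
    ⟨H.orderEmbOfCardLe (by omega), H.orderEmbOfCardLe_mem _⟩
  have l1 : x 0 < x 1 := x.strictMono (by decide)
  have l2 : x 1 < x 2 := x.strictMono (by decide)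
  have l3 : x 2 < x 3 := x.strictMono (by decide)
  have l4 := l1.trans l2
  have l5 := l2.trans l3
  have l6 := l1.trans l5
  have h2 := fun w hw => hom4 (hu w _ _ _ l1.ne l4.ne l2.ne) (hu w _ _ _ l1.ne l6.ne l5.ne)
    (hu w _ _ _ l4.ne l6.ne l3.ne) (hu w _ _ _ l2.ne l5.ne l3.ne)
    (h1 w hw _ (hx 0) _ (hx 1) _ (hx 2) l1 l2) (h1 w hw _ (hx 0) _ (hx 1) _ (hx 3) l1 l5)
    (h1 w hw _ (hx 0) _ (hx 2) _ (hx 3) l4 l3) (h1 w hw _ (hx 1) _ (hx 2) _ (hx 3) l2 l3)
  have h3 := h (x 0) (x 2) (x 3) (x 1) (nodup4.mpr ⟨l4.ne, l6.ne, l1.ne, l3.ne, l2.ne', l5.ne'⟩)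
    fun w hw => by rw [hs w (x 3), hs w (x 2)]; exact (h2 w hw).1
  have h4 : ∀ w ∈ T, ∀ x ∈ H, ∀ y ∈ H, ∀ z ∈ H, x < y → y < z →
      d w x y = d w y z ∧ d w x y = d w x z := by
    intro w hw a ha b hb c hc e1 e2
    obtain ⟨c1, c2, c3⟩ := (h2 w hw).2 (by rw [hs w (x 2)]; exact h3 w hw)
    obtain ⟨c4, c5, c6⟩ := h1 w hw a ha b hb c hc e1 e2
    have := hu w a b c e1.ne (e1.trans e2).ne e2.ne
    rw [← c4] at c1
    rw [← c5] at c2
    rw [← c6] at c3
    unfold Iso at this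
    omega
  have h5 : ∀ w ∈ T, ∀ x ∈ H, ∀ y ∈ H, ∀ z ∈ H, x ≠ y → x ≠ z → d w x y = d w x z := by
    intro w hw a ha b hb c hc e1 e2
    wlog e3 : b < c generalizing b c
    · rcases (not_lt.mp e3).eq_or_lt with rfl | e3
      · rfl
      · exact (this c hc b hb e2 e1 e3).symm
    rcases e1.lt_or_gt with e4 | e4
    · exact (h4 w hw a ha b hb c hc e4 e3).2
    rcases e2.lt_or_gt with e5 | e5
    · rw [hs w a b]; exact (h4 w hw b hb a ha c hc e4 e5).1
    · obtain ⟨c1, c2⟩ := h4 w hw b hb c hc a ha e3 e5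
      rw [hs w a b, hs w a c, ← c1, c2]
  have h6 : ∀ w ∈ T, ∀ a ∈ H, ∀ b ∈ H, a ≠ b → d w a b = d w (x 0) (x 1) := by
    intro w hw a ha b hb e
    by_cases c : a = x 0
    · subst c; exact h5 w hw _ ha _ hb _ (hx 1) e l1.ne
    · rw [h5 w hw a ha b hb _ (hx 0) e c, hs]
      exact h5 w hw _ (hx 0) _ ha _ (hx 1) (Ne.symm c) l1.ne
  obtain ⟨B, hB⟩ : ∃ B : V → ι → Finset ι, ∀ w s y, y ∈ B w s ↔
      y ∈ H ∧ (y = s ∨ d w (x 0) (x 1) < d w s y) :=
    ⟨fun w s => H.filter fun y => y = s ∨ d w (x 0) (x 1) < d w s y, fun _ _ _ => mem_filter⟩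
  have h7 : ∀ w ∈ T, ∀ s, (B w s).card ≤ 1 := by
    intro w hw s
    refine card_le_one.mpr fun a ha b hb => by_contra fun e => ?_
    obtain ⟨ha, ha'⟩ := (hB _ _ _).mp ha
    obtain ⟨hb, hb'⟩ := (hB _ _ _).mp hb
    have c1 := h6 w hw a ha b hb e
    have c2 := hs w a b
    by_cases c3 : a = s
    · subst c3; exact (hb'.resolve_left (Ne.symm e)).ne' c1
    by_cases c4 : b = s
    · subst c4; exact (ha'.resolve_left e).ne' (c2 ▸ c1)
    have := hu w s a b (Ne.symm c3) (Ne.symm c4) e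
    have := ha'.resolve_left c3
    have := hb'.resolve_left c4
    unfold Iso at *
    omega
  have h8 : (T.biUnion fun w => ({i, j, k, l} : Finset ι).biUnion (B w)).card ≤ t * 4 :=
    (card_biUnion_le_card_mul _ _ 4 fun w hw => (card_biUnion_le_card_mul _ _ 1
      fun s _ => h7 w hw s).trans (by simpa using card_le_four)).trans (Nat.mul_le_mul_right _ hT)
  obtain ⟨p, hp, q, hq', hpq⟩ := one_lt_card.mp (lt_of_lt_of_le (by omega)
    (le_card_sdiff (T.biUnion fun w => ({i, j, k, l} : Finset ι).biUnion (B w)) H))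
  simp only [mem_sdiff, mem_biUnion, not_exists, not_and, hB, not_or, not_lt] at hp hq'
  have h9 : ∀ w ∈ T, ∀ s ∈ ({i, j, k, l} : Finset ι), d w s p = d w s q := by
    intro w hw s hs'
    obtain ⟨c1, c2⟩ := hp.2 w hw s hs' hp.1
    obtain ⟨c3, c4⟩ := hq'.2 w hw s hs' hq'.1
    have := hu w s p q (Ne.symm c1) (Ne.symm c3) hpq
    have := h6 w hw p hp.1 q hq'.1 hpq
    unfold Iso at *
    omega
  have h10 : ∀ s ∈ ({i, j, k, l} : Finset ι), ∀ s' ∈ ({i, j, k, l} : Finset ι), s ≠ s' →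
      d v s s' + d v q p = d v s q + d v s' q := by
    intro s m1 s' m2 e
    rw [← h9 v hv s' m2]
    refine h s p q s' (nodup4.mpr ⟨Ne.symm (hp.2 v hv s m1 hp.1).1, Ne.symm (hq'.2 v hv s m1 hq'.1).1,
      e, hpq, (hp.2 v hv s' m2 hp.1).1, (hq'.2 v hv s' m2 hq'.1).1⟩) (fun w hw => ?_) v hv
    rw [h9 w hw s m1, hs w q, hs w p, h9 w hw s' m2]
  obtain ⟨n1, n2, -, -, n5, n6⟩ := nodup4.mp hq
  have := h10 i (by simp) j (by simp) n1
  have := h10 i (by simp) k (by simp) n2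
  have := h10 j (by simp) l (by simp) n5
  have := h10 k (by simp) l (by simp) n6
  omega

end Comb

variable {K : Type} [Field K] [NumberField K] {L : Type} [Field L] [NumberField L] {φ : K →+* L}
  {ι : Type} [LinearOrder ι] [Fintype ι] {b : ι → K}

theorem many_aux (hb : Function.Injective b)
    (hs : ∀ i j k l, [i, j, k, l].Nodup →
      IsSquare (cr (φ ∘ b) i j k l) ∧ IsSquare (cr (φ ∘ b) i j k l - 1))
    {Y : Type} {ty : FinitePlace K → Y} (hty : ∀ v w, ty v = ty w → ∀ i j k l, [i, j, k, l].Nodup →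
      ord v (cr b i j k l) = 0 → ord w (cr b i j k l) = 0)
    {i j k l : ι} (hq : [i, j, k, l].Nodup) {t₀ : ℕ}
    (hι : ram (8 ^ t₀) 3 (4 * t₀ + 4) ≤ Fintype.card ι) (t : ℕ) (h2 : t ≤ t₀) :
    ∀ (n N : ℕ) (S : Finset Y), Small L n N → S.card ≤ t →
      (∀ v : FinitePlace K, v (N : K) = 1 → ty v ∈ S ∨
        ∀ i j k l, [i, j, k, l].Nodup → ord v (cr b i j k l) = 0) →
      logHeight₁ (cr (φ ∘ b) i j k l) ≤ 2 * nfC (nxt^[t] n) := by
  classical
  have hb' := φ.injective.comp hb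
  induction t with
  | zero =>
    intro n N S s hS h
    rw [Nat.le_zero, card_eq_zero] at hS
    have key : ∀ i j k l, [i, j, k, l].Nodup → IsU N (cr (φ ∘ b) i j k l) := fun i j k l hq => by
      rw [← map_cr]
      exact (isU_of_ord (cr_ne_zero hb hq) fun v hv =>
        (h v hv).resolve_left (by simp [hS]) _ _ _ _ hq).map φ s.hN
    rw [Function.iterate_zero_apply]
    refine s.unit_eq (key _ _ _ _ hq) ?_
    rw [cr_sub_one hb' hq]
    exact (key _ _ _ _ (nodup_swap hq)).neg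
  | succ t ih =>
    intro n N S s hS h
    rw [Function.iterate_succ_apply, nxt]
    by_cases h0 : ∀ y : S, ∃ w, ty w = y ∧ w ((N * (3 ^ (9 * pellC n)).factorial : ℕ) : K) = 1
    · choose ρ h0 h0' using h0
      have h3 : ∀ i j k l, [i, j, k, l].Nodup → (∀ w ∈ univ.image ρ, ord w (cr b i j k l) = 0) →
          ∀ v : FinitePlace K, v (N : K) = 1 → ord v (cr b i j k l) = 0 := fun i j k l hq h1 v hv =>
        (h v hv).elim (fun c => hty _ _ (h0 ⟨_, c⟩) _ _ _ _ hq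
          (h1 _ (mem_image_of_mem _ (mem_univ _)))) fun c => c _ _ _ _ hq
      refine ih (by omega) _ _ ∅ (s.enlarge _) (by simp) fun v hv => .inr fun i j k l hq =>
        h3 i j k l hq (fun v c => ?_) v (fp_eq_one_of_dvd (dvd_mul_right _ _) hv)
      have := comb (card_image_le.trans (by simpa using hS.trans h2)) hι
        (d := fun v i j => ord v (b i - b j)) (fun v i j => by rw [← ord_neg, neg_sub])
        (fun v i j k h1 h2 h3 => ord_iso v (hb.ne h1) (hb.ne h2) (hb.ne h3))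
        (fun i j k l hq h1 w hw => ?_) hq c
      · rw [ord_cr hb v hq]; omega
      have u : IsU N (cr (φ ∘ b) i j k l) := by
        rw [← map_cr]
        refine (isU_of_ord (cr_ne_zero hb hq) (h3 _ _ _ _ hq fun v c => ?_)).map φ s.hN
        have := h1 v c
        rw [ord_cr hb v hq]; omega
      obtain ⟨α, hα⟩ := s.pell u.2.1 u.1 (by
        rw [cr_sub_one hb' hq]; exact neg_ne_zero.mpr (cr_ne_zero hb' (nodup_swap hq)))
        (hs _ _ _ _ hq).1 (hs _ _ _ _ hq).2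
      have e2 := (hα.of_nu_le ((Nat.le_of_dvd (Nat.pos_of_ne_zero s.hN) s.h2).trans s.hNn)
        (u.nu s.hN).le).2
      rw [cr_sub_one hb' hq, logHeight₁_neg, ← map_cr] at e2
      have e3 : logHeight₁ (cr b i l k j) ≤ (9 * pellC n : ℕ) := by
        refine (logHeight_le_map φ _).trans (e2.trans ?_)
        push_cast
        linarith [Nat.cast_nonneg (α := ℝ) (pellC n)]
      obtain ⟨y, -, rfl⟩ := mem_image.mp hw
      have e4 := ord_eq_zero_of_height e3 (dvd_mul_left _ _) (h0' y)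
      rw [ord_cr hb _ (nodup_swap hq)] at e4
      omega
    · push Not at h0
      obtain ⟨y, hy⟩ := h0
      refine ih (by omega) _ _ (S.erase y) (s.enlarge _) ?_ fun v hv => ?_
      · rw [card_erase_of_mem y.2]; omega
      · exact (h v (fp_eq_one_of_dvd (dvd_mul_right _ _) hv)).imp_left
          fun h0 => mem_erase.mpr ⟨fun c => hy v c hv, h0⟩

theorem many_pics {n N r t : ℕ} (s : Small L n N) {a : Fin r → K} (ha : Function.Injective a)
    (hr : ram (8 ^ t) 3 (4 * t + 4) ≤ r)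
    (hs : ∀ i j, i ≠ j → IsSquare (φ (a i) - φ (a j))) {S : Finset (Set (Fin r × Fin r × Fin r))}
    (hS : S.card ≤ t) (h : ∀ v : FinitePlace K, v (N : K) = 1 → pic a v ∈ S)
    {i j k : Fin r} (hij : i ≠ j) (hik : i ≠ k) (hjk : j ≠ k) :
    logHeight₁ ((a i - a j) / (a i - a k)) ≤ 2 * nfC (nxt^[t] n) := by
  obtain ⟨c, hc⟩ := exists_ne_all a
  have e : φ ∘ mob a c = mob (φ ∘ a) (φ c) := by
    funext i
    induction i using Fin.cases <;> simp [mob]
  rw [← cr_mob ha hc hik]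
  refine (logHeight_le_map φ _).trans ?_
  rw [map_cr]
  refine many_aux (mob_inj ha hc) ?_ (fun v w h _ _ _ _ => zero_of_pic ha hc h)
    (by simp [hij, hik, hjk]) (by simp; omega) t le_rfl n N S s hS fun v hv => .inl (h v hv)
  rw [e]
  exact isSquare_cr_mob (φ.injective.comp ha) (fun i => by simpa [← map_sub] using hc i) hs hij

end Pool.Agent.Lib.MP_07b2d0_nt
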