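import Mathlib
import Pool.Agent.Lib.MP_07b2d0_nt.FE

set_option autoImplicit false

namespace Pool.Agent.Lib.MP_07b2d0_nt.OldFourfoldTheta

open NumberField Height IsDedekindDomain Pool.Agent.Lib.MP_07b2d0_nt Pool.Agent.Lib.MP_07b2d0_nt.Sch

theorem result : ∃ c : ℕ → ℕ → ℕ, Computable₂ c ∧
    ∀ (N : ℕ) (K : Type) [Field K] [NumberField K] (φ : K →+* ℂ) (τ : Matrix (Fin 4) (Fin 4) ℂ)
      (x : (Fin 4 → Fin 2) → (Fin 4 → Fin 2) → K) (y : K),
      0 < N → (∀ p : ℕ, p.Prime → (p : ℤ) ∣ discr K → p ∣ N) →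
      τ.IsSymm → (τ.map Complex.im).PosDef → theta τ 0 0 ≠ 0 →
      (∀ a b, φ (x a b) = (theta τ a b / theta τ 0 0) ^ 8) →
      φ y = schottky τ / theta τ 0 0 ^ 16 →
      (∀ v : HeightOneSpectrum (𝓞 K), (N : 𝓞 K) ∉ v.asIdeal →
        (∀ a b, (∀ i, a i * b i = 0) → v.valuation K (x a b) = 1) ∧ IsSquare (v.valuation K y)) →
      ∀ a b, logHeight₁ (x a b) ≤ c N (Module.finrank ℚ K) := by
  have hc : Primrec fun n => cF n := by
    unfold cF
    exact pr_mul (.const _) (pr_add (pr_mul (.const _) (pr_mul (.const _) .id))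
      (pr_mul (.const _) (pr_mul (pr_mul (.const _) .id) (pr_add (pr_mul (.const _) .id)
        (pr_mul (.const _) (pr_mul (.const _) (pr_nfC .id)))))))
  refine ⟨fun N D => cF (extN 81 (extN 81 (extN 81 (extN 1 (par N D))))),
    (hc.comp (pr_extN (.const _) (pr_extN (.const _) (pr_extN (.const _)
      (pr_extN (.const _) pr_par))))).to_comp, ?_⟩
  intro N K _ _ φ τ x y hN hd _ hτ h0 hx hy hv a b
  refine main (small_par hN.ne' hd) hτ h0 (fun a b hab => ⟨x a b, ?_, hx a b⟩) hy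
    (fun v h => ?_) a b (hx a b)
  · have h1 : ∀ v : FinitePlace K, v ((2 * N : ℕ) : K) = 1 →
        v.maximalIdeal.valuation K (x a b) = 1 := fun v h =>
      (hv _ (notMem_of_fp_eq_one h)).1 a b (congrFun hab)
    refine isU_of_ord (fun h2 => ?_) fun v h => by simp [ord, h1 v h]
    obtain ⟨v, h3⟩ := exists_place (K := K) hN.ne'
    simpa [h2] using (hv v h3).1 a b (congrFun hab)
  · obtain ⟨r, hr⟩ := (hv _ (notMem_of_fp_eq_one h)).2
    rw [ord, hr, ← sq, WithZero.log_pow]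
    simp

end Pool.Agent.Lib.MP_07b2d0_nt.OldFourfoldTheta
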