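import Mathlib
import Pool.Agent.Lib.MP_07b2d0_nt.Inf

set_option autoImplicit false

namespace Pool.Agent.Lib.MP_07b2d0_nt.OldGenusTwo

open NumberField IsDedekindDomain

theorem result : ∃ c : ℕ → ℕ → ℕ, Computable₂ c ∧
    ∀ (N : ℕ) (K : Type) [Field K] [NumberField K] (a : Fin 5 → K) (O : Finset (Finset (Fin 5))),
      0 < N → (∀ p : ℕ, p.Prime → (p : ℤ) ∣ discr K → p ∣ N) → Function.Injective a →
      O.card = 4 → (∀ A ∈ O, A.card = 3) →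
      (∀ i j, i ≠ j → ∃ A ∈ O, ¬(i ∈ A ↔ j ∈ A)) → (∀ i, ∃ A ∈ O, i ∈ A) →
      (∀ v : HeightOneSpectrum (𝓞 K), (N : 𝓞 K) ∉ v.asIdeal →
        ∃ A : Finset (Fin 5), A.card = 3 ∧ A ∉ O ∧ ∃ (μ : ℤ) (m : ℕ), ∀ i j, i ≠ j →
          v.valuation K (a i - a j) =
            WithZero.exp (-(μ + if i ∈ A ∧ j ∈ A then 2 * (m : ℤ) else 0))) →
      ∀ i j k, i ≠ j → i ≠ k → j ≠ k →
        Height.logHeight₁ ((a i - a j) / (a i - a k)) ≤ c N (Module.finrank ℚ K) := by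
  refine ⟨fun N D => Lib.MP_07b2d0_nt.g2C (Lib.MP_07b2d0_nt.par N D),
    (Lib.MP_07b2d0_nt.pr_g2C.comp Lib.MP_07b2d0_nt.pr_par).to_comp, ?_⟩
  intro N K _ _ a O hN hd ha hO hO' hp hp' h i j k hij hik hjk
  refine Lib.MP_07b2d0_nt.genus_two' (Lib.MP_07b2d0_nt.small_par hN.ne' hd)
    (Nat.le_add_left _ _) ha O hO hO' hp hp' (fun v hv => ?_) hij hik hjk
  obtain ⟨A, h1, h2, μ, m, hm⟩ := h v.maximalIdeal (Lib.MP_07b2d0_nt.notMem_of_fp_eq_one hv)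
  exact ⟨A, h1, h2, μ, m, fun i j hij => Lib.MP_07b2d0_nt.ord_of_val (hm i j hij)⟩

end Pool.Agent.Lib.MP_07b2d0_nt.OldGenusTwo
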