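import Mathlib
import Pool.Agent.Lib.MP_07b2d0_nt.KG6
import Pool.Agent.Lib.MP_07b2d0_nt.KU1
import Pool.Agent.Lib.MP_07b2d0_nt.Inf

set_option autoImplicit false

namespace Pool.Agent.Lib.MP_07b2d0_nt.OldGenusTwoK

open NumberField Height Pool.Agent.Lib.MP_07b2d0_nt Pool.Agent.Lib.MP_07b2d0_nt.Ks

theorem result : ∃ c : ℕ → ℕ → ℕ, Computable₂ c ∧
    ∀ (N : ℕ) (K F : Type) [Field K] [NumberField K] [Field F]
      [Algebra (AlgebraicClosure K) F]
      [MulSemiringAction (AlgebraicClosure K ≃ₐ[K] AlgebraicClosure K) F] (x y : F)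
      (a : Fin 6 → K) (O : Finset (Finset (Fin 6))),
      2 ∣ N → 0 < N → (∀ p : ℕ, p.Prime → (p : ℤ) ∣ discr K → p ∣ N) →
      Curve K (AlgebraicClosure K) x → Kummer K (AlgebraicClosure K) 2 x y a (fun _ => 1) →
      Function.Injective a → TateUnramified K (AlgebraicClosure K) F 2 N →
      O.card = 4 → (∀ A ∈ O, A.card = 3 ∧ 0 ∈ A) →
      (∀ i j, i ≠ j → ∃ A ∈ O, ¬(i ∈ A ↔ j ∈ A)) →
      (∀ v : FinitePlace K, v (N : K) = 1 → ∀ A ∈ O, ∃ i ∈ A, ∃ i' ∈ A, ∃ j ∉ A, ∃ j' ∉ A,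
        v (a i - a j) * v (a i' - a j') ≤ v (a i - a i') * v (a j - a j')) →
      ∀ p q s t, [p, q, s, t].Nodup →
        logHeight₁ ((a p - a q) * (a s - a t) / ((a p - a s) * (a q - a t))) ≤
          c N (Module.finrank ℚ K) := by
  refine ⟨fun N D => g2C (par N D), (pr_g2C.comp pr_par).to_comp, ?_⟩
  intro N K F _ _ _ _ _ x y a O hN hN0 hd hC ⟨hy, c₀, h0, he⟩ ha hT hO hO' hp h p q s t hq
  have hG : Gen 2 x y (algebraMap K (AlgebraicClosure K) c₀)
      (fun i => algebraMap K (AlgebraicClosure K) (a i)) (fun _ => 1) :=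
    ⟨Nat.prime_two, hC.2.2.1, hC.2.2.2, he, by simpa using h0,
      (algebraMap K _).injective.comp ha, by simp⟩
  have hL := local_K' hG hC hy hN hT
  refine genus_two (small_par hN0.ne' hd) (Nat.le_add_left _ _) ha O hO hO'
    (fun ⟨i, j, hij, H⟩ => ?_) (fun v hv => ?_) p q s t hq
  · obtain ⟨A, hA, H'⟩ := hp i j hij
    exact H' (H A hA)
  · have hv' := fp_eq_one_of_dvd (dvd_mul_left N 2) hv
    refine hyp_of_loc ha (hL v hv').1 (fun i j n l hq => (hL v hv').2 i j n l hq (by simp)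
      (by simp) (by simp) (by simp)) O hO fun A hA hS => ?_
    obtain ⟨i, hi, i', hi', j, hj, j', hj', H⟩ := h v hv' A hA
    exact (hS i hi i' hi' j (Finset.mem_compl.mpr hj) j' (Finset.mem_compl.mpr hj')).not_ge H

end Pool.Agent.Lib.MP_07b2d0_nt.OldGenusTwoK
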