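import Mathlib
import Pool.Agent.Lib.MP_07b2d0_nt.FG

set_option autoImplicit false

namespace Pool.Agent.Lib.MP_07b2d0_nt.OldGoepelSystem

open NumberField Height IsDedekindDomain Pool.Agent.Lib.MP_07b2d0_nt Pool.Agent.Lib.MP_07b2d0_nt.Sch

theorem result : ∃ c : ℕ → ℕ → ℕ, Computable₂ c ∧
    ∀ (N : ℕ) (K : Type) [Field K] [NumberField K] (φ : K →+* ℂ) (τ : Matrix (Fin 4) (Fin 4) ℂ)
      (x : (Fin 4 → Fin 2) → (Fin 4 → Fin 2) → K),
      0 < N → (∀ p : ℕ, p.Prime → (p : ℤ) ∣ discr K → p ∣ N) →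
      τ.IsSymm → (τ.map Complex.im).PosDef → theta τ 0 0 ≠ 0 → schottky τ = 0 →
      (∀ a b, φ (x a b) = (theta τ a b / theta τ 0 0) ^ 8) →
      (∀ v : HeightOneSpectrum (𝓞 K), (N : 𝓞 K) ∉ v.asIdeal →
        (∀ b, v.valuation K (x 0 b) = 1) ∧ ∀ a, a ≠ 0 → ∃ e : WithZero (Multiplicative ℤ),
          v.valuation K (∏ b with Even (∑ i, (a i : ℕ) * (b i : ℕ)), x a b) = e ^ 32) →
      ∀ a b, logHeight₁ (x a b) ≤ c N (Module.finrank ℚ K) := by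
  obtain ⟨c, hc, H⟩ := goepel
  refine ⟨fun N D => c (par N D), (hc.comp pr_par).to_comp, ?_⟩
  intro N K _ _ φ τ x hN hd _ hτ h0 hJ hx hv
  refine H K φ _ N τ x (small_par hN.ne' hd) hτ h0 hJ hx (fun b => ?_) fun a ha v h => ?_
  · refine isU_of_ord (fun h2 => ?_) fun v h => by
      simp [ord, (hv _ (notMem_of_fp_eq_one h)).1 b]
    obtain ⟨v, h3⟩ := exists_place (K := K) hN.ne'
    simpa [h2] using (hv v h3).1 b
  · obtain ⟨e, he⟩ := (hv v h).2 a ha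
    have : ∀ a b : Fin 4 → Fin 2, ∑ i, a i * b i = 0 ↔ Even (∑ i, (a i : ℕ) * (b i : ℕ)) := by
      decide +kernel
    simp only [this]
    rw [he, WithZero.log_pow]
    simp

end Pool.Agent.Lib.MP_07b2d0_nt.OldGoepelSystem
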