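import Mathlib
import Pool.Agent.Lib.MP_07b2d0_nt.KG6
import Pool.Agent.Lib.MP_07b2d0_nt.KH7

set_option autoImplicit false

namespace Pool.Agent.Lib.MP_07b2d0_nt.OldIntegralBranch

open NumberField Height Pool.Agent.Lib.MP_07b2d0_nt Pool.Agent.Lib.MP_07b2d0_nt.Ks

theorem result : ∃ c : ℕ × ℕ × ℕ → ℕ, Computable c ∧
    ∀ (ℓ N B r : ℕ) (K F : Type) [Field K] [NumberField K] [Field F]
      [Algebra (AlgebraicClosure K) F]
      [MulSemiringAction (AlgebraicClosure K ≃ₐ[K] AlgebraicClosure K) F] (x y : F)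
      (a : Fin r → K) (w : Fin r → ℕ) (p q i j : Fin r) (α β : K),
      ℓ.Prime → ℓ ∣ N → 0 < N → (∀ p : ℕ, p.Prime → (p : ℤ) ∣ discr K → p ∣ N) →
      Curve K (AlgebraicClosure K) x →
      Kummer K (AlgebraicClosure K) ℓ x y a w → Function.Injective a → (∀ n, ¬ ℓ ∣ w n) →
      TateUnramified K (AlgebraicClosure K) F ℓ N →
      (∀ I : Finset (Fin r), (∀ n ∉ I, ¬ IsIntegral
        (Algebra.adjoin ℤ (a '' I ∪ {z | logHeight₁ z ≤ B})) (a n)) → ℓ ∣ ∑ n ∈ I, w n) →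
      [p, q, i, j].Nodup → logHeight₁ (a p) ≤ B → logHeight₁ (a q) ≤ B → logHeight₁ α ≤ B →
      logHeight₁ β ≤ B → a j = α * a i + β →
      (ℓ = 2 → α * a p + β ≠ a p ∧ α * a q + β ≠ a q ∧
        (α * a p + β = a q ∨ α * a q + β = a p → α ^ 2 ≠ 1)) →
      ∀ n, logHeight₁ (a n) ≤ c (N, Module.finrank ℚ K, B) := by
  obtain ⟨c, hc, H⟩ := global_int
  refine ⟨fun t => c (par t.1 t.2.1 + t.2.2), (hc.comp (pr_add
    (pr_par.comp (.pair .fst (.comp .fst .snd))) (.comp .snd .snd))).to_comp, ?_⟩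
  intro ℓ N B r K F _ _ _ _ _ x y a w p q i j α β hℓ hN hN0 hd hC ⟨hy, c₀, h0, he⟩ ha
    hw hT hcl hq h1 h2 h3 h4 h5 h6 n
  have hG : Gen ℓ x y (algebraMap K (AlgebraicClosure K) c₀)
      (fun i => algebraMap K (AlgebraicClosure K) (a i)) w :=
    ⟨hℓ, hC.2.2.1, hC.2.2.2, he, by simpa using h0, (algebraMap K _).injective.comp ha,
      hcl Finset.univ (by simp)⟩
  exact H K (Fin r) _ (2 * N) ℓ B a w p q i j α β
    ((small_par hN0.ne' hd).mono (Nat.le_add_right _ _)) (Nat.le_add_left _ _) hℓ (hN.mul_left 2) ha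
    hw ((local_K' hG hC hy hN hT).mono (dvd_mul_left _ _)) hcl hq h1 h2 h3 h4 h5 h6 n

end Pool.Agent.Lib.MP_07b2d0_nt.OldIntegralBranch
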