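import Pool.Agent.Lib.MP_07b2d0_nt.Fh.Top

set_option autoImplicit false

namespace Pool.Agent.Lib.MP_07b2d0_nt.OldKleinHeight

open CategoryTheory AlgebraicGeometry Polynomial NumberField Pool.Agent.Lib.MP_07b2d0_nt
  Pool.Agent.Lib.MP_07b2d0_nt.St

theorem result : ∃ c : ℕ × ℕ × ℕ → ℕ, Computable c ∧
    ∀ (N : ℕ) (g : Fin 3 → ℕ) (k : Type) [Field k] [NumberField k]
      (A : Fin 3 → Over (Spec (.of (ON k N)))) (f : Fin 3 → k[X]),
      0 < N → (∀ p : ℕ, p.Prime → (p : ℤ) ∣ discr k → p ∣ N) → (∏ i, f i).Separable →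
      (∀ i, (f (i + 1) * f (i + 2)).natDegree = 2 * g i + 2) → (∃ i, 2 ≤ g i) →
      (∀ i, (f i).natDegree = 1 → (f (i + 1)).natDegree ≠ 1) →
      (∀ i, AbJac (g i) (ON k N).subtype (f (i + 1) * f (i + 2)) (A i)) →
      ∀ i, 0 < g i → HLe (g i) (ON k N).subtype (A i) (c (N, ∑ n, g n, Module.finrank ℚ k)) := by
  obtain ⟨c, hc, H⟩ := Fh.klein_main
  refine ⟨c, hc, fun N g k _ _ A f h1 h2 h3 h4 h5 h6 hA i hi => ?_⟩
  choose i1 i2 i3 j hJ using fun i => Fh.of_abJac (hA i)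
  exact (@H N g k _ _ A i1 i2 i3 f j h1 h2 h3 h4 h5 h6 hJ i hi).st

end Pool.Agent.Lib.MP_07b2d0_nt.OldKleinHeight
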