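import Mathlib
import Pool.Agent.Lib.MP_07b2d0_nt.KG6
import Pool.Agent.Lib.MP_07b2d0_nt.KT4

set_option autoImplicit false

namespace Pool.Agent.Lib.MP_07b2d0_nt.OldKummerCovers

open NumberField Height Pool.Agent.Lib.MP_07b2d0_nt Pool.Agent.Lib.MP_07b2d0_nt.Ks

theorem result : ∃ c : ℕ → ℕ → ℕ, Computable₂ c ∧
    ∀ (ℓ N m r : ℕ) (K F : Type) [Field K] [NumberField K] [Field F]
      [Algebra (AlgebraicClosure K) F]
      [MulSemiringAction (AlgebraicClosure K ≃ₐ[K] AlgebraicClosure K) F] (x : F) (y : Fin m → F)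
      (a : Fin r → K) (e : Fin m → Fin r → ℕ),
      ℓ.Prime → ℓ ∣ N → 0 < N → (∀ p : ℕ, p.Prime → (p : ℤ) ∣ discr K → p ∣ N) →
      Curve K (AlgebraicClosure K) x →
      (∀ j, Kummer K (AlgebraicClosure K) ℓ x (y j) a (e j)) → Function.Injective a →
      (∀ j, ℓ ∣ ∑ i, e j i) → (∀ i, ∃ j, ¬ ℓ ∣ e j i) →
      (∃ i i', ∀ u : ZMod ℓ, ∃ j, (e j i' : ZMod ℓ) ≠ u * e j i) →
      (ℓ = 2 → ∀ p l, p ≠ l → ∃ i, i ≠ p ∧ i ≠ l ∧ ∃ j, Odd (e j i + e j p + e j l)) →
      TateUnramified K (AlgebraicClosure K) F ℓ N →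
      ∀ p q s t, [p, q, s, t].Nodup →
        logHeight₁ ((a p - a q) * (a s - a t) / ((a p - a s) * (a q - a t))) ≤
          c N (Module.finrank ℚ K) := by
  obtain ⟨c, hc, H⟩ := global_col
  refine ⟨fun N D => c (par N D), (hc.comp pr_par).to_comp, ?_⟩
  intro ℓ N m r K F _ _ _ _ _ x y a e hℓ hN hN0 hd hC hK ha hs h1 h2 h3 hT
    p q s t hq
  choose hy c₀ h0 he using hK
  have := Fact.mk hℓ
  refine H K (Fin r) _ (2 * N) ℓ m a e (small_par hN0.ne' hd) (hN.mul_left 2) ha (fun i hi => ?_)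
    (fun u => ?_) ?_ ?_ (fun h p l hpl => ?_) p q s t hq
  · obtain ⟨j, hj⟩ := h1 i
    exact hj ((ZMod.natCast_eq_zero_iff _ _).mp (congrFun hi j))
  · have hG : Gen ℓ x (∏ j, y j ^ u j) (algebraMap K (AlgebraicClosure K) (∏ j, c₀ j ^ u j))
        (fun i => algebraMap K (AlgebraicClosure K) (a i)) (wt e u) := by
      refine ⟨hℓ, hC.2.2.1, hC.2.2.2, ?_, ?_, (algebraMap K _).injective.comp ha, ?_⟩
      · have e1 : ∀ j, (y j ^ u j) ^ ℓ = (y j ^ ℓ) ^ u j := fun j => by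
          rw [← pow_mul, mul_comm, pow_mul]
        rw [← Finset.prod_pow]
        simp only [e1, he, mul_pow, Finset.prod_mul_distrib, map_prod, map_pow, wt,
          ← Finset.prod_pow_eq_pow_sum, ← Finset.prod_pow]
        rw [Finset.prod_comm]
        simp only [← pow_mul, mul_comm]
      · simp [Finset.prod_eq_zero_iff, h0]
      · simp only [wt]
        rw [Finset.sum_comm]
        exact Finset.dvd_sum fun j _ => by
          rw [← Finset.mul_sum]; exact (hs j).mul_left _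
    exact (local_K' hG hC (fun σ => by simp [Finset.smul_prod', smul_pow', hy _ σ]) hN hT).mono (dvd_mul_left _ _)
  · funext j
    simp only [col, Finset.sum_apply, Pi.zero_apply, ← Nat.cast_sum]
    exact (ZMod.natCast_eq_zero_iff _ _).mpr (hs j)
  · obtain ⟨i, i', h⟩ := h2
    refine ⟨i, i', fun ⟨u, hu⟩ => ?_⟩
    obtain ⟨j, hj⟩ := h u
    exact hj (congrFun hu j)
  · obtain ⟨i, hi, hi', j, hj⟩ := h3 h p l hpl
    refine ⟨i, hi, hi', fun h' => ?_⟩
    subst h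
    have e1 : ((e j i : ℕ) : ZMod 2) = ((e j p + e j l : ℕ) : ZMod 2) := by
      simpa [col] using congrFun h' j
    rw [ZMod.natCast_eq_natCast_iff'] at e1
    rw [Nat.odd_iff] at hj
    omega

end Pool.Agent.Lib.MP_07b2d0_nt.OldKummerCovers
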