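import Mathlib
import Pool.Agent.Lib.MP_07b2d0_nt.Many

set_option autoImplicit false

namespace Pool.Agent.Lib.MP_07b2d0_nt.OldManyPictures

open NumberField IsDedekindDomain Polynomial Pool.Agent.Lib.MP_07b2d0_nt

theorem result : ∃ (g₀ : ℕ → ℕ) (c : ℕ × ℕ × ℕ → ℕ), Computable g₀ ∧ Computable c ∧
    ∀ (t g N : ℕ) (K L : Type) [Field K] [NumberField K] [Field L] [NumberField L] [Algebra K L]
      (a : Fin (2 * g + 1) → K)
      (S : Finset (Set (Fin (2 * g + 1) × Fin (2 * g + 1) × Fin (2 * g + 1)))),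
      g₀ t ≤ g → 0 < N → (∀ p : ℕ, p.Prime → (p : ℤ) ∣ discr L → p ∣ N) → Function.Injective a →
      S.card ≤ t →
      (∀ v : HeightOneSpectrum (𝓞 K), (N : 𝓞 K) ∉ v.asIdeal →
        {x | v.valuation K (a x.1 - a x.2.1) < v.valuation K (a x.1 - a x.2.2)} ∈ S) →
      FourTorsionRational (∏ i, (X - C (algebraMap K L (a i)))) →
      ∀ i j k, i ≠ j → i ≠ k → j ≠ k →
        Height.logHeight₁ ((a i - a j) / (a i - a k)) ≤ c (t, N, Module.finrank ℚ L) := by
  refine ⟨fun t => ram (8 ^ t) 3 (4 * t + 4), fun x => finC x.1 x.2.1 x.2.2,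
    ((pr_ram 3).comp (.pair (pr_pow (.const 8) .id)
      (pr_add (pr_mul (.const 4) .id) (.const 4)))).to_comp, pr_finC.to_comp, ?_⟩
  intro t g N K L _ _ _ _ _ a S hg hN hd ha hS h h4 i j k hij hik hjk
  have := many_pics (φ := algebraMap K L) (small_par hN.ne' hd) ha (hg.trans (by omega))
    (fun i j hij => isSquare_of_fourTorsion ((algebraMap K L).injective.comp ha) h4 hij)
    hS (fun v hv => h v.maximalIdeal (notMem_of_fp_eq_one hv)) hij hik hjk
  simp only [finC, Nat.cast_mul, Nat.cast_ofNat]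
  exact this

end Pool.Agent.Lib.MP_07b2d0_nt.OldManyPictures
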