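import Mathlib
import Pool.Agent.Lib.MP_07b2d0_nt.PA4

set_option autoImplicit false

namespace Pool.Agent.Lib.MP_07b2d0_nt.OldPellAbel

open NumberField Height Polynomial Pool.Agent.Lib.MP_07b2d0_nt Pool.Agent.Lib.MP_07b2d0_nt.Ks

theorem result : ∃ c : ℕ → ℕ → ℕ, Computable₂ c ∧
    ∀ (N r : ℕ) (K F : Type) [Field K] [NumberField K] [Field F]
      [Algebra (AlgebraicClosure K) F]
      [MulSemiringAction (AlgebraicClosure K ≃ₐ[K] AlgebraicClosure K) F] (x y : F)
      (a : Fin r → K) (u w : (AlgebraicClosure K)[X]),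
      2 ∣ N → 0 < N → (∀ p : ℕ, p.Prime → (p : ℤ) ∣ discr K → p ∣ N) →
      Curve K (AlgebraicClosure K) x →
      (∀ σ : AlgebraicClosure K ≃ₐ[K] AlgebraicClosure K, σ • y = y) →
      y ^ 2 = ∏ i, (x - algebraMap (AlgebraicClosure K) F
        (algebraMap K (AlgebraicClosure K) (a i))) →
      Function.Injective a → w ≠ 0 →
      u ^ 2 - (∏ i, ((X : (AlgebraicClosure K)[X]) -
        C (algebraMap K (AlgebraicClosure K) (a i)))) * w ^ 2 = 1 →
      TateUnramified K (AlgebraicClosure K) F 2 N →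
      ∀ i j k l, logHeight₁ ((a i - a j) / (a k - a l)) ≤ c N (Module.finrank ℚ K) := by
  obtain ⟨c, hc, H⟩ := global_pell
  refine ⟨fun N D => c (par N D), (hc.comp pr_par).to_comp, ?_⟩
  intro N r K F _ _ _ _ _ x y a u w hN hN0 hd hC hy he ha hw hP hT i
  have : Nonempty (Fin r) := ⟨i⟩
  have ha' := (algebraMap K (AlgebraicClosure K)).injective.comp ha
  have h3 : Even (Fintype.card (Fin r)) := by
    have := pa1_udeg hw hP
    rw [Nat.even_iff]
    omega
  obtain ⟨u, w, hw, hP, h1, j, h2⟩ := pell_colours ha' _ u w rfl hw hP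
  have hG : Gen 2 x y (1 : AlgebraicClosure K)
      (fun i => algebraMap K (AlgebraicClosure K) (a i)) (fun _ => 1) :=
    ⟨Nat.prime_two, hC.2.2.1, hC.2.2.2, by simpa using he, one_ne_zero, ha',
      by simpa using h3.two_dvd⟩
  refine H K (Fin r) _ (2 * N) a _ (small_par hN0.ne' hd) ha h3
    ((local_P (MulSemiringAction.toRingAut _ F) hG hC.1 hC.2.1 hy hN
      (fun A hA σ hσ => hT σ ⟨A, hA, σ, hσ, rfl⟩) hw hP).mono (dvd_mul_left _ _)) h1
    ⟨j, fun h => ?_⟩ i
  exact (by norm_num : (1 : AlgebraicClosure K) ≠ -1) (h.symm.trans h2)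

end Pool.Agent.Lib.MP_07b2d0_nt.OldPellAbel
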