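import Pool.Agent.Results.MP_07b2d0_nt.TorsionHeight
import Pool.Agent.Lib.MP_07b2d0_nt.Tq.PellJ
import Pool.Agent.Lib.MP_07b2d0_nt.Tq.PellT

/-!
The former hand-in `PellHeight` as a special case of `TorsionHeight`.
-/

set_option autoImplicit false

namespace Pool.Agent.Lib.MP_07b2d0_nt.OldPellHeight

open CategoryTheory AlgebraicGeometry Polynomial NumberField Pool.Agent.Lib.MP_07b2d0_nt
  Pool.Agent.Lib.MP_07b2d0_nt.St

theorem result : ∃ c : ℕ × ℕ × ℕ → ℕ, Computable c ∧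
    ∀ (N g : ℕ) (k : Type) [Field k] [NumberField k] (A : Over (Spec (.of (ON k N))))
      (f : k[X]) (u w : (AlgebraicClosure k)[X]),
      0 < N → 2 ≤ g → (∀ p : ℕ, p.Prime → (p : ℤ) ∣ discr k → p ∣ N) →
      f.Monic → f.Separable → f.natDegree = 2 * g + 2 → w ≠ 0 →
      u ^ 2 - f.map (algebraMap k (AlgebraicClosure k)) * w ^ 2 = 1 →
      AbJac g (ON k N).subtype f A →
      HLe g (ON k N).subtype A (c (N, g, Module.finrank ℚ k)) := by
  obtain ⟨c, hc, H⟩ := Results.MP_07b2d0_nt.TorsionHeight.result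
  refine ⟨c, hc, fun N g k _ _ A f u w h1 h2 h3 h4 h5 h6 h7 h8 hA => ?_⟩
  obtain ⟨a, ha, hf⟩ := Fh.exists_enum (h5.map (f := algebraMap k (AlgebraicClosure k)))
    (IsAlgClosed.splits _) ((natDegree_map _).trans h6)
  rw [(h4.map _).leadingCoeff] at hf
  exact H 2 N g (2 * g + 2) k A f 1 a (fun _ => 1) Nat.prime_two h1 h3 (by simpa using hf)
    one_ne_zero ha (fun _ => by omega) (by simp) (by omega) (by omega)
    (Tq.tor_of_pell h4 h5 h6 h7 h8) (Tq.kumJac_of_abJac hA)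

end Pool.Agent.Lib.MP_07b2d0_nt.OldPellHeight
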