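import Mathlib
import Pool.Agent.Lib.MP_07b2d0_nt.Two

set_option autoImplicit false

namespace Pool.Agent.Lib.MP_07b2d0_nt.OldTwoPictures

open NumberField IsDedekindDomain Polynomial Pool.Agent.Lib.MP_07b2d0_nt

theorem result : ∃ c : ℕ → ℕ → ℕ, Computable₂ c ∧
    ∀ (g N : ℕ) (K L : Type) [Field K] [NumberField K] [Field L] [NumberField L] [Algebra K L]
      (a : Fin (2 * g + 1) → K)
      (P Q : Set (Fin (2 * g + 1) × Fin (2 * g + 1) × Fin (2 * g + 1))),
      2 ≤ g → 0 < N → (∀ p : ℕ, p.Prime → (p : ℤ) ∣ discr L → p ∣ N) → Function.Injective a →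
      (∀ v : HeightOneSpectrum (𝓞 K), (N : 𝓞 K) ∉ v.asIdeal →
        {x | v.valuation K (a x.1 - a x.2.1) < v.valuation K (a x.1 - a x.2.2)} = P ∨
        {x | v.valuation K (a x.1 - a x.2.1) < v.valuation K (a x.1 - a x.2.2)} = Q ∨
        ∀ i j k, i ≠ j → i ≠ k → v.valuation K (a i - a j) = v.valuation K (a i - a k)) →
      FourTorsionRational (∏ i, (X - C (algebraMap K L (a i)))) →
      ∀ i j k, i ≠ j → i ≠ k → j ≠ k →
        Height.logHeight₁ ((a i - a j) / (a i - a k)) ≤ c N (Module.finrank ℚ L) := by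
  classical
  refine ⟨finC 2, (pr_finC.comp (.pair (.const 2) .id)).to_comp, ?_⟩
  intro g N K L _ _ _ _ _ a P Q hg hN hd ha h h4 i j k hij hik hjk
  obtain ⟨m, hm⟩ : ∃ m, m ∉ ({i, j, k} : Finset (Fin (2 * g + 1))) := by
    by_contra h0
    have h1 : (Finset.univ : Finset (Fin (2 * g + 1))) ⊆ {i, j, k} :=
      fun m _ => not_not.mp fun h1 => h0 ⟨m, h1⟩
    have h2 := (Finset.card_le_card h1).trans Finset.card_le_three
    rw [Finset.card_univ, Fintype.card_fin] at h2
    omega
  simp only [Finset.mem_insert, Finset.mem_singleton, not_or] at hm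
  have he : Function.Injective ![i, j, k, m] := by
    rw [← List.nodup_ofFn]
    exact nodup4.mpr ⟨hij, hik, Ne.symm hm.1, hjk, Ne.symm hm.2.1, Ne.symm hm.2.2⟩
  have := two_pics (φ := algebraMap K L) (small_par hN.ne' hd)
    (by unfold par; omega) (ha.comp he)
    (fun i j hij => isSquare_of_fourTorsion ((algebraMap K L).injective.comp ha) h4 (he.ne hij))
    (P := Prod.map ![i, j, k, m] (Prod.map ![i, j, k, m] ![i, j, k, m]) ⁻¹' P)
    (Q := Prod.map ![i, j, k, m] (Prod.map ![i, j, k, m] ![i, j, k, m]) ⁻¹' Q) fun v hv => by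
      rcases h v.maximalIdeal (notMem_of_fp_eq_one hv) with e | e | e
      · exact .inl (e ▸ rfl)
      · exact .inr (.inl (e ▸ rfl))
      · refine .inr (.inr fun i j k h1 h2 => ?_)
        unfold ord
        rw [Function.comp, Function.comp, Function.comp, e _ _ _ (he.ne h1) (he.ne h2)]
  rw [finC, Nat.cast_mul, Nat.cast_ofNat, Function.iterate_succ_apply', Function.iterate_one]
  exact this

end Pool.Agent.Lib.MP_07b2d0_nt.OldTwoPictures
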